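import Pool.Agent.CGU.XTh
import Mathlib.NumberTheory.NumberField.Basic

/-!
# Assembly: selected places and conjugation
-/

noncomputable section

set_option linter.unusedSectionVars false

namespace Pool.Agent.CGU

open NumberField IsDedekindDomain Matrix
open Pool.Agent.CG2 (Pl Fv Ov GalF Fbar Zbar Over IsInertia IsFrob Nm IsRay TotPos expo)
open Pool.Agent.CG2.GalFinAux (below)
open Pool.Agent.CGQ
open Pool.Agent.CGN (Split incj abv mem_abv Sel PPow)

variable {F : Type} [Field F] [NumberField F] {K : Type} [Field K] [NumberField K] [Algebra F K]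

/-- The place `W'` is the conjugate of the place `W` by the automorphism `σ`. -/
def ConjP {L : Type} [Field L] [NumberField L] (σ : L ≃+* L) (W W' : Pl L) : Prop :=
  ∀ x x' : 𝓞 L, (x' : L) = σ (x : L) → (x ∈ W.asIdeal ↔ x' ∈ W'.asIdeal)

/- MODULE A1 -/
/-- The conjugate place. -/
private def A1_cj {L : Type} [Field L] [NumberField L] (σ : L ≃+* L) (W : Pl L) : Pl L where
  asIdeal := W.asIdeal.comap (RingOfIntegers.mapRingEquiv σ).symm
  isPrime := by
    have := W.isPrime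
    exact Ideal.comap_isPrime _ _
  ne_bot := by
    intro h
    obtain ⟨x, hx, hx0⟩ := Submodule.exists_mem_ne_zero_of_ne_bot W.ne_bot
    have h1 : RingOfIntegers.mapRingEquiv σ x ∈ W.asIdeal.comap (RingOfIntegers.mapRingEquiv σ).symm := by
      rw [Ideal.mem_comap]
      have h2 : (RingOfIntegers.mapRingEquiv σ).symm (RingOfIntegers.mapRingEquiv σ x) = x :=
        RingEquiv.symm_apply_apply _ _
      rw [h2]
      exact hx
    rw [h, Ideal.mem_bot] at h1
    exact hx0 ((map_eq_zero_iff _ (RingEquiv.injective _)).1 h1)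

private theorem A1_mem {L : Type} [Field L] [NumberField L] (σ : L ≃+* L) (W : Pl L) (x : 𝓞 L) :
    x ∈ (A1_cj σ W).asIdeal ↔ (RingOfIntegers.mapRingEquiv σ).symm x ∈ W.asIdeal := Iff.rfl

private theorem A1_mem' {L : Type} [Field L] [NumberField L] (σ : L ≃+* L) (W : Pl L) (x : 𝓞 L) :
    RingOfIntegers.mapRingEquiv σ x ∈ (A1_cj σ W).asIdeal ↔ x ∈ W.asIdeal := by
  rw [A1_mem, RingEquiv.symm_apply_apply]

private theorem A1_iff {L : Type} [Field L] [NumberField L] (σ : L ≃+* L) (W W' : Pl L) :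
    ConjP σ W W' ↔ W' = A1_cj σ W := by
  constructor
  · intro h
    apply HeightOneSpectrum.ext
    ext x
    rw [A1_mem]
    refine (h ((RingOfIntegers.mapRingEquiv σ).symm x) x ?_).symm
    rw [RingOfIntegers.mapRingEquiv_symm_apply, RingEquiv.apply_symm_apply]
  · rintro rfl x x' h
    have h1 : x' = RingOfIntegers.mapRingEquiv σ x := by
      apply RingOfIntegers.ext
      rw [h, RingOfIntegers.mapRingEquiv_apply]
    rw [h1, A1_mem']

private theorem A1_symm {L : Type} [Field L] [NumberField L] (σ : L ≃+* L) (W : Pl L) :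
    A1_cj σ.symm (A1_cj σ W) = W := by
  apply HeightOneSpectrum.ext
  ext x
  rw [A1_mem, A1_mem]
  have h : (RingOfIntegers.mapRingEquiv σ).symm ((RingOfIntegers.mapRingEquiv σ.symm).symm x) = x := by
    apply RingOfIntegers.ext
    rw [RingOfIntegers.mapRingEquiv_symm_apply, RingOfIntegers.mapRingEquiv_symm_apply]
    exact σ.symm_apply_apply _
  rw [h]

/-- **A1** (1). Every place has a unique conjugate.

PROOF. `W' = W.map` of the automorphism of `𝓞 L` (`RingOfIntegers.mapRingEquiv σ`), i.e. the comap by its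
inverse. -/
theorem exists_conjP {L : Type} [Field L] [NumberField L] (σ : L ≃+* L) (W : Pl L) :
    ∃! W' : Pl L, ConjP σ W W' := by
  exact ⟨A1_cj σ W, (A1_iff σ W _).2 rfl, fun W' h => (A1_iff σ W W').1 h⟩

set_option linter.deprecated false in
private theorem A1_ef {v : Pl F} {P : Finset (Pl K)} (hP : ∀ w, w ∈ P ↔ below F w = v)
    (hcard : P.card = Module.finrank F K) {w : Pl K} (hw : w ∈ P) :
    v.asIdeal.inertiaDeg' w.asIdeal = 1 := by
  classical
  have hvm : v.asIdeal.IsMaximal := v.isMaximal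
  have hsum := Ideal.sum_ramification_inertia (𝓞 K) F K (p := v.asIdeal) v.ne_bot
  have himg : IsDedekindDomain.primesOverFinset v.asIdeal (𝓞 K) = P.image fun w => w.asIdeal := by
    ext Q
    rw [IsDedekindDomain.mem_primesOverFinset_iff v.ne_bot, Finset.mem_image]
    constructor
    · rintro ⟨hQ, hQ'⟩
      have hQ0 : Q ≠ ⊥ := by
        rintro rfl
        have h1 : v.asIdeal = ⊥ := by
          have h2 := hQ'.over
          rw [h2]
          exact Ideal.under_bot _ _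
        exact v.ne_bot h1
      refine ⟨⟨Q, hQ, hQ0⟩, (hP _).2 ?_, rfl⟩
      exact HeightOneSpectrum.ext hQ'.over.symm
    · rintro ⟨w', hw', rfl⟩
      refine ⟨w'.isPrime, ?_⟩
      exact CG2.GalFinAux.liesOver_of_lies (CG2.GalFinAux.lies_iff.2 ((hP _).1 hw'))
  rw [himg, Finset.sum_image (fun a _ b _ h => HeightOneSpectrum.ext h), ← hcard,
    Finset.card_eq_sum_ones] at hsum
  have hpos : ∀ w' ∈ P, 1 ≤ v.asIdeal.ramificationIdx' w'.asIdeal *
      v.asIdeal.inertiaDeg' w'.asIdeal := by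
    intro w' hw'
    have h1 : w'.asIdeal.LiesOver v.asIdeal :=
      CG2.GalFinAux.liesOver_of_lies (CG2.GalFinAux.lies_iff.2 ((hP _).1 hw'))
    have h2 : w'.asIdeal.IsPrime := w'.isPrime
    refine Right.one_le_mul ?_ ?_
    · exact Nat.pos_iff_ne_zero.mpr <|
        Ideal.IsDedekindDomain.ramificationIdx'_ne_zero_of_liesOver _ v.ne_bot
    · exact Nat.pos_iff_ne_zero.mpr <| Ideal.inertiaDeg'_ne_zero v.asIdeal w'.asIdeal
  have h3 := (Finset.sum_eq_sum_iff_of_le hpos).1 hsum.symm w hw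
  exact (mul_eq_one.1 h3.symm).2

/-- **A1** (2). At a place which splits completely in the quadratic extension the norms agree.

PROOF. `Ideal.sum_ramification_inertia` with two places: `e f = 1` for both; the residue fields have the same
number of elements (`Ideal.absNorm_eq_pow_inertiaDeg` or the like). Compare `CGN.split_ef` (USpl.lean in
CGN_U.tar: copy it). -/
theorem nm_split (hdeg : Module.finrank F K = 2) {w : Pl K} (h : Split K (below F w)) :
    Nm w = Nm (below F w) := by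
  classical
  have hw : w ∈ abv K (below F w) := mem_abv.2 rfl
  have h1 := (A1_ef (fun w' => mem_abv) h hw)
  have hlo : w.asIdeal.LiesOver (below F w).asIdeal :=
    CG2.GalFinAux.liesOver_of_lies (CG2.GalFinAux.lies_iff.2 rfl)
  have hvm : (below F w).asIdeal.IsMaximal := (below F w).isMaximal
  have hwm : w.asIdeal.IsMaximal := w.isMaximal
  rw [Ideal.inertiaDeg'_algebraMap] at h1
  let _ : Field (𝓞 F ⧸ (below F w).asIdeal) := Ideal.Quotient.field _
  let _ : Field (𝓞 K ⧸ w.asIdeal) := Ideal.Quotient.field _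
  have h2 := (Algebra.finrank_eq_one_iff_bijective_algebraMap (F := 𝓞 F ⧸ (below F w).asIdeal)
    (E := 𝓞 K ⧸ w.asIdeal)).1 h1
  unfold Nm
  rw [Ideal.absNorm_apply, Ideal.absNorm_apply, Submodule.cardQuot_apply, Submodule.cardQuot_apply]
  exact (Nat.card_congr (Equiv.ofBijective _ h2)).symm
/- END A1 -/

/- MODULE A2 -/
/-- The conjugation of places. -/
private def A2_map {M : Type} [Field M] [NumberField M] (τ : M ≃+* M) (W : Pl M) : Pl M := A1_cj τ W

private theorem A2_below {M : Type} [Field M] [NumberField M] [Algebra K M] (c : K ≃+* K) (τ : M ≃+* M)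
    (hcτ : ∀ a : K, τ (algebraMap K M a) = algebraMap K M (c a)) (W : Pl M) :
    below K (A1_cj τ W) = A1_cj c (below K W) := by
  apply HeightOneSpectrum.ext
  ext a
  rw [A1_mem]
  show algebraMap (𝓞 K) (𝓞 M) a ∈ (A1_cj τ W).asIdeal ↔
    algebraMap (𝓞 K) (𝓞 M) ((RingOfIntegers.mapRingEquiv c).symm a) ∈ W.asIdeal
  rw [A1_mem]
  have h : (RingOfIntegers.mapRingEquiv τ).symm (algebraMap (𝓞 K) (𝓞 M) a) =
      algebraMap (𝓞 K) (𝓞 M) ((RingOfIntegers.mapRingEquiv c).symm a) := by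
    apply RingOfIntegers.ext
    rw [RingOfIntegers.mapRingEquiv_symm_apply]
    have h1 : ((algebraMap (𝓞 K) (𝓞 M) a : 𝓞 M) : M) = algebraMap K M (a : K) := rfl
    have h2 : ((algebraMap (𝓞 K) (𝓞 M) ((RingOfIntegers.mapRingEquiv c).symm a) : 𝓞 M) : M) =
      algebraMap K M (((RingOfIntegers.mapRingEquiv c).symm a : 𝓞 K) : K) := rfl
    rw [h1, h2, RingEquiv.symm_apply_eq, hcτ, RingOfIntegers.mapRingEquiv_symm_apply,
      RingEquiv.apply_symm_apply]
  rw [h]

private theorem A2_abv {M : Type} [Field M] [NumberField M] [Algebra K M] (c : K ≃+* K) (τ : M ≃+* M)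
    (hcτ : ∀ a : K, τ (algebraMap K M a) = algebraMap K M (c a)) {w : Pl K} {W : Pl M}
    (hW : W ∈ abv M w) : A2_map τ W ∈ abv M (A1_cj c w) := by
  rw [mem_abv] at hW ⊢
  rw [A2_map, A2_below c τ hcτ, hW]

private theorem A2_inj {M : Type} [Field M] [NumberField M] (τ : M ≃+* M) {W W' : Pl M}
    (h : A2_map τ W = A2_map τ W') : W = W' := by
  have h1 := congrArg (A1_cj τ.symm) h
  rw [A2_map, A2_map, A1_symm, A1_symm] at h1
  exact h1

private theorem A2_surj {M : Type} [Field M] [NumberField M] [Algebra K M] (c : K ≃+* K) (τ : M ≃+* M)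
    (hcτ : ∀ a : K, τ (algebraMap K M a) = algebraMap K M (c a)) {w : Pl K} {W : Pl M}
    (hW : W ∈ abv M (A1_cj c w)) : ∃ V ∈ (abv M w : Set (Pl M)), A2_map τ V = W := by
  have hcτ' : ∀ a : K, τ.symm (algebraMap K M a) = algebraMap K M (c.symm a) := by
    intro a
    rw [RingEquiv.symm_apply_eq, hcτ, RingEquiv.apply_symm_apply]
  refine ⟨A1_cj τ.symm W, ?_, ?_⟩
  · have h1 := A2_abv c.symm τ.symm hcτ' hW
    rw [A1_symm] at h1
    exact h1
  · have h2 := A1_symm τ.symm W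
    rw [RingEquiv.symm_symm] at h2
    exact h2

/-- The transport of `PPow`. -/
private theorem A2_pp {M : Type} [Field M] [NumberField M] [Algebra K M] (c : K ≃+* K) (τ : M ≃+* M)
    (hcτ : ∀ a : K, τ (algebraMap K M a) = algebraMap K M (c a)) {w : Pl K} {W W' : Pl M}
    (hW : below K W = w) (hW' : below K W' = w) {t : (𝓞 M)ˣ}
    (ht : RingOfIntegers.mapRingEquiv τ (t : 𝓞 M) * (t : 𝓞 M) = 1) {m : ℕ}
    (h : PPow w m W W' (t : 𝓞 M)) : PPow (A1_cj c w) m (A1_cj τ W) (A1_cj τ W') (t : 𝓞 M) := by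
  obtain ⟨a, b, x, ha, hb, hab⟩ := h
  have hbl : ∀ {V : Pl M}, below K V = w → ∀ z : 𝓞 K, z ∈ (A1_cj c w).asIdeal →
      algebraMap (𝓞 K) (𝓞 M) z ∈ (A1_cj τ V).asIdeal := by
    intro V hV z hz
    rw [← hV, ← A2_below c τ hcτ V] at hz
    exact hz
  have hbl' : ∀ {V : Pl M}, below K V = w → ∀ z : 𝓞 K,
      algebraMap (𝓞 K) (𝓞 M) z ∈ (A1_cj τ V).asIdeal → z ∈ (A1_cj c w).asIdeal := by
    intro V hV z hz
    rw [← hV, ← A2_below c τ hcτ V]
    exact hz
  have hal : ∀ z : 𝓞 K, RingOfIntegers.mapRingEquiv τ (algebraMap (𝓞 K) (𝓞 M) z) =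
      algebraMap (𝓞 K) (𝓞 M) (RingOfIntegers.mapRingEquiv c z) := by
    intro z
    apply RingOfIntegers.ext
    rw [RingOfIntegers.mapRingEquiv_apply]
    exact hcτ _
  -- the conjugate congruences
  have hc1 : ∀ {V : Pl M} {z : 𝓞 K}, algebraMap (𝓞 K) (𝓞 M) z - (t : 𝓞 M) ∈ V.asIdeal →
      algebraMap (𝓞 K) (𝓞 M) (RingOfIntegers.mapRingEquiv c z) -
        RingOfIntegers.mapRingEquiv τ (t : 𝓞 M) ∈ (A1_cj τ V).asIdeal := by
    intro V z hz
    rw [← hal, ← map_sub, A1_mem']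
    exact hz
  have hA := hc1 ha
  have hB := hc1 hb
  have hAB : RingOfIntegers.mapRingEquiv c a - RingOfIntegers.mapRingEquiv c x ^ m *
      RingOfIntegers.mapRingEquiv c b ∈ (A1_cj c w).asIdeal := by
    rw [← map_pow, ← map_mul, ← map_sub, A1_mem']
    exact hab
  set A := RingOfIntegers.mapRingEquiv c a
  set B := RingOfIntegers.mapRingEquiv c b
  set X := RingOfIntegers.mapRingEquiv c x
  set I := (A1_cj c w).asIdeal
  have hmax : I.IsMaximal := (A1_cj c w).isMaximal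
  let _ : Field (𝓞 K ⧸ I) := Ideal.Quotient.field _
  obtain ⟨A', hA'⟩ := Ideal.Quotient.mk_surjective ((Ideal.Quotient.mk I A)⁻¹)
  obtain ⟨B', hB'⟩ := Ideal.Quotient.mk_surjective ((Ideal.Quotient.mk I B)⁻¹)
  obtain ⟨X', hX'⟩ := Ideal.Quotient.mk_surjective ((Ideal.Quotient.mk I X)⁻¹)
  have hne : ∀ {V : Pl M}, below K V = w → ∀ {Z : 𝓞 K}, algebraMap (𝓞 K) (𝓞 M) Z -
      RingOfIntegers.mapRingEquiv τ (t : 𝓞 M) ∈ (A1_cj τ V).asIdeal → Ideal.Quotient.mk I Z ≠ 0 := by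
    intro V hV Z hZ hcon
    rw [Ideal.Quotient.eq_zero_iff_mem] at hcon
    have h1 := hbl hV Z hcon
    have h2 := Ideal.sub_mem _ h1 hZ
    rw [sub_sub_cancel] at h2
    have h3 := Ideal.mul_mem_right (t : 𝓞 M) _ h2
    rw [ht] at h3
    exact (A1_cj τ V).isPrime.ne_top ((Ideal.eq_top_iff_one _).2 h3)
  have key : ∀ {V : Pl M}, below K V = w → ∀ {Z Z' : 𝓞 K}, algebraMap (𝓞 K) (𝓞 M) Z -
      RingOfIntegers.mapRingEquiv τ (t : 𝓞 M) ∈ (A1_cj τ V).asIdeal →
      Ideal.Quotient.mk I Z' = (Ideal.Quotient.mk I Z)⁻¹ →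
      algebraMap (𝓞 K) (𝓞 M) Z' - (t : 𝓞 M) ∈ (A1_cj τ V).asIdeal := by
    intro V hV Z Z' hZ hZZ
    have h1 : Z' * Z - 1 ∈ I := by
      rw [← Ideal.Quotient.eq, map_mul, hZZ, inv_mul_cancel₀ (hne hV hZ), map_one]
    have h2 := hbl hV _ h1
    rw [map_sub, map_mul, map_one] at h2
    have h3 : algebraMap (𝓞 K) (𝓞 M) Z' - (t : 𝓞 M) =
        (algebraMap (𝓞 K) (𝓞 M) Z' * algebraMap (𝓞 K) (𝓞 M) Z - 1) * (t : 𝓞 M) -
        algebraMap (𝓞 K) (𝓞 M) Z' * (t : 𝓞 M) * (algebraMap (𝓞 K) (𝓞 M) Z -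
          RingOfIntegers.mapRingEquiv τ (t : 𝓞 M)) := by
      linear_combination (-algebraMap (𝓞 K) (𝓞 M) Z') * ht
    rw [h3]
    exact Ideal.sub_mem _ (Ideal.mul_mem_right _ _ h2) (Ideal.mul_mem_left _ _ hZ)
  refine ⟨A', B', X', key hW hA hA', key hW' hB hB', ?_⟩
  rw [← Ideal.Quotient.eq, map_mul, map_pow, hA', hB', hX']
  have h4 : Ideal.Quotient.mk I A = Ideal.Quotient.mk I X ^ m * Ideal.Quotient.mk I B := by
    rw [← map_pow, ← map_mul, Ideal.Quotient.eq]
    exact hAB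
  rw [h4, mul_inv, inv_pow]

/-- **A2**. The conjugate of a selected place is selected.

PROOF. `abv M w₂` is the image of `abv M w₁` under the conjugation `W ↦ W'` by `τ` (`exists_conjP`; `τ` extends
`c`: a place over `w₁` is mapped to one over `w₂`; the conjugation by `τ⁻¹` is the inverse map), so the numbers of
elements agree. `PPow w₁ m W W₁ t ↔ PPow w₂ m W' W₁' t` for `t = u, e`: let `a, b, x : 𝓞 K` be as in `PPow` for
`w₁`; then `c a - τ t ∈ W'`, `c b - τ t ∈ W₁'`, `c a - (c x)^m c b ∈ w₂`, and `τ t = t⁻¹`. `c a` and `c b` are not in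
`w₂`, also `c x` is not if `m ≠ 0`; let `a', b', x'` be inverses modulo `w₂` (the residue field is a field;
if `m = 0` take `x' = 1`): `a' - t ∈ W'` (multiply `c a - t⁻¹` by `t a'`), `b' - t ∈ W₁'`, `a' - x'^m b' ∈ w₂`. The
converse by symmetry (`τ⁻¹`, `c⁻¹`). -/
theorem sel_conj {M : Type} [Field M] [NumberField M] [Algebra K M] (c : K ≃+* K) (τ : M ≃+* M)
    (hcτ : ∀ a : K, τ (algebraMap K M a) = algebraMap K M (c a)) {u e : (𝓞 M)ˣ}
    (hu1 : τ ((u : 𝓞 M) : M) * ((u : 𝓞 M) : M) = 1)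
    (he1 : τ ((e : 𝓞 M) : M) * ((e : 𝓞 M) : M) = 1) {w₁ w₂ : Pl K} (hw : ConjP c w₁ w₂) {m : ℕ}
    (h : Sel M u e m w₁) : Sel M u e m w₂ := by
  classical
  have hw2 : w₂ = A1_cj c w₁ := (A1_iff c w₁ w₂).1 hw
  have ht : ∀ t : (𝓞 M)ˣ, τ ((t : 𝓞 M) : M) * ((t : 𝓞 M) : M) = 1 →
      RingOfIntegers.mapRingEquiv τ (t : 𝓞 M) * (t : 𝓞 M) = 1 := by
    intro t h1
    apply RingOfIntegers.ext
    exact h1
  have hcτ' : ∀ a : K, τ.symm (algebraMap K M a) = algebraMap K M (c.symm a) := by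
    intro a
    rw [RingEquiv.symm_apply_eq, hcτ, RingEquiv.apply_symm_apply]
  have ht' : ∀ t : (𝓞 M)ˣ, τ ((t : 𝓞 M) : M) * ((t : 𝓞 M) : M) = 1 →
      RingOfIntegers.mapRingEquiv τ.symm (t : 𝓞 M) * (t : 𝓞 M) = 1 := by
    intro t h1
    apply RingOfIntegers.ext
    show τ.symm ((t : 𝓞 M) : M) * ((t : 𝓞 M) : M) = 1
    apply τ.injective
    rw [map_mul, RingEquiv.apply_symm_apply, map_one, mul_comm]
    exact h1
  refine ⟨?_, ?_, ?_⟩
  · show (abv M w₂).card = Module.finrank K M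
    rw [← h.split, hw2]
    exact (Finset.card_nbij (A2_map τ) (fun W hW => A2_abv c τ hcτ hW)
      (fun W _ W' _ hWW => A2_inj τ hWW) (fun W hW => A2_surj c τ hcτ hW)).symm
  · intro W hW W' hW'
    rw [hw2] at hW hW' ⊢
    obtain ⟨V, hV, rfl⟩ := A2_surj c τ hcτ hW
    obtain ⟨V', hV', rfl⟩ := A2_surj c τ hcτ hW'
    exact A2_pp c τ hcτ (mem_abv.1 hV) (mem_abv.1 hV') (ht u hu1) (h.pw V hV V' hV')
  · intro W hW W' hW' hne hcon
    rw [hw2] at hW hW' hcon
    obtain ⟨V, hV, rfl⟩ := A2_surj c τ hcτ hW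
    obtain ⟨V', hV', rfl⟩ := A2_surj c τ hcτ hW'
    refine h.np V hV V' hV' (fun hVV => hne (by rw [hVV])) ?_
    have h1 := A2_pp c.symm τ.symm hcτ' (mem_abv.1 hW) (mem_abv.1 hW') (ht' e he1) hcon
    have e1 : A1_cj τ.symm (A2_map τ V) = V := A1_symm τ V
    have e2 : A1_cj τ.symm (A2_map τ V') = V' := A1_symm τ V'
    rw [e1, e2, A1_symm] at h1
    exact h1

/-- The conjugation is a bijection between the places above conjugate places.

PROOF. See the proof of `sel_conj`. -/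
theorem abv_conj {M : Type} [Field M] [NumberField M] [Algebra K M] (c : K ≃+* K) (τ : M ≃+* M)
    (hcτ : ∀ a : K, τ (algebraMap K M a) = algebraMap K M (c a)) {w₁ w₂ : Pl K}
    (hw : ConjP c w₁ w₂) {N : Type} [CommMonoid N] (f g : Pl M → N)
    (hfg : ∀ W W' : Pl M, W ∈ abv M w₁ → W' ∈ abv M w₂ → ConjP τ W W' → f W = g W') :
    ∏ W ∈ abv M w₁, f W = ∏ W ∈ abv M w₂, g W := by
  classical
  have hw2 : w₂ = A1_cj c w₁ := (A1_iff c w₁ w₂).1 hw
  subst hw2
  refine Finset.prod_nbij (A2_map τ) (fun W hW => A2_abv c τ hcτ hW)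
    (fun W _ W' _ hWW => A2_inj τ hWW) (fun W hW => A2_surj c τ hcτ hW) ?_
  intro W hW
  exact hfg W _ hW (A2_abv c τ hcτ hW) ((A1_iff τ W _).2 rfl)
/- END A2 -/

end Pool.Agent.CGU
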