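import Pool.Agent.CGU.Iface
import Pool.Agent.CGU.ASel

/-!
# Assembly: from an eigenfamily to the Galois representation
-/

noncomputable section

namespace Pool.Agent.CGU

open NumberField IsDedekindDomain Matrix
open Pool.Agent.CG2 (Pl Fv Ov GalF Fbar Zbar Over IsInertia IsFrob Nm IsRay TotPos expo)
open Pool.Agent.CG2.GalFinAux (below)
open Pool.Agent.CGQ
open Pool.Agent.CGN (Chart HeckeAlg eig heckePol dualL lk lk_zero lk_eq Split incj abv mem_abv Sel
  ActsAs HypOff Std EigFam)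

variable {F : Type} [Field F] [NumberField F] {K : Type} [Field K] [NumberField K] [Algebra F K]
  {n : ℕ}

/-- The inverse of a ray class character. -/
theorem isRay_inv {κ : Type} [Field κ] {S : Set (Pl F)} {χ : Pl F → κ} (h : IsRay S χ) :
    IsRay S (fun w => (χ w)⁻¹) := by
  obtain ⟨h0, m₀, hm, hS, hr⟩ := h
  refine ⟨fun v => inv_ne_zero (h0 v), m₀, hm, hS, fun a ha ha1 hp => ?_⟩
  have h1 := hr a ha ha1 hp
  have h2 : ∏ᶠ v : Pl F, (χ v)⁻¹ ^ expo v (Ideal.span {a}) =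
      (∏ᶠ v : Pl F, χ v ^ expo v (Ideal.span {a}))⁻¹ := by
    rw [← finprod_inv_distrib]
    exact finprod_congr fun v => inv_pow _ _
  rw [h2, h1, inv_one]

/-! ### Elementary symmetric functions -/

section esymm

variable {ι κ : Type} [Field κ]

/-- The elementary symmetric function. -/
def es (s : Finset ι) (χ : ι → κ) (k : ℕ) : κ := ∑ I ∈ s.powersetCard k, ∏ w ∈ I, χ w

theorem es_zero (s : Finset ι) (χ : ι → κ) : es s χ 0 = 1 := by
  rw [es, Finset.powersetCard_zero, Finset.sum_singleton, Finset.prod_empty]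

theorem heckePol_es (s : Finset ι) (χ : ι → κ) (hs : s.card = n) (w : κ)
    (a : Option (Fin n) → κ) (h : ∀ k ≤ n, lk a k = es s χ k) :
    heckePol a w 1 = ∏ i ∈ s, (Polynomial.X - Polynomial.C (w * χ i)) := by
  have h1 := Multiset.prod_X_sub_X_eq_sum_esymm (s.val.map fun i => w * χ i)
  rw [Multiset.map_map, Multiset.card_map] at h1
  have h2 : (s.val.map ((fun t => Polynomial.X - Polynomial.C t) ∘ fun i => w * χ i)).prod =
      ∏ i ∈ s, (Polynomial.X - Polynomial.C (w * χ i)) := rfl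
  have h3 : Multiset.card s.val = n := hs
  rw [← h2, h1, h3, heckePol]
  refine Finset.sum_congr rfl fun j hj => ?_
  have h4 : ∑ I ∈ s.powersetCard j, ∏ i ∈ I, (w * χ i) = w ^ j * es s χ j := by
    rw [es, Finset.mul_sum]
    refine Finset.sum_congr rfl fun I hI => ?_
    rw [Finset.prod_mul_distrib, Finset.prod_const, (Finset.mem_powersetCard.1 hI).2]
  rw [Finset.esymm_map_val, h4, h j (Nat.lt_succ_iff.1 (Finset.mem_range.1 hj)), one_pow,
    mul_one, Polynomial.C_mul, Polynomial.C_mul, Polynomial.C_mul, Polynomial.C_pow,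
    Polynomial.C_neg, Polynomial.C_1, mul_assoc]
  ring

theorem es_inv [DecidableEq ι] (s : Finset ι) (χ : ι → κ) (h0 : ∀ w, χ w ≠ 0) (k : ℕ)
    (hk : k ≤ s.card) :
    es s χ (s.card - k) = (∏ w ∈ s, χ w) * es s (fun w => (χ w)⁻¹) k := by
  rw [es, es, Finset.mul_sum]
  refine Finset.sum_bij' (fun I _ => s \ I) (fun I _ => s \ I) ?_ ?_ ?_ ?_ ?_
  · intro I hI
    rw [Finset.mem_powersetCard] at hI ⊢
    refine ⟨Finset.sdiff_subset, ?_⟩
    rw [Finset.card_sdiff_of_subset hI.1, hI.2]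
    omega
  · intro I hI
    rw [Finset.mem_powersetCard] at hI ⊢
    refine ⟨Finset.sdiff_subset, ?_⟩
    rw [Finset.card_sdiff_of_subset hI.1, hI.2]
  · intro I hI
    rw [Finset.mem_powersetCard] at hI
    exact Finset.sdiff_sdiff_eq_self hI.1
  · intro I hI
    rw [Finset.mem_powersetCard] at hI
    exact Finset.sdiff_sdiff_eq_self hI.1
  · intro I hI
    rw [Finset.mem_powersetCard] at hI
    rw [Finset.prod_inv_distrib, ← Finset.prod_sdiff hI.1, mul_comm (∏ w ∈ s \ I, χ w), mul_assoc,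
      mul_inv_cancel₀ (Finset.prod_ne_zero_iff.2 fun w _ => h0 w), mul_one]

/-- The dual eigenvalues are the elementary symmetric functions of the inverses. -/
theorem es_dual [DecidableEq ι] (s : Finset ι) (χ : ι → κ) (h0 : ∀ w, χ w ≠ 0)
    (hs : s.card = n) (a : Option (Fin n) → κ) (h1 : lk a n * a none = 1)
    (h : ∀ k ≤ n, lk a k = es s χ k) :
    ∀ k ≤ n, lk (dualL a) k = es s (fun w => (χ w)⁻¹) k := by
  intro k hk
  have han : lk a n ≠ 0 := left_ne_zero_of_mul_eq_one h1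
  rcases Nat.eq_zero_or_pos k with hk0 | hk0
  · subst hk0
    rw [lk_zero, es_zero]
  · obtain ⟨l, hl⟩ : ∃ l : Fin n, (l : ℕ) + 1 = k := ⟨⟨k - 1, by omega⟩, by simp; omega⟩
    rw [lk_eq _ l hl]
    change lk a (n - (l + 1)) * a none = _
    have h2 := es_inv s χ h0 k (by rw [hs]; exact hk)
    rw [hs, ← h (n - k) (Nat.sub_le _ _)] at h2
    have h3 : (∏ w ∈ s, χ w) = lk a n := by
      rw [h n le_rfl, es, ← hs, Finset.powersetCard_self, Finset.sum_singleton]
    rw [hl, h2, h3, mul_right_comm, h1, one_mul]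

/-- The inverse statement. -/
theorem es_of_dual [DecidableEq ι] (s : Finset ι) (χ : ι → κ) (h0 : ∀ w, χ w ≠ 0)
    (hs : s.card = n) (a : Option (Fin n) → κ) (h1 : lk a n * a none = 1)
    (h : ∀ k ≤ n, lk (dualL a) k = es s χ k) :
    ∀ k ≤ n, lk a k = es s (fun w => (χ w)⁻¹) k := by
  intro k hk
  have han : lk a n ≠ 0 := left_ne_zero_of_mul_eq_one h1
  have h3 : ∀ k ≤ n, lk (dualL a) k * lk a n = lk a (n - k) := by
    intro k hk
    rcases Nat.eq_zero_or_pos k with hk0 | hk0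
    · subst hk0
      rw [lk_zero, one_mul, Nat.sub_zero]
    · obtain ⟨l, hl⟩ : ∃ l : Fin n, (l : ℕ) + 1 = k := ⟨⟨k - 1, by omega⟩, by simp; omega⟩
      rw [lk_eq _ l hl]
      change lk a (n - (l + 1)) * a none * lk a n = _
      have h1' : a none * lk a n = 1 := by rw [mul_comm]; exact h1
      rw [mul_assoc, h1', mul_one, hl]
  have h4 : (∏ w ∈ s, χ w) * lk a n = 1 := by
    have h5 := h3 n le_rfl
    rw [h n le_rfl, Nat.sub_self, lk_zero] at h5
    have h6 : es s χ n = ∏ w ∈ s, χ w := by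
      rw [es, ← hs, Finset.powersetCard_self, Finset.sum_singleton]
    rw [← h6]
    exact h5
  have h5 := h3 (n - k) (Nat.sub_le _ _)
  rw [Nat.sub_sub_self hk, h _ (Nat.sub_le _ _)] at h5
  have h6 := es_inv s χ h0 k (by rw [hs]; exact hk)
  rw [hs] at h6
  rw [← h5, h6, mul_right_comm, h4, one_mul]

end esymm

/-- The Frobenius elements have the Hecke polynomials of `lam` or of the dual eigenvalues. -/
def FrobEqU {A : UD F} {S : Set (Pl F)} (κ : K →ₐ[F] BF A) (j : K →ₐ[F] Fbar F)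
    (θ : USpl A S) {k : Type} [Field k] (lam : {v : Pl F // v ∉ S} → Option (Fin A.n) → k)
    (e : ℤˣ) (ρ : GalF F →* LG A.n k) (ω : fixK j →* kˣ) : Prop :=
  ∀ (v : {v : Pl F // v ∉ S}) (Q : Ideal (Zbar F)), Over v.1 Q →
    ∀ σ : fixK j, IsFrob v.1 Q (σ : GalF F) →
      (Side κ j θ v Q →
        ((ρ ((σ : GalF F) ^ (e : ℤ))).left : Matrix (Fin A.n) (Fin A.n) k).charpoly =
          heckePol (lam v) (ω σ : k) ((Nm v.1 : ℕ) : k)) ∧
      (¬ Side κ j θ v Q →
        ((ρ ((σ : GalF F) ^ (e : ℤ))).left : Matrix (Fin A.n) (Fin A.n) k).charpoly =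
          heckePol (dualL (lam v)) (ω σ : k) ((Nm v.1 : ℕ) : k))

variable {M : Type} [Field M] [NumberField M] [Algebra F M] [Algebra K M]

theorem finite_aboveF {T : Set (Pl F)} (hT : T.Finite) : {w : Pl M | below F w ∈ T}.Finite := by
  refine (hT.biUnion fun v _ => CGN.finite_aboveL M v).subset ?_
  intro w hw
  exact Set.mem_biUnion (x := below F w) hw rfl

theorem heckePol_map {k k' : Type} [Field k] [Field k'] (f : k →+* k') (a : Option (Fin n) → k)
    (w N : k) : (heckePol a w N).map f = heckePol (fun j => f (a j)) (f w) (f N) := by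
  rw [heckePol, heckePol, Polynomial.map_sum]
  refine Finset.sum_congr rfl fun j _ => ?_
  rw [Polynomial.map_mul, Polynomial.map_C, Polynomial.map_pow, Polynomial.map_X]
  congr 2
  simp only [map_mul, map_pow, map_neg, map_one]
  congr 1
  rw [lk, lk]
  split_ifs
  · rfl
  · rw [map_one]

theorem dualL_map {k k' : Type} [Field k] [Field k'] (f : k →+* k') (a : Option (Fin n) → k)
    (j : Option (Fin n)) : f (dualL a j) = dualL (fun j => f (a j)) j := by
  have h : ∀ m, f (lk a m) = lk (fun j => f (a j)) m := by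
    intro m
    rw [lk, lk]
    split_ifs
    · rfl
    · rw [map_one]
  cases j with
  | none => exact h n
  | some j =>
    change f (lk a (n - (j + 1)) * a none) = lk (fun j => f (a j)) (n - (j + 1)) * f (a none)
    rw [map_mul, h]

theorem below_belowA [IsScalarTower F K M] (W : Pl M) : below F (below K W) = below F W := by
  apply HeightOneSpectrum.ext
  ext x
  change algebraMap (𝓞 K) (𝓞 M) (algebraMap (𝓞 F) (𝓞 K) x) ∈ W.asIdeal ↔
    algebraMap (𝓞 F) (𝓞 M) x ∈ W.asIdeal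
  have h : algebraMap (𝓞 K) (𝓞 M) (algebraMap (𝓞 F) (𝓞 K) x) = algebraMap (𝓞 F) (𝓞 M) x := by
    apply RingOfIntegers.ext
    exact (IsScalarTower.algebraMap_apply F K M (x : F)).symm
  rw [h]

/-- The hypothesis of the Galois side from the conclusion of the unit trick. -/
theorem exists_hypEU {A : UD F} {κ : K →ₐ[F] BF A} (hU : IsUni A κ) (hn : 3 ≤ A.n)
    {S : Set (Pl F)} {θ : USpl A S} {ι : M →ₐ[F] BF A} {τ : M ≃ₐ[F] M} (hM : MData A κ ι τ)
    {k : Type} [Field k] {p : ℕ} [hp : Fact p.Prime] [CharP k p]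
    (lam : {v : Pl F // v ∉ S} → Option (Fin A.n) → k)
    (lam' : {v : Pl F // v ∉ S} → Option (Fin A.n) → AlgebraicClosure k)
    (hl1 : ∀ v, lk (fun j => algebraMap k (AlgebraicClosure k) (lam v j)) A.n *
        algebraMap k (AlgebraicClosure k) (lam v none) = 1)
    (hlr : (∀ v j, lam' v j = algebraMap k _ (lam v j)) ∨
      (∀ v j, lam' v j = dualL (fun j => algebraMap k (AlgebraicClosure k) (lam v j)) j))
    (j : K →ₐ[F] Fbar F) (ε : ℤˣ) (ρ : GalF F →* LG A.n k)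
    (hr : ∀ g : GalF F, (ρ g).right = 1 ↔ ∀ a : K, g (j a) = j a) (ω : fixK j →* kˣ)
    (hρ : FrobEqU κ j θ lam ε ρ ω) (u e : (𝓞 M)ˣ)
    (hu1 : τ ((u : 𝓞 M) : M) * ((u : 𝓞 M) : M) = 1)
    (he1 : τ ((e : 𝓞 M) : M) * ((e : 𝓞 M) : M) = 1)
    {T : Set (Pl F)} (hST : ∀ v ∈ S, Split K v → v ∈ T) (χ : Pl M → AlgebraicClosure k)
    (hray : IsRay {w : Pl M | below F w ∈ T} χ)
    (hconj : ∀ W W' : Pl M, W ≠ W' → below F W ∉ T → Split K (below F W) →
        (∀ x x' : 𝓞 M, (x' : M) = τ (x : M) → (x ∈ W.asIdeal ↔ x' ∈ W'.asIdeal)) →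
        χ W * χ W' = 1)
    (hχ : ∀ (v : {v : Pl F // v ∉ S}), v.1 ∉ T → ∀ w : Pl K, IsW κ θ v w → ∀ N : ℕ,
        Sel M u e (p ^ N) w → ∀ j : Fin A.n, lam' v (some j) =
          ∑ I ∈ (abv M w).powersetCard ((j : ℕ) + 1), ∏ W ∈ I, χ W) :
    ∃ χ' : Pl M → AlgebraicClosure k, IsRay {w : Pl M | below F w ∈ T} χ' ∧
      HypEU ε p j
        ((GeneralLinearGroup.map (n := Fin A.n) (algebraMap k (AlgebraicClosure k))).comp
          (rhoK ρ j hr))
        ((Units.map (algebraMap k (AlgebraicClosure k) : k →* AlgebraicClosure k)).comp ω)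
        u e χ' T := by
  classical
  have htower := hM.tower
  obtain ⟨c, hc, hcc, hcne⟩ := exists_conj hU
  have hcard : ∀ w N, Sel M u e (p ^ N) w → (abv M w).card = A.n := fun w N h => by
    rw [← hM.deg]
    exact h.split
  -- the elementary symmetric functions for `lam'`
  have hes : ∀ (v : {v : Pl F // v ∉ S}), v.1 ∉ T → ∀ w : Pl K, IsW κ θ v w → ∀ N : ℕ,
      Sel M u e (p ^ N) w → ∀ k ≤ A.n, lk (lam' v) k = es (abv M w) χ k := by
    intro v hv w hw N hs k hk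
    rcases Nat.eq_zero_or_pos k with h0 | h0
    · subst h0
      rw [lk_zero, es_zero]
    · obtain ⟨l, hl⟩ : ∃ l : Fin A.n, (l : ℕ) + 1 = k := ⟨⟨k - 1, by omega⟩, by simp; omega⟩
      rw [lk_eq _ l hl, hχ v hv w hw N hs l, hl]
      rfl
  -- the function `χ'`
  obtain ⟨χ', hray', hconj', hes'⟩ : ∃ χ' : Pl M → AlgebraicClosure k,
      IsRay {w : Pl M | below F w ∈ T} χ' ∧
      (∀ W W' : Pl M, W ≠ W' → below F W ∉ T → Split K (below F W) →
        (∀ x x' : 𝓞 M, (x' : M) = τ (x : M) → (x ∈ W.asIdeal ↔ x' ∈ W'.asIdeal)) →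
        χ' W * χ' W' = 1) ∧
      ∀ (v : {v : Pl F // v ∉ S}), v.1 ∉ T → ∀ w : Pl K, IsW κ θ v w → ∀ N : ℕ,
        Sel M u e (p ^ N) w → ∀ m ≤ A.n,
          lk (fun j => algebraMap k (AlgebraicClosure k) (lam v j)) m = es (abv M w) χ' m := by
    rcases hlr with hlr | hlr
    · refine ⟨χ, hray, hconj, fun v hv w hw N hs m hm => ?_⟩
      rw [← hes v hv w hw N hs m hm]
      congr 1
      funext j
      exact (hlr v j).symm
    · refine ⟨fun w => (χ w)⁻¹, isRay_inv hray, fun W W' h1 h2 h3 h4 => ?_,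
        fun v hv w hw N hs m hm => ?_⟩
      · rw [← mul_inv, hconj W W' h1 h2 h3 h4, inv_one]
      · refine es_of_dual (abv M w) χ hray.1 (hcard w N hs) _ (hl1 v) ?_ m hm
        intro m hm
        rw [← hes v hv w hw N hs m hm]
        congr 1
        funext j
        exact (hlr v j).symm
  refine ⟨χ', hray', ?_⟩
  intro w hwT hsp N hN hdvd hs Q hQ hQw g hg
  have hvS : below F w ∉ S := fun h => hwT (hST _ h hsp)
  obtain ⟨w₀, w₁, hw₀, hb₀, hb₁, hne, hw₁, -, hall⟩ :=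
    exists_w hU (by omega) c hc θ ⟨below F w, hvS⟩
  -- the norm is one in `k`
  have hNone : ((Nm (below F w) : ℕ) : k) = 1 := by
    rw [← nm_split hU.deg hsp]
    have hN1 : 1 ≤ Nm w := by
      have : Nm w ≠ 0 := by
        intro h
        exact w.ne_bot (Ideal.absNorm_eq_zero_iff.1 h)
      omega
    have h8 : p ∣ Nm w - 1 := (dvd_pow_self p (by omega)).trans hdvd
    have h9 : ((Nm w - 1 : ℕ) : k) = 0 := (CharP.cast_eq_zero_iff k p _).2 h8
    rw [Nat.cast_sub hN1, Nat.cast_one, sub_eq_zero] at h9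
    exact h9
  have hmat : (((GeneralLinearGroup.map (n := Fin A.n) (algebraMap k (AlgebraicClosure k))).comp
      (rhoK ρ j hr)) (g ^ (ε : ℤ)) : Matrix (Fin A.n) (Fin A.n) (AlgebraicClosure k)) =
      ((ρ ((g : GalF F) ^ (ε : ℤ))).left : Matrix (Fin A.n) (Fin A.n) k).map
        (algebraMap k (AlgebraicClosure k)) := rfl
  rw [hmat, Matrix.charpoly_map]
  have hω : (((Units.map (algebraMap k (AlgebraicClosure k) : k →* AlgebraicClosure k)).comp ω g :
      (AlgebraicClosure k)ˣ) : AlgebraicClosure k) = algebraMap k (AlgebraicClosure k) (ω g : k) :=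
    rfl
  rw [hω]
  by_cases hww : w = w₀
  · -- the side of `θ`
    have hside : Side κ j θ ⟨below F w, hvS⟩ Q := (side_iff hw₀ j hQw).2 hww
    rw [(hρ ⟨below F w, hvS⟩ Q hQ g hg).1 hside, heckePol_map, hNone, map_one]
    have hmem : ∀ a : 𝓞 K, a ∈ w.asIdeal ↔ a ∈ w₀.asIdeal := fun a => by rw [hww]
    have hwv : IsW κ θ ⟨below F w, hvS⟩ w := fun a => (hmem a).trans (hw₀ a)
    exact heckePol_es _ χ' (hcard w N hs) _ _ (hes' _ hwT w hwv N hs)
  · -- the other side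
    have hw1 : w = w₁ := (hall w rfl).resolve_left hww
    have hside : ¬ Side κ j θ ⟨below F w, hvS⟩ Q := fun h => hww ((side_iff hw₀ j hQw).1 h)
    rw [(hρ ⟨below F w, hvS⟩ Q hQ g hg).2 hside, heckePol_map, hNone, map_one]
    have hcτ : ∀ a : K, (τ : M ≃+* M) (algebraMap K M a) = algebraMap K M ((c : K ≃+* K) a) := by
      intro a
      have hsim := hU.sim
      have hnt : Nontrivial (BF A) := inferInstance
      have hinj : Function.Injective ι := ι.toRingHom.injective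
      apply hinj
      change ι (τ (algebraMap K M a)) = ι (algebraMap K M (c a))
      rw [← hM.st, hM.ικ, hM.ικ, hc]
    have hcp : ConjP (c : K ≃+* K) w w₀ := by
      intro x x' hx
      rw [hw1]
      exact hw₁ x x' hx
    have hs₀ : Sel M u e (p ^ N) w₀ :=
      sel_conj (c : K ≃+* K) (τ : M ≃+* M) hcτ hu1 he1 hcp hs
    have hd : (fun t => algebraMap k (AlgebraicClosure k) (dualL (lam ⟨below F w, hvS⟩) t)) =
        dualL fun t => algebraMap k (AlgebraicClosure k) (lam ⟨below F w, hvS⟩ t) := by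
      funext t
      exact dualL_map _ _ t
    rw [hd]
    have h5 := es_dual (abv M w₀) χ' hray'.1 (hcard w₀ N hs₀) _ (hl1 _)
      (hes' ⟨below F w, hvS⟩ hwT w₀ hw₀ N hs₀)
    rw [heckePol_es (abv M w₀) _ (hcard w₀ N hs₀) _ _ h5]
    symm
    refine abv_conj (c : K ≃+* K) (τ : M ≃+* M) hcτ hcp _ _ ?_
    intro W W' hW hW' hWW
    have hbW : below F W = below F w := by
      rw [← mem_abv.1 hW, below_belowA]
    have hne' : W ≠ W' := by
      rintro rfl
      apply hww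
      rw [← mem_abv.1 hW, mem_abv.1 hW']
    have h6 := hconj' W W' hne' (by rw [hbW]; exact hwT) (by rw [hbW]; exact hsp) hWW
    rw [eq_inv_of_mul_eq_one_left h6]

/-- A totally positive element is positive under all homomorphisms to the real numbers. -/
theorem totPos_hom {x : 𝓞 M} (hx : TotPos x) (f : M →+* ℝ) : 0 < f (x : M) := by
  let φ : M →+* ℂ := (algebraMap ℝ ℂ).comp f
  have h1 : ComplexEmbedding.IsReal φ := by
    rw [ComplexEmbedding.isReal_iff]
    ext y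
    change (starRingEnd ℂ) ((f y : ℝ) : ℂ) = ((f y : ℝ) : ℂ)
    exact Complex.conj_ofReal _
  have h2 : (InfinitePlace.mk φ).IsReal := ⟨φ, h1, rfl⟩
  have h3 := hx ⟨InfinitePlace.mk φ, h2⟩
  have h4 : ((InfinitePlace.embedding_of_isReal h2 (x : M) : ℝ) : ℂ) = ((f (x : M) : ℝ) : ℂ) := by
    rw [InfinitePlace.embedding_of_isReal_apply, InfinitePlace.embedding_mk_eq_of_isReal h1]
    rfl
  rw [Complex.ofReal_inj] at h4
  rw [← h4]
  exact h3

theorem totPos_of_hom {x : 𝓞 M} (hx : ∀ f : M →+* ℝ, 0 < f (x : M)) : TotPos x :=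
  fun w => hx (InfinitePlace.embedding_of_isReal w.2)

theorem tau_tau {A : UD F} {κ : K →ₐ[F] BF A} (hU : IsUni A κ) {ι : M →ₐ[F] BF A}
    {τ : M ≃ₐ[F] M} (hM : MData A κ ι τ) (x : M) : τ (τ x) = x := by
  have hsim := hU.sim
  have hnt : Nontrivial (BF A) := inferInstance
  have hinj : Function.Injective ι := ι.toRingHom.injective
  apply hinj
  rw [← hM.st, ← hM.st, star_star]

theorem uU_val {A : UD F} {κ : K →ₐ[F] BF A} {ι : M →ₐ[F] BF A} {τ : M ≃ₐ[F] M}
    (hM : MData A κ ι τ) {x : M} (hx : τ x * x = 1) :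
    (show UF A from uU ι x).1.1 = ι x := by
  refine mkU_val ?_ ?_
  · rw [hM.st, ← map_mul, hx, map_one]
  · rw [hM.st, ← map_mul, mul_comm, hx, map_one]

/-- The sign of `x / τ x` for a totally positive `x`. -/
theorem sgn_qU {A : UD F} {κ : K →ₐ[F] BF A} (hU : IsUni A κ) {ι : M →ₐ[F] BF A}
    {τ : M ≃ₐ[F] M} (hM : MData A κ ι τ) {x : 𝓞 M} (hx : x ≠ 0) (hpos : TotPos x) :
    (sysU A).sgn (qU ι τ (x : M)) = 1 := by
  have hx0 : (x : M) ≠ 0 := by simpa using hx
  have hτ0 : τ (x : M) ≠ 0 := (map_ne_zero τ).2 hx0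
  have hτ1 : τ ((x : M) / τ (x : M)) * ((x : M) / τ (x : M)) = 1 := by
    rw [map_div₀, tau_tau hU hM]
    field_simp
  let x' : 𝓞 M := ⟨τ (x : M), x.2.map τ.toRingEquiv.toRingHom.toIntAlgHom⟩
  have hx' : (x' : M) = τ (x : M) := rfl
  have hx'0 : x' ≠ 0 := by
    intro h
    apply hτ0
    rw [← hx', h]
    rfl
  have hpos' : TotPos x' := totPos_of_hom fun f => by
    rw [hx']
    exact totPos_hom hpos (f.comp (τ : M →+* M))
  funext w
  have h1 := det_pos_u ι hx hpos w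
  have h2 := det_pos_u ι hx'0 hpos' w
  have h3 : w.det (ι ((x : M) / τ (x : M))) * w.det (ι (x' : M)) = w.det (ι (x : M)) := by
    rw [← SPl.det_mul, ← map_mul, hx', div_mul_cancel₀ _ hτ0]
  have h4 : 0 < w.det (ι ((x : M) / τ (x : M))) := by
    rw [← h3] at h1
    exact (mul_pos_iff_of_pos_right h2).1 h1
  refine if_pos ?_
  have h5 := uU_val hM hτ1
  change 0 < w.det (show UF A from uU ι ((x : M) / τ (x : M))).1.1
  rw [h5]
  exact h4

/-- From an eigenfamily at the generic unit to the Galois side. -/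
theorem not_ne_of_eig {A : UD F} {κ : K →ₐ[F] BF A} (hU : IsUni A κ) (hn : 3 ≤ A.n)
    {S : Set (Pl F)} {θ : USpl A S} {Kf : Subgroup (sysU A).A}
    {k : Type} [Field k] {p : ℕ} [hp : Fact p.Prime] [CharP k p]
    (hS : SFin K S) (hK : OC Kf) (hΦ : HypOff Kf (chartU θ)) (hstd : Std (chartU θ))
    (lam : {v : Pl F // v ∉ S} → Option (Fin A.n) → k)
    (lam' : {v : Pl F // v ∉ S} → Option (Fin A.n) → AlgebraicClosure k)
    (hl1 : ∀ v, lk (fun j => algebraMap k (AlgebraicClosure k) (lam v j)) A.n *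
        algebraMap k (AlgebraicClosure k) (lam v none) = 1)
    (hlr : (∀ v j, lam' v j = algebraMap k _ (lam v j)) ∨
      (∀ v j, lam' v j = dualL (fun j => algebraMap k (AlgebraicClosure k) (lam v j)) j))
    (j : K →ₐ[F] Fbar F) (ψ : Fbar K ≃+* Fbar F)
    (hψ : ∀ a : K, ψ (algebraMap K (Fbar K) a) = j a)
    (ε : ℤˣ) (ρ : GalF F →* LG A.n k) (hρo : IsOpen (ρ.ker : Set (GalF F)))
    (hr : ∀ g : GalF F, (ρ g).right = 1 ↔ ∀ a : K, g (j a) = j a)
    (ω : fixK j →* kˣ) (hω : IsOpen (ω.ker : Set (fixK j))) (hρ : FrobEqU κ j θ lam ε ρ ω)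
    {v₃ : Pl K} (hv₃ : ((p : ℕ) : 𝓞 K) ∉ v₃.asIdeal)
    (hram : ∀ Q : Ideal (Zbar K), Over v₃ Q → ∀ g : GalF K, IsInertia Q g →
      rhoK ρ j hr (toGF j ψ hψ g) = 1 ∧ ω (toGF j ψ hψ g) = 1)
    (y : (sysU A).Pt) (ι : M →ₐ[F] BF A) (τ : M ≃ₐ[F] M) (u e : (𝓞 M)ˣ)
    (hG : GenU A κ Kf y v₃ ι τ u e)
    (η : (sysU A).G →* ℤˣ) (hηS : ∀ γ ∈ Stab Kf y, η γ = 1)
    (hη : ∀ γ, (sysU A).sgn γ = 1 → η γ = 1)
    (E : EigFam Kf (chartU θ) (AlgebraicClosure k) η (uU ι ((u : 𝓞 M) : M)) lam')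
    (h0 : E.h y 1 ≠ 0) : ¬ NonEisU ρ := by
  have hchar : CharP (AlgebraicClosure k) p :=
    charP_of_injective_algebraMap (algebraMap k (AlgebraicClosure k)).injective p
  obtain ⟨c, hc, hcc, hcne⟩ := exists_conj hU
  obtain ⟨T, χ, hT, hST, hray, hconj, hrel⟩ := unit_main_u hU hn hS hK hΦ hstd hG.dat y u e
    hG.u1 hG.e1 E h0 hG.hu hG.he (hηS _ hG.hu) (hηS _ hG.he)
    (fun x hx hpos => hη _ (sgn_qU hU hG.dat hx hpos))
  obtain ⟨χ', hray', hH⟩ := exists_hypEU hU hn hG.dat lam lam' hl1 hlr j ε ρ hr ω hρ u e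
    hG.u1 hG.e1 hST χ hray hconj hrel
  refine galois_u hn hU.deg c hcne j ψ hψ hG.dat.deg hp.out ρ hρo hr ω hω ε u e hG.ind
    (finite_aboveF hT) χ' hray' hT hH ?_
  intro N π
  obtain ⟨g, h1, h2, h3⟩ := surj_of_tr_u (M := M) hp.out
    (((rhoK ρ j hr).prod ω).comp (toGF j ψ hψ)) hv₃ (fun Q hQ g hg => by
      obtain ⟨h1, h2⟩ := hram Q hQ g hg
      exact Prod.ext h1 h2) hG.sn hG.tr N π
  exact ⟨g, congrArg Prod.fst h1, congrArg Prod.snd h1, h2, h3⟩

end Pool.Agent.CGU
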