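import Pool.Agent.CGU.AGA
import Pool.Agent.CGN.CED
import Pool.Agent.CGN.LEF

/-!
# Assembly: the localisations with trivial coefficients in the degrees `0, 1, d - 1, d`
-/

noncomputable section

namespace Pool.Agent.CGU

open NumberField IsDedekindDomain Matrix
open Pool.Agent.CG2 (Pl Fv Ov GalF Fbar Zbar Over IsInertia IsFrob Nm)
open Pool.Agent.CGQ hiding eig triv HeckeAlg Idx Chart HypOff Std EigFam Dead unram_triv UnramOff
  Cont InSupport KD dead_all exists_ptfam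
open Pool.Agent.CGN (Chart HeckeAlg Idx eig heckePol dualL lk HypOff Std EigFam Dead triv
  unram_triv eig_none_mul char_of_not_dead exists_ptfam exists_bigfam exists_top_fam exists_sub_fam)

variable {F : Type} [Field F] [NumberField F] {K : Type} [Field K] [NumberField K] [Algebra F K]

/-- The eigenvalue in the algebraic closure. -/
theorem eig_barU {n : ℕ} {S : Set (Pl F)} {O : Type} [CommRing O] (m : Ideal (HeckeAlg n S O))
    (k : Type) [Field k] [Algebra (HeckeAlg n S O ⧸ m) k] (t : Idx n S) :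
    eig m (AlgebraicClosure k) t = algebraMap k (AlgebraicClosure k) (eig m k t) := by
  rw [eig, eig, IsScalarTower.algebraMap_apply (HeckeAlg n S O ⧸ m) k (AlgebraicClosure k)]

/-- The first form of the generic unit. -/
def GenZU (A : UD F) (κ : K →ₐ[F] BF A) (v₃ : Pl K) (Kf : Subgroup (sysU A).A) : Prop :=
  ∀ y : (sysU A).Pt, ∃ (M : Type) (_ : Field M) (_ : NumberField M) (_ : Algebra F M)
    (_ : Algebra K M) (ι : M →ₐ[F] BF A) (τ : M ≃ₐ[F] M) (e : (𝓞 M)ˣ),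
    GenU A κ Kf y v₃ ι τ 1 e

/-- The second form of the generic unit. -/
def GenOU (A : UD F) (κ : K →ₐ[F] BF A) (p : ℕ) (v₃ : Pl K) (Kf : Subgroup (sysU A).A) : Prop :=
  ∀ y : (sysU A).Pt, ∀ (k : Type) [Field k] [CharP k p] (h : (sysU A).G → k),
    (∀ a ∈ Stab Kf y, ∀ b ∈ Stab Kf y, h (a * b) = h a + h b) →
    ∀ c₀ ∈ Stab Kf y, h c₀ ≠ 0 →
    ∃ (M : Type) (_ : Field M) (_ : NumberField M) (_ : Algebra F M) (_ : Algebra K M)
      (ι : M →ₐ[F] BF A) (τ : M ≃ₐ[F] M) (u e : (𝓞 M)ˣ),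
      GenU A κ Kf y v₃ ι τ u e ∧ h (uU ι ((u : 𝓞 M) : M)) ≠ 0

/-- The properties of the representation `ρ`, of the twist `ω` and of the place `v₃`. -/
structure RepU {A : UD F} {S : Set (Pl F)} (κ : K →ₐ[F] BF A) (j : K →ₐ[F] Fbar F)
    (ψ : Fbar K ≃+* Fbar F) (θ : USpl A S) {k : Type} [Field k] (p : ℕ)
    (lam : {v : Pl F // v ∉ S} → Option (Fin A.n) → k) (ε : ℤˣ) (ρ : GalF F →* LG A.n k)
    (ω : fixK j →* kˣ) (v₃ : Pl K) : Prop where
  ψj : ∀ a : K, ψ (algebraMap K (Fbar K) a) = j a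
  ρo : IsOpen (ρ.ker : Set (GalF F))
  hr : ∀ g : GalF F, (ρ g).right = 1 ↔ ∀ a : K, g (j a) = j a
  ωo : IsOpen (ω.ker : Set (fixK j))
  fr : FrobEqU κ j θ lam ε ρ ω
  ne : NonEisU ρ
  v3 : ((p : ℕ) : 𝓞 K) ∉ v₃.asIdeal
  ram : ∀ Q : Ideal (Zbar K), Over v₃ Q → ∀ g : GalF K, IsInertia Q g →
    rhoK ρ j hr (toGF j ψ ψj g) = 1 ∧ ω (toGF j ψ ψj g) = 1

variable {A : UD F} {κ : K →ₐ[F] BF A} {S : Set (Pl F)} {θ : USpl A S}
  {Kf : Subgroup (sysU A).A} {O : Type} [CommRing O]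

private theorem agb_hl1 [IsLocalRing O] (hn : 0 < A.n) (hΦ : HypOff Kf (chartU θ)) (i : ℕ)
    (m : Ideal (HeckeAlg A.n S O)) [m.IsMaximal]
    (hm : ¬ Dead Kf (triv Kf O (IsLocalRing.ResidueField O)) (unram_triv hΦ) i m)
    (k : Type) [Field k] [Algebra (HeckeAlg A.n S O ⧸ m) k] (v : {v : Pl F // v ∉ S}) :
    lk (fun j => algebraMap k (AlgebraicClosure k) (eig m k (v, j))) A.n *
        algebraMap k (AlgebraicClosure k) (eig m k (v, none)) = 1 := by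
  have h1 := eig_none_mul hn (unram_triv hΦ) i m hm (AlgebraicClosure k) v
  have h2 : (fun j => eig m (AlgebraicClosure k) (v, j)) =
      fun j => algebraMap k (AlgebraicClosure k) (eig m k (v, j)) := by
    funext j
    exact eig_barU m k (v, j)
  rw [h2, eig_barU m k (v, none)] at h1
  exact h1

private theorem agb_dual (m : Ideal (HeckeAlg A.n S O)) (k : Type) [Field k]
    [Algebra (HeckeAlg A.n S O ⧸ m) k] (v : {v : Pl F // v ∉ S}) (j : Option (Fin A.n)) :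
    dualL (fun j => eig m (AlgebraicClosure k) (v, j)) j =
        dualL (fun j => algebraMap k (AlgebraicClosure k) (eig m k (v, j))) j := by
  have h2 : (fun j => eig m (AlgebraicClosure k) (v, j)) =
      fun j => algebraMap k (AlgebraicClosure k) (eig m k (v, j)) := by
    funext j
    exact eig_barU m k (v, j)
  rw [h2]

/-- Degree zero. -/
theorem dead_zero [IsLocalRing O] (hU : IsUni A κ) (hn : 3 ≤ A.n) {p : ℕ} [Fact p.Prime]
    (hS : SFin K S) (hstd : Std (chartU θ)) (hK : OC Kf) (hΦ : HypOff Kf (chartU θ))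
    [CharP (IsLocalRing.ResidueField O) p]
    (hfin : Module.Finite O (groupCohomology
      (coeff Kf (triv Kf O (IsLocalRing.ResidueField O))) 0))
    (m : Ideal (HeckeAlg A.n S O)) [m.IsMaximal] (k : Type) [Field k]
    [Algebra (HeckeAlg A.n S O ⧸ m) k] {j : K →ₐ[F] Fbar F} {ψ : Fbar K ≃+* Fbar F} {ε : ℤˣ}
    {ρ : GalF F →* LG A.n k} {ω : fixK j →* kˣ} {v₃ : Pl K}
    (R : RepU κ j ψ θ p (fun v t => eig m k (v, t)) ε ρ ω v₃) (hG : GenZU A κ v₃ Kf) :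
    Dead Kf (triv Kf O (IsLocalRing.ResidueField O)) (unram_triv hΦ) 0 m := by
  by_contra hm
  have hp : p.Prime := Fact.out
  have hc1 : CharP k p := char_of_not_dead hp hΦ 0 m hm k
  have hc2 : CharP (AlgebraicClosure k) p := char_of_not_dead hp hΦ 0 m hm (AlgebraicClosure k)
  obtain ⟨E, y, hy⟩ := exists_ptfam hΦ hfin m hm (AlgebraicClosure k)
  obtain ⟨M, iF, iN, iA, iK, ι, τ, e, hg⟩ := hG y
  have h1 : uU ι (((1 : (𝓞 M)ˣ) : 𝓞 M) : M) = 1 := by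
    have h2 : (((1 : (𝓞 M)ˣ) : 𝓞 M) : M) = 1 := rfl
    apply Subtype.ext
    apply Units.ext
    have h3 := uU_val hg.dat (x := (((1 : (𝓞 M)ˣ) : 𝓞 M) : M)) (by rw [h2, map_one, one_mul])
    rw [h2, map_one] at h3
    exact h3
  obtain ⟨E', hE'⟩ : ∃ E' : EigFam Kf (chartU θ) (AlgebraicClosure k) 1
      (uU ι (((1 : (𝓞 M)ˣ) : 𝓞 M) : M))
      (fun v j => eig m (AlgebraicClosure k) (v, j)), ∀ y i, E'.h y i = E.h y := by
    rw [h1]
    exact E.exists_eig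
  exact not_ne_of_eig hU hn (p := p) hS hK hΦ hstd (fun v j => eig m k (v, j))
    _ (agb_hl1 (by omega) hΦ 0 m hm k) (Or.inl fun v j => eig_barU m k (v, j)) j ψ R.ψj ε ρ R.ρo
    R.hr ω R.ωo R.fr R.v3 R.ram y ι τ 1 e hg
    1 (fun _ _ => rfl) (fun _ _ => rfl) E' (by rw [hE']; exact hy) R.ne

/-- Degree one. -/
theorem dead_one [IsLocalRing O] (hU : IsUni A κ) (hn : 3 ≤ A.n) {p : ℕ} [Fact p.Prime]
    (hS : SFin K S) (hstd : Std (chartU θ)) (hK : OC Kf) (hΦ : HypOff Kf (chartU θ))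
    [CharP (IsLocalRing.ResidueField O) p]
    (hfin : Module.Finite O (groupCohomology
      (coeff Kf (triv Kf O (IsLocalRing.ResidueField O))) 1))
    (m : Ideal (HeckeAlg A.n S O)) [m.IsMaximal] (k : Type) [Field k]
    [Algebra (HeckeAlg A.n S O ⧸ m) k] {j : K →ₐ[F] Fbar F} {ψ : Fbar K ≃+* Fbar F} {ε : ℤˣ}
    {ρ : GalF F →* LG A.n k} {ω : fixK j →* kˣ} {v₃ : Pl K}
    (R : RepU κ j ψ θ p (fun v t => eig m k (v, t)) ε ρ ω v₃) (hG : GenOU A κ p v₃ Kf) :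
    Dead Kf (triv Kf O (IsLocalRing.ResidueField O)) (unram_triv hΦ) 1 m := by
  by_contra hm
  have hp : p.Prime := Fact.out
  have hc1 : CharP k p := char_of_not_dead hp hΦ 1 m hm k
  have hc2 : CharP (AlgebraicClosure k) p := char_of_not_dead hp hΦ 1 m hm (AlgebraicClosure k)
  obtain ⟨E, y, γ, hγ, hy⟩ := exists_bigfam hΦ hfin m hm (AlgebraicClosure k)
  obtain ⟨M, iF, iN, iA, iK, ι, τ, u, e, hg, hhu⟩ := hG y (AlgebraicClosure k) (E.h y)
      (fun a ha b hb => E.h_mul y a ha b hb) γ hγ hy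
  obtain ⟨E', hE'⟩ := E.exists_eig hΦ (uU ι ((u : 𝓞 M) : M))
  refine not_ne_of_eig hU hn (p := p) hS hK hΦ hstd (fun v j => eig m k (v, j))
    _ (agb_hl1 (by omega) hΦ 1 m hm k) (Or.inl fun v j => eig_barU m k (v, j)) j ψ R.ψj ε ρ R.ρo
    R.hr ω R.ωo R.fr R.v3 R.ram y ι τ u e hg
    1 (fun _ _ => rfl) (fun _ _ => rfl) E' ?_ R.ne
  rw [hE' y 1 (by rw [pow_one]; exact hg.hu), pow_one]
  exact hhu

/-- The top degree. -/
theorem dead_top [IsNoetherianRing O] [IsLocalRing O] (T : TSys Kf)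
    (hε : ∀ γ, (sysU A).sgn γ = 1 → T.ε γ = 1) (hU : IsUni A κ) (hn : 3 ≤ A.n) {p : ℕ}
    [Fact p.Prime] (hS : SFin K S) (hstd : Std (chartU θ)) (hK : OC Kf)
    (hΦ : HypOff Kf (chartU θ)) [CharP (IsLocalRing.ResidueField O) p]
    (m : Ideal (HeckeAlg A.n S O)) [m.IsMaximal] (k : Type) [Field k]
    [Algebra (HeckeAlg A.n S O ⧸ m) k] {j : K →ₐ[F] Fbar F} {ψ : Fbar K ≃+* Fbar F} {ε : ℤˣ}
    {ρ : GalF F →* LG A.n k} {ω : fixK j →* kˣ} {v₃ : Pl K}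
    (R : RepU κ j ψ θ p (fun v t => eig m k (v, t)) ε ρ ω v₃) (hG : GenZU A κ v₃ Kf) :
    Dead Kf (triv Kf O (IsLocalRing.ResidueField O)) (unram_triv hΦ) T.C.n0 m := by
  by_contra hm
  have hp : p.Prime := Fact.out
  have hc1 : CharP k p := char_of_not_dead hp hΦ T.C.n0 m hm k
  have hc2 : CharP (AlgebraicClosure k) p :=
    char_of_not_dead hp hΦ T.C.n0 m hm (AlgebraicClosure k)
  obtain ⟨E, y, hy⟩ := exists_top_fam (by omega) T hK hΦ m hm (AlgebraicClosure k)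
  obtain ⟨M, iF, iN, iA, iK, ι, τ, e, hg⟩ := hG y
  have h1 : uU ι (((1 : (𝓞 M)ˣ) : 𝓞 M) : M) = 1 := by
    have h2 : (((1 : (𝓞 M)ˣ) : 𝓞 M) : M) = 1 := rfl
    apply Subtype.ext
    apply Units.ext
    have h3 := uU_val hg.dat (x := (((1 : (𝓞 M)ˣ) : 𝓞 M) : M)) (by rw [h2, map_one, one_mul])
    rw [h2, map_one] at h3
    exact h3
  obtain ⟨E', hE'⟩ : ∃ E' : EigFam Kf (chartU θ) (AlgebraicClosure k) T.ε
      (uU ι (((1 : (𝓞 M)ˣ) : 𝓞 M) : M))
      (fun v => dualL fun j => eig m (AlgebraicClosure k) (v, j)),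
      ∀ y i, E'.h y i = E.h y := by
    rw [h1]
    exact E.exists_eig
  exact not_ne_of_eig hU hn (p := p) hS hK hΦ hstd (fun v j => eig m k (v, j))
    _ (agb_hl1 (by omega) hΦ T.C.n0 m hm k) (Or.inr (agb_dual m k)) j ψ R.ψj ε ρ R.ρo
    R.hr ω R.ωo R.fr R.v3 R.ram y ι τ 1 e hg
    T.ε (fun _ h => eps_stab T h) hε E' (by rw [hE']; exact hy) R.ne

/-- One below the top degree. -/
theorem dead_sub [IsNoetherianRing O] [IsLocalRing O] (T : TSys Kf)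
    (hε : ∀ γ, (sysU A).sgn γ = 1 → T.ε γ = 1) (hU : IsUni A κ) (hn : 3 ≤ A.n) {p : ℕ}
    [Fact p.Prime] (hS : SFin K S) (hstd : Std (chartU θ)) (hK : OC Kf) (hTF : TorsionFree Kf)
    (hΦ : HypOff Kf (chartU θ)) [CharP (IsLocalRing.ResidueField O) p] (d : ℕ)
    (hd : d + 1 = T.C.n0)
    (m : Ideal (HeckeAlg A.n S O)) [m.IsMaximal] (k : Type) [Field k]
    [Algebra (HeckeAlg A.n S O ⧸ m) k] {j : K →ₐ[F] Fbar F} {ψ : Fbar K ≃+* Fbar F} {ε : ℤˣ}
    {ρ : GalF F →* LG A.n k} {ω : fixK j →* kˣ} {v₃ : Pl K}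
    (R : RepU κ j ψ θ p (fun v t => eig m k (v, t)) ε ρ ω v₃) (hG : GenOU A κ p v₃ Kf) :
    Dead Kf (triv Kf O (IsLocalRing.ResidueField O)) (unram_triv hΦ) d m := by
  by_contra hm
  have hp : p.Prime := Fact.out
  have hc1 : CharP k p := char_of_not_dead hp hΦ d m hm k
  have hc2 : CharP (AlgebraicClosure k) p := char_of_not_dead hp hΦ d m hm (AlgebraicClosure k)
  obtain ⟨E, y, γ, hγ, hy⟩ := exists_sub_fam (by omega) T hK hTF hΦ d hd m hm (AlgebraicClosure k)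
  obtain ⟨M, iF, iN, iA, iK, ι, τ, u, e, hg, hhu⟩ := hG y (AlgebraicClosure k) (E.h y)
      (fun a ha b hb => E.h_mul y a ha b hb) γ hγ hy
  obtain ⟨E', hE'⟩ := E.exists_eig hΦ (uU ι ((u : 𝓞 M) : M))
  refine not_ne_of_eig hU hn (p := p) hS hK hΦ hstd (fun v j => eig m k (v, j))
    _ (agb_hl1 (by omega) hΦ d m hm k) (Or.inr (agb_dual m k)) j ψ R.ψj ε ρ R.ρo
    R.hr ω R.ωo R.fr R.v3 R.ram y ι τ u e hg
    T.ε (fun _ h => eps_stab T h) hε E' ?_ R.ne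
  rw [hE' y 1 (by rw [pow_one]; exact hg.hu), pow_one]
  exact hhu

end Pool.Agent.CGU
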