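import Pool.Agent.CG2.GalL
import Mathlib.GroupTheory.SemidirectProduct
import Mathlib.LinearAlgebra.Matrix.GeneralLinearGroup.Defs

/-!
# The Langlands dual group of a unitary group
-/

noncomputable section

namespace Pool.Agent.CGU

open Matrix

/-- The antidiagonal matrix with the entries `1, -1, 1, …`. -/
def Jm (n : ℕ) (k : Type) [CommRing k] : Matrix (Fin n) (Fin n) k :=
  Matrix.of fun i j => if (i : ℕ) + j + 1 = n then (-1) ^ (i : ℕ) else 0

theorem Jm_apply (n : ℕ) (k : Type) [CommRing k] (i j : Fin n) :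
    Jm n k i j = if (i : ℕ) + j + 1 = n then (-1) ^ (i : ℕ) else 0 := rfl

theorem Jm_eq_rev (n : ℕ) (k : Type) [CommRing k] (i j : Fin n) :
    Jm n k i j = if j = Fin.rev i then (-1) ^ (i : ℕ) else 0 := by
  rw [Jm_apply]
  have h : ((i : ℕ) + j + 1 = n) ↔ j = Fin.rev i := by
    rw [Fin.ext_iff, Fin.val_rev]
    omega
  by_cases h1 : j = Fin.rev i
  · rw [if_pos h1, if_pos (h.2 h1)]
  · rw [if_neg h1, if_neg (fun h2 => h1 (h.1 h2))]

theorem Jm_mul_transpose (n : ℕ) (k : Type) [CommRing k] : Jm n k * (Jm n k)ᵀ = 1 := by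
  ext i j
  rw [Matrix.mul_apply]
  simp only [transpose_apply, Jm_eq_rev, Matrix.one_apply]
  simp only [ite_mul, zero_mul, Finset.sum_ite_eq', Finset.mem_univ, if_true]
  by_cases h : i = j
  · subst h
    rw [if_pos rfl, if_pos rfl, ← pow_add, ← two_mul, pow_mul]
    simp
  · rw [if_neg (fun h1 => h (Fin.rev_injective h1)), if_neg h, mul_zero]

theorem Jm_transpose_mul (n : ℕ) (k : Type) [CommRing k] : (Jm n k)ᵀ * Jm n k = 1 :=
  mul_eq_one_comm.1 (Jm_mul_transpose n k)

theorem Jm_transpose (n : ℕ) (k : Type) [CommRing k] :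
    (Jm n k)ᵀ = ((-1 : k) ^ (n + 1)) • Jm n k := by
  ext i j
  rw [transpose_apply, Matrix.smul_apply, Jm_apply, Jm_apply, smul_eq_mul]
  by_cases h : (j : ℕ) + i + 1 = n
  · have h' : (i : ℕ) + j + 1 = n := by omega
    rw [if_pos h, if_pos h', ← pow_add]
    have e : n + 1 + i = j + 2 * (i + 1) := by omega
    rw [e, pow_add, pow_mul]
    simp
  · have h' : ¬ (i : ℕ) + j + 1 = n := by omega
    rw [if_neg h, if_neg h', mul_zero]

/-- The same matrix as an element of the general linear group. -/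
def JG (n : ℕ) (k : Type) [CommRing k] : GL (Fin n) k :=
  ⟨Jm n k, (Jm n k)ᵀ, Jm_mul_transpose n k, Jm_transpose_mul n k⟩

@[simp] theorem coe_JG (n : ℕ) (k : Type) [CommRing k] :
    (JG n k : Matrix (Fin n) (Fin n) k) = Jm n k := rfl

/-- The inverse transpose. -/
def invT {n : ℕ} {k : Type} [CommRing k] (g : GL (Fin n) k) : GL (Fin n) k where
  val := ((g⁻¹ : GL (Fin n) k) : Matrix (Fin n) (Fin n) k)ᵀ
  inv := (g : Matrix (Fin n) (Fin n) k)ᵀ
  val_inv := by
    rw [← Matrix.transpose_mul, ← GeneralLinearGroup.coe_mul, mul_inv_cancel]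
    simp
  inv_val := by
    rw [← Matrix.transpose_mul, ← GeneralLinearGroup.coe_mul, inv_mul_cancel]
    simp

theorem coe_invT {n : ℕ} {k : Type} [CommRing k] (g : GL (Fin n) k) :
    (invT g : Matrix (Fin n) (Fin n) k) = ((g⁻¹ : GL (Fin n) k) : Matrix (Fin n) (Fin n) k)ᵀ := rfl

theorem invT_mul {n : ℕ} {k : Type} [CommRing k] (g h : GL (Fin n) k) :
    invT (g * h) = invT g * invT h := by
  apply Units.ext
  rw [GeneralLinearGroup.coe_mul, coe_invT, coe_invT, coe_invT, _root_.mul_inv_rev,
    GeneralLinearGroup.coe_mul, Matrix.transpose_mul]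

theorem invT_one {n : ℕ} {k : Type} [CommRing k] : invT (1 : GL (Fin n) k) = 1 := by
  have h := invT_mul (1 : GL (Fin n) k) 1
  rw [one_mul] at h
  exact mul_left_cancel (a := invT (1 : GL (Fin n) k)) (by rw [← h, mul_one])

theorem invT_inv {n : ℕ} {k : Type} [CommRing k] (g : GL (Fin n) k) :
    invT g⁻¹ = (invT g)⁻¹ := by
  apply eq_inv_of_mul_eq_one_left
  rw [← invT_mul, inv_mul_cancel, invT_one]

theorem invT_invT {n : ℕ} {k : Type} [CommRing k] (g : GL (Fin n) k) : invT (invT g) = g := by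
  apply Units.ext
  rw [coe_invT, ← invT_inv, coe_invT, inv_inv, transpose_transpose]

/-- The automorphism `g ↦ J (g⁻¹)ᵀ J⁻¹` of `GL_n(k)`. -/
def dualAut (n : ℕ) (k : Type) [CommRing k] : MulAut (GL (Fin n) k) where
  toFun g := JG n k * invT g * (JG n k)⁻¹
  invFun g := invT ((JG n k)⁻¹ * g * JG n k)
  left_inv g := by
    have h : (JG n k)⁻¹ * (JG n k * invT g * (JG n k)⁻¹) * JG n k = invT g := by group
    change invT ((JG n k)⁻¹ * (JG n k * invT g * (JG n k)⁻¹) * JG n k) = g
    rw [h, invT_invT]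
  right_inv g := by
    change JG n k * invT (invT ((JG n k)⁻¹ * g * JG n k)) * (JG n k)⁻¹ = g
    rw [invT_invT]
    group
  map_mul' g h := by
    rw [invT_mul]
    group

theorem dualAut_apply {n : ℕ} {k : Type} [CommRing k] (g : GL (Fin n) k) :
    dualAut n k g = JG n k * invT g * (JG n k)⁻¹ := rfl

theorem invT_JG (n : ℕ) (k : Type) [CommRing k] : invT (JG n k) = JG n k := by
  apply Units.ext
  change ((Jm n k)ᵀ)ᵀ = Jm n k
  rw [transpose_transpose]

theorem dualAut_dualAut {n : ℕ} {k : Type} [CommRing k] (g : GL (Fin n) k) :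
    dualAut n k (dualAut n k g) = g := by
  rw [dualAut_apply, dualAut_apply, invT_mul, invT_mul, invT_invT, invT_inv, invT_JG]
  have hc : ∀ x : GL (Fin n) k, JG n k * JG n k * x = x * (JG n k * JG n k) := by
    intro x
    apply Units.ext
    have h : ((JG n k * JG n k : GL (Fin n) k) : Matrix (Fin n) (Fin n) k) =
        (((-1 : k) ^ (n + 1)) • (1 : Matrix (Fin n) (Fin n) k)) := by
      have h1 : (Jm n k)ᵀ * Jm n k = 1 := Jm_transpose_mul n k
      rw [Jm_transpose, smul_mul_assoc] at h1
      rw [GeneralLinearGroup.coe_mul, coe_JG, ← h1, smul_smul, ← pow_add, ← two_mul, pow_mul]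
      simp
    rw [GeneralLinearGroup.coe_mul, h, GeneralLinearGroup.coe_mul, h]
    simp
  have h2 : JG n k * (JG n k * g * (JG n k)⁻¹) * (JG n k)⁻¹ =
      JG n k * JG n k * g * (JG n k * JG n k)⁻¹ := by group
  rw [h2, hc, mul_inv_cancel_right]

/-- The action of `{1, -1}` on `GL_n(k)`: `-1` acts by `g ↦ J (g⁻¹)ᵀ J⁻¹`. -/
def dualAct (n : ℕ) (k : Type) [CommRing k] : ℤˣ →* MulAut (GL (Fin n) k) where
  toFun s := if s = 1 then 1 else dualAut n k
  map_one' := if_pos rfl
  map_mul' s t := by
    have h : dualAut n k * dualAut n k = 1 := MulEquiv.ext fun g => dualAut_dualAut g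
    rcases Int.units_eq_one_or s with rfl | rfl <;> rcases Int.units_eq_one_or t with rfl | rfl
    · simp
    · simp
    · simp
    · rw [if_pos (by decide), if_neg (by decide), h]

/-- The Langlands dual group of a unitary group in `n` variables with respect to a quadratic
extension: the semidirect product of `GL_n(k)` and the group `{1, -1}` with this action. -/
abbrev LG (n : ℕ) (k : Type) [CommRing k] : Type := GL (Fin n) k ⋊[dualAct n k] ℤˣ

theorem dualAct_neg (n : ℕ) (k : Type) [CommRing k] : dualAct n k (-1) = dualAut n k := by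
  change (if (-1 : ℤˣ) = 1 then 1 else dualAut n k) = dualAut n k
  exact if_neg (by decide)

/-- The orthogonal complement with respect to the standard bilinear form. -/
def perp {n : ℕ} {k : Type} [Field k] (U : Submodule k (Fin n → k)) :
    Submodule k (Fin n → k) where
  carrier := {y | ∀ x ∈ U, x ⬝ᵥ y = 0}
  zero_mem' := fun x _ => dotProduct_zero x
  add_mem' := by
    intro a b ha hb x hx
    rw [dotProduct_add, ha x hx, hb x hx, add_zero]
  smul_mem' := by
    intro c a ha x hx
    rw [dotProduct_smul, ha x hx, smul_zero]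

theorem mem_perp {n : ℕ} {k : Type} [Field k] {U : Submodule k (Fin n → k)} {y : Fin n → k} :
    y ∈ perp U ↔ ∀ x ∈ U, x ⬝ᵥ y = 0 := Iff.rfl

/-- The element `x` of the dual group is in the stabiliser of the pair of subspaces `U ≤ U'`: if
`x = (A, 1)` then `A U = U` and `A U' = U'`, if `x = (A, -1)` then `A J U^⊥ = U'` and
`A J U'^⊥ = U`. -/
def InStab {n : ℕ} {k : Type} [Field k] (U U' : Submodule k (Fin n → k)) (x : LG n k) : Prop :=
  if x.right = 1 then
    U.map (Matrix.mulVecLin (x.left : Matrix (Fin n) (Fin n) k)) = U ∧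
      U'.map (Matrix.mulVecLin (x.left : Matrix (Fin n) (Fin n) k)) = U'
  else
    (perp U).map (Matrix.mulVecLin ((x.left : Matrix (Fin n) (Fin n) k) * Jm n k)) = U' ∧
      (perp U').map (Matrix.mulVecLin ((x.left : Matrix (Fin n) (Fin n) k) * Jm n k)) = U

theorem dualAut_map {n : ℕ} {k k' : Type} [CommRing k] [CommRing k'] (f : k →+* k')
    (g : GL (Fin n) k) : GeneralLinearGroup.map f (dualAut n k g) =
      dualAut n k' (GeneralLinearGroup.map f g) := by
  have hJ : GeneralLinearGroup.map f (JG n k) = JG n k' := by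
    apply Units.ext
    ext i j
    change f (Jm n k i j) = Jm n k' i j
    rw [Jm_apply, Jm_apply, apply_ite f, map_pow, map_neg, map_one, map_zero]
  have hT : ∀ g : GL (Fin n) k, GeneralLinearGroup.map f (invT g) =
      invT (GeneralLinearGroup.map f g) := by
    intro g
    apply Units.ext
    ext i j
    rw [coe_invT, ← map_inv]
    rfl
  rw [dualAut_apply, dualAut_apply, map_mul, map_mul, hT, map_inv, hJ]

/-- Extension of the scalars. -/
def LG.map (n : ℕ) {k k' : Type} [CommRing k] [CommRing k'] (f : k →+* k') :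
    LG n k →* LG n k' :=
  SemidirectProduct.map (GeneralLinearGroup.map f) (MonoidHom.id ℤˣ) (by
    intro s
    apply MonoidHom.ext
    intro g
    rcases Int.units_eq_one_or s with rfl | rfl
    · simp
    · change GeneralLinearGroup.map f (dualAct n k (-1) g) =
        dualAct n k' (-1) (GeneralLinearGroup.map f g)
      rw [dualAct_neg, dualAct_neg, dualAut_map])

end Pool.Agent.CGU
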