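import Pool.Agent.CGU.UD
import Pool.Agent.CGU.LGrp
import Pool.Agent.CGN.IDefs
import Pool.Agent.CGN.SDefs
import Pool.Agent.CGN.GalRes

/-!
# The vanishing theorem for unitary groups: definitions
-/

noncomputable section

namespace Pool.Agent.CGU

open NumberField IsDedekindDomain Matrix
open Pool.Agent.CG2 (Pl Fv Ov GalF Fbar Zbar Over IsInertia IsFrob Nm r1 r2)
open Pool.Agent.CGQ
open Pool.Agent.CGN (Chart HeckeAlg eig heckePol dualL lk Split incj)

variable {F : Type} [Field F] [NumberField F] {K : Type} [Field K] [NumberField K] [Algebra F K]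

/-- The trace of the multiplication by `x`. -/
def trR {A : UD F} {φ : F →+* ℝ} (x : BE A φ) : ℝ :=
  LinearMap.trace ℝ (BE A φ) (LinearMap.mulLeft ℝ x)

/-- `B` is a central simple algebra over the quadratic extension `K` of `F` (embedded in `B` by
`κ`), the involution is of the second kind (not trivial on `K`), anisotropic, and positive at the
real places of `F` which do not split in `K`. -/
structure IsUni (A : UD F) (κ : K →ₐ[F] BF A) : Prop where
  deg : Module.finrank F K = 2
  com : ∀ (a : K) (x : BF A), κ a * x = x * κ a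
  cen : ∀ x : BF A, (∀ y : BF A, x * y = y * x) → ∃ a : K, κ a = x
  sim : IsSimpleRing (BF A)
  kind : ∃ a : K, star (κ a) ≠ κ a
  ani : ∀ x : BF A, star x * x = 0 → x = 0
  pos : ∀ (w : InfinitePlace F) (h : w.IsReal),
    (¬ ∃ f : K →+* ℝ, f.comp (algebraMap F K) = InfinitePlace.embedding_of_isReal h) →
    ∀ x : BE A (InfinitePlace.embedding_of_isReal h), x ≠ 0 → 0 < trR (star x * x)

/-- The number of the real places of `F` which split in `K`. -/
def rsp (F K : Type) [Field F] [Field K] [Algebra F K] : ℕ :=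
  Nat.card {w : InfinitePlace F // ∃ h : w.IsReal, ∃ f : K →+* ℝ,
    f.comp (algebraMap F K) = InfinitePlace.embedding_of_isReal h}

/-- The number of the real places of `F` where the unitary group is `GL_n(ℝ)`. -/
def UD.sp (A : UD F) : ℕ := Nat.card (SPl A)

/-- The real rank of the derived group. -/
def UD.rk (A : UD F) (K : Type) [Field K] [Algebra F K] : ℕ :=
  (A.n - 1) * (A.sp + InfinitePlace.nrComplexPlaces F) + (A.n / 2 - 1) * (rsp F K - A.sp)

/-- The dimension of the locally symmetric space. -/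
def UD.dim (A : UD F) (K : Type) [Field K] [Algebra F K] : ℕ :=
  A.sp * (A.n * (A.n + 1) / 2) + (rsp F K - A.sp) * (A.n * (A.n - 1) / 2) +
    InfinitePlace.nrComplexPlaces F * A.n ^ 2

/-- The set `S` contains only finitely many places which split in `K`. -/
def SFin (K : Type) [Field K] [NumberField K] [Algebra F K] (S : Set (Pl F)) : Prop :=
  {v : Pl F | v ∈ S ∧ Split K v}.Finite

/-- Isomorphisms of the local unitary groups with `GL_n(F_v)` for the places outside `S`, given by
homomorphisms of algebras `B_v → M_n(F_v)`. -/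
structure USpl (A : UD F) (S : Set (Pl F)) where
  /-- the homomorphisms -/
  θ : ∀ v : {v : Pl F // v ∉ S}, BV A v.1 →ₐ[Fv v.1] Matrix (Fin A.n) (Fin A.n) (Fv v.1)
  bij : ∀ v : {v : Pl F // v ∉ S}, Function.Bijective fun g : UV A v.1 =>
    (Units.map (θ v : BV A v.1 →* Matrix (Fin A.n) (Fin A.n) (Fv v.1)) g.1 :
      GL (Fin A.n) (Fv v.1))

/-- The chart attached to such isomorphisms. -/
def chartU {A : UD F} {S : Set (Pl F)} (θ : USpl A S) : Chart A.n (sysU A) S where
  e v := MulEquiv.ofBijective
    ((Units.map (θ.θ v : BV A v.1 →* Matrix (Fin A.n) (Fin A.n) (Fv v.1))).comp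
      (Subgroup.subtype _)) (θ.bij v)

theorem chartU_val {A : UD F} {S : Set (Pl F)} (θ : USpl A S) (v : {v : Pl F // v ∉ S})
    (g : UV A v.1) : (((chartU θ).e v g : GL (Fin A.n) (Fv v.1)) :
      Matrix (Fin A.n) (Fin A.n) (Fv v.1)) = θ.θ v g.1.1 := rfl

/-- The Galois group of `Fbar` over `K`, embedded in `Fbar` by `j`. -/
def fixK (j : K →ₐ[F] Fbar F) : Subgroup (GalF F) where
  carrier := {g | ∀ a : K, g (j a) = j a}
  one_mem' := fun _ => rfl
  mul_mem' := by
    intro a b ha hb x
    change a (b (j x)) = j x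
    rw [hb x, ha x]
  inv_mem' := by
    intro a ha x
    change a.symm (j x) = j x
    rw [AlgEquiv.symm_apply_eq, ha x]

theorem mem_fixK {j : K →ₐ[F] Fbar F} {g : GalF F} : g ∈ fixK j ↔ ∀ a : K, g (j a) = j a :=
  Iff.rfl

/-- The place of `K` below `Q` (with respect to `j`) is the one over which `θ_v` is: the kernel of
the homomorphism `K → F_v` given by `θ_v` modulo the maximal ideal. -/
def Side {A : UD F} {S : Set (Pl F)} (κ : K →ₐ[F] BF A) (j : K →ₐ[F] Fbar F) (θ : USpl A S)
    (v : {v : Pl F // v ∉ S}) (Q : Ideal (Zbar F)) : Prop :=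
  ∀ a : 𝓞 K, incj j a ∈ Q ↔ ∀ x y : Fin A.n, Valued.v (θ.θ v (bloc A v.1 (κ (a : K))) x y) < 1

/-- The homomorphism `ρ` from the absolute Galois group of `F` to the dual group is attached to
the maximal ideal `m` of the Hecke algebra: it is continuous, compatible with the projections to
`Gal(K/F)`, unramified outside `S`, and for a sign `e` and a continuous character `ω` of the Galois
group of `K` the characteristic polynomial of `ρ(σ^e)`, `σ` a Frobenius element at `Q` over
`v ∉ S`, is the Hecke polynomial of the eigenvalues of `m` or the one of the dual eigenvalues,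
according to the side of `Q`. -/
def AttachedU {A : UD F} {S : Set (Pl F)} (κ : K →ₐ[F] BF A) (j : K →ₐ[F] Fbar F)
    (θ : USpl A S) {O : Type} [CommRing O] (m : Ideal (HeckeAlg A.n S O)) (k : Type)
    [Field k] [Algebra (HeckeAlg A.n S O ⧸ m) k] (ρ : GalF F →* LG A.n k) : Prop :=
  IsOpen (ρ.ker : Set (GalF F)) ∧
  (∀ g : GalF F, (ρ g).right = 1 ↔ ∀ a : K, g (j a) = j a) ∧
  ∃ (e : ℤˣ) (ω : fixK j →* kˣ), IsOpen (ω.ker : Set (fixK j)) ∧
    ∀ (v : {v : Pl F // v ∉ S}) (Q : Ideal (Zbar F)), Over v.1 Q →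
      (∀ σ : GalF F, IsInertia Q σ → ρ σ = 1) ∧
      (∀ σ : fixK j, IsFrob v.1 Q (σ : GalF F) →
        (Side κ j θ v Q →
          ((ρ ((σ : GalF F) ^ (e : ℤ))).left : Matrix (Fin A.n) (Fin A.n) k).charpoly =
            heckePol (fun t => eig m k (v, t)) (ω σ : k) ((Nm v.1 : ℕ) : k)) ∧
        (¬ Side κ j θ v Q →
          ((ρ ((σ : GalF F) ^ (e : ℤ))).left : Matrix (Fin A.n) (Fin A.n) k).charpoly =
            heckePol (dualL fun t => eig m k (v, t)) (ω σ : k) ((Nm v.1 : ℕ) : k)))

/-- `ρ` does not factor through a proper parabolic subgroup of the dual group, after any finite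
extension of the field `k`. A proper parabolic subgroup which maps onto `Gal(K/F)` is contained in
the stabiliser of a pair of subspaces `0 ≠ U ≤ U'`. -/
def NonEisU {n : ℕ} {k : Type} [Field k] (ρ : GalF F →* LG n k) : Prop :=
  ∀ (k' : Type) [Field k'] [Algebra k k'], Module.Finite k k' →
    ¬ ∃ U U' : Submodule k' (Fin n → k'), U ≠ ⊥ ∧ U ≤ U' ∧
      ∀ g : GalF F, InStab U U' (LG.map n (algebraMap k k') (ρ g))

end Pool.Agent.CGU
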