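import Pool.Agent.CGU.IDefs
import Pool.Agent.CGN.EDf

/-!
# The generic unit of the unitary group (part E'): definitions
-/

noncomputable section

set_option linter.unusedSectionVars false

namespace Pool.Agent.CGU

open NumberField IsDedekindDomain Matrix Polynomial
open Pool.Agent.CG2 (Pl Fv Ov GalF Fbar Zbar Over IsInertia IsFrob Nm)
open Pool.Agent.CG2.GalFinAux (below)
open Pool.Agent.CGQ
open Pool.Agent.CGN (SC Split abv ActsAs oF Cl T2p T2 T3p T3 RR)

variable {F : Type} [Field F] [NumberField F] {K : Type} [Field K] [NumberField K] [Algebra F K]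

/-- In this part `B` is a `K`-algebra (an instance argument), and `κ` is the structure map. -/
abbrev Uni (A : UD F) (K : Type) [Field K] [NumberField K] [Algebra F K] [Algebra K (BF A)]
    [IsScalarTower F K (BF A)] : Prop := IsUni A (IsScalarTower.toAlgHom F K (BF A))

/-- A polynomial which is irreducible modulo `v`. -/
structure T1p (v : Pl F) (n : ℕ) (g : (𝓞 F)[X]) : Prop where
  mo : g.Monic
  dg : g.natDegree = n
  irr : Irreducible (g.map (Ideal.Quotient.mk v.asIdeal))

/-- The local type zero: irreducible modulo `v`. -/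
def T1 (v : Pl F) (n : ℕ) (f : (Fv v)[X]) : Prop := ∃ g : (𝓞 F)[X], T1p v n g ∧ Cl v 1 f g

variable {A : UD F} {S : Set (Pl F)}

/-- The local types of the characteristic polynomials of an element of `B` at the three places. -/
structure TyU (θ : USpl A S) (v : Fin 3 → {v : Pl F // v ∉ S}) (x : BF A) : Prop where
  t1 : T1 (v 0).1 A.n (θ.θ (v 0) (bloc A (v 0).1 x)).charpoly
  t2 : T2 (v 1).1 A.n (θ.θ (v 1) (bloc A (v 1).1 x)).charpoly
  t3 : T3 (v 2).1 A.n (θ.θ (v 2) (bloc A (v 2).1 x)).charpoly

/-- The characteristic polynomials of the element of `B` have real roots at the real places where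
the group is `GL_n(ℝ)`. -/
def TyRU (A : UD F) (x : BF A) : Prop := ∀ w : SPl A, RR A.n (w.hom (bE A w.emb x)).charpoly

/-- The homomorphism `i` from `K` to `E` describes the action of `K` on `E ^ n` through `h`. -/
def IsSc [Algebra K (BF A)] {E : Type} [Field E] {φ : F →+* E}
    (h : BE A φ →ₐ[E] Matrix (Fin A.n) (Fin A.n) E) (i : K →+* E) : Prop :=
  (∀ a : F, i (algebraMap F K a) = φ a) ∧
    ∀ a : K, h (bE A φ (algebraMap K (BF A) a)) = algebraMap E _ (i a)

/-- The homomorphism `x ↦ θ_v (g⁻¹ x g)` from `B` to the matrices. -/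
def psiE (θ : USpl A S) (v : {v : Pl F // v ∉ S}) (g : (BV A v.1)ˣ) :
    BF A →+* Matrix (Fin A.n) (Fin A.n) (Fv v.1) where
  toFun x := θ.θ v ((g⁻¹ : (BV A v.1)ˣ).1 * bloc A v.1 x * g.1)
  map_one' := by rw [map_one, mul_one, Units.inv_mul, map_one]
  map_zero' := by rw [map_zero, mul_zero, zero_mul, map_zero]
  map_add' x y := by rw [map_add, mul_add, add_mul, map_add]
  map_mul' x y := by
    have h : g.1 * (g⁻¹ : (BV A v.1)ˣ).1 = 1 := Units.mul_inv g
    have h2 : (g⁻¹ : (BV A v.1)ˣ).1 * bloc A v.1 (x * y) * g.1 =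
        ((g⁻¹ : (BV A v.1)ˣ).1 * bloc A v.1 x * g.1) *
          ((g⁻¹ : (BV A v.1)ˣ).1 * bloc A v.1 y * g.1) := by
      rw [map_mul]
      simp only [mul_assoc]
      rw [← mul_assoc g.1 (g⁻¹ : (BV A v.1)ˣ).1, h, one_mul]
    rw [h2, map_mul]

/-- The smallest degree. -/
theorem SPl.emb_injective : Function.Injective (SPl.emb (A := A)) := by
  intro w w' h
  apply Subtype.ext
  have h1 : ∀ w : SPl A, w.1 = InfinitePlace.mk (Complex.ofRealHom.comp w.emb) := by
    intro w
    apply InfinitePlace.ext
    intro x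
    rw [InfinitePlace.apply]
    have h2 := InfinitePlace.embedding_of_isReal_apply w.2.choose x
    have h3 : (Complex.ofRealHom.comp w.emb) x = w.1.embedding x := h2
    rw [h3, InfinitePlace.norm_embedding_eq]
  rw [h1, h1 w', h]

theorem SPl.emb_mk (w : SPl A) : InfinitePlace.mk (Complex.ofRealHom.comp w.emb) = w.1 := by
  apply InfinitePlace.ext
  intro x
  rw [InfinitePlace.apply]
  have h2 := InfinitePlace.embedding_of_isReal_apply w.2.choose x
  have h3 : (Complex.ofRealHom.comp w.emb) x = w.1.embedding x := h2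
  rw [h3, InfinitePlace.norm_embedding_eq]

end Pool.Agent.CGU
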