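import Pool.Agent.CGN.EFa

/-!
# Part E': central simple algebras, generic lemmas
-/

noncomputable section

set_option linter.unusedSectionVars false

namespace Pool.Agent.CGU

open Matrix Polynomial

variable {K : Type} [Field K] {B : Type} [Ring B] [Algebra K B]

private inductive GN1_op (B : Type) [Ring B] : (B → B) → Prop
  | mul (a b : B) : GN1_op B (fun x => a * x * b)
  | add {S T : B → B} : GN1_op B S → GN1_op B T → GN1_op B (fun x => S x + T x)
  | zero : GN1_op B (fun _ => 0)

private theorem GN1_two {T : B → B} (hT : GN1_op B T) (c d : B) :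
    GN1_op B (fun x => c * T x * d) := by
  induction hT with
  | mul a b =>
    have h := GN1_op.mul (B := B) (c * a) (b * d)
    have e : (fun x : B => c * a * x * (b * d)) = fun x => c * (a * x * b) * d := by
      funext x
      simp only [mul_assoc]
    rwa [e] at h
  | add _ _ h1 h2 =>
    have h := GN1_op.add h1 h2
    simpa only [mul_add, add_mul] using h
  | zero =>
    simpa using GN1_op.zero (B := B)

private theorem GN1_left {T : B → B} (hT : GN1_op B T) (c : B) : GN1_op B (fun x => c * T x) := by
  simpa using GN1_two hT c 1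

private theorem GN1_right {T : B → B} (hT : GN1_op B T) (c : B) : GN1_op B (fun x => T x * c) := by
  simpa using GN1_two hT 1 c

private theorem GN1_neg {T : B → B} (hT : GN1_op B T) : GN1_op B (fun x => -T x) := by
  simpa using GN1_two hT (-1) 1

private theorem GN1_id : GN1_op B (fun x => x) := by
  simpa using GN1_op.mul (B := B) 1 1

private theorem GN1_comp {S T : B → B} (hS : GN1_op B S) (hT : GN1_op B T) :
    GN1_op B (fun x => S (T x)) := by
  induction hS with
  | mul a b => exact GN1_two hT a b
  | add _ _ h1 h2 => exact GN1_op.add h1 h2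
  | zero => exact GN1_op.zero

private theorem GN1_map_zero {S : B → B} (hS : GN1_op B S) : S 0 = 0 := by
  induction hS with
  | mul a b => simp
  | add _ _ h1 h2 => simp only [h1, h2, add_zero]
  | zero => rfl

private theorem GN1_sum {ι : Type} (s : Finset ι) (T : ι → B → B)
    (hT : ∀ i ∈ s, GN1_op B (T i)) : GN1_op B (fun x => ∑ i ∈ s, T i x) := by
  classical
  induction s using Finset.induction_on with
  | empty => simpa using GN1_op.zero (B := B)
  | insert i s hi ih =>
    have h := GN1_op.add (hT i (Finset.mem_insert_self i s))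
      (ih fun k hk => hT k (Finset.mem_insert_of_mem hk))
    have e : (fun x : B => T i x + ∑ k ∈ s, T k x) = fun x => ∑ k ∈ insert i s, T k x := by
      funext x
      rw [Finset.sum_insert hi]
    rwa [e] at h

private theorem GN1_fin {T : B → B} (hT : GN1_op B T) :
    ∃ (N : ℕ) (a b : Fin N → B), ∀ x, T x = ∑ l, a l * x * b l := by
  induction hT with
  | mul a b => exact ⟨1, fun _ => a, fun _ => b, fun x => by simp⟩
  | add _ _ h1 h2 =>
    obtain ⟨N1, a1, b1, e1⟩ := h1
    obtain ⟨N2, a2, b2, e2⟩ := h2
    refine ⟨N1 + N2, Fin.append a1 a2, Fin.append b1 b2, fun x => ?_⟩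
    rw [Fin.sum_univ_add]
    simp only [Fin.append_left, Fin.append_right]
    rw [← e1 x, ← e2 x]
  | zero => exact ⟨0, fun _ => 0, fun _ => 0, fun x => by simp⟩

private theorem GN1_one [IsSimpleRing B] {c : B} (hc : c ≠ 0) :
    ∃ S : B → B, GN1_op B S ∧ S c = 1 := by
  let I : TwoSidedIdeal B := TwoSidedIdeal.mk' {y | ∃ S : B → B, GN1_op B S ∧ S c = y}
    ⟨_, GN1_op.zero, rfl⟩
    (by
      rintro x y ⟨S, hS, rfl⟩ ⟨T, hT, rfl⟩
      exact ⟨_, GN1_op.add hS hT, rfl⟩)
    (by
      rintro x ⟨S, hS, rfl⟩
      exact ⟨_, GN1_neg hS, rfl⟩)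
    (by
      rintro x y ⟨S, hS, rfl⟩
      exact ⟨_, GN1_left hS x, rfl⟩)
    (by
      rintro x y ⟨S, hS, rfl⟩
      exact ⟨_, GN1_right hS y, rfl⟩)
  have hcI : c ∈ I := by
    rw [TwoSidedIdeal.mem_mk']
    exact ⟨_, GN1_id, rfl⟩
  have h1 : (1 : B) ∈ I := by
    rcases IsSimpleOrder.eq_bot_or_eq_top I with h | h
    · rw [h, TwoSidedIdeal.mem_bot] at hcI
      exact absurd hcI hc
    · rw [h]
      exact TwoSidedIdeal.mem_top _
  rw [TwoSidedIdeal.mem_mk'] at h1
  exact h1

private theorem GN1_core [IsSimpleRing B]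
    (hcen : ∀ x : B, (∀ y : B, x * y = y * x) → ∃ a : K, algebraMap K B a = x) {ι : Type}
    {u : ι → B} (hu : LinearIndependent K u) (s : Finset ι) :
    ∀ j ∉ s, ∃ T : B → B, GN1_op B T ∧ (∀ i ∈ s, T (u i) = 0) ∧ T (u j) = 1 := by
  classical
  induction s using Finset.strongInduction with
  | H s ih =>
    intro j hj
    have hex : ∃ T : B → B, GN1_op B T ∧ (∀ i ∈ s, T (u i) = 0) ∧ T (u j) ≠ 0 := by
      by_contra hno
      push Not at hno
      have hT0 : ∀ k : ι, ∃ T : B → B, k ∈ s →
          (GN1_op B T ∧ (∀ i ∈ s.erase k, T (u i) = 0) ∧ T (u k) = 1) := by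
        intro k
        by_cases hk : k ∈ s
        · obtain ⟨T, hT⟩ := ih (s.erase k) (Finset.erase_ssubset hk) k (Finset.notMem_erase k s)
          exact ⟨T, fun _ => hT⟩
        · exact ⟨fun _ => 0, fun h => absurd h hk⟩
      choose T hT using hT0
      have hkey : ∀ S : B → B, GN1_op B S → S (u j) = ∑ k ∈ s, S (u k) * T k (u j) := by
        intro S hS
        have h1 : GN1_op B (fun x => S x + -∑ k ∈ s, S (u k) * T k x) :=
          GN1_op.add hS (GN1_neg (GN1_sum s (fun k x => S (u k) * T k x)
            fun k hk => GN1_left (hT k hk).1 _))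
        have h2 := hno _ h1 (by
          intro i hi
          have h3 : ∑ k ∈ s, S (u k) * T k (u i) = S (u i) := by
            rw [Finset.sum_eq_single_of_mem i hi]
            · rw [(hT i hi).2.2, mul_one]
            · intro k hk hki
              rw [(hT k hk).2.1 i (Finset.mem_erase.2 ⟨hki.symm, hi⟩), mul_zero]
          simp only [h3, add_neg_cancel])
        have h4 : S (u j) + -∑ k ∈ s, S (u k) * T k (u j) = 0 := h2
        exact add_neg_eq_zero.1 h4
      have hcom : ∀ S : B → B, GN1_op B S → ∀ b : B,
          ∑ k ∈ s, S (u k) * (b * T k (u j) - T k (u j) * b) = 0 := by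
        intro S hS b
        have h1 := hkey _ (GN1_right hS b)
        have h2 := hkey _ hS
        simp only [mul_sub, Finset.sum_sub_distrib]
        have h3 : ∑ k ∈ s, S (u k) * (b * T k (u j)) = S (u j) * b := by
          have h4 : S (u j) * b = ∑ k ∈ s, S (u k) * b * T k (u j) := h1
          rw [h4]
          exact Finset.sum_congr rfl fun k _ => (mul_assoc _ _ _).symm
        have h5 : ∑ k ∈ s, S (u k) * (T k (u j) * b) = S (u j) * b := by
          rw [h2, Finset.sum_mul]
          exact Finset.sum_congr rfl fun k _ => (mul_assoc _ _ _).symm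
        rw [h3, h5, sub_self]
      have hcent : ∀ k : ι, ∃ a : K, k ∈ s → algebraMap K B a = T k (u j) := by
        intro k
        by_cases hk : k ∈ s
        · obtain ⟨a, ha⟩ := hcen (T k (u j)) (by
            intro b
            have h1 := hcom (T k) (hT k hk).1 b
            rw [Finset.sum_eq_single_of_mem k hk] at h1
            · rw [(hT k hk).2.2, one_mul] at h1
              exact (sub_eq_zero.1 h1).symm
            · intro i hi hik
              rw [(hT k hk).2.1 i (Finset.mem_erase.2 ⟨hik, hi⟩), zero_mul])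
          exact ⟨a, fun _ => ha⟩
        · exact ⟨0, fun h => absurd h hk⟩
      choose a ha using hcent
      have h1 := hkey _ (GN1_id (B := B))
      have h2 : u j = ∑ k ∈ s, a k • u k := by
        rw [h1]
        refine Finset.sum_congr rfl fun k hk => ?_
        rw [← ha k hk, Algebra.smul_def, Algebra.commutes]
      have h3 : u j ∈ Submodule.span K (u '' (s : Set ι)) := by
        rw [h2]
        exact Submodule.sum_mem _ fun k hk =>
          Submodule.smul_mem _ _ (Submodule.subset_span ⟨k, hk, rfl⟩)
      exact hu.notMem_span_image (s := (s : Set ι)) (x := j) (by simpa using hj) h3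
    obtain ⟨T, hT, h0, h1⟩ := hex
    obtain ⟨S, hS, hS1⟩ := GN1_one h1
    exact ⟨_, GN1_comp hS hT, fun i hi => by
      simp only [h0 i hi]
      exact GN1_map_zero hS, hS1⟩

/-- **GN1.** Density: in a central simple algebra the multiplications separate independent
elements.
PROOF. Induction on `m`, for all `j` (it is convenient to prove the statement with finite sums over lists or with the set `T` of the additive
maps `B →+ B` of the form `x ↦ ∑ l, a l * x * b l`, which is closed under sums, compositions and
left and right multiplications by elements of `B`; the final statement is for one family `Fin N`). For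
`u 1, ..., u m` independent and `j` let (induction hypothesis for the `m - 1` elements `u k`, `k ≠ j`) `T k` (`k ≠ j`) be maps with
`T k (u i) = δ`, `i, k ≠ j`. CLAIM: there is `T` with `T (u i) = 0` for `i ≠ j` and `T (u j) ≠ 0`. Otherwise for every `T` the map `x ↦ T x - ∑_{k ≠ j} T (u k) * T k x`
kills all `u i`, `i ≠ j`, so it kills `u j`: `T (u j) = ∑_k T (u k) * w k` with `w k = T k (u j)`. Apply this to
`x ↦ T x * b`: `T (u j) * b = ∑ T (u k) * b * w k`, so `∑_k T (u k) * (b * w k - w k * b) = 0` for all `T`; `T = T i` gives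
`b * w i = w i * b` for all `b`, so `w i` is in `K` (`hcen`), and `T = id` gives `u j = ∑ w k • u k`: contradiction to the
independence. Finally the two-sided ideal generated by `T (u j) ≠ 0` is everything (`IsSimpleRing`; `TwoSidedIdeal.span`, `TwoSidedIdeal.mem_span_iff_exists_fin`
or the set `{S (T (u j))}` is an ideal), so some
`∑ a l * T (u j) * b l` is `1`. -/
theorem exists_dens [IsSimpleRing B]
    (hcen : ∀ x : B, (∀ y : B, x * y = y * x) → ∃ a : K, algebraMap K B a = x) {m : ℕ}
    {u : Fin m → B} (hu : LinearIndependent K u) (j : Fin m) :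
    ∃ (N : ℕ) (a b : Fin N → B), ∀ k, ∑ l, a l * u k * b l = if k = j then 1 else 0 := by
  obtain ⟨T, hT, h0, h1⟩ := GN1_core hcen hu (Finset.univ.erase j) j (Finset.notMem_erase j _)
  obtain ⟨N, a, b, e⟩ := GN1_fin hT
  refine ⟨N, a, b, fun k => ?_⟩
  rw [← e (u k)]
  by_cases hk : k = j
  · subst hk
    rw [h1, if_pos rfl]
  · rw [if_neg hk]
    exact h0 k (Finset.mem_erase.2 ⟨hk, Finset.mem_univ k⟩)

/-- **GN2.** Every homomorphism preserves linear independence.
PROOF. `∑ k, e k • h (u k) = 0`. For every `j` take `a`, `b` of GN1: `0 = ∑ l, h (a l) * (∑ k, e k • h (u k)) * h (b l) =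
∑ k, e k • h (∑ l, a l * u k * b l) = e j • 1`, so `e j = 0` (`R` is nontrivial, `E` a field: `smul_eq_zero`). -/
theorem indep_image [IsSimpleRing B]
    (hcen : ∀ x : B, (∀ y : B, x * y = y * x) → ∃ a : K, algebraMap K B a = x)
    {R E : Type} [Field E] [Ring R] [Nontrivial R] [Algebra E R] (h : B →+* R) {m : ℕ}
    {u : Fin m → B} (hu : LinearIndependent K u) : LinearIndependent E fun k => h (u k) := by
  rw [Fintype.linearIndependent_iff]
  intro e he j
  obtain ⟨N, a, b, hab⟩ := exists_dens hcen hu j
  have h1 : ∑ l, h (a l) * (∑ k, e k • h (u k)) * h (b l) = 0 := by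
    rw [he]
    simp
  have h2 : ∑ l, h (a l) * (∑ k, e k • h (u k)) * h (b l) =
      ∑ k, e k • h (∑ l, a l * u k * b l) := by
    have h3 : ∀ l ∈ (Finset.univ : Finset (Fin N)),
        h (a l) * (∑ k, e k • h (u k)) * h (b l) =
          ∑ k, e k • (h (a l) * h (u k) * h (b l)) := by
      intro l _
      rw [Finset.mul_sum, Finset.sum_mul]
      refine Finset.sum_congr rfl fun k _ => ?_
      rw [mul_smul_comm, smul_mul_assoc]
    rw [Finset.sum_congr rfl h3, Finset.sum_comm]
    refine Finset.sum_congr rfl fun k _ => ?_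
    rw [map_sum, Finset.smul_sum]
    refine Finset.sum_congr rfl fun l _ => ?_
    rw [map_mul, map_mul]
  rw [h2] at h1
  have h4 : ∑ k, e k • h (∑ l, a l * u k * b l) = e j • (1 : R) := by
    rw [Finset.sum_eq_single_of_mem j (Finset.mem_univ j)]
    · rw [hab j, if_pos rfl, map_one]
    · intro k _ hk
      rw [hab k, if_neg hk, map_zero, smul_zero]
  rw [h4] at h1
  rcases smul_eq_zero.1 h1 with h5 | h5
  · exact h5
  · exact absurd h5 one_ne_zero

variable {n : ℕ} {E : Type} [Field E]

/-- **GN3.** The image of `B` spans the matrix algebra.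
PROOF. A basis of `B` (`n ^ 2` elements, `Module.finBasisOfFinrankEq`) has by GN2 `n ^ 2` independent images in a space of
dimension `n ^ 2` (`Module.finrank_matrix`), so they span (`LinearIndependent.span_eq_top_of_card_eq_finrank`);
`R = Matrix (Fin n) (Fin n) E` is nontrivial as `1 ≤ n`. -/
theorem span_image [IsSimpleRing B]
    (hcen : ∀ x : B, (∀ y : B, x * y = y * x) → ∃ a : K, algebraMap K B a = x)
    [Module.Finite K B] (hB : Module.finrank K B = n ^ 2) (hn : 1 ≤ n)
    (h : B →+* Matrix (Fin n) (Fin n) E) : Submodule.span E (Set.range h) = ⊤ := by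
  have : Nonempty (Fin n) := ⟨⟨0, hn⟩⟩
  have h1 := indep_image (E := E) hcen h (Module.finBasisOfFinrankEq K B hB).linearIndependent
  have h2 := h1.span_eq_top_of_card_eq_finrank' (by
    rw [Fintype.card_fin, Module.finrank_matrix, Module.finrank_self, Fintype.card_fin, mul_one, sq])
  rw [eq_top_iff, ← h2]
  refine Submodule.span_mono ?_
  rintro _ ⟨k, rfl⟩
  exact ⟨_, rfl⟩

/-- **GN4.** The centre acts by scalars.
PROOF. `h (algebraMap K B a)` commutes with the image of `h`, so with the span of the image, which is everything (GN3): it is a scalar matrix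
(`Matrix.mem_range_scalar_iff_commute_single` or `Matrix.center`/`Matrix.mem_center_iff`). `i a` = its entry `0 0` (`0 < n`); it is a
ring homomorphism, because `h ∘ algebraMap` is one and `algebraMap E _` is injective. -/
theorem exists_scalar [IsSimpleRing B]
    (hcen : ∀ x : B, (∀ y : B, x * y = y * x) → ∃ a : K, algebraMap K B a = x)
    [Module.Finite K B] (hB : Module.finrank K B = n ^ 2) (hn : 1 ≤ n)
    (h : B →+* Matrix (Fin n) (Fin n) E) :
    ∃ i : K →+* E, ∀ a : K, h (algebraMap K B a) = algebraMap E _ (i a) := by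
  have h1 := span_image hcen hB hn h
  have hcom : ∀ (a : K) (M : Matrix (Fin n) (Fin n) E), Commute M (h (algebraMap K B a)) := by
    intro a M
    have hM : M ∈ Submodule.span E (Set.range h) := by
      rw [h1]
      exact Submodule.mem_top
    refine Submodule.span_induction (p := fun M _ => Commute M (h (algebraMap K B a))) ?_ ?_ ?_ ?_ hM
    · rintro _ ⟨x, rfl⟩
      show h x * h (algebraMap K B a) = h (algebraMap K B a) * h x
      rw [← map_mul, ← map_mul, Algebra.commutes]
    · exact Commute.zero_left _
    · intro x y _ _ hx hy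
      exact hx.add_left hy
    · intro e x _ hx
      exact hx.smul_left e
  have hsc : ∀ a : K, ∃ e : E, h (algebraMap K B a) = algebraMap E _ e := by
    intro a
    obtain ⟨e, he⟩ := Matrix.mem_range_scalar_of_commute_single
      (fun i j _ => hcom a (Matrix.single i j 1))
    exact ⟨e, he.symm⟩
  have hinj : Function.Injective (algebraMap E (Matrix (Fin n) (Fin n) E)) := by
    have : Nonempty (Fin n) := ⟨⟨0, hn⟩⟩
    exact (algebraMap E (Matrix (Fin n) (Fin n) E)).injective
  choose f hf using hsc
  refine ⟨{ toFun := f, map_one' := ?_, map_mul' := ?_, map_zero' := ?_, map_add' := ?_ }, hf⟩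
  · apply hinj
    rw [← hf, map_one, map_one, map_one]
  · intro a b
    apply hinj
    rw [← hf, map_mul, map_mul, map_mul, hf, hf]
  · apply hinj
    rw [← hf, map_zero, map_zero, map_zero]
  · intro a b
    apply hinj
    rw [← hf, map_add, map_add, map_add, hf, hf]

/-- **GN5 (1).** Polynomials commute with `h`. -/
theorem hom_aeval (h : B →+* Matrix (Fin n) (Fin n) E) {i : K →+* E}
    (hi : ∀ a : K, h (algebraMap K B a) = algebraMap E _ (i a)) (c : B) (f : K[X]) :
    h (aeval c f) = aeval (h c) (f.map i) := by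
  rw [aeval_def, hom_eval₂, aeval_def, eval₂_map]
  exact congrArg (fun r => eval₂ r (h c) f) (RingHom.ext hi)

/-- powers of the image of `c` are independent -/
private theorem GN5_pow [IsSimpleRing B]
    (hcen : ∀ x : B, (∀ y : B, x * y = y * x) → ∃ a : K, algebraMap K B a = x)
    (hn : 1 ≤ n) (h : B →+* Matrix (Fin n) (Fin n) E) (c : B) :
    LinearIndependent E fun k : Fin (minpoly K c).natDegree => (h c) ^ (k : ℕ) := by
  have : Nonempty (Fin n) := ⟨⟨0, hn⟩⟩
  have h1 := indep_image (E := E) hcen h (linearIndependent_pow (K := K) c)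
  have h4 : (fun k : Fin (minpoly K c).natDegree => h (c ^ (k : ℕ))) =
      fun k : Fin (minpoly K c).natDegree => (h c) ^ (k : ℕ) := funext fun k => map_pow _ _ _
  rw [← h4]
  exact h1

/-- a polynomial of degree less than the degree of `c` which kills the image of `c` is zero -/
private theorem GN5_zero [IsSimpleRing B]
    (hcen : ∀ x : B, (∀ y : B, x * y = y * x) → ∃ a : K, algebraMap K B a = x)
    (hn : 1 ≤ n) (h : B →+* Matrix (Fin n) (Fin n) E) (c : B) (P : E[X])
    (hP : P.degree < (minpoly K c).natDegree) (h0 : aeval (h c) P = 0) : P = 0 := by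
  have h1 := GN5_pow hcen hn h c
  by_contra hP0
  have hlt : P.natDegree < (minpoly K c).natDegree := (Polynomial.natDegree_lt_iff_degree_lt hP0).2 hP
  rw [Polynomial.aeval_eq_sum_range' hlt,
    ← Fin.sum_univ_eq_sum_range (fun k => P.coeff k • (h c) ^ k)] at h0
  have h2 := Fintype.linearIndependent_iff.1 h1 (fun k => P.coeff (k : ℕ)) h0
  apply hP0
  ext k
  rw [Polynomial.coeff_zero]
  rcases Nat.lt_or_ge k (minpoly K c).natDegree with h3 | h3
  · exact h2 ⟨k, h3⟩
  · exact Polynomial.coeff_eq_zero_of_natDegree_lt (lt_of_lt_of_le hlt h3)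

/-- **GN5 (2).** The degree of the minimal polynomial is at most `n`.
PROOF. As `CGN.minpoly_le` (CGN/EFa.lean): otherwise `1, c, ..., c ^ n` are independent over `K`, so by GN2 their images `h c ^ k` are
independent over `E`; but `aeval (h c) (h c).charpoly = 0`. -/
theorem minpoly_le [IsSimpleRing B]
    (hcen : ∀ x : B, (∀ y : B, x * y = y * x) → ∃ a : K, algebraMap K B a = x)
    [Module.Finite K B] (hn : 1 ≤ n) (h : B →+* Matrix (Fin n) (Fin n) E) (c : B) :
    (minpoly K c).natDegree ≤ n := by
  by_contra hcon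
  push Not at hcon
  have h1 := GN5_zero hcen hn h c (h c).charpoly (by
    refine lt_of_le_of_lt Polynomial.degree_le_natDegree ?_
    rw [Matrix.charpoly_natDegree_eq_dim, Fintype.card_fin]
    exact_mod_cast hcon) (Matrix.aeval_self_charpoly _)
  exact (Matrix.charpoly_monic (h c)).ne_zero h1

/-- **GN6.** For an element of degree `n` the characteristic polynomial is the minimal polynomial.
PROOF. As `CGN.charpoly_eq` (CGN/EFa.lean), with GN2 instead of `lin_map` and `hom_aeval` instead of `iso_aeval`. -/
theorem charpoly_eq [IsSimpleRing B]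
    (hcen : ∀ x : B, (∀ y : B, x * y = y * x) → ∃ a : K, algebraMap K B a = x)
    [Module.Finite K B] (hn : 1 ≤ n) (h : B →+* Matrix (Fin n) (Fin n) E) {i : K →+* E}
    (hi : ∀ a : K, h (algebraMap K B a) = algebraMap E _ (i a)) {c : B}
    (hc : (minpoly K c).natDegree = n) : (h c).charpoly = (minpoly K c).map i := by
  have hint : IsIntegral K c := IsIntegral.of_finite K c
  have hmon := minpoly.monic hint
  have hmon' : ((minpoly K c).map i).Monic := hmon.map i
  have hd : (h c).charpoly.degree = ((minpoly K c).map i).degree := by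
    rw [Matrix.charpoly_degree_eq_dim, Polynomial.degree_eq_natDegree hmon'.ne_zero, hmon.natDegree_map, hc,
      Fintype.card_fin]
  have hlt : ((h c).charpoly - (minpoly K c).map i).degree < (minpoly K c).natDegree := by
    have h1 := Polynomial.degree_sub_lt_left hd (Matrix.charpoly_monic _).ne_zero
      ((Matrix.charpoly_monic _).leadingCoeff.trans hmon'.leadingCoeff.symm)
    refine lt_of_lt_of_le h1 ?_
    rw [Matrix.charpoly_degree_eq_dim, Fintype.card_fin, hc]
  have h0 := GN5_zero hcen hn h c _ hlt (by
    rw [map_sub, Matrix.aeval_self_charpoly, ← hom_aeval h hi, minpoly.aeval, map_zero, sub_zero])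
  exact sub_eq_zero.1 h0

/-- **GN7.** If the characteristic polynomial is separable then the degree is `n`.
PROOF. As `CGN.deg_of_sep` (CGN/EFa.lean). -/
theorem deg_of_sep [IsSimpleRing B]
    (hcen : ∀ x : B, (∀ y : B, x * y = y * x) → ∃ a : K, algebraMap K B a = x)
    [Module.Finite K B] (hn : 1 ≤ n) (h : B →+* Matrix (Fin n) (Fin n) E) {i : K →+* E}
    (hi : ∀ a : K, h (algebraMap K B a) = algebraMap E _ (i a)) {c : B}
    (hs : (h c).charpoly.Separable) : (minpoly K c).natDegree = n := by
  refine le_antisymm (minpoly_le hcen hn h c) ?_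
  have hint : IsIntegral K c := IsIntegral.of_finite K c
  have hmon := minpoly.monic hint
  let ψ : E →+* AlgebraicClosure E := algebraMap E (AlgebraicClosure E)
  obtain ⟨M, hM⟩ : ∃ M : Matrix (Fin n) (Fin n) (AlgebraicClosure E), M = (h c).map ψ := ⟨_, rfl⟩
  have hMc : M.charpoly = (h c).charpoly.map ψ := by
    rw [hM]
    exact Matrix.charpoly_map _ ψ
  obtain ⟨Q, hQ⟩ : ∃ Q : (AlgebraicClosure E)[X], Q = ((minpoly K c).map i).map ψ := ⟨_, rfl⟩
  have hQmon : Q.Monic := by
    rw [hQ]
    exact (hmon.map i).map ψ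
  have hQdeg : Q.natDegree = (minpoly K c).natDegree := by
    rw [hQ, (hmon.map i).natDegree_map, hmon.natDegree_map]
  have hQM : aeval M Q = 0 := by
    have h1 : aeval (h c) ((minpoly K c).map i) = 0 := by
      rw [← hom_aeval h hi, minpoly.aeval, map_zero]
    have h2 := congrArg (fun N : Matrix (Fin n) (Fin n) E => N.map ψ) h1
    have h3 : ∀ P : E[X], (aeval (h c) P).map ψ = aeval M (P.map ψ) := by
      intro P
      have h4 : (aeval (h c) P).map ψ = ψ.mapMatrix (aeval (h c) P) := rfl
      have h5 : ψ.mapMatrix.comp (algebraMap E (Matrix (Fin n) (Fin n) E)) =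
          (algebraMap (AlgebraicClosure E) (Matrix (Fin n) (Fin n) (AlgebraicClosure E))).comp ψ := by
        apply RingHom.ext
        intro r
        change ψ.mapMatrix (algebraMap E (Matrix (Fin n) (Fin n) E) r) =
          algebraMap (AlgebraicClosure E) (Matrix (Fin n) (Fin n) (AlgebraicClosure E)) (ψ r)
        ext i j
        rw [RingHom.mapMatrix_apply, Matrix.map_apply, Matrix.algebraMap_matrix_apply, Matrix.algebraMap_matrix_apply]
        split_ifs
        · rfl
        · exact map_zero ψ
      rw [h4, aeval_def, hom_eval₂, aeval_def, eval₂_map, hM, h5]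
      rfl
    simp only [h3] at h2
    rw [← hQ] at h2
    rw [h2]
    ext i j
    exact map_zero ψ
  have hroots : ∀ μ, M.charpoly.IsRoot μ → Q.IsRoot μ := by
    intro μ hμ
    have h1 : Module.End.HasEigenvalue (Matrix.toLin' M) μ := by
      rw [Module.End.hasEigenvalue_iff_isRoot_charpoly, Matrix.charpoly_toLin']
      exact hμ
    obtain ⟨x, hx⟩ := h1.exists_hasEigenvector
    have h2 := Module.End.aeval_apply_of_hasEigenvector (p := Q) hx
    have h3 : aeval (Matrix.toLin' M) Q = 0 := by
      have h4 : Matrix.toLin' M = Matrix.toLinAlgEquiv' M := rfl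
      have h5 : aeval (Matrix.toLinAlgEquiv' M) Q = Matrix.toLinAlgEquiv' (aeval M Q) :=
        (aeval_algHom_apply (Matrix.toLinAlgEquiv' : Matrix (Fin n) (Fin n) (AlgebraicClosure E) ≃ₐ[AlgebraicClosure E] _).toAlgHom M Q)
      rw [h4, h5, hQM, map_zero]
    rw [h3, LinearMap.zero_apply] at h2
    exact (smul_eq_zero.1 h2.symm).resolve_right hx.2
  have hsep : M.charpoly.Separable := by
    rw [hMc]
    exact hs.map
  have hsplit : M.charpoly.Splits := IsAlgClosed.splits _
  have hcard : Multiset.card M.charpoly.roots = n := by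
    rw [← hsplit.natDegree_eq_card_roots, Matrix.charpoly_natDegree_eq_dim, Fintype.card_fin]
  have hnodup := Polynomial.nodup_roots hsep
  have hle : M.charpoly.roots ≤ Q.roots := by
    rw [Multiset.le_iff_subset hnodup]
    intro μ hμ
    rw [Polynomial.mem_roots hQmon.ne_zero]
    exact hroots μ ((Polynomial.mem_roots (Matrix.charpoly_monic M).ne_zero).1 hμ)
  calc n = Multiset.card M.charpoly.roots := hcard.symm
    _ ≤ Multiset.card Q.roots := Multiset.card_le_card hle
    _ ≤ Q.natDegree := Polynomial.card_roots' Q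
    _ = (minpoly K c).natDegree := hQdeg

private theorem GN8_mem [Nontrivial B] [Module.Finite K B] (c : B) (f : K[X]) :
    aeval c f ∈ Submodule.span K (Set.range fun k : Fin (minpoly K c).natDegree => c ^ (k : ℕ)) := by
  have hmon := minpoly.monic (IsIntegral.of_finite K c)
  have h1 : aeval c f = aeval c (f %ₘ minpoly K c) := by
    conv_lhs => rw [← modByMonic_add_div f (minpoly K c)]
    rw [map_add, map_mul, minpoly.aeval, zero_mul, add_zero]
  have hpos : 0 < (minpoly K c).natDegree := minpoly.natDegree_pos (IsIntegral.of_finite K c)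
  have hlt : (f %ₘ minpoly K c).natDegree < (minpoly K c).natDegree :=
    natDegree_modByMonic_lt f hmon (minpoly.ne_one K c)
  rw [h1, Polynomial.aeval_eq_sum_range' hlt]
  refine Submodule.sum_mem _ fun k hk => Submodule.smul_mem _ _ (Submodule.subset_span ?_)
  exact ⟨⟨k, Finset.mem_range.1 hk⟩, rfl⟩

private theorem GN8_fin [Nontrivial B] [Module.Finite K B] (c : B) :
    Module.finrank K (Submodule.span K (Set.range fun k : Fin (minpoly K c).natDegree => c ^ (k : ℕ))) =
      (minpoly K c).natDegree := by
  rw [finrank_span_eq_card (linearIndependent_pow (K := K) c), Fintype.card_fin]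

/-- **GN8.** The subalgebra generated by `c` is a field if it contains a field of the maximal degree.
PROOF. Put `x = aeval c P`. `Algebra.adjoin K {x} ≤ Algebra.adjoin K {c}` and the dimensions are `n` and `(minpoly K c).natDegree ≤ n`
(the dimension of `Algebra.adjoin K {x}` is the degree of the minimal polynomial: the powers `x ^ k`, `k < deg`, are a basis; for a not
commutative `B` use the injective map `AdjoinRoot (minpoly K x) → B`, `Ideal.quotientKerAlgEquivOfSurjective`-like, or argue with linear independence of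
powers and `Submodule.eq_of_le_of_finrank_le`). So they are equal, `c = aeval x Q` for some `Q`, and the degree of `c` is `n`. If
`minpoly K c = f * g` with `f`, `g` of smaller degree (monic), then `aeval c f ≠ 0`, `aeval c g ≠ 0` and the product is
`0`. But `aeval c f = aeval x (f.comp Q)` and the map `K[X] → B`, `q ↦ aeval x q` has the prime ideal
generated by `minpoly K x` as its kernel (`minpoly.dvd`; irreducible so prime): `minpoly K x` divides `f.comp Q * g.comp Q`, so one of the factors: contradiction. -/
theorem irr_of_aeval [Nontrivial B] [Module.Finite K B] {c : B}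
    (hle : (minpoly K c).natDegree ≤ n) {P : K[X]} (hx : (minpoly K (aeval c P)).natDegree = n)
    (hirr : Irreducible (minpoly K (aeval c P))) :
    (minpoly K c).natDegree = n ∧ Irreducible (minpoly K c) := by
  have hfin : Module.Finite K (Submodule.span K
      (Set.range fun k : Fin (minpoly K c).natDegree => c ^ (k : ℕ))) := inferInstance
  have hTS : Submodule.span K (Set.range fun k : Fin (minpoly K (aeval c P)).natDegree =>
      (aeval c P) ^ (k : ℕ)) ≤ Submodule.span K
        (Set.range fun k : Fin (minpoly K c).natDegree => c ^ (k : ℕ)) := by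
    rw [Submodule.span_le]
    rintro _ ⟨k, rfl⟩
    have h1 : (aeval c P) ^ (k : ℕ) = aeval c (P ^ (k : ℕ)) := (map_pow _ _ _).symm
    show (aeval c P) ^ (k : ℕ) ∈ _
    rw [h1]
    exact GN8_mem c _
  have heq := Submodule.eq_of_le_of_finrank_le hTS (by
    rw [GN8_fin, GN8_fin, hx]
    exact hle)
  have hdeg : (minpoly K c).natDegree = n := by
    rw [← GN8_fin c, ← heq, GN8_fin, hx]
  refine ⟨hdeg, ?_⟩
  have hc : c ∈ Submodule.span K (Set.range fun k : Fin (minpoly K (aeval c P)).natDegree =>
      (aeval c P) ^ (k : ℕ)) := by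
    rw [heq]
    have h1 := GN8_mem (K := K) c X
    rwa [aeval_X] at h1
  obtain ⟨Q, hQ⟩ : ∃ Q : K[X], aeval (aeval c P) Q = c := by
    refine Submodule.span_induction (p := fun y _ => ∃ Q : K[X], aeval (aeval c P) Q = y) ?_ ?_ ?_ ?_ hc
    · rintro _ ⟨k, rfl⟩
      exact ⟨X ^ (k : ℕ), by rw [map_pow, aeval_X]⟩
    · exact ⟨0, map_zero _⟩
    · rintro y z _ _ ⟨Q, hQ⟩ ⟨R, hR⟩
      exact ⟨Q + R, by rw [map_add, hQ, hR]⟩
    · rintro a y _ ⟨Q, hQ⟩
      exact ⟨a • Q, by rw [map_smul, hQ]⟩
  have hcomp : ∀ f : K[X], aeval (aeval c P) (f.comp Q) = aeval c f := by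
    intro f
    rw [aeval_comp, hQ]
  have hprime : Prime (minpoly K c) := by
    refine ⟨minpoly.ne_zero (IsIntegral.of_finite K c), minpoly.not_isUnit K c, ?_⟩
    intro f g hfg
    have h1 : aeval c (f * g) = 0 := by
      obtain ⟨r, hr⟩ := hfg
      rw [hr, map_mul, minpoly.aeval, zero_mul]
    have h2 : minpoly K (aeval c P) ∣ f.comp Q * g.comp Q := by
      refine minpoly.dvd K _ ?_
      rw [← mul_comp, hcomp, h1]
    rcases hirr.prime.dvd_or_dvd h2 with h3 | h3
    · left
      refine minpoly.dvd K _ ?_
      obtain ⟨r, hr⟩ := h3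
      rw [← hcomp, hr, map_mul, minpoly.aeval, zero_mul]
    · right
      refine minpoly.dvd K _ ?_
      obtain ⟨r, hr⟩ := h3
      rw [← hcomp, hr, map_mul, minpoly.aeval, zero_mul]
  exact hprime.irreducible

/-- **GN9.** The inverse of a unit is a polynomial in it.
PROOF. `f = minpoly K c`; `f = X ^ k * g` with `g` of constant term not `0`; as `c` is a unit `aeval c g = 0`; `g = a + X * q`, `a ≠ 0`, so
`c * aeval c q = - a` and `c⁻¹ = aeval c (-a⁻¹ q)`. (Or: `Algebra.adjoin K {c}` is finite dimensional and multiplication by `c` is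
injective on it, so surjective.) -/
theorem inv_aeval [Module.Finite K B] (c : Bˣ) : ∃ Q : K[X], (c⁻¹ : Bˣ).1 = aeval c.1 Q := by
  obtain ⟨m, hm⟩ : ∃ m : Algebra.adjoin K {c.1}, m.1 = c.1 :=
    ⟨⟨c.1, Algebra.subset_adjoin rfl⟩, rfl⟩
  have hfin : Module.Finite K (Algebra.adjoin K {c.1}) :=
    inferInstanceAs (Module.Finite K (Subalgebra.toSubmodule (Algebra.adjoin K {c.1})))
  have hinj : Function.Injective (LinearMap.mulLeft K m) := by
    intro y z hyz
    have h1 : (m * y).1 = (m * z).1 := congrArg Subtype.val hyz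
    rw [MulMemClass.coe_mul, MulMemClass.coe_mul, hm] at h1
    exact Subtype.ext ((Units.mul_right_inj c).1 h1)
  obtain ⟨y, hy⟩ := (LinearMap.injective_iff_surjective.1 hinj) 1
  have h1 : c.1 * y.1 = 1 := by
    have h2 : (m * y).1 = (1 : Algebra.adjoin K {c.1}).1 := congrArg Subtype.val hy
    rw [MulMemClass.coe_mul, hm] at h2
    exact h2
  have h2 : (c⁻¹ : Bˣ).1 = y.1 := by
    rw [← mul_one (c⁻¹ : Bˣ).1, ← h1, Units.inv_mul_cancel_left]
  have h3 : ∀ z : B, z ∈ Algebra.adjoin K {c.1} → ∃ Q : K[X], aeval c.1 Q = z := by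
    intro z hz
    rw [Algebra.adjoin_singleton_eq_range_aeval] at hz
    exact hz
  obtain ⟨Q, hQ⟩ := h3 y.1 y.2
  exact ⟨Q, by rw [h2]; exact hQ.symm⟩

end Pool.Agent.CGU
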