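import Pool.Agent.CGU.EDf
import Pool.Agent.CGU.EGn

/-!
# Part E': subfields of `B` stable under the involution
-/

noncomputable section

set_option linter.unusedSectionVars false

namespace Pool.Agent.CGU

open NumberField IsDedekindDomain Matrix Polynomial
open Pool.Agent.CG2 (Pl Fv Ov GalF Fbar Zbar Over IsInertia IsFrob Nm)
open Pool.Agent.CG2.GalFinAux (below)
open Pool.Agent.CGQ
open Pool.Agent.CGN (SC Split abv ActsAs oF Cl T2p T2 T3p T3 RR)

variable {F : Type} [Field F] [NumberField F] {K : Type} [Field K] [NumberField K] [Algebra F K]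
variable {A : UD F} [Algebra K (BF A)] [IsScalarTower F K (BF A)]

/-- **FD1.** `B` is a finite dimensional algebra over `K`, of dimension `n ^ 2`.
PROOF. `Module.finrank F (BF A) = 2 * n ^ 2` (coordinates), `Module.finrank_mul_finrank F K (BF A)`, `hU.deg`
(`Module.Free K (BF A)`: a field). -/
theorem finite_B : Module.Finite K (BF A) := Module.Finite.of_restrictScalars_finite F K (BF A)

/-- **FD1 (2).** -/
theorem finrank_B (hU : Uni A K) : Module.finrank K (BF A) = A.n ^ 2 := by
  have h1 : Module.finrank F (BF A) = 2 * A.n ^ 2 := by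
    have h2 : Module.finrank F (Fin 2 × Fin A.n × Fin A.n → F) = 2 * A.n ^ 2 := by
      rw [Module.finrank_fintype_fun_eq_card, Fintype.card_prod, Fintype.card_prod, Fintype.card_fin,
        Fintype.card_fin, pow_two]
    exact h2
  have h2 := Module.finrank_mul_finrank F K (BF A)
  rw [hU.deg, h1] at h2
  exact Nat.eq_of_mul_eq_mul_left two_pos h2

/-- **FD2.** `B` is simple and central. PROOF. `hU.sim`, `hU.cen`. -/
theorem simple_B (hU : Uni A K) : IsSimpleRing (BF A) := hU.sim

theorem central_B (hU : Uni A K) :
    ∀ x : BF A, (∀ y : BF A, x * y = y * x) → ∃ a : K, algebraMap K (BF A) a = x := hU.cen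

/-- **FD3.** The conjugation of `K`.
PROOF. `star (algebraMap K _ a)` is central: `star (κ a) * x = star (star x * κ a) = star (κ a * star x) = x * star (κ a)`. So it is `κ (c a)` (`hU.cen`)
for a unique `c a` (`algebraMap K (BF A)` is injective: `BF A` is nontrivial as it is a simple ring). `c` is an `F`-algebra homomorphism, involutive
(`star_star`), so an isomorphism; not the identity by `hU.kind`. -/
theorem exists_conjE (hU : Uni A K) : ∃ c : K ≃ₐ[F] K,
    (∀ a, star (algebraMap K (BF A) a) = algebraMap K (BF A) (c a)) ∧ (∀ a, c (c a) = a) ∧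
      ∃ a, c a ≠ a := by
  have hsim := hU.sim
  have hinj : Function.Injective (algebraMap K (BF A)) := (algebraMap K (BF A)).injective
  have hex : ∀ a : K, ∃ b : K, algebraMap K (BF A) b = star (algebraMap K (BF A) a) := by
    intro a
    refine hU.cen _ fun y => ?_
    have h1 : algebraMap K (BF A) a * star y = star y * algebraMap K (BF A) a :=
      Algebra.commutes a (star y)
    have h2 := congrArg star h1
    rw [star_mul, star_mul, star_star] at h2
    exact h2.symm
  choose c hc using hex
  let c' : K →ₐ[F] K :=
    { toFun := c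
      map_one' := hinj (by rw [hc, map_one, star_one])
      map_mul' := fun a b => hinj (by
        rw [hc, map_mul, star_mul, map_mul, hc, hc, ← hc a, ← hc b, ← map_mul, ← map_mul, mul_comm])
      map_zero' := hinj (by rw [hc, map_zero, star_zero])
      map_add' := fun a b => hinj (by rw [hc, map_add, star_add, map_add, hc, hc])
      commutes' := fun r => hinj (by
        rw [hc, ← IsScalarTower.algebraMap_apply F K (BF A), Algebra.algebraMap_eq_smul_one,
          star_smul_alg, star_one]) }
  have hcc : ∀ a, c (c a) = a := fun a => hinj (by rw [hc, hc, star_star])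
  refine ⟨AlgEquiv.ofAlgHom c' c' (AlgHom.ext hcc) (AlgHom.ext hcc), fun a => (hc a).symm, hcc, ?_⟩
  obtain ⟨a, ha⟩ := hU.kind
  refine ⟨a, fun h => ha ?_⟩
  have h1 : c a = a := h
  have h2 := hc a
  rw [h1] at h2
  exact h2.symm

/-- **FD4.** The subfield generated by an element with irreducible minimal polynomial.
PROOF. `M = AdjoinRoot (minpoly K x)` (a field: `Fact (Irreducible _)`), finite over `K` of the right degree, `Algebra F M` through `K`
(`((algebraMap K M).comp (algebraMap F K)).toAlgebra`, `IsScalarTower.of_algebraMap_eq`), `NumberField M`. `ι` = the map induced by `aeval x : K[X] →ₐ[K] BF A`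
(`Ideal.Quotient.liftₐ`; see `FB1_gen` in CGN/EFb.lean), `z` = the root; `ι` is injective (a field, `BF A` is nontrivial).
`τ`: the image of `ι` is `{aeval x Q}`; `star (aeval x Q) = aeval (star x) (Q.map c)` (`c` of FD3; `star` reverses products but powers of one
element commute with each other and with `K`), with `star x = aeval x P` it is in the image of `ι`. So for every `y` there is a unique `τ y` with
`ι (τ y) = star (ι y)`; `τ` is additive, multiplicative (`star (a * b) = star b * star a` and the image of `ι` is commutative), `τ (algebraMap F M r)` is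
`algebraMap F M r` (`star` is `F`-linear, `star 1 = 1`), `τ (τ y) = y`. -/
theorem exists_fieldU (hU : Uni A K) {x : BF A} (hirr : Irreducible (minpoly K x))
    (hst : ∃ P : K[X], star x = aeval x P) :
    ∃ (M : Type) (_ : Field M) (_ : NumberField M) (_ : Algebra F M) (_ : Algebra K M)
      (_ : IsScalarTower F K M) (ι : M →ₐ[K] BF A) (τ : M ≃ₐ[F] M) (z : M), ι z = x ∧
      Function.Injective ι ∧ Module.finrank K M = (minpoly K x).natDegree ∧
      (∀ y : M, star (ι y) = ι (τ y)) ∧ ∀ y : M, τ (τ y) = y := by
  have hsim := hU.sim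
  obtain ⟨c, hc, hcc, -⟩ := exists_conjE hU
  obtain ⟨P, hP⟩ := hst
  have hfact : Fact (Irreducible (minpoly K x)) := ⟨hirr⟩
  let pb := AdjoinRoot.powerBasis hirr.ne_zero
  have hfin : Module.Finite K (AdjoinRoot (minpoly K x)) := pb.finite
  have hnf : NumberField (AdjoinRoot (minpoly K x)) := NumberField.of_module_finite K _
  have hker : ∀ a ∈ Ideal.span {minpoly K x}, (aeval x : K[X] →ₐ[K] BF A) a = 0 := by
    intro a ha
    obtain ⟨b, rfl⟩ := Ideal.mem_span_singleton'.1 ha
    rw [map_mul, minpoly.aeval, mul_zero]
  let ι : AdjoinRoot (minpoly K x) →ₐ[K] BF A :=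
    Ideal.Quotient.liftₐ (Ideal.span {minpoly K x}) (aeval x : K[X] →ₐ[K] BF A) hker
  have hι : ∀ Q : K[X], ι (AdjoinRoot.mk (minpoly K x) Q) = aeval x Q := fun Q => rfl
  have hinj : Function.Injective ι := ι.toRingHom.injective
  have hstar : ∀ Q : K[X], star (aeval x Q) = aeval (star x) (Q.map (c : K →+* K)) := by
    intro Q
    induction Q using Polynomial.induction_on' with
    | add p q hp hq => rw [map_add, star_add, hp, hq, Polynomial.map_add, map_add]
    | monomial n a =>
      rw [aeval_monomial, map_monomial, aeval_monomial, star_mul, star_pow, hc, Algebra.commutes]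
      rfl
  have hex : ∀ y : AdjoinRoot (minpoly K x), ∃ y', ι y' = star (ι y) := by
    intro y
    obtain ⟨Q, rfl⟩ := AdjoinRoot.mk_surjective y
    refine ⟨AdjoinRoot.mk _ ((Q.map (c : K →+* K)).comp P), ?_⟩
    rw [hι, hι, hstar, hP, aeval_comp]
  choose τ hτ using hex
  have hττ : ∀ y, τ (τ y) = y := fun y => hinj (by rw [hτ, hτ, star_star])
  let τ' : AdjoinRoot (minpoly K x) →ₐ[F] AdjoinRoot (minpoly K x) :=
    { toFun := τ
      map_one' := hinj (by rw [hτ, map_one, star_one])
      map_mul' := fun a b => hinj (by
        rw [hτ, map_mul, star_mul, ← hτ, ← hτ, ← map_mul, mul_comm])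
      map_zero' := hinj (by rw [hτ, map_zero, star_zero])
      map_add' := fun a b => hinj (by rw [hτ, map_add, star_add, map_add, hτ, hτ])
      commutes' := fun r => hinj (by
        have h1 : ι (algebraMap F (AdjoinRoot (minpoly K x)) r) = algebraMap F (BF A) r := by
          rw [IsScalarTower.algebraMap_apply F K (AdjoinRoot (minpoly K x)), AlgHom.commutes,
            ← IsScalarTower.algebraMap_apply F K (BF A)]
        rw [hτ, h1, Algebra.algebraMap_eq_smul_one, star_smul_alg, star_one]) }
  refine ⟨AdjoinRoot (minpoly K x), inferInstance, hnf, inferInstance, inferInstance,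
    inferInstance, ι, AlgEquiv.ofAlgHom τ' τ' (AlgHom.ext hττ) (AlgHom.ext hττ),
    AdjoinRoot.root _, ?_, hinj, ?_, fun y => (hτ y).symm, hττ⟩
  · have h1 : ι (AdjoinRoot.root (minpoly K x)) = (aeval x : K[X] →ₐ[K] BF A) X := rfl
    rw [h1, aeval_X]
  · rw [pb.finrank]
    exact AdjoinRoot.powerBasis_dim hirr.ne_zero

end Pool.Agent.CGU
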