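import Pool.Agent.CGU.EDf
import Pool.Agent.CGN.EUc

/-!
# Part E': powers of units are in the stabilisers, integrality
-/

noncomputable section

set_option linter.unusedSectionVars false

namespace Pool.Agent.CGU

open NumberField IsDedekindDomain Matrix Polynomial
open Pool.Agent.CG2 (Pl Fv Ov GalF Fbar Zbar Over IsInertia IsFrob Nm)
open Pool.Agent.CG2.GalFinAux (below)
open Pool.Agent.CGQ
open Pool.Agent.CGN (SC Split abv ActsAs oF Cl T2p T2 T3p T3 RR)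

variable {F : Type} [Field F] [NumberField F] {A : UD F} {M : Type} [Field M] [NumberField M]
  [Algebra F M]

private theorem IN1_exp_lt (γ : WithZero (Multiplicative ℤ)) (hγ : γ ≠ 0) :
    ∃ n : ℕ, WithZero.exp (-(n : ℤ)) < γ := by
  obtain ⟨m, rfl⟩ : ∃ m : ℤ, γ = WithZero.exp m := ⟨WithZero.log γ, (WithZero.exp_log hγ).symm⟩
  refine ⟨(1 - m).toNat, WithZero.exp_lt_exp.2 ?_⟩
  have := Int.self_le_toNat (1 - m)
  omega

/-- The neighbourhoods of a point of `F_v`. -/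
private theorem IN1_nhds (v : Pl F) (x : Fv v) {V : Set (Fv v)} (hV : V ∈ nhds x) :
    ∃ n : ℕ, ∀ y : Fv v, Valued.v (y - x) ≤ WithZero.exp (-(n : ℤ)) → y ∈ V := by
  obtain ⟨γ, hγ⟩ := Valued.mem_nhds.1 hV
  have h0 : MonoidWithZeroHom.ValueGroup₀.embedding γ.1 ≠ 0 := by
    rw [map_ne_zero_iff _ (MonoidWithZeroHom.ValueGroup₀.embedding_strictMono.injective)]
    exact γ.ne_zero
  obtain ⟨n, hn⟩ := IN1_exp_lt _ h0
  refine ⟨n, fun y hy => hγ ?_⟩
  change Valued.v.restrict (y - x) < γ.1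
  rw [Valuation.restrict_lt_iff_lt_embedding]
  exact lt_of_le_of_lt hy hn

/-- The coordinates of `x` have valuation at most `r`. -/
private def IN1_B (v : Pl F) (r : WithZero (Multiplicative ℤ)) (x : BV A v) : Prop :=
  ∀ i, Valued.v (x.co i) ≤ r

private theorem IN1_pi (v : Pl F) {J : Type} [Fintype J] (x : J → Fv v) {V : Set (J → Fv v)}
    (hV : V ∈ nhds x) :
    ∃ n : ℕ, ∀ y : J → Fv v, (∀ i, Valued.v (y i - x i) ≤ WithZero.exp (-(n : ℤ))) → y ∈ V := by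
  rw [nhds_pi, Filter.mem_pi'] at hV
  obtain ⟨I, t, ht, hIt⟩ := hV
  choose n hn using fun i => IN1_nhds v _ (ht i)
  refine ⟨∑ i, n i, fun y hy => hIt ?_⟩
  have hle : ∀ i, WithZero.exp (-((∑ j, n j : ℕ) : ℤ)) ≤
      (WithZero.exp (-(n i : ℤ)) : WithZero (Multiplicative ℤ)) := by
    intro i
    rw [WithZero.exp_le_exp]
    have : n i ≤ ∑ j, n j := Finset.single_le_sum (fun _ _ => Nat.zero_le _) (Finset.mem_univ i)
    have : (n i : ℤ) ≤ ((∑ j, n j : ℕ) : ℤ) := by exact_mod_cast this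
    omega
  intro i _
  apply hn i
  exact (hy i).trans (hle i)

/-- The neighbourhoods of a point of `B_v`. -/
private theorem IN1_nhdsD (v : Pl F) (x : BV A v) {V : Set (BV A v)} (hV : V ∈ nhds x) :
    ∃ n : ℕ, ∀ y : BV A v, IN1_B v (WithZero.exp (-(n : ℤ))) (y - x) → y ∈ V :=
  IN1_pi v (J := Fin 2 × Fin A.n × Fin A.n) x hV

/-- The neighbourhoods of `1` in the unitary group. -/
private theorem IN1_nhdsU (v : Pl F) (W : Subgroup (UV A v)) (hW : IsOpen (W : Set (UV A v))) :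
    ∃ n : ℕ, ∀ g : UV A v, IN1_B v (WithZero.exp (-(n : ℤ))) (g.1.1 - 1) →
      IN1_B v (WithZero.exp (-(n : ℤ))) ((g.1⁻¹ : (BV A v)ˣ).1 - 1) → g ∈ W := by
  obtain ⟨W', hW', hWW⟩ := isOpen_induced_iff.1 hW
  have h1 : W' ∈ nhds (1 : (BV A v)ˣ) := by
    refine hW'.mem_nhds ?_
    have h0 : (1 : UV A v) ∈ Subtype.val ⁻¹' W' := by
      rw [hWW]
      exact W.one_mem
    exact h0
  rw [Units.isEmbedding_embedProduct.isInducing.nhds_eq_comap, Filter.mem_comap] at h1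
  obtain ⟨T, hT, hTW⟩ := h1
  rw [map_one] at hT
  obtain ⟨V1, hV1, V2, hV2, h12⟩ := mem_nhds_prod_iff.1 hT
  have hV2' : MulOpposite.op ⁻¹' V2 ∈ nhds (1 : BV A v) :=
    MulOpposite.continuous_op.continuousAt.preimage_mem_nhds hV2
  obtain ⟨n1, h1⟩ := IN1_nhdsD v _ hV1
  obtain ⟨n2, h2⟩ := IN1_nhdsD v _ hV2'
  have hm : ∀ (a b : ℕ) (x : BV A v), b ≤ a → IN1_B v (WithZero.exp (-(a : ℤ))) x →
      IN1_B v (WithZero.exp (-(b : ℤ))) x := by
    intro a b x hab hx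
    have hle : (WithZero.exp (-(a : ℤ)) : WithZero (Multiplicative ℤ)) ≤
        WithZero.exp (-(b : ℤ)) := WithZero.exp_le_exp.2 (by omega)
    exact fun i => (hx i).trans hle
  refine ⟨max n1 n2, fun g hg hg' => ?_⟩
  have h3 : g.1 ∈ W' := hTW (h12 ⟨h1 _ (hm _ _ _ (le_max_left _ _) hg),
    h2 _ (hm _ _ _ (le_max_right _ _) hg')⟩)
  have h4 : g ∈ Subtype.val ⁻¹' W' := h3
  rw [hWW] at h4
  exact h4

/-- The elements of `B` whose coordinates have valuation at most `r`. -/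
private def IN1_P (A : UD F) (v : Pl F) (r : WithZero (Multiplicative ℤ)) :
    AddSubgroup (BF A) where
  carrier := {x | ∀ i, v.valuation F (x.co i) ≤ r}
  zero_mem' := by
    intro i
    rw [SC.Alg.co_zero, map_zero]
    exact zero_le
  add_mem' := by
    intro x y hx hy i
    exact (Valuation.map_add _ _ _).trans (max_le (hx i) (hy i))
  neg_mem' := by
    intro x hx i
    rw [SC.Alg.co_neg, Valuation.map_neg]
    exact hx i

private theorem IN1_key (v : Pl F) (z : F) : ∃ n : ℕ, v.valuation F z ≤ WithZero.exp (n : ℤ) := by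
  by_cases h0 : v.valuation F z = 0
  · exact ⟨0, by rw [h0]; exact zero_le⟩
  · obtain ⟨m, hm⟩ : ∃ m : ℤ, v.valuation F z = WithZero.exp m :=
      ⟨WithZero.log (v.valuation F z), (WithZero.exp_log h0).symm⟩
    refine ⟨m.toNat, ?_⟩
    rw [hm, WithZero.exp_le_exp]
    exact Int.self_le_toNat m

/-- A bound for one element. -/
private theorem IN1_one (v : Pl F) (x : BF A) : ∃ n : ℕ, x ∈ IN1_P A v (WithZero.exp (n : ℤ)) := by
  choose n hn using fun i => IN1_key v (x.co i)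
  refine ⟨∑ i, n i, fun i => (hn i).trans ?_⟩
  rw [WithZero.exp_le_exp]
  exact_mod_cast Finset.single_le_sum (f := n) (fun _ _ => Nat.zero_le _) (Finset.mem_univ i)

private theorem IN1_mono (v : Pl F) {a b : ℕ} (hab : a ≤ b) :
    IN1_P A v (WithZero.exp (a : ℤ)) ≤ IN1_P A v (WithZero.exp (b : ℤ)) := by
  have hle : (WithZero.exp (a : ℤ) : WithZero (Multiplicative ℤ)) ≤ WithZero.exp (b : ℤ) := by
    rw [WithZero.exp_le_exp]
    exact_mod_cast hab
  intro x hx i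
  exact (hx i).trans hle

/-- A bound for the integers of `M`. -/
private theorem IN1_bdd (v : Pl F) (ι : M →ₐ[F] BF A) :
    ∃ n : ℕ, ∀ z : 𝓞 M, ι (z : M) ∈ IN1_P A v (WithZero.exp (n : ℤ)) := by
  obtain ⟨S, hS⟩ := (Module.Finite.fg_top (R := ℤ) (M := 𝓞 M))
  choose n hn using fun z : 𝓞 M => IN1_one (A := A) v (ι (z : M))
  refine ⟨S.sup n, fun z => ?_⟩
  let f : 𝓞 M →+ BF A := (ι : M →+* BF A).toAddMonoidHom.comp
    (algebraMap (𝓞 M) M).toAddMonoidHom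
  have hz : z ∈ Submodule.span ℤ (S : Set (𝓞 M)) := by
    rw [hS]
    exact Submodule.mem_top
  refine Submodule.span_induction (p := fun z _ => f z ∈ IN1_P A v (WithZero.exp ((S.sup n : ℕ) : ℤ)))
    ?_ ?_ ?_ ?_ hz
  · intro x hx
    exact IN1_mono v (Finset.le_sup (f := n) hx) (hn x)
  · rw [map_zero]
    exact zero_mem _
  · intro x y _ _ hx hy
    rw [map_add]
    exact add_mem hx hy
  · intro m x _ hx
    rw [map_zsmul]
    exact zsmul_mem hx m

private theorem IN1_p (v : Pl F) : ((Ideal.absNorm v.asIdeal : ℕ) : F) ≠ 0 ∧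
    v.valuation F ((Ideal.absNorm v.asIdeal : ℕ) : F) ≤ WithZero.exp (-1 : ℤ) := by
  set p : ℕ := Ideal.absNorm v.asIdeal with hp
  have hp0 : p ≠ 0 := by
    rw [hp]
    intro h
    exact v.ne_bot (Ideal.absNorm_eq_zero_iff.1 h)
  have h1 : v.valuation F (p : F) < 1 := by
    have h2 : ((p : ℕ) : 𝓞 F) ∈ v.asIdeal := Ideal.absNorm_mem v.asIdeal
    have h3 := (v.valuation_lt_one_iff_mem (K := F) _).2 h2
    simpa using h3
  have hp1 : (p : F) ≠ 0 := by exact_mod_cast hp0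
  refine ⟨hp1, ?_⟩
  have h0 : v.valuation F (p : F) ≠ 0 := by
    rw [Valuation.ne_zero_iff]
    exact hp1
  obtain ⟨m, hm⟩ : ∃ m : ℤ, v.valuation F (p : F) = WithZero.exp m :=
    ⟨WithZero.log (v.valuation F (p : F)), (WithZero.exp_log h0).symm⟩
  rw [hm] at h1 ⊢
  rw [← WithZero.exp_zero, WithZero.exp_lt_exp] at h1
  rw [WithZero.exp_le_exp]
  omega

private theorem IN1_N (v : Pl F) (k : ℕ) :
    ∃ N : ℕ, N ≠ 0 ∧ v.valuation F (N : F) ≤ WithZero.exp (-(k : ℤ)) := by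
  obtain ⟨h0, h2⟩ := IN1_p v
  set p : ℕ := Ideal.absNorm v.asIdeal with hp
  refine ⟨p ^ k, pow_ne_zero k (by exact_mod_cast h0), ?_⟩
  push_cast
  rw [map_pow]
  refine (pow_le_pow_left₀ zero_le h2 k).trans (le_of_eq ?_)
  rw [← WithZero.exp_nsmul]
  congr 1
  simp

/-- The value of `uU`. -/
private theorem IN1_val (ι : M →ₐ[F] BF A) (τ : M ≃ₐ[F] M) (hτ : ∀ x, star (ι x) = ι (τ x))
    {x : M} (hx : τ x * x = 1) : (show UF A from uU ι x).1.1 = ι x := by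
  refine mkU_val ?_ ?_
  · rw [hτ, ← map_mul, hx, map_one]
  · rw [hτ, ← map_mul, mul_comm, hx, map_one]

/-- The value of the inverse. -/
private theorem IN1_inv (ι : M →ₐ[F] BF A) (τ : M ≃ₐ[F] M) (hτ : ∀ x, star (ι x) = ι (τ x))
    {x : M} (hx : τ x * x = 1) : ((show UF A from uU ι x).1⁻¹ : (BF A)ˣ).1 = ι x⁻¹ := by
  have hx0 : x ≠ 0 := by
    rintro rfl
    rw [mul_zero] at hx
    exact zero_ne_one hx
  have h1 : ι x⁻¹ * (show UF A from uU ι x).1.1 = 1 := by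
    rw [IN1_val ι τ hτ hx, ← map_mul, inv_mul_cancel₀ hx0, map_one]
  exact Units.inv_eq_of_mul_eq_one_left h1

/-- **IN1.** The local statement.
PROOF. Port of `CGN.exists_pow_loc` (CGN/EUc.lean, with its private lemmas `NC1_..`) for the units of norm one: the elements `uU ι ε` with
`τ ε * ε = 1` have the value `ι ε` (`mkU_val`, with `star (ι ε) = ι (τ ε)` and commutativity of `M`); the topology of `UV A v` is the one
of the units of `BV A v` (a subtype), so a neighbourhood of `1` in `UV A v` contains all `g` with the coordinates of `g - 1` and of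
`g⁻¹ - 1` small. -/
theorem exists_pow_locU (ι : M →ₐ[F] BF A) (τ : M ≃ₐ[F] M) (hτ : ∀ x, star (ι x) = ι (τ x))
    (v : Pl F) (W : Subgroup (UV A v)) (hW : IsOpen (W : Set (UV A v))) :
    ∃ m : ℕ, 0 < m ∧ ∀ ε : (𝓞 M)ˣ, τ ((ε : 𝓞 M) : M) * ((ε : 𝓞 M) : M) = 1 →
      (show UV A v from (sysU A).loc v (uU ι ((ε : 𝓞 M) : M))) ^ m ∈ W := by
  obtain ⟨n, hn⟩ := IN1_nhdsU v W hW
  obtain ⟨k, hk⟩ := IN1_bdd v ι
  obtain ⟨N, hN0, hN⟩ := IN1_N v (n + k)
  set I : Ideal (𝓞 M) := Ideal.span {(N : 𝓞 M)} with hI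
  have hI0 : I ≠ ⊥ := by
    rw [hI, Ne, Ideal.span_singleton_eq_bot]
    exact_mod_cast hN0
  have hfin : Finite (𝓞 M ⧸ I) := Ideal.finiteQuotientOfFreeOfNeBot I hI0
  have hfinU : Finite (𝓞 M ⧸ I)ˣ := inferInstance
  -- the powers of the units
  have key : ∀ ε : (𝓞 M)ˣ, IN1_B v (WithZero.exp (-(n : ℤ)))
      (bloc A v (ι (((ε ^ Nat.card (𝓞 M ⧸ I)ˣ : (𝓞 M)ˣ) : 𝓞 M) : M)) - 1) := by
    intro ε
    have h1 : (Units.map (Ideal.Quotient.mk I : 𝓞 M →* 𝓞 M ⧸ I) ε) ^ Nat.card (𝓞 M ⧸ I)ˣ = 1 :=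
      pow_card_eq_one'
    rw [← map_pow] at h1
    have h2 : Ideal.Quotient.mk I ((ε ^ Nat.card (𝓞 M ⧸ I)ˣ : (𝓞 M)ˣ) : 𝓞 M) =
        Ideal.Quotient.mk I 1 := (congrArg Units.val h1).trans (map_one _).symm
    rw [Ideal.Quotient.eq, hI, Ideal.mem_span_singleton] at h2
    obtain ⟨z, hz⟩ := h2
    have h3 : (((ε ^ Nat.card (𝓞 M ⧸ I)ˣ : (𝓞 M)ˣ) : 𝓞 M) : M) = 1 + (N : M) * (z : M) := by
      have h4 : ((ε ^ Nat.card (𝓞 M ⧸ I)ˣ : (𝓞 M)ˣ) : 𝓞 M) = 1 + (N : 𝓞 M) * z := by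
        rw [← hz]
        ring
      rw [h4]
      simp
    have h5 : bloc A v (ι (((ε ^ Nat.card (𝓞 M ⧸ I)ˣ : (𝓞 M)ˣ) : 𝓞 M) : M)) - 1 =
        bloc A v ((N : F) • ι (z : M)) := by
      rw [h3, map_add, map_one, map_add, map_one, add_sub_cancel_left, map_mul, map_natCast]
      congr 1
      rw [Algebra.smul_def, map_natCast]
    rw [h5]
    have h6 := hk z
    intro i
    have h8 : Valued.v ((bloc A v ((N : F) • ι (z : M))).co i) =
        v.valuation F ((N : F) * (ι (z : M)).co i) := by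
      rw [← CGN.val_F]
      rfl
    rw [h8, map_mul]
    refine (mul_le_mul' hN (h6 i)).trans (le_of_eq ?_)
    rw [← WithZero.exp_add]
    congr 1
    push_cast
    ring
  have hpow : ∀ (ε : (𝓞 M)ˣ) (m : ℕ), (((ε ^ m : (𝓞 M)ˣ) : 𝓞 M) : M) = ((ε : 𝓞 M) : M) ^ m := by
    intro ε m
    rw [Units.val_pow_eq_pow_val]
    exact map_pow (algebraMap (𝓞 M) M) _ _
  have hinv : ∀ ε : (𝓞 M)ˣ, (((ε⁻¹ : (𝓞 M)ˣ) : 𝓞 M) : M) = (((ε : 𝓞 M) : M))⁻¹ := by
    intro ε
    apply eq_inv_of_mul_eq_one_left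
    rw [← map_mul, Units.inv_mul, map_one]
  refine ⟨Nat.card (𝓞 M ⧸ I)ˣ, Nat.card_pos, fun ε hε => ?_⟩
  have hg : (show UV A v from (sysU A).loc v (uU ι ((ε : 𝓞 M) : M))).1.1 =
      bloc A v (ι ((ε : 𝓞 M) : M)) := by
    have h1 : (show UV A v from (sysU A).loc v (uU ι ((ε : 𝓞 M) : M))).1.1 =
      bloc A v (show UF A from uU ι ((ε : 𝓞 M) : M)).1.1 := rfl
    rw [h1, IN1_val ι τ hτ hε]
  have hg' : ((show UV A v from (sysU A).loc v (uU ι ((ε : 𝓞 M) : M))).1⁻¹ : (BV A v)ˣ).1 =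
      bloc A v (ι (((ε⁻¹ : (𝓞 M)ˣ) : 𝓞 M) : M)) := by
    have h1 : ((show UV A v from (sysU A).loc v (uU ι ((ε : 𝓞 M) : M))).1⁻¹ : (BV A v)ˣ).1 =
      bloc A v ((show UF A from uU ι ((ε : 𝓞 M) : M)).1⁻¹ : (BF A)ˣ).1 := rfl
    rw [h1, IN1_inv ι τ hτ hε, hinv]
  generalize (show UV A v from (sysU A).loc v (uU ι ((ε : 𝓞 M) : M))) = g at *
  apply hn
  · have h1 : (g ^ Nat.card (𝓞 M ⧸ I)ˣ).1.1 =
        bloc A v (ι (((ε ^ Nat.card (𝓞 M ⧸ I)ˣ : (𝓞 M)ˣ) : 𝓞 M) : M)) := by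
      rw [SubgroupClass.coe_pow, Units.val_pow_eq_pow_val, hg, hpow, map_pow, map_pow]
    rw [h1]
    exact key ε
  · have h1 : ((g ^ Nat.card (𝓞 M ⧸ I)ˣ).1⁻¹ : (BV A v)ˣ).1 =
        bloc A v (ι (((ε⁻¹ ^ Nat.card (𝓞 M ⧸ I)ˣ : (𝓞 M)ˣ) : 𝓞 M) : M)) := by
      rw [SubgroupClass.coe_pow, ← inv_pow, Units.val_pow_eq_pow_val, hg', hpow, map_pow, map_pow]
    rw [h1]
    exact key ε⁻¹

/-- **IN2.** At almost all places the units are in the base subgroups.
PROOF. Port of `CGN.finite_not_mem_BZ` (`mem_UZ_iff`: only integrality of the element is needed). -/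
theorem finite_not_mem_UZ (ι : M →ₐ[F] BF A) (τ : M ≃ₐ[F] M) (hτ : ∀ x, star (ι x) = ι (τ x)) :
    ∃ T : Set (Pl F), T.Finite ∧ ∀ v, v ∉ T → ∀ ε : (𝓞 M)ˣ,
      τ ((ε : 𝓞 M) : M) * ((ε : 𝓞 M) : M) = 1 →
      (show UV A v from (sysU A).loc v (uU ι ((ε : 𝓞 M) : M))) ∈ UZ A v := by
  classical
  obtain ⟨s, hs⟩ := (Module.finite_def (R := ℤ) (M := 𝓞 M)).1 inferInstance
  refine ⟨⋃ ω ∈ s, {v : Pl F | ¬ IntB A v (bloc A v (ι (ω : M)))}, ?_, ?_⟩
  · exact Set.Finite.biUnion s.finite_toSet fun ω _ => bloc_fin A _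
  · intro v hv ε hε
    simp only [Set.mem_iUnion, Set.mem_ofPred_eq, not_exists, not_not] at hv
    have hall : ∀ z : 𝓞 M, IntB A v (bloc A v (ι (z : M))) := by
      intro z
      rw [intB_iff]
      let f : 𝓞 M →+* BV A v := (bloc A v).comp ((ι : M →+* BF A).comp (algebraMap (𝓞 M) M))
      change f z ∈ (bint A v).range
      have hz : z ∈ Submodule.span ℤ (s : Set (𝓞 M)) := by rw [hs]; trivial
      induction hz using Submodule.span_induction with
      | mem x hx => exact (intB_iff A v _).1 (hv x hx)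
      | zero => rw [map_zero]; exact (bint A v).range.zero_mem
      | add x y _ _ hx hy => rw [map_add]; exact (bint A v).range.add_mem hx hy
      | smul n x _ hx => rw [map_zsmul]; exact (bint A v).range.zsmul_mem hx n
    apply (mem_UZ_iff A v _).2
    have h1 : (show UV A v from (sysU A).loc v (uU ι ((ε : 𝓞 M) : M))).1.1 =
      bloc A v (show UF A from uU ι ((ε : 𝓞 M) : M)).1.1 := rfl
    rw [h1, IN1_val ι τ hτ hε]
    exact hall (ε : 𝓞 M)

/-- **IN3.** A power of every unit of norm one of `M` is in `Stab Kf y`.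
PROOF. Port of `CGN.exists_pow_mem_stab` (CGN/EUc.lean; the sign: even powers). -/
theorem exists_pow_mem_stabU {Kf : Subgroup (sysU A).A} (hK : OC Kf) (y : (sysU A).Pt)
    (ι : M →ₐ[F] BF A) (τ : M ≃ₐ[F] M) (hτ : ∀ x, star (ι x) = ι (τ x)) :
    ∃ m : ℕ, 0 < m ∧ ∀ ε : (𝓞 M)ˣ, τ ((ε : 𝓞 M) : M) * ((ε : 𝓞 M) : M) = 1 →
      uU ι ((ε : 𝓞 M) : M) ^ m ∈ Stab Kf y := by
  classical
  obtain ⟨U, hUo, hUf, hUK⟩ := hK.op
  obtain ⟨T₀, hT₀, hT₀'⟩ := finite_not_mem_UZ (F := F) (A := A) ι τ hτ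
  have hg : {v : Pl F | y.2.1 v ∉ (sysU A).B v}.Finite := y.2.2
  have hfin : ({v : Pl F | ¬ (sysU A).B v ≤ U v} ∪ {v : Pl F | y.2.1 v ∉ (sysU A).B v} ∪
    T₀).Finite := (hUf.union hg).union hT₀
  set T : Finset (Pl F) := hfin.toFinset with hT
  have hloc : ∀ v : Pl F, ∃ m : ℕ, 0 < m ∧ ∀ ε : (𝓞 M)ˣ,
      τ ((ε : 𝓞 M) : M) * ((ε : 𝓞 M) : M) = 1 →
      (y.2.1 v)⁻¹ * ((sysU A).loc v (uU ι ((ε : 𝓞 M) : M))) ^ m * y.2.1 v ∈ U v := by
    intro v
    let c : (sysU A).L v →* (sysU A).L v := (MulAut.conj (y.2.1 v)⁻¹).toMonoidHom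
    have hc : ∀ x, c x = (y.2.1 v)⁻¹ * x * y.2.1 v := by
      intro x
      simp [c]
    have hcont : Continuous c := by
      have : (c : (sysU A).L v → (sysU A).L v) = fun x => (y.2.1 v)⁻¹ * x * y.2.1 v := funext hc
      rw [this]
      exact (continuous_const.mul continuous_id).mul continuous_const
    obtain ⟨m, hm, h⟩ := exists_pow_locU ι τ hτ v ((U v).comap c) ((hUo v).preimage hcont)
    refine ⟨m, hm, fun ε hε => ?_⟩
    rw [← hc]
    exact h ε hε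
  choose m hm hmU using hloc
  refine ⟨2 * ∏ v ∈ T, m v, Nat.mul_pos two_pos (Finset.prod_pos fun v _ => hm v), fun ε hε => ?_⟩
  set N := 2 * ∏ v ∈ T, m v with hN
  rw [mem_Stab']
  refine ⟨y.2⁻¹ * diag (uU ι ((ε : 𝓞 M) : M) ^ N) * y.2, ?_, ?_⟩
  · apply hUK
    intro v
    have e1 : (y.2⁻¹ * diag (uU ι ((ε : 𝓞 M) : M) ^ N) * y.2).1 v =
        (y.2.1 v)⁻¹ * ((sysU A).loc v (uU ι ((ε : 𝓞 M) : M))) ^ N * y.2.1 v := by
      rw [← map_pow]
      rfl
    rw [e1]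
    by_cases hv : v ∈ T
    · obtain ⟨k, hk⟩ : m v ∣ N := (Finset.dvd_prod_of_mem m hv).trans (Dvd.intro_left 2 rfl)
      have h1 := (U v).pow_mem (hmU v ε hε) k
      have h2 : ((y.2.1 v)⁻¹ * ((sysU A).loc v (uU ι ((ε : 𝓞 M) : M))) ^ m v * y.2.1 v) ^ k =
          (y.2.1 v)⁻¹ * ((sysU A).loc v (uU ι ((ε : 𝓞 M) : M))) ^ N * y.2.1 v := by
        have h3 := conj_pow (i := k) (a := (y.2.1 v)⁻¹)
          (b := ((sysU A).loc v (uU ι ((ε : 𝓞 M) : M))) ^ m v)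
        rw [inv_inv] at h3
        rw [h3, ← pow_mul, ← hk]
      rw [← h2]
      exact h1
    · rw [hT, Set.Finite.mem_toFinset] at hv
      simp only [Set.mem_union, Set.mem_ofPred_eq, not_or, not_not] at hv
      obtain ⟨⟨hv1, hv2⟩, hv3⟩ := hv
      apply hv1
      exact ((sysU A).B v).mul_mem (((sysU A).B v).mul_mem (((sysU A).B v).inv_mem hv2)
        (((sysU A).B v).pow_mem (hT₀' v hv3 ε hε) N)) hv2
  · refine Prod.ext ?_ ?_
    · change (sysU A).sgn (uU ι ((ε : 𝓞 M) : M) ^ N) * y.1 = y.1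
      have h1 : (sysU A).sgn (uU ι ((ε : 𝓞 M) : M) ^ N) = 1 := by
        rw [hN, pow_mul, map_pow, map_pow]
        have h2 : ((sysU A).sgn (uU ι ((ε : 𝓞 M) : M))) ^ 2 = 1 := by
          funext w
          exact Int.units_sq _
        rw [h2, one_pow]
      rw [h1, one_mul]
    · change diag (uU ι ((ε : 𝓞 M) : M) ^ N) * y.2 =
        y.2 * (y.2⁻¹ * diag (uU ι ((ε : 𝓞 M) : M) ^ N) * y.2)
      rw [← mul_assoc, ← mul_assoc, mul_inv_cancel, one_mul]

private theorem IN4_bdd {v : Pl F} {C : Set (UV A v)} (hC : IsCompact C) (f : UV A v → Fv v)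
    (hf : Continuous f) : ∃ n : ℕ, ∀ h ∈ C, Valued.v (f h) ≤ WithZero.exp (n : ℤ) := by
  have hcov : C ⊆ ⋃ n : ℕ, {h | Valued.v (f h) < WithZero.exp (n : ℤ)} := by
    intro h _
    rw [Set.mem_iUnion]
    by_cases h0 : Valued.v (f h) = 0
    · refine ⟨0, ?_⟩
      rw [Set.mem_ofPred_eq, h0]
      exact WithZero.exp_pos
    · obtain ⟨m, hm⟩ : ∃ m : ℤ, Valued.v (f h) = WithZero.exp m :=
        ⟨WithZero.log (Valued.v (f h)), (WithZero.exp_log h0).symm⟩
      refine ⟨(m + 1).toNat, ?_⟩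
      rw [Set.mem_ofPred_eq, hm, WithZero.exp_lt_exp]
      have := Int.self_le_toNat (m + 1)
      omega
  have hdir : Directed (· ⊆ ·) (fun n : ℕ => {h | Valued.v (f h) < WithZero.exp (n : ℤ)}) := by
    refine Monotone.directed_le fun n m hnm => ?_
    intro h hh
    refine lt_of_lt_of_le hh (WithZero.exp_le_exp.2 ?_)
    exact_mod_cast hnm
  obtain ⟨n, hn⟩ := hC.elim_directed_cover _
    (fun n => (CG2.isOpen_val_lt v _ WithZero.exp_ne_zero).preimage hf) hcov hdir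
  exact ⟨n, fun h hh => (hn hh).le⟩

/-- **IN4.** Bounds for the coordinates of all powers of an element of the stabiliser.
PROOF. Port of `CGN.exists_bound` (CGN/EUc.lean). -/
theorem exists_boundU {Kf : Subgroup (sysU A).A} (hK : OC Kf) (y : (sysU A).Pt) (γ : UF A)
    (hγ : (show (sysU A).G from γ) ∈ Stab Kf y) :
    (∀ v : Pl F, ∃ m : ℕ, ∀ (k : ℕ) (i : Fin 2 × Fin A.n × Fin A.n),
      v.valuation F ((γ.1.1 ^ k).co i) ≤ WithZero.exp (m : ℤ)) ∧
    {v : Pl F | ¬ ∀ (k : ℕ) (i : Fin 2 × Fin A.n × Fin A.n),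
      v.valuation F ((γ.1.1 ^ k).co i) ≤ 1}.Finite := by
  obtain ⟨C, hC, hCf, hCK⟩ := hK.cp
  obtain ⟨g, hgy⟩ : ∃ g : ∀ v : Pl F, UV A v, ∀ v, g v = y.2.1 v :=
    ⟨fun v => y.2.1 v, fun v => rfl⟩
  -- the local components of the elements of the stabiliser
  have key : ∀ (δ : UF A), (show (sysU A).G from δ) ∈ Stab Kf y → ∀ v : Pl F,
      ∃ κ : UV A v, κ ∈ C v ∧ A.sF.homU (algebraMap F (Fv v)) δ = g v * κ * (g v)⁻¹ := by
    intro δ hδ v
    obtain ⟨κ, hκ, h⟩ := mem_Stab'.1 hδ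
    have h3 : diag (show (sysU A).G from δ) * y.2 = y.2 * κ := congrArg Prod.snd h
    have h4 : diag (show (sysU A).G from δ) = y.2 * κ * y.2⁻¹ := by
      rw [← h3, mul_inv_cancel_right]
    refine ⟨κ.1 v, hCK κ hκ v, ?_⟩
    have h5 := congrArg (fun z : (sysU A).A => z.1 v) h4
    rw [hgy]
    exact h5
  have hval : ∀ (v : Pl F) (x : BF A) (i : Fin 2 × Fin A.n × Fin A.n),
      Valued.v ((bloc A v x).co i) = v.valuation F (x.co i) := fun v x i => by
    rw [← CGN.val_F]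
    rfl
  have hpow : ∀ k : ℕ, (show (sysU A).G from (γ ^ k : UF A)) ∈ Stab Kf y := fun k =>
    pow_mem hγ k
  have hv1 : ∀ (v : Pl F) (k : ℕ), (A.sF.homU (algebraMap F (Fv v)) (γ ^ k)).1.1 =
      bloc A v (γ.1.1 ^ k) := by
    intro v k
    rw [SCI.homU_val, SubgroupClass.coe_pow, Units.val_pow_eq_pow_val]
    rfl
  constructor
  · intro v
    have hcont : ∀ i : Fin 2 × Fin A.n × Fin A.n, Continuous (fun h : UV A v =>
        SC.Alg.co ((g v * h * (g v)⁻¹ : UV A v)).1.1 i) := by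
      intro i
      exact (CGN.continuous_co i).comp (Units.continuous_val.comp
        (continuous_subtype_val.comp ((continuous_const.mul continuous_id).mul continuous_const)))
    choose n hn using fun i => IN4_bdd (hC v) _ (hcont i)
    refine ⟨∑ i, n i, fun k i => ?_⟩
    obtain ⟨κ, hκ, h⟩ := key (γ ^ k) (hpow k) v
    have h1 := hn i κ hκ
    have h2 : SC.Alg.co ((g v * κ * (g v)⁻¹ : UV A v)).1.1 i =
        (bloc A v (γ.1.1 ^ k)).co i := by
      rw [← h, hv1]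
    rw [h2, hval] at h1
    refine h1.trans ?_
    rw [WithZero.exp_le_exp]
    exact_mod_cast Finset.single_le_sum (f := n) (fun _ _ => Nat.zero_le _) (Finset.mem_univ i)
  · have hg : {v : Pl F | y.2.1 v ∉ (sysU A).B v}.Finite := y.2.2
    refine (hCf.union hg).subset ?_
    intro v hv
    by_contra hc
    simp only [Set.mem_union, Set.mem_ofPred_eq, not_or, not_not] at hc
    obtain ⟨hc1, hc2⟩ := hc
    apply hv
    intro k i
    obtain ⟨κ, hκ, h⟩ := key (γ ^ k) (hpow k) v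
    have h1 : A.sF.homU (algebraMap F (Fv v)) (γ ^ k) ∈ UZ A v := by
      rw [h]
      have hc2' : g v ∈ UZ A v := by rw [hgy]; exact hc2
      exact (UZ A v).mul_mem ((UZ A v).mul_mem hc2' (hc1 hκ)) ((UZ A v).inv_mem hc2')
    have h2 := (mem_UZ_iff A v _).1 h1 i
    rw [hv1, hval] at h2
    exact h2

/-- **IN5.** The elements of the stabilisers are integral.
PROOF. Port of `CGN.stab_integral` (CGN/EUc.lean). -/
theorem stab_integralU {Kf : Subgroup (sysU A).A} (hK : OC Kf) (y : (sysU A).Pt) (γ : UF A)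
    (hγ : (show (sysU A).G from γ) ∈ Stab Kf y) :
    ∃ f : (𝓞 F)[X], f.Monic ∧ aeval γ.1.1 (f.map (algebraMap (𝓞 F) F)) = 0 := by
  classical
  obtain ⟨hb, hfin⟩ := exists_boundU hK y γ hγ
  choose m hm using hb
  set T : Finset (Pl F) := hfin.toFinset with hT
  set N : ℕ := ∏ v ∈ T, (Ideal.absNorm v.asIdeal) ^ m v with hN
  have hN0 : (N : F) ≠ 0 := by
    rw [hN, Nat.cast_prod]
    refine Finset.prod_ne_zero_iff.2 fun v _ => ?_
    rw [Nat.cast_pow]
    exact pow_ne_zero _ (IN1_p v).1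
  have hle1 : ∀ (v : Pl F) (a : ℕ), v.valuation F (a : F) ≤ 1 := by
    intro v a
    have := v.valuation_le_one (K := F) (a : 𝓞 F)
    simpa using this
  have hint : ∀ (k : ℕ) (i : Fin 2 × Fin A.n × Fin A.n), ∃ z : 𝓞 F,
      algebraMap (𝓞 F) F z = (N : F) * (γ.1.1 ^ k).co i := by
    intro k i
    refine HeightOneSpectrum.mem_integers_of_valuation_le_one F _ fun v => ?_
    rw [map_mul]
    by_cases hv : v ∈ T
    · have h1 : v.valuation F (N : F) ≤ WithZero.exp (-(m v : ℤ)) := by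
        rw [hN, ← Finset.mul_prod_erase T _ hv, Nat.cast_mul, Nat.cast_pow, map_mul, map_pow]
        refine (mul_le_mul' (pow_le_pow_left₀ zero_le (IN1_p v).2 (m v)) (hle1 v _)).trans
          (le_of_eq ?_)
        rw [mul_one, ← WithZero.exp_nsmul]
        congr 1
        simp
      refine (mul_le_mul' h1 (hm v k i)).trans (le_of_eq ?_)
      rw [← WithZero.exp_add, neg_add_cancel, WithZero.exp_zero]
    · rw [hT, Set.Finite.mem_toFinset] at hv
      simp only [Set.mem_ofPred_eq, not_not] at hv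
      exact (mul_le_mul' (hle1 v N) (hv k i)).trans_eq (one_mul 1)
  choose c hc using hint
  -- the ascending chain
  let S : ℕ →o Submodule (𝓞 F) (Fin 2 × Fin A.n × Fin A.n → 𝓞 F) :=
    { toFun := fun k => Submodule.span (𝓞 F) (Set.range fun j : Fin k => c j)
      monotone' := by
        intro k l hkl
        refine Submodule.span_mono ?_
        rintro _ ⟨j, rfl⟩
        exact ⟨⟨j.1, lt_of_lt_of_le j.2 hkl⟩, rfl⟩ }
  obtain ⟨k, hk⟩ := (monotone_stabilizes_iff_noetherian (R := 𝓞 F)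
    (M := Fin 2 × Fin A.n × Fin A.n → 𝓞 F)).2 inferInstance S
  have hmem : c k ∈ Submodule.span (𝓞 F) (Set.range fun j : Fin k => c j) := by
    have h1 := hk (k + 1) (Nat.le_succ k)
    have h2 : c k ∈ S (k + 1) := Submodule.subset_span ⟨⟨k, Nat.lt_succ_self k⟩, rfl⟩
    rw [← h1] at h2
    exact h2
  obtain ⟨a, ha⟩ := (Submodule.mem_span_range_iff_exists_fun (𝓞 F)).1 hmem
  refine ⟨X ^ k - ∑ j : Fin k, C (a j) * X ^ (j : ℕ), ?_, ?_⟩
  · exact monic_X_pow_sub (degree_sum_fin_lt a)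
  · rw [Polynomial.map_sub, Polynomial.map_pow, map_X, map_sub, map_pow, aeval_X,
      Polynomial.map_sum, map_sum]
    apply SC.Alg.ext
    intro i
    have h1 : ∀ j : Fin k, (aeval γ.1.1) (Polynomial.map (algebraMap (𝓞 F) F) (C (a j) * X ^ (j : ℕ))) =
        (algebraMap (𝓞 F) F (a j)) • γ.1.1 ^ (j : ℕ) := by
      intro j
      rw [Polynomial.map_mul, Polynomial.map_pow, map_C, map_X, map_mul, map_pow, aeval_X, aeval_C,
        Algebra.smul_def]
    simp only [h1]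
    rw [SC.Alg.co_sub, SC.Alg.co_zero]
    have h2 : (∑ j : Fin k, (algebraMap (𝓞 F) F (a j)) • γ.1.1 ^ (j : ℕ) : BF A).co i =
        ∑ j : Fin k, algebraMap (𝓞 F) F (a j) * (γ.1.1 ^ (j : ℕ)).co i := by
      let co' : BF A →+ F :=
        { toFun := fun x => x.co i
          map_zero' := rfl
          map_add' := fun _ _ => rfl }
      exact map_sum co' (fun j : Fin k => (algebraMap (𝓞 F) F (a j)) • γ.1.1 ^ (j : ℕ)) Finset.univ
    rw [h2]
    apply mul_left_cancel₀ hN0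
    rw [mul_zero, mul_sub, ← hc, Finset.mul_sum]
    have h3 : ∀ j : Fin k, (N : F) * (algebraMap (𝓞 F) F (a j) * (γ.1.1 ^ (j : ℕ)).co i) =
        algebraMap (𝓞 F) F (a j * c j i) := by
      intro j
      rw [map_mul, hc]
      ring
    simp only [h3]
    rw [← map_sum, ← map_sub]
    have h4 := congrFun ha i
    rw [Finset.sum_apply] at h4
    have h5 : ∑ j : Fin k, a j * c j i = c k i := h4
    rw [h5, sub_self, map_zero]

/-- **IN6.** The elements of the stabilisers which are in `M` are units of `𝓞 M`.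
PROOF. Port of `CGN.exists_unit_of_stab`: IN5 for `γ` and `γ⁻¹`, `ι` is injective. -/
theorem exists_unit_of_stabU {Kf : Subgroup (sysU A).A} (hK : OC Kf) (y : (sysU A).Pt)
    (γ : UF A) (hγ : (show (sysU A).G from γ) ∈ Stab Kf y) (ι : M →ₐ[F] BF A)
    (hι : Function.Injective ι) {z : M} (hz : ι z = γ.1.1) :
    ∃ u : (𝓞 M)ˣ, ((u : 𝓞 M) : M) = z ∧ uU ι ((u : 𝓞 M) : M) = γ := by
  have hint : ∀ (δ : UF A) (η : M), (show (sysU A).G from δ) ∈ Stab Kf y → ι η = δ.1.1 →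
      IsIntegral ℤ η := by
    intro δ η hδ hη
    obtain ⟨f, hf, h0⟩ := stab_integralU hK y δ hδ
    have h1 : aeval η (f.map (algebraMap (𝓞 F) F)) = 0 := by
      apply hι
      rw [← aeval_algHom_apply, hη, h0, map_zero]
    have h2 : IsIntegral (𝓞 F) η := by
      refine ⟨f, hf, ?_⟩
      rw [aeval_map_algebraMap] at h1
      exact h1
    exact isIntegral_trans (R := ℤ) (A := 𝓞 F) η h2
  have hz0 : z ≠ 0 := by
    rintro rfl
    rw [map_zero] at hz
    have h1 : (1 : BF A) = 0 := by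
      rw [← Units.mul_inv γ.1, ← hz, zero_mul]
    apply one_ne_zero (α := M)
    apply hι
    rw [map_one, map_zero, h1]
  have hz' : ι z⁻¹ = (γ⁻¹ : UF A).1.1 := by
    have h1 : ι z⁻¹ * γ.1.1 = 1 := by
      rw [← hz, ← map_mul, inv_mul_cancel₀ hz0, map_one]
    exact (Units.inv_eq_of_mul_eq_one_left h1).symm
  let a : 𝓞 M := ⟨z, hint γ z hγ hz⟩
  let b : 𝓞 M := ⟨z⁻¹, hint γ⁻¹ z⁻¹ (inv_mem hγ) hz'⟩
  have hab : a * b = 1 := by
    apply RingOfIntegers.ext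
    exact mul_inv_cancel₀ hz0
  have hba : b * a = 1 := by rw [mul_comm, hab]
  refine ⟨⟨a, b, hab, hba⟩, rfl, ?_⟩
  have hs : star γ.1.1 * γ.1.1 = 1 := γ.2
  have hs' : γ.1.1 * star γ.1.1 = 1 := by
    rw [star_eq_inv γ.2, Units.mul_inv]
  apply Subtype.ext
  apply Units.ext
  change (mkU (ι z)).1.1 = γ.1.1
  rw [hz, mkU_val hs hs']

end Pool.Agent.CGU
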