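import Pool.Agent.CGU.EDf
import Pool.Agent.CGN.EUb

/-!
# Part E': counting the infinite places
-/

noncomputable section

set_option linter.unusedSectionVars false

namespace Pool.Agent.CGU

open NumberField IsDedekindDomain Matrix Polynomial
open Pool.Agent.CGQ
open Pool.Agent.CGN (Abv card_ext le_card_complex half_le_card le_card_real)

variable {F : Type} [Field F] [NumberField F] {K : Type} [Field K] [NumberField K] [Algebra F K]

/-- **IP1.** The conjugation moves the places above the complex places.
PROOF. `w₁ = mk ψ` with `ψ = w₁.embedding`; `w₁.comap c = mk (ψ.comp c)` (`InfinitePlace.comap_mk`). If they are equal, then (`InfinitePlace.mk_eq_iff`) `ψ ∘ c = ψ`, which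
contradicts `hc` (`ψ` injective), or `ψ ∘ c = conjugate ψ` (up to the order), so on `F`: `ψ = conjugate ψ`, `ψ` restricted to `F` is real, but this restriction
is an embedding of the complex place `w₁.comap (algebraMap F K)`. -/
theorem comap_ne_complex {c : K ≃ₐ[F] K} (hc : ∃ a, c a ≠ a) {w₁ : InfinitePlace K}
    (hw : (w₁.comap (algebraMap F K)).IsComplex) : w₁.comap (c : K →+* K) ≠ w₁ := by
  intro h
  have h1 : w₁.comap (c : K →+* K) = InfinitePlace.mk (w₁.embedding.comp (c : K →+* K)) := by
    conv_lhs => rw [← InfinitePlace.mk_embedding w₁]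
    rw [InfinitePlace.comap_mk]
  have h2 : InfinitePlace.mk (w₁.embedding.comp (c : K →+* K)) =
      InfinitePlace.mk w₁.embedding := by
    rw [← h1, h, InfinitePlace.mk_embedding]
  rcases InfinitePlace.mk_eq_iff.1 h2 with h3 | h3
  · obtain ⟨a, ha⟩ := hc
    apply ha
    exact w₁.embedding.injective (RingHom.congr_fun h3 a)
  · have h4 : w₁.comap (algebraMap F K) =
        InfinitePlace.mk (w₁.embedding.comp (algebraMap F K)) := by
      conv_lhs => rw [← InfinitePlace.mk_embedding w₁]
      rw [InfinitePlace.comap_mk]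
    rw [h4, InfinitePlace.isComplex_mk_iff, ComplexEmbedding.isReal_iff] at hw
    apply hw
    ext x
    have h5 := RingHom.congr_fun h3 (algebraMap F K x)
    have h6 : (c : K →+* K) (algebraMap F K x) = algebraMap F K x := c.commutes x
    rw [ComplexEmbedding.conjugate_coe_eq, RingHom.comp_apply, h6] at h5
    rw [ComplexEmbedding.conjugate_coe_eq, RingHom.comp_apply]
    exact h5

/-- **IP2.** The conjugation moves the real places.
PROOF. `mk (ofReal ∘ f ∘ c) = mk (ofReal ∘ f)` implies `f ∘ c = f` (the conjugate of a real embedding is the embedding). -/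
theorem comap_ne_real {c : K ≃ₐ[F] K} (hc : ∃ a, c a ≠ a) (f : K →+* ℝ) :
    (InfinitePlace.mk (Complex.ofRealHom.comp f)).comap (c : K →+* K) ≠
      InfinitePlace.mk (Complex.ofRealHom.comp f) := by
  intro h
  rw [InfinitePlace.comap_mk] at h
  obtain ⟨a, ha⟩ := hc
  apply ha
  have h2 : (Complex.ofRealHom.comp f).comp (c : K →+* K) = Complex.ofRealHom.comp f := by
    rcases InfinitePlace.mk_eq_iff.1 h with h3 | h3
    · exact h3
    · refine Eq.trans ?_ h3
      ext x
      simp
  exact (Complex.ofRealHom.comp f).injective (RingHom.congr_fun h2 a)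

/-- The infinite places of `F` which split in `K`. -/
def SI (F K : Type) [Field F] [Field K] [Algebra F K] : Type :=
  {w : InfinitePlace F // w.IsComplex ∨ ∃ h : w.IsReal, ∃ f : K →+* ℝ,
    f.comp (algebraMap F K) = InfinitePlace.embedding_of_isReal h}

instance : Finite (SI F K) := Subtype.finite

/-- **IP3.** Their number. PROOF. A place is either real or complex (`InfinitePlace.isReal_or_isComplex`, `not_isReal_iff_isComplex`); the number of the
complex ones is `nrComplexPlaces F`, the number of the others `rsp F K` (`Nat.card` of a disjoint union). -/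
theorem card_SI : Nat.card (SI F K) = rsp F K + InfinitePlace.nrComplexPlaces F := by
  classical
  obtain ⟨P, hP⟩ : ∃ P : InfinitePlace F → Prop, P = fun w => w.IsComplex := ⟨_, rfl⟩
  obtain ⟨Q, hQ⟩ : ∃ Q : InfinitePlace F → Prop, Q = fun w => ∃ h : w.IsReal, ∃ f : K →+* ℝ,
    f.comp (algebraMap F K) = InfinitePlace.embedding_of_isReal h := ⟨_, rfl⟩
  have e1 : Nat.card (SI F K) = (Finset.univ.filter fun w => P w ∨ Q w).card := by
    rw [← Fintype.card_subtype, ← Nat.card_eq_fintype_card, hP, hQ]
    rfl
  have e2 : rsp F K = (Finset.univ.filter Q).card := by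
    rw [← Fintype.card_subtype, ← Nat.card_eq_fintype_card, hQ]
    rfl
  have e3 : InfinitePlace.nrComplexPlaces F = (Finset.univ.filter P).card := by
    rw [InfinitePlace.nrComplexPlaces, ← Fintype.card_subtype, hP]
  have hd : Disjoint (Finset.univ.filter P) (Finset.univ.filter Q) := by
    rw [Finset.disjoint_filter]
    intro w _ h1 h2
    rw [hP] at h1
    rw [hQ] at h2
    obtain ⟨hr, -⟩ := h2
    exact InfinitePlace.not_isReal_iff_isComplex.2 h1 hr
  rw [e1, e2, e3, Finset.filter_or, Finset.card_union_of_disjoint hd, add_comm]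

variable {M : Type} [Field M] [NumberField M] [Algebra K M] {A : UD F}

/-- **IP4.** A place `s w` of `K` above every `w : SI F K`, not fixed by the conjugation, with enough places of `M` above it.
PROOF. For `w` complex: any place above `w` (`InfinitePlace.comap_surjective` or an extension of the embedding), IP1, `le_card_complex` (for `K`, `M`:
the place above `w` is complex). For `w` real in `SPl A` (the third case below) take `f` of `hsc` and `s w = mk (ofReal ∘ f)`: IP2, `le_card_real` (with `F := K`, `e := f`).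
For the other real `w`: `f` from the definition, IP2, `half_le_card`. `(mk (ofReal ∘ f)).comap (algebraMap F K) = mk (ofReal ∘ emb) = w` (`SPl.emb_mk`, and the same argument for
the others). -/
theorem exists_sec (hn : 1 ≤ A.n) (hM : Module.finrank K M = A.n) {c : K ≃ₐ[F] K}
    (hc : ∃ a, c a ≠ a)
    (hsc : ∀ w : SPl A, ∃ f : K →+* ℝ, f.comp (algebraMap F K) = w.emb ∧
      ∃ σ : Fin A.n → (M →+* ℝ), Function.Injective σ ∧ ∀ i, (σ i).comp (algebraMap K M) = f) :
    ∃ s : SI F K → InfinitePlace K, ∀ w : SI F K, (s w).comap (algebraMap F K) = w.1 ∧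
      (s w).comap (c : K →+* K) ≠ s w ∧ (1 + (A.n / 2 - 1) ≤ Nat.card (Abv M (s w))) ∧
      (w.1.IsComplex → A.n ≤ Nat.card (Abv M (s w))) ∧
      ∀ w' : SPl A, w'.1 = w.1 → A.n ≤ Nat.card (Abv M (s w)) := by
  have hpt : ∀ w : SI F K, ∃ v : InfinitePlace K, v.comap (algebraMap F K) = w.1 ∧
      v.comap (c : K →+* K) ≠ v ∧ (1 + (A.n / 2 - 1) ≤ Nat.card (Abv M v)) ∧
      (w.1.IsComplex → A.n ≤ Nat.card (Abv M v)) ∧
      ∀ w' : SPl A, w'.1 = w.1 → A.n ≤ Nat.card (Abv M v) := by
    intro w
    by_cases hw : w.1.IsComplex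
    · obtain ⟨v, hv⟩ := InfinitePlace.comap_surjective (k := F) (K := K) w.1
      have hv : v.comap (algebraMap F K) = w.1 := hv
      have hvc : v.IsComplex := by
        rw [← InfinitePlace.not_isReal_iff_isComplex]
        intro h
        have h2 := InfinitePlace.IsReal.comap (algebraMap F K) h
        rw [hv] at h2
        exact InfinitePlace.not_isReal_iff_isComplex.2 hw h2
      have h1 := le_card_complex (F := K) (L := M) hvc
      rw [hM] at h1
      refine ⟨v, hv, comap_ne_complex hc (by rw [hv]; exact hw), by omega, fun _ => h1,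
        fun _ _ => h1⟩
    · have hr : ∃ h : w.1.IsReal, ∃ f : K →+* ℝ,
          f.comp (algebraMap F K) = InfinitePlace.embedding_of_isReal h := by
        rcases w.2 with h | h
        · exact absurd h hw
        · exact h
      by_cases hs : ∃ w' : SPl A, w'.1 = w.1
      · obtain ⟨w', hw'⟩ := hs
        obtain ⟨f, hf, σ, hσ, hσf⟩ := hsc w'
        have hv : (InfinitePlace.mk (Complex.ofRealHom.comp f)).comap (algebraMap F K) =
            w.1 := by
          rw [InfinitePlace.comap_mk, RingHom.comp_assoc, hf, SPl.emb_mk, hw']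
        have h1 := le_card_real (F := K) (L := M)
          (w₀ := InfinitePlace.mk (Complex.ofRealHom.comp f)) rfl hσ hσf
        exact ⟨_, hv, comap_ne_real hc f, by omega, fun _ => h1, fun _ _ => h1⟩
      · obtain ⟨h, f, hf⟩ := hr
        have hv : (InfinitePlace.mk (Complex.ofRealHom.comp f)).comap (algebraMap F K) =
            w.1 := by
          rw [InfinitePlace.comap_mk, RingHom.comp_assoc, hf]
          apply InfinitePlace.ext
          intro x
          rw [InfinitePlace.apply]
          have h2 := InfinitePlace.embedding_of_isReal_apply h x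
          have h3 : (Complex.ofRealHom.comp (InfinitePlace.embedding_of_isReal h)) x =
              w.1.embedding x := h2
          rw [h3, InfinitePlace.norm_embedding_eq]
        have h1 := half_le_card (L := M) (InfinitePlace.mk (Complex.ofRealHom.comp f))
        rw [hM] at h1
        exact ⟨_, hv, comap_ne_real hc f, by omega, fun h' => absurd h' hw,
          fun w' hw' => absurd ⟨w', hw'⟩ hs⟩
  choose s hs using hpt
  exact ⟨s, hs⟩

private theorem IP5_sum (hn : 1 ≤ A.n)
    (hsc : ∀ w : SPl A, ∃ f : K →+* ℝ, f.comp (algebraMap F K) = w.emb) (g : SI F K → ℕ)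
    (hg : ∀ w : SI F K, (1 + (A.n / 2 - 1) ≤ g w) ∧ (w.1.IsComplex → A.n ≤ g w) ∧
      ∀ w' : SPl A, w'.1 = w.1 → A.n ≤ g w) [Fintype (SI F K)] :
    Nat.card (SI F K) + A.rk K ≤ ∑ w : SI F K, g w := by
  classical
  obtain ⟨P, hP⟩ : ∃ P : SI F K → Prop, P = fun w => w.1.IsComplex := ⟨_, rfl⟩
  obtain ⟨Q, hQ⟩ : ∃ Q : SI F K → Prop, Q = fun w => ∃ w' : SPl A, w'.1 = w.1 := ⟨_, rfl⟩
  have hPi : ∀ w, P w ↔ w.1.IsComplex := fun w => by rw [hP]
  have hQi : ∀ w, Q w ↔ ∃ w' : SPl A, w'.1 = w.1 := fun w => by rw [hQ]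
  have hPQ : ∀ w, Q w → ¬ P w := by
    intro w h1 h2
    rw [hQi] at h1
    rw [hPi] at h2
    obtain ⟨w', hw'⟩ := h1
    have h3 : w'.1.IsReal := w'.2.choose
    rw [hw'] at h3
    exact InfinitePlace.not_isReal_iff_isComplex.2 h2 h3
  have hle : ∀ w : SI F K, 1 + ((if P w then A.n - 1 else 0) + (if Q w then A.n - 1 else 0) +
      (if ¬ P w ∧ ¬ Q w then A.n / 2 - 1 else 0)) ≤ g w := by
    intro w
    obtain ⟨h1, h2, h3⟩ := hg w
    by_cases hp : P w
    · have hq : ¬ Q w := fun h => hPQ w h hp
      rw [if_pos hp, if_neg hq, if_neg (fun h => h.1 hp)]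
      rw [hP] at hp
      have := h2 hp
      omega
    · by_cases hq : Q w
      · rw [if_neg hp, if_pos hq, if_neg (fun h => h.2 hq)]
        rw [hQ] at hq
        obtain ⟨w', hw'⟩ := hq
        have := h3 w' hw'
        omega
      · rw [if_neg hp, if_neg hq, if_pos ⟨hp, hq⟩]
        omega
  refine le_trans ?_ (Finset.sum_le_sum fun w _ => hle w)
  have e2 : ∀ (R : SI F K → Prop) [DecidablePred R] (m : ℕ),
      ∑ w, (if R w then m else 0) = (Finset.univ.filter R).card * m := by
    intro R _ m
    rw [← Finset.sum_filter, Finset.sum_const, smul_eq_mul]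
  rw [Finset.sum_add_distrib, Finset.sum_add_distrib, Finset.sum_add_distrib, e2, e2, e2]
  have hcs : ∑ _w : SI F K, 1 = Nat.card (SI F K) := by
    rw [Finset.sum_const, smul_eq_mul, mul_one, Nat.card_eq_fintype_card, Finset.card_univ]
  rw [hcs]
  have hPc : (Finset.univ.filter P).card = InfinitePlace.nrComplexPlaces F := by
    rw [← Fintype.card_subtype, InfinitePlace.nrComplexPlaces]
    refine Fintype.card_congr
      { toFun := fun w => ⟨w.1.1, (hPi w.1).1 w.2⟩
        invFun := fun w => ⟨⟨w.1, Or.inl w.2⟩, (hPi _).2 w.2⟩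
        left_inv := fun w => rfl
        right_inv := fun w => rfl }
  have hQc : (Finset.univ.filter Q).card = A.sp := by
    rw [← Fintype.card_subtype, ← Nat.card_eq_fintype_card, UD.sp]
    refine Nat.card_congr (Equiv.ofBijective
      (fun w : {w : SI F K // Q w} => (⟨w.1.1, by
        obtain ⟨w', hw'⟩ := (hQi w.1).1 w.2
        have h2 := w'.2
        rw [hw'] at h2
        exact h2⟩ : SPl A)) ⟨?_, ?_⟩)
    · intro w w' h
      have h2 : w.1.1 = w'.1.1 := congrArg (fun z : SPl A => z.1) h
      exact Subtype.ext (Subtype.ext h2)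
    · intro w'
      obtain ⟨f, hf⟩ := hsc w'
      refine ⟨⟨⟨w'.1, Or.inr ⟨w'.2.choose, f, hf⟩⟩, (hQi _).2 ⟨w', rfl⟩⟩, rfl⟩
  have htot : (Finset.univ.filter P).card + (Finset.univ.filter Q).card +
      (Finset.univ.filter fun w => ¬ P w ∧ ¬ Q w).card = Nat.card (SI F K) := by
    have h1 : Finset.univ.filter (fun w : SI F K => ¬ (P w ∨ Q w)) =
        Finset.univ.filter (fun w : SI F K => ¬ P w ∧ ¬ Q w) := by
      apply Finset.filter_congr
      intro w _
      rw [not_or]
    have hd : Disjoint (Finset.univ.filter P) (Finset.univ.filter Q) := by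
      rw [Finset.disjoint_filter]
      intro w _ h1 h2
      exact hPQ w h2 h1
    rw [← h1, ← Finset.card_union_of_disjoint hd, ← Finset.filter_or,
      Finset.card_filter_add_card_filter_not, Nat.card_eq_fintype_card, Finset.card_univ]
  rw [card_SI] at htot
  have hrest : (Finset.univ.filter fun w => ¬ P w ∧ ¬ Q w).card = rsp F K - A.sp := by omega
  rw [hrest, hPc, hQc, UD.rk]
  apply le_of_eq
  ring

/-- **IP5.** The set `X` and the count.
PROOF. `X = Set.range s` for `s` of IP4. `s` is injective (`comap (algebraMap F K)`). If `s w` and `(s w).comap c = s w'` are in `X`, restriction to `F` gives `w = w'` (`c` is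
`F`-linear: `(s w).comap c` restricts to `w`), contradiction to IP4. `Nat.card X = Nat.card (SI F K) = rsp + r₂`. The set of the `V` with restriction in `X` is the disjoint union of the `Abv M (s w)`:
its number is `∑ w, Nat.card (Abv M (s w))` (`Nat.card_sigma`, `Equiv.sigmaFiberEquiv`), and this is at least
`∑ w, (1 + extra w)`, `extra = n - 1` for `w` complex or in `SPl A` and `n / 2 - 1` for the other `rsp - sp` (every `w ∈ SPl A` is in
`SI F K` and real by `hsc`, `A.sp ≤ rsp`): `= rsp + r₂ + (n - 1) (sp + r₂) + (n / 2 - 1) (rsp - sp)`. Compare `CGN.card_places`. -/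
theorem exists_X (hn : 1 ≤ A.n) (hM : Module.finrank K M = A.n) {c : K ≃ₐ[F] K}
    (hc : ∃ a, c a ≠ a)
    (hsc : ∀ w : SPl A, ∃ f : K →+* ℝ, f.comp (algebraMap F K) = w.emb ∧
      ∃ σ : Fin A.n → (M →+* ℝ), Function.Injective σ ∧ ∀ i, (σ i).comp (algebraMap K M) = f) :
    ∃ X : Set (InfinitePlace K), (∀ w ∈ X, w.comap (c : K →+* K) ∉ X) ∧
      Nat.card X + A.rk K ≤ Nat.card {V : InfinitePlace M // V.comap (algebraMap K M) ∈ X} := by
  classical
  obtain ⟨s, hs⟩ := exists_sec hn hM hc hsc
  have hinj : Function.Injective s := by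
    intro w w' h
    apply Subtype.ext
    rw [← (hs w).1, ← (hs w').1, h]
  refine ⟨Set.range s, ?_, ?_⟩
  · rintro _ ⟨w, rfl⟩ ⟨w', hw'⟩
    have h1 : ((s w).comap (c : K →+* K)).comap (algebraMap F K) =
        (s w).comap (algebraMap F K) := by
      rw [← InfinitePlace.comap_comp]
      congr 1
      ext x
      exact c.commutes x
    have h2 : w' = w := by
      apply Subtype.ext
      rw [← (hs w).1, ← (hs w').1, hw', h1]
    rw [h2] at hw'
    exact (hs w).2.1 hw'.symm
  · have := Fintype.ofFinite (SI F K)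
    have h1 : Nat.card (Set.range s) = Nat.card (SI F K) :=
      Nat.card_congr (Equiv.ofInjective s hinj).symm
    have h2 := IP5_sum (A := A) (K := K) hn (fun w => by
      obtain ⟨f, hf, -⟩ := hsc w
      exact ⟨f, hf⟩) (fun w => Nat.card (Abv M (s w))) (fun w => (hs w).2.2)
    rw [h1]
    refine le_trans h2 ?_
    rw [← Nat.card_sigma]
    refine Nat.card_le_card_of_injective
      (fun p : (Σ w : SI F K, Abv M (s w)) =>
        (⟨p.2.1, ⟨p.1, p.2.2.symm⟩⟩ :
          {V : InfinitePlace M // V.comap (algebraMap K M) ∈ Set.range s})) ?_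
    rintro ⟨w, V, hV⟩ ⟨w', V', hV'⟩ h
    have h3 : V = V' := congrArg Subtype.val h
    subst h3
    have h4 : w = w' := hinj (by rw [← hV, ← hV'])
    subst h4
    rfl

end Pool.Agent.CGU
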