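import Pool.Agent.CGU.EDf
import Pool.Agent.CGN.EGa
import Pool.Agent.CGN.EFa

/-!
# Part E': from the place `v` of `F` to the place of `K` given by an embedding of `K` in `F_v`
-/

noncomputable section

set_option linter.unusedSectionVars false

namespace Pool.Agent.CGU

open NumberField IsDedekindDomain Matrix Polynomial
open Pool.Agent.CG2 (Pl Fv Ov GalF Fbar Zbar Over IsInertia IsFrob Nm)
open Pool.Agent.CG2.GalFinAux (below)
open Pool.Agent.CGQ
open Pool.Agent.CGN (SC Split abv ActsAs oF Cl T2p T2 T3p T3 RR val_oF val_F exists_twist)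

variable {F : Type} [Field F] [NumberField F] {K : Type} [Field K] [NumberField K] [Algebra F K]

private theorem LO1_le {v : Pl F} (i : K →+* Fv v) (a : 𝓞 K) : Valued.v (i (a : K)) ≤ 1 := by
  obtain ⟨f, hf, hf0⟩ : IsIntegral ℤ (a : K) := a.2
  have h2 : IsIntegral (Valued.v (R := Fv v)).integer (i (a : K)) := by
    refine ⟨f.map (Int.castRingHom _), hf.map _, ?_⟩
    rw [eval₂_map]
    have h3 : (algebraMap (Valued.v (R := Fv v)).integer (Fv v)).comp (Int.castRingHom _) =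
        i.comp (algebraMap ℤ K) := Subsingleton.elim _ _
    rw [h3, ← hom_eval₂, hf0, map_zero]
  exact (Valuation.integer.integers (Valued.v (R := Fv v))).mem_of_integral h2

/-- **LO1.** The place of `K` given by an embedding.
PROOF. For `a : 𝓞 K` the element `i a` is integral over `ℤ`, so `Valued.v (i a) ≤ 1` (`Ov v` is integrally closed; or: if `Valued.v x > 1` and
`x ^ m = ∑_{k < m} c k x ^ k` with integers `c k` then the valuations give a contradiction).
`w.asIdeal` = the ideal of the `a` with `Valued.v (i a) < 1`: prime (`1` is not in it), and not zero because it contains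
the image of `v.asIdeal`. -/
theorem exists_placeK {v : Pl F} {i : K →+* Fv v}
    (hi : ∀ a : F, i (algebraMap F K a) = algebraMap F (Fv v) a) :
    ∃ w : Pl K, ∀ a : 𝓞 K, a ∈ w.asIdeal ↔ Valued.v (i (a : K)) < 1 := by
  have hadd : ∀ {x y : Fv v}, Valued.v x < 1 → Valued.v y < 1 → Valued.v (x + y) < 1 := by
    intro x y hx hy
    exact lt_of_le_of_lt (Valuation.map_add _ _ _) (max_lt hx hy)
  let I : Ideal (𝓞 K) :=
    { carrier := {a | Valued.v (i (a : K)) < 1}
      add_mem' := by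
        intro a b ha hb
        change Valued.v (i ((a + b : 𝓞 K) : K)) < 1
        have h : ((a + b : 𝓞 K) : K) = (a : K) + (b : K) := rfl
        rw [h, map_add]
        exact hadd ha hb
      zero_mem' := by
        change Valued.v (i ((0 : 𝓞 K) : K)) < 1
        have h : ((0 : 𝓞 K) : K) = 0 := rfl
        rw [h, map_zero, map_zero]
        exact zero_lt_one
      smul_mem' := by
        intro c a ha
        change Valued.v (i ((c * a : 𝓞 K) : K)) < 1
        have h : ((c * a : 𝓞 K) : K) = (c : K) * (a : K) := rfl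
        rw [h, map_mul, map_mul]
        exact mul_lt_of_le_one_of_lt (LO1_le i c) ha }
  have hI : ∀ a : 𝓞 K, a ∈ I ↔ Valued.v (i (a : K)) < 1 := fun a => Iff.rfl
  have hprime : I.IsPrime := by
    constructor
    · intro h
      have h1 : (1 : 𝓞 K) ∈ I := by rw [h]; trivial
      rw [hI] at h1
      have h2 : ((1 : 𝓞 K) : K) = 1 := rfl
      rw [h2, map_one, map_one] at h1
      exact lt_irrefl _ h1
    · intro a b hab
      rw [hI] at hab ⊢
      rw [hI]
      by_contra hcon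
      rw [not_or, not_lt, not_lt] at hcon
      have h : ((a * b : 𝓞 K) : K) = (a : K) * (b : K) := rfl
      rw [h, map_mul, map_mul] at hab
      have h3 : Valued.v (i (a : K)) = 1 := le_antisymm (LO1_le i a) hcon.1
      have h4 : Valued.v (i (b : K)) = 1 := le_antisymm (LO1_le i b) hcon.2
      rw [h3, h4, one_mul] at hab
      exact lt_irrefl _ hab
  have hne : I ≠ ⊥ := by
    obtain ⟨x, hx, hx0⟩ := Submodule.exists_mem_ne_zero_of_ne_bot v.ne_bot
    intro h
    have h1 : algebraMap (𝓞 F) (𝓞 K) x ∈ I := by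
      rw [hI]
      have h2 : ((algebraMap (𝓞 F) (𝓞 K) x : 𝓞 K) : K) = algebraMap F K (x : F) := rfl
      rw [h2, hi]
      have h3 := val_oF v x
      rw [show algebraMap F (Fv v) (x : F) = oF v x from rfl, h3]
      exact (v.valuation_lt_one_iff_mem (K := F) x).2 hx
    rw [h, Submodule.mem_bot] at h1
    exact hx0 ((FaithfulSMul.algebraMap_injective (𝓞 F) (𝓞 K)) (by rw [h1, map_zero]))
  exact ⟨⟨I, hprime, hne⟩, hI⟩

/-- **LO1 (2).** Integers of `K` are integral at `v`. -/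
theorem val_i_le {v : Pl F} (i : K →+* Fv v) (a : 𝓞 K) : Valued.v (i (a : K)) ≤ 1 := by
  exact LO1_le i a

variable {v : Pl F} {i : K →+* Fv v} (hi : ∀ a : F, i (algebraMap F K a) = algebraMap F (Fv v) a)
  {w : Pl K} (hw : ∀ a : 𝓞 K, a ∈ w.asIdeal ↔ Valued.v (i (a : K)) < 1)

include hi hw

omit hi in
private theorem LO2_key {x : K} (hx : w.valuation K x ≤ 1) :
    ∃ (a d : 𝓞 K), d ∉ w.asIdeal ∧ x * (d : K) = (a : K) ∧ Valued.v (i (d : K)) = 1 ∧
      Valued.v (i x) = Valued.v (i (a : K)) := by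
  obtain ⟨a, d, had⟩ := w.exists_primeCompl_mul_eq_of_integer x hx
  have hd : (d : 𝓞 K) ∉ w.asIdeal := d.2
  have h1 : Valued.v (i ((d : 𝓞 K) : K)) = 1 := by
    refine le_antisymm (val_i_le i _) ?_
    rw [← not_lt, ← hw]
    exact hd
  refine ⟨a, d, hd, had, h1, ?_⟩
  have h2 : x * ((d : 𝓞 K) : K) = (a : K) := had
  rw [← h2, map_mul, map_mul, h1, mul_one]

omit hi in
private theorem LO2_one {x : K} (hx : w.valuation K x = 1) : Valued.v (i x) = 1 := by
  obtain ⟨a, d, hd, had, h1, h2⟩ := LO2_key hw hx.le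
  rw [h2]
  refine le_antisymm (val_i_le i _) ?_
  rw [← not_lt, ← hw]
  have h3 : w.valuation K (d : K) = 1 := w.valuation_eq_one_iff_notMem.2 hd
  have h4 : w.valuation K (a : K) = 1 := by rw [← had, map_mul, hx, h3, one_mul]
  exact w.valuation_eq_one_iff_notMem.1 h4

omit hi in
private theorem LO2_lt {x : K} (hx : w.valuation K x < 1) : Valued.v (i x) < 1 := by
  obtain ⟨a, d, hd, had, h1, h2⟩ := LO2_key hw hx.le
  rw [h2, ← hw, ← w.valuation_lt_one_iff_mem (K := K)]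
  have h3 : w.valuation K (d : K) = 1 := w.valuation_eq_one_iff_notMem.2 hd
  have h4 : w.valuation K (a : K) = w.valuation K x := by rw [← had, map_mul, h3, mul_one]
  exact lt_of_eq_of_lt h4 hx

/-- **LO2.** The place of `K` is not ramified: the valuations agree.
PROOF. If `w.valuation K x = 1` then `x = a / b` with `a`, `b ∈ 𝓞 K` not in `w.asIdeal` (`HeightOneSpectrum.exists_primeCompl_mul_eq_of_integer`), so `Valued.v (i a) = Valued.v (i b) = 1`
(`val_i_le`, `hw`), `Valued.v (i x) = 1`. Let `ϖ : K` with `w.valuation K ϖ = exp (-1)` (`HeightOneSpectrum.valuation_exists_uniformizer`)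
and `c = Valued.v (i ϖ)`; for `x ≠ 0` with `w.valuation K x = exp (-k)`, `x / ϖ ^ k` has valuation `1`, so `Valued.v (i x) = c ^ k` (`k : ℤ`).
`c < 1` (`ϖ = a / b`, `b ∉ w`, `a ∈ w`), so `c ≤ exp (-1)` (and `c ≠ 0`). Take `x = π ∈ F` with `v.valuation F π = exp (-1)`:
`exp (-1) = Valued.v (i π) = c ^ k` with `k ≥ 1` (as `Valued.v (i π) < 1`), so `c = exp (-1)` (if `c = exp (-j)`, `j ≥ 1`: `j k = 1`). -/
theorem val_i (x : K) : Valued.v (i x) = w.valuation K x := by
  obtain ⟨ϖ, hϖ⟩ := w.valuation_exists_uniformizer K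
  have hϖ0 : ϖ ≠ 0 := by
    intro h
    rw [h, map_zero] at hϖ
    exact WithZero.exp_ne_zero hϖ.symm
  have hiinj : Function.Injective i := i.injective
  have hc0 : Valued.v (i ϖ) ≠ 0 := by
    rw [Valuation.ne_zero_iff]
    exact fun h => hϖ0 (hiinj (by rw [h, map_zero]))
  have hc1 : Valued.v (i ϖ) < 1 := by
    refine LO2_lt hw ?_
    rw [hϖ, ← WithZero.exp_zero, WithZero.exp_lt_exp]
    norm_num
  have hgen : ∀ x : K, x ≠ 0 → Valued.v (i x) = Valued.v (i ϖ) ^ (-WithZero.log (w.valuation K x)) := by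
    intro x hx
    have hx0 : w.valuation K x ≠ 0 := (Valuation.ne_zero_iff _).2 hx
    have h1 : w.valuation K (x * ϖ ^ (WithZero.log (w.valuation K x))) = 1 := by
      rw [map_mul, map_zpow₀, hϖ, ← WithZero.exp_zsmul]
      nth_rw 1 [← WithZero.exp_log hx0]
      rw [← WithZero.exp_add, ← WithZero.exp_zero]
      congr 1
      rw [smul_eq_mul]
      ring
    have h2 := LO2_one hw h1
    rw [map_mul, map_zpow₀, map_mul, map_zpow₀] at h2
    rw [_root_.zpow_neg]
    exact eq_inv_of_mul_eq_one_left h2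
  obtain ⟨π, hπ⟩ := v.valuation_exists_uniformizer F
  have hπ0 : π ≠ 0 := by
    intro h
    rw [h, map_zero] at hπ
    exact WithZero.exp_ne_zero hπ.symm
  have hπ1 : algebraMap F K π ≠ 0 := by
    rw [Ne, map_eq_zero]
    exact hπ0
  have h3 := hgen _ hπ1
  rw [hi, val_F, hπ] at h3
  obtain ⟨k, hk⟩ : ∃ k, k = WithZero.log (w.valuation K (algebraMap F K π)) := ⟨_, rfl⟩
  rw [← hk] at h3
  obtain ⟨j, hj⟩ : ∃ j, j = WithZero.log (Valued.v (i ϖ)) := ⟨_, rfl⟩
  have hcj : Valued.v (i ϖ) = WithZero.exp j := by rw [hj, WithZero.exp_log hc0]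
  have hj0 : j < 0 := by
    rw [hcj, ← WithZero.exp_zero, WithZero.exp_lt_exp] at hc1
    exact hc1
  rw [hcj, ← WithZero.exp_zsmul, WithZero.exp_inj, smul_eq_mul] at h3
  have hj1 : j = -1 := by
    have h4 : (-j) ∣ 1 := ⟨-k, by linarith⟩
    have h5 := Int.le_of_dvd one_pos h4
    omega
  rcases eq_or_ne x 0 with rfl | hx
  · rw [map_zero, map_zero, map_zero]
  · rw [hgen x hx, hcj, hj1, ← WithZero.exp_zsmul]
    have hx0 : w.valuation K x ≠ 0 := (Valuation.ne_zero_iff _).2 hx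
    nth_rw 2 [← WithZero.exp_log hx0]
    congr 1
    rw [smul_eq_mul]
    ring

/-- **LO3.** The residue fields agree.
PROOF. `Valued.v (i a) ≤ 1` (`val_i_le`). `F` is dense in `Fv v`: there is `y ∈ F` with `Valued.v (i a - y) < 1`, so `v.valuation F y ≤ 1`; `y = n / d` with `d ∉ v.asIdeal`
(`HeightOneSpectrum.exists_primeCompl_mul_eq_of_integer`) and `d * d' - 1 ∈ v.asIdeal` for some `d'` (maximal ideal), `b = n * d'`:
`Valued.v (y - b) < 1`, so `Valued.v (i (a - b)) < 1`. -/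
theorem res_surj (a : 𝓞 K) : ∃ b : 𝓞 F, a - algebraMap (𝓞 F) (𝓞 K) b ∈ w.asIdeal := by
  have ha1 : Valued.v (i (a : K)) ≤ 1 := val_i_le i a
  obtain ⟨y, hy⟩ : ∃ y : F, Valued.v (i (a : K) - algebraMap F (Fv v) y) < 1 := by
    have hd : DenseRange (algebraMap F (Fv v)) := HeightOneSpectrum.denseRange_algebraMap F v
    have hnh : {z : Fv v | Valued.v (z - i (a : K)) < 1} ∈ nhds (i (a : K)) := by
      rw [Valued.mem_nhds]
      refine ⟨1, ?_⟩
      intro z hz
      exact (Valuation.restrict_lt_one_iff _).1 hz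
    obtain ⟨z, hz, y, rfl⟩ := mem_closure_iff_nhds.1 (hd (i (a : K))) _ hnh
    refine ⟨y, ?_⟩
    rw [Valuation.map_sub_swap]
    exact hz
  have hy1 : v.valuation F y ≤ 1 := by
    rw [← val_F]
    have h1 : algebraMap F (Fv v) y = i (a : K) - (i (a : K) - algebraMap F (Fv v) y) := by ring
    rw [h1]
    exact (Valuation.map_sub _ _ _).trans (max_le ha1 hy.le)
  obtain ⟨n, d, hnd⟩ := v.exists_primeCompl_mul_eq_of_integer y hy1
  have hd : (d : 𝓞 F) ∉ v.asIdeal := d.2
  obtain ⟨d', hd'⟩ : ∃ d' : 𝓞 F, (d : 𝓞 F) * d' - 1 ∈ v.asIdeal := by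
    obtain ⟨d', y, hy, h⟩ := v.isMaximal.exists_inv hd
    refine ⟨d', ?_⟩
    have h2 : (d : 𝓞 F) * d' - 1 = -y := by rw [← h]; ring
    rw [h2]
    exact neg_mem hy
  refine ⟨n * d', ?_⟩
  rw [hw]
  have h1 : (((a - algebraMap (𝓞 F) (𝓞 K) (n * d') : 𝓞 K)) : K) =
      (a : K) - algebraMap F K ((n * d' : 𝓞 F) : F) := rfl
  rw [h1, map_sub, hi]
  have h2 : i (a : K) - algebraMap F (Fv v) ((n * d' : 𝓞 F) : F) =
      (i (a : K) - algebraMap F (Fv v) y) - algebraMap F (Fv v) (((n * d' : 𝓞 F) : F) - y) := by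
    rw [map_sub]
    ring
  rw [h2]
  refine lt_of_le_of_lt (Valuation.map_sub _ _ _) (max_lt hy ?_)
  rw [val_F]
  have h3 : ((n * d' : 𝓞 F) : F) - y = y * (((d : 𝓞 F) * d' - 1 : 𝓞 F) : F) := by
    have h4 : (((d : 𝓞 F) * d' - 1 : 𝓞 F) : F) = ((d : 𝓞 F) : F) * (d' : F) - 1 := rfl
    have h5 : ((n * d' : 𝓞 F) : F) = (n : F) * (d' : F) := rfl
    have h6 : y * ((d : 𝓞 F) : F) = (n : F) := hnd
    rw [h4, h5, ← h6]
    ring
  rw [h3, map_mul]
  exact mul_lt_of_le_one_of_lt hy1 ((v.valuation_lt_one_iff_mem (K := F) _).2 hd')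

/-- **LO4.** Powers of the places. PROOF. `val_i`, `hi`, `HeightOneSpectrum.valuation_of_algebraMap`,
`HeightOneSpectrum.intValuation_le_pow_iff_mem`. -/
theorem mem_pow_iff (x : 𝓞 F) (m : ℕ) :
    algebraMap (𝓞 F) (𝓞 K) x ∈ w.asIdeal ^ m ↔ x ∈ v.asIdeal ^ m := by
  rw [← HeightOneSpectrum.intValuation_le_pow_iff_mem, ← HeightOneSpectrum.intValuation_le_pow_iff_mem,
    ← w.valuation_of_algebraMap (K := K), ← v.valuation_of_algebraMap (K := F)]
  change w.valuation K (algebraMap F K (x : F)) ≤ _ ↔ _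
  rw [← val_i hi hw, hi, val_F]

/-- **LO5.** Closeness to a polynomial with coefficients in `𝓞 F`.
PROOF. `f.map i` has the coefficients `i (f.coeff k)`, and `i` of the image of `p.coeff k` is `oF v (p.coeff k)` (`hi`); `val_i` for
`f.coeff k - p.coeff k`; `val_F` for `K` and `w`. -/
theorem tr_Cl {m : ℕ} {f : K[X]} {p : (𝓞 F)[X]} (h : Cl v m (f.map i) p) :
    Cl w m (f.map (algebraMap K (Fv w))) (p.map (algebraMap (𝓞 F) (𝓞 K))) := by
  intro k
  have h1 := h k
  rw [coeff_map] at h1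
  rw [coeff_map, coeff_map]
  have h2 : i (f.coeff k) - oF v (p.coeff k) = i (f.coeff k - algebraMap F K ((p.coeff k : 𝓞 F) : F)) := by
    rw [map_sub, hi]
    rfl
  rw [h2, val_i hi hw] at h1
  have h3 : algebraMap K (Fv w) (f.coeff k) - oF w (algebraMap (𝓞 F) (𝓞 K) (p.coeff k)) =
      algebraMap K (Fv w) (f.coeff k - algebraMap F K ((p.coeff k : 𝓞 F) : F)) := by
    rw [map_sub]
    rfl
  rw [h3, val_F]
  exact h1

private theorem LO6_mem (x : 𝓞 F) : algebraMap (𝓞 F) (𝓞 K) x ∈ w.asIdeal ↔ x ∈ v.asIdeal := by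
  have h := mem_pow_iff hi hw x 1
  rw [pow_one, pow_one] at h
  exact h

private theorem LO6_equiv : ∃ ρ : (𝓞 F ⧸ v.asIdeal) ≃+* (𝓞 K ⧸ w.asIdeal),
    ∀ x : 𝓞 F, ρ (Ideal.Quotient.mk v.asIdeal x) = Ideal.Quotient.mk w.asIdeal (algebraMap (𝓞 F) (𝓞 K) x) := by
  let r : 𝓞 F ⧸ v.asIdeal →+* 𝓞 K ⧸ w.asIdeal :=
    Ideal.quotientMap w.asIdeal (algebraMap (𝓞 F) (𝓞 K)) (fun x hx => (LO6_mem hi hw x).2 hx)
  have hr : ∀ x, r (Ideal.Quotient.mk v.asIdeal x) = Ideal.Quotient.mk w.asIdeal (algebraMap (𝓞 F) (𝓞 K) x) :=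
    fun x => Ideal.quotientMap_mk
  have hb : Function.Bijective r := by
    constructor
    · rw [injective_iff_map_eq_zero]
      intro y hy
      obtain ⟨x, rfl⟩ := Ideal.Quotient.mk_surjective y
      rw [hr, Ideal.Quotient.eq_zero_iff_mem, LO6_mem hi hw] at hy
      exact Ideal.Quotient.eq_zero_iff_mem.2 hy
    · intro y
      obtain ⟨x, rfl⟩ := Ideal.Quotient.mk_surjective y
      obtain ⟨b, hb⟩ := res_surj hi hw x
      refine ⟨Ideal.Quotient.mk v.asIdeal b, ?_⟩
      rw [hr]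
      exact (Ideal.Quotient.mk_eq_mk_iff_sub_mem _ _).2 (by
        have h := neg_mem hb
        rw [neg_sub] at h
        exact h)
  exact ⟨RingEquiv.ofBijective r hb, hr⟩

/-- **LO6.** Irreducibility modulo the places.
PROOF. The map `𝓞 F ⧸ v.asIdeal → 𝓞 K ⧸ w.asIdeal` is an isomorphism (LO4 with `m = 1` for the well-definedness and injectivity, LO3
for the surjectivity) and `(g.map (algebraMap ..)).map (mk w) = (g.map (mk v)).map (this map)`. -/
theorem tr_irr {g : (𝓞 F)[X]} (h : Irreducible (g.map (Ideal.Quotient.mk v.asIdeal))) :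
    Irreducible ((g.map (algebraMap (𝓞 F) (𝓞 K))).map (Ideal.Quotient.mk w.asIdeal)) := by
  obtain ⟨ρ, hρ⟩ := LO6_equiv hi hw
  have h1 : (g.map (algebraMap (𝓞 F) (𝓞 K))).map (Ideal.Quotient.mk w.asIdeal) =
      (Polynomial.mapEquiv ρ) (g.map (Ideal.Quotient.mk v.asIdeal)) := by
    rw [Polynomial.map_map]
    have h2 : (Polynomial.mapEquiv ρ) (g.map (Ideal.Quotient.mk v.asIdeal)) =
        (g.map (Ideal.Quotient.mk v.asIdeal)).map (ρ : _ →+* _) := rfl
    rw [h2, Polynomial.map_map]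
    congr 1
    ext x
    exact (hρ x).symm
  rw [h1, MulEquiv.irreducible_iff]
  exact h

/-- **LO7.** The local types. PROOF. LO5, LO6, LO4 (the polynomials are mapped by `algebraMap (𝓞 F) (𝓞 K)`; `Polynomial.eval_map`,
`Monic.map`, `Monic.natDegree_map`). -/
theorem tr_T1 {n : ℕ} {f : K[X]} (h : T1 v n (f.map i)) :
    T1 w n (f.map (algebraMap K (Fv w))) := by
  obtain ⟨g, hg, hc⟩ := h
  refine ⟨g.map (algebraMap (𝓞 F) (𝓞 K)), ⟨hg.mo.map _, ?_, tr_irr hi hw hg.irr⟩, tr_Cl hi hw hc⟩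
  rw [hg.mo.natDegree_map]
  exact hg.dg

theorem tr_T2 {n : ℕ} {f : K[X]} (h : T2 v n (f.map i)) :
    T2 w n (f.map (algebraMap K (Fv w))) := by
  obtain ⟨a, g, hg, hc⟩ := h
  refine ⟨algebraMap (𝓞 F) (𝓞 K) a, g.map (algebraMap (𝓞 F) (𝓞 K)), ⟨hg.mo.map _, ?_, tr_irr hi hw hg.irr, ?_⟩, ?_⟩
  · rw [hg.mo.natDegree_map]
    exact hg.dg
  · rw [eval_map, eval₂_at_apply, LO6_mem hi hw]
    exact hg.ne
  · have h1 := tr_Cl hi hw hc
    rw [Polynomial.map_mul, Polynomial.map_sub, map_X, map_C] at h1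
    exact h1

/-- **LO8.** PROOF. `T3p`: `red` is mapped by the isomorphism of the residue fields, `inj`, `ne` by its injectivity, `nmem` by LO4 with `m = 2`. -/
theorem tr_T3 {n : ℕ} {f : K[X]} (h : T3 v n (f.map i)) :
    T3 w n (f.map (algebraMap K (Fv w))) := by
  obtain ⟨p, a, b, hp, hc⟩ := h
  obtain ⟨ρ, hρ⟩ := LO6_equiv hi hw
  refine ⟨p.map (algebraMap (𝓞 F) (𝓞 K)), algebraMap (𝓞 F) (𝓞 K) a, fun k => algebraMap (𝓞 F) (𝓞 K) (b k),
    ⟨hp.mo.map _, ?_, ?_, ?_, ?_, ?_⟩, tr_Cl hi hw hc⟩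
  · rw [hp.mo.natDegree_map]
    exact hp.dg
  · have h1 := congrArg (fun q => q.map (ρ : (𝓞 F ⧸ v.asIdeal) →+* (𝓞 K ⧸ w.asIdeal))) hp.red
    have h2 : (ρ : (𝓞 F ⧸ v.asIdeal) →+* (𝓞 K ⧸ w.asIdeal)).comp (Ideal.Quotient.mk v.asIdeal) =
        (Ideal.Quotient.mk w.asIdeal).comp (algebraMap (𝓞 F) (𝓞 K)) := RingHom.ext hρ
    simp only [Polynomial.map_mul, Polynomial.map_pow, Polynomial.map_sub, map_X, map_C,
      Polynomial.map_prod] at h1
    rw [Polynomial.map_map, h2, ← Polynomial.map_map] at h1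
    have h3 : ∀ x : 𝓞 F, (ρ : (𝓞 F ⧸ v.asIdeal) →+* (𝓞 K ⧸ w.asIdeal)) (Ideal.Quotient.mk v.asIdeal x) =
        Ideal.Quotient.mk w.asIdeal (algebraMap (𝓞 F) (𝓞 K) x) := hρ
    simp only [h3] at h1
    exact h1
  · intro k l hkl
    apply hp.inj
    apply ρ.injective
    have h1 : Ideal.Quotient.mk w.asIdeal (algebraMap (𝓞 F) (𝓞 K) (b k)) =
        Ideal.Quotient.mk w.asIdeal (algebraMap (𝓞 F) (𝓞 K) (b l)) := hkl
    rw [← hρ, ← hρ] at h1
    exact h1
  · intro k h1
    apply hp.ne k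
    apply ρ.injective
    rw [hρ, hρ]
    exact h1
  · rw [eval_map, eval₂_at_apply, mem_pow_iff hi hw]
    exact hp.nmem

omit hi hw

/-- **LO9.** A polynomial of type zero is irreducible.
PROOF. Let `f₁` be a monic irreducible factor of `f` (`f` is not constant), `L = AdjoinRoot f₁` with the root `θ` (a number field, `NumberField.of_module_finite`):
`aeval θ f = 0`. `exists_twist v (m := 1)` for `f`, the polynomial `g` of `T1` (`T1p`), `θ`: `s ≠ 0`, `θ' = s • θ`, `h` monic of degree `n` with `aeval θ' h = 0` and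
`h ≡ g` modulo `v`: the image of `h` modulo `v` is the one of `g`, irreducible, so `h` is irreducible in `(𝓞 F)[X]`
(`Polynomial.Monic.irreducible_of_irreducible_map`) and in `F[X]` (`Polynomial.Monic.irreducible_iff_irreducible_map_fraction_map`), so it is the minimal polynomial of
`θ'` over `F` and `n = deg θ' ≤ [L : F] = f₁.natDegree ≤ n`: `f = f₁`. -/
theorem T1_irr {v : Pl F} {n : ℕ} (hn : 1 ≤ n) {f : F[X]} (hf : f.Monic) (hd : f.natDegree = n)
    (h : T1 v n (f.map (algebraMap F (Fv v)))) : Irreducible f := by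
  obtain ⟨g, hg, hc⟩ := h
  have hnu : ¬ IsUnit f := by
    intro hu
    have h1 := natDegree_eq_zero_of_isUnit hu
    omega
  obtain ⟨f₁, hf₁, hirr, hdvd⟩ := exists_monic_irreducible_factor f hnu
  have : Fact (Irreducible f₁) := ⟨hirr⟩
  have : Module.Finite F (AdjoinRoot f₁) := hf₁.finite_adjoinRoot
  have : NumberField (AdjoinRoot f₁) := NumberField.of_module_finite F (AdjoinRoot f₁)
  have hθ : aeval (AdjoinRoot.root f₁) f = 0 := by
    rw [AdjoinRoot.aeval_eq, AdjoinRoot.mk_eq_zero]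
    exact hdvd
  obtain ⟨s, θ', h, hs, hθ', hm, hdeg, h0, hcong⟩ := exists_twist v (m := 1) le_rfl hf hg.mo
    (hg.dg.trans hd.symm) hc hθ
  have h1 : h.map (Ideal.Quotient.mk v.asIdeal) = g.map (Ideal.Quotient.mk v.asIdeal) := by
    ext k
    rw [coeff_map, coeff_map, Ideal.Quotient.mk_eq_mk_iff_sub_mem]
    have h2 := hcong k
    rw [pow_one] at h2
    exact h2
  have h2 : Irreducible h := by
    apply hm.irreducible_of_irreducible_map (Ideal.Quotient.mk v.asIdeal)
    rw [h1]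
    exact hg.irr
  have h3 : Irreducible (h.map (algebraMap (𝓞 F) F)) :=
    (hm.irreducible_iff_irreducible_map_fraction_map (K := F)).1 h2
  have h4 : aeval (θ' : AdjoinRoot f₁) (h.map (algebraMap (𝓞 F) F)) = 0 := by
    rw [aeval_map_algebraMap]
    have h5 := congrArg (algebraMap (𝓞 (AdjoinRoot f₁)) (AdjoinRoot f₁)) h0
    rw [map_zero, ← aeval_algebraMap_apply] at h5
    exact h5
  have h5 := minpoly.eq_of_irreducible_of_monic h3 h4 (hm.map _)
  have h6 : (minpoly F (θ' : AdjoinRoot f₁)).natDegree ≤ Module.finrank F (AdjoinRoot f₁) :=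
    minpoly.natDegree_le _
  rw [← h5, hm.natDegree_map, hdeg, (AdjoinRoot.powerBasis hirr.ne_zero).finrank,
    AdjoinRoot.powerBasis_dim] at h6
  have h7 := eq_of_monic_of_dvd_of_natDegree_le hf₁ hf hdvd h6
  rw [h7]
  exact hirr

end Pool.Agent.CGU
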