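import Pool.Agent.CGU.EDf
import Pool.Agent.CGN.EPl

/-!
# Part E': places of `F` which split in `K`
-/

noncomputable section

set_option linter.unusedSectionVars false

namespace Pool.Agent.CGU

open NumberField IsDedekindDomain Matrix Polynomial
open Pool.Agent.CG2 (Pl Fv Ov GalF Fbar Zbar Over IsInertia IsFrob Nm)
open Pool.Agent.CG2.GalFinAux (below)
open Pool.Agent.CGQ
open Pool.Agent.CGN (Split abv mem_abv)

variable {F : Type} [Field F] [NumberField F] {K : Type} [Field K] [NumberField K] [Algebra F K]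

/-- **PS1.** At most two places above `v`.
PROOF. `∑ e f = [K : F] = 2` over the primes above `v` (`Ideal.sum_ramification_inertia`), all terms are at least one. -/
theorem card_abv_le (hdeg : Module.finrank F K = 2) (v : Pl F) : (abv K v).card ≤ 2 := by
  classical
  have hmax : v.asIdeal.IsMaximal := v.isMaximal
  have h1 : (IsDedekindDomain.primesOverFinset v.asIdeal (𝓞 K)).card ≤
      Module.finrank F K := by
    rw [← Ideal.sum_ramification_inertia (𝓞 K) F K (p := v.asIdeal) v.ne_bot,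
      Finset.card_eq_sum_ones]
    refine Finset.sum_le_sum fun P hP => ?_
    have e1 : P.IsPrime := ((IsDedekindDomain.mem_primesOverFinset_iff v.ne_bot _).1 hP).1
    have e2 : P.LiesOver v.asIdeal :=
      ((IsDedekindDomain.mem_primesOverFinset_iff v.ne_bot _).1 hP).2
    refine Right.one_le_mul ?_ ?_
    · exact Nat.pos_iff_ne_zero.mpr
        (Ideal.IsDedekindDomain.ramificationIdx'_ne_zero_of_liesOver _ v.ne_bot)
    · exact Nat.pos_iff_ne_zero.mpr (Ideal.inertiaDeg'_ne_zero v.asIdeal P)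
  rw [hdeg] at h1
  refine le_trans ?_ h1
  refine Finset.card_le_card_of_injOn (fun w => w.asIdeal) ?_ ?_
  · intro w hw
    rw [Finset.mem_coe, mem_abv] at hw
    have h2 : CG2.Lies w v := CG2.GalFinAux.lies_iff.2 hw
    exact (IsDedekindDomain.mem_primesOverFinset_iff v.ne_bot (𝓞 K)).2
      ⟨w.isPrime, CG2.GalFinAux.liesOver_of_lies h2⟩
  · intro w _ w' _ h
    exact HeightOneSpectrum.ext h

/-- **PS2.** An element near to a multiple of `α` is not a unit.
PROOF. Let `β = N α ≠ 0`. For every infinite place `w` of `K`: `w (m β - 1) ≥ m w β - 1 ≥ 2` for all large `m`. If `m β - 1` were a unit then the product of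
`w (m β - 1) ^ mult w` would be `1` (`NumberField.InfinitePlace.prod_eq_abs_norm`, `NumberField.isUnit_iff_norm`), but it is `≥ 2` (there is at least one
infinite place). -/
theorem exists_nonunit {α : 𝓞 K} (hα : α ≠ 0) {N : ℕ} (hN : N ≠ 0) :
    ∃ m : ℕ, 0 < m ∧ ((m * N : ℕ) : 𝓞 K) * α - 1 ≠ 0 ∧
      ¬ IsUnit (((m * N : ℕ) : 𝓞 K) * α - 1) := by
  have hα' : (α : K) ≠ 0 := RingOfIntegers.coe_ne_zero_iff.2 hα
  have hN1 : (1 : ℝ) ≤ N := by exact_mod_cast Nat.one_le_iff_ne_zero.2 hN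
  have h1 : ∀ w : InfinitePlace K, ∃ m : ℕ, 3 ≤ (m : ℝ) * w α := by
    intro w
    have hw : 0 < w α := InfinitePlace.pos_iff.2 hα'
    obtain ⟨m, hm⟩ := exists_nat_ge (3 / w α)
    exact ⟨m, (div_le_iff₀ hw).1 hm⟩
  choose f hf using h1
  obtain ⟨m, hm0, hm⟩ : ∃ m : ℕ, 0 < m ∧ ∀ w : InfinitePlace K, 3 ≤ (m : ℝ) * w α := by
    refine ⟨∑ w, f w + 1, Nat.succ_pos _, fun w => (hf w).trans ?_⟩
    refine mul_le_mul_of_nonneg_right ?_ (apply_nonneg _ _)
    have h2 : f w ≤ ∑ w, f w := Finset.single_le_sum (fun _ _ => Nat.zero_le _) (Finset.mem_univ w)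
    exact_mod_cast h2.trans (Nat.le_succ _)
  obtain ⟨β, hβ⟩ : ∃ β : 𝓞 K, β = ((m * N : ℕ) : 𝓞 K) * α - 1 := ⟨_, rfl⟩
  have hw2 : ∀ w : InfinitePlace K, 2 ≤ w β := by
    intro w
    have e1 : (β : K) = ((m * N : ℕ) : K) * α - 1 := by
      rw [hβ]
      simp
    have e2 : w (((m * N : ℕ) : K) * α) = ((m * N : ℕ) : ℝ) * w α := by
      rw [map_mul, InfinitePlace.map_natCast]
    have e3 : w (((m * N : ℕ) : K) * α) ≤ w β + w 1 := by
      have e4 : ((m * N : ℕ) : K) * α = (β : K) + 1 := by rw [e1]; ring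
      rw [e4]
      exact w.1.add_le _ _
    rw [e2, map_one] at e3
    have e5 : (m : ℝ) * w α ≤ ((m * N : ℕ) : ℝ) * w α := by
      refine mul_le_mul_of_nonneg_right ?_ (apply_nonneg _ _)
      rw [Nat.cast_mul]
      exact le_mul_of_one_le_right (Nat.cast_nonneg m) hN1
    have e6 := hm w
    linarith
  refine ⟨m, hm0, ?_, ?_⟩
  · rw [← hβ]
    intro h0
    have w : InfinitePlace K := Classical.arbitrary _
    have h2 := hw2 w
    rw [h0] at h2
    simp at h2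
    linarith
  · rw [← hβ, NumberField.isUnit_iff_norm]
    intro h2
    have h3 : |(Algebra.norm ℚ) (β : K)| = 1 := by
      rw [← h2, RingOfIntegers.coe_norm]
    have h4 := InfinitePlace.prod_eq_abs_norm (K := K) (β : K)
    rw [h3, Rat.cast_one] at h4
    have w₀ : InfinitePlace K := Classical.arbitrary _
    have h5 : ∏ w : InfinitePlace K, (1 : ℝ) < ∏ w : InfinitePlace K, w β ^ w.mult := by
      refine Finset.prod_lt_prod_of_nonempty (fun _ _ => one_pos) (fun w _ => ?_)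
        Finset.univ_nonempty
      have h6 := hw2 w
      exact one_lt_pow₀ (by linarith) w.mult_ne_zero
    rw [h4, Finset.prod_const_one] at h5
    exact lt_irrefl _ h5

/-- **PS3.** Places which split in `K`, of large norm and outside a finite set.
PROOF. `α = s (a - c a)` for some `a` and a natural number `s ≠ 0` such that `α ∈ 𝓞 K`: `α ≠ 0`, `c α = - α`, `α ^ 2 = d` with `c d = d`, so
`d ∈ F` (`[K : F] = 2`: the fixed field of `c` is not `K`; `1`, `a` is a basis) and `d ∈ 𝓞 F`. Let `N = 2 * B! * ∏_{v ∈ T} Nm v`. By PS2 with `N`: `m`; let `P` be a maximal ideal of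
`𝓞 K` containing `m N α - 1 ≠ 0`, a place of `K`. `N ∉ P`, `α ∉ P`, `2 ∉ P` (otherwise `1 ∈ P`). Put `x = m N d ∈ 𝓞 F`: `x - α = α (m N α - 1) ∈ P`; `P' = c P` (the ideal
of the `z` with `c z ∈ P`) contains `x + α` (`c (x + α) = x - α`), and `P' ≠ P`: otherwise `2 α = (x + α) - (x - α) ∈ P`. `P` and `P'` are over the same place
`v = below F P` (`c` fixes `F`): `(abv K v).card ≥ 2`, so `= 2` (PS1). `N ∉ P`, so `v ∉ T` (`Nm v ∈ v.asIdeal`: `Ideal.absNorm_mem`) and `Nm v ≥ B`: `Nm v` is a power of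
a prime number `q ∈ v.asIdeal` (compare `CGN.exists_place`), `q ∤ B!`, so `q > B`. -/
theorem exists_split_place (hdeg : Module.finrank F K = 2) {c : K ≃ₐ[F] K} (hc : ∃ a, c a ≠ a)
    (hcc : ∀ a, c (c a) = a) {T : Set (Pl F)} (hT : T.Finite) (B : ℕ) :
    ∃ v : Pl F, v ∉ T ∧ B ≤ Nm v ∧ Split K v := by
  classical
  obtain ⟨a, ha⟩ := hc
  have hq : Algebra.IsQuadraticExtension F K := ⟨hdeg⟩
  have hG : IsGalois F K := { }
  obtain ⟨σ, hσ⟩ : ∃ σ : Gal(K/F), ∀ x : K, σ x = c x := ⟨c, fun _ => rfl⟩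
  have hσ1 : σ ≠ 1 := by
    intro h
    apply ha
    rw [← hσ, h]
    rfl
  have hfix : ∀ x : K, c x = x → ∃ y : F, algebraMap F K y = x := by
    intro x hx
    have h1 : x ∈ Set.range (algebraMap F K) := by
      rw [IsGalois.mem_range_algebraMap_iff_fixed]
      intro τ
      have hcard : Nat.card Gal(K/F) = 2 := by rw [IsGalois.card_aut_eq_finrank, hdeg]
      obtain ⟨y, -, hy⟩ := (Nat.card_eq_two_iff' (1 : Gal(K/F))).1 hcard
      by_cases h2 : τ = 1
      · rw [h2]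
        rfl
      · rw [hy τ h2, ← hy σ hσ1, hσ, hx]
    exact h1
  -- the element `α`
  have halg : IsAlgebraic ℤ (a - c a) :=
    (IsFractionRing.isAlgebraic_iff ℤ ℚ K).2 (Algebra.IsAlgebraic.isAlgebraic _)
  obtain ⟨s, hs0, hs⟩ := halg.exists_integral_multiple
  obtain ⟨α, hα⟩ : ∃ α : 𝓞 K, (α : K) = s • (a - c a) := ⟨⟨_, hs⟩, rfl⟩
  have hα0 : α ≠ 0 := by
    intro h
    rw [h] at hα
    have h1 : (s • (a - c a) : K) = 0 := by rw [← hα]; simp
    rcases smul_eq_zero.1 h1 with h2 | h2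
    · exact hs0 h2
    · exact ha (sub_eq_zero.1 h2).symm
  have hcα : c (α : K) = -(α : K) := by
    rw [hα, map_zsmul, map_sub, hcc, ← smul_neg, neg_sub]
  have hsα : σ • α = -α := by
    apply RingOfIntegers.ext
    have h1 : ((σ • α : 𝓞 K) : K) = σ (α : K) := rfl
    rw [h1, hσ, hcα]
    simp
  have hsα' : σ⁻¹ • α = -α := by
    rw [inv_smul_eq_iff, smul_neg, hsα, neg_neg]
  obtain ⟨d, hd⟩ := hfix ((α : K) ^ 2) (by rw [map_pow, hcα, neg_sq])
  have hdi : IsIntegral ℤ d := by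
    rw [← isIntegral_algebraMap_iff (FaithfulSMul.algebraMap_injective F K), hd]
    exact α.isIntegral_coe.pow 2
  obtain ⟨δ, hδ⟩ : ∃ δ : 𝓞 F, (δ : F) = d := ⟨⟨d, hdi⟩, rfl⟩
  have hδα : algebraMap (𝓞 F) (𝓞 K) δ = α ^ 2 := by
    apply RingOfIntegers.ext
    have h1 : ((algebraMap (𝓞 F) (𝓞 K) δ : 𝓞 K) : K) = algebraMap F K (δ : F) := rfl
    rw [h1, hδ, hd]
    simp
  obtain ⟨N, hN⟩ : ∃ N : ℕ, N = 2 * (B.factorial * ∏ v ∈ hT.toFinset, Nm v) := ⟨_, rfl⟩
  have hN0 : N ≠ 0 := by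
    rw [hN]
    refine mul_ne_zero two_ne_zero (mul_ne_zero B.factorial_ne_zero ?_)
    rw [Finset.prod_ne_zero_iff]
    intro v _
    exact (lt_of_lt_of_le Nat.zero_lt_two (CG2.GalFinAux.two_le_N v)).ne'
  obtain ⟨m, hm, hβ0, hβ⟩ := exists_nonunit hα0 hN0
  obtain ⟨P, hPmax, hP⟩ := exists_max_ideal_of_mem_nonunits hβ
  have hPbot : P ≠ ⊥ := by
    intro h
    rw [h, Ideal.mem_bot] at hP
    exact hβ0 hP
  obtain ⟨w, hw⟩ : ∃ w : Pl K, w.asIdeal = P := ⟨⟨P, hPmax.isPrime, hPbot⟩, rfl⟩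
  have hone : (1 : 𝓞 K) ∉ w.asIdeal := by
    intro h
    exact w.isPrime.ne_top ((Ideal.eq_top_iff_one _).2 h)
  rw [← hw] at hP
  have hNP : ((N : ℕ) : 𝓞 K) ∉ w.asIdeal := by
    intro h
    apply hone
    have h1 : ((m * N : ℕ) : 𝓞 K) * α ∈ w.asIdeal := by
      rw [Nat.cast_mul, mul_comm (m : 𝓞 K), mul_assoc]
      exact Ideal.mul_mem_right _ _ h
    have h2 := w.asIdeal.sub_mem h1 hP
    rwa [sub_sub_cancel] at h2
  have hαP : α ∉ w.asIdeal := by
    intro h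
    apply hone
    have h1 : ((m * N : ℕ) : 𝓞 K) * α ∈ w.asIdeal := Ideal.mul_mem_left _ _ h
    have h2 := w.asIdeal.sub_mem h1 hP
    rwa [sub_sub_cancel] at h2
  have hdvd : ∀ k : ℕ, k ∣ N → ((k : ℕ) : 𝓞 K) ∉ w.asIdeal := by
    rintro k ⟨l, hl⟩ h
    apply hNP
    rw [hl, Nat.cast_mul]
    exact Ideal.mul_mem_right _ _ h
  have hNm : ((Nm (below F w) : ℕ) : 𝓞 K) ∈ w.asIdeal := by
    have h1 : ((Nm (below F w) : ℕ) : 𝓞 F) ∈ (below F w).asIdeal := Ideal.absNorm_mem _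
    have h2 : algebraMap (𝓞 F) (𝓞 K) ((Nm (below F w) : ℕ) : 𝓞 F) ∈ w.asIdeal := h1
    rwa [map_natCast] at h2
  obtain ⟨x, hx⟩ : ∃ x : 𝓞 F, x = ((m * N : ℕ) : 𝓞 F) * δ := ⟨_, rfl⟩
  have hx1 : algebraMap (𝓞 F) (𝓞 K) x - α ∈ w.asIdeal := by
    have h1 : algebraMap (𝓞 F) (𝓞 K) x - α = α * (((m * N : ℕ) : 𝓞 K) * α - 1) := by
      rw [hx, map_mul, map_natCast, hδα]
      ring
    rw [h1]
    exact Ideal.mul_mem_left _ _ hP
  have hx2 : algebraMap (𝓞 F) (𝓞 K) x + α ∈ (CG2.GalFinAux.actP σ w).asIdeal := by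
    rw [CG2.GalFinAux.mem_actP, smul_add, CG2.GalFinAux.smul_alg, hsα', ← sub_eq_add_neg]
    exact hx1
  have hne : CG2.GalFinAux.actP σ w ≠ w := by
    intro h
    rw [h] at hx2
    have h1 := w.asIdeal.sub_mem hx2 hx1
    have h2 : algebraMap (𝓞 F) (𝓞 K) x + α - (algebraMap (𝓞 F) (𝓞 K) x - α) = ((2 : ℕ) : 𝓞 K) * α := by
      push_cast
      ring
    rw [h2] at h1
    rcases w.isPrime.mem_or_mem h1 with h3 | h3
    · exact hdvd 2 ⟨_, hN⟩ h3
    · exact hαP h3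
  refine ⟨below F w, ?_, ?_, ?_⟩
  · intro hv
    refine hdvd (Nm (below F w)) ?_ hNm
    rw [hN]
    exact Dvd.dvd.mul_left (Dvd.dvd.mul_left
      (Finset.dvd_prod_of_mem (fun v : Pl F => Nm v) (hT.mem_toFinset.2 hv)) _) _
  · by_contra hB
    push Not at hB
    refine hdvd (Nm (below F w)) ?_ hNm
    rw [hN]
    refine Dvd.dvd.mul_left (Dvd.dvd.mul_right (Nat.dvd_factorial ?_ hB.le) _) _
    exact lt_of_lt_of_le Nat.zero_lt_two (CG2.GalFinAux.two_le_N _)
  · rw [Split, hdeg]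
    refine le_antisymm (card_abv_le hdeg _) ?_
    rw [← Finset.card_pair hne]
    apply Finset.card_le_card
    intro y hy
    rw [Finset.mem_insert, Finset.mem_singleton] at hy
    rcases hy with rfl | rfl
    · rw [mem_abv, CG2.GalFinAux.below_actP]
    · rw [mem_abv]

end Pool.Agent.CGU
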