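import Pool.Agent.CGU.EDf
import Pool.Agent.CGN.ERb

/-!
# Part E': the minors of an element near to `1` at a finite place do not vanish
-/

noncomputable section

set_option linter.unusedSectionVars false

namespace Pool.Agent.CGU

open NumberField IsDedekindDomain Matrix Polynomial
open Pool.Agent.CG2 (Pl Fv Ov GalF Fbar Zbar Over IsInertia IsFrob Nm)
open Pool.Agent.CG2.GalFinAux (below)
open Pool.Agent.CGQ
open Pool.Agent.CGN (SC Split abv ActsAs oF Cl T2p T2 T3p T3 RR fk)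

variable {F : Type} [Field F] [NumberField F] {A : UD F}

private def RR1_sg (σ : F →+* ℝ) : 𝓞 F →+* integralClosure ℤ ℝ where
  toFun x := ⟨σ (x : F), by
    have h : IsIntegral ℤ (x : F) := x.2
    exact h.map σ.toIntAlgHom⟩
  map_one' := by apply Subtype.ext; simp
  map_mul' x y := by apply Subtype.ext; simp
  map_zero' := by apply Subtype.ext; simp
  map_add' x y := by apply Subtype.ext; simp

private theorem RR1_coe (σ : F →+* ℝ) (x : 𝓞 F) : ((RR1_sg σ x : integralClosure ℤ ℝ) : ℝ) =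
    σ (x : F) := rfl

/-- **RR1.** An element `d + f`, `d` an integer prime to `Q` and the coordinates of `f` algebraic
integers in `Q`, is invertible.
PROOF. Port of `CGN.isUnit_of_mem` (CGN/ERb.lean) to `BE A σ` (structure constants `A.s.c`, index set `Fin 2 × Fin n × Fin n`). -/
theorem isUnit_of_memU (σ : F →+* ℝ) (Q : Ideal (integralClosure ℤ ℝ)) (hQ : Q.IsPrime) {d : 𝓞 F}
    (hd : ∀ z : integralClosure ℤ ℝ, (z : ℝ) = σ (d : F) → z ∉ Q) {f : BE A σ}
    (hf : ∀ i, ∃ z : integralClosure ℤ ℝ, z ∈ Q ∧ (z : ℝ) = f.co i) :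
    IsUnit (σ (d : F) • (1 : BE A σ) + f) := by
  classical
  choose z hzQ hz using hf
  obtain ⟨M, hM⟩ : ∃ M : Matrix (Fin 2 × Fin A.n × Fin A.n) (Fin 2 × Fin A.n × Fin A.n) (integralClosure ℤ ℝ),
      M = fun j k => (if j = k then RR1_sg σ d else 0) + ∑ i, z i * RR1_sg σ (A.s.c i j k) :=
    ⟨_, rfl⟩
  have h1 : M.det ∉ Q := by
    have h2 : M.map (Ideal.Quotient.mk Q) = (Ideal.Quotient.mk Q (RR1_sg σ d)) •
        (1 : Matrix (Fin 2 × Fin A.n × Fin A.n) (Fin 2 × Fin A.n × Fin A.n) _) := by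
      ext j k
      have h3 : ∑ i, (Ideal.Quotient.mk Q) (z i * RR1_sg σ (A.s.c i j k)) = 0 :=
        Finset.sum_eq_zero fun i _ => by
          rw [map_mul, Ideal.Quotient.eq_zero_iff_mem.2 (hzQ i), zero_mul]
      rw [Matrix.map_apply, hM, map_add, map_sum, h3, add_zero, Matrix.smul_apply,
        Matrix.one_apply, smul_eq_mul, mul_ite, mul_one, mul_zero, apply_ite (Ideal.Quotient.mk Q),
        map_zero]
    intro h3
    have h4 : (Ideal.Quotient.mk Q) M.det = 0 := Ideal.Quotient.eq_zero_iff_mem.2 h3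
    rw [RingHom.map_det, RingHom.mapMatrix_apply, h2, Matrix.det_smul, Matrix.det_one,
      mul_one] at h4
    have h5 : IsDomain (integralClosure ℤ ℝ ⧸ Q) := Ideal.Quotient.isDomain Q
    exact hd _ rfl (Ideal.Quotient.eq_zero_iff_mem.1 (by
      by_contra h6
      exact pow_ne_zero _ h6 h4))
  have h2 : M.det ≠ 0 := fun h => h1 (h ▸ Q.zero_mem)
  obtain ⟨N, hN⟩ : ∃ N : Matrix (Fin 2 × Fin A.n × Fin A.n) (Fin 2 × Fin A.n × Fin A.n) ℝ,
      N = M.map (algebraMap (integralClosure ℤ ℝ) ℝ) := ⟨_, rfl⟩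
  have h3 : N.det ≠ 0 := by
    have h4 : (algebraMap (integralClosure ℤ ℝ) ℝ) M.det = N.det := by
      rw [RingHom.map_det, RingHom.mapMatrix_apply, hN]
    rw [← h4]
    intro h5
    exact h2 (Subtype.ext h5)
  have h4 : IsUnit N.det := isUnit_iff_ne_zero.2 h3
  have hNe : ∀ j k, N j k = (if j = k then σ (d : F) else 0) +
      ∑ i, f.co i * σ ((A.s.c i j k : 𝓞 F) : F) := by
    intro j k
    rw [hN, Matrix.map_apply, hM, map_add, map_sum]
    congr 1
    · split_ifs
      · rfl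
      · rfl
    · refine Finset.sum_congr rfl fun i _ => ?_
      rw [map_mul]
      change (z i : ℝ) * σ ((A.s.c i j k : 𝓞 F) : F) = _
      rw [hz]
  have h5 : ∀ y : BE A σ, ∀ k, ((σ (d : F) • (1 : BE A σ) + f) * y).co k =
      ∑ j, y.co j * N j k := by
    intro y k
    have h6 : (σ (d : F) • (1 : BE A σ) + f) * y = σ (d : F) • y + f * y := by
      rw [add_mul, SC.Alg.smul_mul', one_mul]
    rw [h6, SC.Alg.co_add, SC.Alg.co_smul, SC.Alg.co_mul, Finset.sum_comm]
    have h7 : ∀ j, y.co j * N j k = (if j = k then σ (d : F) * y.co j else 0) +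
        ∑ i, f.co i * y.co j * (A.sF.map σ).c i j k := by
      intro j
      rw [hNe, mul_add, Finset.mul_sum]
      congr 1
      · split_ifs
        · ring
        · ring
      · refine Finset.sum_congr rfl fun i _ => ?_
        change y.co j * (f.co i * σ ((A.s.c i j k : 𝓞 F) : F)) =
          f.co i * y.co j * σ ((A.s.c i j k : 𝓞 F) : F)
        ring
    rw [Finset.sum_congr rfl fun j _ => h7 j, Finset.sum_add_distrib, Finset.sum_ite_eq',
      if_pos (Finset.mem_univ _)]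
  have h6 : ∀ y : BE A σ, (σ (d : F) • (1 : BE A σ) + f) * y = 0 → y = 0 := by
    intro y hy
    have h7 : (fun j => y.co j) ᵥ* N = 0 := by
      funext k
      have h8 := h5 y k
      rw [hy, SC.Alg.co_zero] at h8
      exact h8.symm
    have h8 : (fun j => y.co j) = 0 := by
      have h9 : ((fun j => y.co j) ᵥ* N) ᵥ* N⁻¹ = 0 := by rw [h7, Matrix.zero_vecMul]
      rw [Matrix.vecMul_vecMul, Matrix.mul_nonsing_inv N h4, Matrix.vecMul_one] at h9
      exact h9
    apply SC.Alg.ext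
    intro i
    exact congrFun h8 i
  obtain ⟨y, hy⟩ : ∃ y : BE A σ, (σ (d : F) • (1 : BE A σ) + f) * y = 1 := by
    refine ⟨SC.Alg.mk ((fun j => (1 : BE A σ).co j) ᵥ* N⁻¹), ?_⟩
    apply SC.Alg.ext
    intro k
    rw [h5]
    have h7 : ((fun j => (1 : BE A σ).co j) ᵥ* N⁻¹) ᵥ* N = fun j => (1 : BE A σ).co j := by
      rw [Matrix.vecMul_vecMul, Matrix.nonsing_inv_mul N h4, Matrix.vecMul_one]
    exact congrFun h7 k
  have hy' : y * (σ (d : F) • (1 : BE A σ) + f) = 1 := by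
    have h7 := h6 (y * (σ (d : F) • (1 : BE A σ) + f) - 1) (by
      rw [mul_sub, ← mul_assoc, hy, one_mul, mul_one, sub_self])
    exact sub_eq_zero.1 h7
  exact ⟨⟨_, y, hy, hy'⟩, rfl⟩

private theorem RR2_over (σ : F →+* ℝ) (P : Ideal (𝓞 F)) [P.IsPrime] :
    ∃ Q : Ideal (integralClosure ℤ ℝ), Q.IsPrime ∧ Q.comap (RR1_sg σ) = P := by
  let _ := (RR1_sg σ).toAlgebra
  have hint : Algebra.IsIntegral (𝓞 F) (integralClosure ℤ ℝ) := by
    constructor
    intro x
    have h1 : IsIntegral ℤ x := by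
      have := x.2
      exact (isIntegral_algebraMap_iff
        (Subtype.val_injective : Function.Injective
          (algebraMap (integralClosure ℤ ℝ) ℝ))).1 this
    exact h1.tower_top
  obtain ⟨Q, _, h1, h2⟩ := Ideal.exists_ideal_over_prime_of_isIntegral P
    (⊥ : Ideal (integralClosure ℤ ℝ)) (by
    intro x hx
    have h3 : RR1_sg σ x = 0 := hx
    have h4 : σ (x : F) = 0 := congrArg Subtype.val h3
    have h5 : x = 0 := RingOfIntegers.ext ((map_eq_zero σ).1 h4)
    rw [h5]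
    exact P.zero_mem)
  exact ⟨Q, h1, h2⟩

/-- **RR2.** The minors of the elements near to `1` do not vanish.
PROOF. Port of `CGN.min_unit` (CGN/ERb.lean). -/
theorem min_unitU (σ : F →+* ℝ) {f : BE A σ} (hf : ∀ i, IsAlgebraic ℤ (f.co i)) (v : Pl F)
    {x : ℕ → BF A} (hx : Filter.Tendsto (fun b => bloc A v (x b)) Filter.atTop (nhds 1)) :
    ∀ᶠ b in Filter.atTop, IsUnit (1 + (bE A σ (x b) - 1) * f) := by
  classical
  have hvp : v.asIdeal.IsPrime := v.isPrime
  obtain ⟨Q, hQ, hQv⟩ := RR2_over σ v.asIdeal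
  have hs : ∀ i, ∃ s : ℤ, s ≠ 0 ∧ IsIntegral ℤ ((s : ℝ) * f.co i) := by
    intro i
    obtain ⟨s, hs0, hs⟩ := (hf i).exists_integral_multiple
    exact ⟨s, hs0, by rwa [zsmul_eq_mul] at hs⟩
  choose s hs0 hs using hs
  obtain ⟨t, ht⟩ : ∃ t : ℤ, t = ∏ i, s i := ⟨_, rfl⟩
  have ht0 : t ≠ 0 := ht ▸ Finset.prod_ne_zero_iff.2 fun i _ => hs0 i
  have hti : ∀ i, IsIntegral ℤ ((t : ℝ) * f.co i) := by
    intro i
    have h1 : (t : ℝ) * f.co i =
        ((∏ j ∈ Finset.univ.erase i, s j : ℤ) : ℝ) * ((s i : ℝ) * f.co i) := by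
      rw [← mul_assoc, ← Int.cast_mul, Finset.prod_erase_mul _ _ (Finset.mem_univ i), ht]
    rw [h1]
    refine IsIntegral.mul ?_ (hs i)
    exact isIntegral_algebraMap (R := ℤ) (A := ℝ)
  have htF : ((t : ℤ) : F) ≠ 0 := Int.cast_ne_zero.2 ht0
  have h3 : ∀ᶠ b in Filter.atTop, ∀ i, v.valuation F ((x b - 1).co i) <
      v.valuation F ((t : ℤ) : F) := by
    rw [Filter.eventually_all]
    intro i
    have h4 : Filter.Tendsto (fun b => (bloc A v (x b)).co i) Filter.atTop
        (nhds ((1 : BV A v).co i)) :=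
      ((CGN.continuous_co i).tendsto (1 : BV A v)).comp hx
    have h5 : IsOpen {z : Fv v | Valued.v (z - (1 : BV A v).co i) <
        v.valuation F ((t : ℤ) : F)} :=
      (CG2.isOpen_val_lt v _ ((Valuation.ne_zero_iff _).2 htF)).preimage
        (continuous_id.sub continuous_const)
    have h6 := h4.eventually (h5.mem_nhds (by
      rw [Set.mem_ofPred_eq, sub_self, map_zero]
      exact zero_lt_iff.2 ((Valuation.ne_zero_iff _).2 htF)))
    refine h6.mono fun b hb => ?_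
    have h7 : (bloc A v (x b)).co i - (1 : BV A v).co i =
        algebraMap F (Fv v) ((x b - 1).co i) := by
      rw [SC.Alg.co_sub, map_sub]
      rfl
    have hb : Valued.v ((bloc A v (x b)).co i - (1 : BV A v).co i) <
      v.valuation F ((t : ℤ) : F) := hb
    rw [h7, CGN.val_F] at hb
    exact hb
  refine h3.mono fun b hb => ?_
  have h4 : ∀ i, ∃ (n : 𝓞 F) (d : v.asIdeal.primeCompl), n ∈ v.asIdeal ∧
      (x b - 1).co i * ((d : 𝓞 F) : F) = ((t : ℤ) : F) * (n : F) := by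
    intro i
    have h5 : v.valuation F ((x b - 1).co i / ((t : ℤ) : F)) < 1 := by
      rw [map_div₀]
      exact (div_lt_one₀ (zero_lt_iff.2 ((Valuation.ne_zero_iff _).2 htF))).2 (hb i)
    obtain ⟨n, d, hnd⟩ := v.exists_primeCompl_mul_eq_of_integer _ h5.le
    refine ⟨n, d, ?_, ?_⟩
    · rw [← v.valuation_lt_one_iff_mem (K := F)]
      have hnd : (x b - 1).co i / ((t : ℤ) : F) * ((d : 𝓞 F) : F) = (n : F) := hnd
      change v.valuation F (n : F) < 1
      rw [← hnd, map_mul]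
      exact mul_lt_one_of_lt_of_le h5 (v.valuation_le_one _)
    · have hnd : (x b - 1).co i / ((t : ℤ) : F) * ((d : 𝓞 F) : F) = (n : F) := hnd
      rw [← hnd]
      field_simp
  choose n d hn hnd using h4
  obtain ⟨D, hD⟩ : ∃ D : 𝓞 F, D = ∏ i, (d i : 𝓞 F) := ⟨_, rfl⟩
  have hDv : D ∉ v.asIdeal := by
    rw [hD]
    intro h
    rw [Ideal.IsPrime.prod_mem_iff] at h
    obtain ⟨i, _, hi⟩ := h
    exact (d i).2 hi
  obtain ⟨y, hy⟩ : ∃ y : Fin 2 × Fin A.n × Fin A.n → 𝓞 F,
      y = fun i => n i * ∏ j ∈ Finset.univ.erase i, (d j : 𝓞 F) := ⟨_, rfl⟩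
  have hyv : ∀ i, y i ∈ v.asIdeal := by
    intro i
    rw [hy]
    exact v.asIdeal.mul_mem_right _ (hn i)
  have hDy : ∀ i, ((D : 𝓞 F) : F) * (x b - 1).co i = ((t : ℤ) : F) * ((y i : 𝓞 F) : F) := by
    intro i
    have h5 : D = (d i : 𝓞 F) * ∏ j ∈ Finset.univ.erase i, (d j : 𝓞 F) := by
      rw [hD, Finset.mul_prod_erase _ (fun j => (d j : 𝓞 F)) (Finset.mem_univ i)]
    have h6 : ((y i : 𝓞 F) : F) = ((n i : 𝓞 F) : F) *
        ((∏ j ∈ Finset.univ.erase i, (d j : 𝓞 F) : 𝓞 F) : F) := by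
      rw [hy]
      exact map_mul (algebraMap (𝓞 F) F) _ _
    have h7 : ((D : 𝓞 F) : F) = ((d i : 𝓞 F) : F) *
        ((∏ j ∈ Finset.univ.erase i, (d j : 𝓞 F) : 𝓞 F) : F) := by
      rw [h5]
      exact map_mul (algebraMap (𝓞 F) F) _ _
    rw [h6, h7, ← mul_assoc, ← hnd i]
    ring
  obtain ⟨g, hg⟩ : ∃ g : BE A σ, g = bE A σ (SC.Alg.mk fun i => ((y i : 𝓞 F) : F)) *
      ((t : ℝ) • f) := ⟨_, rfl⟩
  have h5 : IsUnit (σ (D : F) • (1 : BE A σ) + g) := by
    refine isUnit_of_memU σ Q hQ ?_ ?_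
    · intro z hz hzQ
      have h6 : z = RR1_sg σ D := Subtype.ext hz
      apply hDv
      rw [← hQv, Ideal.mem_comap, ← h6]
      exact hzQ
    · intro k
      refine ⟨∑ i, ∑ j, RR1_sg σ (y i) * ⟨(t : ℝ) * f.co j, hti j⟩ * RR1_sg σ (A.s.c i j k),
        ?_, ?_⟩
      · refine Q.sum_mem fun i _ => Q.sum_mem fun j _ => ?_
        refine Q.mul_mem_right _ (Q.mul_mem_right _ ?_)
        have h6 : y i ∈ Q.comap (RR1_sg σ) := by
          rw [hQv]
          exact hyv i
        exact h6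
      · rw [hg, SC.Alg.co_mul]
        have h6 : ∀ w : integralClosure ℤ ℝ, (w : ℝ) = algebraMap (integralClosure ℤ ℝ) ℝ w :=
          fun _ => rfl
        rw [h6, map_sum]
        refine Finset.sum_congr rfl fun i _ => ?_
        rw [map_sum]
        refine Finset.sum_congr rfl fun j _ => ?_
        rw [map_mul, map_mul]
        rfl
  have h6 : σ (D : F) • (1 : BE A σ) + g = σ (D : F) • (1 + (bE A σ (x b) - 1) * f) := by
    rw [smul_add, hg]
    congr 1
    rw [SC.Alg.mul_smul', ← SC.Alg.smul_mul', ← SC.Alg.smul_mul']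
    congr 1
    apply SC.Alg.ext
    intro i
    rw [SC.Alg.co_smul, SC.Alg.co_smul, bE_co, SC.Alg.co_mk]
    have h7 : (bE A σ (x b) - 1).co i = σ ((x b - 1).co i) := by
      rw [SC.Alg.co_sub, SC.Alg.co_sub, map_sub]
      rfl
    rw [h7, ← map_mul, hDy, map_mul, map_intCast]
  have h7 : σ (D : F) ≠ 0 := by
    rw [_root_.map_ne_zero]
    intro h8
    apply hDv
    have h9 : D = 0 := RingOfIntegers.ext h8
    rw [h9]
    exact v.asIdeal.zero_mem
  rw [h6] at h5
  have h8 : σ (D : F) • (1 + (bE A σ (x b) - 1) * f) =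
      (((Units.mk0 _ h7).map (algebraMap ℝ (BE A σ) : ℝ →* BE A σ) : (BE A σ)ˣ) : BE A σ) *
        (1 + (bE A σ (x b) - 1) * f) := by
    rw [Algebra.smul_def]
    rfl
  rw [h8, Units.isUnit_units_mul] at h5
  exact h5

private theorem RR3_aeval (φ : F →+* ℝ) (c : BF A) (f : F[X]) :
    bE A φ (aeval c f) = aeval (bE A φ c) (f.map φ) := by
  have h : ∀ r : F, bE A φ (algebraMap F (BF A) r) = algebraMap ℝ (BE A φ) (φ r) := by
    intro r
    apply SC.Alg.ext
    intro i
    rw [Algebra.algebraMap_eq_smul_one, Algebra.algebraMap_eq_smul_one, bE_co, SC.Alg.co_smul,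
      SC.Alg.co_smul, map_mul]
    rfl
  rw [aeval_def, hom_eval₂, aeval_def, eval₂_map]
  congr 1
  exact RingHom.ext h

private theorem RR3_conj {n : ℕ} (V : (Matrix (Fin n) (Fin n) ℝ)ˣ) (l : Fin n → ℝ) (P : ℝ[X]) :
    aeval (V.1 * diagonal l * (V⁻¹ : (Matrix (Fin n) (Fin n) ℝ)ˣ).1) P =
      V.1 * diagonal (fun i => P.eval (l i)) * (V⁻¹ : (Matrix (Fin n) (Fin n) ℝ)ˣ).1 := by
  have hp : ∀ m : ℕ, (V.1 * diagonal l * (V⁻¹ : (Matrix (Fin n) (Fin n) ℝ)ˣ).1) ^ m =
      V.1 * diagonal (fun i => l i ^ m) * (V⁻¹ : (Matrix (Fin n) (Fin n) ℝ)ˣ).1 := by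
    intro m
    rw [Units.conj_pow, diagonal_pow]
    rfl
  induction P using Polynomial.induction_on' with
  | add p q hp hq =>
    rw [map_add, hp, hq, ← add_mul, ← mul_add, diagonal_add]
    congr 3
    funext i
    rw [eval_add]
  | monomial m a =>
    rw [aeval_monomial, hp]
    have h1 : (fun i => (monomial m a).eval (l i)) = a • fun i => l i ^ m := by
      funext i
      rw [eval_monomial]
      rfl
    rw [h1, diagonal_smul, Algebra.algebraMap_eq_smul_one, smul_mul_assoc, one_mul,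
      mul_smul_comm, smul_mul_assoc]

/-- **RR3.** The coordinates of the idempotents are algebraic.
PROOF. Port of `CGN.idem_alg` (CGN/ERb.lean): `w.hom` is only a homomorphism here, which is enough: the `l i` are roots of
`(minpoly F d).map w.emb`, so algebraic; `f = aeval (bE A w.emb d) P`. -/
theorem idem_algU (w : SPl A) {d : BF A} {V : (Matrix (Fin A.n) (Fin A.n) ℝ)ˣ} {l : Fin A.n → ℝ}
    (hl : Function.Injective l)
    (hd : w.hom (bE A w.emb d) = V.1 * diagonal l * (V⁻¹ : (Matrix (Fin A.n) (Fin A.n) ℝ)ˣ).1)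
    (k : ℕ) : ∃ f : BE A w.emb, (∀ i, IsAlgebraic ℤ (f.co i)) ∧
      w.hom f = V.1 * fk A.n k * (V⁻¹ : (Matrix (Fin A.n) (Fin A.n) ℝ)ˣ).1 := by
  classical
  have key : ∀ P : ℝ[X], w.hom (aeval (bE A w.emb d) P) =
      V.1 * diagonal (fun i => P.eval (l i)) * (V⁻¹ : (Matrix (Fin A.n) (Fin A.n) ℝ)ˣ).1 := by
    intro P
    have h1 : w.hom (aeval (bE A w.emb d) P) = aeval (w.hom (bE A w.emb d)) P :=
      (aeval_algHom_apply w.hom _ _).symm
    rw [h1, hd]
    exact RR3_conj V l P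
  -- the `l i` are algebraic
  have hl1 : ∀ i, IsAlgebraic ℚ (l i) := by
    intro i
    have hf : @Module.Finite F (BF A) _ NonUnitalNonAssocSemiring.toAddCommMonoid
        Algebra.toModule := (inferInstance : Module.Finite F (Fin 2 × Fin A.n × Fin A.n → F))
    have hi : IsIntegral F d := (@Algebra.IsIntegral.of_finite F (BF A) _ _ _ hf).isIntegral d
    have h1 : aeval (bE A w.emb d) ((minpoly F d).map w.emb) = 0 := by
      rw [← RR3_aeval, minpoly.aeval, map_zero]
    have h2 := key ((minpoly F d).map w.emb)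
    rw [h1, map_zero] at h2
    have h3 : diagonal (fun i => ((minpoly F d).map w.emb).eval (l i)) = 0 := by
      have h4 : (V⁻¹ : (Matrix (Fin A.n) (Fin A.n) ℝ)ˣ).1 *
          (V.1 * diagonal (fun i => ((minpoly F d).map w.emb).eval (l i)) *
            (V⁻¹ : (Matrix (Fin A.n) (Fin A.n) ℝ)ˣ).1) * V.1 =
          diagonal (fun i => ((minpoly F d).map w.emb).eval (l i)) := by
        rw [mul_assoc V.1, ← mul_assoc _ V.1, Units.inv_mul, one_mul, mul_assoc, Units.inv_mul,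
          mul_one]
      rw [← h4, ← h2, mul_zero, zero_mul]
    have h4 : ((minpoly F d).map w.emb).eval (l i) = 0 := by
      have h5 := congrFun (congrFun h3 i) i
      rwa [diagonal_apply_eq, Matrix.zero_apply] at h5
    let _ : Algebra F ℝ := w.emb.toAlgebra
    have h5 : IsScalarTower ℚ F ℝ := IsScalarTower.of_algebraMap_eq fun q => by
      rw [eq_ratCast, eq_ratCast, map_ratCast]
    have h6 : IsAlgebraic F (l i) := by
      refine ⟨minpoly F d, minpoly.ne_zero hi, ?_⟩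
      rw [eval_map] at h4
      exact h4
    exact h6.restrictScalars ℚ
  let 𝔸 := algebraicClosure ℚ ℝ
  have hl2 : ∀ i, l i ∈ 𝔸 := fun i => mem_algebraicClosure_iff.2 (hl1 i)
  let P : 𝔸[X] := Lagrange.interpolate Finset.univ (fun i : Fin A.n => (⟨l i, hl2 i⟩ : 𝔸))
    (fun i => if (i : ℕ) < k then 1 else 0)
  have hP : ∀ i, (P.map (algebraMap 𝔸 ℝ)).eval (l i) = if (i : ℕ) < k then 1 else 0 := by
    intro i
    have h1 : P.eval (⟨l i, hl2 i⟩ : 𝔸) = if (i : ℕ) < k then 1 else 0 :=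
      Lagrange.eval_interpolate_at_node (v := fun i : Fin A.n => (⟨l i, hl2 i⟩ : 𝔸))
        (fun i : Fin A.n => if (i : ℕ) < k then (1 : 𝔸) else 0)
        (fun a _ b _ hab => hl (congrArg Subtype.val hab)) (Finset.mem_univ i)
    have h2 : (P.map (algebraMap 𝔸 ℝ)).eval (algebraMap 𝔸 ℝ (⟨l i, hl2 i⟩ : 𝔸)) =
        algebraMap 𝔸 ℝ (P.eval (⟨l i, hl2 i⟩ : 𝔸)) := eval_map_apply ..
    rw [h1] at h2
    have h3 : algebraMap 𝔸 ℝ (⟨l i, hl2 i⟩ : 𝔸) = l i := rfl
    rw [h3] at h2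
    rw [h2]
    split_ifs
    · exact map_one _
    · exact map_zero _
  refine ⟨aeval (bE A w.emb d) (P.map (algebraMap 𝔸 ℝ)), ?_, ?_⟩
  · intro i
    have h1 : (aeval (bE A w.emb d) (P.map (algebraMap 𝔸 ℝ))).co i ∈ 𝔸 := by
      have h2 : (aeval (bE A w.emb d) (P.map (algebraMap 𝔸 ℝ))).co i =
          ∑ m ∈ Finset.range ((P.map (algebraMap 𝔸 ℝ)).natDegree + 1),
            (P.map (algebraMap 𝔸 ℝ)).coeff m * w.emb ((d ^ m).co i) := by
        rw [aeval_eq_sum_range]
        have h3 : ∀ x : BE A w.emb, x.co i = (A.sF.map w.emb).toSC.lin x i := fun _ => rfl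
        rw [h3, map_sum, Finset.sum_apply]
        refine Finset.sum_congr rfl fun m _ => ?_
        rw [← map_pow]
        rfl
      rw [h2]
      refine sum_mem fun m _ => mul_mem ?_ ?_
      · rw [coeff_map]
        exact (P.coeff m).2
      · refine mem_algebraicClosure_iff.2 ?_
        have h3 : IsAlgebraic ℚ ((d ^ m).co i) := Algebra.IsAlgebraic.isAlgebraic _
        exact h3.algHom w.emb.toRatAlgHom
    exact (IsFractionRing.isAlgebraic_iff ℤ ℚ ℝ).2 (mem_algebraicClosure_iff.1 h1)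
  · have h1 : (fun i => (P.map (algebraMap 𝔸 ℝ)).eval (l i)) =
        fun i : Fin A.n => if (i : ℕ) < k then (1 : ℝ) else 0 := funext hP
    rw [key, h1, fk]

end Pool.Agent.CGU
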