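import Pool.Agent.CGU.ERh
import Pool.Agent.CGN.ESa

/-!
# Part E': powers of elements of small groups at the finite places
-/

noncomputable section

set_option linter.unusedSectionVars false

namespace Pool.Agent.CGU

open NumberField IsDedekindDomain Matrix Polynomial
open Pool.Agent.CG2 (Pl Fv Ov GalF Fbar Zbar Over IsInertia IsFrob Nm)
open Pool.Agent.CG2.GalFinAux (below)
open Pool.Agent.CGQ
open Pool.Agent.CGN (SC Split abv ActsAs oF Cl T2p T2 T3p T3 RR pow_close)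

variable {F : Type} [Field F] [NumberField F] {K : Type} [Field K] [NumberField K] [Algebra F K]
variable {A : UD F} {S : Set (Pl F)}

/-- **SM1.** The elements of the stabilisers are congruent to `1` in the frame of `y`.
PROOF. As `CGN.stab_small` (CGN/ESa.lean): `mem_Stab'`: `act γ y = rt y κ`, `κ ∈ Kf`, so `κ.1 v = g⁻¹ * loc v γ * g` with `g = y.2.1 v`, and the
matrix `θ (κ.1 v)` is `psiE θ v g γ`: `hK κ hκ`. -/
theorem stab_smallU (θ : USpl A S) {v : {v : Pl F // v ∉ S}} {Kf : Subgroup (sysU A).A}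
    (hK : SmallAtU θ v Kf) (y : (sysU A).Pt) {γ : UF A} (hγ : (show (sysU A).G from γ) ∈ Stab Kf y)
    (i j : Fin A.n) :
    Valued.v ((psiE θ v (show UV A v.1 from y.2.1 v.1).1 γ.1.1 - 1) i j) < 1 := by
  obtain ⟨κ, hκ, h⟩ := mem_Stab'.1 hγ
  have h3 : diag (show (sysU A).G from γ) * y.2 = y.2 * κ := congrArg Prod.snd h
  have h4 : κ = y.2⁻¹ * diag (show (sysU A).G from γ) * y.2 := by
    rw [mul_assoc, h3, inv_mul_cancel_left]
  have h5 := hK κ hκ i j
  rw [h4] at h5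
  exact h5

/-- **SM2.** The conjugate of `psiE`. PROOF. As `CGN.phi_eq`. -/
theorem theta_eq (θ : USpl A S) (v : {v : Pl F // v ∉ S}) (g : (BV A v.1)ˣ) :
    ∃ G : (Matrix (Fin A.n) (Fin A.n) (Fv v.1))ˣ, ∀ x : BF A,
      θ.θ v (bloc A v.1 x) =
        G.1 * psiE θ v g x * (G⁻¹ : (Matrix (Fin A.n) (Fin A.n) (Fv v.1))ˣ).1 := by
  refine ⟨Units.map (θ.θ v : BV A v.1 →* Matrix (Fin A.n) (Fin A.n) (Fv v.1)) g, fun x => ?_⟩
  have h1 : (Units.map (θ.θ v : BV A v.1 →* Matrix (Fin A.n) (Fin A.n) (Fv v.1)) g).1 =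
      θ.θ v g.1 := rfl
  have h2 : ((Units.map (θ.θ v : BV A v.1 →* Matrix (Fin A.n) (Fin A.n) (Fv v.1)) g)⁻¹ :
      (Matrix (Fin A.n) (Fin A.n) (Fv v.1))ˣ).1 = θ.θ v (g⁻¹ : (BV A v.1)ˣ).1 := rfl
  have h3 : psiE θ v g x = θ.θ v ((g⁻¹ : (BV A v.1)ˣ).1 * bloc A v.1 x * g.1) := rfl
  rw [h1, h2, h3, ← map_mul, ← map_mul]
  congr 1
  simp only [mul_assoc]
  rw [Units.mul_inv, mul_one, ← mul_assoc, Units.mul_inv, one_mul]

variable [Algebra K (BF A)] [IsScalarTower F K (BF A)]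

/-- All the entries have valuation at most `r`. -/
private def SM3_B {v : Pl F} {n : ℕ} (r : WithZero (Multiplicative ℤ))
    (Z : Matrix (Fin n) (Fin n) (Fv v)) : Prop := ∀ i j, Valued.v (Z i j) ≤ r

private theorem SM3_exp_lt (γ : WithZero (Multiplicative ℤ)) (hγ : γ ≠ 0) :
    ∃ n : ℕ, WithZero.exp (-(n : ℤ)) < γ := by
  obtain ⟨m, rfl⟩ : ∃ m : ℤ, γ = WithZero.exp m := ⟨WithZero.log γ, (WithZero.exp_log hγ).symm⟩
  refine ⟨(1 - m).toNat, WithZero.exp_lt_exp.2 ?_⟩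
  have := Int.self_le_toNat (1 - m)
  omega

/-- The neighbourhoods of a point of `F_v`. -/
private theorem SM3_nhds (v : Pl F) (x : Fv v) {V : Set (Fv v)} (hV : V ∈ nhds x) :
    ∃ n : ℕ, ∀ y : Fv v, Valued.v (y - x) ≤ WithZero.exp (-(n : ℤ)) → y ∈ V := by
  obtain ⟨γ, hγ⟩ := Valued.mem_nhds.1 hV
  have h0 : MonoidWithZeroHom.ValueGroup₀.embedding γ.1 ≠ 0 := by
    rw [map_ne_zero_iff _ (MonoidWithZeroHom.ValueGroup₀.embedding_strictMono.injective)]
    exact γ.ne_zero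
  obtain ⟨n, hn⟩ := SM3_exp_lt _ h0
  refine ⟨n, fun y hy => hγ ?_⟩
  change Valued.v.restrict (y - x) < γ.1
  rw [Valuation.restrict_lt_iff_lt_embedding]
  exact lt_of_le_of_lt hy hn

/-- The neighbourhoods of a function of two variables. -/
private theorem SM3_nhdsF {v : Pl F} {n : ℕ} (M : Fin n → Fin n → Fv v)
    {V : Set (Fin n → Fin n → Fv v)} (hV : V ∈ nhds M) :
    ∃ m : ℕ, ∀ N : Fin n → Fin n → Fv v,
      (∀ i j, Valued.v (N i j - M i j) ≤ WithZero.exp (-(m : ℤ))) → N ∈ V := by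
  rw [nhds_pi, Filter.mem_pi'] at hV
  obtain ⟨I, t, ht, hIt⟩ := hV
  have h1 : ∀ i, ∃ m : ℕ, ∀ N : Fin n → Fv v,
      (∀ j, Valued.v (N j - M i j) ≤ WithZero.exp (-(m : ℤ))) → N ∈ t i := by
    intro i
    have h2 := ht i
    rw [nhds_pi, Filter.mem_pi'] at h2
    obtain ⟨J, u, hu, hJu⟩ := h2
    choose k hk using fun j => SM3_nhds v _ (hu j)
    refine ⟨∑ j, k j, fun N hN => hJu ?_⟩
    intro j _
    apply hk j
    refine (hN j).trans ?_
    rw [WithZero.exp_le_exp]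
    have h3 : k j ≤ ∑ j, k j :=
      Finset.single_le_sum (fun _ _ => Nat.zero_le _) (Finset.mem_univ j)
    have h4 : (k j : ℤ) ≤ ((∑ j, k j : ℕ) : ℤ) := by exact_mod_cast h3
    omega
  choose k hk using h1
  refine ⟨∑ i, k i, fun N hN => hIt ?_⟩
  intro i _
  apply hk i
  intro j
  refine (hN i j).trans ?_
  rw [WithZero.exp_le_exp]
  have h3 : k i ≤ ∑ i, k i :=
    Finset.single_le_sum (fun _ _ => Nat.zero_le _) (Finset.mem_univ i)
  have h4 : (k i : ℤ) ≤ ((∑ i, k i : ℕ) : ℤ) := by exact_mod_cast h3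
  omega

/-- The neighbourhoods of a matrix. -/
private theorem SM3_nhdsM {v : Pl F} {n : ℕ} (M : Matrix (Fin n) (Fin n) (Fv v))
    {V : Set (Matrix (Fin n) (Fin n) (Fv v))} (hV : V ∈ nhds M) :
    ∃ m : ℕ, ∀ N : Matrix (Fin n) (Fin n) (Fv v),
      SM3_B (WithZero.exp (-(m : ℤ))) (N - M) → N ∈ V := by
  obtain ⟨m, hm⟩ := SM3_nhdsF (fun i j => M i j) hV
  exact ⟨m, fun N hN => hm N hN⟩

private theorem SM3_l {v : Pl F} {ℓ : ℕ} (hℓ : ((ℓ : ℕ) : 𝓞 F) ∈ v.asIdeal) :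
    Valued.v ((ℓ : ℕ) : Fv v) < 1 := by
  have h1 : ((ℓ : ℕ) : Fv v) = oF v ((ℓ : ℕ) : 𝓞 F) := (map_natCast (oF v) ℓ).symm
  rw [h1, CGN.val_oF]
  exact (v.valuation_lt_one_iff_mem _).2 hℓ

/-- The image of `B` spans `B_v`, so elements commuting with it are central. -/
private theorem SM3_cen (v : Pl F) {z : BV A v} (hz : ∀ x : BF A, z * bloc A v x = bloc A v x * z)
    (g : BV A v) : z * g = g * z := by
  classical
  have h1 : g = ∑ i, g.co i • bloc A v (SC.Alg.mk (Pi.single i 1)) := by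
    apply SC.Alg.ext
    intro j
    have h2 : ∀ x : BV A v, x.co j = ((A.sF.map (algebraMap F (Fv v))).toSC.lin x) j :=
      fun _ => rfl
    rw [h2 (∑ i, _), map_sum, Finset.sum_apply]
    have h3 : ∀ i, ((A.sF.map (algebraMap F (Fv v))).toSC.lin
        (g.co i • bloc A v (SC.Alg.mk (Pi.single i 1)))) j = if i = j then g.co i else 0 := by
      intro i
      rw [map_smul, Pi.smul_apply, smul_eq_mul]
      have h4 : ((A.sF.map (algebraMap F (Fv v))).toSC.lin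
          (bloc A v (SC.Alg.mk (Pi.single i 1)))) j =
          algebraMap F (Fv v) ((Pi.single i (1 : F) : Fin 2 × Fin A.n × Fin A.n → F) j) := rfl
      rw [h4]
      by_cases hij : i = j
      · subst hij
        rw [Pi.single_eq_same, map_one, mul_one, if_pos rfl]
      · rw [Pi.single_eq_of_ne (fun h => hij h.symm), map_zero, mul_zero, if_neg hij]
    rw [Finset.sum_congr rfl fun i _ => h3 i, Finset.sum_ite_eq', if_pos (Finset.mem_univ j)]
  rw [h1, Finset.mul_sum, Finset.sum_mul]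
  refine Finset.sum_congr rfl fun i _ => ?_
  rw [mul_smul_comm, smul_mul_assoc, hz]

private theorem SM3_psi_aeval (θ : USpl A S) (v : {v : Pl F // v ∉ S}) {i : K →+* Fv v.1}
    (hi : IsSc (θ.θ v) i) (g : (BV A v.1)ˣ)
    (c : BF A) (P : K[X]) :
    psiE θ v g (aeval c P) = aeval (psiE θ v g c) (P.map i) := by
  have h : ∀ r : K, psiE θ v g (algebraMap K (BF A) r) =
      algebraMap (Fv v.1) (Matrix (Fin A.n) (Fin A.n) (Fv v.1)) (i r) := by
    intro r
    have h1 : bloc A v.1 (algebraMap K (BF A) r) * g.1 =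
        g.1 * bloc A v.1 (algebraMap K (BF A) r) := by
      apply SM3_cen
      intro x
      rw [← map_mul, ← map_mul, Algebra.commutes]
    have h2 : psiE θ v g (algebraMap K (BF A) r) =
        θ.θ v ((g⁻¹ : (BV A v.1)ˣ).1 * bloc A v.1 (algebraMap K (BF A) r) * g.1) := rfl
    rw [h2, mul_assoc, h1, ← mul_assoc, Units.inv_mul, one_mul]
    exact hi.2 r
  rw [aeval_def, hom_eval₂, aeval_def, eval₂_map]
  congr 1
  exact RingHom.ext h

/-- **SM3.** Stability of open conditions.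
PROOF. As `CGN.loc_close` (CGN/ESa.lean, with its private lemmas `SA1_..`, `SA4_..`). Difference: the polynomial `P` has coefficients in `K`:
`psiE θ v g (aeval c P) = aeval (psiE θ v g c) (P.map i)` because `psiE θ v g (algebraMap K _ a) = algebraMap _ _ (i a)`
(`algebraMap K _ a` is central in `B`: `Algebra.commutes`; its image in `BV` commutes with the image of `B`, and it commutes with `g` too:
the image of `B` spans `BV A v` over `Fv v` (coordinates); then `hi`). -/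
theorem loc_closeU (θ : USpl A S) {v : {v : Pl F // v ∉ S}} {i : K →+* Fv v.1}
    (hi : IsSc (θ.θ v) i) {Kf : Subgroup (sysU A).A}
    (hK : SmallAtU θ v Kf) (y : (sysU A).Pt) {c₀ d : UF A}
    (hc : (show (sysU A).G from c₀) ∈ Stab Kf y) (hd : (show (sysU A).G from d) ∈ Stab Kf y)
    {ℓ : ℕ} (hℓ : ((ℓ : ℕ) : 𝓞 F) ∈ v.1.asIdeal)
    {T : Set (Matrix (Fin A.n) (Fin A.n) (Fv v.1))} (hT : IsOpen T)
    (hconj : ∀ (G : (Matrix (Fin A.n) (Fin A.n) (Fv v.1))ˣ), ∀ M ∈ T,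
      G.1 * M * (G⁻¹ : (Matrix (Fin A.n) (Fin A.n) (Fv v.1))ˣ).1 ∈ T) {P : K[X]}
    (hP : θ.θ v (bloc A v.1 (aeval d.1.1 P)) ∈ T) :
    ∃ m : ℕ, ∀ b ≥ m, ∀ s : ℕ,
      θ.θ v (bloc A v.1 (aeval (c₀.1.1 ^ ℓ ^ b * d.1.1 ^ (1 + ℓ ^ b * s)) P)) ∈ T := by
  obtain ⟨G, hG⟩ := theta_eq θ v (show UV A v.1 from y.2.1 v.1).1
  have hs1 := stab_smallU θ hK y hc
  have hs2 := stab_smallU θ hK y hd
  set ψ := psiE θ v (show UV A v.1 from y.2.1 v.1).1 with hψ
  have hl := SM3_l hℓ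
  -- membership in `T` may be tested after conjugation
  have hT2 : ∀ x : BF A, θ.θ v (bloc A v.1 x) ∈ T ↔ ψ x ∈ T := by
    intro x
    constructor
    · intro h
      have h1 := hconj G⁻¹ _ h
      rw [hG x, inv_inv] at h1
      have h2 : (G⁻¹ : (Matrix (Fin A.n) (Fin A.n) (Fv v.1))ˣ).1 *
          (G.1 * ψ x * (G⁻¹ : (Matrix (Fin A.n) (Fin A.n) (Fv v.1))ˣ).1) * G.1 = ψ x := by
        simp only [mul_assoc]
        rw [Units.inv_mul, mul_one, ← mul_assoc, Units.inv_mul, one_mul]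
      rwa [h2] at h1
    · intro h
      rw [hG x]
      exact hconj G _ h
  have hcont : Continuous fun p : Matrix (Fin A.n) (Fin A.n) (Fv v.1) ×
      Matrix (Fin A.n) (Fin A.n) (Fv v.1) =>
      aeval (p.1 * ψ d.1.1 * p.2) (P.map i) :=
    (Polynomial.continuous_aeval _).comp
      ((continuous_fst.mul continuous_const).mul continuous_snd)
  have hmem : (fun p : Matrix (Fin A.n) (Fin A.n) (Fv v.1) ×
      Matrix (Fin A.n) (Fin A.n) (Fv v.1) =>
      aeval (p.1 * ψ d.1.1 * p.2) (P.map i)) ⁻¹' T ∈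
      nhds ((1 : Matrix (Fin A.n) (Fin A.n) (Fv v.1)), (1 : Matrix (Fin A.n) (Fin A.n) (Fv v.1))) := by
    refine (hT.preimage hcont).mem_nhds ?_
    change aeval (1 * ψ d.1.1 * 1) (P.map i) ∈ T
    rw [one_mul, mul_one, ← SM3_psi_aeval θ v hi]
    exact (hT2 _).1 hP
  obtain ⟨V1, hV1, V2, hV2, h12⟩ := mem_nhds_prod_iff.1 hmem
  obtain ⟨m1, hm1⟩ := SM3_nhdsM _ hV1
  obtain ⟨m2, hm2⟩ := SM3_nhdsM _ hV2
  refine ⟨max m1 m2, fun b hb s => (hT2 _).2 ?_⟩
  have hb1 : m1 ≤ b := (le_max_left _ _).trans hb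
  have hb2 : m2 ≤ b := (le_max_right _ _).trans hb
  have h1 : ψ c₀.1.1 ^ ℓ ^ b ∈ V1 := by
    refine hm1 _ fun i j => ?_
    have h := pow_close hs1 hl b 1 i j
    rw [mul_one] at h
    refine h.trans ?_
    rw [WithZero.exp_le_exp]
    push_cast
    omega
  have h2 : ψ d.1.1 ^ (ℓ ^ b * s) ∈ V2 := by
    refine hm2 _ fun i j => ?_
    refine (pow_close hs2 hl b s i j).trans ?_
    rw [WithZero.exp_le_exp]
    push_cast
    omega
  have h3 := h12 (Set.mk_mem_prod h1 h2)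
  have h4 : aeval (ψ c₀.1.1 ^ ℓ ^ b * ψ d.1.1 * ψ d.1.1 ^ (ℓ ^ b * s)) (P.map i) ∈ T :=
    h3
  rw [SM3_psi_aeval θ v hi, map_mul, map_pow, map_pow, pow_add, pow_one, ← mul_assoc]
  exact h4

/-- **SM4.** Convergence of the powers.
PROOF. Let `g = y.2.1 v`, `ψ = psiE θ v g`. By SM1 and `pow_close` the entries of `ψ c₀ ^ (ℓ ^ b) - 1 = ψ (c₀ ^ ℓ ^ b) - 1` have valuation `≤ exp (-(b+1))`, so
`ψ (c₀ ^ ℓ ^ b) → 1`, and by SM2 `θ (c₀ ^ ℓ ^ b) → 1`. The same for `c₀⁻¹` (in the stabiliser too), and `star (c₀ ^ ℓ ^ b) = (c₀⁻¹) ^ ℓ ^ b` as elements of `BF A`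
(`star_eq_inv`). By `exists_rho` for `θ_v`: `x = ρ (θ x) + star (ρ (θ (star x)))`, a continuous function (`lin_cont`, `continuous_star_alg`) of
`(θ x, θ (star x)) → (1, 1)`, with the value `1` at `(1, 1)` (the formula for `x = 1`). -/
theorem stab_tendstoU (hU : Uni A K) (hn : 1 ≤ A.n) (θ : USpl A S) {v : {v : Pl F // v ∉ S}}
    {Kf : Subgroup (sysU A).A} (hK : SmallAtU θ v Kf) (y : (sysU A).Pt) {c₀ : UF A}
    (hc : (show (sysU A).G from c₀) ∈ Stab Kf y) {ℓ : ℕ}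
    (hℓ : ((ℓ : ℕ) : 𝓞 F) ∈ v.1.asIdeal) :
    Filter.Tendsto (fun b : ℕ => bloc A v.1 (c₀.1.1 ^ ℓ ^ b)) Filter.atTop (nhds 1) := by
  have key : ∀ {a : UF A}, (show (sysU A).G from a) ∈ Stab Kf y →
      Filter.Tendsto (fun b : ℕ => θ.θ v (bloc A v.1 (a.1.1 ^ ℓ ^ b))) Filter.atTop (nhds 1) := by
    intro a ha
    have hs1 := stab_smallU θ hK y ha
    have hl := SM3_l hℓ
    obtain ⟨G, hG⟩ := theta_eq θ v (show UV A v.1 from y.2.1 v.1).1
    have hm : Filter.Tendsto (fun b : ℕ =>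
        psiE θ v (show UV A v.1 from y.2.1 v.1).1 a.1.1 ^ ℓ ^ b) Filter.atTop (nhds 1) := by
      intro V hV
      obtain ⟨m, hm⟩ := SM3_nhdsM _ hV
      rw [Filter.mem_map]
      filter_upwards [Filter.eventually_ge_atTop m] with b hb
      refine hm _ fun i j => ?_
      have h := pow_close hs1 hl b 1 i j
      rw [mul_one] at h
      refine h.trans ?_
      rw [WithZero.exp_le_exp]
      push_cast
      omega
    have hcont : Continuous fun M : Matrix (Fin A.n) (Fin A.n) (Fv v.1) =>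
        G.1 * M * (G⁻¹ : (Matrix (Fin A.n) (Fin A.n) (Fv v.1))ˣ).1 :=
      (continuous_const.mul continuous_id).mul continuous_const
    have h1 := (hcont.tendsto 1).comp hm
    rw [mul_one, Units.mul_inv] at h1
    refine h1.congr fun b => ?_
    rw [hG, map_pow]
    rfl
  obtain ⟨ρ, -, -, hρ⟩ := exists_rho hU hn (θ.θ v)
  have h1 := key hc
  have hc' : (show (sysU A).G from c₀⁻¹) ∈ Stab Kf y := (Stab Kf y).inv_mem hc
  have h2 := key hc'
  have h3 : ∀ b : ℕ, star (bloc A v.1 (c₀.1.1 ^ ℓ ^ b)) =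
      bloc A v.1 ((c₀⁻¹ : UF A).1.1 ^ ℓ ^ b) := by
    intro b
    rw [← bE_star, star_pow, star_eq_inv c₀.2]
    rfl
  have hρc := lin_cont ρ
  have hadd : ContinuousAdd (BV A v.1) :=
    (inferInstance : ContinuousAdd (Fin 2 × Fin A.n × Fin A.n → Fv v.1))
  have h4 : Filter.Tendsto (fun b : ℕ => ρ (θ.θ v (bloc A v.1 (c₀.1.1 ^ ℓ ^ b))) +
      star (ρ (θ.θ v (bloc A v.1 ((c₀⁻¹ : UF A).1.1 ^ ℓ ^ b))))) Filter.atTop
      (nhds (ρ 1 + star (ρ 1))) := by
    refine Filter.Tendsto.add ((hρc.tendsto 1).comp h1) ?_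
    exact ((continuous_star_alg.comp hρc).tendsto 1).comp h2
  have h5 : ρ 1 + star (ρ 1) = (1 : BV A v.1) := by
    have h6 := hρ 1
    rw [star_one, map_one] at h6
    exact h6.symm
  rw [h5] at h4
  refine h4.congr fun b => ?_
  have h6 := hρ (bloc A v.1 (c₀.1.1 ^ ℓ ^ b))
  rw [h3] at h6
  exact h6.symm

end Pool.Agent.CGU
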