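import Pool.Agent.CGU.EDf
import Pool.Agent.CGN.EUa

/-!
# Part E': units of norm one of `M`
-/

noncomputable section

set_option linter.unusedSectionVars false

namespace Pool.Agent.CGU

open NumberField IsDedekindDomain Matrix Polynomial
open Pool.Agent.CGQ

variable {F : Type} [Field F] [NumberField F] {K : Type} [Field K] [NumberField K] [Algebra F K]
variable {M : Type} [Field M] [NumberField M] [Algebra F M] [Algebra K M] {τ : M ≃ₐ[F] M}
  (hτ : ∀ y, τ (τ y) = y)

include hτ

omit hτ in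
private theorem UN1_ne {L : Type} [Field L] [NumberField L] (u : (𝓞 L)ˣ) :
    ((u : 𝓞 L) : L) ≠ 0 := by
  intro h
  exact u.ne_zero (RingOfIntegers.ext h)

omit hτ in
private theorem UN1_mul {L : Type} [Field L] [NumberField L] (a b : (𝓞 L)ˣ) :
    (((a * b : (𝓞 L)ˣ) : 𝓞 L) : L) = ((a : 𝓞 L) : L) * ((b : 𝓞 L) : L) := by
  rw [Units.val_mul]
  exact map_mul (algebraMap (𝓞 L) L) _ _

omit hτ in
private theorem UN1_log {L : Type} [Field L] [NumberField L] (w : InfinitePlace L)
    (a b : (𝓞 L)ˣ) : Real.log (w (((a : 𝓞 L) : L) * ((b : 𝓞 L) : L))) =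
      Real.log (w ((a : 𝓞 L) : L)) + Real.log (w ((b : 𝓞 L) : L)) := by
  rw [map_mul, Real.log_mul]
  · exact fun h => UN1_ne a ((map_eq_zero w).1 h)
  · exact fun h => UN1_ne b ((map_eq_zero w).1 h)

omit hτ in
private theorem UN1_lm {L : Type} [Field L] [NumberField L] (w : InfinitePlace L)
    (a b : (𝓞 L)ˣ) : Real.log (w (((a * b : (𝓞 L)ˣ) : 𝓞 L) : L)) =
      Real.log (w ((a : 𝓞 L) : L)) + Real.log (w ((b : 𝓞 L) : L)) := by
  rw [UN1_mul, UN1_log]

private theorem UN1_eps (δ : (𝓞 M)ˣ) : ∃ ε : (𝓞 M)ˣ,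
    τ ((ε : 𝓞 M) : M) * ((ε : 𝓞 M) : M) = 1 ∧
      ∀ V : InfinitePlace M, Real.log (V ((ε : 𝓞 M) : M)) =
        Real.log (V ((δ : 𝓞 M) : M)) -
          Real.log ((V.comap (τ : M →+* M)) ((δ : 𝓞 M) : M)) := by
  obtain ⟨T, hT⟩ : ∃ T : (𝓞 M)ˣ, ((T : 𝓞 M) : M) = τ ((δ : 𝓞 M) : M) :=
    ⟨Units.map (RingOfIntegers.mapRingHom (τ : M →+* M) : 𝓞 M →* 𝓞 M) δ, rfl⟩
  obtain ⟨S, hS⟩ : ∃ S : (𝓞 M)ˣ, S * T = 1 := ⟨T⁻¹, inv_mul_cancel T⟩
  have hd0 := UN1_ne δ
  have hT0 := UN1_ne T
  have hST : ((S : 𝓞 M) : M) * ((T : 𝓞 M) : M) = 1 := by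
    rw [← UN1_mul, hS]
    simp
  have hS1 : ((S : 𝓞 M) : M) = (τ ((δ : 𝓞 M) : M))⁻¹ := by
    rw [← hT]
    exact eq_inv_of_mul_eq_one_left hST
  refine ⟨δ * S, ?_, fun V => ?_⟩
  · rw [UN1_mul, hS1, map_mul, map_inv₀, hτ]
    have h1 : τ ((δ : 𝓞 M) : M) ≠ 0 := by
      rw [← hT]
      exact hT0
    field_simp
  · rw [UN1_lm, hS1, map_inv₀, Real.log_inv, sub_eq_add_neg]
    rfl

omit hτ in
open Classical in
private theorem UN1_single (V : InfinitePlace M) (x : M) :
    ∑ W : InfinitePlace M, (if W = V then (1 : ℝ) else 0) * Real.log (W x) =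
      Real.log (V x) := by
  rw [Finset.sum_eq_single V]
  · rw [if_pos rfl, one_mul]
  · intro W _ hW
    rw [if_neg hW, zero_mul]
  · intro h
    exact absurd (Finset.mem_univ _) h

private theorem UN1_inv (V : InfinitePlace M) :
    (V.comap (τ : M →+* M)).comap (τ : M →+* M) = V := by
  apply InfinitePlace.ext
  intro x
  change V (τ (τ x)) = V x
  rw [hτ]

/-- **UN1.** A unit of norm one with different absolute values.
PROOF. `ε = δ / τ δ` for a unit `δ` (`Units.map` of `τ` restricted to `𝓞 M`: `RingOfIntegers.mapRingEquiv` or similar); `τ ε * ε = 1` by `hτ`. `V ε = V δ / (V.comap τ) δ`.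
`CGQ.exists_forall_ne_zero` (compare `CGN.exists_sep_unit`, CGN/EUa.lean) for the group `(𝓞 M)ˣ`, the finite index set of the pairs `(V, V')` with `V ≠ V'` and (`V.comap τ ≠ V` or
`V'.comap τ ≠ V'`), and `l (V, V') δ = log V δ - log (V.comap τ) δ - log V' δ + log (V'.comap τ) δ = ∑ W, k W * log (W δ)` with
`k = [V] - [V.comap τ] - [V'] + [V'.comap τ]` (`[V] = Pi.single V 1`). It is not identically zero by `CGQ.exists_unit_sum_ne`: if `V.comap τ ≠ V` then `k V = 1 + [V'.comap τ = V] > 0` and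
`k (V.comap τ) = -1 - [V' = V.comap τ] < 0` (`V'.comap τ = V.comap τ` implies `V' = V`); if `V'.comap τ ≠ V'` then `k V' < 0` and `k (V'.comap τ) > 0`. `l ≠ 0` gives `V ε ≠ V' ε` (positive numbers). -/
theorem exists_sepU : ∃ ε : (𝓞 M)ˣ, τ ((ε : 𝓞 M) : M) * ((ε : 𝓞 M) : M) = 1 ∧
    ∀ V V' : InfinitePlace M, V ≠ V' →
      (V.comap (τ : M →+* M) ≠ V ∨ V'.comap (τ : M →+* M) ≠ V') →
      V ((ε : 𝓞 M) : M) ≠ V' ((ε : 𝓞 M) : M) := by
  classical
  have hmp : ∀ w : InfinitePlace M, (0 : ℝ) < w.mult := fun w => by exact_mod_cast w.mult_pos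
  have hinj : ∀ V V' : InfinitePlace M, V.comap (τ : M →+* M) = V'.comap (τ : M →+* M) →
      V = V' := by
    intro V V' h
    rw [← UN1_inv hτ V, ← UN1_inv hτ V', h]
  obtain ⟨δ, hδ⟩ := exists_forall_ne_zero (G := (𝓞 M)ˣ)
    (ι := {p : InfinitePlace M × InfinitePlace M // p.1 ≠ p.2 ∧
      (p.1.comap (τ : M →+* M) ≠ p.1 ∨ p.2.comap (τ : M →+* M) ≠ p.2)})
    (fun p u => (Real.log (p.1.1 ((u : 𝓞 M) : M)) -
      Real.log ((p.1.1.comap (τ : M →+* M)) ((u : 𝓞 M) : M))) -
      (Real.log (p.1.2 ((u : 𝓞 M) : M)) -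
      Real.log ((p.1.2.comap (τ : M →+* M)) ((u : 𝓞 M) : M))))
    (by
      intro p a b
      simp only [UN1_lm]
      ring)
    (by
      rintro ⟨⟨V, V'⟩, hne, hor⟩
      have hne : V ≠ V' := hne
      have hor : V.comap (τ : M →+* M) ≠ V ∨ V'.comap (τ : M →+* M) ≠ V' := hor
      obtain ⟨k, hk⟩ : ∃ k : InfinitePlace M → ℝ, k = fun W =>
        ((if W = V then (1 : ℝ) else 0) - (if W = V.comap (τ : M →+* M) then (1 : ℝ) else 0)) -
        ((if W = V' then (1 : ℝ) else 0) -
          (if W = V'.comap (τ : M →+* M) then (1 : ℝ) else 0)) := ⟨_, rfl⟩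
      have hne2 : V.comap (τ : M →+* M) ≠ V'.comap (τ : M →+* M) := fun h => hne (hinj _ _ h)
      have hkc : ∃ w w' : InfinitePlace M, k w * w'.mult ≠ k w' * w.mult := by
        rcases hor with hV | hV
        · refine ⟨V, V.comap (τ : M →+* M), ?_⟩
          have h1 : 0 < k V := by
            rw [hk]
            simp only [if_true, if_neg hne, if_neg hV.symm]
            split_ifs <;> norm_num
          have h2 : k (V.comap (τ : M →+* M)) < 0 := by
            rw [hk]
            simp only [if_true, if_neg hne2, if_neg hV]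
            split_ifs <;> norm_num
          have h3 := mul_pos h1 (hmp (V.comap (τ : M →+* M)))
          have h4 := mul_neg_of_neg_of_pos h2 (hmp V)
          intro h
          linarith
        · refine ⟨V', V'.comap (τ : M →+* M), ?_⟩
          have h1 : k V' < 0 := by
            rw [hk]
            simp only [if_true, if_neg hne.symm, if_neg hV.symm]
            split_ifs <;> norm_num
          have h2 : 0 < k (V'.comap (τ : M →+* M)) := by
            rw [hk]
            simp only [if_true, if_neg hne2.symm, if_neg hV]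
            split_ifs <;> norm_num
          have h3 := mul_neg_of_neg_of_pos h1 (hmp (V'.comap (τ : M →+* M)))
          have h4 := mul_pos h2 (hmp V')
          intro h
          linarith
      obtain ⟨u, hu⟩ := exists_unit_sum_ne (K := M) k hkc
      refine ⟨u, ?_⟩
      rw [hk] at hu
      simp only [sub_mul, Finset.sum_sub_distrib, UN1_single] at hu
      exact hu)
  obtain ⟨ε, hε1, hε⟩ := UN1_eps hτ δ
  refine ⟨ε, hε1, fun V V' h1 h2 h3 => hδ ⟨(V, V'), h1, h2⟩ ?_⟩
  change (Real.log (V ((δ : 𝓞 M) : M)) -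
      Real.log ((V.comap (τ : M →+* M)) ((δ : 𝓞 M) : M))) -
      (Real.log (V' ((δ : 𝓞 M) : M)) -
      Real.log ((V'.comap (τ : M →+* M)) ((δ : 𝓞 M) : M))) = 0
  rw [← hε V, ← hε V', h3, sub_self]

variable {c : K ≃ₐ[F] K} (hτc : ∀ a : K, τ (algebraMap K M a) = algebraMap K M (c a))
  {X : Set (InfinitePlace K)} (hX : ∀ w ∈ X, w.comap (c : K →+* K) ∉ X)

include hτc hX

private theorem UN2_res (V : InfinitePlace M)
    (hV : V.comap (algebraMap K M) ∈ X) :
    (V.comap (τ : M →+* M)).comap (algebraMap K M) ∉ X := by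
  have h1 : (V.comap (τ : M →+* M)).comap (algebraMap K M) =
      (V.comap (algebraMap K M)).comap (c : K →+* K) := by
    apply InfinitePlace.ext
    intro x
    change V (τ (algebraMap K M x)) = V (algebraMap K M (c x))
    rw [hτc]
  rw [h1]
  exact hX _ hV

/-- **UN2.** Its powers are not in `K`.
PROOF. The map `V ↦ V.comap (algebraMap K M)` from the set `Y` of the `V` with restriction in `X` to `X` is not injective (`Nat.card X < Nat.card Y`): `V ≠ V'` in `Y` with the same restriction `w₁ ∈ X`.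
`V.comap τ ≠ V`: its restriction is `w₁.comap c`, which is not in `X` (`hτc`, `hX`). So `V ε ≠ V' ε`. If `ε ^ m = algebraMap f` then `(V ε) ^ m = w₁ f = (V' ε) ^ m`, so
`V ε = V' ε` (`0 < m`). -/
theorem pow_not_memU
    (hcard : Nat.card X + 1 ≤ Nat.card {V : InfinitePlace M // V.comap (algebraMap K M) ∈ X})
    {ε : (𝓞 M)ˣ} (hε : ∀ V V' : InfinitePlace M, V ≠ V' →
      (V.comap (τ : M →+* M) ≠ V ∨ V'.comap (τ : M →+* M) ≠ V') →
      V ((ε : 𝓞 M) : M) ≠ V' ((ε : 𝓞 M) : M)) {m : ℕ} (hm : 0 < m) :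
    ((ε : 𝓞 M) : M) ^ m ∉ Set.range (algebraMap K M) := by
  rintro ⟨f, hf⟩
  have h1 : ¬ Function.Injective
      (fun V : {V : InfinitePlace M // V.comap (algebraMap K M) ∈ X} =>
        (⟨V.1.comap (algebraMap K M), V.2⟩ : X)) := by
    intro h
    have h0 : Nat.card {V : InfinitePlace M // V.comap (algebraMap K M) ∈ X} ≤ Nat.card X :=
      Nat.card_le_card_of_injective _ h
    omega
  rw [Function.Injective] at h1
  push Not at h1
  obtain ⟨V, V', h2, h3⟩ := h1
  have h2 : V.1.comap (algebraMap K M) = V'.1.comap (algebraMap K M) := congrArg Subtype.val h2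
  have h3 : V.1 ≠ V'.1 := fun h => h3 (Subtype.ext h)
  have h5 : V.1.comap (τ : M →+* M) ≠ V.1 := by
    intro h
    have h6 := UN2_res hτ hτc hX V.1 V.2
    rw [h] at h6
    exact h6 V.2
  refine hε V.1 V'.1 h3 (Or.inl h5) ?_
  have h4 : V.1 (((ε : 𝓞 M) : M) ^ m) = V'.1 (((ε : 𝓞 M) : M) ^ m) := by
    rw [← hf]
    change (V.1.comap (algebraMap K M)) f = (V'.1.comap (algebraMap K M)) f
    rw [h2]
  rw [map_pow, map_pow] at h4
  exact (pow_left_inj₀ (apply_nonneg V.1 _) (apply_nonneg V'.1 _) hm.ne').1 h4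

omit hτ hτc hX in
open Classical in
private theorem UN3_form (u : (𝓞 M)ˣ)
    (hcard : Nat.card X + 2 ≤ Nat.card {V : InfinitePlace M // V.comap (algebraMap K M) ∈ X} ∨
      (u = 1 ∧
        Nat.card X + 1 ≤ Nat.card {V : InfinitePlace M // V.comap (algebraMap K M) ∈ X})) :
    ∃ k : InfinitePlace M → ℝ, k ≠ 0 ∧
      (∀ V : InfinitePlace M, V.comap (algebraMap K M) ∉ X → k V = 0) ∧
      (∀ v : InfinitePlace K, ∑ w : InfinitePlace M,
        (if w.comap (algebraMap K M) = v then k w else 0) = 0) ∧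
      ∑ w : InfinitePlace M, k w * Real.log (w ((u : 𝓞 M) : M)) = 0 := by
  let f₀ : (InfinitePlace M → ℝ) →ₗ[ℝ]
      ({V : InfinitePlace M // ¬ V.comap (algebraMap K M) ∈ X} → ℝ) :=
    { toFun := fun k V => k V.1
      map_add' := fun k k' => rfl
      map_smul' := fun r k => rfl }
  let f₁ : (InfinitePlace M → ℝ) →ₗ[ℝ] (X → ℝ) :=
    { toFun := fun k v => ∑ w : InfinitePlace M,
        (if w.comap (algebraMap K M) = v.1 then k w else 0)
      map_add' := fun k k' => by
        funext v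
        rw [Pi.add_apply, ← Finset.sum_add_distrib]
        refine Finset.sum_congr rfl fun w _ => ?_
        split_ifs
        · rfl
        · rw [add_zero]
      map_smul' := fun r k => by
        funext v
        rw [Pi.smul_apply, Finset.smul_sum]
        refine Finset.sum_congr rfl fun w _ => ?_
        split_ifs
        · rfl
        · rw [RingHom.id_apply, smul_zero] }
  let f₂ : (InfinitePlace M → ℝ) →ₗ[ℝ] ℝ :=
    { toFun := fun k => ∑ w : InfinitePlace M, k w * Real.log (w ((u : 𝓞 M) : M))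
      map_add' := fun k k' => by
        rw [← Finset.sum_add_distrib]
        refine Finset.sum_congr rfl fun w _ => ?_
        rw [Pi.add_apply, add_mul]
      map_smul' := fun r k => by
        rw [RingHom.id_apply, Finset.smul_sum]
        refine Finset.sum_congr rfl fun w _ => ?_
        rw [Pi.smul_apply, smul_eq_mul, smul_eq_mul, mul_assoc] }
  have hX1 : Nat.card X = Fintype.card X := Nat.card_eq_fintype_card
  have hY1 : Nat.card {V : InfinitePlace M // V.comap (algebraMap K M) ∈ X} =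
      Fintype.card {V : InfinitePlace M // V.comap (algebraMap K M) ∈ X} :=
    Nat.card_eq_fintype_card
  have hY2 : Fintype.card {V : InfinitePlace M // ¬ V.comap (algebraMap K M) ∈ X} =
      Fintype.card (InfinitePlace M) -
      Fintype.card {V : InfinitePlace M // V.comap (algebraMap K M) ∈ X} :=
    Fintype.card_subtype_compl _
  have hY3 : Fintype.card {V : InfinitePlace M // V.comap (algebraMap K M) ∈ X} ≤
      Fintype.card (InfinitePlace M) := Fintype.card_subtype_le _
  have hmain : ∃ k : InfinitePlace M → ℝ, k ≠ 0 ∧ f₀ k = 0 ∧ f₁ k = 0 ∧ f₂ k = 0 := by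
    rcases hcard with hc | ⟨hu, hc⟩
    · have h1 : LinearMap.ker (f₀.prod (f₁.prod f₂)) ≠ ⊥ := by
        apply LinearMap.ker_ne_bot_of_finrank_lt
        rw [Module.finrank_prod, Module.finrank_prod, Module.finrank_fintype_fun_eq_card,
          Module.finrank_self, Module.finrank_fintype_fun_eq_card,
          Module.finrank_fintype_fun_eq_card]
        omega
      obtain ⟨k, hk1, hk0⟩ := Submodule.exists_mem_ne_zero_of_ne_bot h1
      rw [LinearMap.mem_ker] at hk1
      have hk3 : f₀ k = 0 := congrArg Prod.fst hk1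
      have hk4 : f₁ k = 0 := congrArg (fun z => z.2.1) hk1
      have hk5 : f₂ k = 0 := congrArg (fun z => z.2.2) hk1
      exact ⟨k, hk0, hk3, hk4, hk5⟩
    · have h1 : LinearMap.ker (f₀.prod f₁) ≠ ⊥ := by
        apply LinearMap.ker_ne_bot_of_finrank_lt
        rw [Module.finrank_prod, Module.finrank_fintype_fun_eq_card,
          Module.finrank_fintype_fun_eq_card, Module.finrank_fintype_fun_eq_card]
        omega
      obtain ⟨k, hk1, hk0⟩ := Submodule.exists_mem_ne_zero_of_ne_bot h1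
      rw [LinearMap.mem_ker] at hk1
      have hk3 : f₀ k = 0 := congrArg Prod.fst hk1
      have hk4 : f₁ k = 0 := congrArg Prod.snd hk1
      refine ⟨k, hk0, hk3, hk4, ?_⟩
      change ∑ w : InfinitePlace M, k w * Real.log (w ((u : 𝓞 M) : M)) = 0
      refine Finset.sum_eq_zero fun w _ => ?_
      rw [hu]
      have h2 : (((1 : (𝓞 M)ˣ) : 𝓞 M) : M) = 1 := by simp
      rw [h2, map_one, Real.log_one, mul_zero]
  obtain ⟨k, hk0, hk1, hk2, hk3⟩ := hmain
  have hk1 : ∀ V : InfinitePlace M, V.comap (algebraMap K M) ∉ X → k V = 0 :=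
    fun V hV => congrFun hk1 ⟨V, hV⟩
  refine ⟨k, hk0, hk1, fun v => ?_, hk3⟩
  by_cases hv : v ∈ X
  · exact congrFun hk2 ⟨v, hv⟩
  · refine Finset.sum_eq_zero fun w _ => ?_
    split_ifs with h
    · exact hk1 w (by rw [h]; exact hv)
    · rfl

/-- **UN3.** A unit of norm one independent of `u` modulo `K`.
PROOF. (Compare `CGN.exists_indep`, CGN/EUa.lean.) Let `Y` be the set of the places `V` of `M` with restriction in `X`. Linear algebra: there is a nonzero `k : InfinitePlace M → ℝ`, zero outside `Y`, with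
(i) `∑_{V above w₁} k V = 0` for all `w₁ ∈ X` and (ii) `∑ k V log (V u) = 0` (automatic for `u = 1`): the kernel of a linear map from `ℝ ^ Y` to `ℝ ^ X × ℝ` (or `ℝ ^ X`). Let
`L x = ∑_{V ∈ Y} k V * log (V x)`: `L (algebraMap f) = 0` for `f ∈ K` by (i), `L u = 0`. For `e = δ / τ δ`: `L e = ∑_V (k V - k (V.comap τ)) log (V δ)` (reindex by the involution
`V ↦ V.comap τ`), and `k' V = k V - k (V.comap τ)` is not proportional to `mult`: `k V₀ ≠ 0` for some `V₀ ∈ Y`, `V₀.comap τ ∉ Y` (`hX`), so `k' V₀ = k V₀` and `k' (V₀.comap τ) = - k V₀`. By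
`CGQ.exists_unit_sum_ne` there is `δ` with `L e ≠ 0`. `e ^ a = u ^ b * f` gives `a * L e = b * L u + L f = 0` (`f ≠ 0`). -/
theorem exists_indepU (u : (𝓞 M)ˣ)
    (hcard : Nat.card X + 2 ≤ Nat.card {V : InfinitePlace M // V.comap (algebraMap K M) ∈ X} ∨
      (u = 1 ∧
        Nat.card X + 1 ≤ Nat.card {V : InfinitePlace M // V.comap (algebraMap K M) ∈ X})) :
    ∃ e : (𝓞 M)ˣ, τ ((e : 𝓞 M) : M) * ((e : 𝓞 M) : M) = 1 ∧ ∀ (a b : ℤ) (f : K),
      ((e : 𝓞 M) : M) ^ a = ((u : 𝓞 M) : M) ^ b * algebraMap K M f → a = 0 := by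
  classical
  obtain ⟨k, hk0, hkX, hk1, hk2⟩ := UN3_form (K := K) (X := X) u hcard
  have hmp : ∀ w : InfinitePlace M, (0 : ℝ) < w.mult := fun w => by exact_mod_cast w.mult_pos
  obtain ⟨V₀, hV₀⟩ := Function.ne_iff.1 hk0
  have hV₀ : k V₀ ≠ 0 := hV₀
  have hV₀X : V₀.comap (algebraMap K M) ∈ X := by
    by_contra h
    exact hV₀ (hkX V₀ h)
  have hV₁ : k (V₀.comap (τ : M →+* M)) = 0 := hkX _ (UN2_res hτ hτc hX V₀ hV₀X)
  obtain ⟨δ, hδ⟩ := exists_unit_sum_ne (K := M)
    (fun V => k V - k (V.comap (τ : M →+* M))) ⟨V₀, V₀.comap (τ : M →+* M), by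
      simp only [UN1_inv hτ, hV₁, sub_zero, zero_sub]
      intro h
      have h1 : k V₀ * (((V₀.comap (τ : M →+* M)).mult : ℝ) + V₀.mult) = 0 := by linarith
      rcases mul_eq_zero.1 h1 with h2 | h2
      · exact hV₀ h2
      · have := hmp V₀
        have := hmp (V₀.comap (τ : M →+* M))
        linarith⟩
  obtain ⟨e, he1, he2⟩ := UN1_eps hτ δ
  have he : ∑ w : InfinitePlace M, k w * Real.log (w ((e : 𝓞 M) : M)) ≠ 0 := by
    have h1 : ∑ w : InfinitePlace M, k w * Real.log (w ((e : 𝓞 M) : M)) =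
        ∑ V : InfinitePlace M, (k V - k (V.comap (τ : M →+* M))) *
          Real.log (V ((δ : 𝓞 M) : M)) := by
      simp only [he2, mul_sub, sub_mul, Finset.sum_sub_distrib]
      congr 1
      let E : InfinitePlace M ≃ InfinitePlace M :=
        { toFun := fun V => V.comap (τ : M →+* M)
          invFun := fun V => V.comap (τ : M →+* M)
          left_inv := fun V => UN1_inv hτ V
          right_inv := fun V => UN1_inv hτ V }
      rw [← Equiv.sum_comp E fun V => k (V.comap (τ : M →+* M)) * Real.log (V ((δ : 𝓞 M) : M))]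
      refine Finset.sum_congr rfl fun V _ => ?_
      change _ = k ((V.comap (τ : M →+* M)).comap (τ : M →+* M)) *
        Real.log ((V.comap (τ : M →+* M)) ((δ : 𝓞 M) : M))
      rw [UN1_inv hτ]
    rw [h1]
    exact hδ
  refine ⟨e, he1, fun a b f hf => ?_⟩
  have hf0 : f ≠ 0 := by
    rintro rfl
    rw [map_zero, mul_zero] at hf
    exact zpow_ne_zero a (UN1_ne e) hf
  have h7 : ∀ w : InfinitePlace M, (a : ℝ) * Real.log (w ((e : 𝓞 M) : M)) =
      b * Real.log (w ((u : 𝓞 M) : M)) + Real.log (w (algebraMap K M f)) := by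
    intro w
    have h8 : Real.log (w (((e : 𝓞 M) : M) ^ a)) =
        Real.log (w (((u : 𝓞 M) : M) ^ b * algebraMap K M f)) := by rw [hf]
    rw [map_mul, map_zpow₀, map_zpow₀, Real.log_mul, Real.log_zpow, Real.log_zpow] at h8
    · exact h8
    · exact zpow_ne_zero b fun h => UN1_ne u ((map_eq_zero w).1 h)
    · intro h
      exact hf0 ((map_eq_zero (algebraMap K M)).1 ((map_eq_zero w).1 h))
  have h9 : ∑ w : InfinitePlace M, k w * Real.log (w (algebraMap K M f)) = 0 := by
    have h10 : ∀ w : InfinitePlace M, k w * Real.log (w (algebraMap K M f)) =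
        ∑ v : InfinitePlace K, (if w.comap (algebraMap K M) = v then k w else 0) *
          Real.log (v f) := by
      intro w
      rw [Finset.sum_eq_single (w.comap (algebraMap K M))]
      · rw [if_pos rfl]
        rfl
      · intro v _ hv
        rw [if_neg hv.symm, zero_mul]
      · intro h
        exact absurd (Finset.mem_univ _) h
    rw [Finset.sum_congr rfl fun w _ => h10 w, Finset.sum_comm]
    refine Finset.sum_eq_zero fun v _ => ?_
    rw [← Finset.sum_mul, hk1 v, zero_mul]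
  have h11 : (a : ℝ) * ∑ w : InfinitePlace M, k w * Real.log (w ((e : 𝓞 M) : M)) = 0 := by
    rw [Finset.mul_sum]
    have h12 : ∀ w : InfinitePlace M, (a : ℝ) * (k w * Real.log (w ((e : 𝓞 M) : M))) =
        b * (k w * Real.log (w ((u : 𝓞 M) : M))) + k w * Real.log (w (algebraMap K M f)) := by
      intro w
      have := h7 w
      calc (a : ℝ) * (k w * Real.log (w ((e : 𝓞 M) : M)))
          = k w * ((a : ℝ) * Real.log (w ((e : 𝓞 M) : M))) := by ring
        _ = _ := by rw [this]; ring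
    rw [Finset.sum_congr rfl fun w _ => h12 w, Finset.sum_add_distrib, ← Finset.mul_sum, hk2, h9]
    simp
  rcases mul_eq_zero.1 h11 with h13 | h13
  · exact_mod_cast h13
  · exact absurd h13 he

end Pool.Agent.CGU
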