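import Pool.Agent.CGU.ETt
import Pool.Agent.CGU.ELo
import Pool.Agent.CGU.ESm
import Pool.Agent.CGU.ERr
import Pool.Agent.CGU.EIn
import Pool.Agent.CGU.EPs
import Pool.Agent.CGU.EIp
import Pool.Agent.CGU.EUn
import Pool.Agent.CGN.EMa

/-!
# Part E': the generic unit
-/

noncomputable section

set_option linter.unusedSectionVars false

namespace Pool.Agent.CGU

open NumberField IsDedekindDomain Matrix Polynomial
open Pool.Agent.CG2 (Pl Fv Ov GalF Fbar Zbar Over IsInertia IsFrob Nm)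
open Pool.Agent.CG2.GalFinAux (below)
open Pool.Agent.CGQ
open Pool.Agent.CGN (SC Split abv ActsAs oF Cl T2p T2 T3p T3 RR fk gal_ty gen_of_sn exists_poly
  exists_real_embs T2_sep real_roots exists_diag isOpen_T2 isOpen_T3 not_dvd_nm finite_above_p)

variable {F : Type} [Field F] [NumberField F] {K : Type} [Field K] [NumberField K] [Algebra F K]
variable {A : UD F} {S : Set (Pl F)}

/-- **MN1.** The smallest degree and the characters. -/
theorem one_le_n (hn : 3 ≤ A.n) : 1 ≤ A.n := by omega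

section

variable [Algebra K (BF A)] [IsScalarTower F K (BF A)]

/-- **MN1.** The place given by `θ_v`.
PROOF. `hi.2`: the entries of `θ (bloc (algebraMap K _ a))` are `i a` on the diagonal and `0` outside (`Matrix.algebraMap_matrix_apply`); `1 ≤ n`. -/
theorem isW_iff (hn : 1 ≤ A.n) (θ : USpl A S) {v : {v : Pl F // v ∉ S}} {i : K →+* Fv v.1}
    (hi : IsSc (θ.θ v) i) (w : Pl K) : IsW (IsScalarTower.toAlgHom F K (BF A)) θ v w ↔
      ∀ a : 𝓞 K, a ∈ w.asIdeal ↔ Valued.v (i (a : K)) < 1 := by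
  have h1 : ∀ a : 𝓞 K, (∀ x y : Fin A.n, Valued.v (θ.θ v (bloc A v.1
      (IsScalarTower.toAlgHom F K (BF A) (a : K))) x y) < 1) ↔ Valued.v (i (a : K)) < 1 := by
    intro a
    have h2 : θ.θ v (bloc A v.1 (IsScalarTower.toAlgHom F K (BF A) (a : K))) =
        algebraMap (Fv v.1) (Matrix (Fin A.n) (Fin A.n) (Fv v.1)) (i (a : K)) := hi.2 (a : K)
    rw [h2]
    constructor
    · intro h
      have h3 := h ⟨0, hn⟩ ⟨0, hn⟩
      rw [Matrix.algebraMap_matrix_apply, if_pos rfl] at h3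
      exact h3
    · intro h x y
      rw [Matrix.algebraMap_matrix_apply]
      split_ifs
      · exact h
      · rw [map_zero]
        exact zero_lt_one
  unfold IsW
  exact forall_congr' fun a => by rw [h1 a]

variable {M : Type} [Field M] [NumberField M] [Algebra F M] [Algebra K M] [IsScalarTower F K M]

/-- **MN2.** The Galois group of a subfield with an element of the local types.
PROOF. As `CGN.gal_of_ty` (CGN/EMa.lean). `h₁ = θ.θ (v 1)`: the characteristic polynomial is separable (`T2_sep`), so `(minpoly K (ι x)).natDegree = n` (`deg_of_sepU`) and it is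
`minpoly K x` (`minpoly.algHom_eq`). `exists_isSc` for `v 1`, `v 2`: `i₁`, `i₂`; the characteristic polynomials are `(minpoly K x).map i₁`, `.map i₂` (`charpoly_eqU`); `exists_placeK` for `i₁`: `w₁`;
`isW_iff` for `v₃`; `tr_T2`, `tr_T3`; `gal_ty` over `K`. -/
theorem gal_of_tyU (hU : Uni A K) (hn : 3 ≤ A.n) (θ : USpl A S)
    {v : Fin 3 → {v : Pl F // v ∉ S}} {v₃ : Pl K}
    (hv₃ : IsW (IsScalarTower.toAlgHom F K (BF A)) θ (v 2) v₃) (ι : M →ₐ[K] BF A)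
    (hι : Function.Injective ι) (hM : Module.finrank K M = A.n) {x : M}
    (hx : TyU θ v (ι x)) :
    (minpoly K x).natDegree = A.n ∧
    (∀ π : Equiv.Perm (M →ₐ[K] Fbar K), ∃ g : GalF K, ActsAs g π) ∧
      ∃ (Q : Ideal (Zbar K)) (g : GalF K) (j₁ j₂ : M →ₐ[K] Fbar K), Over v₃ Q ∧ IsInertia Q g ∧
        j₁ ≠ j₂ ∧ (∀ x, g (j₁ x) = j₂ x) ∧ (∀ x, g (j₂ x) = j₁ x) ∧
        ∀ j : M →ₐ[K] Fbar K, j ≠ j₁ → j ≠ j₂ → ∀ x, g (j x) = j x := by
  have hn1 : 1 ≤ A.n := by omega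
  have hx' : (minpoly K (ι x)).natDegree = A.n := by
    apply deg_of_sepU hU hn1 (θ.θ (v 1))
    exact T2_sep (Matrix.charpoly_monic _) (by rw [Matrix.charpoly_natDegree_eq_dim, Fintype.card_fin])
      hx.t2
  have hm : minpoly K (ι x) = minpoly K x := minpoly.algHom_eq ι hι x
  have h2 := hx.t2
  have h3 := hx.t3
  obtain ⟨i₁, hi₁⟩ := exists_isSc hU hn1 (θ.θ (v 1))
  obtain ⟨i₂, hi₂⟩ := exists_isSc hU hn1 (θ.θ (v 2))
  rw [charpoly_eqU hU hn1 (θ.θ (v 1)) hi₁ hx', hm] at h2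
  rw [charpoly_eqU hU hn1 (θ.θ (v 2)) hi₂ hx', hm] at h3
  obtain ⟨w₁, hw₁⟩ := exists_placeK hi₁.1
  rw [hm] at hx'
  exact ⟨hx', gal_ty hM hx' (tr_T2 hi₁.1 hw₁ h2)
    (tr_T3 hi₂.1 ((isW_iff hn1 θ hi₂ v₃).1 hv₃) h3)⟩

/-- **MN3.** Irreducibility.
PROOF. The characteristic polynomial at `v 1` is separable, so the degree is `n` (as in MN2); at `v 0` it is `(minpoly K x).map i₀` (`charpoly_eqU`, `exists_isSc`); `exists_placeK`, `tr_T1`, `T1_irr` over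
`K` (`minpoly.monic`). -/
theorem irr_of_tyU (hU : Uni A K) (hn : 3 ≤ A.n) (θ : USpl A S)
    {v : Fin 3 → {v : Pl F // v ∉ S}} {x : BF A} (hx : TyU θ v x) :
    (minpoly K x).natDegree = A.n ∧ Irreducible (minpoly K x) := by
  have hn1 : 1 ≤ A.n := by omega
  have hx' : (minpoly K x).natDegree = A.n := by
    apply deg_of_sepU hU hn1 (θ.θ (v 1))
    exact T2_sep (Matrix.charpoly_monic _) (by rw [Matrix.charpoly_natDegree_eq_dim, Fintype.card_fin])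
      hx.t2
  refine ⟨hx', ?_⟩
  have h1 := hx.t1
  obtain ⟨i₀, hi₀⟩ := exists_isSc hU hn1 (θ.θ (v 0))
  rw [charpoly_eqU hU hn1 (θ.θ (v 0)) hi₀ hx'] at h1
  obtain ⟨w₀, hw₀⟩ := exists_placeK hi₀.1
  have : Module.Finite K (BF A) := finite_B
  exact T1_irr hn1 (minpoly.monic (Algebra.IsIntegral.isIntegral x)) hx' (tr_T1 hi₀.1 hw₀ h1)

/-- **MN4.** The real embeddings of a subfield.
PROOF. As `CGN.real_of_ty`: `exists_isSc` for `w.hom`: `f`; `charpoly_eqU`, `minpoly.algHom_eq`, `exists_real_embs` over `K` with `e := f`. -/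
theorem real_of_tyU (hU : Uni A K) (hn : 3 ≤ A.n) (ι : M →ₐ[K] BF A)
    (hι : Function.Injective ι) (hM : Module.finrank K M = A.n) {z : M}
    (hz : (minpoly K z).natDegree = A.n) (hr : TyRU A (ι z)) (w : SPl A) :
    ∃ f : K →+* ℝ, IsSc w.hom f ∧ f.comp (algebraMap F K) = w.emb ∧
      ∃ σ : Fin A.n → (M →+* ℝ), Function.Injective σ ∧
        ∀ i, (σ i).comp (algebraMap K M) = f := by
  have hn1 : 1 ≤ A.n := by omega
  obtain ⟨f, hf⟩ := exists_isSc hU hn1 w.hom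
  have hm : minpoly K (ι z) = minpoly K z := minpoly.algHom_eq ι hι z
  have h := hr w
  rw [charpoly_eqU hU hn1 w.hom hf (by rw [hm]; exact hz), hm] at h
  obtain ⟨σ, h1, h2⟩ := exists_real_embs hM hz f h
  exact ⟨f, hf, RingHom.ext hf.1, σ, h1, h2⟩

/-- **MN5.** The element `d`.
PROOF. As `CGN.exists_d` (CGN/EMa.lean, MA3). `irr_of_tyU`: `minpoly K t` is irreducible of degree `n`; `exists_fieldU` for `t` (`star t = t = aeval t X`): `M`, `ι`, `τ`, `z`, `ι z = t`,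
`[M : K] = n`. `gal_of_tyU` (any `v₃`: `exists_placeK` and `isW_iff` give one): all permutations, `(minpoly K z).natDegree = n`. `real_of_tyU`: `σ`. `exists_conjE`: `c`; `τ (algebraMap K M a) = algebraMap K M (c a)`
(apply `ι`). `exists_X`: `X`. `exists_sepU`: `ε`. `exists_pow_mem_stabU` (for `ι.restrictScalars F`): `m₁`. `d = uU ι ε ^ m₁` (value `ι ε ^ m₁`: `mkU_val`).
Put `δ₁ = ε ^ (m₁ * m)`: not in `K` (`pow_not_memU`, `1 ≤ A.rk K`), so `(minpoly K δ₁).natDegree = n` (`gen_of_sn` over `K`) and `t = aeval (ι δ₁) P` (`exists_poly`). For `w : SPl A`: `f`, `σ`; the characteristic polynomial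
of `w.hom (bE (ι δ₁))` is `(minpoly K δ₁).map f` (`charpoly_eqU`) with the roots `σ i δ₁ = |σ i ε| ^ (m₁ m)` (`m` even), positive and different: the places
`V i = mk (ofReal ∘ σ i)` are different (`mk_eq_iff`) and `(V i).comap τ ≠ V i` (`σ i ∘ τ` restricted to `K` is `f ∘ c ≠ f`; a real embedding is determined by its place), so `V i ε ≠ V j ε`.
`exists_diag`. -/
theorem exists_dU (hU : Uni A K) (hn : 3 ≤ A.n) (hr : 1 ≤ A.rk K) (θ : USpl A S)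
    {v : Fin 3 → {v : Pl F // v ∉ S}} {t : BF A} (hst : star t = t) (ht : TyU θ v t)
    (ht' : TyRU A t) {Kf : Subgroup (sysU A).A} (hK : OC Kf) (y : (sysU A).Pt) {m : ℕ}
    (hm : 0 < m) (he : Even m) :
    ∃ d : UF A, (show (sysU A).G from d) ∈ Stab Kf y ∧ (∃ P : K[X], aeval (d.1.1 ^ m) P = t) ∧
      ∀ w : SPl A, ∃ (V : (Matrix (Fin A.n) (Fin A.n) ℝ)ˣ) (l : Fin A.n → ℝ), StrictAnti l ∧
        (∀ i, 0 < l i) ∧ w.hom (bE A w.emb (d.1.1 ^ m)) =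
          V.1 * diagonal l * (V⁻¹ : (Matrix (Fin A.n) (Fin A.n) ℝ)ˣ).1 := by
  have hn1 : 1 ≤ A.n := by omega
  obtain ⟨htd, htirr⟩ := irr_of_tyU hU hn θ ht
  obtain ⟨M, iM1, iM2, iM3, iM4, iM5, ι, τ, z, hz, hι, hM, hτ, hττ⟩ :=
    exists_fieldU hU htirr ⟨X, by rw [aeval_X]; exact hst⟩
  rw [htd] at hM
  obtain ⟨i₃, hi₃⟩ := exists_isSc hU hn1 (θ.θ (v 2))
  obtain ⟨v₃, hv₃⟩ := exists_placeK hi₃.1
  have hv₃' : IsW (IsScalarTower.toAlgHom F K (BF A)) θ (v 2) v₃ := (isW_iff hn1 θ hi₃ v₃).2 hv₃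
  obtain ⟨hdeg, sn, -⟩ := gal_of_tyU hU hn θ hv₃' ι hι hM (x := z) (by rw [hz]; exact ht)
  have hre := fun w => real_of_tyU hU hn ι hι hM hdeg (by rw [hz]; exact ht') w
  obtain ⟨c, hc, hcc, hc'⟩ := exists_conjE hU
  have hτc : ∀ a : K, τ (algebraMap K M a) = algebraMap K M (c a) := by
    intro a
    apply hι
    rw [← hτ, AlgHom.commutes, AlgHom.commutes, hc]
  obtain ⟨X, hX, hcard⟩ := exists_X (F := F) (A := A) hn1 hM hc' (fun w => by
    obtain ⟨f, -, h1, h2⟩ := hre w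
    exact ⟨f, h1, h2⟩)
  obtain ⟨ε, hε1, hε⟩ := exists_sepU hττ
  obtain ⟨m₁, hm₁, hstb⟩ := exists_pow_mem_stabU hK y (ι.restrictScalars F) τ hτ
  have hnot := pow_not_memU hττ hτc hX (by omega) hε (Nat.mul_pos hm₁ hm)
  obtain ⟨δ₁, hδ₁⟩ : ∃ δ₁ : M, δ₁ = ((ε : 𝓞 M) : M) ^ (m₁ * m) := ⟨_, rfl⟩
  rw [← hδ₁] at hnot
  have hdeg₁ := gen_of_sn sn hnot
  obtain ⟨P, hP⟩ := exists_poly hdeg₁ z
  have hval : (show UF A from uU (ι.restrictScalars F) ((ε : 𝓞 M) : M)).1.1 =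
      ι ((ε : 𝓞 M) : M) := by
    have h1 : star (ι ((ε : 𝓞 M) : M)) * ι ((ε : 𝓞 M) : M) = 1 := by
      rw [hτ, ← map_mul, hε1, map_one]
    have h2 : ι ((ε : 𝓞 M) : M) * star (ι ((ε : 𝓞 M) : M)) = 1 := by
      rw [hτ, ← map_mul, mul_comm, hε1, map_one]
    exact mkU_val h1 h2
  obtain ⟨d, hd⟩ : ∃ d : UF A, d =
      (show UF A from uU (ι.restrictScalars F) ((ε : 𝓞 M) : M)) ^ m₁ := ⟨_, rfl⟩
  have hdm : d.1.1 ^ m = ι δ₁ := by
    have h1 : d.1.1 = ι ((ε : 𝓞 M) : M) ^ m₁ := by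
      rw [hd, Subgroup.coe_pow, Units.val_pow_eq_pow_val, hval]
    rw [h1, hδ₁, map_pow, pow_mul]
  refine ⟨d, ?_, ⟨P, ?_⟩, ?_⟩
  · rw [hd]
    exact hstb ε hε1
  · rw [hdm, aeval_algHom_apply, hP, hz]
  · intro w
    obtain ⟨f, hf, hfe, σ, hσ, hσ'⟩ := hre w
    have hmi : minpoly K (ι δ₁) = minpoly K δ₁ := minpoly.algHom_eq ι hι δ₁
    have hroot : ∀ i, (w.hom (bE A w.emb (d.1.1 ^ m))).charpoly.IsRoot (σ i δ₁) := by
      intro i
      rw [hdm, charpoly_eqU hU hn1 w.hom hf (by rw [hmi, hdeg₁, hM]), hmi, IsRoot.def, eval_map,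
        ← hσ' i, ← hom_eval₂, ← aeval_def, minpoly.aeval, map_zero]
    have hδ0 : ∀ i, σ i ((ε : 𝓞 M) : M) ≠ 0 := by
      intro i h
      rw [map_eq_zero] at h
      have h2 : (ε : 𝓞 M) = 0 := RingOfIntegers.ext h
      exact ε.ne_zero h2
    have hval : ∀ i, σ i δ₁ = |σ i ((ε : 𝓞 M) : M)| ^ (m₁ * m) := by
      intro i
      rw [hδ₁, map_pow]
      have h3 : Even (m₁ * m) := he.mul_left m₁
      exact (h3.pow_abs _).symm
    have hpos : ∀ i, 0 < σ i δ₁ := by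
      intro i
      rw [hval]
      exact pow_pos (abs_pos.2 (hδ0 i)) _
    have hreal : ∀ (s s' : M →+* ℝ), InfinitePlace.mk (Complex.ofRealHom.comp s) =
        InfinitePlace.mk (Complex.ofRealHom.comp s') → s = s' := by
      intro s s' h
      rcases InfinitePlace.mk_eq_iff.1 h with h2 | h2
      · ext x
        have h3 : ((s x : ℝ) : ℂ) = ((s' x : ℝ) : ℂ) := RingHom.congr_fun h2 x
        exact_mod_cast h3
      · ext x
        have h3 := RingHom.congr_fun h2 x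
        rw [ComplexEmbedding.conjugate_coe_eq] at h3
        have h4 : (starRingEnd ℂ) ((s x : ℝ) : ℂ) = ((s' x : ℝ) : ℂ) := h3
        rw [Complex.conj_ofReal] at h4
        exact_mod_cast h4
    have hinj : Function.Injective fun i => σ i δ₁ := by
      intro i j hij
      by_contra hne
      have h1 : InfinitePlace.mk (Complex.ofRealHom.comp (σ i)) ≠
          InfinitePlace.mk (Complex.ofRealHom.comp (σ j)) := fun h => hne (hσ (hreal _ _ h))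
      have h0 : (InfinitePlace.mk (Complex.ofRealHom.comp (σ i))).comap (τ : M →+* M) ≠
          InfinitePlace.mk (Complex.ofRealHom.comp (σ i)) := by
        intro h
        rw [InfinitePlace.comap_mk] at h
        have h2 := hreal ((σ i).comp (τ : M →+* M)) (σ i) h
        obtain ⟨a, ha⟩ := hc'
        apply ha
        have h3 := RingHom.congr_fun h2 (algebraMap K M a)
        have h4 : σ i (τ (algebraMap K M a)) = σ i (algebraMap K M a) := h3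
        rw [hτc] at h4
        exact (algebraMap K M).injective ((σ i).injective h4)
      have h2 := hε _ _ h1 (Or.inl h0)
      apply h2
      rw [InfinitePlace.apply, InfinitePlace.apply]
      have h3 : ∀ i, ‖(Complex.ofRealHom.comp (σ i)) ((ε : 𝓞 M) : M)‖ =
          |σ i ((ε : 𝓞 M) : M)| := by
        intro i
        rw [RingHom.comp_apply, Complex.ofRealHom_eq_coe, Complex.norm_real, Real.norm_eq_abs]
      rw [h3, h3]
      have h4 : σ i δ₁ = σ j δ₁ := hij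
      rw [hval, hval] at h4
      exact (pow_left_inj₀ (abs_nonneg _) (abs_nonneg _) (Nat.mul_pos hm₁ hm).ne').1 h4
    obtain ⟨V, l, h1, h2, h3⟩ := exists_diag _ hinj hroot hpos
    exact ⟨V, l, h1, h2, h3⟩

private theorem MN6_conj {E : Type} [Field E] {n : ℕ} (G : (Matrix (Fin n) (Fin n) E)ˣ)
    (M : Matrix (Fin n) (Fin n) E) :
    (G.1 * M * (G⁻¹ : (Matrix (Fin n) (Fin n) E)ˣ).1).charpoly = M.charpoly := by
  rw [Matrix.coe_units_inv]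
  exact Matrix.charpoly_units_conj G M

/-- **MN6.** The element `c`.
PROOF. As `CGN.exists_c` (CGN/EMa.lean, MA4) with three places: `loc_closeU` for `v 0`, `v 1`, `v 2` with the sets of `T1`, `T2`, `T3` (`isOpen_T1`, ..; `exists_isSc` gives the `i`; `Matrix.charpoly_units_conj`);
`stab_tendstoU` at `v 0` and `min_unitU`, `idem_algU` for every `w : SPl A` and `k ≤ n`; `real_roots`. -/
theorem exists_cU (hU : Uni A K) (hn : 3 ≤ A.n) (θ : USpl A S)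
    {v : Fin 3 → {v : Pl F // v ∉ S}} {Kf : Subgroup (sysU A).A}
    (hsm : ∀ i, SmallAtU θ (v i) Kf) (y : (sysU A).Pt) {c₀ d : UF A}
    (hc : (show (sysU A).G from c₀) ∈ Stab Kf y) (hd : (show (sysU A).G from d) ∈ Stab Kf y)
    {P : K[X]} (hP : TyU θ v (aeval d.1.1 P))
    (hV : ∀ w : SPl A, ∃ (V : (Matrix (Fin A.n) (Fin A.n) ℝ)ˣ) (l : Fin A.n → ℝ), StrictAnti l ∧
      (∀ i, 0 < l i) ∧ w.hom (bE A w.emb d.1.1) =
        V.1 * diagonal l * (V⁻¹ : (Matrix (Fin A.n) (Fin A.n) ℝ)ˣ).1)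
    {ℓ : ℕ} (hℓ0 : 0 < ℓ) (hℓ : ∀ i, ((ℓ : ℕ) : 𝓞 F) ∈ (v i).1.asIdeal) :
    ∃ b s : ℕ, TyU θ v (aeval (c₀.1.1 ^ ℓ ^ b * d.1.1 ^ (1 + ℓ ^ b * s)) P) ∧
      TyRU A (c₀.1.1 ^ ℓ ^ b * d.1.1 ^ (1 + ℓ ^ b * s)) := by
  classical
  have hn1 : 1 ≤ A.n := by omega
  obtain ⟨i₀, hi₀⟩ := exists_isSc hU hn1 (θ.θ (v 0))
  obtain ⟨i₁, hi₁⟩ := exists_isSc hU hn1 (θ.θ (v 1))
  obtain ⟨i₂, hi₂⟩ := exists_isSc hU hn1 (θ.θ (v 2))
  obtain ⟨m₀, hm₀⟩ := loc_closeU θ hi₀ (hsm 0) y hc hd (hℓ 0) (isOpen_T1 (v 0).1 A.n) (by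
    intro G M hM
    change T1 (v 0).1 A.n (G.1 * M * (G⁻¹ : (Matrix (Fin A.n) (Fin A.n) (Fv (v 0).1))ˣ).1).charpoly
    rw [MN6_conj]
    exact hM) (P := P) hP.t1
  obtain ⟨m₁, hm₁⟩ := loc_closeU θ hi₁ (hsm 1) y hc hd (hℓ 1) (isOpen_T2 (v 1).1 A.n) (by
    intro G M hM
    change T2 (v 1).1 A.n (G.1 * M * (G⁻¹ : (Matrix (Fin A.n) (Fin A.n) (Fv (v 1).1))ˣ).1).charpoly
    rw [MN6_conj]
    exact hM) (P := P) hP.t2
  obtain ⟨m₂, hm₂⟩ := loc_closeU θ hi₂ (hsm 2) y hc hd (hℓ 2) (isOpen_T3 (v 2).1 A.n) (by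
    intro G M hM
    change T3 (v 2).1 A.n (G.1 * M * (G⁻¹ : (Matrix (Fin A.n) (Fin A.n) (Fv (v 2).1))ˣ).1).charpoly
    rw [MN6_conj]
    exact hM) (P := P) hP.t3
  choose V l hl hpos hw using hV
  have hid := fun (w : SPl A) (k : ℕ) => idem_algU w (hl w).injective (hw w) k
  choose f hf hfk using hid
  have ht := stab_tendstoU hU hn1 θ (hsm 0) y hc (hℓ 0)
  have hun : ∀ᶠ b : ℕ in Filter.atTop, ∀ (w : SPl A) (k : Fin (A.n + 1)),
      IsUnit (1 + (bE A w.emb (c₀.1.1 ^ ℓ ^ b) - 1) * f w k) := by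
    rw [Filter.eventually_all]
    intro w
    rw [Filter.eventually_all]
    intro k
    exact min_unitU w.emb (hf w k) (v 0).1 ht
  obtain ⟨b, hb, hb0, hb1, hb2⟩ := (hun.and ((Filter.eventually_ge_atTop m₀).and
    ((Filter.eventually_ge_atTop m₁).and (Filter.eventually_ge_atTop m₂)))).exists
  have hreal : ∀ w : SPl A, ∃ N₀ : ℕ, ∀ N ≥ N₀,
      RR A.n (((V w)⁻¹.1 * w.hom (bE A w.emb (c₀.1.1 ^ ℓ ^ b)) * (V w).1) *
        diagonal fun j => l w j ^ N).charpoly := by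
    intro w
    apply real_roots _ (hl w) (hpos w)
    intro k hk
    have h1 := hb w ⟨k, Nat.lt_succ_of_le hk⟩
    have h2 := (h1.map w.hom)
    rw [map_add, map_one, map_mul, map_sub, map_one, hfk] at h2
    have h3 : 1 + ((V w)⁻¹.1 * w.hom (bE A w.emb (c₀.1.1 ^ ℓ ^ b)) * (V w).1 - 1) * fk A.n k =
        (V w)⁻¹.1 * (1 + (w.hom (bE A w.emb (c₀.1.1 ^ ℓ ^ b)) - 1) *
          ((V w).1 * fk A.n k * (V w)⁻¹.1)) * (V w).1 := by
      have e1 : (V w)⁻¹.1 * (V w).1 = 1 := Units.inv_mul _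
      have e2 : (V w).1 * (V w)⁻¹.1 = 1 := Units.mul_inv _
      simp only [mul_add, add_mul, sub_mul, mul_sub, mul_one, one_mul, e1]
      congr 1
      · simp only [mul_assoc]
        rw [e1, mul_one, ← mul_assoc (V w)⁻¹.1 (V w).1, e1, one_mul]
    have h4 : IsUnit (1 + ((V w)⁻¹.1 * w.hom (bE A w.emb (c₀.1.1 ^ ℓ ^ b)) * (V w).1 - 1) *
        fk A.n k) := by
      rw [h3]
      exact (((V w)⁻¹.isUnit).mul h2).mul (V w).isUnit
    rw [Matrix.isUnit_iff_isUnit_det] at h4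
    exact h4.ne_zero
  choose N₀ hN₀ using hreal
  have := Fintype.ofFinite (SPl A)
  refine ⟨b, Finset.univ.sup N₀, ⟨hm₀ b hb0 _, hm₁ b hb1 _, hm₂ b hb2 _⟩, ?_⟩
  intro w
  have hN : N₀ w ≤ 1 + ℓ ^ b * Finset.univ.sup N₀ := by
    have h1 : N₀ w ≤ Finset.univ.sup N₀ := Finset.le_sup (Finset.mem_univ w)
    have h2 : 1 ≤ ℓ ^ b := Nat.one_le_pow _ _ hℓ0
    nlinarith
  have h5 := hN₀ w _ hN
  obtain ⟨N, hNe⟩ : ∃ N, N = 1 + ℓ ^ b * Finset.univ.sup N₀ := ⟨_, rfl⟩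
  rw [← hNe] at h5 ⊢
  have h6 : w.hom (bE A w.emb (c₀.1.1 ^ ℓ ^ b * d.1.1 ^ N)) =
      (V w).1 * (((V w)⁻¹.1 * w.hom (bE A w.emb (c₀.1.1 ^ ℓ ^ b)) * (V w).1) *
        diagonal fun j => l w j ^ N) * (V w)⁻¹.1 := by
    rw [map_mul, map_mul, map_pow (bE A w.emb) d.1.1, map_pow w.hom (bE A w.emb d.1.1), hw w,
      Units.conj_pow, diagonal_pow]
    have e2 : (V w).1 * (V w)⁻¹.1 = 1 := Units.mul_inv _
    simp only [mul_assoc]
    rw [← mul_assoc (V w).1 (V w)⁻¹.1, e2, one_mul]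
    rfl
  rw [h6, MN6_conj]
  exact h5

private theorem MN7_pow {G k : Type} [Group G] [Field k] {Γ : Subgroup G} {h : G → k}
    (hh : ∀ a ∈ Γ, ∀ b ∈ Γ, h (a * b) = h a + h b) {g : G} (hg : g ∈ Γ) (n : ℕ) :
    h (g ^ n) = n * h g := by
  induction n with
  | zero =>
    have h1 := hh 1 Γ.one_mem 1 Γ.one_mem
    rw [one_mul] at h1
    rw [pow_zero, Nat.cast_zero, zero_mul]
    exact left_eq_add.1 h1
  | succ n ih =>
    rw [pow_succ, hh _ (Γ.pow_mem hg n) _ hg, ih]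
    push_cast
    ring

/-- **MN7.** A nice field.
PROOF. As `CGN.exists_nice` (CGN/EMa.lean, MA5). `exists_dU` with `m = 2 * p`: `d₀`, `P`; `d = d₀ ^ (2 * p)`. `ℓ = Nm (v 0) * Nm (v 1) * Nm (v 2)`: positive, in the three ideals, prime to `p` (`not_dvd_nm`).
`exists_cU`: `g = c₀ ^ ℓ ^ b * d ^ (1 + ℓ ^ b s)` in `UF A` and in the stabiliser, `h g = ℓ ^ b h c₀` in `k`. `x = aeval g P` has the local types: `irr_of_tyU`; `minpoly_leU` for `g` (with `θ.θ (v 1)`)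
and `irr_of_aeval`: `minpoly K g` is irreducible of degree `n`. `star g = g⁻¹ = aeval g Q` (`star_eq_inv`, `inv_aeval`). `exists_fieldU`: `M`, `ι`, `τ`, `z`, `ι z = g`. `gal_of_tyU` for `aeval z P`
(`ι (aeval z P) = x`: `aeval_algHom_apply`), `real_of_tyU` for `z`, `exists_X`. `exists_unit_of_stabU`: `u` with `(u : M) = z`, `uU ι u = g`; `τ z * z = 1` as `ι (τ z * z) = star g * g = 1`. -/
theorem exists_niceU (hU : Uni A K) (hn : 3 ≤ A.n) (hr : 1 ≤ A.rk K) {p : ℕ} (hp : p.Prime)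
    (θ : USpl A S) {v : Fin 3 → {v : Pl F // v ∉ S}}
    (hv : ∀ i, ((p : ℕ) : 𝓞 F) ∉ (v i).1.asIdeal) {v₃ : Pl K}
    (hv₃ : IsW (IsScalarTower.toAlgHom F K (BF A)) θ (v 2) v₃) {c : K ≃ₐ[F] K}
    (hc : ∀ a, star (algebraMap K (BF A) a) = algebraMap K (BF A) (c a)) (hc' : ∃ a, c a ≠ a)
    {t : BF A} (hst : star t = t)
    (ht : TyU θ v t) (ht' : TyRU A t) {Kf : Subgroup (sysU A).A} (hK : OC Kf)
    (hsm : ∀ i, SmallAtU θ (v i) Kf) (y : (sysU A).Pt) {k : Type} [Field k] [CharP k p]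
    {h : (sysU A).G → k} (hh : ∀ a ∈ Stab Kf y, ∀ b ∈ Stab Kf y, h (a * b) = h a + h b)
    {c₀ : (sysU A).G} (hc₀ : c₀ ∈ Stab Kf y) :
    ∃ (M : Type) (_ : Field M) (_ : NumberField M) (_ : Algebra F M) (_ : Algebra K M)
      (_ : IsScalarTower F K M) (ι : M →ₐ[K] BF A) (τ : M ≃ₐ[F] M) (u : (𝓞 M)ˣ),
      Function.Injective ι ∧ Module.finrank K M = A.n ∧
      (∀ y : M, star (ι y) = ι (τ y)) ∧ (∀ y : M, τ (τ y) = y) ∧
      (∀ a : K, τ (algebraMap K M a) = algebraMap K M (c a)) ∧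
      τ ((u : 𝓞 M) : M) * ((u : 𝓞 M) : M) = 1 ∧
      uU (ι.restrictScalars F) ((u : 𝓞 M) : M) ∈ Stab Kf y ∧
      (∀ π : Equiv.Perm (M →ₐ[K] Fbar K), ∃ g : GalF K, ActsAs g π) ∧
      (∃ (Q : Ideal (Zbar K)) (g : GalF K) (j₁ j₂ : M →ₐ[K] Fbar K), Over v₃ Q ∧
        IsInertia Q g ∧ j₁ ≠ j₂ ∧ (∀ x, g (j₁ x) = j₂ x) ∧ (∀ x, g (j₂ x) = j₁ x) ∧
        ∀ j : M →ₐ[K] Fbar K, j ≠ j₁ → j ≠ j₂ → ∀ x, g (j x) = j x) ∧
      (∃ X : Set (InfinitePlace K), (∀ w ∈ X, w.comap (c : K →+* K) ∉ X) ∧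
        Nat.card X + A.rk K ≤ Nat.card {V : InfinitePlace M // V.comap (algebraMap K M) ∈ X}) ∧
      (h c₀ ≠ 0 → h (uU (ι.restrictScalars F) ((u : 𝓞 M) : M)) ≠ 0) := by
  have hn1 : 1 ≤ A.n := by omega
  obtain ⟨d₀, hd₀, ⟨P, hP⟩, hV⟩ := exists_dU hU hn hr θ hst ht ht' hK y (m := 2 * p)
    (Nat.mul_pos two_pos hp.pos) (even_two_mul p)
  obtain ⟨d, hd⟩ : ∃ d : UF A, d = d₀ ^ (2 * p) := ⟨_, rfl⟩
  have hd1 : d.1.1 = d₀.1.1 ^ (2 * p) := by
    rw [hd, Subgroup.coe_pow, Units.val_pow_eq_pow_val]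
  have hdS : (show (sysU A).G from d) ∈ Stab Kf y := by
    rw [hd]
    exact (Stab Kf y).pow_mem hd₀ _
  obtain ⟨ℓ, hℓ⟩ : ∃ ℓ : ℕ, ℓ = Nm (v 0).1 * Nm (v 1).1 * Nm (v 2).1 := ⟨_, rfl⟩
  have hNm : ∀ v : Pl F, 0 < Nm v := fun v =>
    Nat.pos_of_ne_zero fun h => v.ne_bot (Ideal.absNorm_eq_zero_iff.1 h)
  have hℓ0 : 0 < ℓ := by
    rw [hℓ]
    exact Nat.mul_pos (Nat.mul_pos (hNm _) (hNm _)) (hNm _)
  have hℓi : ∀ i, ((ℓ : ℕ) : 𝓞 F) ∈ (v i).1.asIdeal := by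
    intro i
    rw [hℓ, Nat.cast_mul, Nat.cast_mul]
    fin_cases i
    · exact Ideal.mul_mem_right _ _ (Ideal.mul_mem_right _ _ (Ideal.absNorm_mem _))
    · exact Ideal.mul_mem_right _ _ (Ideal.mul_mem_left _ _ (Ideal.absNorm_mem _))
    · exact Ideal.mul_mem_left _ _ (Ideal.absNorm_mem _)
  have hℓk : ((ℓ : ℕ) : k) ≠ 0 := by
    rw [Ne, CharP.cast_eq_zero_iff k p, hℓ, hp.dvd_mul, hp.dvd_mul, not_or, not_or]
    exact ⟨⟨not_dvd_nm hp (hv 0), not_dvd_nm hp (hv 1)⟩, not_dvd_nm hp (hv 2)⟩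
  obtain ⟨b, s, hL, hR⟩ := exists_cU hU hn θ hsm y (c₀ := (show UF A from c₀)) (d := d) hc₀ hdS
    (P := P) (by rw [hd1, hP]; exact ht) (by rw [hd1]; exact hV) hℓ0 hℓi
  obtain ⟨g, hge⟩ : ∃ g : UF A, g = (show UF A from c₀) ^ ℓ ^ b * d ^ (1 + ℓ ^ b * s) :=
    ⟨_, rfl⟩
  have hg1 : g.1.1 = (show UF A from c₀).1.1 ^ ℓ ^ b * d.1.1 ^ (1 + ℓ ^ b * s) := by
    rw [hge, Subgroup.coe_mul, Subgroup.coe_pow, Subgroup.coe_pow, Units.val_mul,
      Units.val_pow_eq_pow_val, Units.val_pow_eq_pow_val]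
  rw [← hg1] at hL hR
  have hgS : (show (sysU A).G from g) ∈ Stab Kf y := by
    rw [hge]
    exact (Stab Kf y).mul_mem ((Stab Kf y).pow_mem hc₀ _) ((Stab Kf y).pow_mem hdS _)
  -- the value of the homomorphism
  have hhg : h (show (sysU A).G from g) = ((ℓ : ℕ) : k) ^ b * h c₀ := by
    have e1 : h (show (sysU A).G from g) =
        h (c₀ ^ ℓ ^ b) + h ((show (sysU A).G from d) ^ (1 + ℓ ^ b * s)) := by
      rw [← hh _ ((Stab Kf y).pow_mem hc₀ _) _ ((Stab Kf y).pow_mem hdS _)]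
      rw [hge]
      rfl
    have e2 : h (show (sysU A).G from d) = 0 := by
      have e3 : (show (sysU A).G from d) = (show (sysU A).G from d₀) ^ (2 * p) := hd
      rw [e3, MN7_pow hh hd₀, Nat.cast_mul, CharP.cast_eq_zero k p, mul_zero, zero_mul]
    rw [e1, MN7_pow hh hc₀, MN7_pow hh hdS, e2, mul_zero, add_zero, Nat.cast_pow]
  -- the field
  obtain ⟨hxd, hxirr⟩ := irr_of_tyU hU hn θ hL
  have : Module.Finite K (BF A) := finite_B
  have hsim := simple_B hU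
  have hnt : Nontrivial (BF A) := inferInstance
  obtain ⟨hgd, hgirr⟩ := irr_of_aeval (minpoly_leU hU hn1 (θ.θ (v 1)) g.1.1) hxd hxirr
  obtain ⟨Q, hQ⟩ := inv_aeval (K := K) g.1
  have hgstar : star g.1.1 = aeval g.1.1 Q := by
    rw [← hQ]
    exact star_eq_inv g.2
  obtain ⟨M, iM1, iM2, iM3, iM4, iM5, ι, τ, z, hz, hι, hM, hτ, hττ⟩ :=
    exists_fieldU hU hgirr ⟨Q, hgstar⟩
  rw [hgd] at hM
  have hτc : ∀ a : K, τ (algebraMap K M a) = algebraMap K M (c a) := by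
    intro a
    apply hι
    rw [← hτ, AlgHom.commutes, AlgHom.commutes, hc]
  have hx : ι (aeval z P) = aeval g.1.1 P := by
    rw [← hz, aeval_algHom_apply]
  have hzd : (minpoly K z).natDegree = A.n := by
    rw [← minpoly.algHom_eq ι hι, hz, hgd]
  obtain ⟨-, sn, tr⟩ := gal_of_tyU hU hn θ hv₃ ι hι hM (x := aeval z P) (by rw [hx]; exact hL)
  have hre := fun w => real_of_tyU hU hn ι hι hM hzd (by rw [hz]; exact hR) w
  obtain ⟨u, huz, hu⟩ := exists_unit_of_stabU hK y g hgS (ι.restrictScalars F) hι hz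
  refine ⟨M, iM1, iM2, iM3, iM4, iM5, ι, τ, u, hι, hM, hτ, hττ, hτc, ?_, ?_, sn, tr, ?_, ?_⟩
  · apply hι
    rw [huz, map_mul, ← hτ, hz, map_one]
    exact g.2
  · rw [hu]
    exact hgS
  · exact exists_X (F := F) (A := A) hn1 hM hc' (fun w => by
      obtain ⟨f, -, h1, h2⟩ := hre w
      exact ⟨f, h1, h2⟩)
  · intro h0
    rw [hu]
    have h5 : h (show (sysU A).G from g) ≠ 0 := by
      rw [hhg]
      exact mul_ne_zero (pow_ne_zero _ hℓk) h0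
    exact h5

end

private theorem MN8_pow {A : UD F} {M : Type} [Field M] [NumberField M] [Algebra F M]
    (ι : M →ₐ[F] BF A) {τ : M ≃ₐ[F] M} (hτ : ∀ x, star (ι x) = ι (τ x)) {x : M}
    (hx : τ x * x = 1) (m : ℕ) : uU ι (x ^ m) = uU ι x ^ m := by
  have key : ∀ y : M, τ y * y = 1 → (show UF A from uU ι y).1.1 = ι y := by
    intro y hy
    have h1 : star (ι y) * ι y = 1 := by
      rw [hτ, ← map_mul, hy, map_one]
    have h2 : ι y * star (ι y) = 1 := by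
      rw [hτ, ← map_mul, mul_comm, hy, map_one]
    exact mkU_val h1 h2
  have h1 : τ (x ^ m) * x ^ m = 1 := by
    rw [map_pow, ← mul_pow, hx, one_pow]
  have h2 : (show UF A from uU ι (x ^ m)) = (show UF A from uU ι x) ^ m := by
    apply Subtype.ext
    apply Units.ext
    rw [key _ h1, Subgroup.coe_pow, Units.val_pow_eq_pow_val, key _ hx, map_pow]
  exact h2

/-- **MN8.** The generic unit (this is the statement of `Iface.lean`).
PROOF. As `CGN.exists_gen'` (CGN/EMa.lean, MA6). `letI : Algebra K (BF A) := κ.toRingHom.toAlgebra' fun a x => hU.com a x`, `IsScalarTower F K (BF A)` (`IsScalarTower.of_algebraMap_eq`, `κ.commutes`), and `κ` is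
`IsScalarTower.toAlgHom F K (BF A)` (`AlgHom.ext`). `exists_conjE`: `c`. `T = {v ∈ S split in K} ∪ S₀ ∪ {v above p}` is finite (`hS`, `finite_above_p`); `exists_split_place` three times, the later ones outside `T` and
the earlier ones, the last one with `n ≤ Nm`: split places outside `T` are not in `S`. `v = ![v 0, v 1, v 2]` (injective). `exists_isSc`, `exists_placeK`, `isW_iff`: `v₃`. `exists_tU`. The rest
as there with `exists_niceU`, `exists_indepU`, `exists_pow_mem_stabU`; `MData` and `GenU` from the conclusions. -/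
theorem exists_gen_u {A : UD F} {κ : K →ₐ[F] BF A} (hU : IsUni A κ) (hn : 3 ≤ A.n)
    (hr : 1 ≤ A.rk K) (p : ℕ) [Fact p.Prime] {S : Set (Pl F)} (hS : SFin K S) (θ : USpl A S)
    (S₀ : Set (Pl F)) (hS₀ : S₀.Finite) :
    ∃ (v : Fin 3 → {v : Pl F // v ∉ S}) (v₃ : Pl K), (∀ i, (v i).1 ∉ S₀) ∧
      IsW κ θ (v 2) v₃ ∧
      ∀ Kf : Subgroup (sysU A).A, OC Kf → (∀ i, SmallAtU θ (v i) Kf) → ∀ y : (sysU A).Pt,
        (∃ (M : Type) (_ : Field M) (_ : NumberField M) (_ : Algebra F M) (_ : Algebra K M)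
          (ι : M →ₐ[F] BF A) (τ : M ≃ₐ[F] M) (e : (𝓞 M)ˣ), GenU A κ Kf y v₃ ι τ 1 e) ∧
        (2 ≤ A.rk K → ∀ (k : Type) [Field k] [CharP k p] (h : (sysU A).G → k),
          (∀ a ∈ Stab Kf y, ∀ b ∈ Stab Kf y, h (a * b) = h a + h b) →
          ∀ c₀ ∈ Stab Kf y, h c₀ ≠ 0 →
          ∃ (M : Type) (_ : Field M) (_ : NumberField M) (_ : Algebra F M) (_ : Algebra K M)
            (ι : M →ₐ[F] BF A) (τ : M ≃ₐ[F] M) (u e : (𝓞 M)ˣ),
            GenU A κ Kf y v₃ ι τ u e ∧ h (uU ι ((u : 𝓞 M) : M)) ≠ 0) := by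
  have hp : p.Prime := Fact.out
  have hn1 : 1 ≤ A.n := by omega
  let iK : Algebra K (BF A) := κ.toRingHom.toAlgebra' fun a x => hU.com a x
  have iT : IsScalarTower F K (BF A) :=
    IsScalarTower.of_algebraMap_eq fun r => (κ.commutes r).symm
  have hκ : IsScalarTower.toAlgHom F K (BF A) = κ := AlgHom.ext fun _ => rfl
  have hU' : Uni A K := by
    unfold Uni
    rw [hκ]
    exact hU
  obtain ⟨c, hc, hcc, hc'⟩ := exists_conjE hU'
  have hT : ({v : Pl F | v ∈ S ∧ Split K v} ∪ S₀ ∪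
      {v : Pl F | ((p : ℕ) : 𝓞 F) ∈ v.asIdeal}).Finite :=
    (Set.Finite.union hS hS₀).union (finite_above_p hp.ne_zero)
  obtain ⟨v₀, hv₀, -, hs₀⟩ := exists_split_place hU.deg hc' hcc hT 0
  obtain ⟨v₁, hv₁, -, hs₁⟩ := exists_split_place hU.deg hc' hcc
    (hT.union (Set.finite_singleton v₀)) 0
  obtain ⟨v₂, hv₂, hv₂n, hs₂⟩ := exists_split_place hU.deg hc' hcc
    ((hT.union (Set.finite_singleton v₀)).union (Set.finite_singleton v₁)) A.n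
  simp only [Set.mem_union, Set.mem_ofPred_eq, Set.mem_singleton_iff, not_or, not_and] at hv₀ hv₁ hv₂
  obtain ⟨⟨hv₀S, hv₀S₀⟩, hv₀p⟩ := hv₀
  obtain ⟨⟨⟨hv₁S, hv₁S₀⟩, hv₁p⟩, hv₁₀⟩ := hv₁
  obtain ⟨⟨⟨⟨hv₂S, hv₂S₀⟩, hv₂p⟩, hv₂₀⟩, hv₂₁⟩ := hv₂
  have hv₀S : v₀ ∉ S := fun h => hv₀S h hs₀
  have hv₁S : v₁ ∉ S := fun h => hv₁S h hs₁
  have hv₂S : v₂ ∉ S := fun h => hv₂S h hs₂
  obtain ⟨v, hv⟩ : ∃ v : Fin 3 → {v : Pl F // v ∉ S},
      v = ![⟨v₀, hv₀S⟩, ⟨v₁, hv₁S⟩, ⟨v₂, hv₂S⟩] := ⟨_, rfl⟩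
  have e0 : (v 0).1 = v₀ := by rw [hv]; rfl
  have e1 : (v 1).1 = v₁ := by rw [hv]; rfl
  have e2 : (v 2).1 = v₂ := by rw [hv]; rfl
  have hvi : Function.Injective v := by
    have h01 : v 0 ≠ v 1 := fun h => hv₁₀ (by rw [← e0, ← e1, h])
    have h02 : v 0 ≠ v 2 := fun h => hv₂₀ (by rw [← e0, ← e2, h])
    have h12 : v 1 ≠ v 2 := fun h => hv₂₁ (by rw [← e1, ← e2, h])
    intro i j h
    fin_cases i <;> fin_cases j
    · rfl
    · exact absurd h h01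
    · exact absurd h h02
    · exact absurd h.symm h01
    · rfl
    · exact absurd h h12
    · exact absurd h.symm h02
    · exact absurd h.symm h12
    · rfl
  have hvp : ∀ i, ((p : ℕ) : 𝓞 F) ∉ (v i).1.asIdeal := by
    intro i
    fin_cases i
    · show ((p : ℕ) : 𝓞 F) ∉ (v 0).1.asIdeal
      rw [e0]
      exact hv₀p
    · show ((p : ℕ) : 𝓞 F) ∉ (v 1).1.asIdeal
      rw [e1]
      exact hv₁p
    · show ((p : ℕ) : 𝓞 F) ∉ (v 2).1.asIdeal
      rw [e2]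
      exact hv₂p
  obtain ⟨i₃, hi₃⟩ := exists_isSc hU' hn1 (θ.θ (v 2))
  obtain ⟨v₃, hv₃⟩ := exists_placeK hi₃.1
  have hv₃' : IsW (IsScalarTower.toAlgHom F K (BF A)) θ (v 2) v₃ := (isW_iff hn1 θ hi₃ v₃).2 hv₃
  obtain ⟨t, hst, ht, ht'⟩ := exists_tU hU' (by omega) θ hvi (by rw [e2]; exact hv₂n)
  refine ⟨v, v₃, ?_, ?_, ?_⟩
  · intro i
    fin_cases i
    · show (v 0).1 ∉ S₀
      rw [e0]
      exact hv₀S₀
    · show (v 1).1 ∉ S₀
      rw [e1]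
      exact hv₁S₀
    · show (v 2).1 ∉ S₀
      rw [e2]
      exact hv₂S₀
  · rw [← hκ]
    exact hv₃'
  intro Kf hK hsm y
  -- a power of a unit `e₀` in the stabiliser
  have key : ∀ {M : Type} [Field M] [NumberField M] [Algebra F M] [Algebra K M]
      (ι : M →ₐ[F] BF A) (τ : M ≃ₐ[F] M), (∀ x, star (ι x) = ι (τ x)) →
      ∀ (u e₀ : (𝓞 M)ˣ), τ ((e₀ : 𝓞 M) : M) * ((e₀ : 𝓞 M) : M) = 1 →
      (∀ (a b : ℤ) (f : K),
        ((e₀ : 𝓞 M) : M) ^ a = ((u : 𝓞 M) : M) ^ b * algebraMap K M f → a = 0) →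
      ∃ e : (𝓞 M)ˣ, τ ((e : 𝓞 M) : M) * ((e : 𝓞 M) : M) = 1 ∧
        uU ι ((e : 𝓞 M) : M) ∈ Stab Kf y ∧ ∀ (a b : ℤ) (f : K),
        ((e : 𝓞 M) : M) ^ a = ((u : 𝓞 M) : M) ^ b * algebraMap K M f → a = 0 := by
    intro M _ _ _ _ ι τ hτ u e₀ he₁ he₀
    obtain ⟨m, hm, hst⟩ := exists_pow_mem_stabU hK y ι τ hτ
    have h1 : (((e₀ ^ m : (𝓞 M)ˣ) : 𝓞 M) : M) = ((e₀ : 𝓞 M) : M) ^ m := by
      rw [Units.val_pow_eq_pow_val]
      exact map_pow (algebraMap (𝓞 M) M) _ _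
    refine ⟨e₀ ^ m, ?_, ?_, ?_⟩
    · rw [h1, map_pow, ← mul_pow, he₁, one_pow]
    · rw [h1, MN8_pow ι hτ he₁]
      exact hst e₀ he₁
    · intro a b f hf
      rw [h1, ← zpow_natCast, ← _root_.zpow_mul] at hf
      have h2 := he₀ _ _ _ hf
      rcases mul_eq_zero.1 h2 with h3 | h3
      · exact absurd (Int.natCast_eq_zero.1 h3) hm.ne'
      · exact h3
  constructor
  · obtain ⟨M, iM1, iM2, iM3, iM4, iM5, ι, τ, u, hι, hM, hτ, hττ, hτc, -, -, sn, tr,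
      ⟨X, hX, hcard⟩, -⟩ := exists_niceU hU' hn hr hp θ hvp hv₃' hc hc' hst ht ht' hK hsm y
        (k := ZMod p) (h := fun _ => 0) (fun _ _ _ _ => (add_zero 0).symm) (c₀ := 1)
        (Stab Kf y).one_mem
    obtain ⟨e₀, he₁, he₀⟩ := exists_indepU hττ hτc hX (1 : (𝓞 M)ˣ) (Or.inr ⟨rfl, by omega⟩)
    obtain ⟨e, he1, he, hei⟩ := key (ι.restrictScalars F) τ hτ 1 e₀ he₁ he₀
    refine ⟨M, iM1, iM2, iM3, iM4, ι.restrictScalars F, τ, e,
      ⟨⟨iM5, hM, fun a => ι.commutes a, hτ⟩, ?_, he1, ?_, he, hei, sn, tr⟩⟩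
    · have h1 : (((1 : (𝓞 M)ˣ) : 𝓞 M) : M) = 1 := rfl
      rw [h1, map_one, one_mul]
    · have h1 : (((1 : (𝓞 M)ˣ) : 𝓞 M) : M) = 1 := rfl
      rw [h1, ← pow_zero (1 : M), MN8_pow (ι.restrictScalars F) hτ (by rw [map_one, one_mul]),
        pow_zero]
      exact (Stab Kf y).one_mem
  · intro hr2 k _ _ h hh c₀ hc₀ hh0
    obtain ⟨M, iM1, iM2, iM3, iM4, iM5, ι, τ, u, hι, hM, hτ, hττ, hτc, hu1, hu, sn, tr,
      ⟨X, hX, hcard⟩, hh1⟩ := exists_niceU hU' hn hr hp θ hvp hv₃' hc hc' hst ht ht' hK hsm y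
        (k := k) (h := h) hh hc₀
    obtain ⟨e₀, he₁, he₀⟩ := exists_indepU hττ hτc hX u (Or.inl (by omega))
    obtain ⟨e, he1, he, hei⟩ := key (ι.restrictScalars F) τ hτ u e₀ he₁ he₀
    exact ⟨M, iM1, iM2, iM3, iM4, ι.restrictScalars F, τ, u, e,
      ⟨⟨iM5, hM, fun a => ι.commutes a, hτ⟩, hu1, he1, hu, he, hei, sn, tr⟩, hh1 hh0⟩

end Pool.Agent.CGU
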