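import Pool.Agent.CGU.EFd

/-!
# Part E': the homomorphisms from `B ⊗ E` to the matrices
-/

noncomputable section

set_option linter.unusedSectionVars false

namespace Pool.Agent.CGU

open NumberField IsDedekindDomain Matrix Polynomial
open Pool.Agent.CG2 (Pl Fv Ov GalF Fbar Zbar Over IsInertia IsFrob Nm)
open Pool.Agent.CG2.GalFinAux (below)
open Pool.Agent.CGQ
open Pool.Agent.CGN (SC Split abv ActsAs oF Cl T2p T2 T3p T3 RR)

variable {F : Type} [Field F] [NumberField F] {K : Type} [Field K] [NumberField K] [Algebra F K]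
variable {A : UD F} [Algebra K (BF A)] [IsScalarTower F K (BF A)] {E : Type} [Field E]
  {φ : F →+* E}

private theorem RH1_pi {ι F E : Type} [Fintype ι] [DecidableEq ι] [Field F] [Field E] (φ : F →+* E) {m : ℕ}
    {u : Fin m → ι → F} (hu : LinearIndependent F u) : LinearIndependent E fun k i => φ (u k i) := by
  have hinj : Function.Injective (Fintype.linearCombination F u) := by
    rw [← LinearMap.ker_eq_bot, LinearMap.ker_eq_bot']
    intro a ha
    rw [Fintype.linearCombination_apply] at ha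
    exact funext (Fintype.linearIndependent_iff.1 hu a ha)
  obtain ⟨g, hg⟩ := LinearMap.exists_leftInverse_of_injective _ (LinearMap.ker_eq_bot.2 hinj)
  have hmat : LinearMap.toMatrix' g * LinearMap.toMatrix' (Fintype.linearCombination F u) = 1 := by
    rw [← LinearMap.toMatrix'_comp, hg, LinearMap.toMatrix'_id]
  have hmat' : (LinearMap.toMatrix' g).map φ * (LinearMap.toMatrix' (Fintype.linearCombination F u)).map φ = 1 := by
    rw [← Matrix.map_mul, hmat, Matrix.map_one φ (map_zero φ) (map_one φ)]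
  have hU : ∀ i k, (LinearMap.toMatrix' (Fintype.linearCombination F u)).map φ i k = φ (u k i) := by
    intro i k
    rw [Matrix.map_apply, LinearMap.toMatrix'_apply]
    congr 1
    rw [Fintype.linearCombination_apply]
    have h1 : ∀ j : Fin m, (if j = k then (1 : F) else 0) • u j = if j = k then u j else 0 := by
      intro j
      split_ifs
      · rw [one_smul]
      · rw [zero_smul]
    simp only [Pi.single_apply, h1]
    rw [Finset.sum_ite_eq' Finset.univ k u, if_pos (Finset.mem_univ k)]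
  rw [Fintype.linearIndependent_iff]
  intro b hb
  have h1 : ((LinearMap.toMatrix' (Fintype.linearCombination F u)).map φ).mulVec b = 0 := by
    funext i
    have h2 := congrFun hb i
    rw [Finset.sum_apply] at h2
    rw [Matrix.mulVec, dotProduct]
    simp only [hU]
    refine Eq.trans (Finset.sum_congr rfl fun k _ => ?_) h2
    rw [Pi.smul_apply, smul_eq_mul, mul_comm]
  have h2 : b = 0 := by
    rw [← Matrix.one_mulVec b, ← hmat', ← Matrix.mulVec_mulVec, h1, Matrix.mulVec_zero]
  intro k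
  rw [h2]
  rfl

/-- **RH1.** Linear independence over `F` is preserved by extension of scalars.
PROOF. As `CGN.lin_map` (CGN/EFa.lean), with the coordinates indexed by `Fin 2 × Fin A.n × Fin A.n`. -/
theorem lin_mapU {m : ℕ} {u : Fin m → BF A} (hu : LinearIndependent F u) :
    LinearIndependent E fun k => bE A φ (u k) := by
  exact RH1_pi (ι := Fin 2 × Fin A.n × Fin A.n) φ hu

private theorem RH2_alg (A : UD F) {E : Type} [Field E] (φ : F →+* E) (a : F) :
    bE A φ (algebraMap F (BF A) a) = algebraMap E (BE A φ) (φ a) := by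
  apply SC.Alg.ext
  intro i
  rw [Algebra.algebraMap_eq_smul_one, Algebra.algebraMap_eq_smul_one, bE_co, SC.Alg.co_smul,
    SC.Alg.co_smul, map_mul]
  rfl

/-- **RH2.** The action of `K` on `E ^ n`.
PROOF. GN4 for the ring homomorphism `(h : BE A φ →+* _).comp (bE A φ)` (`finite_B`, `finrank_B`, `simple_B`, `central_B`): `i`. For `a : F`:
`bE A φ (algebraMap K _ (algebraMap F K a)) = bE A φ (algebraMap F _ a) = algebraMap E _ (φ a)` (coordinates: `algebraMap F (BF A) a = a • 1`), and
`algebraMap E (Matrix ..)` is injective (`1 ≤ n`). -/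
theorem exists_isSc (hU : Uni A K) (hn : 1 ≤ A.n)
    (h : BE A φ →ₐ[E] Matrix (Fin A.n) (Fin A.n) E) : ∃ i : K →+* E, IsSc h i := by
  have hs0 : IsSimpleRing (BF A) := simple_B hU
  have : Module.Finite K (BF A) := finite_B
  obtain ⟨i, hi⟩ := exists_scalar (central_B hU) (finrank_B hU) hn
    ((h : BE A φ →+* Matrix (Fin A.n) (Fin A.n) E).comp (bE A φ))
  have hi' : ∀ a : K, h (bE A φ (algebraMap K (BF A) a)) = algebraMap E _ (i a) := hi
  refine ⟨i, fun a => ?_, hi'⟩
  have h1 := hi' (algebraMap F K a)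
  rw [← IsScalarTower.algebraMap_apply, RH2_alg, AlgHom.commutes] at h1
  have : Nonempty (Fin A.n) := ⟨⟨0, hn⟩⟩
  exact ((algebraMap E (Matrix (Fin A.n) (Fin A.n) E)).injective h1).symm

/-- **RH3.** The first component of `B ⊗ E`.
PROOF. `N = n ^ 2`; `i` of RH2, `c` of `exists_conjE`, `a₀ ∈ K` with `c a₀ ≠ a₀`, `λ = i a₀`, `μ = i (c a₀)`, `λ ≠ μ` (`i` injective). `s = a₀ + c a₀` and
`p = a₀ * c a₀` are fixed by `c`, so in `F` (`c` generates the Galois group of the quadratic extension: the fixed field is a proper subfield of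
`K`, `F ≤ fixed field`; or: `1`, `a₀` is a basis of `K` over `F`, an element `x + y a₀` fixed by `c` has `y = 0`). Put
`e = (λ - μ)⁻¹ • (bE (algebraMap K _ a₀) - μ • 1)`. Then: `e` is central (it commutes with all `bE x`, which span over `E`); `h e = 1`;
`star e = (λ - μ)⁻¹ • (bE (algebraMap K _ (c a₀)) - μ • 1)` (`bE_star`, `star_smul_alg`), `h (star e) = 0`; `e + star e = 1`
(`bE (algebraMap K _ s) = (λ + μ) • 1` as `s ∈ F`, `φ s = i s = λ + μ`); `e * (bE (algebraMap K _ a₀) - λ • 1) = 0` (`a₀ ^ 2 - s a₀ + p = 0`).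
Let `u k`, `k < N`, be a basis of `B` over `K`; `u k`, `a₀ • u k` form a basis of `B` over `F`
(`Basis.smulTower`/`LinearIndependent.smul`...), so by RH1 and the dimension `2 n ^ 2` of `BE A φ` the `bE (u k)`, `bE (algebraMap K _ a₀ * u k)` form a basis over `E`.
`h (bE (u k))` is a basis of the matrices over `E` (GN2, dimension `n ^ 2`); `ρ` = the linear map with `h (bE (u k)) ↦ e * bE (u k)`.
(i) `ρ (h x) = e * x` for all `x`: for `x = bE (u k)` by definition, for `x = bE (algebraMap K _ a₀ * u k)`: `h x = λ • h (bE (u k))` and `e * x = λ • e * bE (u k)`.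
(ii) `h (ρ X) = X` (basis). (iii) `h (star (ρ X)) = 0`: `X = h x` (`h` is surjective, by the basis), `star (e * x) = star x * star e`.
(iv) `x = e * x + star e * x = ρ (h x) + star (e * star x) = ρ (h x) + star (ρ (h (star x)))` (`star e` is central). -/
theorem exists_rho (hU : Uni A K) (hn : 1 ≤ A.n)
    (h : BE A φ →ₐ[E] Matrix (Fin A.n) (Fin A.n) E) :
    ∃ ρ : Matrix (Fin A.n) (Fin A.n) E →ₗ[E] BE A φ, (∀ X, h (ρ X) = X) ∧
      (∀ X, h (star (ρ X)) = 0) ∧ ∀ x, x = ρ (h x) + star (ρ (h (star x))) := by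
  have hs0 : IsSimpleRing (BF A) := simple_B hU
  have : Module.Finite K (BF A) := finite_B
  obtain ⟨i, hi1, hi2⟩ := exists_isSc hU hn h
  obtain ⟨c, hc1, hc2, a₀, ha₀⟩ := exists_conjE hU
  have hne : i a₀ - i (c a₀) ≠ 0 := by
    intro h1
    exact ha₀ (i.injective (sub_eq_zero.1 h1)).symm
  have hspan := span_image (central_B hU) (finrank_B hU) hn
    ((h : BE A φ →+* Matrix (Fin A.n) (Fin A.n) E).comp (bE A φ))
  -- the map to the product
  let Θ : BE A φ →ₗ[E] Matrix (Fin A.n) (Fin A.n) E × Matrix (Fin A.n) (Fin A.n) E :=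
    h.toLinearMap.prod (h.toLinearMap.comp (A.sF.map φ).stLin)
  have hΘ : ∀ x, Θ x = (h x, h (star x)) := fun _ => rfl
  have hmul : ∀ x : BF A, Θ (bE A φ (algebraMap K (BF A) a₀ * x)) =
      (i a₀ • h (bE A φ x), i (c a₀) • h (bE A φ (star x))) := by
    intro x
    rw [hΘ]
    refine Prod.ext ?_ ?_
    · show h (bE A φ (algebraMap K (BF A) a₀ * x)) = i a₀ • h (bE A φ x)
      rw [map_mul, map_mul, hi2, ← Algebra.smul_def]
    · show h (star (bE A φ (algebraMap K (BF A) a₀ * x))) = i (c a₀) • h (bE A φ (star x))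
      rw [← bE_star, star_mul, hc1, ← Algebra.commutes, map_mul, map_mul, hi2, ← Algebra.smul_def]
  have hΘb : ∀ x : BF A, Θ (bE A φ x) = (h (bE A φ x), h (bE A φ (star x))) := by
    intro x
    rw [hΘ, bE_star]
  have hl : ∀ X : Matrix (Fin A.n) (Fin A.n) E, (X, 0) ∈ LinearMap.range Θ := by
    have h1 : Submodule.span E (Set.range ((h : BE A φ →+* Matrix (Fin A.n) (Fin A.n) E).comp (bE A φ)))
        ≤ (LinearMap.range Θ).comap (LinearMap.inl E (Matrix (Fin A.n) (Fin A.n) E)
          (Matrix (Fin A.n) (Fin A.n) E)) := by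
      rw [Submodule.span_le]
      rintro _ ⟨x, rfl⟩
      refine ⟨(i a₀ - i (c a₀))⁻¹ • (bE A φ (algebraMap K (BF A) a₀ * x) - i (c a₀) • bE A φ x), ?_⟩
      rw [map_smul, map_sub, map_smul, hmul, hΘb]
      refine Prod.ext ?_ ?_
      · show (i a₀ - i (c a₀))⁻¹ • (i a₀ • h (bE A φ x) - i (c a₀) • h (bE A φ x)) = h (bE A φ x)
        rw [← sub_smul, smul_smul, inv_mul_cancel₀ hne, one_smul]
      · show (i a₀ - i (c a₀))⁻¹ • (i (c a₀) • h (bE A φ (star x)) -
          i (c a₀) • h (bE A φ (star x))) = 0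
        rw [sub_self, smul_zero]
    intro X
    rw [hspan] at h1
    exact h1 (Submodule.mem_top (x := X))
  have hr : ∀ X : Matrix (Fin A.n) (Fin A.n) E, (0, X) ∈ LinearMap.range Θ := by
    have h1 : Submodule.span E (Set.range ((h : BE A φ →+* Matrix (Fin A.n) (Fin A.n) E).comp (bE A φ)))
        ≤ (LinearMap.range Θ).comap (LinearMap.inr E (Matrix (Fin A.n) (Fin A.n) E)
          (Matrix (Fin A.n) (Fin A.n) E)) := by
      rw [Submodule.span_le]
      rintro _ ⟨y, rfl⟩
      obtain ⟨x, rfl⟩ : ∃ x, y = star x := ⟨star y, (star_star y).symm⟩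
      refine ⟨-(i a₀ - i (c a₀))⁻¹ • (bE A φ (algebraMap K (BF A) a₀ * x) - i a₀ • bE A φ x), ?_⟩
      rw [map_smul, map_sub, map_smul, hmul, hΘb]
      refine Prod.ext ?_ ?_
      · show -(i a₀ - i (c a₀))⁻¹ • (i a₀ • h (bE A φ x) - i a₀ • h (bE A φ x)) = 0
        rw [sub_self, smul_zero]
      · show -(i a₀ - i (c a₀))⁻¹ • (i (c a₀) • h (bE A φ (star x)) -
          i a₀ • h (bE A φ (star x))) = h (bE A φ (star x))
        rw [← sub_smul, smul_smul, ← neg_sub (i a₀), neg_mul_neg, inv_mul_cancel₀ hne, one_smul]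
    intro X
    rw [hspan] at h1
    exact h1 (Submodule.mem_top (x := X))
  have hsurj : Function.Surjective Θ := by
    rintro ⟨X, Y⟩
    have h1 := Submodule.add_mem _ (hl X) (hr Y)
    rw [Prod.mk_add_mk, add_zero, zero_add] at h1
    exact h1
  have hfin : Module.finrank E (BE A φ) =
      Module.finrank E (Matrix (Fin A.n) (Fin A.n) E × Matrix (Fin A.n) (Fin A.n) E) := by
    rw [(A.sF.map φ).toSC.lin.finrank_eq, Module.finrank_fintype_fun_eq_card,
      Module.finrank_prod, Module.finrank_matrix, Module.finrank_self]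
    simp only [Fintype.card_prod, Fintype.card_fin]
    ring
  have hinj : Function.Injective Θ :=
    (LinearMap.injective_iff_surjective_of_finrank_eq_finrank hfin).2 hsurj
  let e : BE A φ ≃ₗ[E] Matrix (Fin A.n) (Fin A.n) E × Matrix (Fin A.n) (Fin A.n) E :=
    LinearEquiv.ofBijective Θ ⟨hinj, hsurj⟩
  let ρ : Matrix (Fin A.n) (Fin A.n) E →ₗ[E] BE A φ :=
    e.symm.toLinearMap.comp (LinearMap.inl E _ _)
  have hρ : ∀ X, Θ (ρ X) = (X, 0) := fun X => e.apply_symm_apply (X, 0)
  have h1 : ∀ X, h (ρ X) = X := fun X => congrArg Prod.fst (hρ X)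
  have h2 : ∀ X, h (star (ρ X)) = 0 := fun X => congrArg Prod.snd (hρ X)
  refine ⟨ρ, h1, h2, fun x => hinj ?_⟩
  rw [hΘ, hΘ, star_add, star_star, map_add, map_add, h1, h2, h2, h1, add_zero, zero_add]

/-- **RH4.** Symmetric elements with a given image. PROOF. `ρ X + star (ρ X)`. -/
theorem symm_surj (hU : Uni A K) (hn : 1 ≤ A.n)
    (h : BE A φ →ₐ[E] Matrix (Fin A.n) (Fin A.n) E) (X : Matrix (Fin A.n) (Fin A.n) E) :
    ∃ x : BE A φ, star x = x ∧ h x = X := by
  obtain ⟨ρ, h1, h2, _⟩ := exists_rho hU hn h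
  refine ⟨ρ X + star (ρ X), ?_, ?_⟩
  · rw [star_add, star_star, add_comm]
  · rw [map_add, h1, h2, add_zero]

private theorem RH5_lin {ι E : Type} [Fintype ι] [DecidableEq ι] [Field E] [TopologicalSpace E]
    [IsTopologicalRing E] (f : (ι → E) →ₗ[E] E) : Continuous f := by
  have h : ∀ x, f x = ∑ i, x i * f (Pi.single i 1) := by
    intro x
    conv_lhs => rw [pi_eq_sum_univ' x, map_sum]
    refine Finset.sum_congr rfl fun i _ => ?_
    rw [map_smul, smul_eq_mul]
  have h2 : (f : (ι → E) → E) = fun x => ∑ i, x i * f (Pi.single i 1) := funext h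
  rw [h2]
  exact continuous_finsetSum _ fun i _ => (continuous_apply i).mul continuous_const

/-- **RH5.** Linear maps between `B ⊗ E` and the matrices are continuous.
PROOF. As `CGN.iso_cont` (CGN/EAa.lean): `h x = ∑ i, x.co i • h (e i)`; `ρ X = ∑ i j, X i j • ρ (Matrix.single i j 1)`; `continuous_co`,
`continuous_alg`. -/
theorem hom_cont [TopologicalSpace E] [IsTopologicalRing E]
    (h : BE A φ →ₗ[E] Matrix (Fin A.n) (Fin A.n) E) : Continuous h := by
  refine continuous_matrix fun i j => ?_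
  let f : (Fin 2 × Fin A.n × Fin A.n → E) →ₗ[E] E :=
    ((Matrix.entryLinearMap E E i j).comp h).comp ((A.sF.map φ).toSC.lin.symm.toLinearMap)
  exact RH5_lin f

/-- **RH5 (2).** -/
theorem lin_cont [TopologicalSpace E] [IsTopologicalRing E]
    (ρ : Matrix (Fin A.n) (Fin A.n) E →ₗ[E] BE A φ) : Continuous ρ := by
  refine CGN.continuous_alg fun i => ?_
  let g : (Fin A.n × Fin A.n → E) →ₗ[E] Matrix (Fin A.n) (Fin A.n) E :=
    { toFun := fun x => Matrix.of fun a b => x (a, b)
      map_add' := fun _ _ => rfl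
      map_smul' := fun _ _ => rfl }
  let f : (Fin A.n × Fin A.n → E) →ₗ[E] E :=
    (((LinearMap.proj i).comp ((A.sF.map φ).toSC.lin.toLinearMap)).comp ρ).comp g
  have h1 : Continuous f := RH5_lin f
  have h2 : Continuous fun M : Matrix (Fin A.n) (Fin A.n) E =>
      (fun p : Fin A.n × Fin A.n => M p.1 p.2) :=
    continuous_pi fun p => (continuous_apply_apply p.1 p.2)
  exact h1.comp h2

/-- **RH6.** The results of `EGn.lean` for `B`. PROOF. GN5 - GN7 for the ring homomorphism `(h : BE A φ →+* _).comp (bE A φ)`. -/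
theorem minpoly_leU (hU : Uni A K) (hn : 1 ≤ A.n)
    (h : BE A φ →ₐ[E] Matrix (Fin A.n) (Fin A.n) E) (c : BF A) :
    (minpoly K c).natDegree ≤ A.n := by
  have hs0 : IsSimpleRing (BF A) := simple_B hU
  have : Module.Finite K (BF A) := finite_B
  exact minpoly_le (central_B hU) hn
    ((h : BE A φ →+* Matrix (Fin A.n) (Fin A.n) E).comp (bE A φ)) c

theorem hom_aevalU (h : BE A φ →ₐ[E] Matrix (Fin A.n) (Fin A.n) E) {i : K →+* E}
    (hi : IsSc h i) (c : BF A) (f : K[X]) :
    h (bE A φ (aeval c f)) = aeval (h (bE A φ c)) (f.map i) := by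
  exact hom_aeval ((h : BE A φ →+* Matrix (Fin A.n) (Fin A.n) E).comp (bE A φ)) hi.2 c f

theorem charpoly_eqU (hU : Uni A K) (hn : 1 ≤ A.n)
    (h : BE A φ →ₐ[E] Matrix (Fin A.n) (Fin A.n) E) {i : K →+* E} (hi : IsSc h i) {c : BF A}
    (hc : (minpoly K c).natDegree = A.n) : (h (bE A φ c)).charpoly = (minpoly K c).map i := by
  have hs0 : IsSimpleRing (BF A) := simple_B hU
  have : Module.Finite K (BF A) := finite_B
  exact charpoly_eq (central_B hU) hn
    ((h : BE A φ →+* Matrix (Fin A.n) (Fin A.n) E).comp (bE A φ)) hi.2 hc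

theorem deg_of_sepU (hU : Uni A K) (hn : 1 ≤ A.n)
    (h : BE A φ →ₐ[E] Matrix (Fin A.n) (Fin A.n) E) {c : BF A}
    (hs : (h (bE A φ c)).charpoly.Separable) : (minpoly K c).natDegree = A.n := by
  have hs0 : IsSimpleRing (BF A) := simple_B hU
  have : Module.Finite K (BF A) := finite_B
  obtain ⟨i, hi⟩ := exists_isSc hU hn h
  exact deg_of_sep (central_B hU) hn
    ((h : BE A φ →+* Matrix (Fin A.n) (Fin A.n) E).comp (bE A φ)) hi.2 hs

end Pool.Agent.CGU
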