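import Pool.Agent.CGU.EWa
import Pool.Agent.CGN.EAb

/-!
# Part E': the element `t`
-/

noncomputable section

set_option linter.unusedSectionVars false

namespace Pool.Agent.CGU

open NumberField IsDedekindDomain Matrix Polynomial
open Pool.Agent.CG2 (Pl Fv Ov GalF Fbar Zbar Over IsInertia IsFrob Nm)
open Pool.Agent.CG2.GalFinAux (below)
open Pool.Agent.CGQ
open Pool.Agent.CGN (SC Split abv ActsAs oF Cl T2p T2 T3p T3 RR exists_charpoly exists_T2p
  exists_T3p isOpen_T2 isOpen_T3 real_open)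

variable {F : Type} [Field F] [NumberField F] {K : Type} [Field K] [NumberField K] [Algebra F K]

/-- **TT1.** Polynomials which are irreducible modulo `v`.
PROOF. See `CGN.exists_T2p` (CGN/EAb.lean): an irreducible monic polynomial of degree `n ≥ 1` over the finite field
`𝓞 F ⧸ v.asIdeal`, lifted to a monic polynomial of the same degree. -/
theorem exists_T1p (v : Pl F) {n : ℕ} (hn : 1 ≤ n) : ∃ g : (𝓞 F)[X], T1p v n g := by
  letI : Field (𝓞 F ⧸ v.asIdeal) := Ideal.Quotient.field v.asIdeal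
  have hfin : Finite (𝓞 F ⧸ v.asIdeal) := Ideal.finiteQuotientOfFreeOfNeBot _ v.ne_bot
  have hm0 : NeZero n := ⟨by omega⟩
  have hchar : Fact (ringChar (𝓞 F ⧸ v.asIdeal)).Prime :=
    ⟨CharP.char_is_prime (𝓞 F ⧸ v.asIdeal) (ringChar (𝓞 F ⧸ v.asIdeal))⟩
  obtain ⟨θ, hθ⟩ := Field.exists_primitive_element (𝓞 F ⧸ v.asIdeal)
    (FiniteField.Extension (𝓞 F ⧸ v.asIdeal) (ringChar (𝓞 F ⧸ v.asIdeal)) n)
  have hdeg := (Field.primitive_element_iff_minpoly_natDegree_eq (𝓞 F ⧸ v.asIdeal) θ).1 hθ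
  rw [FiniteField.finrank_extension] at hdeg
  have hint : IsIntegral (𝓞 F ⧸ v.asIdeal) θ := Algebra.IsIntegral.isIntegral θ
  have hirr := minpoly.irreducible hint
  have hmon := minpoly.monic hint
  obtain ⟨g, hg1, hg2, hg3⟩ := lifts_and_natDegree_eq_and_monic
    (f := Ideal.Quotient.mk v.asIdeal) (p := minpoly (𝓞 F ⧸ v.asIdeal) θ) (by
      rw [lifts_iff_coeff_lifts]
      intro k
      obtain ⟨c, hc⟩ := Ideal.Quotient.mk_surjective ((minpoly (𝓞 F ⧸ v.asIdeal) θ).coeff k)
      exact ⟨c, hc⟩) hmon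
  exact ⟨g, hg3, by rw [hg2, hdeg], by rw [hg1]; exact hirr⟩

private theorem TT2_cl (v : Pl F) (n m : ℕ) (p : (𝓞 F)[X]) :
    IsOpen {M : Matrix (Fin n) (Fin n) (Fv v) | Cl v m M.charpoly p} := by
  have hcont : ∀ i, Continuous fun M : Matrix (Fin n) (Fin n) (Fv v) => M.charpoly.coeff i := by
    intro i
    have h1 : ∀ M : Matrix (Fin n) (Fin n) (Fv v), M.charpoly.coeff i =
        MvPolynomial.eval (fun ij : Fin n × Fin n => M ij.1 ij.2)
          ((Matrix.charpoly.univ (Fv v) (Fin n)).coeff i) := by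
      intro M
      have h2 := Matrix.charpoly.univ_coeff_eval₂Hom (Fin n) (RingHom.id (Fv v))
        (fun ij : Fin n × Fin n => M ij.1 ij.2) i
      exact h2.symm
    simp_rw [h1]
    refine (MvPolynomial.continuous_eval _).comp ?_
    exact continuous_pi fun ij => (continuous_apply ij.2).comp (continuous_apply ij.1)
  have hopen : ∀ i, IsOpen {M : Matrix (Fin n) (Fin n) (Fv v) |
      Valued.v (M.charpoly.coeff i - oF v (p.coeff i)) ≤ WithZero.exp (-(m : ℤ))} := by
    intro i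
    exact (CG2.isOpen_val_le v _ WithZero.exp_ne_zero).preimage
      ((hcont i).sub continuous_const)
  by_cases hP : ∀ i, n < i → Valued.v ((0 : Fv v) - oF v (p.coeff i)) ≤ WithZero.exp (-(m : ℤ))
  · have h3 : {M : Matrix (Fin n) (Fin n) (Fv v) | Cl v m M.charpoly p} =
        ⋂ i ∈ Finset.range (n + 1), {M : Matrix (Fin n) (Fin n) (Fv v) |
          Valued.v (M.charpoly.coeff i - oF v (p.coeff i)) ≤ WithZero.exp (-(m : ℤ))} := by
      ext M
      simp only [Set.mem_setOf_eq, Set.mem_iInter, Finset.mem_range]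
      constructor
      · intro h i _
        exact h i
      · intro h i
        rcases Nat.lt_or_ge n i with hi | hi
        · have h4 : M.charpoly.coeff i = 0 := by
            refine coeff_eq_zero_of_natDegree_lt ?_
            rw [Matrix.charpoly_natDegree_eq_dim, Fintype.card_fin]
            exact hi
          rw [h4]
          exact hP i hi
        · exact h i (by omega)
    rw [h3]
    exact isOpen_biInter_finset fun i _ => hopen i
  · push Not at hP
    obtain ⟨i, hi, hlt⟩ := hP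
    have h3 : {M : Matrix (Fin n) (Fin n) (Fv v) | Cl v m M.charpoly p} = ∅ := by
      ext M
      simp only [Set.mem_setOf_eq, Set.mem_empty_iff_false, iff_false]
      intro h
      have h4 : M.charpoly.coeff i = 0 := by
        refine coeff_eq_zero_of_natDegree_lt ?_
        rw [Matrix.charpoly_natDegree_eq_dim, Fintype.card_fin]
        exact hi
      have h5 := h i
      rw [h4] at h5
      exact absurd h5 (not_le.2 hlt)
    rw [h3]
    exact isOpen_empty

/-- **TT2.** It is an open condition.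
PROOF. As `CGN.isOpen_T2` (with its private lemma `AB4_cl`). -/
theorem isOpen_T1 (v : Pl F) (n : ℕ) :
    IsOpen {M : Matrix (Fin n) (Fin n) (Fv v) | T1 v n M.charpoly} := by
  have h : {M : Matrix (Fin n) (Fin n) (Fv v) | T1 v n M.charpoly} =
      ⋃ (g : (𝓞 F)[X]) (_ : T1p v n g),
        {M : Matrix (Fin n) (Fin n) (Fv v) | Cl v 1 M.charpoly g} := by
    ext M
    simp only [Set.mem_setOf_eq, Set.mem_iUnion, T1, exists_prop]
  rw [h]
  exact isOpen_iUnion fun g => isOpen_iUnion fun _ => TT2_cl v n 1 _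

variable {A : UD F} [Algebra K (BF A)] [IsScalarTower F K (BF A)] {S : Set (Pl F)}

/-- **TT3.** The element `t`.
PROOF. As `CGN.exists_t` (CGN/EAb.lean): `exists_approxU` with the three sets of the matrices of the local types (TT1, TT2, `exists_T2p`,
`isOpen_T2`, `exists_T3p`, `isOpen_T3`, `exists_charpoly`) and the set of `real_open`. -/
theorem exists_tU (hU : Uni A K) (hn : 2 ≤ A.n) (θ : USpl A S)
    {v : Fin 3 → {v : Pl F // v ∉ S}} (hv : Function.Injective v) (hvn : A.n ≤ Nm (v 2).1) :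
    ∃ t : BF A, star t = t ∧ TyU θ v t ∧ TyRU A t := by
  have hcl : ∀ (v : Pl F) (m : ℕ) (p : (𝓞 F)[X]), Cl v m (p.map (oF v)) p := by
    intro v m p i
    rw [coeff_map, sub_self, map_zero]
    exact zero_le
  obtain ⟨g₀, hg₀⟩ := exists_T1p (v 0).1 (n := A.n) (by omega)
  obtain ⟨M₀, hM₀⟩ := exists_charpoly (hg₀.mo.map (oF (v 0).1))
    ((hg₀.mo.natDegree_map _).trans hg₀.dg)
  obtain ⟨a, g, hg⟩ := exists_T2p (v 1).1 hn
  have hm : ((X - C a) * g).Monic := (monic_X_sub_C a).mul hg.mo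
  have hd : ((X - C a) * g).natDegree = A.n := by
    rw [(monic_X_sub_C a).natDegree_mul hg.mo, natDegree_X_sub_C, ← hg.dg]
    ring
  obtain ⟨M, hM⟩ := exists_charpoly (hm.map (oF (v 1).1)) ((hm.natDegree_map _).trans hd)
  obtain ⟨p, a', b, hp⟩ := exists_T3p (v 2).1 hn hvn
  obtain ⟨M', hM'⟩ := exists_charpoly (hp.mo.map (oF (v 2).1)) ((hp.mo.natDegree_map _).trans hp.dg)
  obtain ⟨U, hUo, hUn, hUr⟩ := real_open A.n
  obtain ⟨t, hs, h1, h2, h3, hr⟩ := exists_approxU hU (by omega) θ hv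
    (isOpen_T1 (v 0).1 A.n) ⟨M₀, by
      change T1 _ _ M₀.charpoly
      rw [hM₀]
      exact ⟨g₀, hg₀, hcl _ _ _⟩⟩
    (isOpen_T2 (v 1).1 A.n) ⟨M, by
      change T2 _ _ M.charpoly
      rw [hM]
      exact ⟨a, g, hg, hcl _ _ _⟩⟩
    (isOpen_T3 (v 2).1 A.n) ⟨M', by
      change T3 _ _ M'.charpoly
      rw [hM']
      exact ⟨p, a', b, hp, hcl _ _ _⟩⟩ hUo hUn
  exact ⟨t, hs, ⟨h1, h2, h3⟩, fun w => hUr _ (hr w)⟩

end Pool.Agent.CGU
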