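import Pool.Agent.CGU.ERh
import Pool.Agent.CGN.EAa

/-!
# Part E': weak approximation for the symmetric elements of `B`
-/

noncomputable section

set_option linter.unusedSectionVars false

namespace Pool.Agent.CGU

open NumberField IsDedekindDomain Matrix Polynomial
open Pool.Agent.CG2 (Pl Fv Ov GalF Fbar Zbar Over IsInertia IsFrob Nm)
open Pool.Agent.CG2.GalFinAux (below)
open Pool.Agent.CGQ
open Pool.Agent.CGN (SC Split abv ActsAs oF Cl T2p T2 T3p T3 RR)

variable {F : Type} [Field F] [NumberField F] {K : Type} [Field K] [NumberField K] [Algebra F K]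

private theorem WA1_two : (1 : NNReal) < 2 := one_lt_two

/-- The absolute values. -/
private def WA1_abv (v : Fin 3 → Pl F) {W : Type} (σ : W → F →+* ℝ) :
    Fin 3 ⊕ W → AbsoluteValue F ℝ
  | Sum.inl i => (v i).adicAbv WA1_two
  | Sum.inr w => (InfinitePlace.mk (Complex.ofRealHom.comp (σ w))).1

private theorem WA1_inf (σ : F →+* ℝ) (x : F) :
    (InfinitePlace.mk (Complex.ofRealHom.comp σ)).1 x = |σ x| := by
  change ‖((σ x : ℝ) : ℂ)‖ = _
  rw [Complex.norm_real, Real.norm_eq_abs]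

private theorem WA1_mk_inj {σ τ : F →+* ℝ}
    (h : InfinitePlace.mk (Complex.ofRealHom.comp σ) = InfinitePlace.mk (Complex.ofRealHom.comp τ)) :
    σ = τ := by
  rcases InfinitePlace.mk_eq_iff.1 h with h2 | h2
  · ext x
    have h3 : ((σ x : ℝ) : ℂ) = ((τ x : ℝ) : ℂ) := RingHom.congr_fun h2 x
    exact_mod_cast h3
  · ext x
    have h3 := RingHom.congr_fun h2 x
    rw [ComplexEmbedding.conjugate_coe_eq] at h3
    have h4 : (starRingEnd ℂ) ((σ x : ℝ) : ℂ) = ((τ x : ℝ) : ℂ) := h3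
    rw [Complex.conj_ofReal] at h4
    exact_mod_cast h4

private theorem WA1_int (v : Pl F) (x : 𝓞 F) : v.adicAbv WA1_two (x : F) < 1 ↔ x ∈ v.asIdeal :=
  v.adicAbv_coe_lt_one_iff WA1_two x

/-- Natural numbers in the place. -/
private theorem WA1_nat (v : Pl F) : ∃ q : ℕ, 2 ≤ q ∧ v.adicAbv WA1_two (q : F) < 1 := by
  refine ⟨Ideal.absNorm v.asIdeal, ?_, ?_⟩
  · exact CG2.GalFinAux.two_le_N v
  · have h := (WA1_int v ((Ideal.absNorm v.asIdeal : ℕ) : 𝓞 F)).2 (Ideal.absNorm_mem v.asIdeal)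
    simpa using h

private theorem WA1_not_le {v v' : Pl F} (h : v ≠ v') : ∃ x : 𝓞 F, x ∈ v.asIdeal ∧ x ∉ v'.asIdeal := by
  by_contra hc
  push Not at hc
  apply h
  apply HeightOneSpectrum.ext
  exact v.isMaximal.eq_of_le v'.isPrime.ne_top hc

private theorem WA1_pair {v : Fin 3 → Pl F} (h : Function.Injective v) {W : Type} (σ : W → F →+* ℝ)
    (hσ : Function.Injective σ) :
    Pairwise fun i j => ¬ (WA1_abv v σ i).IsEquiv (WA1_abv v σ j) := by
  have hfin : ∀ v v' : Pl F, v ≠ v' → ¬ (v.adicAbv WA1_two : AbsoluteValue F ℝ).IsEquiv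
      (v'.adicAbv WA1_two) := by
    intro v v' hv he
    obtain ⟨x, hx, hx'⟩ := WA1_not_le hv
    exact hx' ((WA1_int v' x).1 ((he.lt_one_iff).1 ((WA1_int v x).2 hx)))
  have hmix : ∀ (v : Pl F) (w : F →+* ℝ), ¬ (v.adicAbv WA1_two : AbsoluteValue F ℝ).IsEquiv
      (InfinitePlace.mk (Complex.ofRealHom.comp w)).1 := by
    intro v w he
    obtain ⟨q, hq, hq'⟩ := WA1_nat v
    have h1 := (he.lt_one_iff).1 hq'
    rw [WA1_inf, map_natCast, Nat.abs_cast] at h1
    have : (2 : ℝ) ≤ q := by exact_mod_cast hq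
    linarith
  have hinf : ∀ w w' : W, w ≠ w' → ¬ (InfinitePlace.mk (Complex.ofRealHom.comp (σ w))).1.IsEquiv
      (InfinitePlace.mk (Complex.ofRealHom.comp (σ w'))).1 := by
    intro w w' hw he
    exact hw (hσ (WA1_mk_inj (InfinitePlace.eq_iff_isEquiv.2 he)))
  intro i j hij
  match i, j with
  | Sum.inl i, Sum.inl j => exact hfin _ _ fun e => hij (by rw [h e])
  | Sum.inl i, Sum.inr w => exact hmix _ _
  | Sum.inr w, Sum.inl i => exact fun he => hmix _ _ he.symm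
  | Sum.inr w, Sum.inr w' => exact hinf _ _ fun e => hij (by rw [e])

private theorem WA1_nontriv (v : Fin 3 → Pl F) {W : Type} (σ : W → F →+* ℝ) (i : Fin 3 ⊕ W) :
    (WA1_abv v σ i).IsNontrivial := by
  have hfin : ∀ v : Pl F, (v.adicAbv WA1_two : AbsoluteValue F ℝ).IsNontrivial := by
    intro v
    obtain ⟨q, hq, hq'⟩ := WA1_nat v
    exact ⟨q, by exact_mod_cast (by omega : q ≠ 0), hq'.ne⟩
  match i with
  | Sum.inl i => exact hfin _
  | Sum.inr w => exact InfinitePlace.isNontrivial _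

/-- Weak approximation inside `F`. -/
private theorem WA1_approx {v : Fin 3 → Pl F} (h : Function.Injective v) {W : Type} [Finite W] (σ : W → F →+* ℝ)
    (hσ : Function.Injective σ) (a : Fin 3 ⊕ W → F) {ε : ℝ} (hε : 0 < ε) :
    ∃ x : F, ∀ i, WA1_abv v σ i (x - a i) < ε := by
  have := Fintype.ofFinite W
  have hd := AbsoluteValue.denseRange_algebraMap_pi (WA1_nontriv v σ) (WA1_pair h σ hσ)
  obtain ⟨x, hx⟩ := Metric.denseRange_iff.1 hd
    (fun i => WithAbs.toAbs (WA1_abv v σ i) (a i)) ε hε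
  refine ⟨x, fun i => ?_⟩
  have h1 := (dist_pi_lt_iff hε).1 hx i
  rw [dist_comm, dist_eq_norm, WithAbs.norm_eq_apply_ofAbs] at h1
  exact h1

private theorem WA1_exp_lt (γ : WithZero (Multiplicative ℤ)) (hγ : γ ≠ 0) :
    ∃ n : ℕ, WithZero.exp (-(n : ℤ)) < γ := by
  obtain ⟨m, rfl⟩ : ∃ m : ℤ, γ = WithZero.exp m := ⟨WithZero.log γ, (WithZero.exp_log hγ).symm⟩
  refine ⟨(1 - m).toNat, WithZero.exp_lt_exp.2 ?_⟩
  have := Int.self_le_toNat (1 - m)
  omega

/-- The neighbourhoods of a point of `F_v`. -/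
private theorem WA1_nhds (v : Pl F) (x : Fv v) {V : Set (Fv v)} (hV : V ∈ nhds x) :
    ∃ n : ℕ, ∀ y : Fv v, Valued.v (y - x) ≤ WithZero.exp (-(n : ℤ)) → y ∈ V := by
  obtain ⟨γ, hγ⟩ := Valued.mem_nhds.1 hV
  have h0 : MonoidWithZeroHom.ValueGroup₀.embedding γ.1 ≠ 0 := by
    rw [map_ne_zero_iff _ (MonoidWithZeroHom.ValueGroup₀.embedding_strictMono.injective)]
    exact γ.ne_zero
  obtain ⟨n, hn⟩ := WA1_exp_lt _ h0
  refine ⟨n, fun y hy => hγ ?_⟩
  change Valued.v.restrict (y - x) < γ.1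
  rw [Valuation.restrict_lt_iff_lt_embedding]
  exact lt_of_le_of_lt hy hn

/-- A neighbourhood in `F_v` contains a ball around an element of `F`. -/
private theorem WA1_ball (v : Pl F) (x : Fv v) {V : Set (Fv v)} (hV : V ∈ nhds x) :
    ∃ (a : F) (ε : ℝ), 0 < ε ∧ ∀ z : F, v.adicAbv WA1_two (z - a) < ε → algebraMap F (Fv v) z ∈ V := by
  obtain ⟨n, hn⟩ := WA1_nhds v x hV
  have ho : IsOpen {y : Fv v | Valued.v (y - x) ≤ WithZero.exp (-(n : ℤ))} :=
    (CG2.isOpen_val_le v _ WithZero.exp_ne_zero).preimage (continuous_id.sub continuous_const)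
  obtain ⟨a, ha⟩ := (HeightOneSpectrum.denseRange_algebraMap (K := F) v).exists_mem_open ho
    ⟨x, by
      change Valued.v (x - x) ≤ _
      rw [sub_self, map_zero]
      exact zero_le⟩
  obtain ⟨c, hc0, hc⟩ : ∃ c : F, c ≠ 0 ∧ v.valuation F c ≤ WithZero.exp (-(n : ℤ)) := by
    obtain ⟨π, hπ⟩ := v.valuation_exists_uniformizer F
    refine ⟨π ^ n, pow_ne_zero _ ?_, ?_⟩
    · intro h0
      rw [h0, map_zero] at hπ
      exact WithZero.exp_ne_zero hπ.symm
    · rw [map_pow, hπ, ← WithZero.exp_nsmul]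
      apply le_of_eq
      congr 1
      simp
  refine ⟨a, v.adicAbv WA1_two c, (AbsoluteValue.pos_iff _).2 hc0, fun z hz => hn _ ?_⟩
  have h1 : v.valuation F (z - a) < v.valuation F c := by
    have h2 : v.adicAbvDef WA1_two (z - a) < v.adicAbvDef WA1_two c := by exact_mod_cast hz
    exact (WithZeroMulInt.toNNReal_strictMono WA1_two).lt_iff_lt.1 h2
  have h2 : Valued.v (algebraMap F (Fv v) z - algebraMap F (Fv v) a) ≤ WithZero.exp (-(n : ℤ)) := by
    rw [← map_sub, CGN.val_F]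
    exact h1.le.trans hc
  have h3 : algebraMap F (Fv v) z - x =
      (algebraMap F (Fv v) z - algebraMap F (Fv v) a) + (algebraMap F (Fv v) a - x) := by ring
  rw [h3]
  exact (Valuation.map_add _ _ _).trans (max_le h2 ha)

/-- **WA1.** Weak approximation for `F` at three finite places and finitely many real embeddings.
PROOF. Port of `CGN.dense_diag` (CGN/EAa.lean, with its private lemmas `AA1_..`; there it is for two finite places): the absolute values are
indexed by `Fin 3 ⊕ W` (or `Option (Option (Option W))`), the places `v i` are different. -/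
theorem dense3 {v : Fin 3 → Pl F} (hv : Function.Injective v) {W : Type} [Finite W]
    (σ : W → F →+* ℝ) (hσ : Function.Injective σ) :
    DenseRange fun z : F => ((algebraMap F (Fv (v 0)) z, algebraMap F (Fv (v 1)) z,
      algebraMap F (Fv (v 2)) z), fun w => σ w z) := by
  have := Fintype.ofFinite W
  rintro ⟨⟨x₀, x₁, x₂⟩, r⟩
  rw [mem_closure_iff_nhds]
  intro U hU
  rw [nhds_prod_eq, nhds_prod_eq, nhds_prod_eq] at hU
  obtain ⟨U₁, hU₁, V, hV, hUV⟩ := Filter.mem_prod_iff.1 hU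
  obtain ⟨V₀, hV₀, U₂, hU₂, h12⟩ := Filter.mem_prod_iff.1 hU₁
  obtain ⟨V₁, hV₁, V₂, hV₂, h23⟩ := Filter.mem_prod_iff.1 hU₂
  obtain ⟨ε, hε, hεV⟩ := Metric.mem_nhds_iff.1 hV
  obtain ⟨a₀, ε₀, hε₀, h₀⟩ := WA1_ball (v 0) x₀ hV₀
  obtain ⟨a₁, ε₁, hε₁, h₁⟩ := WA1_ball (v 1) x₁ hV₁
  obtain ⟨a₂, ε₂, hε₂, h₂⟩ := WA1_ball (v 2) x₂ hV₂
  have hq : ∀ w : W, ∃ q : ℚ, |(q : ℝ) - r w| < ε / 2 := by
    intro w
    obtain ⟨q, hq1, hq2⟩ := exists_rat_btwn (show r w - ε / 2 < r w + ε / 2 by linarith)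
    exact ⟨q, by rw [abs_lt]; constructor <;> linarith⟩
  choose q hq using hq
  let a : Fin 3 ⊕ W → F := fun i => match i with
    | Sum.inl i => ![a₀, a₁, a₂] i
    | Sum.inr w => (q w : F)
  obtain ⟨x, hx⟩ := WA1_approx hv σ hσ a (ε := min (ε / 2) (min ε₀ (min ε₁ ε₂)))
    (lt_min (by linarith) (lt_min hε₀ (lt_min hε₁ hε₂)))
  refine ⟨_, hUV ⟨h12 ⟨h₀ x ?_, h23 ⟨h₁ x ?_, h₂ x ?_⟩⟩, hεV ?_⟩, ⟨x, rfl⟩⟩
  · exact (hx (Sum.inl 0)).trans_le ((min_le_right _ _).trans (min_le_left _ _))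
  · exact (hx (Sum.inl 1)).trans_le
      ((min_le_right _ _).trans ((min_le_right _ _).trans (min_le_left _ _)))
  · exact (hx (Sum.inl 2)).trans_le
      ((min_le_right _ _).trans ((min_le_right _ _).trans (min_le_right _ _)))
  · rw [Metric.mem_ball, dist_pi_lt_iff hε]
    intro w
    have h1 := hx (Sum.inr w)
    have h2 : WA1_abv v σ (Sum.inr w) (x - a (Sum.inr w)) = |σ w (x - (q w : F))| :=
      WA1_inf _ _
    rw [h2, map_sub, map_ratCast] at h1
    have h3 := h1.trans_le (min_le_left _ _)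
    change dist (σ w x) (r w) < ε
    rw [Real.dist_eq]
    have h4 : σ w x - r w = (σ w x - (q w : ℝ)) + ((q w : ℝ) - r w) := by ring
    rw [h4]
    exact (abs_add_le _ _).trans_lt (by linarith [hq w])

variable {A : UD F} [Algebra K (BF A)] [IsScalarTower F K (BF A)] {S : Set (Pl F)}

private theorem WA2_half {E : Type} [Field E] {φ : F →+* E} (x : BE A φ) (hx : star x = x) :
    ((2 : E)⁻¹ • x) + star ((2 : E)⁻¹ • x) = x := by
  have h2 : (2 : E) ≠ 0 := by
    have h3 : φ 2 ≠ 0 := (map_ne_zero φ).2 two_ne_zero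
    rwa [map_ofNat] at h3
  rw [star_smul_alg, hx, ← add_smul, ← two_mul, mul_inv_cancel₀ h2, one_smul]

private theorem WA2_cont {E : Type} [Field E] [TopologicalSpace E] [IsTopologicalRing E]
    {φ : F →+* E} (h : BE A φ →ₐ[E] Matrix (Fin A.n) (Fin A.n) E) :
    Continuous fun z : BE A φ => h (z + star z) := by
  have h1 : Continuous fun z : BE A φ => z + star z := CGN.continuous_alg fun i =>
    (CGN.continuous_co i).add ((CGN.continuous_co i).comp continuous_star_alg)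
  exact (hom_cont h.toLinearMap).comp h1

/-- **WA2.** Weak approximation for the symmetric elements.
PROOF. Take points `X i ∈ U i`, `Y ∈ W` and symmetric elements `x i ∈ BV A (v i)`, `y w ∈ BE A w.emb` (`w : SPl A`) with the images
`θ (x i) = X i`, `w.hom (y w) = Y` (`symm_surj`). By WA1 for each of the finitely many coordinates (`DenseRange.piMap` for `dense3` with
`σ = SPl.emb`, `SPl.emb_injective`; index set `Fin 2 × Fin n × Fin n`; compare `CGN.exists_approx`) the images of the `z : BF A` (`= (index) → F`) are dense in the product of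
the `BV A (v i)` and the `BE A w.emb`. The maps `z ↦ θ (z + star z)`, `z ↦ w.hom (z + star z)` on these spaces are continuous
(`continuous_star_alg`, `hom_cont`), and at `(1/2) • x i`, `(1/2) • y w` their values are `X i`, `Y` (`star_smul_alg`). So the set of the points with images in
the `U i`, `W` is open and not empty and contains the image of some `z : BF A`; `t = z + star z` (`bE_star`). -/
theorem exists_approxU (hU : Uni A K) (hn : 1 ≤ A.n) (θ : USpl A S)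
    {v : Fin 3 → {v : Pl F // v ∉ S}} (hv : Function.Injective v)
    {U₀ : Set (Matrix (Fin A.n) (Fin A.n) (Fv (v 0).1))} (hU₀ : IsOpen U₀) (h₀ : U₀.Nonempty)
    {U₁ : Set (Matrix (Fin A.n) (Fin A.n) (Fv (v 1).1))} (hU₁ : IsOpen U₁) (h₁ : U₁.Nonempty)
    {U₂ : Set (Matrix (Fin A.n) (Fin A.n) (Fv (v 2).1))} (hU₂ : IsOpen U₂) (h₂ : U₂.Nonempty)
    {W : Set (Matrix (Fin A.n) (Fin A.n) ℝ)} (hW : IsOpen W) (hWn : W.Nonempty) :
    ∃ t : BF A, star t = t ∧ θ.θ (v 0) (bloc A (v 0).1 t) ∈ U₀ ∧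
      θ.θ (v 1) (bloc A (v 1).1 t) ∈ U₁ ∧ θ.θ (v 2) (bloc A (v 2).1 t) ∈ U₂ ∧
      ∀ w : SPl A, w.hom (bE A w.emb t) ∈ W := by
  have hv' : Function.Injective fun i => (v i).1 := fun i j hij => hv (Subtype.ext hij)
  have hd := dense3 hv' (SPl.emb (A := A)) SPl.emb_injective
  have hd2 : DenseRange fun (x : Fin 2 × Fin A.n × Fin A.n → F) (i : Fin 2 × Fin A.n × Fin A.n) =>
      (((algebraMap F (Fv (v 0).1) (x i), algebraMap F (Fv (v 1).1) (x i),
        algebraMap F (Fv (v 2).1) (x i)), fun w : SPl A => w.emb (x i)) :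
        (Fv (v 0).1 × Fv (v 1).1 × Fv (v 2).1) × (SPl A → ℝ)) :=
    DenseRange.piMap fun _ => hd
  let X := Fin 2 × Fin A.n × Fin A.n → (Fv (v 0).1 × Fv (v 1).1 × Fv (v 2).1) × (SPl A → ℝ)
  let f₀ : X → BV A (v 0).1 := fun y => SC.Alg.mk fun i => (y i).1.1
  let f₁ : X → BV A (v 1).1 := fun y => SC.Alg.mk fun i => (y i).1.2.1
  let f₂ : X → BV A (v 2).1 := fun y => SC.Alg.mk fun i => (y i).1.2.2
  let f : ∀ w : SPl A, X → BE A w.emb := fun w y => SC.Alg.mk fun i => (y i).2 w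
  have c₀ : Continuous f₀ := CGN.continuous_alg fun i =>
    continuous_fst.comp (continuous_fst.comp (continuous_apply i))
  have c₁ : Continuous f₁ := CGN.continuous_alg fun i =>
    continuous_fst.comp (continuous_snd.comp (continuous_fst.comp (continuous_apply i)))
  have c₂ : Continuous f₂ := CGN.continuous_alg fun i =>
    continuous_snd.comp (continuous_snd.comp (continuous_fst.comp (continuous_apply i)))
  have c : ∀ w, Continuous (f w) := fun w => CGN.continuous_alg fun i =>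
    (continuous_apply w).comp (continuous_snd.comp (continuous_apply i))
  have e₀ := WA2_cont (θ.θ (v 0))
  have e₁ := WA2_cont (θ.θ (v 1))
  have e₂ := WA2_cont (θ.θ (v 2))
  have e := fun w : SPl A => WA2_cont w.hom
  have ho : IsOpen ({y : X | θ.θ (v 0) (f₀ y + star (f₀ y)) ∈ U₀} ∩
      {y : X | θ.θ (v 1) (f₁ y + star (f₁ y)) ∈ U₁} ∩
      {y : X | θ.θ (v 2) (f₂ y + star (f₂ y)) ∈ U₂} ∩
      ⋂ w : SPl A, {y : X | w.hom (f w y + star (f w y)) ∈ W}) := by
    refine (((hU₀.preimage (e₀.comp c₀)).inter (hU₁.preimage (e₁.comp c₁))).inter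
      (hU₂.preimage (e₂.comp c₂))).inter ?_
    exact isOpen_iInter_of_finite fun w => hW.preimage ((e w).comp (c w))
  obtain ⟨X₀, hX₀⟩ := h₀
  obtain ⟨X₁, hX₁⟩ := h₁
  obtain ⟨X₂, hX₂⟩ := h₂
  obtain ⟨Y, hY⟩ := hWn
  obtain ⟨x₀, sx₀, hx₀⟩ := symm_surj hU hn (θ.θ (v 0)) X₀
  obtain ⟨x₁, sx₁, hx₁⟩ := symm_surj hU hn (θ.θ (v 1)) X₁
  obtain ⟨x₂, sx₂, hx₂⟩ := symm_surj hU hn (θ.θ (v 2)) X₂
  have hy := fun w : SPl A => symm_surj hU hn w.hom Y
  choose y sy hy using hy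
  obtain ⟨t, ht⟩ := hd2.exists_mem_open ho ⟨fun i => ((((2 : Fv (v 0).1)⁻¹ • x₀).co i,
    ((2 : Fv (v 1).1)⁻¹ • x₁).co i, ((2 : Fv (v 2).1)⁻¹ • x₂).co i),
    fun w => ((2 : ℝ)⁻¹ • y w).co i), by
    refine ⟨⟨⟨?_, ?_⟩, ?_⟩, ?_⟩
    · change θ.θ (v 0) (((2 : Fv (v 0).1)⁻¹ • x₀) + star ((2 : Fv (v 0).1)⁻¹ • x₀)) ∈ U₀
      rw [WA2_half x₀ sx₀, hx₀]
      exact hX₀
    · change θ.θ (v 1) (((2 : Fv (v 1).1)⁻¹ • x₁) + star ((2 : Fv (v 1).1)⁻¹ • x₁)) ∈ U₁
      rw [WA2_half x₁ sx₁, hx₁]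
      exact hX₁
    · change θ.θ (v 2) (((2 : Fv (v 2).1)⁻¹ • x₂) + star ((2 : Fv (v 2).1)⁻¹ • x₂)) ∈ U₂
      rw [WA2_half x₂ sx₂, hx₂]
      exact hX₂
    · rw [Set.mem_iInter]
      intro w
      change w.hom (((2 : ℝ)⁻¹ • y w) + star ((2 : ℝ)⁻¹ • y w)) ∈ W
      rw [WA2_half (y w) (sy w), hy]
      exact hY⟩
  obtain ⟨z, hz⟩ : ∃ z : BF A, z = SC.Alg.mk t := ⟨_, rfl⟩
  have hs : ∀ {E : Type} [Field E] (φ : F →+* E), bE A φ (z + star z) =
      bE A φ z + star (bE A φ z) := by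
    intro E _ φ
    rw [map_add, bE_star]
  refine ⟨z + star z, ?_, ?_, ?_, ?_, ?_⟩
  · rw [star_add, star_star, add_comm]
  · rw [bloc, hs, hz]
    exact ht.1.1.1
  · rw [bloc, hs, hz]
    exact ht.1.1.2
  · rw [bloc, hs, hz]
    exact ht.1.2
  · intro w
    rw [hs, hz]
    exact Set.mem_iInter.1 ht.2 w

end Pool.Agent.CGU
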