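import Pool.Agent.CGN.GalGrp
import Pool.Agent.CGU.LGrp

/-!
# Self-dual representations: stable isotropic subspaces
-/

noncomputable section

set_option linter.unusedSectionVars false

namespace Pool.Agent.CGU

open Matrix
open Pool.Agent.CGN (IsScal scalSub)

variable {κ : Type} [Field κ] {G : Type} [Group G] {d : ℕ}

/-- The subspace `U` is stable under `ρ`. -/
def Stb (ρ : G →* GL (Fin d) κ) (U : Submodule κ (Fin d → κ)) : Prop :=
  ∀ g : G, ∀ x ∈ U, (ρ g : Matrix (Fin d) (Fin d) κ).mulVec x ∈ U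

/-- The subspace `U` is isotropic for the bilinear form `x ⬝ᵥ X⁻¹ y`. -/
def Iso (X : GL (Fin d) κ) (U : Submodule κ (Fin d → κ)) : Prop :=
  ∀ x ∈ U, ∀ y ∈ U, x ⬝ᵥ ((X⁻¹ : GL (Fin d) κ) : Matrix (Fin d) (Fin d) κ).mulVec y = 0

/-- `ρ` is isomorphic to its twisted dual: `ρ (α g) = X (ρ g)^{-T} X⁻¹` for a surjective `α`. -/
structure SelfD (ρ : G →* GL (Fin d) κ) (X : GL (Fin d) κ) (α : G → G) : Prop where
  surj : Function.Surjective α
  eq : ∀ g, ρ (α g) = X * invT (ρ g) * X⁻¹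

/-- Every stable subspace has a stable complement. -/
def Semis (ρ : G →* GL (Fin d) κ) : Prop :=
  ∀ U : Submodule κ (Fin d → κ), Stb ρ U → ∃ W : Submodule κ (Fin d → κ), Stb ρ W ∧ IsCompl U W

/- MODULE G1 -/
private def G1_perp (X : GL (Fin d) κ) (U : Submodule κ (Fin d → κ)) : Submodule κ (Fin d → κ) where
  carrier := {y | ∀ x ∈ U, x ⬝ᵥ ((X⁻¹ : GL (Fin d) κ) : Matrix (Fin d) (Fin d) κ).mulVec y = 0}
  add_mem' := by
    intro a b ha hb x hx
    rw [Matrix.mulVec_add, dotProduct_add, ha x hx, hb x hx, add_zero]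
  zero_mem' := by
    intro x _
    rw [Matrix.mulVec_zero, dotProduct_zero]
  smul_mem' := by
    intro c a ha x hx
    rw [Matrix.mulVec_smul, dotProduct_smul, ha x hx, smul_zero]

private theorem G1_mem {X : GL (Fin d) κ} {U : Submodule κ (Fin d → κ)} {y : Fin d → κ} :
    y ∈ G1_perp X U ↔ ∀ x ∈ U, x ⬝ᵥ ((X⁻¹ : GL (Fin d) κ) : Matrix (Fin d) (Fin d) κ).mulVec y = 0 :=
  Iff.rfl

private theorem G1_act {ρ : G →* GL (Fin d) κ} {X : GL (Fin d) κ} {α : G → G}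
    (hX : SelfD ρ X α) (g : G) (x y : Fin d → κ) :
    x ⬝ᵥ ((X⁻¹ : GL (Fin d) κ) : Matrix (Fin d) (Fin d) κ).mulVec
      ((ρ (α g) : Matrix (Fin d) (Fin d) κ).mulVec y)
      = ((ρ g⁻¹ : Matrix (Fin d) (Fin d) κ).mulVec x) ⬝ᵥ
        ((X⁻¹ : GL (Fin d) κ) : Matrix (Fin d) (Fin d) κ).mulVec y := by
  have h1 : X⁻¹ * ρ (α g) = invT (ρ g) * X⁻¹ := by
    rw [hX.eq g, mul_assoc, inv_mul_cancel_left]
  have h2 := congrArg (fun A : GL (Fin d) κ => (A : Matrix (Fin d) (Fin d) κ)) h1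
  simp only [GeneralLinearGroup.coe_mul, coe_invT] at h2
  rw [Matrix.mulVec_mulVec, h2, ← Matrix.mulVec_mulVec, Matrix.dotProduct_mulVec, Matrix.vecMul_transpose,
    map_inv]

private theorem G1_stb {ρ : G →* GL (Fin d) κ} {X : GL (Fin d) κ} {α : G → G}
    (hX : SelfD ρ X α) {U : Submodule κ (Fin d → κ)} (hU : Stb ρ U) : Stb ρ (G1_perp X U) := by
  intro h y hy x hx
  obtain ⟨g, rfl⟩ := hX.surj h
  rw [G1_act hX]
  exact hy _ (hU _ x hx)

private theorem G1_finrank (X : GL (Fin d) κ) (U : Submodule κ (Fin d → κ)) :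
    d ≤ Module.finrank κ U + Module.finrank κ (G1_perp X U) := by
  let L : (Fin d → κ) →ₗ[κ] Module.Dual κ U :=
    { toFun := fun y =>
        { toFun := fun x => (x : Fin d → κ) ⬝ᵥ ((X⁻¹ : GL (Fin d) κ) : Matrix (Fin d) (Fin d) κ).mulVec y
          map_add' := by
            intro a b
            rw [Submodule.coe_add, add_dotProduct]
          map_smul' := by
            intro c a
            rw [Submodule.coe_smul, smul_dotProduct]
            rfl }
      map_add' := by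
        intro a b
        ext x
        simp only [LinearMap.coe_mk, AddHom.coe_mk, LinearMap.add_apply]
        rw [Matrix.mulVec_add, dotProduct_add]
      map_smul' := by
        intro c a
        ext x
        simp only [LinearMap.coe_mk, AddHom.coe_mk, LinearMap.smul_apply, RingHom.id_apply]
        rw [Matrix.mulVec_smul, dotProduct_smul] }
  have h1 : LinearMap.ker L = G1_perp X U := by
    ext y
    rw [LinearMap.mem_ker, G1_mem]
    constructor
    · intro h x hx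
      exact LinearMap.congr_fun h ⟨x, hx⟩
    · intro h
      ext x
      exact h x x.2
  have h2 := LinearMap.finrank_range_add_finrank_ker L
  rw [h1, Module.finrank_fin_fun] at h2
  have h3 : Module.finrank κ (LinearMap.range L) ≤ Module.finrank κ U := by
    rw [← Subspace.dual_finrank_eq]
    exact Submodule.finrank_le _
  omega

private theorem G1_compl (X : GL (Fin d) κ) (U : Submodule κ (Fin d → κ)) (h : U ⊓ G1_perp X U = ⊥) :
    U ⊔ G1_perp X U = ⊤ := by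
  apply Submodule.eq_top_of_finrank_eq
  have h1 := Submodule.finrank_sup_add_finrank_inf_eq U (G1_perp X U)
  rw [h, finrank_bot, add_zero] at h1
  have h2 := G1_finrank X U
  have h3 := Submodule.finrank_le (U ⊔ G1_perp X U)
  rw [Module.finrank_fin_fun] at h3 ⊢
  omega

private theorem G1_inf {ρ : G →* GL (Fin d) κ} {U W : Submodule κ (Fin d → κ)} (hU : Stb ρ U) (hW : Stb ρ W) :
    Stb ρ (U ⊓ W) := fun g x hx => ⟨hU g x hx.1, hW g x hx.2⟩

private theorem G1_main {ρ : G →* GL (Fin d) κ} {X : GL (Fin d) κ} {α : G → G}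
    (hX : SelfD ρ X α) (hno : ∀ U : Submodule κ (Fin d → κ), U ≠ ⊥ → Stb ρ U → ¬ Iso X U) :
    ∀ (m : ℕ) (W : Submodule κ (Fin d → κ)), Module.finrank κ W = m → Stb ρ W →
      ∀ Y : Submodule κ (Fin d → κ), Y ≤ W → Stb ρ Y →
        ∃ Z : Submodule κ (Fin d → κ), Z ≤ W ∧ Stb ρ Z ∧ Y ⊓ Z = ⊥ ∧ Y ⊔ Z = W := by
  intro m
  induction m using Nat.strong_induction_on with
  | _ m ih =>
    intro W hWm hW Y hYW hY
    by_cases hY0 : Y = ⊥
    · refine ⟨W, le_rfl, hW, ?_, ?_⟩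
      · rw [hY0, bot_inf_eq]
      · rw [hY0, bot_sup_eq]
    classical
    have hex : ∃ n : ℕ, ∃ U : Submodule κ (Fin d → κ), U ≤ Y ∧ U ≠ ⊥ ∧ Stb ρ U ∧ Module.finrank κ U = n :=
      ⟨_, Y, le_rfl, hY0, hY, rfl⟩
    obtain ⟨U, hUY, hU0, hU, hUn⟩ := Nat.find_spec hex
    have hmin : ∀ U' : Submodule κ (Fin d → κ), U' ≤ Y → U' ≠ ⊥ → Stb ρ U' →
        Module.finrank κ U ≤ Module.finrank κ U' := by
      intro U' h1 h2 h3
      rw [hUn]
      exact Nat.find_min' hex ⟨U', h1, h2, h3, rfl⟩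
    have hP := G1_stb hX hU
    have hinf : U ⊓ G1_perp X U = ⊥ := by
      by_contra hne
      have h1 := hmin _ (inf_le_left.trans hUY) hne (G1_inf hU hP)
      have h2 : U ⊓ G1_perp X U = U := Submodule.eq_of_le_of_finrank_le inf_le_left h1
      refine hno U hU0 hU ?_
      intro x hx y hy
      rw [← h2] at hy
      exact hy.2 x hx
    have hsup := G1_compl X U hinf
    have hW1 : U ⊔ (W ⊓ G1_perp X U) = W := by
      rw [inf_comm, ← sup_inf_assoc_of_le _ (hUY.trans hYW), hsup, top_inf_eq]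
    have hY1 : U ⊔ (Y ⊓ G1_perp X U) = Y := by
      rw [inf_comm, ← sup_inf_assoc_of_le _ hUY, hsup, top_inf_eq]
    have hlt : W ⊓ G1_perp X U < W := by
      refine lt_of_le_of_ne inf_le_left ?_
      intro h
      apply hU0
      rw [← hinf]
      refine le_antisymm ?_ inf_le_left
      refine le_inf le_rfl ?_
      refine (hUY.trans hYW).trans ?_
      rw [← h]
      exact inf_le_right
    obtain ⟨Z, hZW, hZ, hZ1, hZ2⟩ := ih _ (by rw [← hWm]; exact Submodule.finrank_lt_finrank_of_lt hlt)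
      (W ⊓ G1_perp X U) rfl (G1_inf hW hP) (Y ⊓ G1_perp X U) (inf_le_inf_right _ hYW) (G1_inf hY hP)
    refine ⟨Z, hZW.trans inf_le_left, hZ, ?_, ?_⟩
    · rw [← le_bot_iff, ← hZ1]
      exact le_inf (le_inf inf_le_left (inf_le_right.trans (hZW.trans inf_le_right))) inf_le_right
    · rw [← hY1, sup_assoc, hZ2, hW1]

/-- **G1**. If no stable subspace is isotropic then the representation is semisimple.

PROOF. For a subspace `U` let `U' = {y | ∀ x ∈ U, x ⬝ᵥ X⁻¹ y = 0}`. (a) If `U` is stable then so is `U'`: let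
`h = α g` (surjectivity), `y ∈ U'`, `x ∈ U`: `X⁻¹ ρ(α g) y = (ρ g)^{-T} X⁻¹ y`, so
`x ⬝ᵥ X⁻¹ ρ(h) y = ((ρ g)⁻¹ x) ⬝ᵥ X⁻¹ y = 0` (`Matrix.dotProduct_mulVec`, `vecMul_transpose`). (b)
`finrank U + finrank U' = d` (the form is non-degenerate; `≥ d` is enough: `U'` is the kernel of the linear
map `y ↦ (x ↦ x ⬝ᵥ X⁻¹ y)` to the dual of `U`). (c) If `U ≠ ⊥` is stable and minimal among the stable
subspaces `≠ ⊥` then `U ⊓ U'` is stable and `≤ U`, so it is `⊥` (otherwise `U ≤ U'`, `U` is isotropic,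
excluded by `hno`): so `IsCompl U U'` by (b).
Claim: for all `m`, all stable `W` with `finrank W = m` and all stable `Y ≤ W` there is a stable `Z ≤ W` with
`Y ⊓ Z = ⊥`, `Y ⊔ Z = W`. Induction on `m`. If `Y = ⊥` take `Z = W`. Otherwise choose a stable `U ≤ Y`,
`U ≠ ⊥`, of minimal dimension; it is minimal as in (c). `W₁ = W ⊓ U'`, `Y₁ = Y ⊓ U'`: stable, `U ⊓ W₁ = ⊥`,
`U ⊔ W₁ = W`, `U ⊔ Y₁ = Y` (modular law `IsModularLattice`, `U ≤ Y ≤ W`), `finrank W₁ < finrank W`. By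
induction `W₁ = Y₁ ⊔ Z`, `Y₁ ⊓ Z = ⊥`, `Z ≤ W₁`. Then `Y ⊔ Z = U ⊔ Y₁ ⊔ Z = U ⊔ W₁ = W` and `Y ⊓ Z ≤ Y ⊓ U' ⊓ Z =
Y₁ ⊓ Z = ⊥` (`Z ≤ W₁ ≤ U'`). The claim for `W = ⊤` is the statement. -/
theorem semis_of_no_iso {ρ : G →* GL (Fin d) κ} {X : GL (Fin d) κ} {α : G → G}
    (hX : SelfD ρ X α) (hno : ∀ U : Submodule κ (Fin d → κ), U ≠ ⊥ → Stb ρ U → ¬ Iso X U) :
    Semis ρ := by
  intro U hU
  obtain ⟨Z, _, hZ, h1, h2⟩ := G1_main hX hno _ ⊤ rfl (fun _ _ _ => trivial) U le_top hU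
  exact ⟨Z, hZ, ⟨disjoint_iff.2 h1, codisjoint_iff.2 h2⟩⟩
/- END G1 -/

/- MODULE G2 -/
private theorem G2_ker {V : Type} [AddCommGroup V] [Module κ V] [FiniteDimensional κ V]
    (S : Set (Module.End κ V)) (hc : ∀ f ∈ S, ∀ g ∈ S, f * g = g * f)
    (hn : ∀ f ∈ S, IsNilpotent f) : ∀ (n : ℕ) (W : Submodule κ V), Module.finrank κ W = n → W ≠ ⊥ →
      (∀ f ∈ S, ∀ x ∈ W, f x ∈ W) → ∃ x ∈ W, x ≠ 0 ∧ ∀ f ∈ S, f x = 0 := by
  intro n
  induction n using Nat.strong_induction_on with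
  | _ n ih =>
    intro W hW hne hst
    by_cases hz : ∀ f ∈ S, ∀ x ∈ W, f x = 0
    · obtain ⟨x, hx, hx0⟩ := Submodule.exists_mem_ne_zero_of_ne_bot hne
      exact ⟨x, hx, hx0, fun f hf => hz f hf x hx⟩
    · push Not at hz
      obtain ⟨f, hf, y, hy, hfy⟩ := hz
      have hlt : W ⊓ LinearMap.ker f < W := by
        refine lt_of_le_of_ne inf_le_left fun h => hfy ?_
        rw [← h] at hy
        exact hy.2
      have hbot : W ⊓ LinearMap.ker f ≠ ⊥ := by
        obtain ⟨x, hx, hx0⟩ := Submodule.exists_mem_ne_zero_of_ne_bot hne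
        obtain ⟨k, hk⟩ := hn f hf
        have hex : ∃ k : ℕ, (f ^ k) x = 0 := ⟨k, by rw [hk]; rfl⟩
        classical
        have h1 := Nat.find_spec hex
        have h2 : Nat.find hex ≠ 0 := by
          intro h0
          rw [h0, pow_zero] at h1
          exact hx0 h1
        have h3 : (f ^ (Nat.find hex - 1)) x ≠ 0 := Nat.find_min hex (by omega)
        have hpw : ∀ m : ℕ, (f ^ m) x ∈ W := by
          intro m
          induction m with
          | zero => exact hx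
          | succ m ihm =>
            rw [pow_succ']
            exact hst f hf _ ihm
        intro hb
        apply h3
        rw [← Submodule.mem_bot κ, ← hb]
        refine ⟨hpw _, ?_⟩
        rw [SetLike.mem_coe, LinearMap.mem_ker]
        have h4 : f ((f ^ (Nat.find hex - 1)) x) = (f ^ (Nat.find hex - 1 + 1)) x := by
          rw [pow_succ']
          rfl
        rw [h4, Nat.sub_add_cancel (Nat.one_le_iff_ne_zero.2 h2), h1]
      obtain ⟨x, hx, hx0, hx1⟩ := ih _ (by rw [← hW]; exact Submodule.finrank_lt_finrank_of_lt hlt)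
        (W ⊓ LinearMap.ker f) rfl hbot (fun g hg x hx => by
          refine ⟨hst g hg x hx.1, ?_⟩
          rw [SetLike.mem_coe, LinearMap.mem_ker]
          have h1 : f (g x) = g (f x) := congrArg (fun h : Module.End κ V => h x) (hc f hf g hg)
          rw [h1, LinearMap.mem_ker.1 hx.2, map_zero])
      exact ⟨x, hx.1, hx0, hx1⟩

private theorem G2_comm (A : GL (Fin d) κ) (s : GL (Fin d) κ) (hs : IsScal s) : A * s = s * A := by
  obtain ⟨a, ha⟩ := hs
  apply Units.ext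
  rw [Units.val_mul, Units.val_mul]
  change (A : Matrix (Fin d) (Fin d) κ) * (s : Matrix (Fin d) (Fin d) κ)
    = (s : Matrix (Fin d) (Fin d) κ) * (A : Matrix (Fin d) (Fin d) κ)
  rw [ha]
  exact (Matrix.scalar_commute a (fun r => mul_comm _ _) _).symm

private theorem G2_normal : (scalSub d κ).Normal := by
  constructor
  intro A hA B
  have h1 : B * A * B⁻¹ = A := by
    rw [G2_comm B A hA, mul_assoc, mul_inv_cancel, mul_one]
  rw [h1]
  exact hA

private theorem G2_pow {p : ℕ} (hp : p.Prime) (ρ : G →* GL (Fin d) κ) [Finite ρ.range]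
    (x : G) (h : ∀ k m : ℕ, p.Coprime m → ρ (x ^ (p ^ k)) ^ m = 1 → IsScal (ρ (x ^ (p ^ k)))) :
    ∃ k : ℕ, IsScal (ρ x ^ (p ^ k)) := by
  have h1 : IsOfFinOrder (ρ x) := by
    have h2 : IsOfFinOrder (⟨ρ x, ⟨x, rfl⟩⟩ : ρ.range) := isOfFinOrder_of_finite _
    rw [isOfFinOrder_iff_pow_eq_one] at h2 ⊢
    obtain ⟨n, hn, hn'⟩ := h2
    refine ⟨n, hn, ?_⟩
    have h3 := congrArg (Subtype.val) hn'
    rw [Subgroup.coe_pow] at h3
    exact h3
  have h2 := h1.orderOf_pos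
  obtain ⟨k, m, hm, hkm⟩ := Nat.exists_eq_pow_mul_and_not_dvd h2.ne' p hp.ne_one
  refine ⟨k, ?_⟩
  rw [← map_pow]
  refine h k m ((Nat.Prime.coprime_iff_not_dvd hp).2 hm) ?_
  rw [map_pow, ← pow_mul, ← hkm, pow_orderOf_eq_one]

private theorem G2_nil [IsAlgClosed κ] {p : ℕ} [CharP κ p] (hp : p.Prime) (hd : 0 < d)
    (A : GL (Fin d) κ) (k : ℕ) (h : IsScal (A ^ (p ^ k))) :
    ∃ μ : κ, IsNilpotent ((A : Matrix (Fin d) (Fin d) κ) - Matrix.scalar (Fin d) μ) := by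
  have : Fact p.Prime := ⟨hp⟩
  have : Nonempty (Fin d) := ⟨⟨0, hd⟩⟩
  obtain ⟨c, hc⟩ := h
  obtain ⟨μ, hμ⟩ := IsAlgClosed.exists_pow_nat_eq c (pow_pos hp.pos k)
  refine ⟨μ, p ^ k, ?_⟩
  have hcomm : Commute (A : Matrix (Fin d) (Fin d) κ) (Matrix.scalar (Fin d) μ) :=
    (Matrix.scalar_commute μ (fun r => mul_comm _ _) _).symm
  have hpow : (A : Matrix (Fin d) (Fin d) κ) ^ (p ^ k) = ((A ^ (p ^ k) : GL (Fin d) κ) : Matrix (Fin d) (Fin d) κ) :=
    (Units.val_pow_eq_pow_val A (p ^ k)).symm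
  rw [sub_pow_char_pow_of_commute p _ hcomm, hpow, hc, ← map_pow, hμ, sub_self]

private theorem G2_uniq (hd : 0 < d) (A : Matrix (Fin d) (Fin d) κ) (a b : κ)
    (ha : IsNilpotent (A - Matrix.scalar (Fin d) a)) (hb : IsNilpotent (A - Matrix.scalar (Fin d) b)) : a = b := by
  have : Nonempty (Fin d) := ⟨⟨0, hd⟩⟩
  have h1 : Commute (A - Matrix.scalar (Fin d) b) (A - Matrix.scalar (Fin d) a) := by
    have hA : ∀ c : κ, Commute A (Matrix.scalar (Fin d) c) := fun c =>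
      (Matrix.scalar_commute c (fun r => mul_comm _ _) _).symm
    have hs : Commute (Matrix.scalar (Fin d) b) (Matrix.scalar (Fin d) a) :=
      (Matrix.scalar_commute b (fun r => mul_comm _ _) _)
    exact ((Commute.refl A).sub_left (hA b).symm).sub_right (Commute.sub_left (hA a) hs)
  have h2 := h1.isNilpotent_sub hb ha
  have h3 : A - Matrix.scalar (Fin d) b - (A - Matrix.scalar (Fin d) a) = Matrix.scalar (Fin d) (a - b) := by
    rw [map_sub]
    abel
  rw [h3] at h2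
  obtain ⟨n, hn⟩ := h2
  rw [← map_pow] at hn
  have h4 : (a - b) ^ n = 0 := by
    have h5 := congrFun (congrFun hn ⟨0, hd⟩) ⟨0, hd⟩
    rw [Matrix.scalar_apply, Matrix.diagonal_apply_eq] at h5
    exact h5
  exact sub_eq_zero.1 (eq_zero_of_pow_eq_zero h4)

/-- **G2**. A normal subgroup of a semisimple representation whose elements of order prime to `p` are
scalars acts through scalars.

PROOF. Adapt the proof of `CGN.scal_or_sub` (GalGrp.lean, module GG; copy its private lemmas with new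
names `G2_*`). Suppose that `ρ x₀` is not scalar for some `x₀ ∈ H`. The proof of `scal_or_sub` constructs
the set `Z` of the `z ∈ H` such that `ρ z` commutes with all `ρ y`, `y ∈ H`, an element `z₀ ∈ Z` with `ρ z₀` not
scalar, for `z ∈ H` a unique `μ z` with `ρ z - μ z` nilpotent, and the stable subspace
`V = {x | ∀ z ∈ Z, ρ z x = μ z x}`, which is `≠ ⊤` because of `z₀`. By `hss` `V` has a stable complement `W ≠ ⊥`.
The operators `ρ z - μ z`, `z ∈ Z`, restricted to `W` (`LinearMap.restrict`), are nilpotent and commute, so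
(`CGN.common_kernel` for the space `W`, which is nontrivial) there is `0 ≠ x ∈ W` killed by all of them: `x ∈ V`,
contradiction to `V ⊓ W = ⊥`. -/
theorem scal_of_semis [IsAlgClosed κ] {p : ℕ} [CharP κ p] (hp : p.Prime) (hd : 0 < d)
    (ρ : G →* GL (Fin d) κ) [Finite ρ.range] (hss : Semis ρ) (H : Subgroup G) [H.Normal]
    (h : ∀ x ∈ H, ∀ m : ℕ, p.Coprime m → ρ x ^ m = 1 → IsScal (ρ x)) :
    ∀ x ∈ H, IsScal (ρ x) := by
  classical
  have hN : (scalSub d κ).Normal := G2_normal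
  have : Fact p.Prime := ⟨hp⟩
  have hne : Nonempty (Fin d) := ⟨⟨0, hd⟩⟩
  by_cases hall : ∀ x ∈ H, IsScal (ρ x)
  · exact hall
  exfalso
  have hpow : ∀ x ∈ H, ∃ k : ℕ, IsScal (ρ x ^ (p ^ k)) := fun x hx =>
    G2_pow hp ρ x fun k m hm h1 => h _ (H.pow_mem hx _) m hm h1
  obtain ⟨φ, hφ⟩ : ∃ φ : H →* GL (Fin d) κ ⧸ scalSub d κ,
      φ = (QuotientGroup.mk' (scalSub d κ)).comp (ρ.comp H.subtype) := ⟨_, rfl⟩
  have hφ1 : ∀ x : H, φ x = 1 ↔ IsScal (ρ x) := by
    intro x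
    rw [hφ]
    exact QuotientGroup.eq_one_iff _
  have hfin : Finite φ.range := by
    have h1 : Set.Finite (Set.range φ) := by
      have h2 : Set.range φ ⊆ (fun A : GL (Fin d) κ => (QuotientGroup.mk' (scalSub d κ)) A) ''
          (ρ.range : Set (GL (Fin d) κ)) := by
        rintro _ ⟨x, rfl⟩
        refine ⟨ρ x, ⟨x, rfl⟩, ?_⟩
        rw [hφ]
        rfl
      exact (Set.Finite.image _ (Set.toFinite (ρ.range : Set (GL (Fin d) κ)))).subset h2
    exact h1.to_subtype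
  have hP : IsPGroup p φ.range := by
    rintro ⟨_, x, rfl⟩
    obtain ⟨k, hk⟩ := hpow x x.2
    refine ⟨k, ?_⟩
    apply Subtype.ext
    rw [Subgroup.coe_pow, Subgroup.coe_one]
    change φ x ^ p ^ k = 1
    rw [← map_pow, hφ1, Subgroup.coe_pow, map_pow]
    exact hk
  have hnt : Nontrivial φ.range := by
    push Not at hall
    obtain ⟨x, hx, hx'⟩ := hall
    refine ⟨⟨⟨φ ⟨x, hx⟩, ⟨x, hx⟩, rfl⟩, 1, ?_⟩⟩
    intro h1
    have h2 : φ ⟨x, hx⟩ = 1 := congrArg Subtype.val h1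
    exact hx' ((hφ1 _).1 h2)
  have hc := hP.center_nontrivial
  obtain ⟨⟨⟨_, z, rfl⟩, hz⟩, hz1⟩ := exists_ne (1 : Subgroup.center φ.range)
  have hz2 : ¬ IsScal (ρ z) := by
    intro h1
    apply hz1
    apply Subtype.ext
    apply Subtype.ext
    exact (hφ1 z).2 h1
  obtain ⟨k, hk⟩ := hpow z z.2
  -- `ρ z` commutes with all `ρ y`
  have hH : ∀ y ∈ H, ρ z * ρ y = ρ y * ρ z := by
    intro y hy
    have h1 : φ z * φ ⟨y, hy⟩ = φ ⟨y, hy⟩ * φ z := by
      have h2 := Subgroup.mem_center_iff.1 hz ⟨φ ⟨y, hy⟩, ⟨y, hy⟩, rfl⟩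
      exact (congrArg Subtype.val h2).symm
    have h2 : φ ((⟨y, hy⟩ * z)⁻¹ * (z * ⟨y, hy⟩)) = 1 := by
      rw [map_mul, map_inv, map_mul, map_mul, h1, inv_mul_cancel]
    have h3 : IsScal ((ρ y * ρ z)⁻¹ * (ρ z * ρ y)) := by
      have h4 := (hφ1 _).1 h2
      have h5 : ρ (((⟨y, hy⟩ * z)⁻¹ * (z * ⟨y, hy⟩) : H) : G) = (ρ y * ρ z)⁻¹ * (ρ z * ρ y) := by
        push_cast
        rw [map_mul, map_inv, map_mul, map_mul]
      rwa [h5] at h4
    obtain ⟨s, hs⟩ : ∃ s, s = (ρ y * ρ z)⁻¹ * (ρ z * ρ y) := ⟨_, rfl⟩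
    rw [← hs] at h3
    have h4 : ρ z * ρ y = ρ y * ρ z * s := by rw [hs, mul_inv_cancel_left]
    have h5 : (ρ y)⁻¹ * ρ z * ((ρ y)⁻¹)⁻¹ = ρ z * s := by
      rw [inv_inv, mul_assoc, h4, mul_assoc, inv_mul_cancel_left]
    have h6 := congrArg (fun A => A ^ (p ^ k)) h5
    have h7 : Commute (ρ z) s := G2_comm _ _ h3
    rw [conj_pow, h7.mul_pow, G2_comm _ _ hk, mul_assoc, inv_inv, inv_mul_cancel, mul_one] at h6
    have h8 : s ^ (p ^ k) = 1 := by
      have h9 := congrArg (fun A => (ρ z ^ (p ^ k))⁻¹ * A) h6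
      simp only [inv_mul_cancel, inv_mul_cancel_left] at h9
      exact h9.symm
    have h9 : s = 1 := by
      obtain ⟨b, hb⟩ := h3
      have h10 : b ^ (p ^ k) = 1 := by
        have h11 := congrArg (fun A : GL (Fin d) κ => (A : Matrix (Fin d) (Fin d) κ)) h8
        simp only [Units.val_pow_eq_pow_val, Units.val_one] at h11
        rw [hb, ← map_pow] at h11
        have h12 := congrFun (congrFun h11 ⟨0, hd⟩) ⟨0, hd⟩
        rw [Matrix.scalar_apply, Matrix.diagonal_apply_eq, Matrix.one_apply_eq] at h12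
        exact h12
      have h11 : b = 1 := by
        have h12 : (b - 1) ^ (p ^ k) = 0 := by
          rw [sub_pow_char_pow, h10, one_pow, sub_self]
        exact sub_eq_zero.1 (eq_zero_of_pow_eq_zero h12)
      apply Units.ext
      rw [hb, h11, map_one]
      rfl
    rw [h4, h9, mul_one]
  -- the eigenvalues
  have hmu : ∀ x : G, ∃ μ : κ, x ∈ H → IsNilpotent ((ρ x : Matrix (Fin d) (Fin d) κ) - Matrix.scalar (Fin d) μ) := by
    intro x
    by_cases hx : x ∈ H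
    · obtain ⟨k, hk⟩ := hpow x hx
      obtain ⟨μ, hμ⟩ := G2_nil hp hd (ρ x) k hk
      exact ⟨μ, fun _ => hμ⟩
    · exact ⟨0, fun h => absurd h hx⟩
  choose μ hμ using hmu
  let V : Submodule κ (Fin d → κ) :=
    { carrier := {x | ∀ z ∈ H, (∀ y ∈ H, ρ z * ρ y = ρ y * ρ z) →
        (ρ z : Matrix (Fin d) (Fin d) κ).mulVec x = μ z • x}
      add_mem' := by
        intro a b ha hb z hz hz'
        rw [Matrix.mulVec_add, ha z hz hz', hb z hz hz', smul_add]
      zero_mem' := by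
        intro z _ _
        rw [Matrix.mulVec_zero, smul_zero]
      smul_mem' := by
        intro c a ha z hz hz'
        rw [Matrix.mulVec_smul, ha z hz hz', smul_comm] }
  have hVtop : V ≠ ⊤ := by
    intro hV
    apply hz2
    refine ⟨μ z, ?_⟩
    have h1 : ∀ x : Fin d → κ, (ρ z : Matrix (Fin d) (Fin d) κ).mulVec x = μ z • x := by
      intro x
      have hx : x ∈ V := by
        rw [hV]
        trivial
      exact hx z z.2 hH
    apply Matrix.ext_of_mulVec_single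
    intro i
    rw [h1, Matrix.scalar_apply]
    ext j
    rw [Matrix.mulVec_diagonal]
    rfl
  have hVstb : Stb ρ V := by
    intro g x hx z hz hz'
    have hz1 : g⁻¹ * z * g ∈ H := by
      have := Subgroup.Normal.conj_mem ‹H.Normal› z hz g⁻¹
      rwa [inv_inv] at this
    have hz2 : ∀ y ∈ H, ρ (g⁻¹ * z * g) * ρ y = ρ y * ρ (g⁻¹ * z * g) := by
      intro y hy
      have h1 := hz' (g * y * g⁻¹) (Subgroup.Normal.conj_mem ‹H.Normal› y hy g)
      rw [map_mul, map_mul, map_inv] at h1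
      rw [map_mul, map_mul, map_inv]
      have h2 := congrArg (fun A => (ρ g)⁻¹ * A * ρ g) h1
      have h3 : (ρ g)⁻¹ * (ρ z * (ρ g * ρ y * (ρ g)⁻¹)) * ρ g = (ρ g)⁻¹ * ρ z * ρ g * ρ y := by group
      have h4 : (ρ g)⁻¹ * (ρ g * ρ y * (ρ g)⁻¹ * ρ z) * ρ g = ρ y * ((ρ g)⁻¹ * ρ z * ρ g) := by group
      rw [h3, h4] at h2
      exact h2
    have hx1 := hx _ hz1 hz2
    have hmm : μ (g⁻¹ * z * g) = μ z := by
      apply G2_uniq hd _ _ _ (hμ _ hz1)
      obtain ⟨n, hn⟩ := hμ z hz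
      refine ⟨n, ?_⟩
      have h1 : ((ρ (g⁻¹ * z * g) : GL (Fin d) κ) : Matrix (Fin d) (Fin d) κ) - Matrix.scalar (Fin d) (μ z) =
          ((ρ g)⁻¹ : GL (Fin d) κ).1 * ((ρ z : Matrix (Fin d) (Fin d) κ) - Matrix.scalar (Fin d) (μ z)) * (ρ g).1 := by
        have h2 : ((ρ g)⁻¹ : GL (Fin d) κ).1 * Matrix.scalar (Fin d) (μ z) * (ρ g).1 = Matrix.scalar (Fin d) (μ z) := by
          rw [mul_assoc, (Matrix.scalar_commute (μ z) (fun r => mul_comm _ _) (ρ g).1).eq, ← mul_assoc, Units.inv_mul,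
            one_mul]
        rw [mul_sub, sub_mul, h2, map_mul, map_mul, map_inv]
        rfl
      rw [h1, Units.conj_pow', hn, mul_zero, zero_mul]
    rw [hmm] at hx1
    rw [← Matrix.mulVec_smul, ← hx1, Matrix.mulVec_mulVec, Matrix.mulVec_mulVec,
      ← GeneralLinearGroup.coe_mul, ← GeneralLinearGroup.coe_mul, ← map_mul, ← map_mul]
    congr 3
    group
  let S : Set (Module.End κ (Fin d → κ)) := {f | ∃ z ∈ H, (∀ y ∈ H, ρ z * ρ y = ρ y * ρ z) ∧
      f = Matrix.toLinAlgEquiv' ((ρ z : Matrix (Fin d) (Fin d) κ) - Matrix.scalar (Fin d) (μ z))}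
  have hSc : ∀ f ∈ S, ∀ g ∈ S, f * g = g * f := by
    rintro _ ⟨a, ha, ha', rfl⟩ _ ⟨b, hb, hb', rfl⟩
    rw [← map_mul, ← map_mul]
    congr 1
    have h1 : Commute (ρ a : Matrix (Fin d) (Fin d) κ) (ρ b : Matrix (Fin d) (Fin d) κ) :=
      congrArg (fun A : GL (Fin d) κ => (A : Matrix (Fin d) (Fin d) κ)) (ha' b hb)
    have hA : ∀ (A : Matrix (Fin d) (Fin d) κ) (c : κ), Commute A (Matrix.scalar (Fin d) c) := fun A c =>
      (Matrix.scalar_commute c (fun r => mul_comm _ _) _).symm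
    exact (h1.sub_left (hA _ _).symm).sub_right (Commute.sub_left (hA _ _) (hA _ _))
  have hSn : ∀ f ∈ S, IsNilpotent f := by
    rintro _ ⟨a, ha, ha', rfl⟩
    exact (hμ a ha).map _
  obtain ⟨W, hWst, hWc⟩ := hss V hVstb
  have hW0 : W ≠ ⊥ := by
    intro h1
    rw [h1] at hWc
    exact hVtop (eq_top_of_isCompl_bot hWc)
  have hSW : ∀ f ∈ S, ∀ x ∈ W, f x ∈ W := by
    rintro _ ⟨a, ha, ha', rfl⟩ x hx
    rw [Matrix.toLinAlgEquiv'_apply, Matrix.sub_mulVec]
    refine W.sub_mem (hWst a x hx) ?_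
    have h1 : (Matrix.scalar (Fin d) (μ a)).mulVec x = μ a • x := by
      rw [Matrix.scalar_apply]
      ext i
      rw [Matrix.mulVec_diagonal]
      rfl
    rw [h1]
    exact W.smul_mem _ hx
  obtain ⟨x, hxW, hx0, hx1⟩ := G2_ker S hSc hSn _ W rfl hW0 hSW
  have hxV : x ∈ V := by
    intro z hz hz'
    have h1 := hx1 _ ⟨z, hz, hz', rfl⟩
    rw [Matrix.toLinAlgEquiv'_apply, Matrix.sub_mulVec, sub_eq_zero] at h1
    rw [h1, Matrix.scalar_apply]
    ext i
    rw [Matrix.mulVec_diagonal]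
    rfl
  apply hx0
  rw [← Submodule.mem_bot κ, ← hWc.inf_eq_bot]
  exact ⟨hxV, hxW⟩
/- END G2 -/

/- MODULE G3 -/
/-- **G3** (1). In a space of dimension at least two every bilinear form has an isotropic vector.

PROOF. Let `a, b ∈ E` be linearly independent. If `b ⬝ᵥ Y b = 0` take `b`. Otherwise the polynomial
`t ↦ (a + t b) ⬝ᵥ Y (a + t b) = t² (b ⬝ᵥ Y b) + t (a ⬝ᵥ Y b + b ⬝ᵥ Y a) + a ⬝ᵥ Y a` has degree `2`, so it has a root
(`IsAlgClosed.exists_root`, or `IsAlgClosed.exists_eq_mul_self` and the formula is not available in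
characteristic `2`, so take `exists_root` for a `Polynomial`), and `a + t b ≠ 0`. -/
theorem exists_iso_vec [IsAlgClosed κ] (Y : Matrix (Fin d) (Fin d) κ)
    (E : Submodule κ (Fin d → κ)) (hE : 2 ≤ Module.finrank κ E) :
    ∃ x ∈ E, x ≠ 0 ∧ x ⬝ᵥ Y.mulVec x = 0 := by
  obtain ⟨v, hv⟩ := exists_linearIndependent_of_le_finrank hE
  have hind : LinearIndependent κ (fun i => (v i : Fin d → κ)) :=
    hv.map' E.subtype (Submodule.ker_subtype E)
  obtain ⟨a, ha⟩ : ∃ a, a = (v 0 : Fin d → κ) := ⟨_, rfl⟩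
  obtain ⟨b, hb⟩ : ∃ b, b = (v 1 : Fin d → κ) := ⟨_, rfl⟩
  have haE : a ∈ E := by rw [ha]; exact (v 0).2
  have hbE : b ∈ E := by rw [hb]; exact (v 1).2
  have hb0 : b ≠ 0 := by rw [hb]; exact hind.ne_zero 1
  by_cases hbb : b ⬝ᵥ Y.mulVec b = 0
  · exact ⟨b, hbE, hb0, hbb⟩
  obtain ⟨q, hq⟩ : ∃ q : Polynomial κ, q = Polynomial.C (b ⬝ᵥ Y.mulVec b) * Polynomial.X ^ 2
      + Polynomial.C (a ⬝ᵥ Y.mulVec b + b ⬝ᵥ Y.mulVec a) * Polynomial.X
      + Polynomial.C (a ⬝ᵥ Y.mulVec a) := ⟨_, rfl⟩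
  have hdeg : q.degree = 2 := by
    rw [hq]
    exact Polynomial.degree_quadratic hbb
  obtain ⟨t, ht⟩ := IsAlgClosed.exists_root q (by rw [hdeg]; decide)
  refine ⟨a + t • b, E.add_mem haE (E.smul_mem t hbE), ?_, ?_⟩
  · intro h0
    have h1 := LinearIndependent.pair_iff.1
      (LinearIndependent.pair_iff.2 (fun s r hsr => ?_) : LinearIndependent κ ![a, b]) 1 t (by rw [one_smul]; exact h0)
    · exact one_ne_zero h1.1
    · have h2 := Fintype.linearIndependent_iff.1 hind ![s, r] (by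
        rw [Fin.sum_univ_two]
        simp only [Matrix.cons_val_zero, Matrix.cons_val_one]
        rw [← ha, ← hb]
        exact hsr)
      exact ⟨h2 0, h2 1⟩
  · rw [Polynomial.IsRoot.def, hq] at ht
    simp only [Polynomial.eval_add, Polynomial.eval_mul, Polynomial.eval_C, Polynomial.eval_pow,
      Polynomial.eval_X] at ht
    rw [Matrix.mulVec_add, Matrix.mulVec_smul, dotProduct_add, add_dotProduct, add_dotProduct,
      dotProduct_smul, dotProduct_smul, smul_dotProduct, smul_dotProduct]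
    simp only [smul_eq_mul]
    linear_combination ht

private theorem G3_act {ρ : G →* GL (Fin d) κ} {X : GL (Fin d) κ} {α : G → G}
    (hX : SelfD ρ X α) (g : G) (x y : Fin d → κ) :
    ((ρ g : Matrix (Fin d) (Fin d) κ).mulVec x) ⬝ᵥ ((X⁻¹ : GL (Fin d) κ) : Matrix (Fin d) (Fin d) κ).mulVec
      ((ρ (α g) : Matrix (Fin d) (Fin d) κ).mulVec y)
      = x ⬝ᵥ ((X⁻¹ : GL (Fin d) κ) : Matrix (Fin d) (Fin d) κ).mulVec y := by
  have h1 : X⁻¹ * ρ (α g) = invT (ρ g) * X⁻¹ := by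
    rw [hX.eq g, mul_assoc, inv_mul_cancel_left]
  have h2 := congrArg (fun A : GL (Fin d) κ => (A : Matrix (Fin d) (Fin d) κ)) h1
  simp only [GeneralLinearGroup.coe_mul, coe_invT] at h2
  rw [Matrix.mulVec_mulVec, h2, ← Matrix.mulVec_mulVec, Matrix.dotProduct_mulVec, Matrix.vecMul_transpose,
    Matrix.mulVec_mulVec, ← GeneralLinearGroup.coe_mul, inv_mul_cancel, Units.val_one, Matrix.one_mulVec]

private theorem G3_scal {A : GL (Fin d) κ} (h : IsScal A) : ∃ b : κ, ∀ x : Fin d → κ,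
    (A : Matrix (Fin d) (Fin d) κ).mulVec x = b • x := by
  obtain ⟨b, hb⟩ := h
  refine ⟨b, fun x => ?_⟩
  rw [hb, Matrix.scalar_apply]
  ext i
  rw [Matrix.mulVec_diagonal]
  rfl

/-- The eigenspace of `A` for `l`. -/
private def G3_eig (A : GL (Fin d) κ) (l : κ) : Submodule κ (Fin d → κ) where
  carrier := {x | (A : Matrix (Fin d) (Fin d) κ).mulVec x = l • x}
  add_mem' := by
    intro a b ha hb
    change _ = _ at ha hb
    change _ = _
    rw [Matrix.mulVec_add, ha, hb, smul_add]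
  zero_mem' := by
    change _ = _
    rw [Matrix.mulVec_zero, smul_zero]
  smul_mem' := by
    intro c a ha
    change _ = _ at ha
    change _ = _
    rw [Matrix.mulVec_smul, ha, smul_comm]

private theorem G3_mem {A : GL (Fin d) κ} {l : κ} {x : Fin d → κ} :
    x ∈ G3_eig A l ↔ (A : Matrix (Fin d) (Fin d) κ).mulVec x = l • x := Iff.rfl

private theorem G3_inv {A : GL (Fin d) κ} {l : κ} {x : Fin d → κ} (hx0 : x ≠ 0)
    (hx : (A : Matrix (Fin d) (Fin d) κ).mulVec x = l • x) :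
    l ≠ 0 ∧ ((A⁻¹ : GL (Fin d) κ) : Matrix (Fin d) (Fin d) κ).mulVec x = l⁻¹ • x := by
  have h1 : ((A⁻¹ : GL (Fin d) κ) : Matrix (Fin d) (Fin d) κ).mulVec
      ((A : Matrix (Fin d) (Fin d) κ).mulVec x) = x := by
    rw [Matrix.mulVec_mulVec, ← GeneralLinearGroup.coe_mul, inv_mul_cancel, Units.val_one, Matrix.one_mulVec]
  have hl : l ≠ 0 := by
    intro hl
    rw [hx, hl, zero_smul, Matrix.mulVec_zero] at h1
    exact hx0 h1.symm
  refine ⟨hl, ?_⟩
  rw [hx, Matrix.mulVec_smul] at h1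
  rw [← h1, smul_smul, inv_mul_cancel₀ hl, one_smul]
  rw [h1]

private theorem G3_pow {A : GL (Fin d) κ} {l : κ} {x : Fin d → κ}
    (hx : (A : Matrix (Fin d) (Fin d) κ).mulVec x = l • x) (n : ℕ) :
    ((A ^ n : GL (Fin d) κ) : Matrix (Fin d) (Fin d) κ).mulVec x = l ^ n • x := by
  induction n with
  | zero => rw [pow_zero, pow_zero, Units.val_one, Matrix.one_mulVec, one_smul]
  | succ n ih =>
    rw [pow_succ', GeneralLinearGroup.coe_mul, ← Matrix.mulVec_mulVec, ih, Matrix.mulVec_smul, hx, smul_smul,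
      pow_succ]

private theorem G3_zpow {A : GL (Fin d) κ} {l : κ} {x : Fin d → κ} (hx0 : x ≠ 0)
    (hx : (A : Matrix (Fin d) (Fin d) κ).mulVec x = l • x) (i : ℤ) :
    ∃ c : κ, ((A ^ i : GL (Fin d) κ) : Matrix (Fin d) (Fin d) κ).mulVec x = c • x := by
  obtain ⟨n, rfl | rfl⟩ := i.eq_nat_or_neg
  · exact ⟨l ^ n, by rw [zpow_natCast]; exact G3_pow hx n⟩
  · refine ⟨l⁻¹ ^ n, ?_⟩
    have h1 : (A ^ (-(n : ℤ)) : GL (Fin d) κ) = A⁻¹ ^ n := by
      rw [_root_.zpow_neg, zpow_natCast, inv_pow]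
    rw [h1]
    exact G3_pow (G3_inv hx0 hx).2 n

private theorem G3_line {ρ : G →* GL (Fin d) κ} (γ : G)
    (hγ : ∀ g, ∃ i : ℤ, IsScal ((ρ γ ^ i)⁻¹ * ρ g)) {l : κ} {x : Fin d → κ} (hx0 : x ≠ 0)
    (hx : (ρ γ : Matrix (Fin d) (Fin d) κ).mulVec x = l • x) (g : G) :
    ∃ c : κ, (ρ g : Matrix (Fin d) (Fin d) κ).mulVec x = c • x := by
  obtain ⟨i, hi⟩ := hγ g
  obtain ⟨b, hb⟩ := G3_scal hi
  obtain ⟨c, hc⟩ := G3_zpow hx0 hx i
  refine ⟨b * c, ?_⟩
  have h1 : ρ g = ρ γ ^ i * ((ρ γ ^ i)⁻¹ * ρ g) := by rw [mul_inv_cancel_left]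
  rw [h1, GeneralLinearGroup.coe_mul, ← Matrix.mulVec_mulVec, hb, Matrix.mulVec_smul, hc, smul_smul]

private theorem G3_eigStb {ρ : G →* GL (Fin d) κ} (γ : G)
    (hγ : ∀ g, ∃ i : ℤ, IsScal ((ρ γ ^ i)⁻¹ * ρ g)) (l : κ) : Stb ρ (G3_eig (ρ γ) l) := by
  intro g x hx
  by_cases hx0 : x = 0
  · rw [hx0, Matrix.mulVec_zero]
    exact Submodule.zero_mem _
  obtain ⟨c, hc⟩ := G3_line γ hγ hx0 hx g
  rw [hc]
  exact Submodule.smul_mem _ _ hx

private theorem G3_top [IsAlgClosed κ] {ρ : G →* GL (Fin d) κ} (hss : Semis ρ) (γ : G)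
    (hγ : ∀ g, ∃ i : ℤ, IsScal ((ρ γ ^ i)⁻¹ * ρ g)) : (⨆ l : κ, G3_eig (ρ γ) l) = ⊤ := by
  have hst : Stb ρ (⨆ l : κ, G3_eig (ρ γ) l) := by
    intro g x hx
    have h1 : (⨆ l : κ, G3_eig (ρ γ) l) ≤
        (⨆ l : κ, G3_eig (ρ γ) l).comap (Matrix.mulVecLin (ρ g : Matrix (Fin d) (Fin d) κ)) := by
      apply iSup_le
      intro l y hy
      exact (le_iSup (fun l : κ => G3_eig (ρ γ) l) l) (G3_eigStb γ hγ l g y hy)
    exact h1 hx
  obtain ⟨W, hW, hc⟩ := hss _ hst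
  by_cases hW0 : W = ⊥
  · rw [hW0] at hc
    exact eq_top_of_isCompl_bot hc
  exfalso
  have : Nontrivial W := Submodule.nontrivial_iff_ne_bot.2 hW0
  obtain ⟨f, hf⟩ : ∃ f : Module.End κ W, ∀ x : W, ((f x : W) : Fin d → κ) =
      (ρ γ : Matrix (Fin d) (Fin d) κ).mulVec (x : Fin d → κ) :=
    ⟨LinearMap.restrict (Matrix.mulVecLin (ρ γ : Matrix (Fin d) (Fin d) κ)) (fun x hx => hW γ x hx),
      fun x => rfl⟩
  obtain ⟨l, hl⟩ := Module.End.exists_eigenvalue f
  obtain ⟨v, hv⟩ := hl.exists_hasEigenvector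
  have h1 : (v : Fin d → κ) ∈ G3_eig (ρ γ) l := by
    rw [G3_mem, ← hf v, hv.apply_eq_smul]
    rfl
  have h2 : (v : Fin d → κ) ∈ (⨆ l : κ, G3_eig (ρ γ) l) ⊓ W :=
    ⟨(le_iSup (fun l : κ => G3_eig (ρ γ) l) l) h1, v.2⟩
  rw [hc.inf_eq_bot, Submodule.mem_bot] at h2
  exact hv.2 (Subtype.ext h2)

private theorem G3_fin {ρ : G →* GL (Fin d) κ} {X : GL (Fin d) κ} (γ : G)
    (hγ : ∀ g, ∃ i : ℤ, IsScal ((ρ γ ^ i)⁻¹ * ρ g)) {l : κ} {x : Fin d → κ} (hx0 : x ≠ 0)
    (hx : (ρ γ : Matrix (Fin d) (Fin d) κ).mulVec x = l • x)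
    (hxx : x ⬝ᵥ ((X⁻¹ : GL (Fin d) κ) : Matrix (Fin d) (Fin d) κ).mulVec x = 0) :
    ∃ U : Submodule κ (Fin d → κ), U ≠ ⊥ ∧ Stb ρ U ∧ Iso X U := by
  refine ⟨Submodule.span κ {x}, ?_, ?_, ?_⟩
  · intro h
    exact hx0 (Submodule.span_singleton_eq_bot.1 h)
  · intro g y hy
    obtain ⟨a, rfl⟩ := Submodule.mem_span_singleton.1 hy
    obtain ⟨c, hc⟩ := G3_line γ hγ hx0 hx g
    rw [Matrix.mulVec_smul, hc]
    exact Submodule.smul_mem _ _ (Submodule.smul_mem _ _ (Submodule.mem_span_singleton_self x))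
  · intro y hy z hz
    obtain ⟨a, rfl⟩ := Submodule.mem_span_singleton.1 hy
    obtain ⟨b, rfl⟩ := Submodule.mem_span_singleton.1 hz
    rw [Matrix.mulVec_smul, dotProduct_smul, smul_dotProduct, hxx, smul_zero, smul_zero]

/-- **G3** (2). A semisimple self-dual representation of dimension at least three whose image is
generated by one element and scalars has a stable isotropic line.

PROOF. Let `A = ρ γ` and for `l : κ` let `E l` be the eigenspace of `A` (`Module.End.eigenspace` of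
`Matrix.toLin'`, or `{x | A x = l x}`). If `A x = l x`, `x ≠ 0`, then `A^i x = l^i x` for `i : ℤ` (`l ≠ 0`) and the line
of `x` is stable under all `ρ g` (`hγ`). So all `E l` are stable. Let `V = ⨆ l, E l`: stable; let `W` be a stable
complement. If `W ≠ ⊥`, `A` restricted to `W` has an eigenvector (`Module.End.exists_eigenvalue`), which is in
`V ⊓ W = ⊥`: so `V = ⊤`. Let `μ` be the scalar with `ρ (α γ) = μ A` (`hγα`), `μ ≠ 0`. From `SelfD`:
`(A x) ⬝ᵥ X⁻¹ (μ A y) = x ⬝ᵥ X⁻¹ y` for all `x, y` (`X⁻¹ ρ(α γ) = A^{-T} X⁻¹`).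
(i) If `E l ≠ ⊥` for some `l` with `l * l * μ ≠ 1`: take `0 ≠ x ∈ E l`: `l * l * μ * (x ⬝ᵥ X⁻¹ x) = x ⬝ᵥ X⁻¹ x`, so it is
`0`. (ii) Otherwise all eigenvalues satisfy `l * l = μ⁻¹`, so they are `l₀` or `-l₀`, `⊤ = E l₀ ⊔ E (-l₀)`, so one of
them has dimension `≥ 2` (`3 ≤ d`; `Submodule.finrank_add_le_finrank_add_finrank`): `exists_iso_vec`.
In both cases we have an eigenvector `x` of `A` with `x ⬝ᵥ X⁻¹ x = 0`; `U = span {x}`. -/
theorem exists_iso_line [IsAlgClosed κ] (hd : 3 ≤ d) {ρ : G →* GL (Fin d) κ} {X : GL (Fin d) κ}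
    {α : G → G} (hX : SelfD ρ X α) (hss : Semis ρ) (γ : G)
    (hγ : ∀ g, ∃ i : ℤ, IsScal ((ρ γ ^ i)⁻¹ * ρ g)) (hγα : IsScal ((ρ γ)⁻¹ * ρ (α γ))) :
    ∃ U : Submodule κ (Fin d → κ), U ≠ ⊥ ∧ Stb ρ U ∧ Iso X U := by
  have hd0 : (0 : ℕ) < d := by omega
  obtain ⟨μ, hμ⟩ := G3_scal hγα
  have hμ0 : μ ≠ 0 := by
    intro h0
    have h1 := hμ (Pi.single ⟨0, hd0⟩ 1)
    rw [h0, zero_smul] at h1
    have h2 := congrArg (fun y => ((((ρ γ)⁻¹ * ρ (α γ))⁻¹ : GL (Fin d) κ) :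
      Matrix (Fin d) (Fin d) κ).mulVec y) h1
    simp only [Matrix.mulVec_zero] at h2
    rw [Matrix.mulVec_mulVec, ← GeneralLinearGroup.coe_mul, inv_mul_cancel, Units.val_one,
      Matrix.one_mulVec] at h2
    have h3 := congrFun h2 ⟨0, hd0⟩
    rw [Pi.single_eq_same] at h3
    exact one_ne_zero h3
  have hα : ∀ y : Fin d → κ, (ρ (α γ) : Matrix (Fin d) (Fin d) κ).mulVec y =
      μ • (ρ γ : Matrix (Fin d) (Fin d) κ).mulVec y := by
    intro y
    have h1 : ρ (α γ) = ρ γ * ((ρ γ)⁻¹ * ρ (α γ)) := by rw [mul_inv_cancel_left]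
    rw [h1, GeneralLinearGroup.coe_mul, ← Matrix.mulVec_mulVec, hμ, Matrix.mulVec_smul]
  have hform : ∀ (l : κ) (x : Fin d → κ), (ρ γ : Matrix (Fin d) (Fin d) κ).mulVec x = l • x →
      l * l * μ * (x ⬝ᵥ ((X⁻¹ : GL (Fin d) κ) : Matrix (Fin d) (Fin d) κ).mulVec x) =
        x ⬝ᵥ ((X⁻¹ : GL (Fin d) κ) : Matrix (Fin d) (Fin d) κ).mulVec x := by
    intro l x hx
    have h1 := G3_act hX γ x x
    rw [hα, hx, Matrix.mulVec_smul, Matrix.mulVec_smul, dotProduct_smul, dotProduct_smul,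
      smul_dotProduct] at h1
    simp only [smul_eq_mul] at h1
    linear_combination h1
  by_cases hc : ∃ (l : κ) (x : Fin d → κ), x ≠ 0 ∧ (ρ γ : Matrix (Fin d) (Fin d) κ).mulVec x = l • x ∧
      l * l * μ ≠ 1
  · obtain ⟨l, x, hx0, hx, hl⟩ := hc
    refine G3_fin γ hγ hx0 hx ?_
    have h1 := hform l x hx
    have h2 : (l * l * μ - 1) * (x ⬝ᵥ ((X⁻¹ : GL (Fin d) κ) : Matrix (Fin d) (Fin d) κ).mulVec x) = 0 := by
      rw [sub_mul, h1, one_mul, sub_self]
    exact (mul_eq_zero.1 h2).resolve_left (sub_ne_zero.2 hl)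
  push Not at hc
  obtain ⟨l₀, hl₀⟩ := IsAlgClosed.exists_eq_mul_self μ⁻¹
  have hev : ∀ (l : κ), G3_eig (ρ γ) l ≤ G3_eig (ρ γ) l₀ ⊔ G3_eig (ρ γ) (-l₀) := by
    intro l x hx
    by_cases hx0 : x = 0
    · rw [hx0]
      exact Submodule.zero_mem _
    have h1 := hc l x hx0 hx
    have h2 : l * l = l₀ * l₀ := by
      rw [← hl₀]
      exact eq_inv_of_mul_eq_one_left h1
    rcases mul_self_eq_mul_self_iff.1 h2 with rfl | rfl
    · exact Submodule.mem_sup_left hx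
    · exact Submodule.mem_sup_right hx
  have htop : G3_eig (ρ γ) l₀ ⊔ G3_eig (ρ γ) (-l₀) = ⊤ := by
    rw [eq_top_iff, ← G3_top hss γ hγ]
    exact iSup_le hev
  have hfr := Submodule.finrank_add_le_finrank_add_finrank (G3_eig (ρ γ) l₀) (G3_eig (ρ γ) (-l₀))
  rw [htop, finrank_top, Module.finrank_fin_fun] at hfr
  rcases le_or_gt 2 (Module.finrank κ (G3_eig (ρ γ) l₀)) with h2 | h2
  · obtain ⟨x, hx, hx0, hxx⟩ := exists_iso_vec ((X⁻¹ : GL (Fin d) κ) : Matrix (Fin d) (Fin d) κ) _ h2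
    exact G3_fin γ hγ hx0 hx hxx
  · have h3 : 2 ≤ Module.finrank κ (G3_eig (ρ γ) (-l₀)) := by omega
    obtain ⟨x, hx, hx0, hxx⟩ := exists_iso_vec ((X⁻¹ : GL (Fin d) κ) : Matrix (Fin d) (Fin d) κ) _ h3
    exact G3_fin γ hγ hx0 hx hxx
/- END G3 -/

/- MODULE G4 -/
private theorem G4_coprime {Δ : Type} [Group Δ] {S : Subgroup Δ} {x : Δ} {a b : ℕ}
    (ha : x ^ a ∈ S) (hb : x ^ b ∈ S) (hab : Nat.Coprime a b) : x ∈ S := by
  have h1 : (Nat.gcd a b : ℤ) = a * Nat.gcdA a b + b * Nat.gcdB a b := Nat.gcd_eq_gcd_ab a b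
  rw [hab] at h1
  have h2 : x = (x ^ a) ^ (Nat.gcdA a b) * (x ^ b) ^ (Nat.gcdB a b) := by
    rw [← zpow_natCast x a, ← zpow_natCast x b, ← _root_.zpow_mul, ← _root_.zpow_mul, ← _root_.zpow_add, ← h1]
    simp
  rw [h2]
  exact S.mul_mem (S.zpow_mem ha _) (S.zpow_mem hb _)

/-- **G4**. The conclusion of the group theory (compare `CGN.hasSub_final`).

PROOF. Suppose there is no stable isotropic `U ≠ ⊥`. By G1 `ρ` is semisimple. By G2 for `H₂` all `ρ x`,
`x ∈ H₂`, are scalar. As in the proof of `hasSub_final` (GalGrp.lean, module GD, copy `GD_coprime`) all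
`ρ x`, `x ∈ H₁`, are scalar (G2 for `H₁`), then all `ρ y`, `y ∈ G₀` (`hH1`). `p ≠ 2`: choose `t` with `f t`
generating `f.range`; for `g ∈ G` there is `i` with `f g = f t ^ i`, so `(t ^ i)⁻¹ * g ∈ G₀`; and
`f (α t) = f t`, so `t⁻¹ * α t ∈ G₀`: G3 with `γ = t`. `p = 2`: `ρ g ^ (2 ^ k)` is scalar for all `g`, G2 for
`H = ⊤`: all `ρ g` are scalar, G3 with `γ = 1`. -/
theorem iso_final [IsAlgClosed κ] {p M : ℕ} [CharP κ p] (hp : p.Prime) (hd : 3 ≤ d)
    (ρ : G →* GL (Fin d) κ) [Finite ρ.range] {X : GL (Fin d) κ} {α : G → G} (hX : SelfD ρ X α)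
    (G₀ H₁ H₂ : Subgroup G) [H₁.Normal] [H₂.Normal]
    (hH2 : ∀ x ∈ H₂, ∀ m : ℕ, p.Coprime m → ρ x ^ m = 1 → IsScal (ρ x))
    (hH1 : ∀ y ∈ G₀, ∃ c : G, ρ c = 1 ∧ c * y ∈ H₁)
    (hpow : ∀ x ∈ H₁, x ^ (p ^ M) ∈ H₂)
    {C : Type} [CommGroup C] [Finite C] (f : G →* C) (hf : ∀ g, f g = 1 → g ∈ G₀)
    (hfα : ∀ g, f (α g) = f g)
    (hC1 : p ≠ 2 → IsCyclic C) (hC2 : p = 2 → ∃ k : ℕ, ∀ x : C, x ^ (2 ^ k) = 1) :
    ∃ U : Submodule κ (Fin d → κ), U ≠ ⊥ ∧ Stb ρ U ∧ Iso X U := by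
  by_contra hcon
  have hno : ∀ U : Submodule κ (Fin d → κ), U ≠ ⊥ → Stb ρ U → ¬ Iso X U := by
    intro U h1 h2 h3
    exact hcon ⟨U, h1, h2, h3⟩
  have hss : Semis ρ := semis_of_no_iso hX hno
  have hs := scal_of_semis hp (by omega) ρ hss H₂ hH2
  have hs1 := scal_of_semis hp (by omega) ρ hss H₁ (fun x hx m hm hxm => by
    have h1 : ρ x ^ (p ^ M) ∈ scalSub d κ := by
      have h2 := hs _ (hpow x hx)
      rw [map_pow] at h2
      exact h2
    refine G4_coprime h1 ?_ (Nat.Coprime.pow_left M hm)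
    rw [hxm]
    exact (scalSub d κ).one_mem)
  have h0 : ∀ y ∈ G₀, ρ y ∈ scalSub d κ := by
    intro y hy
    obtain ⟨c, hc, hcy⟩ := hH1 y hy
    have h1 := hs1 _ hcy
    rw [map_mul, hc, one_mul] at h1
    exact h1
  by_cases hp2 : p = 2
  · subst hp2
    obtain ⟨k, hk⟩ := hC2 rfl
    have hG : ∀ g : G, ρ g ^ (2 ^ k) ∈ scalSub d κ := by
      intro g
      have h1 : g ^ (2 ^ k) ∈ G₀ := hf _ (by rw [map_pow, hk])
      have h2 := h0 _ h1
      rw [map_pow] at h2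
      exact h2
    have h1 := scal_of_semis hp (by omega) ρ hss (⊤ : Subgroup G) (fun x _ m hm hxm => by
      refine G4_coprime (hG x) ?_ ((Nat.Coprime.pow_left k hm))
      rw [hxm]
      exact (scalSub d κ).one_mem)
    apply hcon
    refine exists_iso_line hd hX hss 1 (fun g => ⟨0, ?_⟩) ?_
    · rw [zpow_zero, inv_one, one_mul]
      exact h1 g trivial
    · rw [map_one, inv_one, one_mul]
      exact h1 _ trivial
  · have := hC1 hp2
    obtain ⟨⟨_, t, rfl⟩, ht⟩ := IsCyclic.exists_generator (α := f.range)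
    apply hcon
    refine exists_iso_line hd hX hss t (fun g => ?_) ?_
    · obtain ⟨i, hi⟩ := Subgroup.mem_zpowers_iff.1 (ht ⟨f g, ⟨g, rfl⟩⟩)
      refine ⟨i, ?_⟩
      rw [← map_zpow, ← map_inv, ← map_mul]
      apply h0
      apply hf
      have h2 : f t ^ i = f g := congrArg Subtype.val hi
      rw [map_mul, map_inv, map_zpow, h2, inv_mul_cancel]
    · rw [← map_inv, ← map_mul]
      apply h0
      apply hf
      rw [map_mul, map_inv, hfα, inv_mul_cancel]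
/- END G4 -/

/- MODULE G5 -/
/-- **G5**. A stable isotropic subspace over the algebraic closure gives one over a finite extension.

PROOF. Copy `CGN.exists_finite_sub` (GalGrp.lean, module NS): `k'` is generated by the coordinates of one
`0 ≠ x ∈ U`, `U₀ = {y | (fun i => (y i : κ̄)) ∈ U}`. The isotropy of `U₀`: the image in `κ̄` of `x ⬝ᵥ X⁻¹ y` for
`x, y ∈ U₀` is the value of the form at the images, and `k' → κ̄` is injective (the inverse matrix of the
image of `X` is the image of the inverse, `map_inv`). -/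
theorem exists_finite_iso {k : Type} [Field k] (ρ : G →* GL (Fin d) k) (X : GL (Fin d) k)
    {U : Submodule (AlgebraicClosure k) (Fin d → AlgebraicClosure k)} (hU : U ≠ ⊥)
    (hs : Stb ((GeneralLinearGroup.map (n := Fin d) (algebraMap k (AlgebraicClosure k))).comp ρ) U)
    (hi : Iso (GeneralLinearGroup.map (n := Fin d) (algebraMap k (AlgebraicClosure k)) X) U) :
    ∃ (k' : IntermediateField k (AlgebraicClosure k)) (U₀ : Submodule k' (Fin d → k')),
      Module.Finite k k' ∧ U₀ ≠ ⊥ ∧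
      Stb ((GeneralLinearGroup.map (n := Fin d) (algebraMap k k')).comp ρ) U₀ ∧
      Iso (GeneralLinearGroup.map (n := Fin d) (algebraMap k k') X) U₀ := by
  obtain ⟨x, hx, hx0⟩ := Submodule.exists_mem_ne_zero_of_ne_bot hU
  let k' : IntermediateField k (AlgebraicClosure k) := IntermediateField.adjoin k (Set.range x)
  have hfd : FiniteDimensional k k' := by
    apply IntermediateField.finiteDimensional_adjoin
    intro y _
    exact Algebra.IsIntegral.isIntegral y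
  have hxmem : ∀ i, x i ∈ k' := fun i => IntermediateField.subset_adjoin k _ ⟨i, rfl⟩
  let U₀ : Submodule k' (Fin d → k') :=
    { carrier := {y | (fun i => ((y i : k') : AlgebraicClosure k)) ∈ U}
      add_mem' := by
        intro a b ha hb
        exact U.add_mem ha hb
      zero_mem' := U.zero_mem
      smul_mem' := by
        intro c a ha
        exact U.smul_mem (c : AlgebraicClosure k) ha }
  have hmv : ∀ (B : Matrix (Fin d) (Fin d) k) (y : Fin d → k'),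
      (fun i => ((((B.map (algebraMap k k')).mulVec y i : k')) : AlgebraicClosure k)) =
        (B.map (algebraMap k (AlgebraicClosure k))).mulVec
          (fun i => ((y i : k') : AlgebraicClosure k)) := by
    intro B y
    funext i
    simp only [Matrix.mulVec, dotProduct]
    push_cast
    rfl
  refine ⟨k', U₀, hfd, ?_, ?_, ?_⟩
  · intro h
    have h1 : (fun i => (⟨x i, hxmem i⟩ : k')) ∈ U₀ := hx
    rw [h, Submodule.mem_bot] at h1
    apply hx0
    ext i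
    exact congrArg Subtype.val (congrFun h1 i)
  · intro g y hy
    have h1 := hs g _ hy
    have h2 := hmv (ρ g : Matrix (Fin d) (Fin d) k) y
    change (fun i => (((((ρ g : Matrix (Fin d) (Fin d) k).map (algebraMap k k')).mulVec y i : k')) :
      AlgebraicClosure k)) ∈ U
    rw [h2]
    exact h1
  · intro a ha b hb
    have h1 := hi _ ha _ hb
    have h2 := hmv ((X⁻¹ : GL (Fin d) k) : Matrix (Fin d) (Fin d) k) b
    apply Subtype.val_injective
    have h3 : (((GeneralLinearGroup.map (n := Fin d) (algebraMap k k') X)⁻¹ : GL (Fin d) k') :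
        Matrix (Fin d) (Fin d) k') =
        ((X⁻¹ : GL (Fin d) k) : Matrix (Fin d) (Fin d) k).map (algebraMap k k') := by
      rw [← map_inv]
      rfl
    have h4 : (((GeneralLinearGroup.map (n := Fin d) (algebraMap k (AlgebraicClosure k)) X)⁻¹ :
        GL (Fin d) (AlgebraicClosure k)) : Matrix (Fin d) (Fin d) (AlgebraicClosure k)) =
        ((X⁻¹ : GL (Fin d) k) : Matrix (Fin d) (Fin d) k).map
          (algebraMap k (AlgebraicClosure k)) := by
      rw [← map_inv]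
      rfl
    rw [h4, ← h2] at h1
    rw [h3]
    have h5 : ((a ⬝ᵥ (((X⁻¹ : GL (Fin d) k) : Matrix (Fin d) (Fin d) k).map
        (algebraMap k k')).mulVec b : k') : AlgebraicClosure k) =
        (fun i => ((a i : k') : AlgebraicClosure k)) ⬝ᵥ
        (fun i => (((((X⁻¹ : GL (Fin d) k) : Matrix (Fin d) (Fin d) k).map
        (algebraMap k k')).mulVec b i : k') : AlgebraicClosure k)) := by
      simp only [dotProduct]
      push_cast
      rfl
    rw [h5]
    exact h1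
/- END G5 -/

end Pool.Agent.CGU
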