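import Pool.Agent.CGU.GRes
import Pool.Agent.CGU.GLin

/-!
# The Galois side for unitary groups
-/

noncomputable section

set_option linter.unusedSectionVars false

namespace Pool.Agent.CGU

open NumberField IsDedekindDomain Matrix
open Pool.Agent.CG2 (Pl Fv Ov GalF Fbar Zbar Over IsInertia IsFrob Nm IsRay)
open Pool.Agent.CG2.GalFinAux (below)
open Pool.Agent.CGQ
open Pool.Agent.CGN (Split incj abv Sel ActsAs IsScal HypN HypE HE HN mem_HE mem_HN eact Indep)

variable {F : Type} [Field F] [NumberField F] {K : Type} [Field K] [NumberField K] [Algebra F K]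

/- MODULE G9 -/
private theorem G9_map {n : ℕ} {k k' : Type} [Field k] [Field k'] (f : k →+* k')
    (g : GL (Fin n) k) : GeneralLinearGroup.map f (invT g) =
      invT (GeneralLinearGroup.map f g) := by
  apply Units.ext
  ext i j
  rw [coe_invT, ← map_inv]
  rfl

/-- Two automorphisms commute on the roots of unity. -/
private theorem G9_root {K : Type} [Field K] [NumberField K] (σ : Fbar K ≃+* Fbar K)
    (g : GalF K) {N : ℕ} (hN : 0 < N) {w : Fbar K} (hw : w ^ N = 1) : σ (g w) = g (σ w) := by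
  have : NeZero N := ⟨hN.ne'⟩
  obtain ⟨ζ, hζ⟩ := HasEnoughRootsOfUnity.exists_primitiveRoot (Fbar K) N
  obtain ⟨i, -, rfl⟩ := hζ.eq_pow_of_pow_eq_one hw
  have h1 : (σ ζ) ^ N = 1 := by rw [← map_pow, hζ.pow_eq_one, map_one]
  have h2 : (g ζ) ^ N = 1 := by rw [← map_pow, hζ.pow_eq_one, map_one]
  obtain ⟨a, -, ha⟩ := hζ.eq_pow_of_pow_eq_one h1
  obtain ⟨b, -, hb⟩ := hζ.eq_pow_of_pow_eq_one h2
  rw [map_pow, map_pow, map_pow, map_pow, ← hb, ← ha, map_pow, map_pow, ← hb, ← ha]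
  ring

/-- **G9**. The outer element and the conjugation by it.

PROOF. `CGN.exists_gal` for `j` and `j ∘ c` gives `s` with `s (j x) = j (c x)`; `s ∉ fixK j`, so
`(ρ s).right ≠ 1`, `= -1` (`Int.units_eq_one_or`). For `h ∈ fixK j`: `s h s⁻¹ ∈ fixK j` (`s⁻¹ (j x) = j (c⁻¹ x)`). By
`toGF_bij` define `α g` by `toGF (α g) = s (toGF g) s⁻¹`; it is surjective (`s⁻¹ h s ∈ fixK j`). `SelfD`: for
`(A, -1) = ρ s`, `(B, 1) = ρ h`: `(A,-1)(B,1)(A,-1)⁻¹ = (A J B^{-T} J⁻¹ A⁻¹, 1)` (`SemidirectProduct.ext`, `mul_left`,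
`dualAct_neg`, `dualAut_apply`), mapped to the algebraic closure. Roots of unity: `g⁻¹ (α g)` is trivial on
the `N`-th roots of unity: `ψ⁻¹ s ψ` and `g` act on the group of the `N`-th roots of unity of `Fbar K` (cyclic, generated
by a primitive one, `HasEnoughRootsOfUnity.exists_primitiveRoot`) by powers, so they commute there. -/
theorem exists_outer (c : K ≃ₐ[F] K) (hc : ∃ a, c a ≠ a) (j : K →ₐ[F] Fbar F)
    (ψ : Fbar K ≃+* Fbar F) (hψ : ∀ a : K, ψ (algebraMap K (Fbar K) a) = j a) {n : ℕ} {k : Type}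
    [Field k] (ρ : GalF F →* LG n k)
    (hr : ∀ g : GalF F, (ρ g).right = 1 ↔ ∀ a : K, g (j a) = j a) :
    ∃ (s : GalF F) (α : GalF K → GalF K), (ρ s).right = -1 ∧
      (∀ g, ((toGF j ψ hψ (α g) : fixK j) : GalF F) = s * (toGF j ψ hψ g : GalF F) * s⁻¹) ∧
      SelfD (((GeneralLinearGroup.map (n := Fin n) (algebraMap k (AlgebraicClosure k))).comp
        (rhoK ρ j hr)).comp (toGF j ψ hψ))
        (GeneralLinearGroup.map (n := Fin n) (algebraMap k (AlgebraicClosure k))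
          ((ρ s).left * JG n k)) α ∧
      ∀ (N : ℕ), 0 < N → ∀ g : GalF K, TrivMu N (g⁻¹ * α g) := by
  obtain ⟨s, hs⟩ := CGN.exists_gal j (j.comp (c : K →ₐ[F] K))
  have hs1 : ∀ x : K, s (j x) = j (c x) := hs
  have hs2 : ∀ x : K, s⁻¹ (j x) = j (c.symm x) := by
    intro x
    have h1 := hs1 (c.symm x)
    rw [AlgEquiv.apply_symm_apply] at h1
    rw [← h1]
    exact s.symm_apply_apply _
  have hsr : (ρ s).right = -1 := by
    rcases Int.units_eq_one_or (ρ s).right with h1 | h1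
    · exfalso
      obtain ⟨a, ha⟩ := hc
      apply ha
      have h2 := (hr s).1 h1 a
      rw [hs1] at h2
      exact j.injective h2
    · exact h1
  have hconj : ∀ h : fixK j, s * (h : GalF F) * s⁻¹ ∈ fixK j := by
    intro h x
    change s ((h : GalF F) (s⁻¹ (j x))) = j x
    rw [hs2, h.2, hs1, AlgEquiv.apply_symm_apply]
  have hconj' : ∀ h : fixK j, s⁻¹ * (h : GalF F) * s ∈ fixK j := by
    intro h x
    change s⁻¹ ((h : GalF F) (s (j x))) = j x
    rw [hs1, h.2, hs2, AlgEquiv.symm_apply_apply]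
  obtain ⟨hinj, hsur⟩ := toGF_bij j ψ hψ
  choose β hβ using hsur
  obtain ⟨α, hα⟩ : ∃ α : GalF K → GalF K, ∀ g, ((toGF j ψ hψ (α g) : fixK j) : GalF F) =
      s * (toGF j ψ hψ g : GalF F) * s⁻¹ := by
    refine ⟨fun g => β ⟨_, hconj (toGF j ψ hψ g)⟩, fun g => ?_⟩
    rw [hβ]
  refine ⟨s, α, hsr, hα, ⟨?_, ?_⟩, ?_⟩
  · intro h
    refine ⟨β ⟨_, hconj' (toGF j ψ hψ h)⟩, ?_⟩
    apply hinj
    apply Subtype.ext
    rw [hα, hβ]
    change s * (s⁻¹ * (toGF j ψ hψ h : GalF F) * s) * s⁻¹ = _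
    group
  · intro g
    have hone : dualAct n k 1 = 1 := map_one _
    have hgr : (ρ (toGF j ψ hψ g : GalF F)).right = 1 := (hr _).2 (toGF j ψ hψ g).2
    have har : (ρ (toGF j ψ hψ (α g) : GalF F)).right = 1 := (hr _).2 (toGF j ψ hψ (α g)).2
    have h1 : (ρ ((toGF j ψ hψ (α g) : GalF F) * s)).left =
        (ρ (s * (toGF j ψ hψ g : GalF F))).left := by
      rw [hα, inv_mul_cancel_right]
    rw [map_mul, map_mul, SemidirectProduct.mul_left, SemidirectProduct.mul_left, har, hsr, hone,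
      MulAut.one_apply, dualAct_neg, dualAut_apply] at h1
    have h2 : rhoK ρ j hr (toGF j ψ hψ (α g)) = ((ρ s).left * JG n k) *
        invT (rhoK ρ j hr (toGF j ψ hψ g)) * ((ρ s).left * JG n k)⁻¹ := by
      change (ρ (toGF j ψ hψ (α g) : GalF F)).left = ((ρ s).left * JG n k) *
        invT (ρ (toGF j ψ hψ g : GalF F)).left * ((ρ s).left * JG n k)⁻¹
      rw [eq_mul_inv_of_mul_eq h1]
      group
    change GeneralLinearGroup.map (n := Fin n) (algebraMap k (AlgebraicClosure k))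
      (rhoK ρ j hr (toGF j ψ hψ (α g))) = _ * invT (GeneralLinearGroup.map (n := Fin n)
        (algebraMap k (AlgebraicClosure k)) (rhoK ρ j hr (toGF j ψ hψ g))) * _
    rw [h2, map_mul, map_mul, map_inv, G9_map]
  · intro N hN g z hz
    obtain ⟨σ, hσ⟩ : ∃ σ : Fbar K ≃+* Fbar K,
        σ = (ψ.trans (s : Fbar F ≃+* Fbar F)).trans ψ.symm := ⟨_, rfl⟩
    have hα' : ∀ z, α g z = σ (g (σ.symm z)) := by
      intro z
      have h1 : ((toGF j ψ hψ (α g) : fixK j) : GalF F) (ψ z) =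
          s ((toGF j ψ hψ g : GalF F) (s⁻¹ (ψ z))) := by
        rw [hα]
        rfl
      have h2 : ψ (α g (ψ.symm (ψ z))) = s (ψ (g (ψ.symm (s⁻¹ (ψ z))))) := h1
      rw [RingEquiv.symm_apply_apply] at h2
      have h3 : σ.symm z = ψ.symm (s⁻¹ (ψ z)) := by
        rw [hσ]
        rfl
      rw [h3, hσ]
      change α g z = ψ.symm (s (ψ (g (ψ.symm (s⁻¹ (ψ z))))))
      rw [← h2, RingEquiv.symm_apply_apply]
    have hw : (σ.symm z) ^ N = 1 := by rw [← map_pow, hz, map_one]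
    change g.symm (α g z) = z
    rw [hα', G9_root σ g hN hw, RingEquiv.apply_symm_apply]
    exact g.symm_apply_apply z
/- END G9 -/

/- MODULE G10 -/
private theorem G10_root {L : Type} [Field L] [NumberField L] [Algebra K L] {n : ℕ} (hn : 0 < n)
    {x : GalF K} (hx : x ∈ HE L n) {t : L} (ht : t ≠ 0) : x ^ n ∈ CGN.HR K n t := by
  rw [CGN.mem_HR]
  intro j y hy
  have hjt : j t ≠ 0 := (map_ne_zero j).2 ht
  obtain ⟨h1, h2⟩ := (mem_HE L).1 hx
  refine (CGN.kz_eq_one_iff hn hjt ((HMu K n).pow_mem h2 n)).1 ?_ y hy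
  rw [CGN.kz_npow hn hjt h2 (h1 j t), CGN.kz_pow hn hjt (h1 j t)]

private theorem G10_unit {L : Type} [Field L] [NumberField L] (u : (𝓞 L)ˣ) :
    ((u : 𝓞 L) : L) ≠ 0 := by
  intro h
  exact u.ne_zero (RingOfIntegers.coe_eq_zero_iff.1 h)

/-- A unit of finite order in characteristic `p` has order prime to `p`. -/
private theorem G10_ord {κ : Type} [Field κ] {p : ℕ} (hp : p.Prime) [CharP κ p] {B : ℕ}
    (hB : 0 < B) (x : κˣ) (hx : x ^ B = 1) : ∃ b : ℕ, p.Coprime b ∧ x ^ b = 1 := by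
  obtain ⟨a, b, hb, hab⟩ := Nat.exists_eq_pow_mul_and_not_dvd hB.ne' p hp.ne_one
  refine ⟨b, hp.coprime_iff_not_dvd.2 hb, ?_⟩
  have : Fact p.Prime := ⟨hp⟩
  have h1 : ((x ^ b : κˣ) : κ) ^ (p ^ a) = 1 := by
    rw [← Units.val_pow_eq_pow_val, ← pow_mul, mul_comm b, ← hab, hx, Units.val_one]
  have h2 : iterateFrobenius κ p a ((x ^ b : κˣ) : κ) = iterateFrobenius κ p a 1 := by
    rw [iterateFrobenius_def, h1, map_one]
  have h3 := iterateFrobenius_inj κ p a h2
  exact Units.ext h3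

/-- Elements of `HN` of order prime to `p` under `ρ` act as scalars: both signs. -/
private theorem G10_core {L : Type} [Field L] [NumberField L] [Algebra K L] {κ : Type} [Field κ]
    {p m E d : ℕ} (hp : p.Prime) [CharP κ p] (hpm : p.Coprime m) (hd : 2 ≤ d)
    (hL : Module.finrank K L = d)
    {ρ : GalF K →* GL (Fin d) κ} (hρ : IsOpen (ρ.ker : Set (GalF K))) {u e : (𝓞 L)ˣ}
    {S : Set (Pl L)} (hS : S.Finite) {χ : Pl L → κ} (hχ : IsRay S χ)
    {T : Set (Pl K)} (hT : T.Finite) (ε : ℤˣ) (hH : HypN ε p ρ u e χ T) {σ₀ : GalF K}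
    (hσ₀ : ρ σ₀ = 1) (hσE : σ₀ ∈ HE L (p ^ E))
    (hσu : ∀ j k : L →ₐ[K] Fbar K, CGN.kz (p ^ E) (j ((u : 𝓞 L) : L)) σ₀ =
        CGN.kz (p ^ E) (k ((u : 𝓞 L) : L)) σ₀)
    (hσe : ∀ j k : L →ₐ[K] Fbar K, j ≠ k → CGN.kz (p ^ E) (j ((e : 𝓞 L) : L)) σ₀ ≠
        CGN.kz (p ^ E) (k ((e : 𝓞 L) : L)) σ₀)
    (hSur : ∀ π : Equiv.Perm (L →ₐ[K] Fbar K), ∃ c : GalF K, ρ c = 1 ∧ eact L c = π)
    {s : GalF K} (hs : s ∈ HN K (p ^ E) ((u : 𝓞 L) : L) ((e : 𝓞 L) : L))
    (hsm : ρ s ^ m = 1) : IsScal (ρ s) := by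
  rcases Int.units_eq_one_or ε with rfl | rfl
  · exact CGN.core_scalar hp hpm hd hL hρ hS hχ hT hH hσ₀ hσE hσu hσe hSur hs hsm
  · have hker : ∀ c : GalF K, ρ c = 1 → CGN.dualRep ρ c = 1 := by
      intro c hc
      have h4 : c ∈ (CGN.dualRep ρ).ker := by
        rw [CGN.dualRep_ker]
        exact hc
      exact h4
    have hH' : HypN 1 p (CGN.dualRep ρ) u e χ T := by
      intro v hv hN r hr hinj W hW M hM h1 h2 Q hQ g hg
      have h3 := hH v hv hN r hr hinj W hW M hM h1 h2 Q hQ g hg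
      rw [CGN.coe_dualRep, Matrix.charpoly_transpose, ← h3]
      congr 3
    have hopen : IsOpen ((CGN.dualRep ρ).ker : Set (GalF K)) := by
      rw [CGN.dualRep_ker]
      exact hρ
    have h5 := CGN.core_scalar hp hpm hd hL hopen hS hχ hT hH' (hker _ hσ₀) hσE hσu hσe
      (fun π => by
        obtain ⟨c, h1, h2⟩ := hSur π
        exact ⟨c, hker c h1, h2⟩) hs (by
        rw [← map_pow]
        exact hker _ (by rw [map_pow]; exact hsm))
    obtain ⟨b, hb⟩ := h5
    rw [CGN.coe_dualRep] at hb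
    have h6 : (ρ s⁻¹ : Matrix (Fin d) (Fin d) κ) = Matrix.scalar (Fin d) b := by
      have h7 := congrArg Matrix.transpose hb
      rw [Matrix.transpose_transpose] at h7
      rw [h7]
      simp
    have h8 : ρ s⁻¹ ∈ CGN.scalSub d κ := ⟨b, h6⟩
    rw [map_inv] at h8
    exact (inv_mem_iff (H := CGN.scalSub d κ)).1 h8

/-- **G10**. There is a stable isotropic subspace over the algebraic closure.

PROOF. `κ = AlgebraicClosure k`, `ρ₀ = (map ∘ rhoK) ∘ toGF : GalF K → GL_n(κ)`, `ω₀ = (map ∘ ω) ∘ toGF`,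
`ρ' = twK … = ω₀^{-ε} ρ₀`. By `hypN_twK` `HypN ε p ρ' u e χ T'`. We may assume `ε = 1`: if `ε = -1` then
`HypN 1 p ρ' u e χ⁻¹ T'`, because the characteristic polynomial of `A⁻¹` is `∏ (X - λ⁻¹)` if that of `A` is
`∏ (X - λ)`, all `λ ≠ 0` (over the algebraically closed field: from `det (X - A⁻¹)` = ..., or
`Matrix.charpoly_inv`/`charpolyRev`), and `CGN.isRay_inv` (AGA.lean; copy it if it is not imported) gives that
`χ⁻¹` is a ray class function. The kernels of `ρ₀`, `ω₀`, `ρ'` are open (`toGF_open`; the kernel of `rhoK` is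
`ρ.ker ∩ fixK j`; `ρ'.ker ⊇ ρ₀.ker ∩ ω₀.ker`) and the images are finite. As in `CGN.galois_arith`
(GalArith.lean, copy `AR_root`, `AR_unit`): with `B` the order of the image of `ρ'` (or of `(ρ₀, ω₀)`), `kummer` gives
`M, σ₀` (for the homomorphism `ρ'`; `hSur` from `hsurj`). `iso_final` for `ρ₀`, `G₀ = HMu K (p ^ M)`, `H₁ = HE M_ (p ^ M)`,
`H₂ = HN K (p ^ M) u e`, `C = (ZMod (p ^ M))ˣ`, `f` from `exists_cyc K (p ^ M)`, `SelfD` and `hfα` from `exists_outer`
(`f (α g) = f g` iff `f (g⁻¹ * α g) = 1`). `hH2`: let `x ∈ H₂`, `ρ₀ x ^ m = 1`, `p` prime to `m`. The order `b` of `ω₀ x`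
is finite and prime to `p` (characteristic `p`: `x ^ p = 1 → x = 1`, `frobenius_inj`), so `ρ' x ^ (m b) = 1`, and
`core_scalar` gives that `ρ' x` is scalar, so `ρ₀ x` is scalar. The other hypotheses as in `galois_arith`. -/
theorem exists_iso {n : ℕ} (hn : 3 ≤ n) (hdeg : Module.finrank F K = 2) (c : K ≃ₐ[F] K)
    (hc : ∃ a, c a ≠ a) (j : K →ₐ[F] Fbar F)
    (ψ : Fbar K ≃+* Fbar F) (hψ : ∀ a : K, ψ (algebraMap K (Fbar K) a) = j a)
    {M : Type} [Field M] [NumberField M] [Algebra K M] (hM : Module.finrank K M = n)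
    {k : Type} [Field k] {p : ℕ} (hp : p.Prime) [CharP k p]
    (ρ : GalF F →* LG n k) (hρ : IsOpen (ρ.ker : Set (GalF F)))
    (hr : ∀ g : GalF F, (ρ g).right = 1 ↔ ∀ a : K, g (j a) = j a)
    (ω : fixK j →* kˣ) (hω : IsOpen (ω.ker : Set (fixK j))) (ε : ℤˣ) (u e : (𝓞 M)ˣ)
    (hind : Indep K u e)
    {SM : Set (Pl M)} (hSM : SM.Finite) (χ : Pl M → AlgebraicClosure k) (hχ : IsRay SM χ)
    {T : Set (Pl F)} (hT : T.Finite)
    (hH : HypEU ε p j
      ((GeneralLinearGroup.map (n := Fin n) (algebraMap k (AlgebraicClosure k))).comp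
        (rhoK ρ j hr))
      ((Units.map (algebraMap k (AlgebraicClosure k) : k →* AlgebraicClosure k)).comp ω) u e χ T)
    (hsurj : ∀ (N : ℕ) (π : Equiv.Perm (M →ₐ[K] Fbar K)), ∃ g : GalF K,
      rhoK ρ j hr (toGF j ψ hψ g) = 1 ∧ ω (toGF j ψ hψ g) = 1 ∧ TrivMu (p ^ N) g ∧
      eact M g = π)
    {s : GalF F} {α : GalF K → GalF K}
    (hX : SelfD (((GeneralLinearGroup.map (n := Fin n) (algebraMap k (AlgebraicClosure k))).comp
        (rhoK ρ j hr)).comp (toGF j ψ hψ))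
        (GeneralLinearGroup.map (n := Fin n) (algebraMap k (AlgebraicClosure k))
          ((ρ s).left * JG n k)) α)
    (hα : ∀ (N : ℕ), 0 < N → ∀ g : GalF K, TrivMu N (g⁻¹ * α g)) :
    ∃ U : Submodule (AlgebraicClosure k) (Fin n → AlgebraicClosure k), U ≠ ⊥ ∧
      Stb (((GeneralLinearGroup.map (n := Fin n) (algebraMap k (AlgebraicClosure k))).comp
        (rhoK ρ j hr)).comp (toGF j ψ hψ)) U ∧
      Iso (GeneralLinearGroup.map (n := Fin n) (algebraMap k (AlgebraicClosure k))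
          ((ρ s).left * JG n k)) U := by
  classical
  obtain ⟨ρ₁, hρ₁⟩ : ∃ ρ₁ : fixK j →* GL (Fin n) (AlgebraicClosure k), ρ₁ =
      (GeneralLinearGroup.map (n := Fin n) (algebraMap k (AlgebraicClosure k))).comp
        (rhoK ρ j hr) := ⟨_, rfl⟩
  obtain ⟨ω₁, hω₁⟩ : ∃ ω₁ : fixK j →* (AlgebraicClosure k)ˣ, ω₁ =
      (Units.map (algebraMap k (AlgebraicClosure k) : k →* AlgebraicClosure k)).comp ω :=
    ⟨_, rfl⟩
  rw [← hρ₁, ← hω₁] at hH
  rw [← hρ₁] at hX ⊢
  have hcp : CharP (AlgebraicClosure k) p :=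
    charP_of_injective_algebraMap (algebraMap k (AlgebraicClosure k)).injective p
  obtain ⟨T', hT', hN⟩ := hypN_twK (by omega) hdeg c hc j ψ hψ hM ε ρ₁ ω₁ u e χ hT hH
  obtain ⟨ρ', hρ'⟩ : ∃ ρ' : GalF K →* GL (Fin n) (AlgebraicClosure k),
      ρ' = twK j ψ hψ ρ₁ ω₁ ε := ⟨_, rfl⟩
  rw [← hρ'] at hN
  have hρ'v : ∀ g, ρ' g = Units.map (algebraMap (AlgebraicClosure k)
      (Matrix (Fin n) (Fin n) (AlgebraicClosure k)) : (AlgebraicClosure k) →* _)
      (ω₁ (toGF j ψ hψ g) ^ (-(ε : ℤ))) * ρ₁ (toGF j ψ hψ g) := by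
    intro g
    rw [hρ']
    rfl
  -- the kernels
  have hk1 : IsOpen ((rhoK ρ j hr).ker : Set (fixK j)) := by
    have h1 : ((rhoK ρ j hr).ker : Set (fixK j)) = Subtype.val ⁻¹' (ρ.ker : Set (GalF F)) := by
      ext h
      have h2 : (ρ (h : GalF F)).right = 1 := (hr _).2 h.2
      change (ρ (h : GalF F)).left = 1 ↔ ρ (h : GalF F) = 1
      constructor
      · intro h3
        exact SemidirectProduct.ext h3 h2
      · intro h3
        rw [h3]
        rfl
    rw [h1]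
    exact hρ.preimage continuous_subtype_val
  have ho1 := toGF_open j ψ hψ _ hk1
  have ho2 := toGF_open j ψ hψ _ hω
  have h1ρ : ∀ g : GalF K, rhoK ρ j hr (toGF j ψ hψ g) = 1 → ρ₁ (toGF j ψ hψ g) = 1 := by
    intro g hg
    rw [hρ₁, MonoidHom.comp_apply, hg, map_one]
  have h1ω : ∀ g : GalF K, ω (toGF j ψ hψ g) = 1 → ω₁ (toGF j ψ hψ g) = 1 := by
    intro g hg
    rw [hω₁, MonoidHom.comp_apply, hg, map_one]
  have hρ'1 : ∀ g : GalF K, rhoK ρ j hr (toGF j ψ hψ g) = 1 → ω (toGF j ψ hψ g) = 1 →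
      ρ' g = 1 := by
    intro g h1 h2
    rw [hρ'v, h1ρ g h1, h1ω g h2, _root_.one_zpow, map_one, one_mul]
  have hk0 : IsOpen ((ρ₁.comp (toGF j ψ hψ)).ker : Set (GalF K)) := by
    refine Subgroup.isOpen_mono (H₁ := (rhoK ρ j hr).ker.comap (toGF j ψ hψ)) ?_ ho1
    intro g hg
    exact h1ρ g hg
  have hkω : IsOpen ((ω₁.comp (toGF j ψ hψ)).ker : Set (GalF K)) := by
    refine Subgroup.isOpen_mono (H₁ := ω.ker.comap (toGF j ψ hψ)) ?_ ho2
    intro g hg
    exact h1ω g hg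
  have hk' : IsOpen (ρ'.ker : Set (GalF K)) := by
    refine Subgroup.isOpen_mono (H₁ := (rhoK ρ j hr).ker.comap (toGF j ψ hψ) ⊓
      ω.ker.comap (toGF j ψ hψ)) ?_ ?_
    · intro g hg
      exact hρ'1 g hg.1 hg.2
    · exact ho1.inter ho2
  have hfin0 : Finite (ρ₁.comp (toGF j ψ hψ)).range := by
    have : Finite (GalF K ⧸ (ρ₁.comp (toGF j ψ hψ)).ker) :=
      Subgroup.quotient_finite_of_isOpen _ hk0
    exact Finite.of_equiv _ (QuotientGroup.quotientKerEquivRange (ρ₁.comp (toGF j ψ hψ))).toEquiv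
  have hfinω : Finite (ω₁.comp (toGF j ψ hψ)).range := by
    have : Finite (GalF K ⧸ (ω₁.comp (toGF j ψ hψ)).ker) :=
      Subgroup.quotient_finite_of_isOpen _ hkω
    exact Finite.of_equiv _ (QuotientGroup.quotientKerEquivRange (ω₁.comp (toGF j ψ hψ))).toEquiv
  have hfin' : Finite ρ'.range := by
    have : Finite (GalF K ⧸ ρ'.ker) := Subgroup.quotient_finite_of_isOpen _ hk'
    exact Finite.of_equiv _ (QuotientGroup.quotientKerEquivRange ρ').toEquiv
  have hB : 0 < Nat.card ρ'.range := Nat.card_pos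
  have hρB : ∀ s : GalF K, ρ' s ^ Nat.card ρ'.range = 1 := by
    intro s
    have h1 : (⟨ρ' s, s, rfl⟩ : ρ'.range) ^ Nat.card ρ'.range = 1 := pow_card_eq_one'
    exact congrArg Subtype.val h1
  have hBω : 0 < Nat.card (ω₁.comp (toGF j ψ hψ)).range := Nat.card_pos
  have hωB : ∀ s : GalF K, ω₁ (toGF j ψ hψ s) ^ Nat.card (ω₁.comp (toGF j ψ hψ)).range = 1 := by
    intro s
    have h1 : (⟨ω₁ (toGF j ψ hψ s), s, rfl⟩ : (ω₁.comp (toGF j ψ hψ)).range) ^
      Nat.card (ω₁.comp (toGF j ψ hψ)).range = 1 := pow_card_eq_one'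
    exact congrArg Subtype.val h1
  have hS' : ∀ (E : ℕ) (π : Equiv.Perm (M →ₐ[K] Fbar K)), ∃ c : GalF K, ρ' c = 1 ∧
      TrivMu (p ^ E) c ∧ eact M c = π := by
    intro E π
    obtain ⟨g, h1, h2, h3, h4⟩ := hsurj E π
    exact ⟨g, hρ'1 g h1 h2, h3, h4⟩
  obtain ⟨E, σ₀, hE, hσ₀, hσE, hσu, hσe⟩ := CGN.kummer hp ρ' hB hρB hS' u e hind
  have hn0 : 0 < p ^ E := pow_pos hp.pos E
  have : NeZero (p ^ E) := ⟨hn0.ne'⟩
  obtain ⟨f, hf⟩ := exists_cyc K (p ^ E) hn0
  refine iso_final (M := E) hp hn (ρ₁.comp (toGF j ψ hψ)) hX (HMu K (p ^ E)) (HE M (p ^ E))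
    (HN K (p ^ E) ((u : 𝓞 M) : M) ((e : 𝓞 M) : M)) ?_ ?_ ?_ f
    (fun g hg => (hf g).1 hg) ?_ ?_ ?_
  · intro x hx m hpm hxm
    obtain ⟨b, hpb, hb⟩ := G10_ord hp hBω (ω₁ (toGF j ψ hψ x)) (hωB x)
    have hxm' : ρ₁ (toGF j ψ hψ x) ^ m = 1 := hxm
    have h3 : ρ' x ^ (m * b) = 1 := by
      rw [← map_pow, hρ'v, map_pow, map_pow, map_pow, pow_mul (ρ₁ _), hxm', one_pow, mul_one,
        mul_comm m b, pow_mul, hb, one_pow, _root_.one_zpow, map_one]
    have h4 := G10_core hp (hpm.mul_right hpb) (by omega) hM hk' hSM hχ hT' ε hN hσ₀ hσE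
      hσu hσe (fun π => by
        obtain ⟨c, h1, _, h3⟩ := hS' E π
        exact ⟨c, h1, h3⟩) hx h3
    have h5 : ρ' x ∈ CGN.scalSub n (AlgebraicClosure k) := h4
    have h6 : Units.map (algebraMap (AlgebraicClosure k)
      (Matrix (Fin n) (Fin n) (AlgebraicClosure k)) : (AlgebraicClosure k) →* _)
      (ω₁ (toGF j ψ hψ x) ^ (-(ε : ℤ))) ∈ CGN.scalSub n (AlgebraicClosure k) :=
      ⟨((ω₁ (toGF j ψ hψ x) ^ (-(ε : ℤ)) : (AlgebraicClosure k)ˣ) : AlgebraicClosure k), rfl⟩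
    have h7 : ρ₁ (toGF j ψ hψ x) ∈ CGN.scalSub n (AlgebraicClosure k) := by
      rw [hρ'v] at h5
      exact ((CGN.scalSub n (AlgebraicClosure k)).mul_mem_cancel_left h6).1 h5
    exact h7
  · intro y hy
    obtain ⟨c, hc1, -, hcμ, hcE⟩ := hsurj E (eact M y)⁻¹
    refine ⟨c, h1ρ c hc1, ?_⟩
    rw [HE, Subgroup.mem_inf]
    refine ⟨?_, (HMu K (p ^ E)).mul_mem hcμ hy⟩
    rw [MonoidHom.mem_ker, map_mul, hcE, inv_mul_cancel]
  · intro x hx
    rw [mem_HN]
    exact ⟨(HE M (p ^ E)).pow_mem hx _, G10_root hn0 hx (G10_unit u), G10_root hn0 hx (G10_unit e)⟩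
  · intro g
    have h1 : f (g⁻¹ * α g) = 1 := (hf _).2 (hα (p ^ E) hn0 g)
    rw [map_mul, map_inv] at h1
    exact (inv_mul_eq_one.1 h1).symm
  · intro hp2
    exact ZMod.isCyclic_units_of_prime_pow p hp hp2 E
  · intro hp2
    subst hp2
    refine ⟨E - 1, fun x => ?_⟩
    have h1 : Fintype.card (ZMod (2 ^ E))ˣ = 2 ^ (E - 1) := by
      rw [ZMod.card_units_eq_totient, Nat.totient_prime_pow Nat.prime_two hE]
      simp
    rw [← h1]
    exact pow_card_eq_one
/- END G10 -/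

/- MODULE G11 -/
/-- **G11** (1). Orthogonal complements.

PROOF. `y ∈ perp (U.map A)` iff `(A x) ⬝ᵥ y = x ⬝ᵥ Aᵀ y = 0` for all `x ∈ U`, iff `Aᵀ y ∈ perp U`. The double
complement: `U ≤ perp (perp U)` and the dimensions agree (`finrank (perp U) = n - finrank U`: `perp U` is the
kernel of the surjective restriction of functionals; Mathlib: `Matrix.toBilin'`/`LinearMap.BilinForm.orthogonal`,
`LinearMap.BilinForm.orthogonal_orthogonal` for the nondegenerate reflexive form `dotProduct`). -/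
theorem perp_map {n : ℕ} {k : Type} [Field k] (A : GL (Fin n) k)
    (U : Submodule k (Fin n → k)) :
    perp (U.map (Matrix.mulVecLin (A : Matrix (Fin n) (Fin n) k))) =
      (perp U).map (Matrix.mulVecLin (invT A : Matrix (Fin n) (Fin n) k)) := by
  ext y
  constructor
  · intro hy
    refine ⟨(A : Matrix (Fin n) (Fin n) k)ᵀ.mulVec y, ?_, ?_⟩
    · intro x hx
      rw [Matrix.dotProduct_mulVec, Matrix.vecMul_transpose]
      exact hy _ ⟨x, hx, rfl⟩
    · change (invT A : Matrix (Fin n) (Fin n) k).mulVec _ = y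
      rw [coe_invT, Matrix.mulVec_mulVec, ← Matrix.transpose_mul, ← GeneralLinearGroup.coe_mul,
        mul_inv_cancel]
      simp
  · rintro ⟨z, hz, rfl⟩
    rintro _ ⟨x, hx, rfl⟩
    change (A : Matrix (Fin n) (Fin n) k).mulVec x ⬝ᵥ
      (invT A : Matrix (Fin n) (Fin n) k).mulVec z = 0
    rw [Matrix.dotProduct_mulVec, coe_invT, Matrix.vecMul_transpose, Matrix.mulVec_mulVec,
      ← GeneralLinearGroup.coe_mul, inv_mul_cancel]
    simpa using hz x hx

/-- The standard bilinear form. -/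
private def G11_B (n : ℕ) (k : Type) [Field k] : LinearMap.BilinForm k (Fin n → k) :=
  Matrix.toBilin' (1 : Matrix (Fin n) (Fin n) k)

private theorem G11_B_apply {n : ℕ} {k : Type} [Field k] (x y : Fin n → k) :
    G11_B n k x y = x ⬝ᵥ y := by
  rw [G11_B, Matrix.toBilin'_apply', Matrix.one_mulVec]

private theorem G11_perp {n : ℕ} {k : Type} [Field k] (U : Submodule k (Fin n → k)) :
    perp U = (G11_B n k).orthogonal U := by
  ext y
  rw [LinearMap.BilinForm.mem_orthogonal_iff]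
  constructor
  · intro h x hx
    rw [G11_B_apply]
    exact h x hx
  · intro h x hx
    have := h x hx
    rwa [G11_B_apply] at this

theorem perp_perp {n : ℕ} {k : Type} [Field k] (U : Submodule k (Fin n → k)) :
    perp (perp U) = U := by
  rw [G11_perp, G11_perp]
  apply LinearMap.BilinForm.orthogonal_orthogonal
  · apply Matrix.Nondegenerate.toBilin'
    apply Matrix.nondegenerate_of_det_ne_zero
    rw [Matrix.det_one]
    exact one_ne_zero
  · intro x y h
    rw [G11_B_apply] at h ⊢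
    rw [dotProduct_comm]
    exact h

/-- The image of a subspace. -/
private def G11_m {n : ℕ} {k : Type} [Field k] (A : GL (Fin n) k)
    (U : Submodule k (Fin n → k)) : Submodule k (Fin n → k) :=
  U.map (Matrix.mulVecLin (A : Matrix (Fin n) (Fin n) k))

private theorem G11_mul {n : ℕ} {k : Type} [Field k] (A B : GL (Fin n) k)
    (U : Submodule k (Fin n → k)) : G11_m (A * B) U = G11_m A (G11_m B U) := by
  rw [G11_m, G11_m, G11_m, ← Submodule.map_comp, ← Matrix.mulVecLin_mul,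
    GeneralLinearGroup.coe_mul]

private theorem G11_one {n : ℕ} {k : Type} [Field k]
    (U : Submodule k (Fin n → k)) : G11_m (1 : GL (Fin n) k) U = U := by
  rw [G11_m, Units.val_one, Matrix.mulVecLin_one, Submodule.map_id]

private theorem G11_pm {n : ℕ} {k : Type} [Field k] (A : GL (Fin n) k)
    (U : Submodule k (Fin n → k)) : perp (G11_m A U) = G11_m (invT A) (perp U) :=
  perp_map A U

private theorem G11_JJ {n : ℕ} {k : Type} [Field k] (U : Submodule k (Fin n → k)) :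
    G11_m (JG n k * JG n k) U = U := by
  have h : ((JG n k * JG n k : GL (Fin n) k) : Matrix (Fin n) (Fin n) k) =
      (((-1 : k) ^ (n + 1)) • (1 : Matrix (Fin n) (Fin n) k)) := by
    have h1 : (Jm n k)ᵀ * Jm n k = 1 := Jm_transpose_mul n k
    rw [Jm_transpose, smul_mul_assoc] at h1
    rw [GeneralLinearGroup.coe_mul, coe_JG, ← h1, smul_smul, ← pow_add, ← two_mul, pow_mul]
    simp
  have hc : ((-1 : k) ^ (n + 1)) ≠ 0 := pow_ne_zero _ (neg_ne_zero.2 one_ne_zero)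
  ext y
  rw [G11_m, h]
  constructor
  · rintro ⟨x, hx, rfl⟩
    change (((-1 : k) ^ (n + 1)) • (1 : Matrix (Fin n) (Fin n) k)).mulVec x ∈ U
    rw [Matrix.smul_mulVec, Matrix.one_mulVec]
    exact U.smul_mem _ hx
  · intro hy
    refine ⟨((-1 : k) ^ (n + 1))⁻¹ • y, U.smul_mem _ hy, ?_⟩
    change (((-1 : k) ^ (n + 1)) • (1 : Matrix (Fin n) (Fin n) k)).mulVec _ = y
    rw [Matrix.smul_mulVec, Matrix.one_mulVec, smul_smul, mul_inv_cancel₀ hc, one_smul]

private theorem G11_J {n : ℕ} {k : Type} [Field k] (U : Submodule k (Fin n → k)) :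
    G11_m (JG n k) U = G11_m (JG n k)⁻¹ U := by
  have h1 : G11_m (JG n k)⁻¹ (G11_m (JG n k * JG n k) U) = G11_m (JG n k) U := by
    rw [← G11_mul, inv_mul_cancel_left]
  rw [← h1, G11_JJ]

/-- **G11** (2). The stabiliser condition from a stable isotropic subspace.

PROOF. Put `X = A J`, `(A, -1) = x s`, `U' = X (perp U)`. `U ≤ U'`: for `x ∈ U`, `X⁻¹ x ∈ perp U` by the
isotropy (`y ⬝ᵥ X⁻¹ x = 0` for `y ∈ U`). `X (perp U') = X (perp (X (perp U))) = X X^{-T} (perp (perp U)) = X X^{-T} U`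
(`perp_map`, `perp_perp`), and `X X^{-T} = ± (ρ (s s)).left` : `(A,-1)(A,-1) = (A J A^{-T} J⁻¹, 1)`, `J^{-T} = J`
(`invT_JG`), `J⁻¹ = ± J` (`Jm_transpose`): `X X^{-T} = A J A^{-T} J = ± A J A^{-T} J⁻¹`; `x (s s)` is in `H`, so it maps `U` to
`U`. For `h ∈ H` (`(x h).right = 1`): `h U = U` (`h` and `h⁻¹` map `U` into `U`), `h U' = U'`: with `h = s h' s⁻¹`,
`h' = s⁻¹ h s ∈ H`: `h X = X h'^{-T}` and `h'^{-T} (perp U) = perp (h' U) = perp U` (`perp_map`). For `g` with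
`(x g).right = -1`: `g = h s`, `h = g s⁻¹ ∈ H`: `(x g).left = (x h).left * A` and so `A_g J (perp U) = h U' = U'`,
`A_g J (perp U') = h U = U`. -/
theorem inStab_of_iso {G : Type} [Group G] {n : ℕ} {k : Type} [Field k] (x : G →* LG n k)
    (s : G) (hs : (x s).right = -1) (U : Submodule k (Fin n → k))
    (hst : ∀ h : G, (x h).right = 1 → ∀ y ∈ U,
      ((x h).left : Matrix (Fin n) (Fin n) k).mulVec y ∈ U)
    (hiso : Iso ((x s).left * JG n k) U) :
    ∃ U' : Submodule k (Fin n → k), U ≤ U' ∧ ∀ g : G, InStab U U' (x g) := by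
  obtain ⟨A, hA⟩ : ∃ A, A = (x s).left := ⟨_, rfl⟩
  obtain ⟨X, hX⟩ : ∃ X, X = A * JG n k := ⟨_, rfl⟩
  rw [← hA, ← hX] at hiso
  have hone : dualAct n k 1 = 1 := map_one _
  -- products
  have hml : ∀ g h : G, (x (g * h)).left = (x g).left * dualAct n k (x g).right (x h).left := by
    intro g h
    rw [map_mul, SemidirectProduct.mul_left]
  have hmr : ∀ g h : G, (x (g * h)).right = (x g).right * (x h).right := by
    intro g h
    rw [map_mul, SemidirectProduct.mul_right]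
  have hir : ∀ g : G, (x g⁻¹).right = ((x g).right)⁻¹ := by
    intro g
    rw [map_inv, SemidirectProduct.inv_right]
  have hil : ∀ h : G, (x h).right = 1 → (x h⁻¹).left = ((x h).left)⁻¹ := by
    intro h hh
    have h1 := hml h h⁻¹
    rw [mul_inv_cancel, map_one, SemidirectProduct.one_left, hh, hone, MulAut.one_apply] at h1
    exact eq_inv_of_mul_eq_one_right h1.symm
  have hle : ∀ h : G, (x h).right = 1 → G11_m (x h).left U ≤ U := by
    rintro h hh _ ⟨y, hy, rfl⟩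
    exact hst h hh y hy
  have hU : ∀ h : G, (x h).right = 1 → G11_m (x h).left U = U := by
    intro h hh
    refine le_antisymm (hle h hh) ?_
    have hh' : (x h⁻¹).right = 1 := by rw [hir, hh, inv_one]
    have h1 := hle h⁻¹ hh'
    rw [hil h hh] at h1
    have h2 : G11_m (x h).left (G11_m ((x h).left)⁻¹ U) ≤ G11_m (x h).left U :=
      Submodule.map_mono h1
    rwa [← G11_mul, mul_inv_cancel, G11_one] at h2
  obtain ⟨U', hU'⟩ : ∃ U', U' = G11_m X (perp U) := ⟨_, rfl⟩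
  have hUU' : U ≤ U' := by
    intro y hy
    rw [hU']
    refine ⟨((X⁻¹ : GL (Fin n) k) : Matrix (Fin n) (Fin n) k).mulVec y, ?_, ?_⟩
    · intro z hz
      exact hiso z hz y hy
    · change (X : Matrix (Fin n) (Fin n) k).mulVec _ = y
      rw [Matrix.mulVec_mulVec, ← GeneralLinearGroup.coe_mul, mul_inv_cancel]
      simp
  have hss : (x (s * s)).right = 1 := by
    rw [hmr, hs]
    decide
  have hXp : G11_m X (perp U') = U := by
    have h1 := hU (s * s) hss
    rw [hml, hs, dualAct_neg, dualAut_apply, ← hA, G11_mul, G11_mul, G11_mul] at h1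
    rw [hU', G11_pm, perp_perp, hX, invT_mul, invT_JG, G11_mul, G11_mul, G11_J U]
    exact h1
  have hhX : ∀ h : G, (x h).right = 1 → ∃ h' : G, (x h').right = 1 ∧
      (x h).left * X = X * invT (x h').left := by
    intro h hh
    have h1 : (x (s⁻¹ * h * s)).right = 1 := by
      rw [hmr, hmr, hir, hh, mul_one, inv_mul_cancel]
    refine ⟨s⁻¹ * h * s, h1, ?_⟩
    have h2 : (x (h * s)).left = (x (s * (s⁻¹ * h * s))).left := by
      rw [show s * (s⁻¹ * h * s) = h * s by group]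
    rw [hml, hml, hh, hs, hone, MulAut.one_apply, dualAct_neg, dualAut_apply, ← hA] at h2
    rw [hX, ← mul_assoc, h2]
    group
  have hhU' : ∀ h : G, (x h).right = 1 → G11_m (x h).left U' = U' := by
    intro h hh
    obtain ⟨h', hh', h1⟩ := hhX h hh
    rw [hU', ← G11_mul, h1, G11_mul, ← G11_pm, hU h' hh']
  refine ⟨U', hUU', fun g => ?_⟩
  unfold InStab
  split_ifs with hg
  · exact ⟨hU g hg, hhU' g hg⟩
  · have hg' : (x g).right = -1 := by
      rcases Int.units_eq_one_or (x g).right with h1 | h1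
      · exact absurd h1 hg
      · exact h1
    have hh : (x (g * s⁻¹)).right = 1 := by
      rw [hmr, hir, hg', hs, mul_inv_cancel]
    have h1 : (x g).left = (x (g * s⁻¹)).left * A := by
      have h2 := hml (g * s⁻¹) s
      rw [inv_mul_cancel_right, hh, hone, MulAut.one_apply, ← hA] at h2
      exact h2
    have h3 : ((x g).left : Matrix (Fin n) (Fin n) k) * Jm n k =
        (((x (g * s⁻¹)).left * X : GL (Fin n) k) : Matrix (Fin n) (Fin n) k) := by
      rw [h1, hX, ← coe_JG, ← GeneralLinearGroup.coe_mul, mul_assoc]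
    rw [h3]
    change G11_m ((x (g * s⁻¹)).left * X) (perp U) = U' ∧
      G11_m ((x (g * s⁻¹)).left * X) (perp U') = U
    rw [G11_mul, G11_mul, ← hU', hXp]
    exact ⟨hhU' _ hh, hU _ hh⟩
/- END G11 -/

/- MODULE G12 -/
/-- **G12**. **The Galois side.**

PROOF. `exists_outer`, `exists_iso`, `exists_finite_iso` (for the representation `(rhoK ρ) ∘ toGF` of `GalF K`; the
composition of the maps of the scalars), then `inStab_of_iso` for `x = LG.map n (algebraMap k k') ∘ ρ`: the elements `h`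
with `(x h).right = 1` are those of `fixK j`, i.e. `toGF g` (`toGF_bij`). `hsurj` is transformed as at the end of
`CGN.galois_main` (GalTr.lean, GM), also `hind` to `Indep K u e`. -/
theorem galois_u {n : ℕ} (hn : 3 ≤ n) (hdeg : Module.finrank F K = 2) (c : K ≃ₐ[F] K)
    (hc : ∃ a, c a ≠ a) (j : K →ₐ[F] Fbar F)
    (ψ : Fbar K ≃+* Fbar F) (hψ : ∀ a : K, ψ (algebraMap K (Fbar K) a) = j a)
    {M : Type} [Field M] [NumberField M] [Algebra K M] (hM : Module.finrank K M = n)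
    {k : Type} [Field k] {p : ℕ} (hp : p.Prime) [CharP k p]
    (ρ : GalF F →* LG n k) (hρ : IsOpen (ρ.ker : Set (GalF F)))
    (hr : ∀ g : GalF F, (ρ g).right = 1 ↔ ∀ a : K, g (j a) = j a)
    (ω : fixK j →* kˣ) (hω : IsOpen (ω.ker : Set (fixK j))) (ε : ℤˣ) (u e : (𝓞 M)ˣ)
    (hind : ∀ (a b : ℤ) (f : K),
      ((e : 𝓞 M) : M) ^ a = ((u : 𝓞 M) : M) ^ b * algebraMap K M f → a = 0)
    {SM : Set (Pl M)} (hSM : SM.Finite) (χ : Pl M → AlgebraicClosure k) (hχ : IsRay SM χ)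
    {T : Set (Pl F)} (hT : T.Finite)
    (hH : HypEU ε p j
      ((GeneralLinearGroup.map (n := Fin n) (algebraMap k (AlgebraicClosure k))).comp
        (rhoK ρ j hr))
      ((Units.map (algebraMap k (AlgebraicClosure k) : k →* AlgebraicClosure k)).comp ω) u e χ T)
    (hsurj : ∀ (N : ℕ) (π : Equiv.Perm (M →ₐ[K] Fbar K)), ∃ g : GalF K,
      rhoK ρ j hr (toGF j ψ hψ g) = 1 ∧ ω (toGF j ψ hψ g) = 1 ∧
      (∀ z : Fbar K, z ^ (p ^ N) = 1 → g z = z) ∧ ActsAs g π) : ¬ NonEisU ρ := by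
  have hJ : ∀ (k' : Type) [Field k'] (f : k →+* k'),
      GeneralLinearGroup.map (n := Fin n) f (JG n k) = JG n k' := by
    intro k' _ f
    apply Units.ext
    ext a b
    change f (Jm n k a b) = Jm n k' a b
    rw [Jm_apply, Jm_apply, apply_ite f, map_pow, map_neg, map_one, map_zero]
  obtain ⟨s, α, hs, hα, hX, hμ⟩ := exists_outer c hc j ψ hψ ρ hr
  have hind' : Indep K u e := by
    intro a b x hx
    have hu0 : ((u : 𝓞 M) : M) ≠ 0 := RingOfIntegers.coe_ne_zero_iff.2 u.ne_zero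
    have he0 : ((e : 𝓞 M) : M) ≠ 0 := RingOfIntegers.coe_ne_zero_iff.2 e.ne_zero
    apply hind a (-b) x
    have hz : ∀ (t : (𝓞 M)ˣ) (m : ℤ), (((t ^ m : (𝓞 M)ˣ) : 𝓞 M) : M) = ((t : 𝓞 M) : M) ^ m := by
      intro t m
      have h1 := map_zpow (Units.map (algebraMap (𝓞 M) M : 𝓞 M →* M)) t m
      have h2 := congrArg (Units.val) h1
      rw [Units.val_zpow_eq_zpow_val] at h2
      exact h2
    have hm : (((e ^ a * u ^ b : (𝓞 M)ˣ) : 𝓞 M) : M) =
        (((e ^ a : (𝓞 M)ˣ) : 𝓞 M) : M) * (((u ^ b : (𝓞 M)ˣ) : 𝓞 M) : M) :=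
      congrArg Units.val (map_mul (Units.map (algebraMap (𝓞 M) M : 𝓞 M →* M)) (e ^ a) (u ^ b))
    rw [hx, hm, hz, hz, _root_.zpow_neg, mul_comm (((e : 𝓞 M) : M) ^ a), inv_mul_cancel_left₀]
    exact zpow_ne_zero _ hu0
  obtain ⟨U, hU0, hUs, hUi⟩ := exists_iso hn hdeg c hc j ψ hψ hM hp ρ hρ hr ω hω ε u e hind'
    hSM χ hχ hT hH (by
      intro N π
      obtain ⟨g, h1, h2, h3, h4⟩ := hsurj N π
      refine ⟨g, h1, h2, h3, ?_⟩
      apply Equiv.ext
      intro j
      apply AlgHom.ext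
      intro x
      exact h4 j x) hX hμ
  obtain ⟨k', U₀, hfin, hne, hst, hiso⟩ := exists_finite_iso ((rhoK ρ j hr).comp (toGF j ψ hψ))
    ((ρ s).left * JG n k) hU0 hUs hUi
  intro hNE
  obtain ⟨U', hle, hin⟩ := inStab_of_iso ((LG.map n (algebraMap k k')).comp ρ) s (by
    rw [MonoidHom.comp_apply]
    exact hs) U₀ (by
      intro h hh y hy
      have hh' : (ρ h).right = 1 := hh
      obtain ⟨g, hg⟩ := (toGF_bij j ψ hψ).2 ⟨h, (hr h).1 hh'⟩
      have h1 := hst g y hy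
      rw [MonoidHom.comp_apply, MonoidHom.comp_apply, hg] at h1
      exact h1) (by
      have h1 : ((((LG.map n (algebraMap k k')).comp ρ) s).left * JG n k') =
          GeneralLinearGroup.map (n := Fin n) (algebraMap k k') ((ρ s).left * JG n k) := by
        rw [map_mul, hJ]
        rfl
      rw [h1]
      exact hiso)
  exact hNE k' hfin ⟨U₀, U', hne, hle, hin⟩
/- END G12 -/

/- MODULE G13 -/
/-- **G13**. The surjectivity from the transposition in the inertia group, for the homomorphisms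
`rhoK` and `ω`.

PROOF. `CGN.surj_of_tr` (GalTr.lean, GT) proves the same for `ρ : GalF F →* GL (Fin n) k`; its proof uses only
that `ρ` is a homomorphism to a group: copy it with base field `K` for the homomorphism
`x : GalF K →* Δ` (its kernel is normal). -/
theorem surj_of_tr_u {Δ : Type} [Group Δ] {M : Type} [Field M] [NumberField M] [Algebra K M]
    {p : ℕ} (hp : p.Prime) (x : GalF K →* Δ) {v₃ : Pl K}
    (hv : ((p : ℕ) : 𝓞 K) ∉ v₃.asIdeal)
    (hρ : ∀ Q : Ideal (Zbar K), Over v₃ Q → ∀ g : GalF K, IsInertia Q g → x g = 1)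
    (sn : ∀ π : Equiv.Perm (M →ₐ[K] Fbar K), ∃ g : GalF K, ActsAs g π)
    (tr : ∃ (Q : Ideal (Zbar K)) (g : GalF K) (j₁ j₂ : M →ₐ[K] Fbar K), Over v₃ Q ∧
      IsInertia Q g ∧ j₁ ≠ j₂ ∧ (∀ x, g (j₁ x) = j₂ x) ∧ (∀ x, g (j₂ x) = j₁ x) ∧
      ∀ j : M →ₐ[K] Fbar K, j ≠ j₁ → j ≠ j₂ → ∀ x, g (j x) = j x) (N : ℕ)
    (π : Equiv.Perm (M →ₐ[K] Fbar K)) :
    ∃ g : GalF K, x g = 1 ∧ (∀ z : Fbar K, z ^ (p ^ N) = 1 → g z = z) ∧ ActsAs g π := by
  obtain ⟨x₀, hx₀⟩ : ∃ x₀ : GalF K →* Δ, x₀ = x := ⟨x, rfl⟩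
  rw [← hx₀] at hρ ⊢
  clear hx₀ x
  classical
  have hact : ∀ (g : GalF K) (π : Equiv.Perm (M →ₐ[K] Fbar K)), ActsAs g π ↔ eact M g = π := by
    intro g π
    constructor
    · intro h
      apply Equiv.ext
      intro j
      apply AlgHom.ext
      intro x
      exact h j x
    · rintro rfl j x
      rfl
  obtain ⟨Q, g, j₁, j₂, hQ, hg, hne, h1, h2, h3⟩ := tr
  have hQp : Q.IsPrime := hQ.1
  have hMn : (HMu K (p ^ N)).Normal := by
    refine ⟨fun g hg x z hz => ?_⟩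
    have hz' : (x⁻¹ z) ^ (p ^ N) = 1 := by rw [← map_pow, hz, map_one]
    change x (g (x⁻¹ z)) = z
    rw [hg _ hz']
    exact x.apply_symm_apply z
  set Kr : Subgroup (GalF K) := x₀.ker ⊓ HMu K (p ^ N) with hK
  have hKn : Kr.Normal := Subgroup.normal_inf_normal _ _
  have hgK : g ∈ Kr := by
    refine ⟨hρ Q hQ g hg, fun z hz => ?_⟩
    have hpM : 0 < p ^ N := pow_pos hp.pos N
    have hzi : IsIntegral ℤ z := by
      apply IsIntegral.of_pow hpM
      rw [hz]
      exact isIntegral_one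
    have hgz : (g z) ^ (p ^ N) = 1 := by rw [← map_pow, hz, map_one]
    have hgzi : IsIntegral ℤ (g z) := by
      apply IsIntegral.of_pow hpM
      rw [hgz]
      exact isIntegral_one
    set z' : Zbar K := ⟨z, hzi⟩ with hz'
    set y' : Zbar K := ⟨g z, hgzi⟩ with hy'
    have e1 : y' - z' ∈ Q := hg z' y' rfl
    have e2 : z' ^ (p ^ N) = 1 := Subtype.ext hz
    have e3 : y' ^ (p ^ N) = 1 := Subtype.ext hgz
    have e4 : z' ^ (p ^ N - 1) * z' = 1 := by
      rw [← pow_succ, Nat.sub_add_cancel hpM, e2]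
    have e5 : z' ^ (p ^ N - 1) * y' - 1 ∈ Q := by
      have := Q.mul_mem_left (z' ^ (p ^ N - 1)) e1
      rwa [mul_sub, e4] at this
    have e6 : (z' ^ (p ^ N - 1) * y') ^ (p ^ N) = 1 := by
      rw [mul_pow, e3, mul_one, ← pow_mul, mul_comm, pow_mul, e2, one_pow]
    have hpQ : (((p ^ N : ℕ) : ℕ) : Zbar K) ∉ Q := by
      intro h
      rw [Nat.cast_pow] at h
      apply hv
      rw [← CG2.GalInfAux.comap_prime_eq hQ, Ideal.mem_comap, map_natCast]
      exact hQp.mem_of_pow_mem _ h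
    have e7 := root_one hpQ e6 e5
    have e8 : y' = z' := by
      have : z' * (z' ^ (p ^ N - 1) * y') = z' * 1 := by rw [e7]
      rw [← mul_assoc, mul_comm z', e4, one_mul, mul_one] at this
      exact this
    exact congrArg Subtype.val e8
  set X : Subgroup (Equiv.Perm (M →ₐ[K] Fbar K)) := Kr.map (eact M) with hX
  have hXn : X.Normal := hKn.map (eact M) (fun π => by
    obtain ⟨g, hg⟩ := sn π
    exact ⟨g, (hact g π).1 hg⟩)
  have hsw : Equiv.swap j₁ j₂ ∈ X := by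
    refine ⟨g, hgK, ?_⟩
    rw [← hact]
    intro j x
    by_cases e1 : j = j₁
    · rw [e1, Equiv.swap_apply_left]
      exact h1 x
    · by_cases e2 : j = j₂
      · rw [e2, Equiv.swap_apply_right]
        exact h2 x
      · rw [Equiv.swap_apply_of_ne_of_ne e1 e2]
        exact h3 j e1 e2 x
  have htop : π ∈ X := by
    induction π using Equiv.Perm.swap_induction_on with
    | one => exact X.one_mem
    | swap_mul f x y hxy ih =>
      refine X.mul_mem ?_ ih
      obtain ⟨c, hc⟩ := isConj_iff.1 (Equiv.Perm.isConj_swap hne hxy)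
      rw [← hc]
      exact hXn.conj_mem _ hsw c
  obtain ⟨c, hc, hc'⟩ := htop
  exact ⟨c, hc.1, hc.2, (hact c π).2 hc'⟩
/- END G13 -/

end Pool.Agent.CGU
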