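import Pool.Agent.CGU.IDefs
import Pool.Agent.CGN.GalTr

/-!
# The Galois side for unitary groups: places and transport of structure
-/

noncomputable section

set_option linter.unusedSectionVars false

namespace Pool.Agent.CGU

open NumberField IsDedekindDomain Matrix
open Pool.Agent.CG2 (Pl Fv Ov GalF Fbar Zbar Over IsInertia IsFrob Nm IsRay)
open Pool.Agent.CG2.GalFinAux (below)
open Pool.Agent.CGQ
open Pool.Agent.CGN (Split incj abv Sel ActsAs IsScal HypN HypE)

variable {F : Type} [Field F] [NumberField F] {K : Type} [Field K] [NumberField K] [Algebra F K]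

/- MODULE G6 -/
private theorem G6_exists (c : K ≃ₐ[F] K) (hc : ∃ a, c a ≠ a) : ∃ b : 𝓞 K, c • b ≠ b := by
  by_contra hcon
  push Not at hcon
  obtain ⟨a, ha⟩ := hc
  apply ha
  obtain ⟨x, y, _, rfl⟩ := IsFractionRing.div_surjective (A := 𝓞 K) a
  have hx : c ((x : 𝓞 K) : K) = x := congrArg (fun z : 𝓞 K => (z : K)) (hcon x)
  have hy' : c ((y : 𝓞 K) : K) = y := congrArg (fun z : 𝓞 K => (z : K)) (hcon y)
  rw [map_div₀]
  change c (x : K) / c (y : K) = _
  rw [hx, hy']

private theorem G6_int {w : Pl K} (hw : (Nm w).Prime) (x : 𝓞 K) :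
    ∃ n : ℤ, x - (n : 𝓞 K) ∈ w.asIdeal := by
  have hcard : Nat.card (𝓞 K ⧸ w.asIdeal) = Nm w := by
    rw [Nm, Ideal.absNorm_apply, Submodule.cardQuot_apply]
  have hp : Fact (Nm w).Prime := ⟨hw⟩
  have := w.isPrime
  have h1 : (1 : 𝓞 K ⧸ w.asIdeal) ≠ 0 := one_ne_zero
  have h2 := zmultiples_eq_top_of_prime_card hcard h1
  have h3 : Ideal.Quotient.mk w.asIdeal x ∈ AddSubgroup.zmultiples (1 : 𝓞 K ⧸ w.asIdeal) := by
    rw [h2]
    exact AddSubgroup.mem_top _
  obtain ⟨n, hn⟩ := AddSubgroup.mem_zmultiples_iff.1 h3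
  refine ⟨n, ?_⟩
  rw [← Ideal.Quotient.eq, ← hn, map_intCast, zsmul_eq_mul, mul_one]

private theorem G6_nm {w : Pl K} (hw : (Nm w).Prime) : Nm (below F w) = Nm w := by
  let φ : 𝓞 F →+* 𝓞 K ⧸ w.asIdeal := (Ideal.Quotient.mk _).comp (algebraMap (𝓞 F) (𝓞 K))
  have hφ : Function.Surjective φ := by
    intro z
    obtain ⟨x, rfl⟩ := Ideal.Quotient.mk_surjective z
    obtain ⟨n, hn⟩ := G6_int hw x
    refine ⟨(n : 𝓞 F), ?_⟩
    rw [map_intCast]
    have h1 := Ideal.Quotient.eq.2 hn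
    rw [h1, map_intCast]
  have hker : RingHom.ker φ = (below F w).asIdeal := by
    ext x
    rw [RingHom.mem_ker]
    change Ideal.Quotient.mk _ (algebraMap (𝓞 F) (𝓞 K) x) = 0 ↔
      algebraMap (𝓞 F) (𝓞 K) x ∈ w.asIdeal
    exact Ideal.Quotient.eq_zero_iff_mem
  have h1 := Nat.card_congr (RingHom.quotientKerEquivOfSurjective hφ).toEquiv
  rw [hker] at h1
  rw [Nm, Nm, Ideal.absNorm_apply, Submodule.cardQuot_apply, Ideal.absNorm_apply,
    Submodule.cardQuot_apply]
  exact h1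

/-- **G6**. Almost all places of prime norm of a quadratic extension lie over split places.

PROOF. Choose `a : 𝓞 K` with `c a ≠ a` (scale `a`; `c` maps integers to integers:
`RingOfIntegers.mapRingEquiv` or `IsIntegral.map`). `T` = the places `w` with `a - c a ∈ w` (finite,
`Ideal.finite_factors`). Let `w ∉ T`, `Nm w` prime, `v = below F w`. `Nm w` is a power of `Nm v ≠ 1`
(`Ideal.absNorm_eq_pow_inertiaDeg` or the card of the residue fields), so `Nm w = Nm v` and the residue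
fields are equal: the injective map `𝓞 F ⧸ v → 𝓞 K ⧸ w` is bijective; so there is `f : 𝓞 F` with `a - f ∈ w`.
Let `w'` be the place `{x | c x ∈ w}`; `below F w' = v`. If `w' = w`, then `c (a - f) = c a - f ∈ w`, so
`a - c a ∈ w`, contradiction. So `w ≠ w'` are in `abv K v`, which has `≤ 2` elements (`CGN.abv_card_le`).
The statement about `Nm`: as above. -/
theorem exists_splitT (hdeg : Module.finrank F K = 2) (c : K ≃ₐ[F] K) (hc : ∃ a, c a ≠ a) :
    ∃ T : Set (Pl K), T.Finite ∧ ∀ w : Pl K, w ∉ T → (Nm w).Prime →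
      Split K (below F w) ∧ Nm (below F w) = Nm w := by
  classical
  obtain ⟨b, hb⟩ := G6_exists c hc
  set t : 𝓞 K := b - c • b with ht
  have ht0 : t ≠ 0 := sub_ne_zero.2 (Ne.symm hb)
  refine ⟨{w | t ∈ w.asIdeal}, ?_, ?_⟩
  · have h1 : (Ideal.span {t} : Ideal (𝓞 K)) ≠ 0 := by
      rw [Ne, Ideal.zero_eq_bot, Ideal.span_singleton_eq_bot]
      exact ht0
    refine (Ideal.finite_factors h1).subset fun w hw => ?_
    exact Ideal.dvd_span_singleton.2 hw
  · intro w hw hp
    refine ⟨?_, G6_nm hp⟩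
    have hne : Pool.Agent.CG2.GalFinAux.actP c w ≠ w := by
      intro h
      apply hw
      obtain ⟨n, hn⟩ := G6_int hp b
      have h1 : c • (b - (n : 𝓞 K)) ∈ w.asIdeal := by
        rw [← h]
        exact (Pool.Agent.CG2.GalFinAux.smul_mem_actP c w _).2 hn
      have h2 : c • (b - (n : 𝓞 K)) = c • b - (n : 𝓞 K) := by
        rw [smul_sub]
        congr 1
        exact map_intCast (MulSemiringAction.toRingHom Gal(K/F) (𝓞 K) c) n
      rw [h2] at h1
      have h3 := w.asIdeal.sub_mem hn h1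
      rw [sub_sub_sub_cancel_right] at h3
      exact h3
    apply le_antisymm
    · exact Pool.Agent.CGN.abv_card_le _
    · rw [hdeg]
      have h1 : ({Pool.Agent.CG2.GalFinAux.actP c w, w} : Finset (Pl K)) ⊆ abv K (below F w) := by
        intro x hx
        rw [Finset.mem_insert, Finset.mem_singleton] at hx
        rw [Pool.Agent.CGN.mem_abv]
        rcases hx with rfl | rfl
        · exact Pool.Agent.CG2.GalFinAux.below_actP c w
        · rfl
      have h2 := Finset.card_le_card h1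
      rwa [Finset.card_pair hne] at h2
/- END G6 -/

/- MODULE G7 -/
/-- The ideal of the integers of `Fbar F` corresponding to `Q` under `ψ`. -/
def trQ (ψ : Fbar K ≃+* Fbar F) (Q : Ideal (Zbar K)) : Ideal (Zbar F) where
  carrier := {x | ∃ y ∈ Q, (x : Fbar F) = ψ (y : Fbar K)}
  add_mem' := by
    rintro a b ⟨x, hx, hax⟩ ⟨y, hy, hby⟩
    refine ⟨x + y, Q.add_mem hx hy, ?_⟩
    change (a : Fbar F) + (b : Fbar F) = ψ ((x : Fbar K) + (y : Fbar K))
    rw [map_add, hax, hby]
  zero_mem' := ⟨0, Q.zero_mem, (map_zero ψ).symm⟩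
  smul_mem' := by
    rintro c a ⟨x, hx, hax⟩
    have h : IsIntegral ℤ (c : Fbar F) := c.2
    have h' : IsIntegral ℤ (ψ.symm (c : Fbar F)) :=
      h.map (ψ.symm : Fbar F →+* Fbar K).toIntAlgHom
    refine ⟨⟨ψ.symm (c : Fbar F), h'⟩ * x, Q.mul_mem_left _ hx, ?_⟩
    change (c : Fbar F) * (a : Fbar F) = ψ (ψ.symm (c : Fbar F) * (x : Fbar K))
    rw [map_mul, hax, RingEquiv.apply_symm_apply]

private def G7_pb (ψ : Fbar K ≃+* Fbar F) : Zbar F →+* Zbar K where
  toFun x := ⟨ψ.symm (x : Fbar F), by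
    have h : IsIntegral ℤ (x : Fbar F) := x.2
    exact h.map (ψ.symm : Fbar F →+* Fbar K).toIntAlgHom⟩
  map_one' := Subtype.ext (map_one ψ.symm)
  map_mul' a b := Subtype.ext (map_mul ψ.symm (a : Fbar F) (b : Fbar F))
  map_zero' := Subtype.ext (map_zero ψ.symm)
  map_add' a b := Subtype.ext (map_add ψ.symm (a : Fbar F) (b : Fbar F))

private theorem G7_pb_coe (ψ : Fbar K ≃+* Fbar F) (x : Zbar F) :
    ((G7_pb ψ x : Zbar K) : Fbar K) = ψ.symm (x : Fbar F) := rfl

private theorem G7_mem (ψ : Fbar K ≃+* Fbar F) (Q : Ideal (Zbar K)) (x : Zbar F) :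
    x ∈ trQ ψ Q ↔ G7_pb ψ x ∈ Q := by
  constructor
  · rintro ⟨y, hy, hxy⟩
    have h1 : G7_pb ψ x = y := by
      apply Subtype.ext
      change ψ.symm (x : Fbar F) = y
      rw [hxy, RingEquiv.symm_apply_apply]
    rwa [h1]
  · intro h
    exact ⟨G7_pb ψ x, h, (RingEquiv.apply_symm_apply ψ _).symm⟩

private theorem G7_comap (ψ : Fbar K ≃+* Fbar F) (Q : Ideal (Zbar K)) :
    trQ ψ Q = Q.comap (G7_pb ψ) := by
  ext x
  rw [G7_mem, Ideal.mem_comap]

private theorem G7_act (j : K →ₐ[F] Fbar F) (ψ : Fbar K ≃+* Fbar F)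
    (hψ : ∀ a : K, ψ (algebraMap K (Fbar K) a) = j a) (g : GalF K) (x : Fbar F) :
    (toGF j ψ hψ g : GalF F) x = ψ (g (ψ.symm x)) := rfl

/-- **G7**. Transport of the notions for `K` to those for `F` by `ψ`.

PROOF. All by unfolding. `x ∈ trQ ψ Q ↔ ψ⁻¹ x ∈ Q` (as elements of `Zbar K`). `Over`: `trQ` is prime; for
`a ∈ (below F w).asIdeal` the element `algebraMap a` of `Zbar F` is `ψ` of `algebraMap K (algebraMap F K a)`
(`hψ`, `AlgHom.commutes`), and `algebraMap (𝓞 F) (𝓞 K) a ∈ w`. `comap`: `incj j a = ψ (a)` and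
`Q ∩ 𝓞 K = w` (`CG2.comap_prime_eq` or the like: used in `CGN.finite_ram`). `toGF g` acts as `ψ g ψ⁻¹`. -/
theorem transport (j : K →ₐ[F] Fbar F) (ψ : Fbar K ≃+* Fbar F)
    (hψ : ∀ a : K, ψ (algebraMap K (Fbar K) a) = j a) {w : Pl K} {Q : Ideal (Zbar K)}
    (hQ : Over w Q) :
    Over (below F w) (trQ ψ Q) ∧ (trQ ψ Q).comap (incj j) = w.asIdeal ∧
      (∀ g : GalF K, IsInertia Q g → IsInertia (trQ ψ Q) (toGF j ψ hψ g : GalF F)) ∧
      (Nm (below F w) = Nm w → ∀ g : GalF K, IsFrob w Q g →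
        IsFrob (below F w) (trQ ψ Q) (toGF j ψ hψ g : GalF F)) := by
  refine ⟨⟨?_, ?_⟩, ?_, ?_, ?_⟩
  · have := hQ.1
    rw [G7_comap]
    exact Ideal.comap_isPrime _ _
  · intro a ha x hx
    rw [G7_mem]
    refine hQ.2 (algebraMap (𝓞 F) (𝓞 K) a) ha _ ?_
    rw [G7_pb_coe, hx, RingEquiv.symm_apply_eq, hψ]
    exact (AlgHom.commutes j (a : F)).symm
  · rw [← Pool.Agent.CG2.GalInfAux.comap_prime_eq hQ]
    ext a
    rw [Ideal.mem_comap, Ideal.mem_comap, G7_mem]
    have h1 : G7_pb ψ (incj j a) = Pool.Agent.CG2.GalInfAux.inc K K a := by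
      apply Subtype.ext
      change ψ.symm (j (a : K)) = algebraMap K (Fbar K) (a : K)
      rw [RingEquiv.symm_apply_eq, hψ]
    rw [h1]
  · intro g hg x y hxy
    rw [G7_mem, map_sub]
    refine hg _ _ ?_
    rw [G7_pb_coe, G7_pb_coe, hxy, G7_act, RingEquiv.symm_apply_apply]
  · intro hN g hg x y hxy
    rw [G7_mem, map_sub, map_pow, hN]
    refine hg _ _ ?_
    rw [G7_pb_coe, G7_pb_coe, hxy, G7_act, RingEquiv.symm_apply_apply]

/-- `toGF` is bijective.

PROOF. Injective: clear. Surjective: for `h ∈ fixK j` take `x ↦ ψ⁻¹ (h (ψ x))`. -/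
theorem toGF_bij (j : K →ₐ[F] Fbar F) (ψ : Fbar K ≃+* Fbar F)
    (hψ : ∀ a : K, ψ (algebraMap K (Fbar K) a) = j a) : Function.Bijective (toGF j ψ hψ) := by
  constructor
  · intro g h hgh
    apply AlgEquiv.ext
    intro x
    have h1 := congrArg (fun z : fixK j => (z : GalF F) (ψ x)) hgh
    have h2 : ψ (g (ψ.symm (ψ x))) = ψ (h (ψ.symm (ψ x))) := h1
    rw [RingEquiv.symm_apply_apply] at h2
    exact ψ.injective h2
  · intro h
    refine ⟨AlgEquiv.ofRingEquiv
      (f := (ψ.trans ((h : GalF F) : Fbar F ≃+* Fbar F)).trans ψ.symm) (by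
        intro a
        change ψ.symm ((h : GalF F) (ψ (algebraMap K (Fbar K) a))) = _
        rw [hψ, h.2 a, RingEquiv.symm_apply_eq, hψ]), ?_⟩
    apply Subtype.ext
    apply AlgEquiv.ext
    intro x
    change ψ (ψ.symm ((h : GalF F) (ψ (ψ.symm x)))) = (h : GalF F) x
    rw [RingEquiv.apply_symm_apply, RingEquiv.apply_symm_apply]

/-- The preimage of an open subgroup is open.

PROOF. Let `H ≤ fixK j` be open for the topology of the subspace. There is an open subgroup `U` of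
`GalF F` with `U ⊓ fixK j ≤ H` (as subsets; `krullTopology_mem_nhds_one_iff`): the fixing subgroup of a finite
extension `E` of `F` in `Fbar F`, `E = F(x₁, …, x_r)`. The fixing subgroup of `K(ψ⁻¹ x₁, …, ψ⁻¹ x_r)`, finite over `K`
(`IntermediateField.adjoin`), in `GalF K` is open and is mapped by `toGF` into `H`. `Subgroup.isOpen_mono`. -/
theorem toGF_open (j : K →ₐ[F] Fbar F) (ψ : Fbar K ≃+* Fbar F)
    (hψ : ∀ a : K, ψ (algebraMap K (Fbar K) a) = j a) (H : Subgroup (fixK j))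
    (hH : IsOpen (H : Set (fixK j))) :
    IsOpen ((H.comap (toGF j ψ hψ) : Subgroup (GalF K)) : Set (GalF K)) := by
  obtain ⟨O, hO, hOH⟩ := isOpen_induced_iff.1 hH
  have h1 : (1 : GalF F) ∈ O := by
    have h2 : (1 : fixK j) ∈ (H : Set (fixK j)) := H.one_mem
    rw [← hOH] at h2
    exact h2
  obtain ⟨E, hE, hEO⟩ := (krullTopology_mem_nhds_one_iff F (Fbar F) O).1 (hO.mem_nhds h1)
  let b := Module.finBasis F E
  let x : Fin (Module.finrank F E) → Fbar K := fun i => ψ.symm ((b i : E) : Fbar F)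
  have hfd : FiniteDimensional K (IntermediateField.adjoin K (Set.range x)) :=
    IntermediateField.finiteDimensional_adjoin fun z _ => Algebra.IsIntegral.isIntegral z
  refine Subgroup.isOpen_mono (H₁ := (IntermediateField.adjoin K (Set.range x)).fixingSubgroup)
    ?_ (IntermediateField.fixingSubgroup_isOpen _)
  intro g hg
  have hgx : ∀ i, g (x i) = x i := fun i =>
    hg ⟨x i, IntermediateField.subset_adjoin K _ ⟨i, rfl⟩⟩
  have h2 : (toGF j ψ hψ g : GalF F) ∈ O := by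
    apply hEO
    rw [SetLike.mem_coe, IntermediateField.mem_fixingSubgroup_iff]
    intro y hy
    have h3 : (y : Fbar F) = ∑ i, (b.repr ⟨y, hy⟩ i) • ((b i : E) : Fbar F) := by
      have h4 := congrArg (fun z : E => (z : Fbar F)) (b.sum_repr ⟨y, hy⟩).symm
      have h5 : ((∑ i, (b.repr ⟨y, hy⟩ i) • b i : E) : Fbar F) =
          ∑ i, (b.repr ⟨y, hy⟩ i) • ((b i : E) : Fbar F) := by
        rw [IntermediateField.coe_sum]
        rfl
      exact h4.trans h5
    rw [h3, map_sum]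
    refine Finset.sum_congr rfl fun i _ => ?_
    rw [Algebra.smul_def, map_mul, AlgEquiv.commutes, G7_act]
    congr 1
    have h6 : g (ψ.symm ((b i : E) : Fbar F)) = ψ.symm ((b i : E) : Fbar F) := hgx i
    rw [h6, RingEquiv.apply_symm_apply]
  have h3 : toGF j ψ hψ g ∈ (H : Set (fixK j)) := by
    rw [← hOH]
    exact h2
  exact h3
/- END G7 -/

/- MODULE G8 -/
/-- The twist of `ρ` by `ω` to the power `-ε`, on the Galois group of `K`. -/
def twK {n : ℕ} {κ : Type} [Field κ] (j : K →ₐ[F] Fbar F) (ψ : Fbar K ≃+* Fbar F)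
    (hψ : ∀ a : K, ψ (algebraMap K (Fbar K) a) = j a) (ρ : fixK j →* GL (Fin n) κ)
    (ω : fixK j →* κˣ) (ε : ℤˣ) : GalF K →* GL (Fin n) κ where
  toFun g := Units.map (algebraMap κ (Matrix (Fin n) (Fin n) κ) : κ →* _)
    (ω (toGF j ψ hψ g) ^ (-(ε : ℤ))) * ρ (toGF j ψ hψ g)
  map_one' := by simp
  map_mul' g h := by
    have hc : ∀ (a : κˣ) (M : GL (Fin n) κ),
        Units.map (algebraMap κ (Matrix (Fin n) (Fin n) κ) : κ →* _) a * M =
          M * Units.map (algebraMap κ (Matrix (Fin n) (Fin n) κ) : κ →* _) a := by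
      intro a M
      apply Units.ext
      exact Algebra.commutes (a : κ) (M : Matrix (Fin n) (Fin n) κ)
    rw [map_mul, map_mul, map_mul, mul_zpow, map_mul, mul_assoc, mul_assoc]
    congr 1
    rw [← mul_assoc, hc, mul_assoc]

private theorem G8_charpoly {n : ℕ} {κ : Type} [Field κ] (A : Matrix (Fin n) (Fin n) κ)
    {ι : Type} (s : Finset ι) (hs : s.card = n) (f : ι → κ) (w : κ) (hw : w ≠ 0)
    (h : A.charpoly = ∏ i ∈ s, (Polynomial.X - Polynomial.C (w * f i))) :
    (w⁻¹ • A).charpoly = ∏ i ∈ s, (Polynomial.X - Polynomial.C (f i)) := by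
  let φ : Polynomial κ →+* Polynomial κ :=
    Polynomial.compRingHom (Polynomial.C w * Polynomial.X)
  have hφ : ∀ P, φ P = P.comp (Polynomial.C w * Polynomial.X) := fun P => rfl
  have h1 : charmatrix (w⁻¹ • A) = Polynomial.C w⁻¹ • (charmatrix A).map φ := by
    ext1 i j
    rw [Matrix.smul_apply, Matrix.map_apply, charmatrix, charmatrix, Matrix.sub_apply,
      Matrix.sub_apply, hφ, Polynomial.sub_comp]
    by_cases hij : i = j
    · subst hij
      simp only [Matrix.scalar_apply, Matrix.diagonal_apply_eq, RingHom.mapMatrix_apply,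
        Matrix.map_apply, Matrix.smul_apply, smul_eq_mul, Polynomial.X_comp, Polynomial.C_comp,
        mul_sub, ← mul_assoc, ← Polynomial.C_mul]
      rw [inv_mul_cancel₀ hw, Polynomial.C_1, one_mul]
    · simp only [Matrix.scalar_apply, Matrix.diagonal_apply_ne _ hij, RingHom.mapMatrix_apply,
        Matrix.map_apply, Matrix.smul_apply, smul_eq_mul, Polynomial.zero_comp, Polynomial.C_comp,
        zero_sub, mul_neg, ← Polynomial.C_mul]
  rw [Matrix.charpoly, h1, Matrix.det_smul, Fintype.card_fin]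
  have h2 : ((charmatrix A).map φ).det = φ A.charpoly := by
    rw [Matrix.charpoly, RingHom.map_det]
    rfl
  rw [h2, h, map_prod]
  have h3 : ∀ i ∈ s, φ (Polynomial.X - Polynomial.C (w * f i)) =
      Polynomial.C w * (Polynomial.X - Polynomial.C (f i)) := by
    intro i _
    rw [hφ, Polynomial.sub_comp, Polynomial.X_comp, Polynomial.C_comp, Polynomial.C_mul, mul_sub]
  rw [Finset.prod_congr rfl h3, Finset.prod_mul_distrib, Finset.prod_const, hs, ← mul_assoc,
    ← mul_pow, ← Polynomial.C_mul, inv_mul_cancel₀ hw, Polynomial.C_1, one_pow, one_mul]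

private theorem G8_eps {G : Type} [Group G] (a : G) (ε : ℤˣ) :
    (a ^ (ε : ℤ)) ^ (-(ε : ℤ)) = a⁻¹ := by
  rw [← _root_.zpow_mul, mul_neg, ← Units.val_mul, Int.units_mul_self, Units.val_one, _root_.zpow_neg_one]

/-- **G8**. The twisted representation satisfies the hypothesis of the degree `n` theory over `K`.

PROOF. `T'` is the union of the `T` of `exists_splitT` and `{w | below F w ∈ T}` (finite: `CGN.finite_aboveL`).
Let `w ∉ T'`, `Nm w` prime, `r, W, M` as in `HypN`. `Split K (below F w)`, `Nm (below F w) = Nm w`. As in the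
proof of `CGN.hypN_of_hypE` (GalTr.lean, TR (2)): `Sel M u e (p ^ M) w` and `abv M w` is the image of `W`. (If
`M = 0` (the exponent) the hypothesis with `N = 0` is not available, but for the exponent `0` every
element is a `p^0`-th power, so `n ≥ 2` contradicts the third hypothesis of `HypN`.) `Q` over `w`, `g` Frobenius:
`transport` gives `trQ ψ Q` and the Frobenius element `toGF g` over `below F w`. `hH` gives the characteristic
polynomial of `ρ (toGF g ^ ε)`; multiplication of the matrix by `ω(toGF g)⁻¹` (the exponent: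
`ω (g ^ ε) ^ (-ε) = ω(g)⁻¹`) divides the roots by `ω` (a lemma on the characteristic polynomial of `a • A`, all
roots in the field: compare `CGN.charpoly_twist`, AGA.lean, or use
`charpoly (a • A) = ∏ (X - a λ_i)` when `charpoly A = ∏ (X - λ_i)`, by `Matrix.det_smul` and evaluation/`comp`). -/
theorem hypN_twK {n : ℕ} (hn : 2 ≤ n) (hdeg : Module.finrank F K = 2) (c : K ≃ₐ[F] K)
    (hc : ∃ a, c a ≠ a) (j : K →ₐ[F] Fbar F) (ψ : Fbar K ≃+* Fbar F)
    (hψ : ∀ a : K, ψ (algebraMap K (Fbar K) a) = j a) {M : Type} [Field M] [NumberField M]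
    [Algebra K M] (hM : Module.finrank K M = n) {κ : Type} [Field κ] {p : ℕ} (ε : ℤˣ)
    (ρ : fixK j →* GL (Fin n) κ) (ω : fixK j →* κˣ) (u e : (𝓞 M)ˣ) (χ : Pl M → κ)
    {T : Set (Pl F)} (hT : T.Finite) (hH : HypEU ε p j ρ ω u e χ T) :
    ∃ T' : Set (Pl K), T'.Finite ∧ HypN ε p (twK j ψ hψ ρ ω ε) u e χ T' := by
  obtain ⟨T0, hT0, hsp⟩ := exists_splitT (F := F) hdeg c hc
  have hfin : {w : Pl K | below F w ∈ T}.Finite := by
    have h1 : {w : Pl K | below F w ∈ T} = ⋃ v ∈ T, {w | below F w = v} := by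
      ext w
      simp
    rw [h1]
    exact hT.biUnion fun v _ => Pool.Agent.CGN.finite_aboveL K v
  refine ⟨T0 ∪ {w | below F w ∈ T}, hT0.union hfin, ?_⟩
  have hE : HypE ε p (twK j ψ hψ ρ ω ε) u e χ
      ((T0 ∪ {w : Pl K | below F w ∈ T}) ∪ {w | ¬ (Nm w).Prime}) := by
    intro w hw N hN hpN hsel Q hQ g hg
    rw [Set.mem_union, Set.mem_union, not_or, not_or] at hw
    obtain ⟨⟨hw1, hw2⟩, hw3⟩ := hw
    have hp : (Nm w).Prime := not_not.1 hw3
    obtain ⟨hs1, hs2⟩ := hsp w hw1 hp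
    obtain ⟨t1, t2, -, t4⟩ := transport j ψ hψ hQ
    have h1 := hH w hw2 hs1 N hN hpN hsel (trQ ψ Q) t1 t2 (toGF j ψ hψ g) (t4 hs2 g hg)
    have hcard : (abv M w).card = n := by
      have := hsel.split
      rw [Split, hM] at this
      exact this
    have h2 := G8_charpoly (ρ (toGF j ψ hψ g ^ (ε : ℤ)) : Matrix (Fin n) (Fin n) κ) (abv M w)
      hcard χ (ω (toGF j ψ hψ g) : κ) (Units.ne_zero _) h1
    rw [← h2]
    congr 1
    have h3 : twK j ψ hψ ρ ω ε (g ^ (ε : ℤ)) =
        Units.map (algebraMap κ (Matrix (Fin n) (Fin n) κ) : κ →* _)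
          ((ω (toGF j ψ hψ g))⁻¹) * ρ (toGF j ψ hψ g ^ (ε : ℤ)) := by
      change Units.map (algebraMap κ (Matrix (Fin n) (Fin n) κ) : κ →* _)
        (ω (toGF j ψ hψ (g ^ (ε : ℤ))) ^ (-(ε : ℤ))) * ρ (toGF j ψ hψ (g ^ (ε : ℤ))) = _
      rw [map_zpow (toGF j ψ hψ), map_zpow ω, G8_eps]
    rw [h3, Units.val_mul, Units.coe_map, Algebra.smul_def]
    congr 1
    rw [Units.val_inv_eq_inv_val]
    rfl
  have hN := Pool.Agent.CGN.hypN_of_hypE hn hM hE
  intro w hw hp
  exact hN w (by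
    rw [Set.mem_union, not_or]
    exact ⟨hw, not_not.2 hp⟩) hp
/- END G8 -/

end Pool.Agent.CGU
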