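import Pool.Agent.CGU.Defs

/-!
# The interface of the parts U' (unit trick), G' (Galois side), E' (generic unit): definitions
-/

noncomputable section

namespace Pool.Agent.CGU

open NumberField IsDedekindDomain Matrix
open Pool.Agent.CG2 (Pl Fv Ov GalF Fbar Zbar Over IsInertia IsFrob Nm IsRay expo TotPos)
open Pool.Agent.CG2.GalFinAux (below)
open Pool.Agent.CGQ
open Pool.Agent.CGN (Chart HeckeAlg eig heckePol dualL lk Split incj abv Sel ActsAs)

variable {F : Type} [Field F] [NumberField F] {K : Type} [Field K] [NumberField K] [Algebra F K]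

/-- The element of the unitary group given by `x` (`1` if `x` is not unitary). -/
def mkU {A : UD F} (x : BF A) : UF A :=
  open Classical in
  if h : star x * x = 1 ∧ x * star x = 1 then ⟨⟨x, star x, h.2, h.1⟩, h.1⟩ else 1

theorem mkU_val {A : UD F} {x : BF A} (h : star x * x = 1) (h' : x * star x = 1) :
    (mkU x).1.1 = x := by
  rw [mkU, dif_pos ⟨h, h'⟩]

/-- The place `w` of `K` is the one given by `θ_v`. -/
def IsW {A : UD F} {S : Set (Pl F)} (κ : K →ₐ[F] BF A) (θ : USpl A S)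
    (v : {v : Pl F // v ∉ S}) (w : Pl K) : Prop :=
  ∀ a : 𝓞 K, a ∈ w.asIdeal ↔ ∀ x y : Fin A.n, Valued.v (θ.θ v (bloc A v.1 (κ (a : K))) x y) < 1

section M

variable {M : Type} [Field M] [NumberField M] [Algebra F M] [Algebra K M]
  {A : UD F}

/-- The element of the unitary group given by an element of norm `1` of `M`. -/
def uU (ι : M →ₐ[F] BF A) (x : M) : (sysU A).G := mkU (ι x)

/-- The element `x / τ x`. -/
def qU (ι : M →ₐ[F] BF A) (τ : M ≃ₐ[F] M) (x : M) : (sysU A).G := uU ι (x / τ x)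

/-- A field `M` embedded in `B` by `ι`, containing `K` and stable under the involution, which is
`τ` on `M`; the degree of `M` over `K` is `n`. -/
structure MData (A : UD F) (κ : K →ₐ[F] BF A) (ι : M →ₐ[F] BF A) (τ : M ≃ₐ[F] M) : Prop where
  tower : IsScalarTower F K M
  deg : Module.finrank K M = A.n
  ικ : ∀ a : K, ι (algebraMap K M a) = κ a
  st : ∀ x : M, star (ι x) = ι (τ x)

/-- The properties of the generic unit `u` and of the second unit `e`; `v₃` is a place of `K` where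
the inertia group contains a transposition. -/
structure GenU (A : UD F) (κ : K →ₐ[F] BF A) (Kf : Subgroup (sysU A).A) (y : (sysU A).Pt)
    (v₃ : Pl K) (ι : M →ₐ[F] BF A) (τ : M ≃ₐ[F] M) (u e : (𝓞 M)ˣ) : Prop where
  dat : MData A κ ι τ
  u1 : τ ((u : 𝓞 M) : M) * ((u : 𝓞 M) : M) = 1
  e1 : τ ((e : 𝓞 M) : M) * ((e : 𝓞 M) : M) = 1
  hu : uU ι ((u : 𝓞 M) : M) ∈ Stab Kf y
  he : uU ι ((e : 𝓞 M) : M) ∈ Stab Kf y
  ind : ∀ (a b : ℤ) (f : K), ((e : 𝓞 M) : M) ^ a = ((u : 𝓞 M) : M) ^ b * algebraMap K M f → a = 0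
  sn : ∀ π : Equiv.Perm (M →ₐ[K] Fbar K), ∃ g : GalF K, ActsAs g π
  tr : ∃ (Q : Ideal (Zbar K)) (g : GalF K) (j₁ j₂ : M →ₐ[K] Fbar K), Over v₃ Q ∧ IsInertia Q g ∧
    j₁ ≠ j₂ ∧ (∀ x, g (j₁ x) = j₂ x) ∧ (∀ x, g (j₂ x) = j₁ x) ∧
    ∀ j : M →ₐ[K] Fbar K, j ≠ j₁ → j ≠ j₂ → ∀ x, g (j x) = j x

end M

/-- The group `Kf` is contained in the principal congruence subgroup at the place `v`. -/
def SmallAtU {A : UD F} {S : Set (Pl F)} (θ : USpl A S) (v : {v : Pl F // v ∉ S})
    (Kf : Subgroup (sysU A).A) : Prop :=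
  ∀ k ∈ Kf, ∀ a b, Valued.v ((θ.θ v (show UV A v.1 from k.1 v.1).1.1 - 1) a b) < 1

/-- The transport of the Galois group of `K` into the one of `F` by an isomorphism of the algebraic
closures. -/
def toGF (j : K →ₐ[F] Fbar F) (ψ : Fbar K ≃+* Fbar F)
    (hψ : ∀ a : K, ψ (algebraMap K (Fbar K) a) = j a) : GalF K →* fixK j where
  toFun g := ⟨AlgEquiv.ofRingEquiv (f := (ψ.symm.trans (g : Fbar K ≃+* Fbar K)).trans ψ) (by
      intro a
      have h1 : ψ.symm (algebraMap F (Fbar F) a) = algebraMap K (Fbar K) (algebraMap F K a) := by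
        rw [RingEquiv.symm_apply_eq, hψ, AlgHom.commutes]
      change ψ (g (ψ.symm (algebraMap F (Fbar F) a))) = _
      rw [h1, AlgEquiv.commutes, hψ, AlgHom.commutes]), by
      intro a
      have h1 : ψ.symm (j a) = algebraMap K (Fbar K) a := by
        rw [RingEquiv.symm_apply_eq, hψ]
      change ψ (g (ψ.symm (j a))) = _
      rw [h1, AlgEquiv.commutes, hψ]⟩
  map_one' := by
    apply Subtype.ext
    apply AlgEquiv.ext
    intro x
    exact ψ.apply_symm_apply x
  map_mul' g h := by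
    apply Subtype.ext
    apply AlgEquiv.ext
    intro x
    change ψ (g (h (ψ.symm x))) = ψ (g (ψ.symm (ψ (h (ψ.symm x)))))
    rw [RingEquiv.symm_apply_apply]

/-- The restriction of `ρ` to the Galois group of `K`. -/
def rhoK {n : ℕ} {k : Type} [Field k] (ρ : GalF F →* LG n k) (j : K →ₐ[F] Fbar F)
    (hr : ∀ g : GalF F, (ρ g).right = 1 ↔ ∀ a : K, g (j a) = j a) : fixK j →* GL (Fin n) k where
  toFun g := (ρ g).left
  map_one' := by
    change (ρ 1).left = 1
    rw [map_one]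
    rfl
  map_mul' g h := by
    have h1 : (ρ (g : GalF F)).right = 1 := (hr _).2 g.2
    change (ρ ((g : GalF F) * (h : GalF F))).left = _
    rw [map_mul, SemidirectProduct.mul_left, h1, map_one, MulAut.one_apply]

/-- The hypothesis on the Frobenius elements: at the selected places `w` of `K` over places
`v ∉ T` of `F` split in `K`, with `N w ≡ 1` modulo `p ^ N`, the (arithmetic, `ε = 1`, or geometric,
`ε = -1`) Frobenius elements have the eigenvalues `ω χ W`, `W` above `w`. -/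
def HypEU {n : ℕ} {k : Type} [Field k] (ε : ℤˣ) (p : ℕ) (j : K →ₐ[F] Fbar F)
    (ρ : fixK j →* GL (Fin n) k) (ω : fixK j →* kˣ) {M : Type} [Field M] [NumberField M]
    [Algebra K M] (u e : (𝓞 M)ˣ) (χ : Pl M → k) (T : Set (Pl F)) : Prop :=
  ∀ w : Pl K, below F w ∉ T → Split K (below F w) → ∀ N : ℕ, 0 < N → p ^ N ∣ Nm w - 1 →
    Sel M u e (p ^ N) w → ∀ Q : Ideal (Zbar F), Over (below F w) Q →
      Q.comap (incj j) = w.asIdeal → ∀ g : fixK j, IsFrob (below F w) Q (g : GalF F) →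
        (ρ (g ^ (ε : ℤ)) : Matrix (Fin n) (Fin n) k).charpoly =
          ∏ W ∈ abv M w, (Polynomial.X - Polynomial.C ((ω g : k) * χ W))

end Pool.Agent.CGU
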