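import Pool.Agent.CGU.KRd
import Pool.Agent.CGU.Defs
import Pool.Agent.CGN.KWed

/-!
# The real data of a unitary group exist
-/

noncomputable section

set_option linter.unusedSectionVars false
set_option linter.unusedVariables false

namespace Pool.Agent.CGU

open NumberField IsDedekindDomain
open Pool.Agent.CG2 (Pl Fv Ov)
open Pool.Agent.CGQ (Sys PA)
open Pool.Agent.CGN (SC paProd paPi paMat paR paC paH)
open scoped Quaternion TensorProduct


private theorem EA_left {F K D ι : Type} [Field F] [Field K] [Algebra F K] [Ring D]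
    [Algebra F D] (φ : K ⊗[F] D ≃ₗ[F] ι →₀ D) (r : ι → K → F)
    (hφ : ∀ k d i, φ (k ⊗ₜ d) i = r i k • d) (d : D) (z : K ⊗[F] D) (i : ι) :
    φ (((1 : K) ⊗ₜ[F] d) * z) i = d * φ z i := by
  induction z using TensorProduct.induction_on with
  | zero => rw [mul_zero, map_zero, Finsupp.zero_apply, mul_zero]
  | tmul k x =>
    rw [Algebra.TensorProduct.tmul_mul_tmul, one_mul, hφ, hφ, mul_smul_comm]
  | add x y hx hy =>
    rw [mul_add, map_add, map_add, Finsupp.add_apply, Finsupp.add_apply, hx, hy, mul_add]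

private theorem EA_right {F K D ι : Type} [Field F] [Field K] [Algebra F K] [Ring D]
    [Algebra F D] (φ : K ⊗[F] D ≃ₗ[F] ι →₀ D) (r : ι → K → F)
    (hφ : ∀ k d i, φ (k ⊗ₜ d) i = r i k • d) (d : D) (z : K ⊗[F] D) (i : ι) :
    φ (z * ((1 : K) ⊗ₜ[F] d)) i = φ z i * d := by
  induction z using TensorProduct.induction_on with
  | zero => rw [zero_mul, map_zero, Finsupp.zero_apply, zero_mul]
  | tmul k x =>
    rw [Algebra.TensorProduct.tmul_mul_tmul, mul_one, hφ, hφ, smul_mul_assoc]
  | add x y hx hy =>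
    rw [add_mul, map_add, map_add, Finsupp.add_apply, Finsupp.add_apply, hx, hy, add_mul]

/-- PROOF. As `CGN.isSimpleRing_tensor` (`CGN/KSim.lean`), where `A` is a division ring. Let `z ≠ 0` be in the two-sided
ideal `I` with a support of minimal size and `i₀` in the support. The set of the `a` in `A` such that there is `y` in `I`
with `supp y ⊆ supp z` and component `a` at `i₀` is a two-sided ideal of `A`, not `0`, so it contains `1` (`A` is simple):
there is `y` in `I` with `supp y ⊆ supp z` and component `1` at `i₀`; continue as there. (Another way: `A` is a matrix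
ring over a central division algebra, `IsSimpleRing.exists_algEquiv_matrix_divisionRing_finite`.) -/
theorem isSimpleRing_tensor' (F K A : Type) [Field F] [Field K] [Algebra F K] [Ring A]
    [Algebra F A] [Algebra.IsCentral F A] [IsSimpleRing A] : IsSimpleRing (K ⊗[F] A) := by
  classical
  let B := Module.Basis.ofVectorSpace F K
  obtain ⟨φ, hφ⟩ : ∃ φ : K ⊗[F] A ≃ₗ[F] Module.Basis.ofVectorSpaceIndex F K →₀ A,
      ∀ k d i, φ (k ⊗ₜ d) i = B.repr k i • d :=
    ⟨TensorProduct.equivFinsuppOfBasisLeft B, fun k d i =>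
      TensorProduct.equivFinsuppOfBasisLeft_apply_tmul_apply B k d i⟩
  have hL := EA_left φ (fun i k => B.repr k i) (fun k d i => hφ k d i)
  have hR := EA_right φ (fun i k => B.repr k i) (fun k d i => hφ k d i)
  have hnt : Nontrivial (K ⊗[F] A) := by
    refine ⟨⟨1, 0, fun h => ?_⟩⟩
    have h1 : B.repr 1 ≠ 0 := fun h0 => one_ne_zero (B.repr.map_eq_zero_iff.1 h0)
    obtain ⟨i, hi⟩ := Finsupp.ne_iff.1 h1
    have h2 := hφ 1 1 i
    have h3 : ((1 : K) ⊗ₜ[F] (1 : A)) = 0 := h
    rw [h3, map_zero, Finsupp.zero_apply] at h2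
    rcases smul_eq_zero.1 h2.symm with h4 | h4
    · exact hi h4
    · exact one_ne_zero h4
  refine IsSimpleRing.of_eq_bot_or_eq_top fun I => ?_
  by_cases hI : I = ⊥
  · exact Or.inl hI
  right
  rw [← I.one_mem_iff]
  obtain ⟨z₀, hz₀, hz₀' : z₀ ≠ 0⟩ := SetLike.exists_of_lt (bot_lt_iff_ne_bot.mpr hI : ⊥ < I)
  have hex : ∃ n : ℕ, ∃ z ∈ I, z ≠ 0 ∧ (φ z).support.card = n := ⟨_, z₀, hz₀, hz₀', rfl⟩
  obtain ⟨z, hz, hz', hn⟩ := Nat.find_spec hex
  have hmin : ∀ w ∈ I, w ≠ 0 → (φ z).support.card ≤ (φ w).support.card := by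
    intro w hw hw'
    rw [hn]
    exact Nat.find_min' hex ⟨w, hw, hw', rfl⟩
  have hφz : φ z ≠ 0 := fun h0 => hz' (φ.map_eq_zero_iff.1 h0)
  obtain ⟨i₀, hi₀⟩ := Finsupp.ne_iff.1 hφz
  rw [Finsupp.zero_apply] at hi₀
  -- one component is `1`
  obtain ⟨y, hy, hy1, hys⟩ : ∃ y ∈ I, φ y i₀ = 1 ∧ ∀ i, φ z i = 0 → φ y i = 0 := by
    obtain ⟨J, hJ⟩ : ∃ J : TwoSidedIdeal A, ∀ a, a ∈ J ↔
        ∃ y ∈ I, φ y i₀ = a ∧ ∀ i, φ z i = 0 → φ y i = 0 := by
      refine ⟨TwoSidedIdeal.mk' {a | ∃ y ∈ I, φ y i₀ = a ∧ ∀ i, φ z i = 0 → φ y i = 0}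
        ?_ ?_ ?_ ?_ ?_, fun a => ?_⟩
      · exact ⟨0, I.zero_mem, by rw [map_zero, Finsupp.zero_apply], fun i _ => by
          rw [map_zero, Finsupp.zero_apply]⟩
      · rintro a b ⟨x, hx, hxa, hxs⟩ ⟨y, hy, hyb, hys⟩
        exact ⟨x + y, I.add_mem hx hy, by rw [map_add, Finsupp.add_apply, hxa, hyb], fun i hi => by
          rw [map_add, Finsupp.add_apply, hxs i hi, hys i hi, add_zero]⟩
      · rintro a ⟨x, hx, hxa, hxs⟩
        exact ⟨-x, I.neg_mem hx, by rw [map_neg, Finsupp.neg_apply, hxa], fun i hi => by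
          rw [map_neg, Finsupp.neg_apply, hxs i hi, neg_zero]⟩
      · rintro a b ⟨x, hx, hxa, hxs⟩
        exact ⟨((1 : K) ⊗ₜ[F] a) * x, I.mul_mem_left _ _ hx, by rw [hL, hxa], fun i hi => by
          rw [hL, hxs i hi, mul_zero]⟩
      · rintro a b ⟨x, hx, hxa, hxs⟩
        exact ⟨x * ((1 : K) ⊗ₜ[F] b), I.mul_mem_right _ _ hx, by rw [hR, hxa], fun i hi => by
          rw [hR, hxs i hi, zero_mul]⟩
      · rw [TwoSidedIdeal.mem_mk']
        rfl
    have hJt : J = ⊤ := by
      rcases eq_bot_or_eq_top J with h | h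
      · exfalso
        apply hi₀
        have h1 : φ z i₀ ∈ J := (hJ _).2 ⟨z, hz, rfl, fun i hi => hi⟩
        rw [h] at h1
        exact h1
      · exact h
    have h1 : (1 : A) ∈ J := by
      rw [hJt]
      trivial
    exact (hJ 1).1 h1
  have hcomm : ∀ (d : A) i, φ y i * d = d * φ y i := by
    intro d
    have hw : ((1 : K) ⊗ₜ[F] d) * y - y * ((1 : K) ⊗ₜ[F] d) ∈ I :=
      I.sub_mem (I.mul_mem_left _ _ hy) (I.mul_mem_right _ _ hy)
    have hwi : ∀ i, φ (((1 : K) ⊗ₜ[F] d) * y - y * ((1 : K) ⊗ₜ[F] d)) i =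
        d * φ y i - φ y i * d := by
      intro i
      rw [map_sub, Finsupp.sub_apply, hL, hR]
    have hw0 : ((1 : K) ⊗ₜ[F] d) * y - y * ((1 : K) ⊗ₜ[F] d) = 0 := by
      by_contra hne
      have h1 := hmin _ hw hne
      have h2 : (φ (((1 : K) ⊗ₜ[F] d) * y - y * ((1 : K) ⊗ₜ[F] d))).support ⊂
          (φ z).support := by
        rw [Finset.ssubset_iff_of_subset]
        · refine ⟨i₀, Finsupp.mem_support_iff.2 hi₀, ?_⟩
          rw [Finsupp.notMem_support_iff, hwi, hy1, mul_one, one_mul, sub_self]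
        · intro i hi
          rw [Finsupp.mem_support_iff, hwi] at hi
          rw [Finsupp.mem_support_iff]
          intro h0
          apply hi
          rw [hys i h0, mul_zero, zero_mul, sub_self]
      exact absurd (Finset.card_lt_card h2) (not_lt.2 h1)
    intro i
    have h1 := hwi i
    rw [hw0, map_zero, Finsupp.zero_apply] at h1
    exact (sub_eq_zero.1 h1.symm).symm
  have hcen : ∀ i, ∃ a : F, algebraMap F A a = φ y i := by
    intro i
    have h1 : φ y i ∈ Subalgebra.center F A := by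
      rw [Subalgebra.mem_center_iff]
      intro d
      exact (hcomm d i).symm
    rw [Algebra.IsCentral.center_eq_bot, Algebra.mem_bot] at h1
    exact h1
  choose a ha using hcen
  have hinj : Function.Injective (algebraMap F A) := (algebraMap F A).injective
  let f : Module.Basis.ofVectorSpaceIndex F K →₀ F := Finsupp.onFinset (φ y).support a (by
    intro i hi
    rw [Finsupp.mem_support_iff, ← ha]
    intro h0
    exact hi (hinj (by rw [h0, map_zero])))
  have hk : y = (B.repr.symm f) ⊗ₜ[F] (1 : A) := by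
    apply φ.injective
    ext i
    rw [hφ, LinearEquiv.apply_symm_apply, Algebra.smul_def, mul_one]
    exact (ha i).symm
  have hk0 : B.repr.symm f ≠ 0 := by
    intro h0
    rw [h0, TensorProduct.zero_tmul] at hk
    rw [hk, map_zero, Finsupp.zero_apply] at hy1
    exact zero_ne_one hy1
  have h1 : ((B.repr.symm f)⁻¹ ⊗ₜ[F] (1 : A)) * y = 1 := by
    rw [hk, Algebra.TensorProduct.tmul_mul_tmul, inv_mul_cancel₀ hk0, mul_one,
      ← Algebra.TensorProduct.one_def]
  rw [← h1]
  exact I.mul_mem_left _ _ hy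


variable {F : Type} [Field F] [NumberField F] {K : Type} [Field K] [NumberField K] [Algebra F K]
  {A : UD F} {κ : K →ₐ[F] BF A}


private theorem EB_gen {ι F K E B D' : Type} [Finite ι] [Field F] [Field K] [Algebra F K] [Field E]
    (φ : F →+* E) (f : K →+* E) (hf : f.comp (algebraMap F K) = φ) [Ring B] [Algebra F B]
    [IsSimpleRing B] [Ring D'] [Algebra E D'] (b : Module.Basis ι F B)
    (b' : Module.Basis ι E D') (g : B →+* D')
    (hg : ∀ r : F, g (algebraMap F B r) = algebraMap E D' (φ r)) (hb : ∀ i, g (b i) = b' i)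
    (κ : K →ₐ[F] B) (com : ∀ (a : K) (x : B), κ a * x = x * κ a)
    (cen : ∀ x : B, (∀ y : B, x * y = y * x) → ∃ a : K, κ a = x) (m : ℕ)
    (hm : Module.finrank F B = Module.finrank F K * m) (hK : Module.finrank F K ≠ 0) :
    ∃ (C : Type) (_ : Ring C) (_ : Algebra E C) (p : D' →ₐ[E] C), IsSimpleRing C ∧
      FiniteDimensional E C ∧ Module.finrank E C = m ∧ Function.Surjective p ∧
      ∀ a, p (g (κ a)) = algebraMap E C (f a) := by
  let _ : Algebra F E := φ.toAlgebra
  let _ : Algebra F D' := Algebra.compHom _ (algebraMap F E)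
  have : IsScalarTower F E D' := IsScalarTower.of_algebraMap_eq fun _ => rfl
  let _ : Algebra K E := f.toAlgebra
  have : IsScalarTower F K E := IsScalarTower.of_algebraMap_eq fun x =>
    (congrArg (fun h : F →+* E => h x) hf).symm
  let _ : Algebra K B := RingHom.toAlgebra' κ.toRingHom com
  have hKB : ∀ a : K, algebraMap K B a = κ a := fun _ => rfl
  have : IsScalarTower F K B := IsScalarTower.of_algebraMap_eq fun x => by
    rw [hKB, AlgHom.commutes]
  have : Algebra.IsCentral K B := by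
    constructor
    intro x hx
    obtain ⟨r, hr⟩ := cen x fun y => (Subalgebra.mem_center_iff.1 hx y).symm
    rw [Algebra.mem_bot]
    exact ⟨r, hr⟩
  have hs := isSimpleRing_tensor' K E B
  have hFB : Module.Finite F B := Module.Finite.of_basis b
  have hfin : Module.Finite K B := Module.Finite.of_restrictScalars_finite F K B
  let g' : B →ₐ[F] D' := { g with commutes' := hg }
  let e₀ : E ⊗[F] B →ₐ[E] D' :=
    Algebra.TensorProduct.lift (Algebra.ofId E _) g' fun x y => Algebra.commutes x (g y)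
  have he₀ : e₀.toLinearMap = ((Algebra.TensorProduct.basis E b).equiv b' (Equiv.refl ι)).toLinearMap := by
    apply (Algebra.TensorProduct.basis E b).ext
    intro i
    rw [LinearEquiv.coe_coe, Module.Basis.equiv_apply, Algebra.TensorProduct.basis_apply]
    change e₀ ((1 : E) ⊗ₜ[F] b i) = b' i
    rw [Algebra.TensorProduct.lift_tmul, map_one, one_mul]
    exact hb i
  have hbij : Function.Bijective e₀ := by
    have h1 : (e₀ : E ⊗[F] B → D') =
        ((Algebra.TensorProduct.basis E b).equiv b' (Equiv.refl ι)) := by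
      funext x
      exact congrArg (fun h : E ⊗[F] B →ₗ[E] D' => h x) he₀
    rw [h1]
    exact LinearEquiv.bijective _
  let e : E ⊗[F] B ≃ₐ[E] D' := AlgEquiv.ofBijective e₀ hbij
  have he : ∀ x : B, e ((1 : E) ⊗ₜ[F] x) = g x := by
    intro x
    change e₀ ((1 : E) ⊗ₜ[F] x) = g x
    rw [Algebra.TensorProduct.lift_tmul, map_one, one_mul]
    rfl
  have he' : ∀ x : B, e.symm (g x) = (1 : E) ⊗ₜ[F] x := by
    intro x
    rw [← he, AlgEquiv.symm_apply_apply]
  let q : E ⊗[F] B →ₐ[E] E ⊗[K] B :=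
    Algebra.TensorProduct.lift (Algebra.TensorProduct.includeLeft)
      ((Algebra.TensorProduct.includeRight : B →ₐ[K] E ⊗[K] B).restrictScalars F) fun x y => by
        change Commute (x ⊗ₜ[K] (1 : B)) ((1 : E) ⊗ₜ[K] y)
        change (x ⊗ₜ[K] (1 : B)) * ((1 : E) ⊗ₜ[K] y) = ((1 : E) ⊗ₜ[K] y) * (x ⊗ₜ[K] (1 : B))
        rw [Algebra.TensorProduct.tmul_mul_tmul, Algebra.TensorProduct.tmul_mul_tmul, one_mul,
          mul_one, one_mul, mul_one]
  have hq : ∀ (x : E) (y : B), q (x ⊗ₜ[F] y) = x ⊗ₜ[K] y := by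
    intro x y
    rw [Algebra.TensorProduct.lift_tmul]
    change (x ⊗ₜ[K] (1 : B)) * ((1 : E) ⊗ₜ[K] y) = x ⊗ₜ[K] y
    rw [Algebra.TensorProduct.tmul_mul_tmul, one_mul, mul_one]
  have hqs : Function.Surjective q := by
    intro z
    induction z using TensorProduct.induction_on with
    | zero => exact ⟨0, map_zero q⟩
    | tmul x y => exact ⟨x ⊗ₜ[F] y, hq x y⟩
    | add x y hx hy =>
      obtain ⟨x', rfl⟩ := hx
      obtain ⟨y', rfl⟩ := hy
      exact ⟨x' + y', map_add q _ _⟩
  refine ⟨E ⊗[K] B, inferInstance, inferInstance, q.comp e.symm.toAlgHom, hs, inferInstance, ?_, ?_,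
    ?_⟩
  · rw [Module.finrank_baseChange]
    have h1 := Module.finrank_mul_finrank F K B
    rw [hm] at h1
    exact Nat.eq_of_mul_eq_mul_left (Nat.pos_of_ne_zero hK) h1
  · exact hqs.comp e.symm.surjective
  · intro a
    change q (e.symm (g (κ a))) = algebraMap E (E ⊗[K] B) (f a)
    rw [he', hq, ← hKB, Algebra.algebraMap_eq_smul_one a, TensorProduct.tmul_smul,
      TensorProduct.smul_tmul', Algebra.TensorProduct.algebraMap_apply, Algebra.smul_def, mul_one]
    rfl

private theorem EB_sc {ι F K E : Type} [Fintype ι] [DecidableEq ι] [Field F] [Field K]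
    [Algebra F K] [Field E] (s : SC ι F) (φ : F →+* E) (f : K →+* E)
    (hf : f.comp (algebraMap F K) = φ) (hsim : IsSimpleRing s.Alg) (κ : K →ₐ[F] s.Alg)
    (com : ∀ (a : K) (x : s.Alg), κ a * x = x * κ a)
    (cen : ∀ x : s.Alg, (∀ y : s.Alg, x * y = y * x) → ∃ a : K, κ a = x) (m : ℕ)
    (hm : Fintype.card ι = Module.finrank F K * m) (hK : Module.finrank F K ≠ 0) :
    ∃ (C : Type) (_ : Ring C) (_ : Algebra E C) (p : (s.map φ).Alg →ₐ[E] C), IsSimpleRing C ∧
      FiniteDimensional E C ∧ Module.finrank E C = m ∧ Function.Surjective p ∧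
      ∀ a, p (s.hom φ (κ a)) = algebraMap E C (f a) := by
  refine EB_gen φ f hf (B := s.Alg) (D' := (s.map φ).Alg) (Module.Basis.ofEquivFun s.lin)
    (Module.Basis.ofEquivFun (s.map φ).lin) (s.hom φ) ?_ ?_ κ com cen m ?_ hK
  · intro r
    apply SC.Alg.ext
    intro i
    exact map_mul φ r (s.u i)
  · intro i
    have h1 : (Module.Basis.ofEquivFun s.lin) i = (Pi.single i (1 : F) : ι → F) :=
      congrFun (Module.Basis.coe_ofEquivFun s.lin) i
    have h2 : (Module.Basis.ofEquivFun (s.map φ).lin) i = (Pi.single i (1 : E) : ι → E) :=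
      congrFun (Module.Basis.coe_ofEquivFun (s.map φ).lin) i
    refine ((congrArg (s.hom φ) h1).trans ?_).trans h2.symm
    apply SC.Alg.ext
    intro j
    change φ ((Pi.single i (1 : F) : ι → F) j) = (Pi.single i (1 : E) : ι → E) j
    rw [Pi.single_apply, Pi.single_apply]
    split_ifs
    · exact map_one φ
    · exact map_zero φ
  · rw [← hm]
    have h : Module.finrank F (ι → F) = Fintype.card ι := Module.finrank_fintype_fun_eq_card F
    exact h

/-- PROOF. `BF A` is a `K`-algebra by `κ` (`RingHom.toAlgebra'`, `hU.com`), central over `K` (`hU.cen`), simple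
(`hU.sim`), of dimension `n ^ 2` over `K` (`2 n ^ 2` over `F`, `[K : F] = 2`: `Module.finrank_mul_finrank`). Let
`C = E ⊗[K] BF A` with `E` a `K`-algebra by `f`; it is simple (`isSimpleRing_tensor'`), of dimension `n ^ 2` over `E`. The
homomorphism `p` maps the element with coordinates `c i` to `∑ c i ⊗ e_i`, `e_i` the basis of `BF A` over `F` (one way: `BE A φ`
is a base change: it suffices to check `p (bE x) = 1 ⊗ x`, that `p` is `E`-linear and multiplicative on the basis
`bE e_i`). It is onto since the `1 ⊗ x` generate. See the proof of `CGN.simple_DE` (`KYA_gen`) in `CGN/KInf.lean`. -/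
theorem exists_fac (hU : IsUni A κ) (hn : 1 ≤ A.n) {E : Type} [Field E] (φ : F →+* E)
    (f : K →+* E) (hf : f.comp (algebraMap F K) = φ) :
    ∃ (C : Type) (_ : Ring C) (_ : Algebra E C) (p : BE A φ →ₐ[E] C), IsSimpleRing C ∧
      FiniteDimensional E C ∧ Module.finrank E C = A.n ^ 2 ∧ Function.Surjective p ∧
      ∀ a, p (bE A φ (κ a)) = algebraMap E C (f a) := by
  refine EB_sc A.sF.toSC φ f hf hU.sim κ hU.com hU.cen (A.n ^ 2) ?_ ?_
  · rw [hU.deg, Fintype.card_prod, Fintype.card_prod, Fintype.card_fin, Fintype.card_fin, sq]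
  · rw [hU.deg]
    norm_num



private theorem EC1_F (κ : K →ₐ[F] BF A) (x : F) :
    star (κ (algebraMap F K x)) = κ (algebraMap F K x) := by
  rw [AlgHom.commutes, Algebra.algebraMap_eq_smul_one, star_smul_alg, star_one]

/-- PROOF. By `hU.kind` there is `a` with `star (κ a) ≠ κ a`; `star (κ a)` is central, so it is `κ b` (`hU.cen`).
`δ = a - b`. `star (κ (δ * δ)) = κ (δ * δ)`; every element of `K` is `x + y δ` with `x, y` in `F` (`1, δ` are linearly
independent over `F` since `star` is the identity on the image of `F` and not on `κ δ`, and the degree is `2`), and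
`star (κ (x + y δ)) = κ (x - y δ)`, so `δ * δ` is in `F`. -/
theorem exists_delta (hU : IsUni A κ) : ∃ δ : K, δ ≠ 0 ∧ star (κ δ) = - κ δ ∧
    (∃ d : F, δ * δ = algebraMap F K d) ∧
    ∀ a : K, ∃ x y : F, a = algebraMap F K x + algebraMap F K y * δ := by
  have hsim := hU.sim
  have hinj : Function.Injective κ := κ.toRingHom.injective
  obtain ⟨a, ha⟩ := hU.kind
  obtain ⟨b, hb⟩ := hU.cen (star (κ a)) fun y => by
    have h1 := congrArg star (hU.com a (star y))
    rw [star_mul, star_mul, star_star] at h1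
    exact h1.symm
  have hb' : star (κ b) = κ a := by rw [hb, star_star]
  have hδ0 : a - b ≠ 0 := by
    intro h
    apply ha
    rw [← hb, ← sub_eq_zero.1 h]
  have hδs : star (κ (a - b)) = - κ (a - b) := by
    rw [map_sub, star_sub, hb', ← hb, neg_sub]
  obtain ⟨δ, hδ⟩ : ∃ δ, δ = a - b := ⟨_, rfl⟩
  rw [← hδ] at hδ0 hδs
  -- the involution
  have hst : ∀ x y : F, star (κ (algebraMap F K x + algebraMap F K y * δ)) =
      κ (algebraMap F K x - algebraMap F K y * δ) := by
    intro x y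
    rw [map_add, map_sub, map_mul, star_add, star_mul, EC1_F, EC1_F, hδs, neg_mul, hU.com,
      sub_eq_add_neg]
  have hind : ∀ x y : F, algebraMap F K x + algebraMap F K y * δ = 0 → x = 0 ∧ y = 0 := by
    intro x y h
    have h1 := hst x y
    rw [h, map_zero, star_zero] at h1
    have h2 : algebraMap F K x - algebraMap F K y * δ = 0 := by
      apply hinj
      rw [← h1, map_zero]
    have h3 : algebraMap F K x = 0 := by linear_combination (1 / 2 : K) * h + (1 / 2 : K) * h2
    have h4 : algebraMap F K y * δ = 0 := by linear_combination (1 / 2 : K) * h - (1 / 2 : K) * h2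
    refine ⟨(map_eq_zero _).1 h3, ?_⟩
    rcases mul_eq_zero.1 h4 with h5 | h5
    · exact (map_eq_zero _).1 h5
    · exact absurd h5 hδ0
  have hspan : ∀ c : K, ∃ x y : F, c = algebraMap F K x + algebraMap F K y * δ := by
    intro c
    have hli : LinearIndependent F ![(1 : K), δ] := by
      rw [LinearIndependent.pair_iff]
      intro s t h
      apply hind s t
      rw [← h, Algebra.smul_def, Algebra.smul_def, mul_one]
    have htop := hli.span_eq_top_of_card_eq_finrank' (by
      rw [Fintype.card_fin, hU.deg])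
    have hc : c ∈ Submodule.span F (Set.range ![(1 : K), δ]) := by
      rw [htop]
      trivial
    rw [Matrix.range_cons, Matrix.range_cons, Matrix.range_empty, Set.union_empty,
      Set.singleton_union, Submodule.mem_span_pair] at hc
    obtain ⟨x, y, h⟩ := hc
    refine ⟨x, y, ?_⟩
    rw [← h, Algebra.smul_def, Algebra.smul_def, mul_one]
  refine ⟨δ, hδ0, hδs, ?_, hspan⟩
  obtain ⟨x, y, h⟩ := hspan (δ * δ)
  have h1 : star (κ (δ * δ)) = κ (δ * δ) := by
    rw [map_mul, star_mul, hδs, neg_mul_neg]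
  rw [h, hst] at h1
  have h2 := hinj h1
  have h3 : algebraMap F K y * δ = 0 := by linear_combination (-1 / 2 : K) * h2
  exact ⟨x, by rw [h, h3, add_zero]⟩



private theorem K_EC2_two {E : Type} [Field E] (φ : F →+* E) : (2 : E) ≠ 0 := by
  have h : φ 2 = 2 := map_ofNat φ 2
  rw [← h]
  exact (map_ne_zero φ).2 two_ne_zero

private theorem K_EC2_finrank (A : UD F) {E : Type} [Field E] (φ : F →+* E) :
    Module.finrank E (BE A φ) = 2 * A.n ^ 2 := by
  have h : Module.finrank E (Fin 2 × Fin A.n × Fin A.n → E) = 2 * A.n ^ 2 := by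
    rw [Module.finrank_fintype_fun_eq_card, Fintype.card_prod, Fintype.card_prod, Fintype.card_fin,
      Fintype.card_fin, sq]
  exact h

private theorem K_EC2_finrank' (A : UD F) {E : Type} [Field E] (φ : F →+* E) :
    @Module.finrank E (BE A φ) _ _ Algebra.toModule = 2 * A.n ^ 2 := K_EC2_finrank A φ

private theorem K_EC2_fin' (A : UD F) {E : Type} [Field E] (φ : F →+* E) :
    @Module.Finite E (BE A φ) _ _ Algebra.toModule :=
  inferInstanceAs (Module.Finite E (Fin 2 × Fin A.n × Fin A.n → E))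

/-- the idempotent attached to `f` -/
private theorem K_EC2_eps (hU : IsUni A κ) {E : Type} [Field E] (φ : F →+* E) (f : K →+* E)
    {C : Type} [Ring C] [Algebra E C] (p : BE A φ →ₐ[E] C)
    (hp : ∀ a, p (bE A φ (κ a)) = algebraMap E C (f a)) (δ : K) (hδ : δ ≠ 0)
    (hs : star (κ δ) = - κ δ) : ∃ ε : BE A φ,
    ε = (2 : E)⁻¹ • (1 + (f δ)⁻¹ • bE A φ (κ δ)) ∧ ε + star ε = 1 ∧ p ε = 1 ∧ p (star ε) = 0 := by
  have hr : f δ ≠ 0 := (map_ne_zero f).2 hδ
  have h2 : (2 : E) ≠ 0 := K_EC2_two φ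
  have hst : star (bE A φ (κ δ)) = -bE A φ (κ δ) := by
    rw [← bE_star, hs, map_neg]
  have h3 : star ((2 : E)⁻¹ • (1 + (f δ)⁻¹ • bE A φ (κ δ)) : BE A φ) =
      (2 : E)⁻¹ • (1 - (f δ)⁻¹ • bE A φ (κ δ)) := by
    rw [star_smul_alg, star_add, star_one, star_smul_alg, hst, smul_neg, sub_eq_add_neg]
  have hpd : p ((f δ)⁻¹ • bE A φ (κ δ)) = 1 := by
    rw [map_smul, hp, Algebra.smul_def, ← map_mul, inv_mul_cancel₀ hr, map_one]
  refine ⟨_, rfl, ?_, ?_, ?_⟩
  · rw [h3, ← smul_add, add_add_sub_cancel, ← two_smul E (1 : BE A φ), smul_smul,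
      inv_mul_cancel₀ h2, one_smul]
  · rw [map_smul, map_add, map_one, hpd, ← two_smul E (1 : C), smul_smul, inv_mul_cancel₀ h2,
      one_smul]
  · rw [h3, map_smul, map_sub, map_one, hpd, sub_self, smul_zero]

/-- PROOF. Let `r = f δ ≠ 0`, `ε = (1 + r⁻¹ δ) / 2` in `BE A φ` (with `δ` for `bE (κ δ)`), a central element with
`p ε = 1`, `p (star ε) = p ((1 - r⁻¹ δ) / 2) = 0`. Onto: for `x, y` the element `z = x ε + star y * star ε` has `p z = p x`,
`p (star z) = p (star ε * star x + ε * y) = p y`. The dimensions of both sides are `2 n ^ 2`, so the (linear) map is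
bijective. -/
theorem pair_bijR (hU : IsUni A κ) {E : Type} [Field E] (φ : F →+* E) (f : K →+* E)
    (hf : f.comp (algebraMap F K) = φ) {C : Type} [Ring C] [Algebra E C] [FiniteDimensional E C]
    (p : BE A φ →ₐ[E] C) (hs : Function.Surjective p) (hC : Module.finrank E C = A.n ^ 2)
    (hp : ∀ a, p (bE A φ (κ a)) = algebraMap E C (f a)) :
    Function.Bijective fun x : BE A φ => (p x, p (star x)) := by
  obtain ⟨δ, hδ, hδs, -, -⟩ := exists_delta hU
  obtain ⟨ε, -, -, h1, h2⟩ := K_EC2_eps hU φ f p hp δ hδ hδs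
  let L : BE A φ →ₗ[E] C × C := p.toLinearMap.prod (p.toLinearMap ∘ₗ (A.sF.map φ).stLin)
  have hL : ∀ x, L x = (p x, p (star x)) := fun x => rfl
  have hsur : Function.Surjective L := by
    rintro ⟨a, b⟩
    obtain ⟨x, rfl⟩ := hs a
    obtain ⟨y, rfl⟩ := hs b
    refine ⟨x * ε + star y * star ε, ?_⟩
    rw [hL]
    refine Prod.ext ?_ ?_
    · change p (x * ε + star y * star ε) = p x
      rw [map_add, map_mul, map_mul, h1, h2, mul_one, mul_zero, add_zero]
    · change p (star (x * ε + star y * star ε)) = p y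
      rw [star_add, star_mul, star_mul, star_star, star_star, map_add, map_mul, map_mul, h1, h2,
        zero_mul, one_mul, zero_add]
  have hfr : Module.finrank E (BE A φ) = Module.finrank E (C × C) := by
    rw [K_EC2_finrank, Module.finrank_prod, hC, two_mul]
  exact ⟨(LinearMap.injective_iff_surjective_of_finrank_eq_finrank hfr).2 hsur, hsur⟩



private theorem K_ED1_one {C : Type} [Ring C] [IsSimpleRing C] (S : Set C) (h0 : (0 : C) ∈ S)
    (ha : ∀ x ∈ S, ∀ y ∈ S, x + y ∈ S) (hn : ∀ x ∈ S, -x ∈ S) (hl : ∀ c, ∀ x ∈ S, c * x ∈ S)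
    (hr : ∀ c, ∀ x ∈ S, x * c ∈ S) {c : C} (hc : c ∈ S) (hc0 : c ≠ 0) : (1 : C) ∈ S := by
  let J : TwoSidedIdeal C := TwoSidedIdeal.mk' S h0 (fun {x y} hx hy => ha x hx y hy)
    (fun {x} hx => hn x hx) (fun {x y} hy => hl x y hy) (fun {x y} hx => hr y x hx)
  have hJ : ∀ x, x ∈ J ↔ x ∈ S := fun x => TwoSidedIdeal.mem_mk' _ _ _ _ _ _ _
  rcases eq_bot_or_eq_top J with h | h
  · have h1 := (hJ c).2 hc
    rw [h, TwoSidedIdeal.mem_bot] at h1
    exact absurd h1 hc0
  · refine (hJ 1).1 ?_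
    rw [h]
    trivial

/-- the conjugation of `K` -/
private theorem K_ED1_conj (hU : IsUni A κ) : ∃ c : K →+* K, c.comp (algebraMap F K) =
    algebraMap F K ∧ ∀ a, star (κ a) = κ (c a) := by
  have hsim := hU.sim
  have hnt : Nontrivial (BF A) := inferInstance
  have hinj : Function.Injective κ := κ.toRingHom.injective
  have h1 : ∀ a : K, ∃ b : K, κ b = star (κ a) := by
    intro a
    refine hU.cen _ fun y => ?_
    have h2 := congrArg star (hU.com a (star y))
    rw [star_mul, star_mul, star_star] at h2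
    exact h2.symm
  choose c hc using h1
  refine ⟨{ toFun := c, map_one' := ?_, map_mul' := ?_, map_zero' := ?_, map_add' := ?_ }, ?_, ?_⟩
  · apply hinj
    rw [hc, map_one, star_one]
  · intro a b
    apply hinj
    rw [hc, map_mul, map_mul, hc, hc, star_mul, ← hc a, ← hc b, ← map_mul, ← map_mul, mul_comm]
  · apply hinj
    rw [hc, map_zero, star_zero]
  · intro a b
    apply hinj
    rw [hc, map_add, map_add, hc, hc, star_add]
  · apply RingHom.ext
    intro x
    apply hinj
    change κ (c (algebraMap F K x)) = κ (algebraMap F K x)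
    rw [hc, AlgHom.commutes, Algebra.algebraMap_eq_smul_one, star_smul_alg, star_one]
  · intro a
    exact (hc a).symm

/-- PROOF. Let `δ`, `d` be as in `exists_delta`, `r = f δ`, so `r * r = φ d`, `r ≠ 0`, and let `f₊ = f` and
`f₋ : K →+* ℝ` over `φ` with `f₋ δ = - r` (`x + y δ ↦ φ x - φ y r`, i.e. `f` composed with the automorphism
`x + y δ ↦ x - y δ`; one way: `star (κ a) = κ (c a)`, `f₋ = f ∘ c`). Let `p₊ : BE → C₊`, `p₋ : BE → C₋` be as in
`exists_fac`, `ε₊ = (1 + r⁻¹ δ) / 2`, `ε₋ = 1 - ε₊` (central idempotents, `star ε₊ = ε₋`). `p₊ ε₋ = 0`, `p₋ ε₊ = 0`, and an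
element `x` with `p₊ x = 0` is in `BE ε₋`, i.e. `x ε₊ = 0`: by `pair_bijR` for `p₊`, as
`p₊ (x ε₊) = 0` and `p₊ (star (x ε₊)) = p₊ (ε₋ star x) = 0` (the same for `p₋`). Let `I` be the kernel of `H`. If `ε₊` is not
in `I` then `p₊ x = 0` for all `x` in `I`: `p₊ (I)` is a two-sided ideal of the simple ring `C₊` (`p₊` is onto); if it is not
`0` it contains `1 = p₊ x`, `x` in `I`, `p₊ (x - 1) = 0`, so `(x - 1) ε₊ = 0` and `ε₊ = x ε₊` is in `I`. The same for
`ε₋`. If neither `ε₊` nor `ε₋` are in `I` then `I = 0`, `H` is injective, `2 n ^ 2 ≤ n ^ 2`, a contradiction. So one of them,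
for example `ε₋`, is in `I` (then `f' = f₊`), `H δ = r`, and `ε₊` is not in `I` (as `1` is not, `n ≥ 1`), so `I` is the kernel
of `p₊` (`x` with `p₊ x = 0` is `x ε₋`), the dimension of the image of `H` is `2 n ^ 2 - n ^ 2 = n ^ 2`, `H` is onto. For
`a = x + y δ`: `H (κ a) = φ x + φ y r = f' a`. -/
theorem hom_split (hU : IsUni A κ) (hn : 1 ≤ A.n) (φ : F →+* ℝ)
    (H : BE A φ →ₐ[ℝ] Matrix (Fin A.n) (Fin A.n) ℝ) (f : K →+* ℝ)
    (hf : f.comp (algebraMap F K) = φ) : ∃ f' : K →+* ℝ,
    f'.comp (algebraMap F K) = φ ∧ Function.Surjective H ∧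
    ∀ a, H (bE A φ (κ a)) = algebraMap ℝ (Matrix (Fin A.n) (Fin A.n) ℝ) (f' a) := by
  have hne : Nonempty (Fin A.n) := ⟨⟨0, hn⟩⟩
  obtain ⟨δ, hδ, hδs, ⟨d, hd⟩, hb⟩ := exists_delta hU
  obtain ⟨C, hC1, hC2, p, hsim, hfd, hfr, hps, hp⟩ := exists_fac hU hn φ f hf
  obtain ⟨ε, hε, hε1, h1, h2⟩ := K_EC2_eps hU φ f p hp δ hδ hδs
  have hbij := pair_bijR hU φ f hf p hps hfr hp
  have hinj : ∀ x y : BE A φ, p x = p y → p (star x) = p (star y) → x = y := by
    intro x y h3 h4
    exact hbij.1 (Prod.ext h3 h4)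
  have hr : f δ ≠ 0 := (map_ne_zero f).2 hδ
  have hfrM : Module.finrank ℝ (Matrix (Fin A.n) (Fin A.n) ℝ) = A.n ^ 2 := by
    rw [Module.finrank_matrix, Fintype.card_fin, Module.finrank_self, mul_one, sq]
  -- the first ideal
  have hI1 : ∀ x, H x = 0 → p x ≠ 0 → H ε = 0 := by
    intro x hx hpx
    obtain ⟨y, hy, hy1⟩ := K_ED1_one (C := C) {c | ∃ x, H x = 0 ∧ p x = c}
      ⟨0, map_zero H, map_zero p⟩
      (by
        rintro _ ⟨x, hx, rfl⟩ _ ⟨y, hy, rfl⟩
        exact ⟨x + y, by rw [map_add, hx, hy, add_zero], map_add p x y⟩)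
      (by
        rintro _ ⟨x, hx, rfl⟩
        exact ⟨-x, by rw [map_neg, hx, neg_zero], map_neg p x⟩)
      (by
        rintro c _ ⟨x, hx, rfl⟩
        obtain ⟨b, rfl⟩ := hps c
        exact ⟨b * x, by rw [map_mul, hx, mul_zero], map_mul p b x⟩)
      (by
        rintro c _ ⟨x, hx, rfl⟩
        obtain ⟨b, rfl⟩ := hps c
        exact ⟨x * b, by rw [map_mul, hx, zero_mul], map_mul p x b⟩)
      ⟨x, hx, rfl⟩ hpx
    have h3 : y * ε = ε := by
      apply hinj
      · rw [map_mul, hy1, h1, mul_one]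
      · rw [star_mul, map_mul, h2, zero_mul]
    rw [← h3, map_mul, hy, zero_mul]
  have hI2 : ∀ x, H x = 0 → p (star x) ≠ 0 → H (star ε) = 0 := by
    intro x hx hpx
    obtain ⟨y, hy, hy1⟩ := K_ED1_one (C := C) {c | ∃ x, H x = 0 ∧ p (star x) = c}
      ⟨0, map_zero H, by rw [star_zero, map_zero]⟩
      (by
        rintro _ ⟨x, hx, rfl⟩ _ ⟨y, hy, rfl⟩
        exact ⟨x + y, by rw [map_add, hx, hy, add_zero], by rw [star_add, map_add]⟩)
      (by
        rintro _ ⟨x, hx, rfl⟩
        exact ⟨-x, by rw [map_neg, hx, neg_zero], by rw [star_neg, map_neg]⟩)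
      (by
        rintro c _ ⟨x, hx, rfl⟩
        obtain ⟨b, rfl⟩ := hps c
        exact ⟨x * star b, by rw [map_mul, hx, zero_mul], by rw [star_mul, star_star, map_mul]⟩)
      (by
        rintro c _ ⟨x, hx, rfl⟩
        obtain ⟨b, rfl⟩ := hps c
        exact ⟨star b * x, by rw [map_mul, hx, mul_zero], by rw [star_mul, star_star, map_mul]⟩)
      ⟨x, hx, rfl⟩ hpx
    have h3 : y * star ε = star ε := by
      apply hinj
      · rw [map_mul, h2, mul_zero]
      · rw [star_mul, star_star, map_mul, hy1, mul_one]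
    rw [← h3, map_mul, hy, zero_mul]
  have hnot : H ε = 0 → H (star ε) = 0 → False := by
    intro h3 h4
    have h5 : H (ε + star ε) = 1 := by rw [hε1, map_one]
    rw [map_add, h3, h4, add_zero] at h5
    exact zero_ne_one h5
  -- surjectivity from a bound of the kernel
  have hsur : ∀ q : BE A φ →ₗ[ℝ] C, Function.Surjective q → (∀ x, H x = 0 → q x = 0) →
      Function.Surjective H := by
    intro q hq hker
    have hfB := K_EC2_fin' A φ
    have h3 : LinearMap.ker H.toLinearMap ≤ LinearMap.ker q := fun x hx => hker x hx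
    have h4 := Submodule.finrank_mono h3
    have h5 := LinearMap.finrank_range_add_finrank_ker H.toLinearMap
    have h6 := LinearMap.finrank_range_add_finrank_ker q
    rw [LinearMap.range_eq_top.2 hq, finrank_top, hfr] at h6
    replace h6 := h6.trans (K_EC2_finrank A φ)
    replace h5 := h5.trans (K_EC2_finrank A φ)
    have h7 : Module.finrank ℝ (LinearMap.range H.toLinearMap) =
        Module.finrank ℝ (Matrix (Fin A.n) (Fin A.n) ℝ) := by
      have h8 := Submodule.finrank_le (LinearMap.range H.toLinearMap)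
      rw [hfrM] at h8 ⊢
      omega
    have h9 := Submodule.eq_top_of_finrank_eq h7
    exact LinearMap.range_eq_top.1 h9
  -- the value on `K`
  have hval : ∀ f' : K →+* ℝ, f'.comp (algebraMap F K) = φ →
      H (bE A φ (κ δ)) = algebraMap ℝ (Matrix (Fin A.n) (Fin A.n) ℝ) (f' δ) →
      ∀ a, H (bE A φ (κ a)) = algebraMap ℝ (Matrix (Fin A.n) (Fin A.n) ℝ) (f' a) := by
    intro f' hf' hδ' a
    obtain ⟨x, y, rfl⟩ := hb a
    have h3 : ∀ x : F, H (bE A φ (κ (algebraMap F K x))) =
        algebraMap ℝ (Matrix (Fin A.n) (Fin A.n) ℝ) (f' (algebraMap F K x)) := by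
      intro x
      have h4 : bE A φ (κ (algebraMap F K x)) = algebraMap ℝ (BE A φ) (φ x) := by
        rw [AlgHom.commutes, Algebra.algebraMap_eq_smul_one, Algebra.algebraMap_eq_smul_one]
        apply SC.Alg.ext
        intro i
        exact map_mul φ x (A.sF.u i)
      have h5 : f' (algebraMap F K x) = φ x := by
        rw [← hf']
        rfl
      rw [h4, AlgHom.commutes, h5]
    rw [map_add, map_add, map_add, map_add, map_add, map_mul, map_mul, map_mul, map_mul, map_mul,
      h3, h3, hδ']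
  have hD : bE A φ (κ δ) = (f δ) • ((2 : ℝ) • ε - 1) := by
    rw [hε, smul_smul, mul_inv_cancel₀ (two_ne_zero : (2 : ℝ) ≠ 0), one_smul, add_sub_cancel_left,
      smul_smul, mul_inv_cancel₀ hr, one_smul]
  have hHD : H (bE A φ (κ δ)) = (f δ) • ((2 : ℝ) • H ε - 1) := by
    rw [hD, map_smul, map_sub, map_smul, map_one]
  by_cases hcase : H ε = 0
  · obtain ⟨c, hc1, hc2⟩ := K_ED1_conj hU
    have hcδ : c δ = -δ := by
      have hsimB := hU.sim
      have hnt : Nontrivial (BF A) := inferInstance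
      have h3 : κ (c δ) = κ (-δ) := by rw [← hc2, hδs, map_neg]
      exact κ.toRingHom.injective h3
    refine ⟨f.comp c, by rw [RingHom.comp_assoc, hc1, hf], ?_, hval _ (by
      rw [RingHom.comp_assoc, hc1, hf]) ?_⟩
    · refine hsur (p.toLinearMap ∘ₗ (A.sF.map φ).stLin) ?_ ?_
      · intro c
        obtain ⟨x, rfl⟩ := hps c
        refine ⟨star x, ?_⟩
        change p (star (star x)) = p x
        rw [star_star]
      · intro x hx
        by_contra h3
        exact hnot hcase (hI2 x hx h3)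
    · rw [hHD, hcase, smul_zero, zero_sub, RingHom.comp_apply, hcδ, map_neg, map_neg, smul_neg,
        Algebra.algebraMap_eq_smul_one]
  · have h4 : H (star ε) = 0 := by
      -- the kernel of `H` is not trivial
      have h5 : ¬ Function.Injective H.toLinearMap := by
        intro h5
        have h6 := LinearMap.finrank_le_finrank_of_injective h5
        rw [K_EC2_finrank', hfrM] at h6
        have h7 : 0 < A.n ^ 2 := pow_pos hn 2
        omega
      have h6 : ∃ x : BE A φ, x ≠ 0 ∧ H x = 0 := by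
        by_contra h7
        push Not at h7
        apply h5
        rw [← LinearMap.ker_eq_bot, LinearMap.ker_eq_bot']
        intro x hx
        by_contra h8
        exact h7 x h8 hx
      obtain ⟨x, hx0, hx⟩ := h6
      have h7 : p x = 0 := by
        by_contra h8
        exact hcase (hI1 x hx h8)
      refine hI2 x hx fun h8 => hx0 ?_
      apply hinj
      · rw [h7, map_zero]
      · rw [h8, star_zero, map_zero]
    have h5 : H ε = 1 := by
      have h6 : H (ε + star ε) = 1 := by rw [hε1, map_one]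
      rwa [map_add, h4, add_zero] at h6
    refine ⟨f, hf, ?_, hval f hf ?_⟩
    · refine hsur p.toLinearMap hps ?_
      intro x hx
      by_contra h3
      exact hcase (hI1 x hx h3)
    · rw [hHD, h5, two_smul, add_sub_cancel_right, Algebra.algebraMap_eq_smul_one]



private theorem K_ED2_lift (hU : IsUni A κ) (φ : F →+* ℂ) : ∃ g : K →+* ℂ,
    g.comp (algebraMap F K) = φ := by
  have hfin : FiniteDimensional F K := by
    apply Module.finite_of_finrank_pos
    rw [hU.deg]
    exact two_pos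
  have halg : Algebra.IsAlgebraic F K := inferInstance
  let _ : Algebra F ℂ := φ.toAlgebra
  let g : K →ₐ[F] ℂ := IsAlgClosed.lift
  refine ⟨g.toRingHom, ?_⟩
  apply RingHom.ext
  intro x
  exact g.commutes x

/-- PROOF. Let `δ`, `d` be as in `exists_delta`. If `φ d > 0` then `x + y δ ↦ φ x + φ y sqrt (φ d)` is the wanted `f`
(`1, δ` is a basis of `K` over `F`). `φ d ≠ 0` as `δ ≠ 0`. If `φ d < 0` there is `g : K →+* ℂ` over `ofReal ∘ φ` with
`g δ = i sqrt (- φ d)`. With `p : BE A (ofReal ∘ φ) → C` of `exists_fac` for `E = ℂ` the composition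
`BE A φ → BE A (ofReal ∘ φ) → C` (the first map is `(A.sF.map φ).hom ofReal`) is a homomorphism of real algebras `P` onto the
simple ring `C`: the image is closed under the multiplication by `P δ = g δ`, so it is a complex subspace, it contains all
`p (bE x)`, and these generate `C` over `ℂ`. Both have dimension `2 n ^ 2` over `ℝ`, so `P` is bijective, `BE A φ` is
simple and `H` is injective (`n ≥ 1`), a contradiction to the dimensions `2 n ^ 2`, `n ^ 2`. -/
theorem hom_nonsplit (hU : IsUni A κ) (hn : 1 ≤ A.n) (φ : F →+* ℝ)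
    (H : BE A φ →ₐ[ℝ] Matrix (Fin A.n) (Fin A.n) ℝ) : ∃ f : K →+* ℝ,
    f.comp (algebraMap F K) = φ := by
  have hne : Nonempty (Fin A.n) := ⟨⟨0, hn⟩⟩
  obtain ⟨δ, hδ, hδs, ⟨d, hd⟩, hb⟩ := exists_delta hU
  obtain ⟨g, hg⟩ := K_ED2_lift hU (Complex.ofRealHom.comp φ)
  have hgF : ∀ x : F, g (algebraMap F K x) = (φ x : ℂ) := fun x =>
    congrArg (fun h : F →+* ℂ => h x) hg
  have hg2 : g δ * g δ = (φ d : ℂ) := by rw [← map_mul, hd, hgF]
  have him := congrArg Complex.im hg2
  have hre := congrArg Complex.re hg2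
  rw [Complex.mul_im, Complex.ofReal_im] at him
  rw [Complex.mul_re, Complex.ofReal_re] at hre
  by_cases hcase : (g δ).im = 0
  · -- `g` is real
    have hreal : ∀ a, (g a).im = 0 := by
      intro a
      obtain ⟨x, y, rfl⟩ := hb a
      rw [map_add, map_mul, hgF, hgF, Complex.add_im, Complex.mul_im, hcase, Complex.ofReal_im,
        Complex.ofReal_im]
      ring
    refine ⟨{
      toFun := fun a => (g a).re
      map_one' := ?_
      map_mul' := ?_
      map_zero' := ?_
      map_add' := ?_ }, ?_⟩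
    · rw [map_one, Complex.one_re]
    · intro a b
      rw [map_mul, Complex.mul_re, hreal a, zero_mul, sub_zero]
    · rw [map_zero, Complex.zero_re]
    · intro a b
      rw [map_add, Complex.add_re]
    · apply RingHom.ext
      intro x
      change (g (algebraMap F K x)).re = φ x
      rw [hgF, Complex.ofReal_re]
  · exfalso
    have hre0 : (g δ).re = 0 := by
      have h1 : (g δ).re * (g δ).im = 0 := by linarith
      exact (mul_eq_zero.1 h1).resolve_right hcase
    obtain ⟨C, hC1, hC2, p, hsim, hfd, hfr, hps, hp⟩ :=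
      exists_fac hU hn (Complex.ofRealHom.comp φ) g hg
    let ι : BE A φ →+* BE A (Complex.ofRealHom.comp φ) := (A.sF.map φ).hom Complex.ofRealHom
    have hιco : ∀ (x : BE A φ) i, SC.Alg.co (ι x) i = ((SC.Alg.co x i : ℝ) : ℂ) := fun x i => rfl
    have hιs : ∀ (r : ℝ) (x : BE A φ), ι (r • x) = (r : ℂ) • ι x := by
      intro r x
      apply SC.Alg.ext
      intro i
      rw [hιco, SC.Alg.co_smul, SC.Alg.co_smul, hιco, Complex.ofReal_mul]
    have hιb : ∀ x : BF A, ι (bE A φ x) = bE A (Complex.ofRealHom.comp φ) x := fun x => rfl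
    let P : BE A φ →ₗ[ℝ] C :=
      { toFun := fun x => p (ι x)
        map_add' := fun x y => by rw [map_add, map_add]
        map_smul' := fun r x => by
          rw [hιs, map_smul, RingHom.id_apply]
          rfl }
    have hPm : ∀ x y, P (x * y) = P x * P y := by
      intro x y
      change p (ι (x * y)) = p (ι x) * p (ι y)
      rw [map_mul, map_mul]
    have hP1 : P 1 = 1 := by
      change p (ι 1) = 1
      rw [map_one, map_one]
    have hPδ : P (((g δ).im)⁻¹ • bE A φ (κ δ)) = algebraMap ℂ C Complex.I := by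
      change p (ι (((g δ).im)⁻¹ • bE A φ (κ δ))) = _
      rw [hιs, map_smul, hιb, hp, Algebra.smul_def, ← map_mul]
      congr 1
      apply Complex.ext
      · simp [hre0]
      · simp [hcase]
    have hsur : Function.Surjective P := by
      intro c
      obtain ⟨y, rfl⟩ := hps c
      let u : BE A φ := SC.Alg.mk fun i => (SC.Alg.co y i).re
      let v : BE A φ := SC.Alg.mk fun i => (SC.Alg.co y i).im
      have hy : y = ι u + Complex.I • ι v := by
        apply SC.Alg.ext
        intro i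
        rw [SC.Alg.co_add, SC.Alg.co_smul, hιco, hιco]
        change _ = (((SC.Alg.co y i).re : ℝ) : ℂ) + Complex.I * (((SC.Alg.co y i).im : ℝ) : ℂ)
        rw [mul_comm, Complex.re_add_im]
      refine ⟨u + (((g δ).im)⁻¹ • bE A φ (κ δ)) * v, ?_⟩
      rw [map_add, hPm, hPδ]
      change p (ι u) + algebraMap ℂ C Complex.I * p (ι v) = p y
      rw [← Algebra.smul_def, ← map_smul, ← map_add, ← hy]
    have hfr2 : Module.finrank ℝ (BE A φ) = Module.finrank ℝ C := by
      rw [K_EC2_finrank, finrank_real_of_complex, hfr]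
    have hfdR : FiniteDimensional ℝ C := FiniteDimensional.complexToReal C
    have hinj : Function.Injective P :=
      (LinearMap.injective_iff_surjective_of_finrank_eq_finrank hfr2).2 hsur
    have h5 : ¬ Function.Injective H.toLinearMap := by
      intro h5
      have h6 := LinearMap.finrank_le_finrank_of_injective h5
      rw [K_EC2_finrank', Module.finrank_matrix, Fintype.card_fin, Module.finrank_self] at h6
      have h7 : 0 < A.n * A.n := Nat.mul_pos hn hn
      rw [sq] at h6
      omega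
    have h6 : ∃ x : BE A φ, x ≠ 0 ∧ H x = 0 := by
      by_contra h7
      push Not at h7
      apply h5
      rw [← LinearMap.ker_eq_bot, LinearMap.ker_eq_bot']
      intro x hx
      by_contra h8
      exact h7 x h8 hx
    obtain ⟨x, hx0, hx⟩ := h6
    have hPx : P x ≠ 0 := by
      intro h7
      apply hx0
      apply hinj
      rw [h7, map_zero]
    obtain ⟨y, hy, hy1⟩ := K_ED1_one (C := C) {c | ∃ x, H x = 0 ∧ P x = c}
      ⟨0, map_zero H, map_zero P⟩
      (by
        rintro _ ⟨x, hx, rfl⟩ _ ⟨y, hy, rfl⟩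
        exact ⟨x + y, by rw [map_add, hx, hy, add_zero], map_add P x y⟩)
      (by
        rintro _ ⟨x, hx, rfl⟩
        exact ⟨-x, by rw [map_neg, hx, neg_zero], map_neg P x⟩)
      (by
        rintro c _ ⟨x, hx, rfl⟩
        obtain ⟨b, rfl⟩ := hsur c
        exact ⟨b * x, by rw [map_mul, hx, mul_zero], hPm b x⟩)
      (by
        rintro c _ ⟨x, hx, rfl⟩
        obtain ⟨b, rfl⟩ := hsur c
        exact ⟨x * b, by rw [map_mul, hx, zero_mul], hPm x b⟩)
      ⟨x, hx, rfl⟩ hPx
    have h7 : y = 1 := hinj (hy1.trans hP1.symm)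
    rw [h7, map_one] at hy
    exact one_ne_zero hy


theorem spl_hom (hU : IsUni A κ) (hn : 1 ≤ A.n) (w : SPl A) : ∃ f : K →+* ℝ,
    f.comp (algebraMap F K) = w.emb ∧ Function.Surjective w.hom ∧
    ∀ a, w.hom (bE A w.emb (κ a)) = algebraMap ℝ (Matrix (Fin A.n) (Fin A.n) ℝ) (f a) := by
  obtain ⟨f, hf⟩ := hom_nonsplit hU hn w.emb w.hom
  exact hom_split hU hn w.emb w.hom f hf


/-- PROOF. `exists_fac` and `CGN.real_case` (the first case is impossible by `hw`, the number `m` is `n / 2`). -/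
theorem npl_hom (hU : IsUni A κ) (hn : 1 ≤ A.n) (w : RPl F) (f : K →+* ℝ)
    (hf : f.comp (algebraMap F K) = embR w)
    (hw : ¬ Nonempty (BE A (embR w) →ₐ[ℝ] Matrix (Fin A.n) (Fin A.n) ℝ)) :
    A.n = 2 * (A.n / 2) ∧
    ∃ p : BE A (embR w) →ₐ[ℝ] Matrix (Fin (A.n / 2)) (Fin (A.n / 2)) ℍ[ℝ],
      Function.Surjective p ∧ ∀ a, p (bE A (embR w) (κ a)) = algebraMap ℝ _ (f a) := by
  obtain ⟨C, hC1, hC2, p, hsim, hfd, hfr, hps, hp⟩ := exists_fac hU hn (embR w) f hf
  rcases CGN.real_case (A := C) hfr with h | ⟨m, hm, ⟨e⟩⟩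
  · obtain ⟨e⟩ := h
    exact absurd ⟨e.toAlgHom.comp p⟩ hw
  · have h1 : A.n / 2 = m := by omega
    subst h1
    refine ⟨hm, e.toAlgHom.comp p, e.surjective.comp hps, ?_⟩
    intro a
    change e (p (bE A (embR w) (κ a))) = _
    rw [hp, AlgEquiv.commutes]

/-- PROOF. There is `f` since `ℂ` is algebraically closed (`IsAlgClosed.lift` for `K` over `F`, `ℂ` an `F`-algebra by
the embedding). `exists_fac` and `CGN.complex_case`. -/
theorem cpl_hom (hU : IsUni A κ) (hn : 1 ≤ A.n) (w : CPl F) : ∃ f : K →+* ℂ,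
    f.comp (algebraMap F K) = w.1.embedding ∧
    ∃ p : BE A w.1.embedding →ₐ[ℂ] Matrix (Fin A.n) (Fin A.n) ℂ,
      Function.Surjective p ∧ ∀ a, p (bE A w.1.embedding (κ a)) = algebraMap ℂ _ (f a) := by
  obtain ⟨f, hf⟩ := K_ED2_lift hU w.1.embedding
  obtain ⟨C, hC1, hC2, p, hsim, hfd, hfr, hps, hp⟩ := exists_fac hU hn w.1.embedding f hf
  obtain ⟨e⟩ := CGN.complex_case (A := C) hfr
  refine ⟨f, hf, e.toAlgHom.comp p, e.surjective.comp hps, ?_⟩
  intro a
  change e (p (bE A w.1.embedding (κ a))) = _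
  rw [hp, AlgEquiv.commutes]


/-- The real places which split in `K` and where the unitary group is not `GL_n(ℝ)`. -/
def NPl (A : UD F) (K : Type) [Field K] [Algebra F K] : Type := {w : RPl F //
  (∃ f : K →+* ℝ, f.comp (algebraMap F K) = embR w) ∧
    ¬ Nonempty (BE A (embR w) →ₐ[ℝ] Matrix (Fin A.n) (Fin A.n) ℝ)}

/-- The real places which do not split in `K`. -/
def QPl (F K : Type) [Field F] [NumberField F] [Field K] [Algebra F K] : Type := {w : RPl F //
  ¬ ∃ f : K →+* ℝ, f.comp (algebraMap F K) = embR w}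

instance (A : UD F) (K : Type) [Field K] [Algebra F K] : Finite (NPl A K) := Subtype.finite

instance instFinQPl (F K : Type) [Field F] [NumberField F] [Field K] [Algebra F K] :
    Finite (QPl F K) := Subtype.finite

instance (A : UD F) : Fintype (SPl A) := Fintype.ofFinite _

instance (A : UD F) (K : Type) [Field K] [Algebra F K] : Fintype (NPl A K) := Fintype.ofFinite _

instance instFtQPl (F K : Type) [Field F] [NumberField F] [Field K] [Algebra F K] :
    Fintype (QPl F K) := Fintype.ofFinite _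

instance instFtCPl : Fintype (CPl F) := Fintype.ofFinite _

/-- A real place as above as a real place. -/
def SPl.r {A : UD F} (w : SPl A) : RPl F := ⟨w.1, w.2.choose⟩

/-- The homomorphism at a place of `NPl`. -/
def homN (hU : IsUni A κ) (hn : 1 ≤ A.n) (w : NPl A K) :
    BE A (embR w.1) →ₐ[ℝ] Matrix (Fin (A.n / 2)) (Fin (A.n / 2)) ℍ[ℝ] :=
  (npl_hom hU hn w.1 w.2.1.choose w.2.1.choose_spec w.2.2).2.choose

/-- The homomorphism at a complex place. -/
def homC (hU : IsUni A κ) (hn : 1 ≤ A.n) (w : CPl F) :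
    BE A w.1.embedding →ₐ[ℂ] Matrix (Fin A.n) (Fin A.n) ℂ :=
  (cpl_hom hU hn w).choose_spec.2.choose

/-- The algebra `T`. -/
abbrev TU (A : UD F) (K : Type) [Field K] [Algebra F K] : Type :=
  (SPl A → Matrix (Fin A.n) (Fin A.n) ℝ) ×
    ((NPl A K → Matrix (Fin (A.n / 2)) (Fin (A.n / 2)) ℍ[ℝ]) ×
      (CPl F → Matrix (Fin A.n) (Fin A.n) ℂ))

/-- Its positive involution. -/
def paU (A : UD F) (K : Type) [Field K] [Algebra F K] : PA (TU A K) :=
  paProd (paPi (paMat paR A.n) (SPl A))
    (paProd (paPi (paMat paH (A.n / 2)) (NPl A K)) (paPi (paMat paC A.n) (CPl F)))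

/-- The algebra `N`. -/
abbrev NU (A : UD F) (K : Type) [Field K] [Algebra F K] : Type :=
  ∀ w : QPl F K, BE A (embR w.1)

/-- The homomorphism to `T`. -/
def homT (hU : IsUni A κ) (hn : 1 ≤ A.n) : BInf A →ₐ[ℝ] TU A K :=
  AlgHom.prod (AlgHom.pi fun w => w.hom.comp (prR w.r))
    (AlgHom.prod (AlgHom.pi fun w => (homN hU hn w).comp (prR w.1))
      (AlgHom.pi fun w => ((homC hU hn w).restrictScalars ℝ).comp (prC w)))

/-- The homomorphism to `N`. -/
def homQ (A : UD F) (K : Type) [Field K] [Algebra F K] : BInf A →ₐ[ℝ] NU A K :=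
  AlgHom.pi fun w => prR w.1


private theorem K_EF_S (hU : IsUni A κ) (hn : 1 ≤ A.n) (w : SPl A) :
    Function.Bijective fun x : BE A w.emb => (w.hom x, w.hom (star x)) := by
  obtain ⟨f, hf, hs, hp⟩ := spl_hom hU hn w
  exact pair_bijR hU w.emb f hf w.hom hs (by
    rw [Module.finrank_matrix, Fintype.card_fin, Module.finrank_self, mul_one, sq]) hp

private theorem K_EF_N (hU : IsUni A κ) (hn : 1 ≤ A.n) (w : NPl A K) :
    Function.Bijective fun x : BE A (embR w.1) => (homN hU hn w x, homN hU hn w (star x)) := by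
  have h := npl_hom hU hn w.1 w.2.1.choose w.2.1.choose_spec w.2.2
  refine pair_bijR hU (embR w.1) _ w.2.1.choose_spec (homN hU hn w) h.2.choose_spec.1 ?_
    h.2.choose_spec.2
  rw [Module.finrank_matrix, Fintype.card_fin, Quaternion.finrank_eq_four]
  obtain ⟨m, hm⟩ : ∃ m, A.n / 2 = m := ⟨_, rfl⟩
  have h1 := h.1
  rw [hm] at h1 ⊢
  rw [h1]
  ring

private theorem K_EF_C (hU : IsUni A κ) (hn : 1 ≤ A.n) (w : CPl F) :
    Function.Bijective fun x : BE A w.1.embedding => (homC hU hn w x, homC hU hn w (star x)) := by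
  have h := (cpl_hom hU hn w).choose_spec
  refine pair_bijR hU w.1.embedding _ h.1 (homC hU hn w) h.2.choose_spec.1 ?_ h.2.choose_spec.2
  rw [Module.finrank_matrix, Fintype.card_fin, Module.finrank_self, mul_one, sq]

/-- PROOF. By `spl_hom`, `npl_hom`, `cpl_hom` and `pair_bijR` at every real place which splits in `K` and at every
complex place the map `x ↦ (p x, p (star x))` is bijective; every real place is the place of an element of exactly one of
`SPl A` (`spl_hom`: these are split in `K`), `NPl A K`, `QPl F K`; `prR_star`, `prC_star`, `exists_pr`, `pr_ext`.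
See `CGN.homT_bij`. -/
theorem hom_bij (hU : IsUni A κ) (hn : 1 ≤ A.n) : Function.Bijective fun x : BInf A =>
    (homT hU hn x, homT hU hn (star x), homQ A K x) := by
  classical
  constructor
  · intro x y hxy
    have h1 : homT hU hn x = homT hU hn y := congrArg Prod.fst hxy
    have h2 : homT hU hn (star x) = homT hU hn (star y) := congrArg (fun z => z.2.1) hxy
    have h3 : homQ A K x = homQ A K y := congrArg (fun z => z.2.2) hxy
    have hS : ∀ w : SPl A, prR w.r x = prR w.r y := by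
      intro w
      apply (K_EF_S hU hn w).1
      refine Prod.ext (congrFun (congrArg Prod.fst h1) w) ?_
      have h4 : w.hom (prR w.r (star x)) = w.hom (prR w.r (star y)) :=
        congrFun (congrArg Prod.fst h2) w
      rw [prR_star, prR_star] at h4
      exact h4
    have hN : ∀ w : NPl A K, prR w.1 x = prR w.1 y := by
      intro w
      apply (K_EF_N hU hn w).1
      refine Prod.ext (congrFun (congrArg (fun z => z.2.1) h1) w) ?_
      have h4 : homN hU hn w (prR w.1 (star x)) = homN hU hn w (prR w.1 (star y)) :=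
        congrFun (congrArg (fun z => z.2.1) h2) w
      rw [prR_star, prR_star] at h4
      exact h4
    have hC : ∀ w : CPl F, prC w x = prC w y := by
      intro w
      apply (K_EF_C hU hn w).1
      refine Prod.ext (congrFun (congrArg (fun z => z.2.2) h1) w) ?_
      have h4 : homC hU hn w (prC w (star x)) = homC hU hn w (prC w (star y)) :=
        congrFun (congrArg (fun z => z.2.2) h2) w
      rw [prC_star, prC_star] at h4
      exact h4
    refine pr_ext (fun w => ?_) hC
    by_cases h4 : Nonempty (BE A (embR w) →ₐ[ℝ] Matrix (Fin A.n) (Fin A.n) ℝ)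
    · exact hS ⟨w.1, w.2, h4⟩
    · by_cases h5 : ∃ f : K →+* ℝ, f.comp (algebraMap F K) = embR w
      · exact hN ⟨w, h5, h4⟩
      · exact congrFun h3 ⟨w, h5⟩
  · rintro ⟨t, t', q⟩
    have hR : ∀ w : RPl F, ∃ a : BE A (embR w),
        (∀ h : Nonempty (BE A (embR w) →ₐ[ℝ] Matrix (Fin A.n) (Fin A.n) ℝ),
          SPl.hom (⟨w.1, w.2, h⟩ : SPl A) a = t.1 ⟨w.1, w.2, h⟩ ∧
          SPl.hom (⟨w.1, w.2, h⟩ : SPl A) (star a) = t'.1 ⟨w.1, w.2, h⟩) ∧
        (∀ h : (∃ f : K →+* ℝ, f.comp (algebraMap F K) = embR w) ∧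
          ¬ Nonempty (BE A (embR w) →ₐ[ℝ] Matrix (Fin A.n) (Fin A.n) ℝ),
          homN hU hn (⟨w, h⟩ : NPl A K) a = t.2.1 ⟨w, h⟩ ∧
          homN hU hn (⟨w, h⟩ : NPl A K) (star a) = t'.2.1 ⟨w, h⟩) ∧
        (∀ h : ¬ ∃ f : K →+* ℝ, f.comp (algebraMap F K) = embR w, a = q ⟨w, h⟩) := by
      intro w
      by_cases h4 : Nonempty (BE A (embR w) →ₐ[ℝ] Matrix (Fin A.n) (Fin A.n) ℝ)
      · obtain ⟨f, hf, -⟩ := spl_hom hU hn (⟨w.1, w.2, h4⟩ : SPl A)
        obtain ⟨a, ha⟩ := (K_EF_S hU hn ⟨w.1, w.2, h4⟩).2 (t.1 ⟨w.1, w.2, h4⟩, t'.1 ⟨w.1, w.2, h4⟩)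
        exact ⟨a, fun _ => ⟨congrArg Prod.fst ha, congrArg Prod.snd ha⟩, fun h => absurd h4 h.2,
          fun h => absurd ⟨f, hf⟩ h⟩
      · by_cases h5 : ∃ f : K →+* ℝ, f.comp (algebraMap F K) = embR w
        · obtain ⟨a, ha⟩ := (K_EF_N hU hn ⟨w, h5, h4⟩).2 (t.2.1 ⟨w, h5, h4⟩, t'.2.1 ⟨w, h5, h4⟩)
          exact ⟨a, fun h => absurd h h4, fun _ => ⟨congrArg Prod.fst ha, congrArg Prod.snd ha⟩,
            fun h => absurd h5 h⟩
        · exact ⟨q ⟨w, h5⟩, fun h => absurd h h4, fun h => absurd h.1 h5, fun _ => rfl⟩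
    choose a ha1 ha2 ha3 using hR
    have hC : ∀ w : CPl F, ∃ b : BE A w.1.embedding, homC hU hn w b = t.2.2 w ∧
        homC hU hn w (star b) = t'.2.2 w := by
      intro w
      obtain ⟨b, hb⟩ := (K_EF_C hU hn w).2 (t.2.2 w, t'.2.2 w)
      exact ⟨b, congrArg Prod.fst hb, congrArg Prod.snd hb⟩
    choose b hb1 hb2 using hC
    obtain ⟨x, hx1, hx2⟩ := exists_pr a b
    refine ⟨x, Prod.ext (Prod.ext ?_ (Prod.ext ?_ ?_)) (Prod.ext (Prod.ext ?_ (Prod.ext ?_ ?_)) ?_)⟩
    · funext w
      change w.hom (prR w.r x) = t.1 w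
      rw [hx1]
      exact (ha1 w.r w.2.choose_spec).1
    · funext w
      change homN hU hn w (prR w.1 x) = t.2.1 w
      rw [hx1]
      exact (ha2 w.1 w.2).1
    · funext w
      change homC hU hn w (prC w x) = t.2.2 w
      rw [hx2]
      exact hb1 w
    · funext w
      change w.hom (prR w.r (star x)) = t'.1 w
      rw [prR_star, hx1]
      exact (ha1 w.r w.2.choose_spec).2
    · funext w
      change homN hU hn w (prR w.1 (star x)) = t'.2.1 w
      rw [prR_star, hx1]
      exact (ha2 w.1 w.2).2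
    · funext w
      change homC hU hn w (prC w (star x)) = t'.2.2 w
      rw [prC_star, hx2]
      exact hb2 w
    · funext w
      change prR w.1 x = q w
      rw [hx1]
      exact ha3 w.1 w.2



private theorem K_EG_trace {ι : Type} [Fintype ι] (B : ι → Type) [∀ i, Ring (B i)]
    [∀ i, Algebra ℝ (B i)] [∀ i, Module.Finite ℝ (B i)] (z : ∀ i, B i) :
    LinearMap.trace ℝ (∀ i, B i) (LinearMap.mulLeft ℝ z) =
      ∑ i, LinearMap.trace ℝ (B i) (LinearMap.mulLeft ℝ (z i)) := by
  classical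
  have h1 : (LinearMap.mulLeft ℝ z : (∀ i, B i) →ₗ[ℝ] (∀ i, B i)) =
      ∑ i, (LinearMap.single ℝ B i) ∘ₗ (LinearMap.proj i ∘ₗ LinearMap.mulLeft ℝ z) := by
    apply LinearMap.ext
    intro x
    rw [LinearMap.sum_apply]
    funext j
    rw [Finset.sum_apply, Finset.sum_eq_single j]
    · change _ = (Pi.single j ((z * x) j) : ∀ i, B i) j
      rw [Pi.single_eq_same]
      rfl
    · intro i _ hij
      change (Pi.single i ((z * x) i) : ∀ i, B i) j = 0
      rw [Pi.single_eq_of_ne (Ne.symm hij)]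
    · intro h
      exact absurd (Finset.mem_univ _) h
  rw [h1, map_sum]
  refine Finset.sum_congr rfl fun i _ => ?_
  rw [LinearMap.trace_comp_comm']
  congr 1
  apply LinearMap.ext
  intro y
  change (z * (Pi.single i y : ∀ i, B i)) i = z i * y
  rw [Pi.mul_apply, Pi.single_eq_same]

/-- PROOF. The trace of a linear map `f` of a finite product of finite dimensional spaces is the sum of the traces of
`proj i ∘ f ∘ single i`; so the trace of `mulLeft (star x * x)` on `NU` is the sum over `w` of `trR (star (x w) * x w)`, which are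
nonnegative, and positive if `x w ≠ 0` (`hU.pos`). -/
theorem pos_NU (hU : IsUni A κ) (x : NU A K) (hx : x ≠ 0) :
    0 < LinearMap.trace ℝ (NU A K) (LinearMap.mulLeft ℝ (star x * x)) := by
  have hfin : ∀ w : QPl F K, @Module.Finite ℝ (BE A (embR w.1)) _ _ Algebra.toModule :=
    fun w => K_EC2_fin' A (embR w.1)
  rw [K_EG_trace (fun w : QPl F K => BE A (embR w.1)) (star x * x)]
  have hpos : ∀ w : QPl F K, x w ≠ 0 → 0 < LinearMap.trace ℝ (BE A (embR w.1))
      (LinearMap.mulLeft ℝ ((star x * x) w)) := fun w hw => hU.pos w.1.1 w.1.2 w.2 (x w) hw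
  have hnn : ∀ w : QPl F K, 0 ≤ LinearMap.trace ℝ (BE A (embR w.1))
      (LinearMap.mulLeft ℝ ((star x * x) w)) := by
    intro w
    by_cases hw : x w = 0
    · have h1 : (star x * x) w = 0 := by
        rw [Pi.mul_apply, hw, mul_zero]
      rw [h1, LinearMap.mulLeft_zero_eq_zero, map_zero]
    · exact (hpos w hw).le
  obtain ⟨w, hw⟩ := Function.ne_iff.1 hx
  exact Finset.sum_pos' (fun w _ => hnn w) ⟨w, Finset.mem_univ _, hpos w hw⟩



/-- PROOF. As `CGN.dt_sign` (`CGN/KInf.lean`, end): `CGN.dt_paProd`, `CGN.dt_paPi`, `CGN.dt_R` (here `det = w.det γ`, the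
first component of `homT (theta γ)` at `w` is `w.hom (bE γ)`, `prR_theta`), `CGN.dt_pos_H`, `CGN.dt_pos_C`. -/
theorem dt_sign_TU (hU : IsUni A κ) (hn : 1 ≤ A.n) (γ : (sysU A).G) :
    0 < (paU A K).dt (Units.map (homT hU hn : BInf A →* TU A K) (thU A γ)) *
      (((epsU A ((sysU A).sgn γ) : ℤˣ) : ℤ) : ℝ) := by
  classical
  set u : (TU A K)ˣ := Units.map (homT hU hn : BInf A →* TU A K) (thU A γ) with hu
  obtain ⟨u1, u2, u3, h2, hu1⟩ : ∃ (u1 : (SPl A → Matrix (Fin A.n) (Fin A.n) ℝ)ˣ)
      (u2 : (NPl A K → Matrix (Fin (A.n / 2)) (Fin (A.n / 2)) ℍ[ℝ])ˣ)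
      (u3 : (CPl F → Matrix (Fin A.n) (Fin A.n) ℂ)ˣ),
      (paU A K).dt u = (paPi (paMat paR A.n) (SPl A)).dt u1 *
        ((paPi (paMat paH (A.n / 2)) (NPl A K)).dt u2 * (paPi (paMat paC A.n) (CPl F)).dt u3) ∧
      u1.1 = u.1.1 :=
    ⟨_, _, _, (CGN.dt_paProd _ _ _).trans (congrArg (_ * ·) (CGN.dt_paProd _ _ _)), rfl⟩
  have p2 : 0 < (paPi (paMat paH (A.n / 2)) (NPl A K)).dt u2 := by
    rw [CGN.dt_paPi]
    exact Finset.prod_pos fun w _ => CGN.dt_pos_H _ _
  have p3 : 0 < (paPi (paMat paC A.n) (CPl F)).dt u3 := by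
    rw [CGN.dt_paPi]
    exact Finset.prod_pos fun w _ => CGN.dt_pos_C _ _
  have heps : (((epsU A ((sysU A).sgn γ) : ℤˣ) : ℤ) : ℝ) =
      ∏ w : SPl A, (((dsgn A γ w : ℤˣ) : ℤ) : ℝ) ^ (A.n + 1) := by
    have h3 : epsU A ((sysU A).sgn γ) = (∏ w : SPl A, dsgn A γ w) ^ (A.n + 1) := by
      change (∏ᶠ w : SPl A, dsgn A γ w) ^ (A.n + 1) = _
      rw [finprod_eq_prod_of_fintype]
    rw [h3, ← Finset.prod_pow, Units.coe_prod, Int.cast_prod]
    refine Finset.prod_congr rfl fun w _ => ?_
    rw [Units.val_pow_eq_pow_val, Int.cast_pow]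
  have p1 : 0 < (paPi (paMat paR A.n) (SPl A)).dt u1 *
      (((epsU A ((sysU A).sgn γ) : ℤˣ) : ℤ) : ℝ) := by
    rw [heps, CGN.dt_paPi, ← Finset.prod_mul_distrib]
    refine Finset.prod_pos fun w _ => ?_
    set g := Units.map (Pi.evalRingHom (fun _ : SPl A => Matrix (Fin A.n) (Fin A.n) ℝ) w :
      (SPl A → Matrix (Fin A.n) (Fin A.n) ℝ) →* Matrix (Fin A.n) (Fin A.n) ℝ) u1 with hg
    have h4 : g.1.det = w.det (uK γ).1 := by
      change (u1.1 w).det = _
      rw [hu1]
      rfl
    have h5 := CGN.dt_R A.n g hn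
    rw [h4] at h5
    have h6 : dsgn A γ w = if 0 < w.det (uK γ).1 then 1 else -1 := rfl
    rw [h6]
    rcases lt_or_gt_of_ne (w.det_ne (uK γ)) with h7 | h7
    · rw [if_neg (not_lt.2 h7.le)]
      have h8 : w.det (uK γ).1 ^ (A.n + 1) = (-1) ^ (A.n + 1) * (-(w.det (uK γ).1)) ^ (A.n + 1) := by
        rw [← mul_pow]
        congr 1
        ring
      rw [h8, ← mul_assoc] at h5
      have h9 : 0 < (-(w.det (uK γ).1)) ^ (A.n + 1) := pow_pos (by linarith) _
      have h10 := (mul_pos_iff_of_pos_right h9).1 h5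
      simpa using h10
    · rw [if_pos h7]
      have h9 : 0 < (w.det (uK γ).1) ^ (A.n + 1) := pow_pos h7 _
      have h10 := (mul_pos_iff_of_pos_right h9).1 h5
      simpa using h10
  rw [h2]
  have h11 := mul_pos p1 (mul_pos p2 p3)
  calc (0 : ℝ) < _ := h11
    _ = _ := by ring



/-- PROOF. As `CGN.finrank_sym` (`CGN/KInf.lean`), but with `rsp F K = card (SPl A) + card (NPl A K)`: the real
places which split in `K` are those of `SPl A` (`spl_hom`) and those of `NPl A K`. -/
theorem finrank_TU (hU : IsUni A κ) (hn : 1 ≤ A.n) :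
    Module.finrank ℝ (paU A K).sym = A.dim K := by
  classical
  have hcard : Fintype.card (SPl A) + Fintype.card (NPl A K) = rsp F K := by
    have e : SPl A ⊕ NPl A K ≃ {w : InfinitePlace F // ∃ h : w.IsReal,
        ∃ f : K →+* ℝ, f.comp (algebraMap F K) = InfinitePlace.embedding_of_isReal h} :=
      { toFun := fun z => Sum.elim (fun w : SPl A => ⟨w.1, w.2.choose, (spl_hom hU hn w).choose,
            (spl_hom hU hn w).choose_spec.1⟩) (fun w : NPl A K => ⟨w.1.1, w.1.2, w.2.1⟩) z
        invFun := fun w => if h : Nonempty (BE A (InfinitePlace.embedding_of_isReal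
              w.2.choose) →ₐ[ℝ] Matrix (Fin A.n) (Fin A.n) ℝ) then
          Sum.inl ⟨w.1, w.2.choose, h⟩ else Sum.inr ⟨⟨w.1, w.2.choose⟩, w.2.choose_spec, h⟩
        left_inv := by
          rintro (w | w)
          · have h : Nonempty (BE A (embR w.r) →ₐ[ℝ] Matrix (Fin A.n) (Fin A.n) ℝ) :=
              w.2.choose_spec
            change (if h : Nonempty (BE A (embR w.r) →ₐ[ℝ] Matrix (Fin A.n) (Fin A.n) ℝ) then
              (Sum.inl (⟨w.r.1, w.r.2, h⟩ : SPl A) : SPl A ⊕ NPl A K) else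
                Sum.inr ⟨w.r, ⟨(spl_hom hU hn w).choose,
                  (spl_hom hU hn w).choose_spec.1⟩, h⟩) = _
            rw [dif_pos h]
            rfl
          · change (if h : Nonempty (BE A (embR w.1) →ₐ[ℝ] Matrix (Fin A.n) (Fin A.n) ℝ) then
              (Sum.inl (⟨w.1.1, w.1.2, h⟩ : SPl A) : SPl A ⊕ NPl A K) else
                Sum.inr ⟨w.1, w.2.1, h⟩) = _
            rw [dif_neg w.2.2]
            rfl
        right_inv := by
          intro w
          by_cases h : Nonempty (BE A (InfinitePlace.embedding_of_isReal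
              w.2.choose) →ₐ[ℝ] Matrix (Fin A.n) (Fin A.n) ℝ)
          · simp only [dif_pos h]
            rfl
          · simp only [dif_neg h]
            rfl }
    rw [← Fintype.card_sum, rsp, Nat.card_eq_fintype_card, Fintype.card_congr e]
  have hsp : A.sp = Fintype.card (SPl A) := Nat.card_eq_fintype_card
  have hcx : Fintype.card (CPl F) = InfinitePlace.nrComplexPlaces F := by
    rw [InfinitePlace.nrComplexPlaces]
    exact congrArg (fun i => @Fintype.card (CPl F) i) (Subsingleton.elim _ _)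
  have hr : Module.finrank ℝ (paU A K).sym =
      Fintype.card (SPl A) * (A.n * 1 + A.n.choose 2 * 1) +
        (Fintype.card (NPl A K) * (A.n / 2 * 1 + (A.n / 2).choose 2 * 4) +
          Fintype.card (CPl F) * (A.n * 1 + A.n.choose 2 * 2)) := by
    rw [paU, CGN.finrank_paProd, CGN.finrank_paProd, CGN.finrank_paPi, CGN.finrank_paPi,
      CGN.finrank_paPi, CGN.finrank_paMat, CGN.finrank_paMat, CGN.finrank_paMat,
      CGN.finrank_sym_R, CGN.finrank_sym_C, CGN.finrank_sym_H, Module.finrank_self,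
      Complex.finrank_real_complex, Quaternion.finrank_eq_four]
  rw [hr, UD.dim, hsp, hcx]
  have hsub : rsp F K - Fintype.card (SPl A) = Fintype.card (NPl A K) := by
    omega
  rw [hsub]
  have e1 : A.n * 1 + A.n.choose 2 * 1 = A.n * (A.n + 1) / 2 := by
    have h1 := Nat.choose_two_right (A.n + 1)
    have h3 : (A.n + 1).choose 2 = A.n.choose 1 + A.n.choose 2 := rfl
    rw [Nat.choose_one_right] at h3
    rw [mul_one, mul_one, ← h3, h1, Nat.add_sub_cancel, mul_comm]
  have e2 : A.n * 1 + A.n.choose 2 * 2 = A.n ^ 2 := by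
    rw [Nat.choose_two_right, Nat.div_mul_cancel (Nat.even_mul_pred_self A.n).two_dvd]
    obtain ⟨k, hk⟩ : ∃ k, A.n = k + 1 := ⟨A.n - 1, by omega⟩
    rw [hk, Nat.add_sub_cancel]
    ring
  have e3 : Fintype.card (NPl A K) * (A.n / 2 * 1 + (A.n / 2).choose 2 * 4) =
      Fintype.card (NPl A K) * (A.n * (A.n - 1) / 2) := by
    rcases Nat.eq_zero_or_pos (Fintype.card (NPl A K)) with h0 | h0
    · rw [h0, zero_mul, zero_mul]
    · obtain ⟨w⟩ := Fintype.card_pos_iff.1 h0
      have h1 := (npl_hom hU hn w.1 w.2.1.choose w.2.1.choose_spec w.2.2).1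
      congr 1
      obtain ⟨k, hk⟩ : ∃ k, A.n / 2 = k + 1 := ⟨A.n / 2 - 1, by omega⟩
      rw [hk] at h1 ⊢
      have h4 : (k + 1).choose 2 * 2 = (k + 1) * k := by
        rw [Nat.choose_two_right, Nat.div_mul_cancel (Nat.even_mul_pred_self (k + 1)).two_dvd,
          Nat.add_sub_cancel]
      have h5 : A.n * (A.n - 1) = 2 * ((k + 1) * (2 * k + 1)) := by
        rw [h1]
        have : 2 * (k + 1) - 1 = 2 * k + 1 := by omega
        rw [this]
        ring
      rw [h5, Nat.mul_div_cancel_left _ two_pos]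
      calc (k + 1) * 1 + (k + 1).choose 2 * 4 = (k + 1) + 2 * ((k + 1).choose 2 * 2) := by ring
        _ = (k + 1) * (2 * k + 1) := by
          rw [h4]
          ring
  rw [e1, e2, e3]
  ring


/-- **The real data exist.** -/
theorem exists_rdat (hU : IsUni A κ) (hn : 1 ≤ A.n) :
    ∃ R : RDat A, Module.finrank ℝ R.P.sym = A.dim K :=
  ⟨{ T := TU A K
     rT := inferInstance
     aT := inferInstance
     fT := inferInstance
     P := paReg (paU A K)
     reg := fun _ => rfl
     N := NU A K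
     rN := inferInstance
     sN := inferInstance
     aN := inferInstance
     fN := inferInstance
     Θ := homT hU hn
     π := homQ A K
     π_star := fun x => funext fun w => prR_star w.1 x
     pos := pos_NU hU
     bij := hom_bij hU hn
     ani := hU.ani
     np := hn
     sg := dt_sign_TU hU hn }, finrank_TU hU hn⟩

end Pool.Agent.CGU
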