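import Pool.Agent.CGU.KMain
import Pool.Agent.CGU.KEx

/-!
# The results of part K in the form used in the assembly
-/

noncomputable section

set_option linter.unusedVariables false
set_option linter.unusedSectionVars false

namespace Pool.Agent.CGU

open NumberField IsDedekindDomain Pool.Agent.CGQ
open Pool.Agent.CG2 (Pl Fv Ov GQ GZ)
open Pool.Agent.CG3
open Pool.Agent.CG3

variable {F : Type} [Field F] [NumberField F] {K : Type} [Field K] [NumberField K] [Algebra F K]

/-- The dimension is at least `2` if the degree is at least `3` and the real rank is positive. -/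
theorem dim_ge {A : UD F} (hn : 3 ≤ A.n) (hr : 1 ≤ A.rk K) : 2 ≤ A.dim K := by
  unfold UD.rk at hr
  unfold UD.dim
  obtain ⟨m, hm⟩ : ∃ m, A.n = m := ⟨_, rfl⟩
  rw [hm] at hr hn ⊢
  set s := A.sp
  set r := rsp F K - s
  set c := InfinitePlace.nrComplexPlaces F
  have h1 : 3 ≤ m * (m + 1) / 2 := by
    rw [Nat.le_div_iff_mul_le two_pos]
    nlinarith
  have h2 : 3 ≤ m ^ 2 := by nlinarith
  have h3 : 3 ≤ m * (m - 1) / 2 := by
    rw [Nat.le_div_iff_mul_le two_pos]
    have : 2 ≤ m - 1 := by omega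
    nlinarith
  rcases Nat.eq_zero_or_pos s with hs | hs
  · rcases Nat.eq_zero_or_pos c with hc | hc
    · rcases Nat.eq_zero_or_pos r with h0 | h0
      · rw [hs, hc, h0] at hr
        simp at hr
      · have := Nat.mul_le_mul h0 h3
        omega
    · have := Nat.mul_le_mul hc h2
      omega
  · have := Nat.mul_le_mul hs h1
    omega

/-- The places where the unitary group is `GL_n(ℝ)` split in `K`. -/
theorem sp_le_rsp {A : UD F} {κ : K →ₐ[F] BF A} (hU : IsUni A κ) (hn : 1 ≤ A.n) :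
    A.sp ≤ rsp F K := by
  refine Nat.card_le_card_of_injective (β := {w : InfinitePlace F // ∃ h : w.IsReal,
    ∃ f : K →+* ℝ, f.comp (algebraMap F K) = InfinitePlace.embedding_of_isReal h})
    (fun w : SPl A => ⟨w.1, w.2.choose, (spl_hom hU hn w).choose,
      (spl_hom hU hn w).choose_spec.1⟩) ?_
  intro x y h
  exact Subtype.ext (congrArg (fun z => z.1) h)

/-- **K'1.** The group of the elements congruent to `1` modulo a power of `p` and the systems of
its subgroups. -/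
theorem exists_ksys_u {A : UD F} {κ : K →ₐ[F] BF A} (hU : IsUni A κ) (hn : 3 ≤ A.n)
    (hr : 1 ≤ A.rk K) (p : ℕ) [hp : Fact p.Prime] :
    ∃ K₀ : Subgroup (sysU A).A, OC K₀ ∧
      (∀ v : Pl F, ((p : ℕ) : 𝓞 F) ∉ v.asIdeal → ∀ k ∈ (sysU A).B v,
        (single v k : (sysU A).A) ∈ K₀) ∧
      ∀ Kf : Subgroup (sysU A).A, Kf ≤ K₀ → OC Kf → ∃ T : TSys Kf, T.C.n0 = A.dim K ∧
        ∀ γ, (sysU A).sgn γ = 1 → T.ε γ = 1 := by
  obtain ⟨R, hR⟩ := exists_rdat hU (by omega)
  have hd : 2 ≤ nU R := by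
    rw [nU, hR]
    exact dim_ge hn hr
  have h2 : 2 ≤ p := hp.out.two_le
  have hN : N0 R ≤ p ^ N0 R := (Nat.lt_two_pow_self).le.trans (Nat.pow_le_pow_left h2 _)
  have hN0 : p ^ N0 R ≠ 0 := pow_ne_zero _ (by omega)
  refine ⟨KNA A (p ^ N0 R), oc_KNA _ hN0, fun v hv k hk =>
    single_mem_KNA hN0 v (fun h => hv ?_) k hk, fun Kf hK hO => ?_⟩
  · rw [Nat.cast_pow] at h
    exact v.isPrime.mem_of_pow_mem _ h
  · obtain ⟨T, h1, h3⟩ := exists_tsys R hd hN hK hO
    refine ⟨T, by rw [h1, nU, hR], fun γ hγ => ?_⟩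
    rw [h3, hγ, map_one]

/-- **K'2.** A crude bound for the cohomological dimension of the torsion-free groups. -/
theorem crude_bound_u {A : UD F} {κ : K →ₐ[F] BF A} (hU : IsUni A κ) (hn : 3 ≤ A.n)
    (Kf : Subgroup (sysU A).A) (hK : OC Kf) (hTF : TorsionFree Kf) :
    ∃ N₀ : ℕ, ∀ (O : Type) [CommRing O] (W : Type) [AddCommGroup W] [Module O W]
      (τ : Representation O Kf W) (i : ℕ), N₀ < i →
        Subsingleton (groupCohomology (coeff Kf τ) i) := by
  obtain ⟨R, -⟩ := exists_rdat hU (by omega)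
  obtain ⟨E, i1, i2, ⟨C⟩⟩ := exists_prodU R hK hTF
  refine ⟨C.n0 + 1, fun O _ W _ _ τ i hi => ?_⟩
  rw [← forms_rep]
  exact C.vanish (forms_coef τ) (c0 := 0) (fun _ _ _ => Nat.zero_le _) i (by omega)

end Pool.Agent.CGU
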