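import Pool.Agent.CGU.URl
import Pool.Agent.CGU.NPu
import Pool.Agent.CGN.UChar

/-!
# The unit trick for unitary groups: the theorem
-/

noncomputable section

namespace Pool.Agent.CGU

open NumberField IsDedekindDomain Matrix
open Pool.Agent.CG2 (Pl Fv Ov GalF Fbar Zbar Over IsInertia IsFrob Nm IsRay InRay expo TotPos Lies)
open Pool.Agent.CG2.GalFinAux (below)
open Pool.Agent.CGQ
open Pool.Agent.CGN (Std SC Split HypOff abv mem_abv Sel EigFam exists_ray_chi prod_ne_bot)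

variable {F : Type} [Field F] [NumberField F] {K : Type} [Field K] [NumberField K] [Algebra F K]

/-- The point of a product of a representative and of an element of the torus. -/
private theorem UMn_lt_act {A : UD F} {κ : K →ₐ[F] BF A} {S : Set (Pl F)} {θ : USpl A S}
    {Kf : Subgroup (sysU A).A} {M : Type} [Field M] [NumberField M] [Algebra F M] [Algebra K M]
    (X : TorU A κ θ Kf M) {I : Ideal (𝓞 M)} {t : (sysU A).A} (ht : X.IsRep I t) (x : Tor X.τ) :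
    lt t (act (X.u x) X.y) = act (X.u x) (lt t X.y) := by
  refine Prod.ext rfl ?_
  change t * (diag (X.u x) * X.y.2) = diag (X.u x) * (t * X.y.2)
  rw [← mul_assoc, ← mul_assoc, X.rep_comm ht]

private theorem UMn_lt_congr {A : UD F} {Kf : Subgroup (sysU A).A} {t : (sysU A).A}
    {y y' : (sysU A).Pt} (h : mkK Kf y = mkK Kf y') : mkK Kf (lt t y) = mkK Kf (lt t y') := by
  obtain ⟨k, hk, rfl⟩ := mkK_eq.1 h
  rw [lt_rt, mkK_rt _ hk]

/-- **U'. The unit trick.** -/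
theorem unit_main_u {A : UD F} {κ : K →ₐ[F] BF A} (hU : IsUni A κ) (hn : 3 ≤ A.n) {S : Set (Pl F)}
    (hS : SFin K S) {θ : USpl A S} {Kf : Subgroup (sysU A).A} (hK : OC Kf)
    (hΦ : HypOff Kf (chartU θ)) (hstd : Std (chartU θ))
    {M : Type} [Field M] [NumberField M] [Algebra F M] [Algebra K M] {ι : M →ₐ[F] BF A}
    {τ : M ≃ₐ[F] M} (hM : MData A κ ι τ) (y : (sysU A).Pt) (u e : (𝓞 M)ˣ)
    (hu1 : τ ((u : 𝓞 M) : M) * ((u : 𝓞 M) : M) = 1)
    (he1 : τ ((e : 𝓞 M) : M) * ((e : 𝓞 M) : M) = 1)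
    {k : Type} [Field k] [IsAlgClosed k] {p : ℕ} [Fact p.Prime] [CharP k p]
    {η : (sysU A).G →* ℤˣ} {lam : {v : Pl F // v ∉ S} → Option (Fin A.n) → k}
    (E : EigFam Kf (chartU θ) k η (uU ι ((u : 𝓞 M) : M)) lam) (h0 : E.h y 1 ≠ 0)
    (hu : uU ι ((u : 𝓞 M) : M) ∈ Stab Kf y) (he : uU ι ((e : 𝓞 M) : M) ∈ Stab Kf y)
    (hηu : η (uU ι ((u : 𝓞 M) : M)) = 1) (hηe : η (uU ι ((e : 𝓞 M) : M)) = 1)
    (hηP : ∀ x : 𝓞 M, x ≠ 0 → TotPos x → η (qU ι τ (x : M)) = 1) :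
    ∃ (T : Set (Pl F)) (χ : Pl M → k), T.Finite ∧ (∀ v ∈ S, Split K v → v ∈ T) ∧
      IsRay {W : Pl M | below F W ∈ T} χ ∧
      (∀ W W' : Pl M, W ≠ W' → below F W ∉ T → Split K (below F W) →
        (∀ x x' : 𝓞 M, (x' : M) = τ (x : M) → (x ∈ W.asIdeal ↔ x' ∈ W'.asIdeal)) →
        χ W * χ W' = 1) ∧
      ∀ (v : {v : Pl F // v ∉ S}), v.1 ∉ T → ∀ w : Pl K, IsW κ θ v w → ∀ N : ℕ,
        Sel M u e (p ^ N) w → ∀ j : Fin A.n, lam v (some j) =
          ∑ I ∈ (abv M w).powersetCard ((j : ℕ) + 1), ∏ W ∈ I, χ W := by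
  classical
  obtain ⟨c, hcs, -, -⟩ := exists_conj hU
  obtain ⟨X, rfl, rfl, rfl⟩ := exists_torU (by omega) hS hK hΦ hstd hM y
  have hu0 : ((u : 𝓞 M) : M) ≠ 0 := by
    intro h
    rw [h, mul_zero] at hu1
    exact zero_ne_one hu1
  have he0 : ((e : 𝓞 M) : M) ≠ 0 := by
    intro h
    rw [h, mul_zero] at he1
    exact zero_ne_one he1
  set uT : Tor X.τ := ⟨Units.mk0 _ hu0, hu1⟩ with huT
  set eT : Tor X.τ := ⟨Units.mk0 _ he0, he1⟩ with heT
  have hueq : uU X.ι ((u : 𝓞 M) : M) = X.u uT := X.uU_eq uT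
  have heeq : uU X.ι ((e : 𝓞 M) : M) = X.u eT := X.uU_eq eT
  rw [heeq] at he hηe
  revert h0
  revert E
  rw [hueq] at hu hηu ⊢
  intro E h0
  obtain ⟨m₁, hm₁, hprin⟩ := X.principal fun x hx hpos w => det_pos_u X.ι hx hpos w
  -- the value at an ideal
  let a : Ideal (𝓞 M) → k := fun I =>
    if h : I ≠ ⊥ then E.h (lt (X.exists_rep h).choose X.y) 1 else 0
  have ha : ∀ (I : Ideal (𝓞 M)) (t : (sysU A).A), I ≠ ⊥ → X.IsRep I t →
      a I = E.h (lt t X.y) 1 := by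
    intro I t hI ht
    have h1 : a I = E.h (lt (X.exists_rep hI).choose X.y) 1 := dif_pos hI
    rw [h1]
    exact E.congr (X.rep_unique (X.exists_rep hI).choose_spec ht) 1
  -- the hypotheses of the character theorem
  have htop : ∃ I : Ideal (𝓞 M), I ≠ ⊥ ∧ IsCoprime I m₁ ∧ a I ≠ 0 := by
    refine ⟨⊤, top_ne_bot, ?_, ?_⟩
    · rw [← Ideal.one_eq_top]
      exact isCoprime_one_left
    · rw [ha ⊤ 1 top_ne_bot X.rep_top, lt_one]
      exact h0
  have hray : ∀ I J : Ideal (𝓞 M), I ≠ ⊥ → IsCoprime I m₁ → InRay m₁ J → a (I * J) = a I := by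
    rintro I _ hI - ⟨x, hx0, hx1, hx2, rfl⟩
    have hxL : (x : M) ≠ 0 := by simpa using hx0
    have hJ : Ideal.span {x} ≠ (⊥ : Ideal (𝓞 M)) := by
      rw [Ne, Ideal.span_singleton_eq_bot]
      exact hx0
    obtain ⟨t, ht⟩ := X.exists_rep hI
    obtain ⟨t', ht'⟩ := X.exists_rep hJ
    have hIJ : I * Ideal.span {x} ≠ ⊥ := by
      rw [← Ideal.zero_eq_bot] at hI hJ ⊢
      exact mul_ne_zero hI hJ
    rw [ha _ _ hIJ (X.rep_mul hI hJ ht ht'), ha _ _ hI ht, CGQ.lt_mul]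
    have h1 := hprin x hxL hx1 hx2 t' ht'
    have h2 := hηP x hx0 hx2
    have h3 : qU X.ι X.τ (x : M) = X.u (X.q (Units.mk0 (x : M) hxL)) := X.qU_eq (Units.mk0 (x : M) hxL)
    rw [h3] at h2
    rw [E.congr (UMn_lt_congr (t := t) h1) 1, UMn_lt_act X ht,
      E.h_act _ _ 1 (X.u_comm _ _), h2]
    simp
  obtain ⟨χ, hχ0, hχ1, hχ2⟩ := exists_ray_chi m₁ hm₁ a htop hray
  have hfin : {W : Pl M | m₁ ≤ W.asIdeal}.Finite := by
    refine (Ideal.finite_factors (I := m₁) (by rw [Ideal.zero_eq_bot]; exact hm₁)).subset ?_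
    intro w hw
    exact Ideal.dvd_iff_le.2 hw
  -- the bad places and the modulus
  let T : Set (Pl F) := X.T ∪ (below F) '' {W : Pl M | m₁ ≤ W.asIdeal}
  have hT : T.Finite := X.T_fin.union (hfin.image _)
  let P : Ideal (𝓞 M) := ∏ v ∈ hT.toFinset, v.asIdeal.map (algebraMap (𝓞 F) (𝓞 M))
  have hinj : Function.Injective (algebraMap (𝓞 F) (𝓞 M)) :=
    FaithfulSMul.algebraMap_injective _ _
  have hP0 : P ≠ ⊥ := by
    rw [← Ideal.zero_eq_bot]
    refine Finset.prod_ne_zero_iff.2 fun v _ => ?_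
    rw [Ideal.zero_eq_bot, Ne, Ideal.map_eq_bot_iff_of_injective hinj]
    exact v.ne_bot
  have hm₀ : m₁ * P ≠ ⊥ := by
    rw [← Ideal.zero_eq_bot] at hm₁ hP0 ⊢
    exact mul_ne_zero hm₁ hP0
  have hle1 : m₁ * P ≤ m₁ := Ideal.mul_le_left
  have hle2 : m₁ * P ≤ P := Ideal.mul_le_right
  have hPw : ∀ W : Pl M, below F W ∈ T → m₁ * P ≤ W.asIdeal := by
    intro W hW
    have h1 : P ≤ (below F W).asIdeal.map (algebraMap (𝓞 F) (𝓞 M)) := by
      refine Ideal.le_of_dvd (Finset.dvd_prod_of_mem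
        (fun v : Pl F => v.asIdeal.map (algebraMap (𝓞 F) (𝓞 M))) ?_)
      rw [Set.Finite.mem_toFinset]
      exact hW
    refine hle2.trans (h1.trans ?_)
    rw [Ideal.map_le_iff_le_comap]
    exact le_rfl
  have hnT : ∀ W' : Pl M, below F W' ∉ T → ¬ m₁ ≤ W'.asIdeal := fun W' h1 h2 =>
    h1 (Or.inr ⟨W', h2, rfl⟩)
  refine ⟨T, χ, hT, fun v hv hv' => Or.inl (X.S_le v hv hv'), ⟨hχ0, m₁ * P, hm₀,
    fun w hw => hPw w hw, fun b hb0 hb1 hb2 => hχ1 _ ⟨b, hb0, hle1 hb1, hb2, rfl⟩⟩, ?_, ?_⟩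
  · -- conjugate places
    intro W W' hne hWT _ hWW
    have hb : below F W' = below F W := by
      apply HeightOneSpectrum.ext
      ext x
      change algebraMap (𝓞 F) (𝓞 M) x ∈ W'.asIdeal ↔ algebraMap (𝓞 F) (𝓞 M) x ∈ W.asIdeal
      refine (hWW _ _ ?_).symm
      exact (X.τ.commutes (x : F)).symm
    have h1 := hχ2 {{W, W'}} 1 (by
      intro J hJ V hV
      rw [Finset.mem_singleton] at hJ
      rw [hJ, Finset.mem_insert, Finset.mem_singleton] at hV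
      rcases hV with rfl | rfl
      · exact hnT _ hWT
      · exact hnT _ (by rw [hb]; exact hWT)) (by
      intro I hI _
      have hWW0 : W.asIdeal * W'.asIdeal ≠ ⊥ := by
        rw [← Ideal.zero_eq_bot]
        exact mul_ne_zero (by rw [Ideal.zero_eq_bot]; exact W.ne_bot)
          (by rw [Ideal.zero_eq_bot]; exact W'.ne_bot)
      have hIJ : I * (W.asIdeal * W'.asIdeal) ≠ ⊥ := by
        rw [← Ideal.zero_eq_bot] at hI hWW0 ⊢
        exact mul_ne_zero hI hWW0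
      obtain ⟨t, ht⟩ := X.exists_rep hI
      obtain ⟨t', ht'⟩ := X.exists_rep hIJ
      rw [Finset.sum_singleton, Finset.prod_pair hne, one_mul, ha _ _ hIJ ht', ha _ _ hI ht]
      exact E.congr (X.rep_conj hne hWW hI ht ht') 1)
    rw [Finset.sum_singleton, Finset.prod_pair hne] at h1
    exact h1
  · intro v hv w hw N hsel j
    have hvT : v.1 ∉ X.T := fun h => hv (Or.inl h)
    obtain ⟨w₀, w', hw₀, hwv, -, hne, hcw, hspl, -⟩ := exists_w hU (by omega) c hcs θ v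
    obtain rfl : w = w₀ := isW_unique hw hw₀
    refine (hχ2 ((abv M w).powersetCard ((j : ℕ) + 1)) (lam v (some j)) ?_ ?_).symm
    · intro J hJ W hW
      refine hnT W ?_
      rw [← below_below X.dat.tower, mem_abv.1 ((Finset.mem_powersetCard.1 hJ).1 hW), hwv]
      exact hv
    · intro I hI _
      obtain ⟨t, ht⟩ := X.exists_rep hI
      have hIJ : ∀ J : Finset (Pl M), I * ∏ W ∈ J, W.asIdeal ≠ ⊥ := by
        intro J
        have h1 := prod_ne_bot J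
        rw [← Ideal.zero_eq_bot] at hI h1 ⊢
        exact mul_ne_zero hI h1
      choose tJ htJ using fun J : Finset (Pl M) => X.exists_rep (hIJ J)
      have h1 := X.sum_terms hU hcs v hvT hspl hw ⟨w', hne, hcw⟩ u e uT eT rfl rfl E hu he hηu hηe N
        hsel j hI ht tJ fun J _ => htJ J
      rw [ha _ _ hI ht, ← h1]
      exact Finset.sum_congr rfl fun J _ => ha _ _ (hIJ J) (htJ J)

end Pool.Agent.CGU
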