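import Pool.Agent.CGU.XTh
import Pool.Agent.CGU.GCore
import Pool.Agent.CGU.UMn
import Pool.Agent.CGU.EMa
import Pool.Agent.CGU.KTop
import Pool.Agent.CGN.CDev
import Pool.Agent.CGN.TCA

/-!
# The parts X, G', U', E', K' together
-/
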