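import Pool.Agent.CGU.UD
import Pool.Agent.CGN.KPX

/-!
# The real algebra attached to `B` and its involution
-/

noncomputable section

namespace Pool.Agent.CGU

open NumberField IsDedekindDomain
open Pool.Agent.CG2 (Pl Fv Ov)
open Pool.Agent.CGQ (Sys PA)
open Pool.Agent.CGN (SC)

variable {F : Type} [Field F] [NumberField F]

/-- The indices of the coordinates. -/
abbrev Ix (A : UD F) : Type := Fin 2 × Fin A.n × Fin A.n

/-- The real algebra `F ⊗ ℝ`. -/
abbrev Rinf (F : Type) [Field F] [NumberField F] : Type := mixedEmbedding.mixedSpace F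

/-- The real places. -/
abbrev RPl (F : Type) [Field F] [NumberField F] : Type := {w : InfinitePlace F // w.IsReal}

/-- The complex places. -/
abbrev CPl (F : Type) [Field F] [NumberField F] : Type := {w : InfinitePlace F // w.IsComplex}

/-- The embedding of a real place. -/
def embR (w : RPl F) : F →+* ℝ := InfinitePlace.embedding_of_isReal w.2

/-- The real algebra `B ⊗ ℝ`. -/
def BInf (A : UD F) : Type := BE A (mixedEmbedding F)

instance (A : UD F) : Ring (BInf A) := inferInstanceAs (Ring (BE A (mixedEmbedding F)))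

instance (A : UD F) : StarRing (BInf A) := inferInstanceAs (StarRing (BE A (mixedEmbedding F)))

/-- The coordinates of an element of `B ⊗ ℝ`. -/
def BInf.co {A : UD F} (x : BInf A) (i : Ix A) : Rinf F :=
  SC.Alg.co (show BE A (mixedEmbedding F) from x) i

/-- The element with given coordinates. -/
def BInf.mk {A : UD F} (x : Ix A → Rinf F) : BInf A := x

theorem BInf.ext {A : UD F} {x y : BInf A} (h : ∀ i, x.co i = y.co i) : x = y := funext h

@[simp] theorem BInf.co_mk {A : UD F} (x : Ix A → Rinf F) (i : Ix A) :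
    (BInf.mk x : BInf A).co i = x i := rfl

@[simp] theorem BInf.co_add {A : UD F} (x y : BInf A) (i : Ix A) :
    (x + y).co i = x.co i + y.co i := rfl

@[simp] theorem BInf.co_sub {A : UD F} (x y : BInf A) (i : Ix A) :
    (x - y).co i = x.co i - y.co i := rfl

@[simp] theorem BInf.co_zero {A : UD F} (i : Ix A) : (0 : BInf A).co i = 0 := rfl

@[simp] theorem BInf.co_one {A : UD F} (i : Ix A) :
    (1 : BInf A).co i = mixedEmbedding F (A.sF.u i) := rfl

@[simp] theorem BInf.co_mul {A : UD F} (x y : BInf A) (k : Ix A) :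
    (x * y).co k = ∑ i, ∑ j, x.co i * y.co j * mixedEmbedding F (A.sF.c i j k) := rfl

@[simp] theorem BInf.co_star {A : UD F} (x : BInf A) (k : Ix A) :
    (star x).co k = ∑ i, x.co i * mixedEmbedding F (A.sF.t i k) := rfl

instance (A : UD F) : Module ℝ (BInf A) := inferInstanceAs (Module ℝ (Ix A → Rinf F))

@[simp] theorem BInf.co_smul {A : UD F} (r : ℝ) (x : BInf A) (i : Ix A) :
    (r • x).co i = r • x.co i := rfl

instance (A : UD F) : Algebra ℝ (BInf A) := Algebra.ofModule
  (by
    intro r x y
    apply BInf.ext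
    intro k
    simp only [BInf.co_mul, BInf.co_smul, Finset.smul_sum, smul_mul_assoc])
  (by
    intro r x y
    apply BInf.ext
    intro k
    simp only [BInf.co_mul, BInf.co_smul, Finset.smul_sum, smul_mul_assoc, mul_smul_comm])

instance (A : UD F) : FiniteDimensional ℝ (BInf A) :=
  inferInstanceAs (FiniteDimensional ℝ (Ix A → Rinf F))

/-- The coordinates as a linear equivalence. -/
def BInf.lin (A : UD F) : BInf A ≃ₗ[ℝ] (Ix A → Rinf F) := LinearEquiv.refl ℝ (Ix A → Rinf F)

theorem BInf.star_smul {A : UD F} (r : ℝ) (x : BInf A) : star (r • x) = r • star x := by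
  apply BInf.ext
  intro k
  simp only [BInf.co_star, BInf.co_smul, Finset.smul_sum, smul_mul_assoc]

/-- The embedding of `B` in `B ⊗ ℝ`. -/
def theta (A : UD F) : BF A →+* BInf A := bE A (mixedEmbedding F)

@[simp] theorem theta_co (A : UD F) (x : BF A) (i : Ix A) :
    (theta A x).co i = mixedEmbedding F (x.co i) := rfl

theorem theta_inj (A : UD F) : Function.Injective (theta A) := by
  intro x y h
  apply SC.Alg.ext
  intro i
  exact mixedEmbedding_injective F (congrArg (fun z : BInf A => z.co i) h)

theorem theta_star (A : UD F) (x : BF A) : theta A (star x) = star (theta A x) :=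
  bE_star A (mixedEmbedding F) x

/-- An element of the group of the rational points as a unit of `B`. -/
def uK {A : UD F} (γ : (sysU A).G) : (BF A)ˣ := (show UF A from γ).1

theorem uK_mul {A : UD F} (γ δ : (sysU A).G) : uK (γ * δ) = uK γ * uK δ := rfl

theorem uK_one {A : UD F} : uK (1 : (sysU A).G) = 1 := rfl

theorem uK_inj {A : UD F} {γ δ : (sysU A).G} (h : (uK γ).1 = (uK δ).1) : γ = δ := by
  apply Subtype.ext
  exact Units.ext h

theorem uK_star {A : UD F} (γ : (sysU A).G) : star (uK γ).1 = ((uK γ)⁻¹ : (BF A)ˣ).1 :=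
  star_eq_inv (show UF A from γ).2

theorem uK_star_mul {A : UD F} (γ : (sysU A).G) : star (uK γ).1 * (uK γ).1 = 1 :=
  (show UF A from γ).2

theorem uK_mul_star {A : UD F} (γ : (sysU A).G) : (uK γ).1 * star (uK γ).1 = 1 := by
  rw [uK_star, Units.mul_inv]

/-- The embedding of `G` in the group of the units of `B ⊗ ℝ`. -/
def thU (A : UD F) : (sysU A).G →* (BInf A)ˣ where
  toFun γ := Units.map (theta A : BF A →* BInf A) (uK γ)
  map_one' := by rw [uK_one, map_one]
  map_mul' γ δ := by rw [uK_mul, map_mul]

theorem thU_val (A : UD F) (γ : (sysU A).G) : (thU A γ).1 = theta A (uK γ).1 := rfl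

/-- The projection to a real place. -/
def prR {A : UD F} (w : RPl F) : BInf A →ₐ[ℝ] BE A (embR w) where
  toFun x := SC.Alg.mk fun i => (x.co i).1 w
  map_one' := rfl
  map_zero' := rfl
  map_add' _ _ := rfl
  map_mul' x y := by
    apply SC.Alg.ext
    intro k
    change (∑ i, ∑ j, x.co i * y.co j * mixedEmbedding F (A.sF.c i j k) : Rinf F).1 w =
      ∑ i, ∑ j, (x.co i).1 w * (y.co j).1 w * embR w (A.sF.c i j k)
    simp only [Prod.fst_sum, Finset.sum_apply]
    rfl
  commutes' r := by
    apply SC.Alg.ext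
    intro i
    change (r • (1 : BInf A).co i).1 w = r * (embR w (A.sF.u i))
    rfl

theorem prR_star {A : UD F} (w : RPl F) (x : BInf A) : prR w (star x) = star (prR w x) := by
  apply SC.Alg.ext
  intro k
  change (∑ i, x.co i * mixedEmbedding F (A.sF.t i k) : Rinf F).1 w =
    ∑ i, (x.co i).1 w * embR w (A.sF.t i k)
  simp only [Prod.fst_sum, Finset.sum_apply]
  rfl

/-- The projection to a complex place. -/
def prC {A : UD F} (w : CPl F) : BInf A →ₐ[ℝ] BE A w.1.embedding where
  toFun x := SC.Alg.mk fun i => (x.co i).2 w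
  map_one' := rfl
  map_zero' := rfl
  map_add' _ _ := rfl
  map_mul' x y := by
    apply SC.Alg.ext
    intro k
    change (∑ i, ∑ j, x.co i * y.co j * mixedEmbedding F (A.sF.c i j k) : Rinf F).2 w =
      ∑ i, ∑ j, (x.co i).2 w * (y.co j).2 w * w.1.embedding (A.sF.c i j k)
    simp only [Prod.snd_sum, Finset.sum_apply]
    rfl
  commutes' r := by
    apply SC.Alg.ext
    intro i
    change (r • (1 : BInf A).co i).2 w = (r : ℂ) * (w.1.embedding (A.sF.u i))
    rw [Prod.smul_snd, Pi.smul_apply, Complex.real_smul]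
    rfl

theorem prC_star {A : UD F} (w : CPl F) (x : BInf A) : prC w (star x) = star (prC w x) := by
  apply SC.Alg.ext
  intro k
  change (∑ i, x.co i * mixedEmbedding F (A.sF.t i k) : Rinf F).2 w =
    ∑ i, (x.co i).2 w * w.1.embedding (A.sF.t i k)
  simp only [Prod.snd_sum, Finset.sum_apply]
  rfl

/-- An element of `B ⊗ ℝ` with given components at the infinite places. -/
theorem exists_pr {A : UD F} (a : ∀ w : RPl F, BE A (embR w))
    (b : ∀ w : CPl F, BE A w.1.embedding) :
    ∃ x : BInf A, (∀ w, prR w x = a w) ∧ ∀ w, prC w x = b w :=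
  ⟨BInf.mk fun i => (fun w => (a w).co i, fun w => (b w).co i), fun _ => rfl, fun _ => rfl⟩

theorem pr_ext {A : UD F} {x y : BInf A} (h1 : ∀ w : RPl F, prR w x = prR w y)
    (h2 : ∀ w : CPl F, prC w x = prC w y) : x = y := by
  apply BInf.ext
  intro i
  apply Prod.ext
  · funext w
    exact congrArg (fun z => SC.Alg.co z i) (h1 w)
  · funext w
    exact congrArg (fun z => SC.Alg.co z i) (h2 w)

theorem prR_theta {A : UD F} (w : RPl F) (x : BF A) : prR w (theta A x) = bE A (embR w) x := rfl

theorem prC_theta {A : UD F} (w : CPl F) (x : BF A) :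
    prC w (theta A x) = bE A w.1.embedding x := rfl

/-- The orientation character. -/
def epsU (A : UD F) : (sysU A).Sg →* ℤˣ where
  toFun s := (∏ᶠ w : SPl A, (show SPl A → ℤˣ from s) w) ^ (A.n + 1)
  map_one' := by
    have h : ∏ᶠ w : SPl A, (show SPl A → ℤˣ from (1 : (sysU A).Sg)) w = 1 := finprod_one
    rw [h, one_pow]
  map_mul' s t := by
    have h : ∏ᶠ w : SPl A, (show SPl A → ℤˣ from (s * t)) w =
        (∏ᶠ w : SPl A, (show SPl A → ℤˣ from s) w) *
          ∏ᶠ w : SPl A, (show SPl A → ℤˣ from t) w :=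
      finprod_mul_distrib (Set.toFinite _) (Set.toFinite _)
    rw [h, mul_pow]

end Pool.Agent.CGU
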