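import Pool.Agent.CGU.KLat
import Pool.Agent.CGU.KLB

/-!
# Compact sets of unitary elements
-/

noncomputable section

set_option linter.unusedSectionVars false
set_option linter.unusedVariables false

namespace Pool.Agent.CGU

open NumberField IsDedekindDomain Pool.Agent.CGQ
open Pool.Agent.CG2 (Pl Fv Ov)
open Pool.Agent.CGN (SC continuous_co continuous_alg co_nat)

variable {F : Type} [Field F] [NumberField F] {A : UD F}

/-- The elements `g` of the unitary group such that `M g` is integral. -/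
def DMU (A : UD F) (M : ℕ) (v : Pl F) : Set (UV A v) :=
  {g | IntB A v (((M : ℕ) : BV A v) * g.1.1)}


private theorem K_JA_cont (A : UD F) (v : Pl F) : Continuous (bint A v) :=
  continuous_alg fun i => (continuous_subtype_val (p := fun x : Fv v => x ∈ Ov v)).comp
    (continuous_co i)

private theorem K_JA_csmul {v : Pl F} (c : Fv v) : Continuous fun x : BV A v => c • x :=
  continuous_alg fun i => continuous_const.mul (continuous_co i)

private theorem K_JA_smul_nat {v : Pl F} {M : ℕ} (hM0 : ((M : ℕ) : Fv v) ≠ 0) :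
    ((M : ℕ) : Fv v)⁻¹ • ((M : ℕ) : BV A v) = 1 := by
  have h1 : ((M : ℕ) : BV A v) = ((M : ℕ) : Fv v) • (1 : BV A v) := by
    rw [Nat.cast_smul_eq_nsmul, nsmul_eq_mul, mul_one]
  rw [h1, smul_smul, inv_mul_cancel₀ hM0, one_smul]

private theorem K_JA_mul {v : Pl F} {M : ℕ} (hM0 : ((M : ℕ) : Fv v) ≠ 0) {x y : BO A v}
    (h : x * y = ((M : ℕ) : BO A v) * ((M : ℕ) : BO A v)) :
    (((M : ℕ) : Fv v)⁻¹ • bint A v x) * (((M : ℕ) : Fv v)⁻¹ • bint A v y) = 1 := by
  rw [smul_mul_assoc, mul_smul_comm, ← map_mul, h, map_mul, map_natCast, ← mul_smul_comm,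
    K_JA_smul_nat hM0, mul_one, K_JA_smul_nat hM0]

/-- PROOF. Port of `CGN.DMA_compact` (`CGN/KNB.lean`): the set `P` of the `X` in the compact ring `BO A v` with
`star X * X = M ^ 2` and `X * star X = M ^ 2` is closed, so compact, and `DMU A M v` is the image of `P` under the
continuous map `X ↦ M⁻¹ • bint X`, with inverse `M⁻¹ • bint (star X)` (`bint_star`, `continuous_star_alg`,
`Units.continuous_iff`, `Continuous.subtype_mk`). -/
theorem DMU_compact (M : ℕ) (hM : M ≠ 0) (v : Pl F) : IsCompact (DMU A M v) := by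
  have hM0 : ((M : ℕ) : Fv v) ≠ 0 := by
    intro h
    exact CG2.KoeLat_val_natCast_ne v hM (by rw [h, map_zero])
  have h0 : CompactSpace (Ov v) := inferInstance
  have hcO : CompactSpace (BO A v) := inferInstance
  let P : Set (BO A v) :=
    {X | star X * X = ((M : ℕ) : BO A v) * ((M : ℕ) : BO A v) ∧
      X * star X = ((M : ℕ) : BO A v) * ((M : ℕ) : BO A v)}
  have hP : IsClosed P := by
    have cs : Continuous fun X : BO A v => star X := continuous_star_alg
    exact IsClosed.inter (isClosed_eq (cs.mul continuous_id) continuous_const)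
      (isClosed_eq (continuous_id.mul cs) continuous_const)
  have hPc : CompactSpace P := isCompact_iff_compactSpace.1 hP.isCompact
  have hιc := K_JA_cont A v
  let f₀ : P → (BV A v)ˣ := fun p =>
    ⟨((M : ℕ) : Fv v)⁻¹ • bint A v p.1, ((M : ℕ) : Fv v)⁻¹ • bint A v (star p.1),
      K_JA_mul hM0 p.2.2, K_JA_mul hM0 p.2.1⟩
  have hf₀ : Continuous f₀ := by
    have c1 : Continuous fun p : P => p.1 := continuous_subtype_val
    have c2 : Continuous fun p : P => star p.1 := continuous_star_alg.comp c1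
    refine Units.continuous_iff.2 ⟨?_, ?_⟩
    · exact (K_JA_csmul (((M : ℕ) : Fv v)⁻¹)).comp (hιc.comp c1)
    · exact (K_JA_csmul (((M : ℕ) : Fv v)⁻¹)).comp (hιc.comp c2)
  let f : P → UV A v := fun p => ⟨f₀ p, by
    change star (((M : ℕ) : Fv v)⁻¹ • bint A v p.1) * (((M : ℕ) : Fv v)⁻¹ • bint A v p.1) = 1
    rw [star_smul_alg, ← bint_star]
    exact K_JA_mul hM0 p.2.1⟩
  have hf : Continuous f := hf₀.subtype_mk _
  have hr : DMU A M v = Set.range f := by
    ext g
    constructor
    · intro h1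
      obtain ⟨X, hA⟩ := (intB_iff A v _).1 h1
      have hg1 : star g.1.1 * g.1.1 = 1 := g.2
      have hg2 : g.1.1 * star g.1.1 = 1 := by
        rw [star_eq_inv g.2, Units.mul_inv]
      have hst : star (((M : ℕ) : BV A v) * g.1.1) = star g.1.1 * ((M : ℕ) : BV A v) := by
        rw [star_mul, star_natCast]
      have hAB : star X * X = ((M : ℕ) : BO A v) * ((M : ℕ) : BO A v) := by
        apply bint_inj A v
        rw [map_mul, bint_star, hA, map_mul, map_natCast, hst,
          (Nat.cast_commute M (star g.1.1)).symm.eq, mul_assoc, ← mul_assoc (star g.1.1),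
          (Nat.cast_commute M (star g.1.1)).symm.eq, mul_assoc, hg1, mul_one]
      have hBA : X * star X = ((M : ℕ) : BO A v) * ((M : ℕ) : BO A v) := by
        apply bint_inj A v
        rw [map_mul, bint_star, hA, map_mul, map_natCast, hst, mul_assoc, ← mul_assoc g.1.1, hg2,
          one_mul]
      refine ⟨⟨X, hAB, hBA⟩, ?_⟩
      apply Subtype.ext
      apply Units.ext
      change ((M : ℕ) : Fv v)⁻¹ • bint A v X = _
      rw [hA, ← smul_mul_assoc, K_JA_smul_nat hM0, one_mul]
    · rintro ⟨p, rfl⟩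
      have h1 : ((M : ℕ) : BV A v) * (f p).1.1 = bint A v p.1 := by
        change ((M : ℕ) : BV A v) * (((M : ℕ) : Fv v)⁻¹ • bint A v p.1) = _
        rw [mul_smul_comm, ← smul_mul_assoc, K_JA_smul_nat hM0, one_mul]
      change IntB A v (((M : ℕ) : BV A v) * (f p).1.1)
      rw [h1]
      exact (intB_iff A v _).2 ⟨_, rfl⟩
  rw [hr]
  exact isCompact_range hf

/-- PROOF. Port of `CGN.DMA_fin` (`mem_UZ_iff`). -/
theorem DMU_fin (M : ℕ) (hM : M ≠ 0) :
    {v : Pl F | ¬ DMU A M v ⊆ (UZ A v : Set (UV A v))}.Finite := by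
  refine (CG2.KoeCls_fin F M hM).subset ?_
  intro v hv h1
  apply hv
  intro g h2
  refine (mem_UZ_iff A v g).2 fun i => ?_
  have h4 := (intB_iff_co A v _).1 h2 i
  rw [co_nat, map_mul, h1, one_mul] at h4
  exact h4


end Pool.Agent.CGU
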