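import Pool.Agent.CGU.KSys
import Pool.Agent.CGU.KCp

/-!
# Finitely many orbits of cells
-/

noncomputable section

set_option linter.unusedSectionVars false
set_option linter.unusedVariables false

namespace Pool.Agent.CGU

open NumberField IsDedekindDomain Pool.Agent.CGQ Pool.Agent.CG3
open Pool.Agent.CG2 (Pl Fv Ov PolySys CellSys Asc)

variable {F : Type} [Field F] [NumberField F] {A : UD F} (R : RDat A)

/-- If `1` is a facet at `g` then `M0 g` is integral. -/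
theorem one_int {g : (sysU A).A} (h : (1 : (sysU A).G) ∈ LatE R g) (v : Pl F) :
    IntB A v (((M0 R : ℕ) : BV A v) * (gv g v).1) := by
  have h1 : IntB A v (iq g (((M0 R : ℕ) : BF A) * (uK (1 : (sysU A).G)).1) v) := h v
  have h2 : iq g (((M0 R : ℕ) : BF A) * (uK (1 : (sysU A).G)).1) v =
      ((M0 R : ℕ) : BV A v) * star (gv g v).1 := by
    have h3 : (uK (1 : (sysU A).G)).1 = 1 := rfl
    rw [iq, h3, mul_one, map_natCast, gv_star, (Nat.cast_commute (M0 R) _).eq]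
  rw [h2] at h1
  have h4 := h1.star
  rw [star_mul, star_star, star_natCast, ← (Nat.cast_commute (M0 R) _).eq] at h4
  exact h4

/-- There are only finitely many points modulo `K` at which `1` is a facet. -/
theorem one_fin {K : Subgroup (sysU A).A} (hK : OC K) :
    ∃ Φ : Set (sysU A).Pt, Φ.Finite ∧ ∀ y : (sysU A).Pt, (1 : (sysU A).G) ∈ LatE R y.2 →
      ∃ y₀ ∈ Φ, ∃ κ ∈ K, y = rt y₀ κ := by
  obtain ⟨Φ, hΦ, h⟩ := fin_cover (𝒟 := sysU A) (fun v => DMU A (M0 R) v)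
    (fun v => DMU_compact (M0 R) (M0_pos R).ne' v) (DMU_fin (M0 R) (M0_pos R).ne') hK
  refine ⟨(Set.univ : Set (sysU A).Sg) ×ˢ Φ, Set.finite_univ.prod hΦ, ?_⟩
  rintro ⟨s, g⟩ h1
  obtain ⟨φ, hφ, κ, hκ, hg⟩ := h g fun v => one_int R h1 v
  refine ⟨(s, φ), ⟨Set.mem_univ _, hφ⟩, κ, hκ, ?_⟩
  rw [rt, hg]

variable (N : ℕ) (hN : N0 R ≤ N) (C : Cls A N → ℝ) (hC : GoodC R N C)

theorem koeU_faces (g : (sysU A).A) (e : (sysU A).G) :
    {T : Finset (sysU A).G | (koeU R N hN C hC g).Face T ∧ e ∈ T}.Finite := by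
  classical
  have hK := (koeU R N hN C hC g).comp (qe R e) (qe_pos R e) (9 / 8)
  have hB := PolySys.PolyA_tight_compact (P := koeU R N hN C hC g) _ hK (fun h hh => hh.1)
  refine (hB.toFinset.powerset.finite_toSet).subset ?_
  rintro T ⟨⟨hA, h, hh, hT⟩, he⟩
  rw [Finset.mem_coe, Finset.mem_powerset]
  intro x hx
  rw [Set.Finite.mem_toFinset]
  refine ⟨hA x hx, h, ⟨hh, ?_⟩, (hT x hx).le⟩
  have h1 : qe R e h = cA R N C g e := hT e he
  change qe R e h ≤ _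
  rw [h1]
  exact (cA_lt R N C hC g e).2.le

theorem orbU {K : Subgroup (sysU A).A} (hK : K ≤ KNA A N) (hO : OC K) :
    {p : PtK K × Finset (sysU A).G | (((famU R N hN C hC).cs hK).X p.1).cell p.2 ∧
      (1 : (sysU A).G) ∈ p.2}.Finite := by
  classical
  obtain ⟨Φ, hΦ, hcov⟩ := one_fin R hO
  have hfin : (⋃ y₀ ∈ Φ, (fun T => (mkK K y₀, T)) '' {T : Finset (sysU A).G |
      (koeU R N hN C hC y₀.2).Face T ∧ (1 : (sysU A).G) ∈ T}).Finite :=
    hΦ.biUnion fun y₀ _ => (koeU_faces R N hN C hC y₀.2 1).image _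
  refine hfin.subset ?_
  rintro ⟨b, T⟩ ⟨hT, h1⟩
  obtain ⟨y, rfl⟩ := mkK_surj b
  have hcell : (koeU R N hN C hC y.2).Cell T := by
    have h2 := congrFun (PFam.cs_cell (famU R N hN C hC) hK y) T
    change (((famU R N hN C hC).cs hK).X (mkK K y)).cell T at hT
    rw [h2] at hT
    exact hT
  obtain ⟨hA, h, hh, hT'⟩ := hcell.1
  obtain ⟨y₀, hy₀, κ, hκ, hyκ⟩ := hcov y (hA 1 h1)
  simp only [Set.mem_iUnion]
  refine ⟨y₀, hy₀, T, ⟨?_, h1⟩, ?_⟩
  · have h2 := hcell.1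
    rw [hyκ] at h2
    exact (koeU_face_mul R N hN C hC y₀.2 (hK hκ) T).1 h2
  · change (mkK K y₀, T) = (mkK K y, T)
    rw [hyκ, mkK_rt y₀ hκ]

end Pool.Agent.CGU
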