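import Mathlib

/-!
# Minkowski's theorem: many short vectors
-/

noncomputable section

set_option linter.unusedVariables false

namespace Pool.Agent.CGU

open Matrix


/-- PROOF. Minkowski's theorem for the lattice `ℤ^m` in `ℝ^m` (with the Lebesgue measure, fundamental domain of
volume `1`: `ZSpan.isAddFundamentalDomain (Pi.basisFun ℝ (Fin m))`,
`MeasureTheory.exists_ne_zero_mem_lattice_of_measure_mul_two_pow_lt_measure`): an image of the cube `(-1, 1)^m` under a
linear map `L` with `1 < |det L|` contains a non-zero integer vector; its volume is `|det L| 2 ^ m`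
(`MeasureTheory.Measure.addHaar_image_linearMap`, `Real.volume_pi_Ioo`). -/
theorem mink_cube (m : ℕ) (L : Matrix (Fin m) (Fin m) ℝ) (hL : 1 < |L.det|) :
    ∃ x : Fin m → ℤ, x ≠ 0 ∧ ∃ t : Fin m → ℝ, (∀ i, |t i| < 1) ∧ L *ᵥ t = fun i => (x i : ℝ) := by
  classical
  have fund := ZSpan.isAddFundamentalDomain' (Pi.basisFun ℝ (Fin m))
    (MeasureTheory.volume : MeasureTheory.Measure (Fin m → ℝ))
  have hF : MeasureTheory.volume (ZSpan.fundamentalDomain (Pi.basisFun ℝ (Fin m))) = 1 := by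
    rw [ZSpan.fundamentalDomain_pi_basisFun, Real.volume_pi_Ico]
    simp
  obtain ⟨s, hs⟩ : ∃ s : Set (Fin m → ℝ), s = (Matrix.toLin' L) ''
      (Set.pi Set.univ fun _ => Set.Ioo (-1 : ℝ) 1) := ⟨_, rfl⟩
  have hvol : MeasureTheory.volume s = ENNReal.ofReal |L.det| * 2 ^ m := by
    rw [hs, MeasureTheory.Measure.addHaar_image_linearMap, LinearMap.det_toLin',
      Real.volume_pi_Ioo]
    congr 1
    rw [Finset.prod_const, Finset.card_univ, Fintype.card_fin]
    norm_num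
  have hsymm : ∀ x ∈ s, -x ∈ s := by
    rw [hs]
    rintro _ ⟨t, ht, rfl⟩
    refine ⟨-t, ?_, by rw [map_neg]⟩
    intro i hi
    have h1 := ht i hi
    rw [Pi.neg_apply]
    exact ⟨by linarith [h1.2], by linarith [h1.1]⟩
  have hconv : Convex ℝ s := by
    rw [hs]
    exact (convex_pi fun i _ => convex_Ioo (-1 : ℝ) 1).linear_image _
  have h2 : MeasureTheory.volume (ZSpan.fundamentalDomain (Pi.basisFun ℝ (Fin m))) *
      2 ^ Module.finrank ℝ (Fin m → ℝ) < MeasureTheory.volume s := by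
    rw [hF, hvol, one_mul, Module.finrank_fin_fun]
    have h3 : (1 : ENNReal) < ENNReal.ofReal |L.det| := by
      rw [← ENNReal.ofReal_one]
      exact (ENNReal.ofReal_lt_ofReal_iff (lt_trans one_pos hL)).2 hL
    calc (2 : ENNReal) ^ m = 1 * 2 ^ m := (one_mul _).symm
      _ < ENNReal.ofReal |L.det| * 2 ^ m := by
        apply ENNReal.mul_lt_mul_left
        · exact pow_ne_zero _ (by norm_num)
        · exact ENNReal.pow_ne_top (by norm_num)
        · exact h3
  have hcount : Countable (Submodule.span ℤ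
      (Set.range (Pi.basisFun ℝ (Fin m)))).toAddSubgroup := by
    change Countable (Submodule.span ℤ (Set.range (Pi.basisFun ℝ (Fin m))))
    infer_instance
  obtain ⟨x, hx0, hx⟩ :=
    MeasureTheory.exists_ne_zero_mem_lattice_of_measure_mul_two_pow_lt_measure fund hsymm hconv h2
  have hxm : (x : Fin m → ℝ) ∈ Submodule.span ℤ (Set.range (Pi.basisFun ℝ (Fin m))) := x.2
  rw [Module.Basis.mem_span_iff_repr_mem] at hxm
  choose z hz using hxm
  rw [hs] at hx
  obtain ⟨t, ht, htx⟩ := hx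
  have hzx : (x : Fin m → ℝ) = fun i => (z i : ℝ) := by
    funext i
    have h3 := hz i
    rw [Pi.basisFun_repr] at h3
    exact h3.symm
  refine ⟨z, ?_, t, fun i => ?_, ?_⟩
  · intro h3
    apply hx0
    apply Subtype.ext
    rw [hzx, h3]
    funext i
    simp
  · have h3 := ht i (Set.mem_univ i)
    exact abs_lt.2 ⟨h3.1, h3.2⟩
  · rw [← hzx, ← htx]
    rfl



open scoped MatrixOrder in
private theorem MB_sqrt {n : ℕ} (M : Matrix (Fin n) (Fin n) ℝ) (hM : M.PosDef) :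
    ∃ B : Matrix (Fin n) (Fin n) ℝ, M = Bᵀ * B := by
  obtain ⟨B, hB⟩ := CStarAlgebra.nonneg_iff_eq_star_mul_self.mp hM.posSemidef.nonneg
  refine ⟨B, ?_⟩
  rw [hB, Matrix.star_eq_conjTranspose]
  rfl

private theorem MB_orth (k : ℕ) (W : Submodule ℝ (Fin (k + 1) → ℝ)) (hW : W ≠ ⊤) :
    ∃ O : Matrix (Fin (k + 1)) (Fin (k + 1)) ℝ, Oᵀ * O = 1 ∧
      ∀ t : Fin (k + 1) → ℝ, O *ᵥ t ∈ W → t (Fin.last k) = 0 := by
  classical
  let e : (Fin (k + 1) → ℝ) ≃ₗ[ℝ] EuclideanSpace ℝ (Fin (k + 1)) :=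
    (WithLp.linearEquiv 2 ℝ (Fin (k + 1) → ℝ)).symm
  have he : ∀ v i, e v i = v i := fun v i => rfl
  have hin : ∀ x y : EuclideanSpace ℝ (Fin (k + 1)), inner ℝ x y = ∑ i, x i * y i := by
    intro x y
    rw [PiLp.inner_apply]
    refine Finset.sum_congr rfl fun i _ => ?_
    exact mul_comm _ _
  let W' : Submodule ℝ (EuclideanSpace ℝ (Fin (k + 1))) := W.map e.toLinearMap
  have hW' : W' ≠ ⊤ := by
    intro h
    apply hW
    rw [eq_top_iff]
    intro v _
    have h1 : e v ∈ W' := by rw [h]; exact Submodule.mem_top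
    obtain ⟨w, hw, hwv⟩ := h1
    rw [← e.injective hwv]
    exact hw
  have hW2 : W'ᗮ ≠ ⊥ := fun h => hW' (Submodule.orthogonal_eq_bot_iff.1 h)
  obtain ⟨f, hf, hf0⟩ := Submodule.exists_mem_ne_zero_of_ne_bot hW2
  obtain ⟨g, hg⟩ : ∃ g, g = (‖f‖)⁻¹ • f := ⟨_, rfl⟩
  have hgn : ‖g‖ = 1 := by
    rw [hg, norm_smul, norm_inv, norm_norm, inv_mul_cancel₀ (norm_ne_zero_iff.2 hf0)]
  have hgW : g ∈ W'ᗮ := by rw [hg]; exact Submodule.smul_mem _ _ hf
  have hon : Orthonormal ℝ (({Fin.last k} : Set (Fin (k + 1))).domRestrict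
      (fun _ : Fin (k + 1) => g)) := by
    constructor
    · intro i
      exact hgn
    · intro i j hij
      exact absurd (Subsingleton.elim i j) hij
  obtain ⟨b, hb⟩ := hon.exists_orthonormalBasis_extension_of_card_eq (by simp)
  have hbl : b (Fin.last k) = g := hb _ rfl
  refine ⟨Matrix.of fun j i => b i j, ?_, ?_⟩
  · ext i j
    rw [Matrix.mul_apply]
    show ∑ l, b i l * b j l = (1 : Matrix (Fin (k + 1)) (Fin (k + 1)) ℝ) i j
    rw [← hin, Matrix.one_apply]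
    exact orthonormal_iff_ite.1 b.orthonormal i j
  · intro t ht
    have h1 : inner ℝ (e ((Matrix.of fun j i => b i j) *ᵥ t)) g = 0 :=
      (Submodule.mem_orthogonal _ _).1 hgW _ ⟨_, ht, rfl⟩
    have h2 : e ((Matrix.of fun j i => b i j) *ᵥ t) = ∑ i, t i • b i := by
      ext j
      rw [he]
      show ∑ i, b i j * t i = (∑ i, t i • b i) j
      rw [WithLp.ofLp_sum, Finset.sum_apply]
      refine Finset.sum_congr rfl fun i _ => ?_
      exact mul_comm _ _
    rw [h2, ← hbl, sum_inner, Finset.sum_eq_single (Fin.last k)] at h1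
    · rw [real_inner_smul_left, orthonormal_iff_ite.1 b.orthonormal, if_pos rfl, mul_one] at h1
      exact h1
    · intro i _ hi
      rw [real_inner_smul_left, orthonormal_iff_ite.1 b.orthonormal, if_neg hi, mul_zero]
    · intro h3
      exact absurd (Finset.mem_univ _) h3

/-- PROOF. Let `W` be a proper subspace; choose an orthonormal basis of `ℝ^m` for the scalar product `M` such that all
but the last vector are in a hyperplane containing `W`: i.e. an invertible matrix `E` with `Eᵀ M E = 1` such that the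
linear functional `x ↦ (E⁻¹ x) (last)` vanishes on `W`. (Gram-Schmidt; for example with the inner product space
structure given by `M` (`Matrix.PosDef`, `Matrix.toInnerProductSpace` or `InnerProductSpace.Core`): take a unit vector
`f` orthogonal to a hyperplane containing `W` (`Submodule.orthogonal` of `W` is not `0`), and an orthonormal basis
extending `f`; then reorder.) -/
theorem exists_frame (k : ℕ) (M : Matrix (Fin (k + 1)) (Fin (k + 1)) ℝ) (hM : M.PosDef)
    (W : Submodule ℝ (Fin (k + 1) → ℝ)) (hW : W ≠ ⊤) :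
    ∃ E : Matrix (Fin (k + 1)) (Fin (k + 1)) ℝ, Eᵀ * M * E = 1 ∧
      ∀ t : Fin (k + 1) → ℝ, E *ᵥ t ∈ W → t (Fin.last k) = 0 := by
  classical
  obtain ⟨B, hB⟩ := MB_sqrt M hM
  have hdet : IsUnit B.det := by
    rw [isUnit_iff_ne_zero]
    intro h0
    have h1 := hM.det_pos
    rw [hB, Matrix.det_mul, h0, mul_zero] at h1
    exact lt_irrefl _ h1
  have h1 : B * B⁻¹ = 1 := Matrix.mul_nonsing_inv _ hdet
  have h2 : B⁻¹ * B = 1 := Matrix.nonsing_inv_mul _ hdet
  have hW' : W.map (Matrix.toLin' B) ≠ ⊤ := by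
    intro h
    apply hW
    rw [eq_top_iff]
    intro v _
    have h3 : B *ᵥ v ∈ W.map (Matrix.toLin' B) := by rw [h]; exact Submodule.mem_top
    obtain ⟨w, hw, hwv⟩ := h3
    have h4 : B *ᵥ w = B *ᵥ v := hwv
    have h5 := congrArg (fun z => B⁻¹ *ᵥ z) h4
    simp only [Matrix.mulVec_mulVec, h2, Matrix.one_mulVec] at h5
    rw [← h5]
    exact hw
  obtain ⟨O, hO1, hO2⟩ := MB_orth k _ hW'
  refine ⟨B⁻¹ * O, ?_, ?_⟩
  · have h3 : (B⁻¹)ᵀ * Bᵀ = 1 := by rw [← Matrix.transpose_mul, h1, Matrix.transpose_one]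
    rw [Matrix.transpose_mul, hB]
    calc Oᵀ * (B⁻¹)ᵀ * (Bᵀ * B) * (B⁻¹ * O) = Oᵀ * ((B⁻¹)ᵀ * Bᵀ) * (B * B⁻¹) * O := by
          simp only [Matrix.mul_assoc]
      _ = 1 := by rw [h3, h1, Matrix.mul_one, Matrix.mul_one, hO1]
  · intro t ht
    apply hO2
    refine ⟨_, ht, ?_⟩
    show B *ᵥ ((B⁻¹ * O) *ᵥ t) = O *ᵥ t
    rw [Matrix.mulVec_mulVec, ← Matrix.mul_assoc, h1, Matrix.one_mul]



private theorem MC_basis (m : ℕ) (S : Set (Fin m → ℤ))
    (h : Submodule.span ℝ ((fun (x : Fin m → ℤ) => (fun i => (x i : ℝ) : Fin m → ℝ)) '' S) = ⊤) :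
    ∃ X : Fin m → Fin m → ℤ, LinearIndependent ℝ (fun k => (fun i => (X k i : ℝ) : Fin m → ℝ)) ∧
      ∀ k, X k ∈ S := by
  obtain ⟨b, hb1, hb2, hb3⟩ := exists_linearIndependent ℝ
    ((fun (x : Fin m → ℤ) => (fun i => (x i : ℝ) : Fin m → ℝ)) '' S)
  rw [h] at hb2
  let bas : Module.Basis b ℝ (Fin m → ℝ) := Module.Basis.mk hb3 (by
    rw [Subtype.range_coe, hb2])
  have hfin : Finite b := Module.Finite.finite_basis bas
  have : Fintype b := Fintype.ofFinite b
  have hcard : Fintype.card b = m := by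
    rw [← Module.finrank_eq_card_basis bas, Module.finrank_fin_fun]
  let e : Fin m ≃ b := (Fintype.equivFinOfCardEq hcard).symm
  have hx : ∀ k, ∃ x ∈ S, (fun i => (x i : ℝ) : Fin m → ℝ) = e k := fun k => hb1 (e k).2
  choose X hXS hX using hx
  refine ⟨X, ?_, hXS⟩
  have h1 : (fun k => (fun i => (X k i : ℝ) : Fin m → ℝ)) = ((↑) : b → Fin m → ℝ) ∘ e := by
    funext k
    exact hX k
  rw [h1]
  exact hb3.comp _ e.injective

/-- PROOF. Let `m = k + 1` (`m = 0` is trivial), `c' = sqrt (c / (2 m))`, and let `r > 0` be so large that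
`c' ^ k * r > sqrt (V + 1)`. Claim: the integer vectors `x` with `x ⬝ M x ≤ C := c + r ^ 2` span `ℝ^m` (then choose a basis
among them). Otherwise let `W` be their span, `E` as in `exists_frame`, `(det E) ^ 2 * det M = 1`, and apply `mink_cube` to
`L = E * diagonal (c', ..., c', r)`: `|det L| = c' ^ k r / sqrt (det M) > 1`. There are `x ≠ 0` integral and `t` with
`|t i| < 1`, `x = L t = E s`, `s = (c' t_0, ..., c' t_{k-1}, r t_k)`, so `x ⬝ M x = s ⬝ s ≤ k c' ^ 2 + r ^ 2 ≤ C`: `x` is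
in `W`, so `s k = 0` and `x ⬝ M x ≤ k c' ^ 2 < c`, a contradiction. -/
theorem mink (m : ℕ) (c V : ℝ) (hc : 0 < c) : ∃ C : ℝ, ∀ M : Matrix (Fin m) (Fin m) ℝ,
    M.PosDef → M.det ≤ V →
    (∀ x : Fin m → ℤ, x ≠ 0 → c ≤ (fun i => (x i : ℝ)) ⬝ᵥ M *ᵥ fun i => (x i : ℝ)) →
    ∃ X : Fin m → Fin m → ℤ, LinearIndependent ℝ (fun k => (fun i => (X k i : ℝ) : Fin m → ℝ)) ∧
      ∀ k, (fun i => (X k i : ℝ)) ⬝ᵥ M *ᵥ (fun i => (X k i : ℝ)) ≤ C := by
  classical
  rcases m with _ | k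
  · exact ⟨0, fun M _ _ _ => ⟨fun i => i.elim0, linearIndependent_empty_type, fun i => i.elim0⟩⟩
  obtain ⟨c', hc'⟩ : ∃ c' : ℝ, c' = Real.sqrt (c / (2 * (k + 1))) := ⟨_, rfl⟩
  have hk : (0 : ℝ) < 2 * (k + 1) := by positivity
  have hc'pos : 0 < c' := by rw [hc']; exact Real.sqrt_pos.2 (div_pos hc hk)
  have hc'2 : c' ^ 2 = c / (2 * (k + 1)) := by
    rw [hc', Real.sq_sqrt (div_pos hc hk).le]
  have hkc : (k : ℝ) * c' ^ 2 ≤ c / 2 := by
    rw [hc'2, ← sub_nonneg]
    have h1 : c / 2 - k * (c / (2 * (k + 1))) = c / (2 * (k + 1)) := by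
      field_simp
      ring
    rw [h1]
    exact (div_pos hc hk).le
  obtain ⟨r, hr⟩ : ∃ r : ℝ, r = (|V| + 1) / c' ^ k := ⟨_, rfl⟩
  have hck : 0 < c' ^ k := pow_pos hc'pos k
  have hrpos : 0 < r := by rw [hr]; positivity
  have hR : c' ^ k * r = |V| + 1 := by rw [hr, mul_div_cancel₀ _ hck.ne']
  refine ⟨c + r ^ 2, fun M hM hMV hmin => ?_⟩
  -- the span of the short vectors
  let S : Set (Fin (k + 1) → ℤ) :=
    {x | (fun i => (x i : ℝ)) ⬝ᵥ M *ᵥ (fun i => (x i : ℝ)) ≤ c + r ^ 2}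
  have hspan : Submodule.span ℝ ((fun (x : Fin (k + 1) → ℤ) =>
      (fun i => (x i : ℝ) : Fin (k + 1) → ℝ)) '' S) = ⊤ := by
    by_contra hW
    obtain ⟨E, hE, hEW⟩ := exists_frame k M hM _ hW
    obtain ⟨d, hd⟩ : ∃ d : Fin (k + 1) → ℝ, d = Fin.snoc (fun _ : Fin k => c') r := ⟨_, rfl⟩
    have hdl : d (Fin.last k) = r := by rw [hd, Fin.snoc_last]
    have hdc : ∀ i : Fin k, d i.castSucc = c' := fun i => by rw [hd, Fin.snoc_castSucc]
    have hdd : (Matrix.diagonal d).det = c' ^ k * r := by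
      rw [Matrix.det_diagonal, Fin.prod_univ_castSucc, hdl]
      simp only [hdc]
      rw [Finset.prod_const, Finset.card_univ, Fintype.card_fin]
    have hEM : E.det ^ 2 * M.det = 1 := by
      have h1 := congrArg Matrix.det hE
      rw [Matrix.det_mul, Matrix.det_mul, Matrix.det_transpose, Matrix.det_one] at h1
      rw [← h1]
      ring
    have hdetL : 1 < |(E * Matrix.diagonal d).det| := by
      by_contra h1
      rw [not_lt] at h1
      have h2 : (E * Matrix.diagonal d).det ^ 2 ≤ 1 := by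
        rw [← sq_abs]
        exact pow_le_one₀ (abs_nonneg _) h1
      rw [Matrix.det_mul, hdd, hR, mul_pow] at h2
      have hMpos := hM.det_pos
      have h3 : E.det ^ 2 * (|V| + 1) ^ 2 * M.det ≤ 1 * M.det :=
        mul_le_mul_of_nonneg_right h2 hMpos.le
      have h4 : E.det ^ 2 * (|V| + 1) ^ 2 * M.det = (|V| + 1) ^ 2 := by
        calc E.det ^ 2 * (|V| + 1) ^ 2 * M.det = (E.det ^ 2 * M.det) * (|V| + 1) ^ 2 := by ring
          _ = (|V| + 1) ^ 2 := by rw [hEM, one_mul]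
      rw [h4, one_mul] at h3
      have h5 : V ≤ |V| := le_abs_self V
      have h6 : 0 ≤ |V| := abs_nonneg V
      nlinarith
    obtain ⟨x, hx0, t, ht, hxt⟩ := mink_cube (k + 1) _ hdetL
    obtain ⟨s, hs⟩ : ∃ s : Fin (k + 1) → ℝ, s = Matrix.diagonal d *ᵥ t := ⟨_, rfl⟩
    have hsi : ∀ i, s i = d i * t i := by
      intro i
      rw [hs, Matrix.mulVec_diagonal]
    have hxs : (fun i => (x i : ℝ)) = E *ᵥ s := by
      rw [hs, Matrix.mulVec_mulVec, hxt]
    have hq : (fun i => (x i : ℝ)) ⬝ᵥ M *ᵥ (fun i => (x i : ℝ)) =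
        (∑ i : Fin k, s i.castSucc ^ 2) + s (Fin.last k) ^ 2 := by
      have h1 : (E *ᵥ s) ⬝ᵥ M *ᵥ (E *ᵥ s) = s ⬝ᵥ s := by
        calc (E *ᵥ s) ⬝ᵥ M *ᵥ (E *ᵥ s) = (s ᵥ* Eᵀ) ⬝ᵥ (M *ᵥ (E *ᵥ s)) := by
              rw [Matrix.vecMul_transpose]
          _ = s ⬝ᵥ (Eᵀ *ᵥ (M *ᵥ (E *ᵥ s))) := (Matrix.dotProduct_mulVec _ _ _).symm
          _ = s ⬝ᵥ ((Eᵀ * M * E) *ᵥ s) := by
              rw [Matrix.mulVec_mulVec, Matrix.mulVec_mulVec]
          _ = s ⬝ᵥ s := by rw [hE, Matrix.one_mulVec]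
      rw [hxs, h1]
      show ∑ i, s i * s i = _
      rw [Fin.sum_univ_castSucc]
      simp only [sq]
    have hsum : ∑ i : Fin k, s i.castSucc ^ 2 ≤ c / 2 := by
      refine le_trans ?_ hkc
      calc ∑ i : Fin k, s i.castSucc ^ 2 ≤ ∑ i : Fin k, c' ^ 2 := by
            refine Finset.sum_le_sum fun i _ => ?_
            rw [hsi, hdc, mul_pow]
            have h1 : t i.castSucc ^ 2 ≤ 1 := by
              rw [← sq_abs]
              exact pow_le_one₀ (abs_nonneg _) (ht _).le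
            nlinarith [sq_nonneg c']
        _ = k * c' ^ 2 := by
          rw [Finset.sum_const, Finset.card_univ, Fintype.card_fin, nsmul_eq_mul]
    have hlast : s (Fin.last k) ^ 2 ≤ r ^ 2 := by
      rw [hsi, hdl, mul_pow]
      have h1 : t (Fin.last k) ^ 2 ≤ 1 := by
        rw [← sq_abs]
        exact pow_le_one₀ (abs_nonneg _) (ht _).le
      nlinarith [sq_nonneg r]
    have hxS : x ∈ S := by
      show (fun i => (x i : ℝ)) ⬝ᵥ M *ᵥ (fun i => (x i : ℝ)) ≤ c + r ^ 2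
      rw [hq]
      linarith
    have hs0 : s (Fin.last k) = 0 := by
      apply hEW
      rw [← hxs]
      exact Submodule.subset_span ⟨x, hxS, rfl⟩
    have h1 := hmin x hx0
    rw [hq, hs0] at h1
    linarith
  obtain ⟨X, hX1, hX2⟩ := MC_basis (k + 1) S hspan
  exact ⟨X, hX1, hX2⟩


end Pool.Agent.CGU
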