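import Pool.Agent.CGU.KOrd
import Pool.Agent.CGU.KMk

/-!
# Godement's compactness theorem
-/

noncomputable section

set_option linter.unusedSectionVars false
set_option linter.unusedVariables false

namespace Pool.Agent.CGU

open NumberField IsDedekindDomain
open Pool.Agent.CG2 (Pl Fv Ov)
open Pool.Agent.CGQ (Sys PA)
open Pool.Agent.CGN (SC)

variable {F : Type} [Field F] [NumberField F] {A : UD F}

instance (A : UD F) : Module ℚ (BF A) := inferInstanceAs (Module ℚ (Ix A → F))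

theorem co_qsmul (r : ℚ) (x : BF A) (i : Ix A) : SC.Alg.co (r • x) i = r • SC.Alg.co x i := rfl

/-- The dimension of `B ⊗ ℝ` over `ℝ`. -/
def dm (A : UD F) : ℕ := Module.finrank ℝ (BInf A)

/-- A `ℤ`-basis of the lattice `Lat g`. -/
structure ZB (g : (sysU A).A) where
  /-- the elements of the basis -/
  x : Fin (dm A) → BF A
  /-- as a basis of `B ⊗ ℝ` -/
  b : Module.Basis (Fin (dm A)) ℝ (BInf A)
  hb : ∀ i, b i = theta A (x i)
  mem : ∀ i, x i ∈ Lat g
  int : ∀ y ∈ Lat g, ∀ i, ∃ n : ℤ, b.repr (theta A y) i = n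


section GA

variable {E M : Type} [NormedAddCommGroup E] [NormedSpace ℝ E] [FiniteDimensional ℝ E]
  [AddCommGroup M]

/-- The lattice as a submodule. -/
private def GA_L (L : AddSubgroup M) (f : M →+ E) : Submodule ℤ E :=
  AddSubgroup.toIntSubmodule (L.map f)

private theorem GA_mem (L : AddSubgroup M) (f : M →+ E) (z : E) :
    z ∈ GA_L L f ↔ ∃ x ∈ L, f x = z := Iff.rfl

private theorem GA_disc (L : AddSubgroup M) (f : M →+ E) {r : ℝ} (hr0 : 0 < r)
    (hr : ∀ x ∈ L, x ≠ 0 → r ≤ ‖f x‖) : DiscreteTopology (GA_L L f) := by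
  refine DiscreteTopology.of_forall_le_norm hr0 ?_
  rintro ⟨z, hz⟩ hz0
  obtain ⟨x, hx, rfl⟩ := (GA_mem L f z).1 hz
  refine hr x hx ?_
  rintro rfl
  apply hz0
  apply Subtype.ext
  exact map_zero f

private theorem GA_span (L : AddSubgroup M) (f : M →+ E) {R : ℝ}
    (hR : ∀ z : E, ∃ x ∈ L, ‖z - f x‖ ≤ R) : Submodule.span ℝ (GA_L L f : Set E) = ⊤ := by
  rw [eq_top_iff]
  rintro z -
  have hcl : IsClosed ((Submodule.span ℝ (GA_L L f : Set E) : Submodule ℝ E) : Set E) :=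
    Submodule.closed_of_finiteDimensional _
  have hR0 : 0 ≤ R := by
    obtain ⟨x, _, hx⟩ := hR 0
    exact (norm_nonneg _).trans hx
  have hcl2 : z ∈ closure ((Submodule.span ℝ (GA_L L f : Set E) : Submodule ℝ E) : Set E) := by
    rw [Metric.mem_closure_iff]
    intro ε hε
    obtain ⟨n, hn⟩ := exists_nat_gt (R / ε)
    have hn0 : (0 : ℝ) < n := lt_of_le_of_lt (div_nonneg hR0 hε.le) hn
    obtain ⟨x, hx, hx2⟩ := hR ((n : ℝ) • z)
    refine ⟨(n : ℝ)⁻¹ • f x, Submodule.smul_mem _ _ (Submodule.subset_span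
      ((GA_mem L f _).2 ⟨x, hx, rfl⟩)), ?_⟩
    have h1 : z - (n : ℝ)⁻¹ • f x = (n : ℝ)⁻¹ • ((n : ℝ) • z - f x) := by
      rw [smul_sub, smul_smul, inv_mul_cancel₀ hn0.ne', one_smul]
    rw [dist_eq_norm, h1, norm_smul, norm_inv, Real.norm_natCast, inv_mul_lt_iff₀ hn0]
    rw [div_lt_iff₀ hε] at hn
    exact lt_of_le_of_lt hx2 hn
  rwa [hcl.closure_eq] at hcl2

private theorem GA_main (L : AddSubgroup M) (f : M →+ E) {r R : ℝ} (hr0 : 0 < r)
    (hr : ∀ x ∈ L, x ≠ 0 → r ≤ ‖f x‖) (hR : ∀ z : E, ∃ x ∈ L, ‖z - f x‖ ≤ R) {m : ℕ}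
    (hm : Module.finrank ℝ E = m) : ∃ (x : Fin m → M) (b : Module.Basis (Fin m) ℝ E),
      (∀ i, b i = f (x i)) ∧ (∀ i, x i ∈ L) ∧ ∀ y ∈ L, ∀ i, ∃ n : ℤ, b.repr (f y) i = n := by
  have hd : DiscreteTopology (GA_L L f) := GA_disc L f hr0 hr
  have hz : IsZLattice ℝ (GA_L L f) := ⟨GA_span L f hR⟩
  have hf := ZLattice.module_finite ℝ (GA_L L f)
  have hf2 := ZLattice.module_free ℝ (GA_L L f)
  have hrk : Module.finrank ℤ (GA_L L f) = m := by
    rw [ZLattice.rank ℝ (GA_L L f), hm]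
  let b0 : Module.Basis (Fin m) ℤ (GA_L L f) := Module.finBasisOfFinrankEq ℤ (GA_L L f) hrk
  have h1 : ∀ i, ∃ x ∈ L, f x = (b0 i : E) := fun i => (GA_mem L f _).1 (b0 i).2
  choose x hx hx2 using h1
  refine ⟨x, b0.ofZLatticeBasis ℝ (GA_L L f), fun i => ?_, hx, fun y hy i => ?_⟩
  · rw [hx2]
    exact b0.ofZLatticeBasis_apply ℝ (GA_L L f) i
  · exact ⟨b0.repr ⟨f y, (GA_mem L f _).2 ⟨y, hy, rfl⟩⟩ i,
      b0.ofZLatticeBasis_repr_apply ℝ (GA_L L f) ⟨f y, (GA_mem L f _).2 ⟨y, hy, rfl⟩⟩ i⟩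

end GA

private theorem GA_low (g : (sysU A).A) : ∃ r : ℝ, 0 < r ∧
    ∀ x ∈ Lat g, x ≠ 0 → r ≤ nB (theta A x) := by
  have hfin := lat_disc g 1
  obtain ⟨r, hr0, hr1, hr⟩ : ∃ r : ℝ, 0 < r ∧ r ≤ 1 ∧
      ∀ x ∈ {x : BF A | x ∈ Lat g ∧ nB (theta A x) ≤ 1}, x ≠ 0 → r ≤ nB (theta A x) := by
    obtain ⟨s, hs⟩ := hfin.exists_finset_coe
    rw [← hs]
    clear hs hfin
    classical
    induction s using Finset.induction_on with
    | empty => exact ⟨1, one_pos, le_rfl, fun x hx => absurd hx (by simp)⟩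
    | insert a s ha ih =>
      obtain ⟨r, h0, h1, h2⟩ := ih
      by_cases h : a = 0
      · refine ⟨r, h0, h1, fun x hx hx0 => ?_⟩
        rw [Finset.coe_insert, Set.mem_insert_iff] at hx
        rcases hx with hx | hx
        · exact absurd (hx.trans h) hx0
        · exact h2 x hx hx0
      · have hpos : 0 < nB (theta A a) := by
          refine lt_of_le_of_ne (nB_nonneg _) fun h3 => h ?_
          apply theta_inj A
          rw [map_zero]
          exact nB_eq_zero.1 h3.symm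
        refine ⟨min r (nB (theta A a)), lt_min h0 hpos, (min_le_left _ _).trans h1,
          fun x hx hx0 => ?_⟩
        rw [Finset.coe_insert, Set.mem_insert_iff] at hx
        rcases hx with hx | hx
        · rw [hx]
          exact min_le_right _ _
        · exact (min_le_left _ _).trans (h2 x hx hx0)
  refine ⟨r, hr0, fun x hx hx0 => ?_⟩
  by_cases h : nB (theta A x) ≤ 1
  · exact hr x ⟨hx, h⟩ hx0
  · exact hr1.trans (not_le.1 h).le

/-- PROOF. The image `L` of `Lat g` in `BInf A` (or in `Ix A → Rinf F` by `BInf.lin`) is discrete (`lat_disc`) and spans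
`BInf A` over `ℝ` (`lat_coc`), so it is a `ℤ`-lattice: `ZLattice.module_free`, `ZLattice.rank`,
`Module.Basis.ofZLatticeBasis`. (Another way: by `Lat_bounds` `N * OB ⊆ Lat g ⊆ N⁻¹ OB`, so `Lat g` is a free
`ℤ`-module of the rank of `OB` (`exists_OB_basis`): `Submodule.basisOfPid`, and so on.) -/
theorem exists_ZB (g : (sysU A).A) : Nonempty (ZB g) := by
  classical
  obtain ⟨r, hr0, hr⟩ := GA_low g
  obtain ⟨R, hR⟩ := lat_coc g
  obtain ⟨x, b, h1, h2, h3⟩ := GA_main (E := Ix A → Rinf F) (M := BF A) (Lat g)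
    (((BInf.lin A).toLinearMap.toAddMonoidHom).comp (theta A : BF A →+ BInf A)) hr0 hr
    (fun z => hR ((BInf.lin A).symm z)) (m := dm A) (LinearEquiv.finrank_eq (BInf.lin A)).symm
  refine ⟨⟨x, b.map (BInf.lin A).symm, fun i => ?_, h2, fun y hy i => ?_⟩⟩
  · rw [Module.Basis.map_apply, LinearEquiv.symm_apply_eq, h1]
    rfl
  · obtain ⟨n, hn⟩ := h3 y hy i
    exact ⟨n, hn⟩



private theorem GB_smul (q : ℚ) (x : BF A) : theta A (q • x) = (q : ℝ) • theta A x := by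
  have h := map_ratCast_smul (theta A) ℚ ℝ q x
  rwa [Rat.cast_id] at h

private theorem GB_nat (n : ℕ) (x : BF A) :
    theta A (((n : ℕ) : BF A) * x) = (n : ℝ) • theta A x := by
  rw [map_mul, map_natCast, ← nsmul_eq_mul, Nat.cast_smul_eq_nsmul ℝ]

private theorem GB_sum {ι : Type} (s : Finset ι) (c : ι → ℝ) (w : BInf A) (b : ι → BInf A) :
    tf A (w * ∑ j ∈ s, c j • b j) = ∑ j ∈ s, c j * tf A (w * b j) := by
  rw [Finset.mul_sum, map_sum]
  exact Finset.sum_congr rfl fun j _ => by rw [mul_smul_comm, map_smul, smul_eq_mul]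

private theorem GB_sum' {ι : Type} (s : Finset ι) (c : ι → ℝ) (w : BInf A) (b : ι → BInf A) :
    tf A (star (∑ j ∈ s, c j • b j) * w) = ∑ j ∈ s, c j * tf A (star (b j) * w) := by
  rw [star_sum, Finset.sum_mul, map_sum]
  exact Finset.sum_congr rfl fun j _ => by
    rw [BInf.star_smul, smul_mul_assoc, map_smul, smul_eq_mul]

/-- PROOF. Let `G i j = tf (star (b i) * b j)`, an integral matrix by `star_mul_mem`, `tf_int`, with `det G ≠ 0`
(`tf_nondeg`). Let `k` be an index and `c j = G⁻¹ j k` (rational numbers, `G⁻¹ = (det G)⁻¹ adj G`), `y = ∑ c j • x j` in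
`BF A`. Then `tf (star (x i) * y) = δ_ik`, so `tf (star x * y)` is an integer for `x` in `Lat g`, and `D y` is in
`Lat g` (`dual_D`), so `D c j` is an integer. So `D G⁻¹` is an integral matrix, its determinant `D ^ m / det G` is a
non-zero integer, so `|det G| ≤ D ^ m`. -/
theorem gram_le (R : RDat A) : ∃ V : ℝ, ∀ (g : (sysU A).A) (Z : ZB g),
    |(Matrix.of fun i j => tf A (star (Z.b i) * Z.b j)).det| ≤ V := by
  obtain ⟨D, hD, hD2⟩ := dual_D R
  refine ⟨(D : ℝ) ^ dm A, fun g Z => ?_⟩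
  have h1 : ∀ i j, ∃ n : ℤ, tf A (star (Z.b i) * Z.b j) = n := fun i j => by
    rw [Z.hb, Z.hb, ← theta_star, ← map_mul]
    exact tf_int (star_mul_mem (Z.mem i) (Z.mem j))
  choose G hG using h1
  have hGm : (Matrix.of fun i j => tf A (star (Z.b i) * Z.b j)) =
      (Int.castRingHom ℝ).mapMatrix (Matrix.of G) := by
    ext i j
    exact hG i j
  have hdet : (Matrix.of fun i j => tf A (star (Z.b i) * Z.b j)).det =
      ((Matrix.of G).det : ℝ) := by
    rw [hGm, ← RingHom.map_det]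
    rfl
  have hne : (Matrix.of G).det ≠ 0 := by
    intro h0
    have h2 : (Matrix.of fun i j => tf A (star (Z.b i) * Z.b j)).det = 0 := by
      rw [hdet, h0, Int.cast_zero]
    obtain ⟨v, hv, hv2⟩ := Matrix.exists_mulVec_eq_zero_iff.2 h2
    have h3 : ∑ j, v j • Z.b j = 0 := by
      refine tf_nondeg R fun y => ?_
      rw [← Z.b.sum_repr y, GB_sum]
      refine Finset.sum_eq_zero fun i _ => ?_
      have h4 : tf A (star (∑ j, v j • Z.b j) * Z.b i) =
          tf A (star (Z.b i) * ∑ j, v j • Z.b j) := by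
        rw [← tf_star, star_mul, star_star]
      rw [h4, GB_sum]
      have h5 := congrFun hv2 i
      have h6 : ∑ j, v j * tf A (star (Z.b i) * Z.b j) = 0 := by
        refine Eq.trans ?_ h5
        exact Finset.sum_congr rfl fun j _ => mul_comm _ _
      rw [h6, mul_zero]
    exact hv (funext fun i => Fintype.linearIndependent_iff.1 Z.b.linearIndependent v h3 i)
  -- the inverse matrix
  let GQ : Matrix (Fin (dm A)) (Fin (dm A)) ℚ := (Int.castRingHom ℚ).mapMatrix (Matrix.of G)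
  have hGQ : IsUnit GQ.det := by
    rw [← RingHom.map_det]
    exact isUnit_iff_ne_zero.2 (Int.cast_ne_zero.2 hne)
  have hinv : ∀ i k, ∑ j, (GQ⁻¹ j k : ℝ) * (G i j : ℝ) = if i = k then 1 else 0 := by
    intro i k
    have h2 := congrFun (congrFun (Matrix.mul_nonsing_inv GQ hGQ) i) k
    rw [Matrix.mul_apply, Matrix.one_apply] at h2
    have h3 : ((∑ j, GQ i j * GQ⁻¹ j k : ℚ) : ℝ) = ((if i = k then (1 : ℚ) else 0 : ℚ) : ℝ) := by
      rw [h2]
    rw [Rat.cast_sum] at h3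
    have h4 : (((if i = k then (1 : ℚ) else 0 : ℚ)) : ℝ) = if i = k then 1 else 0 := by
      split_ifs <;> simp
    rw [h4] at h3
    rw [← h3]
    refine Finset.sum_congr rfl fun j _ => ?_
    rw [Rat.cast_mul, mul_comm]
    have h5 : ((GQ i j : ℚ) : ℝ) = (G i j : ℝ) := Rat.cast_intCast (G i j)
    rw [h5]
  have hcol : ∀ k, ∃ p : Fin (dm A) → ℤ, ∀ i, ∑ j, G i j * p j = if i = k then (D : ℤ) else 0 := by
    intro k
    let y : BF A := ∑ j, GQ⁻¹ j k • Z.x j
    have hy : theta A y = ∑ j, (GQ⁻¹ j k : ℝ) • Z.b j := by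
      rw [map_sum]
      exact Finset.sum_congr rfl fun j _ => by rw [GB_smul, Z.hb]
    have hty : ∀ i, tf A (star (Z.b i) * theta A y) = if i = k then 1 else 0 := by
      intro i
      rw [hy, GB_sum, ← hinv i k]
      exact Finset.sum_congr rfl fun j _ => by rw [hG]
    have hyL : ((D : ℕ) : BF A) * y ∈ Lat g := by
      refine hD2 g y fun x hx => ?_
      obtain ⟨n, hn⟩ := Z.int x hx k
      refine ⟨n, ?_⟩
      rw [map_mul, theta_star, ← Z.b.sum_repr (theta A x), GB_sum', ← hn]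
      rw [Finset.sum_eq_single k]
      · rw [hty, if_pos rfl, mul_one]
      · intro i _ hi
        rw [hty, if_neg hi, mul_zero]
      · intro h
        exact absurd (Finset.mem_univ k) h
    choose p hp using Z.int _ hyL
    refine ⟨p, fun i => ?_⟩
    have h2 : tf A (star (Z.b i) * theta A (((D : ℕ) : BF A) * y)) =
        ∑ j, (p j : ℝ) * (G i j : ℝ) := by
      rw [← Z.b.sum_repr (theta A (((D : ℕ) : BF A) * y)), GB_sum]
      exact Finset.sum_congr rfl fun j _ => by rw [hp, hG]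
    rw [GB_nat, mul_smul_comm, map_smul, hty, smul_eq_mul] at h2
    have h3 : ((∑ j, G i j * p j : ℤ) : ℝ) = (((if i = k then (D : ℤ) else 0 : ℤ)) : ℝ) := by
      rw [Int.cast_sum]
      have h4 : (((if i = k then (D : ℤ) else 0 : ℤ)) : ℝ) = (D : ℝ) * (if i = k then 1 else 0) := by
        split_ifs <;> simp
      rw [h4, h2]
      exact Finset.sum_congr rfl fun j _ => by rw [Int.cast_mul, mul_comm]
    exact_mod_cast h3
  choose P hP using hcol
  have hmul : Matrix.of G * Matrix.of (fun j k => P k j) = (D : ℤ) • (1 : Matrix _ _ ℤ) := by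
    ext i k
    rw [Matrix.mul_apply, Matrix.smul_apply, Matrix.one_apply]
    refine (hP k i).trans ?_
    split_ifs <;> simp
  have hd := congrArg Matrix.det hmul
  rw [Matrix.det_mul, Matrix.det_smul, Matrix.det_one, mul_one, Fintype.card_fin] at hd
  have hDne : ((D : ℤ)) ^ dm A ≠ 0 := pow_ne_zero _ (by exact_mod_cast hD.ne')
  have hPne : (Matrix.of (fun j k => P k j)).det ≠ 0 := by
    intro h0
    rw [h0, mul_zero] at hd
    exact hDne hd.symm
  have h5 : |(Matrix.of G).det| ≤ (D : ℤ) ^ dm A := by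
    have h6 : |(Matrix.of G).det| * |(Matrix.of (fun j k => P k j)).det| = (D : ℤ) ^ dm A := by
      rw [← abs_mul, hd]
      exact abs_of_nonneg (by positivity)
    rw [← h6]
    exact le_mul_of_one_le_right (abs_nonneg _) (Int.one_le_abs hPne)
  rw [hdet]
  exact_mod_cast h5



/-- PROOF. With `J` of `exists_J`: `Qf (b i) (b j) = tf (star (b i) * J (b j)) = ∑ l, tf (star (b i) * b l) * J_lj` (`J_lj` the
matrix of `J` in the basis `b`), so the determinant is that of `gram_le` times `det J`, and `(det J) ^ 2 = 1`. -/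
theorem gram_h (R : RDat A) : ∃ V : ℝ, ∀ (g : (sysU A).A) (Z : ZB g) (h : R.P.V), R.P.PD h →
    (Matrix.of fun i j => Qf R h (Z.b i) (Z.b j)).det ≤ V := by
  obtain ⟨V, hV⟩ := gram_le R
  refine ⟨V, fun g Z h hh => ?_⟩
  obtain ⟨J, hJJ, hJ⟩ := exists_J R hh
  have h1 : (Matrix.of fun i j => Qf R h (Z.b i) (Z.b j)) =
      (Matrix.of fun i j => tf A (star (Z.b i) * Z.b j)) * LinearMap.toMatrix Z.b Z.b J := by
    ext i j
    rw [Matrix.mul_apply, Matrix.of_apply, ← hJ]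
    have h2 : J (Z.b j) = ∑ l, (LinearMap.toMatrix Z.b Z.b J) l j • Z.b l := by
      rw [← Z.b.sum_repr (J (Z.b j))]
      refine Finset.sum_congr rfl fun l _ => ?_
      rw [LinearMap.toMatrix_apply]
    rw [h2, Finset.mul_sum, map_sum]
    refine Finset.sum_congr rfl fun l _ => ?_
    rw [mul_smul_comm, map_smul, smul_eq_mul, Matrix.of_apply, mul_comm]
  have h3 : (LinearMap.toMatrix Z.b Z.b J).det * (LinearMap.toMatrix Z.b Z.b J).det = 1 := by
    rw [← Matrix.det_mul, ← LinearMap.toMatrix_comp, hJJ, LinearMap.toMatrix_id, Matrix.det_one]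
  have h4 : |(LinearMap.toMatrix Z.b Z.b J).det| = 1 := by
    rcases mul_self_eq_one_iff.1 h3 with h5 | h5 <;> rw [h5] <;> simp
  refine (le_abs_self _).trans ?_
  rw [h1, Matrix.det_mul, abs_mul, h4, mul_one]
  exact hV g Z



/-- PROOF. `Qf_comm`, `Qf_add`, `Qf_smul`, `Qd_pos`: `v ⬝ M v = Qd (∑ v i • b i)`. -/
theorem gram_pd (R : RDat A) (g : (sysU A).A) (Z : ZB g) (h : R.P.V) (hh : R.P.PD h) :
    (Matrix.of fun i j => Qf R h (Z.b i) (Z.b j)).PosDef ∧
    ∀ v : Fin (dm A) → ℝ, v ⬝ᵥ (Matrix.of fun i j => Qf R h (Z.b i) (Z.b j)).mulVec v =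
      Qd R h (∑ i, v i • Z.b i) := by
  have key : ∀ v : Fin (dm A) → ℝ,
      v ⬝ᵥ (Matrix.of fun i j => Qf R h (Z.b i) (Z.b j)).mulVec v =
      Qd R h (∑ i, v i • Z.b i) := by
    intro v
    let L : BInf A → BInf A →ₗ[ℝ] ℝ := fun x =>
      { toFun := Qf R h x
        map_add' := Qf_add R h x
        map_smul' := fun r y => Qf_smul R h r x y }
    have hL : ∀ x y, Qf R h x y = L x y := fun _ _ => rfl
    have e1 : ∀ x : BInf A, Qf R h x (∑ i, v i • Z.b i) = ∑ i, v i * Qf R h x (Z.b i) := by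
      intro x
      rw [hL, map_sum]
      refine Finset.sum_congr rfl fun i _ => ?_
      rw [map_smul, smul_eq_mul, hL]
    rw [Qd, e1]
    rw [dotProduct]
    refine Finset.sum_congr rfl fun i _ => ?_
    congr 1
    rw [Qf_comm, e1, Matrix.mulVec, dotProduct]
    refine Finset.sum_congr rfl fun j _ => ?_
    rw [Matrix.of_apply, mul_comm]
  refine ⟨Matrix.PosDef.of_dotProduct_mulVec_pos ?_ ?_, key⟩
  · ext i j
    rw [Matrix.conjTranspose_apply, Matrix.of_apply, Matrix.of_apply, star_trivial]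
    exact Qf_comm R h _ _
  · intro v hv
    rw [star_trivial, key]
    refine Qd_pos R hh fun h0 => hv ?_
    have := Fintype.linearIndependent_iff.1 Z.b.linearIndependent v h0
    funext i
    exact this i



/-- PROOF. There is `c₀ > 0` with `c₀ ≤ Qd oneV (theta z)` for all `z ≠ 0` in `OB A = Lat 1` (`lat_disc`, `Q1_equiv`,
`Qd_pos`: finitely many small ones). For `x ≠ 0` in `Lat g` the element `star x * x` is in `OB A`
(`star_mul_mem`) and not `0` (`R.ani`), so `c₀ ≤ Qd oneV (star x * x) ≤ C * (Qd h x) ^ 2` (`Q1_mul_le`). -/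
theorem short_le (R : RDat A) : ∃ c : ℝ, 0 < c ∧ ∀ (g : (sysU A).A) (h : R.P.V), R.P.PD h →
    ∀ x ∈ Lat g, x ≠ 0 → c ≤ Qd R h (theta A x) := by
  obtain ⟨c₁, C₁, hc₁, hC₁, h1⟩ := Q1_equiv R
  obtain ⟨C, hC, h2⟩ := Q1_mul_le R
  have h3 : ∀ z ∈ OB A, z ∈ Lat (1 : (sysU A).A) := by
    intro z hz v
    have h4 : iq (1 : (sysU A).A) z v = bloc A v z := by
      rw [iq, gv_one, inv_one, Units.val_one, one_mul]
    rw [h4]
    exact mem_OB_iff.1 hz v
  have h5 : ∃ c₀ : ℝ, 0 < c₀ ∧ ∀ z ∈ OB A, z ≠ 0 → c₀ ≤ Qd R (oneV R.P) (theta A z) := by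
    have hf := (lat_disc (1 : (sysU A).A) 1).inter_of_left {z : BF A | z ≠ 0}
    have hp : ∀ z : BF A, z ≠ 0 → 0 < Qd R (oneV R.P) (theta A z) := fun z hz =>
      Qd_pos R (oneV_pd R.P) fun h0 => hz (theta_inj A (h0.trans (map_zero _).symm))
    have hb : ∃ c₂ : ℝ, 0 < c₂ ∧ ∀ z ∈ {x : BF A | x ∈ Lat (1 : (sysU A).A) ∧ nB (theta A x) ≤ 1} ∩
        {z : BF A | z ≠ 0}, c₂ ≤ Qd R (oneV R.P) (theta A z) := by
      rcases Set.eq_empty_or_nonempty ({x : BF A | x ∈ Lat (1 : (sysU A).A) ∧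
        nB (theta A x) ≤ 1} ∩ {z : BF A | z ≠ 0}) with he | hne
      · exact ⟨1, one_pos, fun z hz => by rw [he] at hz; exact hz.elim⟩
      · obtain ⟨z₀, hz₀, hmin⟩ := Set.exists_min_image _
          (fun z => Qd R (oneV R.P) (theta A z)) hf hne
        exact ⟨_, hp z₀ hz₀.2, hmin⟩
    obtain ⟨c₂, hc₂, h6⟩ := hb
    refine ⟨min c₁ c₂, lt_min hc₁ hc₂, fun z hz hz0 => ?_⟩
    rcases le_total (nB (theta A z)) 1 with h7 | h7
    · exact (min_le_right _ _).trans (h6 z ⟨⟨h3 z hz, h7⟩, hz0⟩)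
    · refine (min_le_left _ _).trans (le_trans ?_ (h1 _).1)
      nlinarith [one_le_pow₀ h7 (n := 2)]
  obtain ⟨c₀, hc₀, h6⟩ := h5
  refine ⟨Real.sqrt (c₀ / (C + 1)), Real.sqrt_pos.2 (by positivity), fun g h hh x hx hx0 => ?_⟩
  have h7 : star x * x ≠ 0 := fun h0 => hx0 (R.ani x h0)
  have h8 := h6 _ (star_mul_mem hx hx) h7
  rw [map_mul, theta_star] at h8
  have h9 := h8.trans (h2 h hh (theta A x) (theta A x))
  have h10 : 0 < Qd R h (theta A x) :=
    Qd_pos R hh fun h0 => hx0 (theta_inj A (h0.trans (map_zero _).symm))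
  rw [Real.sqrt_le_left h10.le, div_le_iff₀ (by positivity)]
  nlinarith [mul_pos h10 h10]



/-- PROOF. `mink` for the matrix `Qf h (b i) (b j)` of `Z` in `exists_ZB` (`gram_h`, `gram_pd`, `short_le`): the vectors
are `∑ i, X k i • x i` in `Lat g`. -/
theorem exists_indep (R : RDat A) : ∃ C : ℝ, ∀ (g : (sysU A).A) (h : R.P.V), R.P.PD h →
    ∃ x : Fin (dm A) → BF A, (∀ i, x i ∈ Lat g) ∧ LinearIndependent ℝ (fun i => theta A (x i)) ∧
      ∀ i, Qd R h (theta A (x i)) ≤ C := by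
  obtain ⟨V, hV⟩ := gram_h R
  obtain ⟨c, hc, h1⟩ := short_le R
  obtain ⟨C, hC⟩ := mink (dm A) c V hc
  refine ⟨C, fun g h hh => ?_⟩
  obtain ⟨Z⟩ := exists_ZB g
  obtain ⟨h2, h3⟩ := gram_pd R g Z h hh
  have hmem : ∀ v : Fin (dm A) → ℤ, (∑ i, v i • Z.x i) ∈ Lat g := fun v =>
    sum_mem fun i _ => zsmul_mem (Z.mem i) _
  have hth : ∀ v : Fin (dm A) → ℤ, theta A (∑ i, v i • Z.x i) = ∑ i, ((v i : ℤ) : ℝ) • Z.b i := by
    intro v
    rw [map_sum]
    refine Finset.sum_congr rfl fun i _ => ?_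
    rw [map_zsmul, Z.hb, Int.cast_smul_eq_zsmul]
  have h4 := hC _ h2 (hV g Z h hh) (by
    intro v hv
    rw [h3, ← hth]
    refine h1 g h hh _ (hmem v) fun h0 => hv ?_
    have h5 := hth v
    rw [h0, map_zero] at h5
    have h6 := Fintype.linearIndependent_iff.1 Z.b.linearIndependent
      (fun i => ((v i : ℤ) : ℝ)) h5.symm
    funext i
    exact_mod_cast h6 i)
  obtain ⟨X, hX1, hX2⟩ := h4
  refine ⟨fun k => ∑ i, X k i • Z.x i, fun k => hmem _, ?_, fun k => ?_⟩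
  · have h7 : (fun k => theta A (∑ i, X k i • Z.x i)) =
        Z.b.equivFun.symm.toLinearMap ∘ fun k => (fun i => (X k i : ℝ) : Fin (dm A) → ℝ) := by
      funext k
      rw [hth]
      change _ = Z.b.equivFun.symm _
      rw [Module.Basis.equivFun_symm_apply]
    rw [h7]
    exact hX1.map' _ (LinearEquiv.ker _)
  · have h8 := hX2 k
    rw [h3, ← hth] at h8
    exact h8



/-- PROOF. The dimension of `BF A` over `ℚ` is `card (Ix A) * [F : ℚ] = dm A` (`mixedEmbedding.finrank`), and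
`theta` is `ℚ`-linear, so `x` is linearly independent over `ℚ`, hence a basis. -/
theorem exists_rat_basis {x : Fin (dm A) → BF A} (hx : LinearIndependent ℝ fun i => theta A (x i)) :
    ∃ b : Module.Basis (Fin (dm A)) ℚ (BF A), ∀ i, b i = x i := by
  have hfin : FiniteDimensional ℚ (BF A) := inferInstanceAs (FiniteDimensional ℚ (Ix A → F))
  have hcard : Fintype.card (Fin (dm A)) = Module.finrank ℚ (BF A) := by
    rw [Fintype.card_fin]
    have e1 : dm A = Fintype.card (Ix A) * Module.finrank ℚ F := by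
      rw [dm]
      change Module.finrank ℝ (Ix A → Rinf F) = _
      rw [Module.finrank_pi_fintype, Finset.sum_const, Finset.card_univ, smul_eq_mul,
        mixedEmbedding.finrank]
    have e2 : Module.finrank ℚ (BF A) = Fintype.card (Ix A) * Module.finrank ℚ F := by
      change Module.finrank ℚ (Ix A → F) = _
      rw [Module.finrank_pi_fintype, Finset.sum_const, Finset.card_univ, smul_eq_mul]
    rw [e1, e2]
  have hli : LinearIndependent ℚ x := by
    rw [Fintype.linearIndependent_iff] at hx ⊢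
    intro r hr i
    have h1 : ∑ i, ((r i : ℚ) : ℝ) • theta A (x i) = 0 := by
      have h2 := congrArg (theta A) hr
      rw [map_zero, map_sum] at h2
      rw [← h2]
      refine Finset.sum_congr rfl fun i _ => ?_
      apply BInf.ext
      intro k
      rw [BInf.co_smul, theta_co, theta_co, co_qsmul]
      rw [map_rat_smul (mixedEmbedding F)]
      exact (Rat.cast_smul_eq_qsmul ℝ _ _)
    have h3 := hx (fun i => ((r i : ℚ) : ℝ)) h1 i
    exact_mod_cast h3
  exact ⟨Module.Basis.mk hli (hli.span_eq_top_of_card_eq_finrank' hcard).ge, fun i => by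
    rw [Module.Basis.mk_apply]⟩



private theorem GE2_smul (q : ℚ) (x : BF A) : theta A (q • x) = (q : ℝ) • theta A x := by
  have h := map_ratCast_smul (theta A) ℚ ℝ q x
  rwa [Rat.cast_id] at h

private theorem GE2_mul (q : ℚ) (x y : BF A) : x * (q • y) = q • (x * y) := by
  apply theta_inj A
  rw [map_mul, GE2_smul, GE2_smul, map_mul, mul_smul_comm]

private theorem GE2_mul' (q : ℚ) (x y : BF A) : (q • x) * y = q • (x * y) := by
  apply theta_inj A
  rw [map_mul, GE2_smul, GE2_smul, map_mul, smul_mul_assoc]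

private theorem GE2_star (q : ℚ) (x : BF A) : star (q • x) = q • star x := by
  apply theta_inj A
  rw [theta_star, GE2_smul, GE2_smul, theta_star, BInf.star_smul]

/-- PROOF. Let `φ : BF A → BF A` be the `ℚ`-linear map with `φ (x' i) = x i` (`exists_rat_basis`); it is bijective
and `star (φ y) * φ z = star y * z` for all `y, z` (bilinearity). For `z, c` in `BF A` and all `y`:
`star (φ y) * (φ (z c) - φ z c) = star y z c - star y z c = 0`, and `φ` is onto, so (`y` with `φ y = φ (z c) - φ z c`, `R.ani`)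
`φ (z c) = φ z c`. So `φ z = e z` with `e = φ 1`, and `star e * e = 1`; `e` is injective so a unit, `star e = e⁻¹`. -/
theorem exists_e (R : RDat A) {x x' : Fin (dm A) → BF A}
    (hx : LinearIndependent ℝ fun i => theta A (x i))
    (hx' : LinearIndependent ℝ fun i => theta A (x' i))
    (h : ∀ i j, star (x i) * x j = star (x' i) * x' j) :
    ∃ e : (sysU A).G, ∀ i, x i = (uK e).1 * x' i := by
  obtain ⟨b, hb⟩ := exists_rat_basis hx
  obtain ⟨b', hb'⟩ := exists_rat_basis hx'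
  let φ : BF A ≃ₗ[ℚ] BF A := b'.equiv b (Equiv.refl _)
  have hφ : ∀ i, φ (b' i) = x i := fun i => by
    rw [← hb]
    exact b'.equiv_apply i b (Equiv.refl _)
  have h1 : ∀ i z, star (x i) * φ z = star (x' i) * z := by
    intro i z
    rw [← b'.sum_repr z, map_sum, Finset.mul_sum, Finset.mul_sum]
    refine Finset.sum_congr rfl fun j _ => ?_
    rw [map_smul, hφ, GE2_mul, GE2_mul, h i j, hb']
  have h2 : ∀ y z, star (φ y) * φ z = star y * z := by
    intro y z
    rw [← b'.sum_repr y, map_sum, star_sum, star_sum, Finset.sum_mul, Finset.sum_mul]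
    refine Finset.sum_congr rfl fun j _ => ?_
    rw [map_smul, hφ, GE2_star, GE2_star, GE2_mul', GE2_mul', h1, hb']
  have h3 : ∀ z c, φ (z * c) = φ z * c := by
    intro z c
    obtain ⟨y, hy⟩ := φ.surjective (φ (z * c) - φ z * c)
    have h4 : star (φ y) * (φ (z * c) - φ z * c) = 0 := by
      rw [mul_sub, h2, ← mul_assoc, ← mul_assoc, h2, sub_self]
    rw [hy] at h4
    exact sub_eq_zero.1 (R.ani _ h4)
  have h5 : ∀ z, φ z = φ 1 * z := fun z => by rw [← h3, one_mul]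
  have h6 : star (φ 1) * φ 1 = 1 := by rw [h2, star_one, one_mul]
  have h7 : φ 1 * star (φ 1) = 1 := by
    obtain ⟨y, hy⟩ := φ.surjective 1
    rw [h5] at hy
    have h8 : star (φ 1) = y := by
      calc star (φ 1) = star (φ 1) * (φ 1 * y) := by rw [hy, mul_one]
        _ = y := by rw [← mul_assoc, h6, one_mul]
    rw [h8, hy]
  refine ⟨(⟨⟨φ 1, star (φ 1), h7, h6⟩, h6⟩ : UF A), fun i => ?_⟩
  change x i = φ 1 * x' i
  rw [← h5, ← hb', hφ]



private theorem GF_mem_OB {x : BF A} : x ∈ Lat (1 : (sysU A).A) ↔ x ∈ OB A := by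
  have h : ∀ v, iq (1 : (sysU A).A) x v = bloc A v x := fun v => by
    rw [iq, gv_one, inv_one, Units.val_one, one_mul]
  rw [mem_OB_iff, mem_Lat]
  exact forall_congr' fun v => by rw [h]

/-- The property of the constants `M`, `K` for the matrices in `T`. -/
private def GF_H (A : UD F) (T : Set (Fin (dm A) → Fin (dm A) → BF A)) (M : ℕ) (K : ℝ) : Prop :=
  ∀ x : Fin (dm A) → BF A, LinearIndependent ℝ (fun i => theta A (x i)) →
    (fun i j => star (x i) * x j) ∈ T → ∃ (e : (sysU A).G) (m : Fin (dm A) → ℤ),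
      ((M : ℕ) : BF A) * (uK e).1 = ∑ i, m i • x i ∧ ∑ i, (m i : ℝ) ^ 2 ≤ K

private theorem GF_den {ι : Type} [Fintype ι] (r : ι → ℚ) :
    ∃ M : ℕ, 0 < M ∧ ∀ i, ∃ n : ℤ, (M : ℚ) * r i = n := by
  refine ⟨∏ i, (r i).den, Finset.prod_pos fun i _ => (r i).den_pos, fun i => ?_⟩
  obtain ⟨k, hk⟩ := Finset.dvd_prod_of_mem (fun i => (r i).den) (Finset.mem_univ i)
  refine ⟨k * (r i).num, ?_⟩
  rw [hk, Nat.cast_mul, mul_comm ((r i).den : ℚ), mul_assoc, Rat.den_mul_eq_num, Int.cast_mul,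
    Int.cast_natCast]

private theorem GF_one (R : RDat A) (τ : Fin (dm A) → Fin (dm A) → BF A) :
    ∃ M : ℕ, 0 < M ∧ ∃ K : ℝ, GF_H A {τ} M K := by
  by_cases hτ : ∃ x' : Fin (dm A) → BF A, LinearIndependent ℝ (fun i => theta A (x' i)) ∧
      (fun i j => star (x' i) * x' j) = τ
  · obtain ⟨x', hx', hx2⟩ := hτ
    obtain ⟨b', hb'⟩ := exists_rat_basis hx'
    obtain ⟨M, hM, hM2⟩ := GF_den fun i => b'.repr 1 i
    choose n hn using hM2
    have h1 : ((M : ℕ) : BF A) = ∑ i, n i • x' i := by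
      have h2 : ((M : ℕ) : BF A) = (M : ℚ) • ∑ i, b'.repr 1 i • b' i := by
        rw [b'.sum_repr, Nat.cast_smul_eq_nsmul, nsmul_eq_mul, mul_one]
      rw [h2, Finset.smul_sum]
      refine Finset.sum_congr rfl fun i _ => ?_
      rw [smul_smul, hn, Int.cast_smul_eq_zsmul, hb']
    refine ⟨M, hM, ∑ i, (n i : ℝ) ^ 2, fun x hx hx3 => ?_⟩
    obtain ⟨e, he⟩ := exists_e R hx hx' fun i j => by
      have h2 : (fun i j => star (x i) * x j) = fun i j => star (x' i) * x' j := by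
        rw [hx2]
        exact hx3
      exact congrFun (congrFun h2 i) j
    refine ⟨e, n, ?_, le_rfl⟩
    rw [(Nat.cast_commute M (uK e).1).eq, h1, Finset.mul_sum]
    exact Finset.sum_congr rfl fun i _ => by rw [mul_smul_comm, ← he]
  · exact ⟨1, one_pos, 0, fun x hx hx3 => absurd ⟨x, hx, hx3⟩ hτ⟩

private theorem GF_fin (R : RDat A) {T : Set (Fin (dm A) → Fin (dm A) → BF A)} (hT : T.Finite) :
    ∃ M : ℕ, 0 < M ∧ ∃ K : ℝ, GF_H A T M K := by
  refine Set.Finite.induction_on (motive := fun T _ => ∃ M : ℕ, 0 < M ∧ ∃ K : ℝ, GF_H A T M K) T hT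
    ⟨1, one_pos, 0, fun x _ hx => absurd hx (Set.notMem_empty _)⟩ ?_
  rintro τ T - - ⟨M₀, hM₀, K₀, hK₀⟩
  obtain ⟨M₁, hM₁, K₁, hK₁⟩ := GF_one R τ
  have key : ∀ (a b : ℕ) (K : ℝ) (x : Fin (dm A) → BF A), (∃ (e : (sysU A).G)
      (m : Fin (dm A) → ℤ), ((b : ℕ) : BF A) * (uK e).1 = ∑ i, m i • x i ∧
      ∑ i, (m i : ℝ) ^ 2 ≤ K) → ∃ (e : (sysU A).G)
      (m : Fin (dm A) → ℤ), ((a * b : ℕ) : BF A) * (uK e).1 = ∑ i, m i • x i ∧
      ∑ i, (m i : ℝ) ^ 2 ≤ (a : ℝ) ^ 2 * K := by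
    rintro a b K x ⟨e, m, h1, h2⟩
    refine ⟨e, fun i => a * m i, ?_, ?_⟩
    · rw [Nat.cast_mul, mul_assoc, h1, Finset.mul_sum]
      refine Finset.sum_congr rfl fun i _ => ?_
      rw [mul_smul, natCast_zsmul, nsmul_eq_mul]
    · have h3 : ∑ i, (((a : ℤ) * m i : ℤ) : ℝ) ^ 2 = (a : ℝ) ^ 2 * ∑ i, (m i : ℝ) ^ 2 := by
        rw [Finset.mul_sum]
        refine Finset.sum_congr rfl fun i _ => ?_
        rw [Int.cast_mul, Int.cast_natCast, mul_pow]
      rw [h3]
      exact mul_le_mul_of_nonneg_left h2 (sq_nonneg _)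
  refine ⟨M₁ * M₀, Nat.mul_pos hM₁ hM₀, max ((M₁ : ℝ) ^ 2 * K₀) ((M₀ : ℝ) ^ 2 * K₁),
    fun x hx hx3 => ?_⟩
  rcases hx3 with hx3 | hx3
  · obtain ⟨e, m, h1, h2⟩ := key M₀ M₁ K₁ x (hK₁ x hx hx3)
    refine ⟨e, m, ?_, h2.trans (le_max_right _ _)⟩
    rw [mul_comm M₁ M₀]
    exact h1
  · obtain ⟨e, m, h1, h2⟩ := key M₁ M₀ K₀ x (hK₀ x hx hx3)
    exact ⟨e, m, h1, h2.trans (le_max_left _ _)⟩

private theorem GF_nonneg (R : RDat A) {h : R.P.V} (hh : R.P.PD h) (x : BInf A) :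
    0 ≤ Qd R h x := by
  by_cases hx : x = 0
  · have h1 := Qf_smul R h 0 x x
    rw [zero_smul, zero_mul] at h1
    have h2 := Qf_smul R h 0 (0 : BInf A) 0
    rw [zero_smul, zero_mul] at h2
    rw [hx, Qd, h2]
  · exact (Qd_pos R hh hx).le

private theorem GF_smul (R : RDat A) (h : R.P.V) (r : ℝ) (x : BInf A) :
    Qd R h (r • x) = r ^ 2 * Qd R h x := by
  rw [Qd, Qf_smul, Qf_comm, Qf_smul, Qd]
  ring

private theorem GF_add (R : RDat A) {h : R.P.V} (hh : R.P.PD h) (x y : BInf A) :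
    Qd R h (x + y) ≤ 2 * Qd R h x + 2 * Qd R h y := by
  have h1 := GF_nonneg R hh (x + (-1 : ℝ) • y)
  have h2 : ∀ r : ℝ, Qd R h (x + r • y) = Qd R h x + 2 * r * Qf R h x y + r ^ 2 * Qd R h y := by
    intro r
    have e1 : Qf R h (x + r • y) x = Qf R h x x + r * Qf R h x y := by
      rw [Qf_comm, Qf_add, Qf_smul]
    have e2 : Qf R h (x + r • y) (r • y) = r * (Qf R h x y + r * Qf R h y y) := by
      rw [Qf_smul, Qf_comm, Qf_add, Qf_smul, Qf_comm R h y x]
    rw [Qd, Qf_add, e1, e2, Qd, Qd]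
    ring
  have h3 := h2 1
  rw [one_smul] at h3
  rw [h2] at h1
  rw [h3]
  linarith

private theorem GF_sum (R : RDat A) {h : R.P.V} (hh : R.P.PD h) {ι : Type} (s : Finset ι)
    (c : ι → ℝ) (z : ι → BInf A) :
    Qd R h (∑ i ∈ s, c i • z i) ≤ 2 ^ s.card * ∑ i ∈ s, c i ^ 2 * Qd R h (z i) := by
  classical
  induction s using Finset.induction_on with
  | empty =>
    have h2 := GF_smul R h 0 (0 : BInf A)
    rw [zero_smul] at h2
    rw [Finset.sum_empty, Finset.sum_empty, h2]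
    simp
  | insert a s ha ih =>
    rw [Finset.sum_insert ha, Finset.sum_insert ha, Finset.card_insert_of_notMem ha]
    refine (GF_add R hh _ _).trans ?_
    rw [GF_smul]
    have h1 : 0 ≤ c a ^ 2 * Qd R h (z a) := mul_nonneg (sq_nonneg _) (GF_nonneg R hh _)
    have h2 : (1 : ℝ) ≤ 2 ^ s.card := one_le_pow₀ one_le_two
    have h3 : c a ^ 2 * Qd R h (z a) ≤ 2 ^ s.card * (c a ^ 2 * Qd R h (z a)) :=
      le_mul_of_one_le_left h1 h2
    rw [pow_succ (2 : ℝ) s.card]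
    nlinarith [ih, h3]

/-- PROOF. Let `C` be the constant of `exists_indep`. The matrices `(star (x i) * x j)` of the tuples `x` of
`exists_indep` for all `g`, `h` are in a finite set: their coefficients are in `OB A` (`star_mul_mem`) with
`Qd oneV ≤ C' C ^ 2` (`Q1_mul_le`), so `nB` is bounded (`Q1_equiv`), and `lat_disc` for `g = 1`. For every matrix `τ` in
this set which is `(star (x' i) * x' j)` for some `x'` with `theta x'` linearly independent choose one such `x'(τ)`;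
`1 = ∑ r_i x'(τ) i` with rational `r_i` (`exists_rat_basis`), so there are a positive integer `M(τ)` and integers
`m_i(τ)` with `M(τ) = ∑ m_i x' i`. Let `M = ∏ M(τ)`. For `(g, h)` let `x` be the tuple of `exists_indep`, `τ` its
matrix, `x i = e x'(τ) i` (`exists_e`). Then `M e = (M / M(τ)) ∑ m_i x i` is in `Lat g` and
`Qd h (theta e) = M(τ)⁻² Qd h (∑ m_i x i)` is bounded (`Qf_add`, `Qf_smul`, Cauchy-Schwarz or
`Qd (a + b) ≤ 2 Qd a + 2 Qd b` by induction). -/
theorem godement (R : RDat A) : ∃ M : ℕ, 0 < M ∧ ∃ C : ℝ, ∀ (g : (sysU A).A) (h : R.P.V),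
    R.P.PD h → ∃ e : (sysU A).G, ((M : ℕ) : BF A) * (uK e).1 ∈ Lat g ∧
      Qd R h (theta A (uK e).1) ≤ C := by
  obtain ⟨C, hC⟩ := exists_indep R
  obtain ⟨C', hC'0, hC'⟩ := Q1_mul_le R
  obtain ⟨c, C'', hc, -, hQ⟩ := Q1_equiv R
  have hfin := lat_disc (1 : (sysU A).A) (Real.sqrt (C' * (C * C) / c))
  have hT : ({τ : Fin (dm A) → Fin (dm A) → BF A | ∀ i j, τ i j ∈ {x : BF A |
      x ∈ Lat (1 : (sysU A).A) ∧ nB (theta A x) ≤ Real.sqrt (C' * (C * C) / c)}}).Finite := by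
    have h1 : (Set.pi (Set.univ : Set (Fin (dm A))) fun _ =>
        Set.pi (Set.univ : Set (Fin (dm A))) fun _ => {x : BF A |
      x ∈ Lat (1 : (sysU A).A) ∧ nB (theta A x) ≤ Real.sqrt (C' * (C * C) / c)}).Finite :=
      Set.Finite.pi fun _ => Set.Finite.pi fun _ => hfin
    refine h1.subset fun τ hτ i _ j _ => hτ i j
  obtain ⟨M, hM, K, hK⟩ := GF_fin R hT
  have hM' : (0 : ℝ) < M := Nat.cast_pos.2 hM
  refine ⟨M, hM, 2 ^ dm A * (|C| * K), fun g h hh => ?_⟩
  obtain ⟨x, hx, hx2, hx3⟩ := hC g h hh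
  obtain ⟨e, m, he, hm⟩ := hK x hx2 (by
    intro i j
    refine ⟨GF_mem_OB.2 (star_mul_mem (hx i) (hx j)), ?_⟩
    refine Real.le_sqrt_of_sq_le ?_
    rw [le_div_iff₀ hc, mul_comm]
    refine (hQ _).1.trans ?_
    rw [map_mul, theta_star]
    refine (hC' h hh _ _).trans (mul_le_mul_of_nonneg_left ?_ hC'0)
    exact mul_le_mul (hx3 i) (hx3 j) (GF_nonneg R hh _) ((GF_nonneg R hh _).trans (hx3 i)))
  refine ⟨e, ?_, ?_⟩
  · rw [he]
    exact AddSubgroup.sum_mem _ fun i _ => AddSubgroup.zsmul_mem _ (hx i) _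
  · have h1 : (M : ℝ) • theta A (uK e).1 = ∑ i, (m i : ℝ) • theta A (x i) := by
      have h2 : (M : ℝ) • theta A (uK e).1 = theta A (((M : ℕ) : BF A) * (uK e).1) := by
        rw [map_mul, map_natCast, ← nsmul_eq_mul, Nat.cast_smul_eq_nsmul ℝ]
      rw [h2, he, map_sum]
      refine Finset.sum_congr rfl fun i _ => ?_
      rw [map_zsmul, Int.cast_smul_eq_zsmul]
    have h2 : (M : ℝ) ^ 2 * Qd R h (theta A (uK e).1) ≤ 2 ^ dm A * (|C| * K) := by
      rw [← GF_smul, h1]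
      refine (GF_sum R hh _ _ _).trans ?_
      rw [Finset.card_univ, Fintype.card_fin]
      refine mul_le_mul_of_nonneg_left ?_ (by positivity)
      calc ∑ i, (m i : ℝ) ^ 2 * Qd R h (theta A (x i)) ≤ ∑ i, (m i : ℝ) ^ 2 * |C| :=
            Finset.sum_le_sum fun i _ => mul_le_mul_of_nonneg_left
              ((hx3 i).trans (le_abs_self C)) (sq_nonneg _)
        _ = |C| * ∑ i, (m i : ℝ) ^ 2 := by rw [← Finset.sum_mul, mul_comm]
        _ ≤ |C| * K := mul_le_mul_of_nonneg_left hm (abs_nonneg _)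
    refine le_trans ?_ h2
    have h3 : (1 : ℝ) ≤ (M : ℝ) ^ 2 := one_le_pow₀ (by exact_mod_cast hM)
    exact le_mul_of_one_le_left (GF_nonneg R hh _) h3



/-- PROOF. Let `h = (h₁, s)` (`cV`), `h₁` positive definite, `s > 0` (`pd_cV`), `|dq h₁| s ^ 2 = 1` (`dq_cV`). Let `e` be the
element of `godement` for `g`, `h₁`; by `Qd_eq`: `q (Θ e) h₁ ≤ C` and `q (inv (Θ (star e))) (hI h₁) ≤ C`, where
`Θ e = ph e`, `Θ (star e) = (ph e)⁻¹` (`ph_inv`, `theta_star`; the other terms are nonnegative: `hI_pd`, `PD.psd`,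
`tn_pos`). By `dt_le_dq` `dt (ph e) ^ 2 ≤ C' |dq h₁|`. So `qe e h = q (ph e) h₁ + rr e ^ 2 * s` (`q_cV`) with
`(rr e ^ 2 * s) ^ 2 = dt (ph e) ^ 2 * s ^ 2 ≤ C'` (`rr_sq`). -/
theorem godement' (R : RDat A) : ∃ M : ℕ, 0 < M ∧ ∃ C : ℝ, 0 < C ∧ ∀ (g : (sysU A).A)
    (h : (PP R).V), (PP R).PD h → |dq (PP R) h| = 1 → ∃ e : (sysU A).G,
      ((M : ℕ) : BF A) * (uK e).1 ∈ Lat g ∧ qe R e h ≤ C := by
  obtain ⟨M, hM, C, hC⟩ := godement R
  obtain ⟨C', hC'0, hC'⟩ := dt_le_dq R.P C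
  refine ⟨M, hM, |C| + (1 + C'), by positivity, fun g h hh hd => ?_⟩
  obtain ⟨hh1, hs⟩ := (pd_cV R h).1 hh
  obtain ⟨e, he, hQ⟩ := hC g (cV R h).1 hh1
  refine ⟨e, he, ?_⟩
  rw [Qd_eq] at hQ
  have h1 : 0 ≤ R.P.q (R.P.inv (R.Θ (star (theta A (uK e).1)))) (hI R.P (cV R h).1) :=
    (hI_pd R.P hh1).psd _
  have h2 : 0 ≤ R.P.q (R.Θ (theta A (uK e).1)) (cV R h).1 := hh1.psd _
  have h3 : 0 ≤ tn R (star (R.π (theta A (uK e).1)) * R.π (theta A (uK e).1)) := by
    by_cases h0 : R.π (theta A (uK e).1) = 0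
    · rw [h0, mul_zero]
      have h4 := tn_smul R 0 (0 : R.N)
      rw [zero_smul, zero_mul] at h4
      exact h4.symm.le
    · exact (tn_pos R _ h0).le
  have h4 : R.P.q (ph R e).1 (cV R h).1 ≤ C := by
    rw [ph_val]
    linarith
  have h5 : R.P.q (R.P.inv ((ph R e)⁻¹ : (R.T)ˣ).1) (hI R.P (cV R h).1) ≤ C := by
    rw [ph_inv]
    linarith
  have h6 := hC' _ hh1 _ h4 h5
  have h7 : qe R e h = R.P.q (ph R e).1 (cV R h).1 + (rr R e).1 ^ 2 * (cV R h).2 := by
    rw [qe, thP_val, q_cV]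
  have h8 : ((rr R e).1 ^ 2 * (cV R h).2) ^ 2 ≤ C' := by
    rw [rr_sq, mul_pow, sq_abs]
    calc R.P.dt (ph R e) ^ 2 * (cV R h).2 ^ 2 ≤ C' * |dq R.P (cV R h).1| * (cV R h).2 ^ 2 :=
          mul_le_mul_of_nonneg_right h6 (sq_nonneg _)
      _ = C' * |dq (PP R) h| := by
          rw [dq_cV, abs_mul, abs_of_nonneg (sq_nonneg (cV R h).2), mul_assoc]
      _ = C' := by rw [hd, mul_one]
  have h9 : (rr R e).1 ^ 2 * (cV R h).2 ≤ 1 + C' := by
    nlinarith [sq_nonneg ((rr R e).1 ^ 2 * (cV R h).2 - 1)]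
  rw [h7]
  exact add_le_add (h4.trans (le_abs_self C)) h9


end Pool.Agent.CGU
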