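import Pool.Agent.CGU.KLat

/-!
# Lattices in `B`: elementary properties
-/

noncomputable section

set_option linter.unusedSectionVars false
set_option linter.unusedVariables false

namespace Pool.Agent.CGU

open NumberField IsDedekindDomain Pool.Agent.CGQ
open Pool.Agent.CG2 (Pl Fv Ov)

open CGN.SC.Alg (co)
open Pool.Agent.CGN (SC co_nat)

variable {F : Type} [Field F] [NumberField F] {A : UD F}

private theorem klc_iq_mul (g k : (sysU A).A) (x : BF A) (v : Pl F) :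
    iq (g * k) x v = ((gv k v)⁻¹ : (BV A v)ˣ).1 * iq g x v := by
  rw [iq, iq, gv_mul, mul_inv_rev, Units.val_mul, mul_assoc]

private theorem klc_le (g : (sysU A).A) {k : (sysU A).A} (hk : ∀ v, IntB A v (gv k v).1) :
    Lat g ≤ Lat (g * k) := by
  intro x hx v
  rw [klc_iq_mul]
  exact intB_mul (gv_inv_int (hk v)) (hx v)

/-- **KLC.** PROOF. Port of `CG2.Lat_mul`; `(g k)⁻¹ x = k⁻¹ (g⁻¹ x)`, `intB_mul`, `mem_BZ_iff`. -/
theorem Lat_mul (g : (sysU A).A) {k : (sysU A).A} (hk : ∀ v, IntB A v (gv k v).1) :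
    Lat (g * k) = Lat g := by
  refine le_antisymm ?_ (klc_le g hk)
  have h1 := klc_le (g * k) (k := k⁻¹) (fun v => by
    rw [gv_inv]
    exact gv_inv_int (hk v))
  rwa [mul_assoc, mul_inv_cancel, mul_one] at h1

/-- **KLD.** PROOF. `(γ g)⁻¹ γ x = g⁻¹ x`. -/
theorem iq_diag (γ : (sysU A).G) (g : (sysU A).A) (x : BF A) :
    iq (diag γ * g) ((uK γ).1 * x) = iq g x := by
  funext v
  have h1 : ((gv (diag γ) v)⁻¹ : (BV A v)ˣ).1 * bloc A v (uK γ).1 = 1 := by
    rw [← gv_diag, Units.inv_mul]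
  rw [iq, iq, gv_mul, mul_inv_rev, Units.val_mul, map_mul, mul_assoc,
    ← mul_assoc (((gv (diag γ) v)⁻¹ : (BV A v)ˣ).1), h1, one_mul]

theorem mem_Lat_diag (γ : (sysU A).G) (g : (sysU A).A) (x : BF A) :
    (uK γ).1 * x ∈ Lat (diag γ * g) ↔ x ∈ Lat g := by
  rw [mem_Lat, mem_Lat, iq_diag]

private theorem klc_isCls_mul (N : ℕ) (g : (sysU A).A) {k : (sysU A).A} (hk : k ∈ KNA A N)
    {x : BF A} (hx : x ∈ Lat g) (r : Ix A → 𝓞 F) (h : IsCls N g x r) :
    IsCls N (g * k) x r := by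
  intro v i
  have h1 := ((KNA A N).inv_mem hk v).2
  have h2 := divN_mul_right h1 (hx v) i
  have h3 : iq (g * k) x v = ((gv k⁻¹ v).1 - 1) * iq g x v + iq g x v := by
    rw [klc_iq_mul, gv_inv, sub_mul, one_mul, sub_add_cancel]
  have h4 : co (iq (g * k) x v) i - (((r i : 𝓞 F) : F) : Fv v) =
      co (((gv k⁻¹ v).1 - 1) * iq g x v) i + (co (iq g x v) i - (((r i : 𝓞 F) : F) : Fv v)) := by
    rw [h3, SC.Alg.co_add, add_sub_assoc]
  rw [h4]
  exact (Valuation.map_add _ _ _).trans (max_le h2 (h v i))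

private theorem klc_congr (N : ℕ) (g g' : (sysU A).A) (x x' : BF A)
    (h : ∀ r, IsCls N g x r ↔ IsCls N g' x' r) : cls N g x = cls N g' x' := by
  have h1 : IsCls N g x = IsCls N g' x' := funext fun r => propext (h r)
  unfold cls
  rw [h1]

/-- **KLG.** PROOF. Port of `CG2.cls_mul`: `k⁻¹ y - r = (k⁻¹ - 1) y + (y - r)` for `y = g⁻¹ x`,
`divN_mul_right`. -/
theorem cls_mul (N : ℕ) (hN : N ≠ 0) (g : (sysU A).A) {k : (sysU A).A} (hk : k ∈ KNA A N)
    {x : BF A} (hx : x ∈ Lat g) : cls N (g * k) x = cls N g x := by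
  refine klc_congr N _ _ _ _ fun r => ⟨fun h => ?_, klc_isCls_mul N g hk hx r⟩
  have h1 := klc_isCls_mul N (g * k) (k := k⁻¹) ((KNA A N).inv_mem hk) (x := x)
    (by rw [Lat_mul g fun v => (hk v).1]; exact hx) r h
  rwa [mul_assoc, mul_inv_cancel, mul_one] at h1

/-- **KLH.** PROOF. `iq_diag`. -/
theorem cls_diag (N : ℕ) (γ : (sysU A).G) (g : (sysU A).A) (x : BF A) :
    cls N (diag γ * g) ((uK γ).1 * x) = cls N g x := by
  refine klc_congr N _ _ _ _ fun r => ?_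
  rw [IsCls, IsCls, iq_diag]

/-- **KLK.** PROOF. `intB_mul`. -/
theorem Lat_right (g : (sysU A).A) {x : BF A} (hx : x ∈ Lat g) (r : Ix A → 𝓞 F) :
    x * mkB A (fun i => ((r i : 𝓞 F) : F)) ∈ Lat g := by
  intro v
  have h1 : iq g (x * mkB A (fun i => ((r i : 𝓞 F) : F))) v =
      iq g x v * bloc A v (mkB A (fun i => ((r i : 𝓞 F) : F))) := by
    rw [iq, iq, map_mul, mul_assoc]
  rw [h1]
  refine intB_mul (hx v) ((intB_iff_co A v _).2 fun i => ?_)
  rw [co_bloc, co_mkB]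
  exact CG2.KoeLat_val_coe_le v (r i)

end Pool.Agent.CGU
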