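import Pool.Agent.CGU.KLat
import Pool.Agent.CGQ.SysOC

/-!
# The principal congruence subgroups
-/

noncomputable section

set_option linter.unusedSectionVars false
set_option linter.unusedVariables false

namespace Pool.Agent.CGU

open NumberField IsDedekindDomain Pool.Agent.CGQ
open Pool.Agent.CG2 (Pl Fv Ov)
open Pool.Agent.CGN (SC continuous_co)

variable {F : Type} [Field F] [NumberField F] {A : UD F}

/-- The local component of `KNA`. -/
private def KLI_U (A : UD F) (N : ℕ) (v : Pl F) : Subgroup (UV A v) where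
  carrier := {k | IntB A v k.1.1 ∧ DivN A N v (k.1.1 - 1)}
  mul_mem' := by
    intro a b ha hb
    refine ⟨intB_mul ha.1 hb.1, ?_⟩
    have h : (a * b).1.1 - 1 = a.1.1 * (b.1.1 - 1) + (a.1.1 - 1) := by
      rw [Subgroup.coe_mul, Units.val_mul, mul_sub, mul_one]
      abel
    rw [h]
    exact divN_add (divN_mul_left ha.1 hb.2) ha.2
  one_mem' := by
    have h : (1 : UV A v).1.1 = 1 := rfl
    change IntB A v (1 : UV A v).1.1 ∧ DivN A N v ((1 : UV A v).1.1 - 1)
    rw [h, sub_self]
    exact ⟨intB_one, divN_zero⟩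
  inv_mem' := by
    intro a ha
    have hi : IntB A v (a.1⁻¹ : (BV A v)ˣ).1 := by
      rw [← star_eq_inv a.2]
      exact ha.1.star
    refine ⟨hi, ?_⟩
    have h : (a⁻¹).1.1 - 1 = (a.1⁻¹ : (BV A v)ˣ).1 * (-(a.1.1 - 1)) := by
      rw [neg_sub, mul_sub, mul_one, Units.inv_mul]
      rfl
    rw [h]
    exact divN_mul_left hi (divN_neg ha.2)

/-- `KNA` is an open compact subgroup. -/
theorem oc_KNA (N : ℕ) (hN : N ≠ 0) : OC (KNA A N) := by
  constructor
  · refine ⟨KLI_U A N, ?_, ?_, ?_⟩
    · intro v
      have hb : IsOpen {x : Fv v | Valued.v x ≤ Valued.v ((N : ℕ) : Fv v)} :=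
        CG2.isOpen_val_le v _ (CG2.KoeLat_val_natCast_ne v hN)
      have hU : (KLI_U A N v : Set (UV A v)) = (UZ A v : Set (UV A v)) ∩
          ⋂ i : Ix A, (fun g : UV A v => g.1.1.co i - (1 : BV A v).co i) ⁻¹'
            {x | Valued.v x ≤ Valued.v ((N : ℕ) : Fv v)} := by
        ext g
        simp only [Set.mem_inter_iff, Set.mem_iInter, Set.mem_preimage, Set.mem_ofPred_eq,
          SetLike.mem_coe, mem_UZ_iff]
        exact Iff.rfl
      have hop : IsOpen (KLI_U A N v : Set (UV A v)) := by
        rw [hU]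
        exact (isOpen_UZ A v).inter (isOpen_iInter_of_finite fun i =>
          hb.preimage (((continuous_co i).comp (Units.continuous_val.comp
            continuous_subtype_val)).sub continuous_const))
      exact hop
    · refine (CG2.KoeCls_fin F N hN).subset ?_
      intro v hv h1
      apply hv
      intro g hg
      have hg0 : IntB A v (show UV A v from g).1.1 := (mem_UZ_iff A v _).1 hg
      refine ⟨hg0, fun i => ?_⟩
      rw [h1]
      have hg1 : IntB A v ((show UV A v from g).1.1 - 1) := by
        rw [sub_eq_add_neg]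
        exact intB_add hg0 (intB_neg intB_one)
      exact (intB_iff_co A v _).1 hg1 i
    · intro k hk v
      exact hk v
  · refine ⟨fun v => (UZ A v : Set (UV A v)), fun v => isCompact_UZ A v, ?_, ?_⟩
    · refine Set.finite_empty.subset ?_
      intro v hv
      exact hv (Set.Subset.refl _)
    · intro k hk v
      exact (mem_UZ_iff A v _).2 (hk v).1

/-- The elements of the base subgroups at the places which do not divide `N` are in `KNA`. -/
theorem single_mem_KNA {N : ℕ} (hN : N ≠ 0) (v : Pl F) (hv : ((N : ℕ) : 𝓞 F) ∉ v.asIdeal)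
    (k : (sysU A).L v) (hk : k ∈ (sysU A).B v) : (single v k : (sysU A).A) ∈ KNA A N := by
  intro w
  by_cases hw : w = v
  · subst hw
    have h1 : gv (single w k : (sysU A).A) w = (show UV A w from k).1 := by
      unfold gv
      rw [single_same]
    have hk0 : IntB A w (show UV A w from k).1.1 := (mem_UZ_iff A w _).1 hk
    rw [h1]
    refine ⟨hk0, fun i => ?_⟩
    have h2 : Valued.v ((N : ℕ) : Fv w) = 1 := by
      have h3 : Valued.v ((((N : ℕ) : F) : F) : Fv w) = w.valuation F ((N : ℕ) : F) :=
        HeightOneSpectrum.valuedAdicCompletion_eq_valuation' w _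
      have h4 : ((((N : ℕ) : F) : F) : Fv w) = ((N : ℕ) : Fv w) :=
        map_natCast (algebraMap F (Fv w)) N
      rw [← h4, h3]
      have h5 : ((N : ℕ) : F) = algebraMap (𝓞 F) F ((N : ℕ) : 𝓞 F) := (map_natCast _ N).symm
      rw [h5, HeightOneSpectrum.valuation_of_algebraMap]
      exact w.intValuation_eq_one_iff.2 hv
    rw [h2]
    have hg1 : IntB A w ((show UV A w from k).1.1 - 1) := by
      rw [sub_eq_add_neg]
      exact intB_add hk0 (intB_neg intB_one)
    exact (intB_iff_co A w _).1 hg1 i
  · have h1 : gv (single v k : (sysU A).A) w = 1 := by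
      unfold gv
      rw [single_ne hw]
      rfl
    rw [h1, Units.val_one, sub_self]
    exact ⟨intB_one, divN_zero⟩

end Pool.Agent.CGU
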