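import Pool.Agent.CGU.KLB

/-!
# Lattices are discrete and cocompact
-/

noncomputable section

set_option linter.unusedSectionVars false

namespace Pool.Agent.CGU

open NumberField IsDedekindDomain Pool.Agent.CGQ
open Pool.Agent.CG2 (Pl Fv Ov)
open Pool.Agent.CGN (SC co_nat)
open scoped Classical

variable {F : Type} [Field F] [NumberField F] {A : UD F}

/-- The norm of the coordinates. -/
def nB {A : UD F} (x : BInf A) : ℝ := ‖BInf.lin A x‖

theorem nB_nonneg (x : BInf A) : 0 ≤ nB x := norm_nonneg _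

theorem nB_eq_zero {x : BInf A} : nB x = 0 ↔ x = 0 := by
  rw [nB, norm_eq_zero, LinearEquiv.map_eq_zero_iff]

theorem nB_add (x y : BInf A) : nB (x + y) ≤ nB x + nB y := by
  rw [nB, map_add]
  exact norm_add_le _ _

theorem nB_smul (r : ℝ) (x : BInf A) : nB (r • x) = |r| * nB x := by
  rw [nB, map_smul, norm_smul, Real.norm_eq_abs]
  rfl

theorem normAtPlace_le (w : InfinitePlace F) (u : Rinf F) :
    mixedEmbedding.normAtPlace w u ≤ ‖u‖ := by
  rcases w.isReal_or_isComplex with hw | hw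
  · rw [mixedEmbedding.normAtPlace_apply_of_isReal hw]
    exact (norm_le_pi_norm u.1 ⟨w, hw⟩).trans (norm_fst_le u)
  · rw [mixedEmbedding.normAtPlace_apply_of_isComplex hw]
    exact (norm_le_pi_norm u.2 ⟨w, hw⟩).trans (norm_snd_le u)

/-- The coordinates are bounded by the norm. -/
theorem place_le (x : BF A) (w : InfinitePlace F) (i : Ix A) : w (x.co i) ≤ nB (theta A x) := by
  have h4 : w (x.co i) = mixedEmbedding.normAtPlace w ((theta A x).co i) := by
    rw [theta_co, mixedEmbedding.normAtPlace_apply]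
  rw [h4]
  exact (normAtPlace_le w _).trans (norm_le_pi_norm (BInf.lin A (theta A x)) i)

/-- **KLL.** Lattices are discrete. -/
theorem lat_disc (g : (sysU A).A) (C : ℝ) : {x : BF A | x ∈ Lat g ∧ nB (theta A x) ≤ C}.Finite := by
  obtain ⟨N, hN, -, h2⟩ := Lat_bounds g
  have hfin := Embeddings.finite_of_norm_le F ℂ ((N : ℝ) * C)
  have hfin2 : (Set.pi (Set.univ : Set (Ix A))
      fun _ => {x : F | IsIntegral ℤ x ∧ ∀ φ : F →+* ℂ, ‖φ x‖ ≤ (N : ℝ) * C}).Finite :=
    Set.Finite.pi fun _ => hfin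
  have hN0 : ((N : ℕ) : F) ≠ 0 := Nat.cast_ne_zero.2 hN.ne'
  refine Set.Finite.of_finite_image (f := fun x : BF A => (fun i => ((N : ℕ) : F) * x.co i :
      Ix A → F)) (hfin2.subset ?_) ?_
  · rintro _ ⟨x, ⟨hx1, hx2⟩, rfl⟩ i _
    obtain ⟨a, ha⟩ := h2 x hx1 i
    refine ⟨?_, fun φ => ?_⟩
    · change IsIntegral ℤ (((N : ℕ) : F) * x.co i)
      rw [ha]
      exact a.isIntegral_coe
    · change ‖φ (((N : ℕ) : F) * x.co i)‖ ≤ _
      rw [map_mul, map_natCast, norm_mul, Complex.norm_natCast]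
      refine mul_le_mul_of_nonneg_left ?_ (Nat.cast_nonneg N)
      have := (place_le x (InfinitePlace.mk φ) i).trans hx2
      rwa [InfinitePlace.apply] at this
  · intro x _ y _ hxy
    exact SC.Alg.ext fun i => mul_left_cancel₀ hN0 (congrFun hxy i)

private theorem KLM_near (F : Type) [Field F] [NumberField F] : ∃ R : ℝ, 0 ≤ R ∧
    ∀ m : Rinf F, ∃ a : 𝓞 F, ‖m - mixedEmbedding F (a : F)‖ ≤ R := by
  let b := mixedEmbedding.latticeBasis F
  refine ⟨∑ i, ‖b i‖, Finset.sum_nonneg fun _ _ => norm_nonneg _, fun m => ?_⟩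
  have h1 := ZSpan.norm_fract_le b m
  have h2 : ((ZSpan.floor b m : Submodule.span ℤ (Set.range b)) : mixedEmbedding.mixedSpace F) ∈
      mixedEmbedding.integerLattice F :=
    (mixedEmbedding.mem_span_latticeBasis F).1 (ZSpan.floor b m).2
  obtain ⟨a, ha⟩ := h2
  have ha' : mixedEmbedding F (a : F) =
      ((ZSpan.floor b m : Submodule.span ℤ (Set.range b)) : mixedEmbedding.mixedSpace F) := ha
  refine ⟨a, ?_⟩
  rwa [ZSpan.fract_apply, ← ha'] at h1

/-- **KLM.** Lattices are cocompact. -/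
theorem lat_coc (g : (sysU A).A) : ∃ R : ℝ, ∀ z : BInf A, ∃ x ∈ Lat g, nB (z - theta A x) ≤ R := by
  obtain ⟨N, hN, h1, -⟩ := Lat_bounds g
  obtain ⟨R, hR0, hR⟩ := KLM_near F
  have hN' : (0 : ℝ) < N := Nat.cast_pos.2 hN
  refine ⟨N * R, fun z => ?_⟩
  have key : ∀ i : Ix A, ∃ a : 𝓞 F,
      ‖z.co i - mixedEmbedding F (((N : ℕ) : F) * (a : F))‖ ≤ N * R := by
    intro i
    obtain ⟨a, ha⟩ := hR ((N : ℝ)⁻¹ • z.co i)
    refine ⟨a, ?_⟩
    have h2 : z.co i - mixedEmbedding F (((N : ℕ) : F) * (a : F)) =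
        (N : ℝ) • ((N : ℝ)⁻¹ • z.co i - mixedEmbedding F (a : F)) := by
      rw [smul_sub, smul_smul, mul_inv_cancel₀ hN'.ne', one_smul, map_mul, map_natCast]
      congr 1
    rw [h2, norm_smul, Real.norm_natCast]
    exact mul_le_mul_of_nonneg_left ha hN'.le
  choose a ha using key
  refine ⟨_, h1 a, ?_⟩
  refine (pi_norm_le_iff_of_nonneg (by positivity)).2 fun i => ?_
  have h3 : BInf.lin A (z - theta A (((N : ℕ) : BF A) *
      mkB A (fun i => ((a i : 𝓞 F) : F)))) i =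
      z.co i - mixedEmbedding F (((N : ℕ) : F) * ((a i : 𝓞 F) : F)) := by
    have h4 : (((N : ℕ) : BF A) * mkB A (fun i => ((a i : 𝓞 F) : F))).co i =
        ((N : ℕ) : F) * ((a i : 𝓞 F) : F) := co_nat N _ i
    rw [← h4]
    rfl
  rw [h3]
  exact ha i

end Pool.Agent.CGU
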