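import Pool.Agent.CGU.KOr
import Pool.Agent.CGN.KMain

/-!
# The data of the top degrees and the systems of cells
-/

noncomputable section

set_option linter.unusedSectionVars false
set_option linter.unusedVariables false

namespace Pool.Agent.CGU

open NumberField IsDedekindDomain Pool.Agent.CGQ Pool.Agent.CG3
open Pool.Agent.CG2 (Pl Fv Ov PolySys CellSys Asc)

variable {F : Type} [Field F] [NumberField F] {A : UD F} (R : RDat A)

instance : Countable (sysU A).G := countable_G A

/-- The data of the top degrees. -/
theorem exists_tsys (hd : 2 ≤ nU R) {N : ℕ} (hN : N0 R ≤ N)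
    {K : Subgroup (sysU A).A} (hK : K ≤ KNA A N) (hO : OC K) :
    ∃ X : TSys K, X.C.n0 = nU R ∧ (∀ γ, X.ε γ = epsU A ((sysU A).sgn γ)) := by
  have hN0 : N ≠ 0 := by
    have := N0_ge R
    omega
  obtain ⟨C, hC⟩ := exists_goodC R N hN0
  obtain ⟨b, hb⟩ := (famU R N hN C hC).exists_genF
  obtain ⟨h, -, hh⟩ := exists_large R
  refine ⟨{ C := (famU R N hN C hC).cs hK
            two := hd
            min := (famU R N hN C hC).cs_min hK
            orb := orbU R N hN C hC hK hO
            asc := (famU R N hN C hC).cs_asc hK
            om := (famU R N hN C hC).om b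
            om_cyc := (famU R N hN C hC).om_cocycle b hb h fun e => by
              have h1 : (2 : ℝ) ≤ (famU R N hN C hC).q e h := hh e
              linarith
            om_fin := fun w x y => om_fin R N hN C hC hK b hb y x w
            sg := fun x => epsU A (outK x).1
            ε := (epsU A).comp (sysU A).sgn
            sg_smul := ?_
            fan := (famU R N hN C hC).om_fan hK b hb }, rfl, fun γ => rfl⟩
  intro γ x
  obtain ⟨κ, -, hκ⟩ := CGN.outK_smul γ x
  have h1 : (outK (γ • x)).1 = (sysU A).sgn γ * (outK x).1 := by rw [hκ]; rfl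
  change epsU A (outK (γ • x)).1 = epsU A ((sysU A).sgn γ) * epsU A (outK x).1
  rw [h1, map_mul]

include R in
/-- The systems of cells of torsion free groups. -/
theorem exists_prodU {K : Subgroup (sysU A).A} (hO : OC K)
    (hTF : TorsionFree K) : ∃ (E : Type) (_ : MulAction (sysU A).G E) (_ : DecidableEq E),
      Nonempty (CellSys (sysU A).G (PtK K) E) := by
  have hN0 : N0 R ≠ 0 := by
    have := N0_ge R
    omega
  obtain ⟨C, hC⟩ := exists_goodC R (N0 R) hN0
  exact (famU R (N0 R) le_rfl C hC).exists_prodCell (oc_KNA (N0 R) hN0) hO hTF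

end Pool.Agent.CGU
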