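import Pool.Agent.CGU.KFin
import Pool.Agent.CGQ.KRD

/-!
# The orientation cocycle: finiteness
-/

noncomputable section

set_option linter.unusedSectionVars false
set_option linter.unusedVariables false

namespace Pool.Agent.CGU

open NumberField IsDedekindDomain Pool.Agent.CGQ Pool.Agent.CG3
open Pool.Agent.CG2 (Pl Fv Ov PolySys CellSys Asc)
open Pool.Agent.CGN (SC co_nat)

variable {F : Type} [Field F] [NumberField F] {A : UD F} (R : RDat A)

/-- A multiple of `1` is in every lattice. -/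
theorem exists_one_mem (g : (sysU A).A) : ∃ M : ℕ, 0 < M ∧ ((M : ℕ) : BF A) ∈ Lat g := by
  obtain ⟨M, hM, h1, -⟩ := Lat_bounds g
  refine ⟨M, hM, ?_⟩
  have h2 := h1 fun i => A.s.u i
  have h3 : mkB A (fun i => ((A.s.u i : 𝓞 F) : F)) = 1 := rfl
  rwa [h3, mul_one] at h2

variable (N : ℕ) (hN : N0 R ≤ N) (C : Cls A N → ℝ) (hC : GoodC R N C)

/-- **KRF.** -/
theorem om_fin {K : Subgroup (sysU A).A} (hK : K ≤ KNA A N) (b : (PP R).V →L[ℝ] ℝ)
    (hb : (famU R N hN C hC).GenF b) (y y' : (sysU A).Pt)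
    (w : Fin ((famU R N hN C hC).n0 + 1) → (sysU A).G) :
    {δ : (sysU A).G | mkK K (act δ y) = mkK K y' ∧
      (famU R N hN C hC).om b (fun i => δ⁻¹ * w i) ≠ 0}.Finite := by
  classical
  obtain ⟨h₁, hh₁, hL₁⟩ := exists_large R
  obtain ⟨ε, hε, hle⟩ := PA.kpos_eps hb.1
  obtain ⟨C', hC', hq⟩ := (PP R).q_le
  obtain ⟨ε', U, hε', hU, hlow⟩ := hh₁.lower
  have hlow' := hlow h₁ (mem_of_mem_nhds hU)
  obtain ⟨M, hM, hM1⟩ := exists_one_mem (A := A) y.2
  set B1 : ℝ := ∑ i, b h₁ / 2 * qe R (w i) h₁ with hB1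
  set B : ℝ := C' * (B1 / ε) * (PP R).sz 1 with hB
  refine (sz_fin R y'.2 M hM (B / ε')).subset ?_
  rintro δ ⟨hδ, hom⟩
  obtain ⟨κ, hκ, hy'⟩ := mkK_eq.1 hδ
  have hLat : Lat y'.2 = Lat (diag δ * y.2) := by
    rw [hy']
    change Lat (diag δ * y.2 * κ) = _
    exact Lat_mul _ fun v => (hK hκ v).1
  -- the coefficients
  have hcone : InCone b (fun i => (famU R N hN C hC).q (δ⁻¹ * w i)) := by
    by_contra h
    exact hom (if_neg h)
  obtain ⟨x, hx, hbx⟩ := hcone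
  have hbx' : ∀ v, b v = ∑ i, x i * qe R (δ⁻¹ * w i) v := by
    intro v
    rw [hbx, _root_.sum_apply]
    rfl
  have hxi : ∀ i, x i ≤ b h₁ / 2 := by
    intro i
    rw [le_div_iff₀ two_pos, hbx' h₁]
    refine (mul_le_mul_of_nonneg_left (hL₁ (δ⁻¹ * w i)) (hx i).le).trans ?_
    exact Finset.single_le_sum (f := fun i => x i * qe R (δ⁻¹ * w i) h₁)
      (fun j _ => mul_nonneg (hx j).le (by linarith [hL₁ (δ⁻¹ * w j)])) (Finset.mem_univ i)
  -- the form `h`
  set h : (PP R).V := (actU R δ).symm h₁ with hh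
  have hact : actU R δ h = h₁ := LinearEquiv.apply_symm_apply _ _
  have hpsd : (PP R).PSD h := by
    have h1 : (PP R).PSD (actU R δ h) := by
      rw [hact]
      exact hh₁.psd
    exact ((PP R).hA_psd (thP R δ) h).2 h1
  have hqe : ∀ a : (sysU A).G, qe R (δ * a) h₁ = qe R a h := by
    intro a
    rw [← hact]
    exact actU_q R δ a h
  have hbh : b h ≤ B1 := by
    rw [hbx' h]
    refine Finset.sum_le_sum fun i _ => ?_
    have h1 : qe R (δ⁻¹ * w i) h = qe R (w i) h₁ := by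
      rw [← hqe, mul_inv_cancel_left]
    rw [h1]
    exact mul_le_mul_of_nonneg_right (hxi i) (by linarith [hL₁ (w i)])
  have hzB : qe R δ h₁ ≤ B := by
    have h0 : qe R δ h₁ = (PP R).q 1 h := by
      rw [← qe_one, ← hqe, mul_one]
    rw [h0]
    refine (le_abs_self _).trans ((hq h 1).trans ?_)
    refine mul_le_mul_of_nonneg_right (mul_le_mul_of_nonneg_left ?_ hC') ((PP R).sz_nonneg _)
    rw [le_div_iff₀ hε, mul_comm]
    exact (hle h hpsd).trans hbh
  refine ⟨?_, ?_⟩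
  · have h1 : ((M : ℕ) : BF A) * (uK δ).1 = (uK δ).1 * ((M : ℕ) : BF A) :=
      (Nat.cast_commute M (uK δ).1).eq
    rw [h1, hLat, mem_Lat_diag]
    exact hM1
  · have h5 : ε' * (PP R).sz (thP R δ).1 ≤ qe R δ h₁ := hlow' _
    rw [le_div_iff₀ hε', mul_comm]
    exact h5.trans hzB

end Pool.Agent.CGU
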