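import Pool.Agent.CGU.KTr
import Pool.Agent.CGU.KLC

/-!
# The order, its trace form and the duality of the lattices
-/

noncomputable section

set_option linter.unusedSectionVars false
set_option linter.unusedVariables false

namespace Pool.Agent.CGU

open NumberField IsDedekindDomain
open Pool.Agent.CG2 (Pl Fv Ov)
open Pool.Agent.CGQ (Sys PA)
open Pool.Agent.CGN (SC)

variable {F : Type} [Field F] [NumberField F] {A : UD F}

/-- The standard order of `B`. -/
def OB (A : UD F) : Subring (BF A) := (A.s.hom (algebraMap (𝓞 F) F)).range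


theorem mem_OB {x : BF A} : x ∈ OB A ↔ ∃ r : Ix A → 𝓞 F, x = mkB A fun i => ((r i : 𝓞 F) : F) := by
  constructor
  · rintro ⟨z, rfl⟩
    exact ⟨z, rfl⟩
  · rintro ⟨r, rfl⟩
    exact ⟨r, rfl⟩

/-- PROOF. `HeightOneSpectrum.mem_integers_of_valuation_le_one` for the coordinates (see the proof of `Lat_bounds`),
`HeightOneSpectrum.adicCompletion.valued_coe`. -/
theorem mem_OB_iff {x : BF A} : x ∈ OB A ↔ ∀ v, IntB A v (bloc A v x) := by
  constructor
  · intro h v
    obtain ⟨r, rfl⟩ := mem_OB.1 h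
    refine (intB_iff_co A v _).2 fun i => ?_
    rw [co_bloc, co_mkB]
    exact CG2.KoeLat_val_coe_le v (r i)
  · intro h
    have h1 : ∀ i, ∃ a : 𝓞 F, (a : F) = x.co i := by
      intro i
      have h2 : ∀ v : Pl F, v.valuation F (x.co i) ≤ 1 := by
        intro v
        rw [← HeightOneSpectrum.adicCompletion.valued_coe]
        exact (intB_iff_co A v _).1 (h v) i
      exact HeightOneSpectrum.mem_integers_of_valuation_le_one F _ h2
    choose r hr using h1
    rw [mem_OB]
    exact ⟨r, SC.Alg.ext fun i => (hr i).symm⟩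

/-- PROOF. `SCI.hom_star`. -/
theorem star_mem_OB {x : BF A} (hx : x ∈ OB A) : star x ∈ OB A := by
  obtain ⟨z, rfl⟩ := hx
  exact ⟨star z, A.s.hom_star (algebraMap (𝓞 F) F) z⟩

private theorem OA_bloc (g : (sysU A).A) (x y : BF A) (v : Pl F) :
    bloc A v (star x * y) = star (iq g x v) * iq g y v := by
  have h1 : ∀ z : BF A, bloc A v z = (gv g v).1 * iq g z v := by
    intro z
    rw [iq, ← mul_assoc, Units.mul_inv, one_mul]
  rw [map_mul, bE_star, h1 x, h1 y, star_mul, gv_star, mul_assoc, ← mul_assoc ((gv g v)⁻¹ : (BV A v)ˣ).1,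
    Units.inv_mul, one_mul]

/-- PROOF. `mem_OB_iff`: `iq g x v = g⁻¹ x` and `bloc (star x * y) = star (iq g x v) * iq g y v` since
`star (g⁻¹) * g⁻¹ = 1` (`gv_star`), `IntB.star`, `intB_mul`, `bE_star`. -/
theorem star_mul_mem {g : (sysU A).A} {x y : BF A} (hx : x ∈ Lat g) (hy : y ∈ Lat g) :
    star x * y ∈ OB A := by
  rw [mem_OB_iff]
  intro v
  rw [OA_bloc g]
  exact intB_mul (hx v).star (hy v)

/-- PROOF. `Lat_right`, `mem_OB`. -/
theorem lat_mul_OB {g : (sysU A).A} {x a : BF A} (hx : x ∈ Lat g) (ha : a ∈ OB A) :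
    x * a ∈ Lat g := by
  obtain ⟨r, rfl⟩ := mem_OB.1 ha
  exact Lat_right g hx r



private theorem OB_exp (γ : WithZero (Multiplicative ℤ)) (hγ : γ ≠ 0) :
    ∃ n : ℤ, WithZero.exp (-n) = γ := by
  refine ⟨-WithZero.log γ, ?_⟩
  rw [neg_neg, WithZero.exp_log hγ]

private theorem OB_nat (g : (sysU A).A) : ∃ N : ℕ, 0 < N ∧
    ∀ v, IntB A v (((N : ℕ) : BV A v) * ((gv g v)⁻¹ : (BV A v)ˣ).1) := by
  obtain ⟨N, hN, h1, -⟩ := Lat_bounds g
  refine ⟨N, hN, fun v => ?_⟩
  obtain ⟨r, hr⟩ := mem_OB.1 (OB A).one_mem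
  have h2 := h1 r v
  rw [← hr, mul_one, iq, map_natCast, ← (Nat.cast_commute N _).eq] at h2
  exact h2

private theorem OB_app (g : (sysU A).A) (v : Pl F) (N M : ℕ) (hN : N ≠ 0) (hM : M ≠ 0) (z : BV A v) :
    ∃ x : BF A, DivN A (N * M) v (bloc A v x - z) ∧
      (∀ w, w ≠ v → IntB A w (bloc A w x)) ∧
      ∀ w, w ≠ v → g.1 w ∉ (sysU A).B w → DivN A N w (bloc A w x) := by
  classical
  have hNM : N * M ≠ 0 := mul_ne_zero hN hM
  have h1 : ∀ w : Pl F, ∃ n : ℤ, WithZero.exp (-n) = Valued.v ((N * M : ℕ) : Fv w) := fun w =>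
    OB_exp _ (CG2.KoeLat_val_natCast_ne w hNM)
  choose e he using h1
  obtain ⟨T, hT⟩ : ∃ T : Finset (Pl F), ∀ w, w ∈ T ↔ (w = v ∨ g.1 w ∉ (sysU A).B w) := by
    have hg : {w | g.1 w ∉ (sysU A).B w}.Finite := g.2
    refine ⟨insert v hg.toFinset, fun w => ?_⟩
    rw [Finset.mem_insert, Set.Finite.mem_toFinset]
    rfl
  have happ : ∀ i : Ix A, ∃ y : F,
      Valued.v (((y : F) : Fv v) - z.co i) ≤ Valued.v ((N * M : ℕ) : Fv v) ∧
      (∀ w, w ≠ v → Valued.v ((y : F) : Fv w) ≤ 1) ∧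
      ∀ w, w ≠ v → g.1 w ∉ (sysU A).B w → Valued.v ((y : F) : Fv w) ≤ Valued.v ((N : ℕ) : Fv w) := by
    intro i
    obtain ⟨a, ha⟩ := CG2.exists_sub_lt v (z.co i) _ (CG2.KoeLat_val_natCast_ne v hNM)
    obtain ⟨y, hy1, hy2⟩ := CG2.approx T (fun w => if w = v then a else 0) e
    have h3 : ∀ w, w ≠ v → w ∈ T → Valued.v ((y : F) : Fv w) ≤ Valued.v ((N * M : ℕ) : Fv w) := by
      intro w hw hwT
      have h4 := hy1 w hwT
      rw [if_neg hw, sub_zero, CG2.Ge, he, ← HeightOneSpectrum.adicCompletion.valued_coe] at h4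
      exact h4
    refine ⟨y, ?_, ?_, ?_⟩
    · have h4 := hy1 v ((hT v).2 (Or.inl rfl))
      rw [if_pos rfl, CG2.Ge, he, ← HeightOneSpectrum.adicCompletion.valued_coe] at h4
      have h2 : (((y - a : F)) : Fv v) = ((y : F) : Fv v) - ((a : F) : Fv v) :=
        map_sub (algebraMap F (Fv v)) y a
      rw [h2] at h4
      have h5 : ((y : F) : Fv v) - z.co i =
          (((y : F) : Fv v) - ((a : F) : Fv v)) - (z.co i - ((a : F) : Fv v)) := by ring
      rw [h5]
      exact (Valuation.map_sub _ _ _).trans (max_le h4 ha.le)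
    · intro w hw
      by_cases hwT : w ∈ T
      · exact (h3 w hw hwT).trans (CG2.KoeLat_val_natCast_le w _)
      · have h4 := hy2 w hwT
        rw [CG2.Ge, neg_zero, WithZero.exp_zero] at h4
        rw [HeightOneSpectrum.adicCompletion.valued_coe]
        exact h4
    · intro w hw hw2
      refine (h3 w hw ((hT w).2 (Or.inr hw2))).trans ?_
      rw [Nat.cast_mul, map_mul]
      calc _ ≤ Valued.v ((N : ℕ) : Fv w) * 1 := mul_le_mul' le_rfl (CG2.KoeLat_val_natCast_le w M)
        _ = _ := mul_one _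
  choose y hy1 hy2 hy3 using happ
  refine ⟨mkB A y, fun i => ?_, fun w hw => (intB_iff_co A w _).2 fun i => ?_, fun w hw hw2 i => ?_⟩
  · rw [SC.Alg.co_sub, co_bloc, co_mkB]
    exact hy1 i
  · rw [co_bloc, co_mkB]
    exact hy2 i w hw
  · rw [co_bloc, co_mkB]
    exact hy3 i w hw hw2

/-- PROOF. Fix `v`, put `y' = iq g y v = g_v⁻¹ y` and `π` of valuation so small that `π * (anything integral) * y'` is
integral (finitely many coordinates). By strong approximation (`CG2.approx`, as in the proof of `CGN.DMA_local` in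
`CGN/KND.lean`, `happ`) there is `x` in `B` whose image at `v` is so close to `g_v` that `g_v⁻¹ x = 1 + δ` with all
coordinates of `δ` small, and `g_w⁻¹ x` is integral for all `w ≠ v` (at the finitely many `w ≠ v` with `g_w` not in
`B_w`, i.e. `{w | g.1 w ∉ (sysU A).B w}` (finite: `g.2`), the coordinates of `x` are small at `w`; elsewhere they are integral). So
`x` is in `Lat g`, `star x * y` is in `OB A`, its image at `v` is `star (1 + δ) * y' = y' + star δ * y'` (see
`star_mul_mem`), and `star δ * y'` is integral, so `y'` is integral. -/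
theorem dual_mem (g : (sysU A).A) {y : BF A} (h : ∀ x ∈ Lat g, star x * y ∈ OB A) : y ∈ Lat g := by
  intro v
  obtain ⟨N, hN, hNg⟩ := OB_nat g
  -- `M y'` is integral
  obtain ⟨M, hM, hMy⟩ : ∃ M : ℕ, 0 < M ∧ IntB A v (((M : ℕ) : BV A v) * iq g y v) := by
    obtain ⟨c, hc⟩ : ∃ c : WithZero (Multiplicative ℤ), c = max 1 (Finset.univ.sup fun i : Ix A =>
      Valued.v ((iq g y v).co i)) := ⟨_, rfl⟩
    have hc0 : c ≠ 0 := by
      rw [hc]
      exact (lt_of_lt_of_le zero_lt_one (le_max_left _ _)).ne'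
    obtain ⟨M, hM, hM2⟩ := CG2.KoeLat_exists_small v c⁻¹ (inv_ne_zero hc0)
    refine ⟨M, hM, (intB_iff_co A v _).2 fun i => ?_⟩
    rw [CGN.co_nat, map_mul]
    have h1 : Valued.v ((iq g y v).co i) ≤ c := by
      rw [hc]
      exact (Finset.le_sup (f := fun i : Ix A => Valued.v ((iq g y v).co i))
        (Finset.mem_univ i)).trans (le_max_right _ _)
    calc _ ≤ c⁻¹ * c := mul_le_mul' hM2 h1
      _ = 1 := inv_mul_cancel₀ hc0
  obtain ⟨x, hx1, hx2, hx3⟩ := OB_app g v N M hN.ne' hM.ne' (gv g v).1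
  -- the element `x` at `v`
  obtain ⟨e, he, hex⟩ : ∃ e, IntB A v e ∧ iq g x v = 1 + ((M : ℕ) : BV A v) * e := by
    obtain ⟨f, hf, hf2⟩ := (divN_iff _).1 hx1
    refine ⟨((N : ℕ) : BV A v) * ((gv g v)⁻¹ : (BV A v)ˣ).1 * f, intB_mul (hNg v) hf, ?_⟩
    have h1 : bloc A v x = (gv g v).1 + ((N * M : ℕ) : BV A v) * f := by
      rw [← hf2, add_sub_cancel]
    rw [iq, h1, mul_add, Units.inv_mul, Nat.cast_mul]
    congr 1
    have h2 := (Nat.cast_commute N ((gv g v)⁻¹ : (BV A v)ˣ).1).eq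
    have h3 := (Nat.cast_commute M (((N : ℕ) : BV A v) * ((gv g v)⁻¹ : (BV A v)ˣ).1)).eq
    rw [← mul_assoc, ← mul_assoc, ← h2, ← mul_assoc, h3]
  have hxL : x ∈ Lat g := by
    intro w
    by_cases hw : w = v
    · subst hw
      rw [hex]
      refine intB_add intB_one (intB_mul ?_ he)
      exact (intB_iff A w _).2 ⟨((M : ℕ) : BO A w), map_natCast _ _⟩
    · by_cases hw2 : g.1 w ∈ (sysU A).B w
      · exact intB_mul (gv_inv_int ((mem_B_iff g w).1 hw2)) (hx2 w hw)
      · obtain ⟨f, hf, hf2⟩ := (divN_iff _).1 (hx3 w hw hw2)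
        rw [iq, hf2, ← mul_assoc, ← (Nat.cast_commute N _).eq]
        exact intB_mul (hNg w) hf
  have h1 := mem_OB_iff.1 (h x hxL) v
  rw [OA_bloc g, hex, star_add, star_one, star_mul, star_natCast, add_mul, one_mul, mul_assoc] at h1
  have h2 := intB_mul he.star hMy
  have h3 : iq g y v = (iq g y v + star e * (((M : ℕ) : BV A v) * iq g y v)) +
      -(star e * (((M : ℕ) : BV A v) * iq g y v)) := by
    rw [add_neg_cancel_right]
  rw [h3]
  exact intB_add h1 (intB_neg h2)



/-- PROOF. Let `ω` be the `ℤ`-basis of `𝓞 F`. The elements `b (i, k)` with coordinates `ω_k` at `i` and `0`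
elsewhere form a basis of `BInf A` over `ℝ` (`Pi.basis`, `mixedEmbedding.latticeBasis`), they are the images of
elements of `OB A`, and for `x` in `OB A` the coefficients of `theta x` in this basis are integers
(`mixedEmbedding.latticeBasis_repr_apply` or `mem_span_latticeBasis`). -/
theorem exists_OB_basis (A : UD F) : ∃ b : Module.Basis (Fin (Module.finrank ℝ (BInf A))) ℝ (BInf A),
    (∀ i, ∃ x ∈ OB A, theta A x = b i) ∧
    ∀ x ∈ OB A, ∀ i, ∃ n : ℤ, b.repr (theta A x) i = n := by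
  classical
  let B0 : Module.Basis (Σ _ : Ix A, Module.Free.ChooseBasisIndex ℤ (𝓞 F)) ℝ (Ix A → Rinf F) :=
    Pi.basis fun _ => mixedEmbedding.latticeBasis F
  let B1 : Module.Basis (Σ _ : Ix A, Module.Free.ChooseBasisIndex ℤ (𝓞 F)) ℝ (BInf A) :=
    B0.map (BInf.lin A).symm
  let e : (Σ _ : Ix A, Module.Free.ChooseBasisIndex ℤ (𝓞 F)) ≃ Fin (Module.finrank ℝ (BInf A)) :=
    Fintype.equivFinOfCardEq (Module.finrank_eq_card_basis B1).symm
  refine ⟨B1.reindex e, ?_, ?_⟩
  · intro i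
    obtain ⟨⟨j, k⟩, rfl⟩ := e.surjective i
    refine ⟨_, mem_OB.2 ⟨Pi.single j (RingOfIntegers.basis F k), rfl⟩, ?_⟩
    rw [Module.Basis.reindex_apply, Equiv.symm_apply_apply]
    apply BInf.ext
    intro l
    have h1 : (B1 ⟨j, k⟩).co l = (Pi.single j (mixedEmbedding.latticeBasis F k) : Ix A → Rinf F) l := by
      have h2 : B1 ⟨j, k⟩ = (BInf.lin A).symm (B0 ⟨j, k⟩) := B0.map_apply _ _
      have h3 : B0 ⟨j, k⟩ = Pi.single j (mixedEmbedding.latticeBasis F k) := Pi.basis_apply _ _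
      rw [h2, h3]
      rfl
    rw [h1, theta_co, co_mkB]
    by_cases hl : l = j
    · subst hl
      rw [Pi.single_eq_same, Pi.single_eq_same, mixedEmbedding.latticeBasis_apply,
        integralBasis_apply]
    · rw [Pi.single_eq_of_ne hl, Pi.single_eq_of_ne hl]
      exact map_zero (mixedEmbedding F)
  · intro x hx i
    obtain ⟨⟨j, k⟩, rfl⟩ := e.surjective i
    obtain ⟨r, rfl⟩ := mem_OB.1 hx
    refine ⟨(RingOfIntegers.basis F).repr (r j) k, ?_⟩
    rw [Module.Basis.repr_reindex_apply, Equiv.symm_apply_apply]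
    have h1 : B1.repr (theta A (mkB A fun i => ((r i : 𝓞 F) : F))) ⟨j, k⟩ =
        (mixedEmbedding.latticeBasis F).repr (mixedEmbedding F ((r j : 𝓞 F) : F)) k := rfl
    rw [h1, mixedEmbedding.latticeBasis_repr_apply, integralBasis_repr_apply]
    simp



private theorem OC2_tr {z : BF A} (hz : z ∈ OB A) :
    ∃ n : ℤ, LinearMap.trace ℝ (BInf A) (LinearMap.mulLeft ℝ (theta A z)) = n := by
  classical
  obtain ⟨b, hb1, hb2⟩ := exists_OB_basis A
  rw [LinearMap.trace_eq_matrix_trace ℝ b, Matrix.trace]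
  have h1 : ∀ i, ∃ n : ℤ, Matrix.diag ((LinearMap.toMatrix b b) (LinearMap.mulLeft ℝ (theta A z))) i = n := by
    intro i
    obtain ⟨x, hx, hxb⟩ := hb1 i
    rw [Matrix.diag_apply, LinearMap.toMatrix_apply, LinearMap.mulLeft_apply, ← hxb, ← map_mul]
    exact hb2 _ ((OB A).mul_mem hz hx) i
  choose n hn using h1
  exact ⟨∑ i, n i, by rw [Finset.sum_congr rfl fun i _ => hn i, Int.cast_sum]⟩

/-- PROOF. The matrix of the left multiplication by `theta z` in the basis `b` of `exists_OB_basis` has integral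
coefficients: `theta z * b j = theta (z * x)` with `z * x` in `OB A`. So its trace is an integer
(`LinearMap.trace_eq_matrix_trace`), also for `star z`. -/
theorem tf_int {z : BF A} (hz : z ∈ OB A) : ∃ n : ℤ, tf A (theta A z) = n := by
  obtain ⟨n, hn⟩ := OC2_tr hz
  obtain ⟨m, hm⟩ := OC2_tr (star_mem_OB hz)
  refine ⟨n + m, ?_⟩
  rw [tf_apply, hn, ← theta_star, hm, Int.cast_add]



/-- PROOF. If `x ≠ 0` then by `exists_J` for `oneV` there is `y = J x` with `tf (star x * y) = Qf x x > 0`. -/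
theorem tf_nondeg (R : RDat A) {x : BInf A} (h : ∀ y, tf A (star x * y) = 0) : x = 0 := by
  by_contra hx
  obtain ⟨J, -, hJ⟩ := exists_J R (oneV_pd R.P)
  have h1 := Qd_pos R (oneV_pd R.P) hx
  rw [Qd, ← hJ, h] at h1
  exact lt_irrefl _ h1

/-- PROOF. Let `b` be the basis of `exists_OB_basis`, `b i = theta (x_i)`, and `G` the matrix `tf (star (b i) * b j)`. Its
coefficients are integers (`tf_int`) and `det G ≠ 0` by `tf_nondeg`. Let `D = |det G|`. If `z` is as in the hypothesis,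
`theta z = ∑ z_j b_j` with real `z_j`, `∑ j, G i j * z_j = tf (star (x_i) * z)` is an integer for all `i`, so by
multiplication with the adjugate matrix `D z_j` is an integer for all `j`, hence `D theta z = theta (∑ (D z_j) x_j)`, and
`theta` is injective. -/
theorem disc (R : RDat A) : ∃ D : ℕ, 0 < D ∧ ∀ z : BF A,
    (∀ a ∈ OB A, ∃ n : ℤ, tf A (theta A (star a * z)) = n) → ((D : ℕ) : BF A) * z ∈ OB A := by
  classical
  obtain ⟨b, hb1, hb2⟩ := exists_OB_basis A
  choose x hxO hxb using hb1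
  have hG : ∀ i j, ∃ n : ℤ, tf A (star (b i) * b j) = n := by
    intro i j
    rw [← hxb, ← hxb, ← theta_star, ← map_mul]
    exact tf_int ((OB A).mul_mem (star_mem_OB (hxO i)) (hxO j))
  choose G hG using hG
  obtain ⟨M, hM⟩ : ∃ M : Matrix (Fin (Module.finrank ℝ (BInf A))) (Fin (Module.finrank ℝ (BInf A))) ℤ,
      M = Matrix.of G := ⟨_, rfl⟩
  have hMr : ∀ i j, (M.map (Int.castRingHom ℝ)) i j = tf A (star (b i) * b j) := by
    intro i j
    rw [hG, Matrix.map_apply, hM]
    rfl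
  have hsum : ∀ (c : Fin (Module.finrank ℝ (BInf A)) → ℝ) i,
      (M.map (Int.castRingHom ℝ)).mulVec c i = tf A (star (b i) * ∑ j, c j • b j) := by
    intro c i
    rw [Finset.mul_sum, map_sum, Matrix.mulVec, dotProduct]
    refine Finset.sum_congr rfl fun j _ => ?_
    rw [hMr, mul_smul_comm, map_smul, smul_eq_mul, mul_comm]
  have hdet : M.det ≠ 0 := by
    intro h0
    have h1 : (M.map (Int.castRingHom ℝ)).det = 0 := by
      rw [← RingHom.mapMatrix_apply, ← RingHom.map_det, h0, map_zero]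
    obtain ⟨c, hc0, hc⟩ := Matrix.exists_mulVec_eq_zero_iff.2 h1
    apply hc0
    have h2 : ∑ j, c j • b j = 0 := by
      apply tf_nondeg R
      intro y
      rw [← tf_star, star_mul, star_star]
      have h3 : ∀ i, tf A (star (b i) * ∑ j, c j • b j) = 0 := by
        intro i
        rw [← hsum, hc]
        rfl
      obtain ⟨L, hL⟩ : ∃ L : BInf A →ₗ[ℝ] ℝ, ∀ y, L y = tf A (star y * ∑ j, c j • b j) :=
        ⟨(tf A) ∘ₗ (LinearMap.mulRight ℝ (∑ j, c j • b j)) ∘ₗ (starL A), fun y => rfl⟩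
      rw [← hL]
      have h4 : L = 0 := b.ext fun i => by
        rw [hL, h3]
        rfl
      rw [h4]
      rfl
    have h3 := Fintype.linearIndependent_iff.1 b.linearIndependent c h2
    funext i
    exact h3 i
  refine ⟨M.det.natAbs, Int.natAbs_pos.2 hdet, fun z hz => ?_⟩
  obtain ⟨c, hc⟩ : ∃ c : Fin (Module.finrank ℝ (BInf A)) → ℝ, c = fun j => b.repr (theta A z) j :=
    ⟨_, rfl⟩
  have hcz : ∑ j, c j • b j = theta A z := by
    rw [hc]
    exact b.sum_repr _
  have h1 : ∀ i, ∃ n : ℤ, (M.map (Int.castRingHom ℝ)).mulVec c i = n := by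
    intro i
    rw [hsum, hcz, ← hxb, ← theta_star, ← map_mul]
    exact hz _ (hxO i)
  choose n hn using h1
  have h2 : ∀ j, ∃ k : ℤ, ((M.det : ℤ) : ℝ) * c j = k := by
    intro j
    refine ⟨(M.adjugate.mulVec n) j, ?_⟩
    have h3 : ((M.map (Int.castRingHom ℝ)).adjugate * (M.map (Int.castRingHom ℝ))).mulVec c j =
        (M.map (Int.castRingHom ℝ)).adjugate.mulVec ((M.map (Int.castRingHom ℝ)).mulVec c) j := by
      rw [Matrix.mulVec_mulVec]
    rw [Matrix.adjugate_mul, Matrix.smul_mulVec, Matrix.one_mulVec] at h3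
    have h4 : (M.map (Int.castRingHom ℝ)).det = ((M.det : ℤ) : ℝ) := by
      rw [← RingHom.mapMatrix_apply, ← RingHom.map_det]
      rfl
    have h5 : (M.map (Int.castRingHom ℝ)).adjugate = M.adjugate.map (Int.castRingHom ℝ) := by
      rw [← RingHom.mapMatrix_apply, ← RingHom.map_adjugate]
      rfl
    rw [h4, h5] at h3
    have h6 : (((M.det : ℤ) : ℝ) • c) j = ((M.det : ℤ) : ℝ) * c j := rfl
    rw [← h6, h3, Matrix.mulVec, Matrix.mulVec, dotProduct, dotProduct, Int.cast_sum]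
    refine Finset.sum_congr rfl fun i _ => ?_
    rw [hn, Matrix.map_apply, Int.cast_mul]
    rfl
  choose k hk using h2
  have h3 : ((M.det : ℤ) : BF A) * z = ∑ j, ((k j : ℤ) : BF A) * x j := by
    apply theta_inj A
    rw [map_mul, map_intCast, ← hcz, Finset.mul_sum, map_sum]
    refine Finset.sum_congr rfl fun j _ => ?_
    rw [map_mul, map_intCast, hxb, mul_smul_comm, ← zsmul_eq_mul, ← zsmul_eq_mul,
      ← Int.cast_smul_eq_zsmul ℝ, ← Int.cast_smul_eq_zsmul ℝ, smul_smul, mul_comm, hk]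
  have h4 : ((M.det : ℤ) : BF A) * z ∈ OB A := by
    rw [h3]
    exact (OB A).sum_mem fun j _ => (OB A).mul_mem (intCast_mem (OB A) _) (hxO j)
  rcases Int.natAbs_eq M.det with h5 | h5
  · have h6 : ((M.det.natAbs : ℕ) : BF A) = ((M.det : ℤ) : BF A) := by
      conv_rhs => rw [h5]
      rw [Int.cast_natCast]
    rw [h6]
    exact h4
  · have h6 : ((M.det.natAbs : ℕ) : BF A) = -((M.det : ℤ) : BF A) := by
      conv_rhs => rw [h5]
      rw [Int.cast_neg, neg_neg, Int.cast_natCast]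
    rw [h6, neg_mul]
    exact (OB A).neg_mem h4



/-- PROOF. `D` of `disc`. For `x` in `Lat g` and `a` in `OB A` the element `x * a` is in `Lat g` (`lat_mul_OB`), and
`star (x * a) * y = star a * (star x * y)`; so `D * (star x * y) = star x * (D * y)` is in `OB A` by `disc`. Use
`dual_mem`. -/
theorem dual_D (R : RDat A) : ∃ D : ℕ, 0 < D ∧ ∀ (g : (sysU A).A) (y : BF A),
    (∀ x ∈ Lat g, ∃ n : ℤ, tf A (theta A (star x * y)) = n) → ((D : ℕ) : BF A) * y ∈ Lat g := by
  obtain ⟨D, hD, hD2⟩ := disc R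
  refine ⟨D, hD, fun g y hy => dual_mem g fun x hx => ?_⟩
  have h1 : star x * (((D : ℕ) : BF A) * y) = ((D : ℕ) : BF A) * (star x * y) := by
    rw [← mul_assoc, ← (Nat.cast_commute D (star x)).eq, mul_assoc]
  rw [h1]
  refine hD2 _ fun a ha => ?_
  have h2 : star a * (star x * y) = star (x * a) * y := by
    rw [star_mul, mul_assoc]
  rw [h2]
  exact hy _ (lat_mul_OB hx ha)


end Pool.Agent.CGU
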