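import Pool.Agent.CGQ.KM1
import Pool.Agent.CGN.KPY

/-!
# Positive involutions: the regular trace, inverses, the invariant function
-/

noncomputable section

set_option linter.unusedSectionVars false
set_option linter.unusedVariables false

namespace Pool.Agent.CGU

open Pool.Agent.CGQ (PA)

variable {T : Type} [Ring T] [Algebra ℝ T]

/-- The sum of the traces of the left and of the right multiplication by `x`. -/
def sgm (T : Type) [Ring T] [Algebra ℝ T] : T →ₗ[ℝ] ℝ :=
  LinearMap.trace ℝ T ∘ₗ LinearMap.mul ℝ T + LinearMap.trace ℝ T ∘ₗ (LinearMap.mul ℝ T).flip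

theorem sgm_apply (x : T) : sgm T x =
    LinearMap.trace ℝ T (LinearMap.mulLeft ℝ x) + LinearMap.trace ℝ T (LinearMap.mulRight ℝ x) :=
  rfl

variable [FiniteDimensional ℝ T]


/-- PROOF. `mulLeft (x y) = mulLeft x * mulLeft y`, `mulRight (x y) = mulRight y * mulRight x`,
`LinearMap.trace_mul_comm`. -/
theorem sgm_comm (x y : T) : sgm T (x * y) = sgm T (y * x) := by
  rw [sgm_apply, sgm_apply, LinearMap.mulLeft_mul, LinearMap.mulLeft_mul, LinearMap.mulRight_mul,
    LinearMap.mulRight_mul]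
  exact congrArg₂ (· + ·) (LinearMap.trace_mul_comm ℝ _ _) (LinearMap.trace_mul_comm ℝ _ _)

private theorem K_PA_tr (P : PA T) (x : T) :
    LinearMap.trace ℝ T (LinearMap.mulRight ℝ (P.inv x)) =
      LinearMap.trace ℝ T (LinearMap.mulLeft ℝ x) := by
  have h : LinearMap.mulRight ℝ (P.inv x) =
      (LinearEquiv.ofInvolutive P.inv P.inv_inv).conj (LinearMap.mulLeft ℝ x) := by
    apply LinearMap.ext
    intro y
    change y * P.inv x = P.inv (x * P.inv y)
    rw [P.inv_mul, P.inv_inv]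
  rw [h, LinearMap.trace_conj']

/-- PROOF. `inv ∘ mulRight x ∘ inv = mulLeft (inv x)` (`P.inv_mul`, `P.inv_inv`), so the traces of these
are equal (`LinearMap.trace_conj'` with the linear equivalence given by `P.inv`), and conversely. -/
theorem sgm_inv (P : PA T) (x : T) : sgm T (P.inv x) = sgm T x := by
  rw [sgm_apply, sgm_apply, add_comm, K_PA_tr P x]
  have h := K_PA_tr P (P.inv x)
  rw [P.inv_inv] at h
  rw [h]



/-- PROOF. `β (x, y) = tau (x * inv y)` is a positive definite symmetric bilinear form on `T` (`tau_comm`,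
`tau_inv`, `inv_mul`). Let `e` be a basis of `T` with `β (e i, e j) = δ_ij` (for example the
`stdOrthonormalBasis` for the inner product given by `InnerProductSpace.Core`, or
`LinearMap.BilinForm.exists_orthogonal_basis` and normalise). The coordinates of `z` are `β (z, e i)`, so the trace of
a linear map `f` is `∑ i, tau (f (e i) * inv (e i))`. -/
theorem exists_onb (P : PA T) : ∃ e : Module.Basis (Fin (Module.finrank ℝ T)) ℝ T,
    ∀ f : T →ₗ[ℝ] T, LinearMap.trace ℝ T f = ∑ i, P.tau (f (e i) * P.inv (e i)) := by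
  let core : InnerProductSpace.Core ℝ T :=
    { inner := fun x y => P.tau (y * P.inv x)
      conj_inner_symm := fun x y => by
        change P.tau (x * P.inv y) = P.tau (y * P.inv x)
        rw [← P.tau_inv, P.inv_mul, P.inv_inv]
      re_inner_nonneg := fun x => P.sz_nonneg x
      add_left := fun x y z => by
        change P.tau (z * P.inv (x + y)) = P.tau (z * P.inv x) + P.tau (z * P.inv y)
        rw [map_add, mul_add, map_add]
      smul_left := fun x y r => by
        change P.tau (y * P.inv (r • x)) = r * P.tau (y * P.inv x)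
        rw [map_smul, mul_smul_comm, map_smul, smul_eq_mul]
      definite := fun x h => by
        by_contra hx
        exact (P.tau_pos x hx).ne' h }
  let _ : NormedAddCommGroup T := core.toNormedAddCommGroup
  let _ : InnerProductSpace ℝ T := InnerProductSpace.ofCore core.toCore
  refine ⟨(stdOrthonormalBasis ℝ T).toBasis, fun f => ?_⟩
  rw [LinearMap.trace_eq_sum_inner f (stdOrthonormalBasis ℝ T)]
  refine Finset.sum_congr rfl fun i _ => ?_
  rw [OrthonormalBasis.coe_toBasis]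
  rfl



/-- PROOF. By `exists_onb` the trace of `mulLeft (x * inv x)` is `∑ i, tau (x * inv x * e_i * inv e_i) =
∑ i, sz (inv x * e_i)` (`tau_comm`, `sz y = tau (y * inv y)`), which is `≥ 0` and `> 0` since not all
`inv x * e_i` are `0` (otherwise `inv x = 0`, so `x = 0`). The trace of `mulRight (x * inv x)` is
`∑ i, tau (e_i * x * inv x * inv e_i) = ∑ i, sz (e_i * x) ≥ 0`. -/
theorem sgm_pos (P : PA T) (x : T) (hx : x ≠ 0) : 0 < sgm T (x * P.inv x) := by
  obtain ⟨e, he⟩ := exists_onb P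
  have h1 : LinearMap.trace ℝ T (LinearMap.mulLeft ℝ (x * P.inv x)) =
      ∑ i, P.sz (P.inv x * e i) := by
    rw [he]
    refine Finset.sum_congr rfl fun i _ => ?_
    rw [LinearMap.mulLeft_apply, PA.sz, P.inv_mul, P.inv_inv, ← mul_assoc (P.inv x * e i),
      P.tau_comm (P.inv x * e i * P.inv (e i)) x]
    simp only [mul_assoc]
  have h2 : LinearMap.trace ℝ T (LinearMap.mulRight ℝ (x * P.inv x)) =
      ∑ i, P.sz (e i * x) := by
    rw [he]
    refine Finset.sum_congr rfl fun i _ => ?_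
    rw [LinearMap.mulRight_apply, PA.sz, P.inv_mul]
    simp only [mul_assoc]
  rw [sgm_apply, h1, h2]
  apply add_pos_of_pos_of_nonneg
  · apply Finset.sum_pos' (fun i _ => P.sz_nonneg _)
    by_contra hcon
    have h3 : ∀ i, P.inv x * e i = 0 := by
      intro i
      by_contra h4
      exact hcon ⟨i, Finset.mem_univ i, P.sz_pos h4⟩
    have h5 : LinearMap.mulLeft ℝ (P.inv x) = 0 := by
      apply e.ext
      intro i
      rw [LinearMap.mulLeft_apply, h3 i, LinearMap.zero_apply]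
    have h6 : P.inv x = 0 := by
      have h7 := LinearMap.congr_fun h5 1
      rwa [LinearMap.mulLeft_apply, mul_one, LinearMap.zero_apply] at h7
    apply hx
    rw [← P.inv_inv x, h6, map_zero]
  · exact Finset.sum_nonneg fun i _ => P.sz_nonneg _


/-- The positive involution `P` with the trace `sgm`. -/
def paReg (P : PA T) : PA T where
  inv := P.inv
  inv_mul := P.inv_mul
  inv_inv := P.inv_inv
  tau := sgm T
  tau_comm := sgm_comm
  tau_inv := sgm_inv P
  tau_pos := sgm_pos P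

theorem paReg_sym (P : PA T) : (paReg P).sym = P.sym := rfl

theorem paReg_dt (P : PA T) (u : Tˣ) : (paReg P).dt u = P.dt u := rfl

section inv

variable (P : PA T)

/-- The symmetric element `1`. -/
def oneV : P.V := P.el.symm ⟨1, P.inv_one⟩

theorem el_oneV : (P.el (oneV P) : T) = 1 := by
  rw [oneV, LinearEquiv.apply_symm_apply]

theorem q_oneV (x : T) : P.q x (oneV P) = P.sz x := PA.q_one P x _ (el_oneV P)

theorem oneV_pd : P.PD (oneV P) := fun x hx => by
  rw [q_oneV]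
  exact P.sz_pos hx


/-- PROOF. Left multiplication by `z = el h` is injective: `z x = 0` gives `q x h = tau (inv x * (z * x)) = 0`
(`PA.q_mul`), so `x = 0`. So it is bijective (finite dimension), `z * k = 1` for some `k`, `k * z = 1` as
`z * (k * z) = z * 1`. `k` is symmetric: `inv k * z = inv (z * k) = 1`, so `inv k = k`. The element `k` is
positive definite: `inv x * (k * x) = inv (k x) * (z * (k x))`, so `q x k = q (k x) h > 0` for `x ≠ 0`
(`PA.exists_el`). -/
theorem exists_hI {h : P.V} (hh : P.PD h) : ∃ k : P.V, (P.el k : T) * (P.el h : T) = 1 ∧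
    (P.el h : T) * (P.el k : T) = 1 ∧ P.PD k := by
  have hz : P.inv (P.el h : T) = P.el h := P.inv_el h
  have hinj : Function.Injective (LinearMap.mulLeft ℝ (P.el h : T)) := by
    rw [injective_iff_map_eq_zero]
    intro x hx
    rw [LinearMap.mulLeft_apply] at hx
    by_contra h0
    have h1 := hh x h0
    rw [PA.q_mul, hx, mul_zero, map_zero] at h1
    exact lt_irrefl _ h1
  obtain ⟨k, hk⟩ := (LinearMap.injective_iff_surjective.1 hinj) 1
  rw [LinearMap.mulLeft_apply] at hk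
  have hk2 : k * (P.el h : T) = 1 := by
    apply hinj
    rw [LinearMap.mulLeft_apply, LinearMap.mulLeft_apply, ← mul_assoc, hk, one_mul, mul_one]
  have hk3 : P.inv k * (P.el h : T) = 1 := by
    rw [← hz, ← P.inv_mul, hk, P.inv_one]
  have hk4 : P.inv k = k := by
    calc P.inv k = P.inv k * ((P.el h : T) * k) := by rw [hk, mul_one]
      _ = k := by rw [← mul_assoc, hk3, one_mul]
  obtain ⟨w, hw⟩ := P.exists_el k hk4
  refine ⟨w, by rw [hw]; exact hk2, by rw [hw]; exact hk, fun x hx => ?_⟩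
  have h1 : k * x ≠ 0 := by
    intro h2
    apply hx
    rw [← one_mul x, ← hk, mul_assoc, h2, mul_zero]
  have h2 := hh _ h1
  have h3 : P.q x w = P.q (k * x) h := by
    rw [PA.q_mul, PA.q_mul, hw, P.inv_mul, hk4, ← mul_assoc (P.el h : T), hk, one_mul, mul_assoc]
  rw [h3]
  exact h2


open Classical in
/-- The inverse of a positive definite element. -/
def hI (h : P.V) : P.V := if hh : P.PD h then (exists_hI P hh).choose else 0

theorem hI_mul {h : P.V} (hh : P.PD h) : (P.el (hI P h) : T) * (P.el h : T) = 1 := by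
  rw [hI, dif_pos hh]
  exact (exists_hI P hh).choose_spec.1

theorem mul_hI {h : P.V} (hh : P.PD h) : (P.el h : T) * (P.el (hI P h) : T) = 1 := by
  rw [hI, dif_pos hh]
  exact (exists_hI P hh).choose_spec.2.1

theorem hI_pd {h : P.V} (hh : P.PD h) : P.PD (hI P h) := by
  rw [hI, dif_pos hh]
  exact (exists_hI P hh).choose_spec.2.2

/-- The unit `el h`. -/
def elU {h : P.V} (hh : P.PD h) : Tˣ := ⟨P.el h, P.el (hI P h), mul_hI P hh, hI_mul P hh⟩

/-- The determinant of `y ↦ h y h` on the symmetric elements. -/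
def dq (h : P.V) : ℝ := LinearMap.det (P.cj (P.el h : T))


/-- PROOF. `P.cj_cj`. -/
theorem det_cj_mul (u v : T) : LinearMap.det (P.cj (v * u)) =
    LinearMap.det (P.cj u) * LinearMap.det (P.cj v) := by
  have h : P.cj (v * u) = P.cj u ∘ₗ P.cj v := LinearMap.ext fun h => (P.cj_cj u v h).symm
  rw [h, LinearMap.det_comp]

/-- PROOF. `P.hA u = el.symm ∘ cj (u⁻¹) ∘ el` (`PA.hA`, `PA.cjE`), so `dt u = det (cj (u⁻¹))`
(`LinearMap.det_conj`; see `CGN.dt_eq`), and `det_cj_mul`, `P.cj_one`. -/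
theorem dt_cj (u : Tˣ) : P.dt u = LinearMap.det (P.cj (u⁻¹ : Tˣ).1) ∧
    P.dt u * LinearMap.det (P.cj u.1) = 1 := by
  have h1 : P.dt u = LinearMap.det (P.cj (u⁻¹ : Tˣ).1) := by
    rw [Pool.Agent.CGN.dt_eq]
    rfl
  refine ⟨h1, ?_⟩
  rw [h1, ← det_cj_mul, Units.mul_inv]
  have h2 : P.cj (1 : T) = LinearMap.id := LinearMap.ext fun h => P.cj_one h
  rw [h2, LinearMap.det_id]



private def K_PD2_b : P.sym →ₗ[ℝ] Module.Dual ℝ P.sym :=
  LinearMap.mk₂ ℝ (fun x y => P.tau (x.1 * y.1))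
    (fun x x' y => by rw [Submodule.coe_add, add_mul, map_add])
    (fun c x y => by rw [Submodule.coe_smul, smul_mul_assoc, map_smul])
    (fun x y y' => by rw [Submodule.coe_add, mul_add, map_add])
    (fun c x y => by rw [Submodule.coe_smul, mul_smul_comm, map_smul])

private theorem K_PD2_inj : Function.Injective (K_PD2_b P) := by
  rw [injective_iff_map_eq_zero]
  intro x hx
  by_contra h0
  have h1 : (x : T) ≠ 0 := fun h => h0 (Subtype.ext h)
  have h2 := P.tau_pos _ h1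
  have h3 : P.inv (x : T) = x := x.2
  rw [h3] at h2
  have h4 := LinearMap.congr_fun hx x
  exact h2.ne' h4

private def K_PD2_e : P.sym ≃ₗ[ℝ] Module.Dual ℝ P.sym :=
  LinearMap.linearEquivOfInjective (K_PD2_b P) (K_PD2_inj P) Subspace.dual_finrank_eq.symm

private theorem K_PD2_e_apply (x y : P.sym) : K_PD2_e P x y = P.tau (x.1 * y.1) := rfl

/-- PROOF. The bilinear form `β (x, y) = tau (x y)` on `P.sym` is symmetric and positive definite (`tau (x x) =
tau (x inv x) > 0` for `x ≠ 0`), and `β (cj u x, y) = tau (inv u x u y) = tau (x u y inv u) =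
β (x, cj (inv u) y)`. So `cj (inv u)` is the adjoint of `cj u` with respect to `β` and has the same determinant (for
example: the matrices of `cj u`, `cj (inv u)` in an orthonormal basis are transposes; or compare both with the matrix
of `β`, which has a non-zero determinant: `M^T G = G M'`). -/
theorem det_cj_inv (u : T) : LinearMap.det (P.cj (P.inv u)) = LinearMap.det (P.cj u) := by
  have h : P.cj (P.inv u) = (K_PD2_e P).symm.conj (P.cj u).dualMap := by
    apply LinearMap.ext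
    intro x
    rw [LinearEquiv.conj_apply_apply, LinearEquiv.symm_symm, LinearEquiv.eq_symm_apply]
    apply LinearMap.ext
    intro y
    rw [LinearMap.dualMap_apply, K_PD2_e_apply, K_PD2_e_apply]
    change P.tau (P.inv (P.inv u) * (x.1 * P.inv u) * y.1) = P.tau (x.1 * (P.inv u * (y.1 * u)))
    rw [P.inv_inv, mul_assoc, P.tau_comm u]
    simp only [mul_assoc]
  rw [h, LinearEquiv.conj_apply, LinearMap.comp_assoc, LinearMap.det_conj, LinearMap.det_dualMap]



/-- PROOF. `el (hA u h) = inv (u⁻¹) * (el h * u⁻¹)` (`P.el_hA`), `det_cj_mul`, `det_cj_inv`, `dt_cj`. -/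
theorem dq_hA (u : Tˣ) (h : P.V) : dq P (P.hA u h) = P.dt u ^ 2 * dq P h := by
  rw [dq, dq, PA.el_hA, det_cj_mul, det_cj_mul, det_cj_inv, (dt_cj P u).1]
  ring

/-- PROOF. `det_cj_mul`, `hI_mul`, `P.cj_one`. -/
theorem dq_hI {h : P.V} (hh : P.PD h) : dq P h * dq P (hI P h) = 1 := by
  rw [dq, dq, ← det_cj_mul, hI_mul P hh]
  have h2 : P.cj (1 : T) = LinearMap.id := LinearMap.ext fun h => P.cj_one h
  rw [h2, LinearMap.det_id]

/-- PROOF. `cj (c • z) = c ^ 2 • cj z`, `LinearMap.det_smul`. -/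
theorem dq_smul (c : ℝ) (h : P.V) : dq P (c • h) =
    (c ^ 2) ^ Module.finrank ℝ P.sym * dq P h := by
  have h1 : P.cj (P.el (c • h) : T) = c ^ 2 • P.cj (P.el h : T) := by
    apply LinearMap.ext
    intro s
    apply Subtype.ext
    change P.inv (P.el (c • h) : T) * (s.1 * (P.el (c • h) : T)) =
      c ^ 2 • (P.inv (P.el h : T) * (s.1 * (P.el h : T)))
    rw [map_smul, Submodule.coe_smul, map_smul, mul_smul_comm, smul_mul_assoc, mul_smul_comm,
      smul_smul, sq]
  rw [dq, dq, h1, LinearMap.det_smul]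



/-- the matrix of `cj x` -/
private def K_PE2_M (x : T) : Matrix (Fin (Module.finrank ℝ P.sym)) (Fin (Module.finrank ℝ P.sym)) ℝ :=
  LinearMap.toMatrix (Module.finBasis ℝ P.sym) (Module.finBasis ℝ P.sym) (P.cj x)

private theorem K_PE2_quad {n : ℕ} (B : (Fin n → ℝ) →ₗ[ℝ] (Fin n → ℝ) →ₗ[ℝ] ℝ) :
    Continuous fun x => B x x := by
  let B' : (Fin n → ℝ) →L[ℝ] (Fin n → ℝ) →L[ℝ] ℝ := LinearMap.toContinuousLinearMap
    ((LinearMap.toContinuousLinearMap : ((Fin n → ℝ) →ₗ[ℝ] ℝ) ≃ₗ[ℝ]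
      ((Fin n → ℝ) →L[ℝ] ℝ)).toLinearMap ∘ₗ B)
  exact B'.continuous.clm_apply continuous_id

private theorem K_PE2_cont {n : ℕ} (f : (Fin n → ℝ) →ₗ[ℝ] T) :
    Continuous fun x => K_PE2_M P (f x) := by
  refine continuous_matrix fun i j => ?_
  obtain ⟨g, hg⟩ := LinearMap.exists_extend ((Module.finBasis ℝ P.sym).coord i)
  let s : T := ((Module.finBasis ℝ P.sym) j : P.sym)
  let B : (Fin n → ℝ) →ₗ[ℝ] (Fin n → ℝ) →ₗ[ℝ] ℝ :=
    LinearMap.mk₂ ℝ (fun x y => g (P.inv (f x) * (s * f y)))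
      (fun x x' y => by rw [map_add, map_add, add_mul, map_add])
      (fun c x y => by rw [map_smul, map_smul, smul_mul_assoc, map_smul])
      (fun x y y' => by rw [map_add, mul_add, mul_add, map_add])
      (fun c x y => by rw [map_smul, mul_smul_comm, mul_smul_comm, map_smul])
  have h : (fun x => K_PE2_M P (f x) i j) = fun x => B x x := by
    funext x
    rw [K_PE2_M, LinearMap.toMatrix_apply]
    change (Module.finBasis ℝ P.sym).coord i (P.cj (f x) (Module.finBasis ℝ P.sym j)) = _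
    rw [← hg]
    rfl
  rw [h]
  exact K_PE2_quad B

/-- PROOF. The coefficients of the matrix of `cj (el h)` in a basis of `P.sym` are continuous functions of `h`
(they are quadratic polynomials: `el` is linear and `inv`, the multiplication are (bi)linear on finite dimensional
spaces); `LinearMap.det_toMatrix`, `Continuous.matrix_det`. One way: `h ↦ cj (el h)` is the map `h ↦ B (h, h)` for a
bilinear map `B : V →ₗ V →ₗ (sym →ₗ sym)`, hence continuous. -/
theorem dq_cont : Continuous (dq P) := by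
  have h : dq P = fun h => (K_PE2_M P (P.el h : T)).det := by
    funext h
    exact (LinearMap.det_toMatrix (Module.finBasis ℝ P.sym) _).symm
  rw [h]
  exact Continuous.matrix_det (K_PE2_cont P (P.sym.subtype ∘ₗ (P.el : P.V →ₗ[ℝ] P.sym)))



/-- PROOF. There is `x ≠ 0` with `q x h ≤ 0`, so `q x h = 0` (`PSD`). The form `(x, y) ↦ tau (inv x * (el h * y))` is
symmetric and semidefinite, so `tau (inv y * (el h * x)) = 0` for all `y` (Cauchy-Schwarz: `0 ≤ q (y + t x) h` for
all real `t`), so `el h * x = 0` (take `y = el h * x`, `P.tau_pos`, `tau_comm`). So for `s = x * inv x`, a non-zero symmetric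
element, `cj (el h) s = el h * (x * inv x) * el h = 0`: `cj (el h)` is not injective, its determinant is `0`. -/
theorem dq_zero {h : P.V} (hh : P.PSD h) (h' : ¬ P.PD h) : dq P h = 0 := by
  have hz : P.inv (P.el h : T) = P.el h := P.inv_el h
  obtain ⟨x, hx0, hx⟩ : ∃ x : T, x ≠ 0 ∧ P.q x h ≤ 0 := by
    by_contra hcon
    apply h'
    intro x hx
    by_contra h1
    exact hcon ⟨x, hx, not_lt.1 h1⟩
  have hx1 : P.q x h = 0 := le_antisymm hx (hh x)
  have key : ∀ y : T, P.tau (P.inv y * ((P.el h : T) * x)) = 0 := by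
    intro y
    have hsym : P.tau (P.inv x * ((P.el h : T) * y)) = P.tau (P.inv y * ((P.el h : T) * x)) := by
      rw [← P.tau_inv, P.inv_mul, P.inv_mul, P.inv_inv, hz, mul_assoc]
    have hexp : ∀ t : ℝ, P.q (y + t • x) h =
        P.q y h + 2 * t * P.tau (P.inv y * ((P.el h : T) * x)) := by
      intro t
      have h1 : P.q (y + t • x) h = P.q y h + t * P.tau (P.inv y * ((P.el h : T) * x)) +
          t * P.tau (P.inv x * ((P.el h : T) * y)) + t ^ 2 * P.q x h := by
        simp only [PA.q_mul, map_add, map_smul, mul_add, add_mul, smul_mul_assoc, mul_smul_comm,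
          smul_eq_mul]
        ring
      rw [h1, hsym, hx1]
      ring
    by_contra h0
    have h2 := hh (y + (-(P.q y h + 1) / (2 * P.tau (P.inv y * ((P.el h : T) * x)))) • x)
    rw [hexp] at h2
    have h3 : 2 * (-(P.q y h + 1) / (2 * P.tau (P.inv y * ((P.el h : T) * x)))) *
        P.tau (P.inv y * ((P.el h : T) * x)) = -(P.q y h + 1) := by
      field_simp
    linarith
  have h1 : (P.el h : T) * x = 0 := by
    by_contra h0
    have h2 := key ((P.el h : T) * x)
    rw [P.tau_comm] at h2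
    exact (P.tau_pos _ h0).ne' h2
  have hs : P.inv (x * P.inv x) = x * P.inv x := by rw [P.inv_mul, P.inv_inv]
  have hs0 : (⟨x * P.inv x, hs⟩ : P.sym) ≠ 0 := by
    intro h2
    have h3 : x * P.inv x = 0 := congrArg Subtype.val h2
    have h4 := P.tau_pos x hx0
    rw [h3, map_zero] at h4
    exact lt_irrefl _ h4
  rw [dq, LinearMap.det_eq_zero_iff_ker_ne_bot]
  intro h2
  apply hs0
  rw [LinearMap.ker_eq_bot'] at h2
  apply h2
  apply Subtype.ext
  change P.inv (P.el h : T) * (x * P.inv x * (P.el h : T)) = 0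
  rw [hz, ← mul_assoc, ← mul_assoc, h1, zero_mul, zero_mul]



private theorem PF1_prj : ∃ p : T →ₗ[ℝ] P.sym, ∀ x : P.sym, p (x : T) = x := by
  have h : ∀ x : T, P.inv ((1 / 2 : ℝ) • (x + P.inv x)) = (1 / 2 : ℝ) • (x + P.inv x) := by
    intro x
    rw [map_smul, map_add, P.inv_inv, add_comm]
  refine ⟨{ toFun := fun x => ⟨(1 / 2 : ℝ) • (x + P.inv x), h x⟩
            map_add' := fun x y => Subtype.ext ?_
            map_smul' := fun c x => Subtype.ext ?_ }, fun x => Subtype.ext ?_⟩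
  · show (1 / 2 : ℝ) • (x + y + P.inv (x + y)) =
      (1 / 2 : ℝ) • (x + P.inv x) + (1 / 2 : ℝ) • (y + P.inv y)
    rw [map_add, ← smul_add]
    congr 1
    abel
  · show (1 / 2 : ℝ) • (c • x + P.inv (c • x)) = c • ((1 / 2 : ℝ) • (x + P.inv x))
    rw [map_smul, ← smul_add, smul_comm]
  · show (1 / 2 : ℝ) • ((x : T) + P.inv x) = x
    have h1 : P.inv (x : T) = x := x.2
    rw [h1, ← two_smul ℝ (x : T), smul_smul]
    norm_num

/-- The coordinates of `y`. -/
private def PF1_e (T : Type) [Ring T] [Algebra ℝ T] [FiniteDimensional ℝ T] :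
    (Fin (Module.finrank ℝ T) → ℝ) ≃ₗ[ℝ] T := (Module.finBasis ℝ T).equivFun.symm

/-- The matrix of `cj`. -/
private def PF1_M (u : T) : Matrix (Fin (Module.finrank ℝ P.sym)) (Fin (Module.finrank ℝ P.sym)) ℝ :=
  LinearMap.toMatrix (Module.finBasis ℝ P.sym) (Module.finBasis ℝ P.sym) (P.cj u)

private theorem PF1_cont : Continuous fun y : Fin (Module.finrank ℝ T) → ℝ =>
    PF1_M P (PF1_e T y) := by
  obtain ⟨p, hp⟩ := PF1_prj P
  refine continuous_matrix fun i j => ?_
  have h : ∀ y : Fin (Module.finrank ℝ T) → ℝ, PF1_M P (PF1_e T y) i j =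
      ∑ k, ∑ l, y k * (y l * (Module.finBasis ℝ P.sym).repr (p (P.inv (Module.finBasis ℝ T k) *
        (((Module.finBasis ℝ P.sym) j : P.sym) * Module.finBasis ℝ T l))) i) := by
    intro y
    have h1 : P.cj (PF1_e T y) (Module.finBasis ℝ P.sym j) =
        p (P.inv (PF1_e T y) * ((Module.finBasis ℝ P.sym j : P.sym) * PF1_e T y)) := by
      rw [← hp (P.cj (PF1_e T y) (Module.finBasis ℝ P.sym j))]
      rfl
    have h2 : PF1_e T y = ∑ k, y k • Module.finBasis ℝ T k :=
      Module.Basis.equivFun_symm_apply _ _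
    rw [PF1_M, LinearMap.toMatrix_apply, h1, h2, map_sum, Finset.sum_mul, map_sum, map_sum,
      Finsupp.finsetSum_apply]
    refine Finset.sum_congr rfl fun k _ => ?_
    rw [Finset.mul_sum, Finset.mul_sum, map_sum, map_sum, Finsupp.finsetSum_apply]
    refine Finset.sum_congr rfl fun l _ => ?_
    rw [map_smul, mul_smul_comm, smul_mul_smul_comm, map_smul, map_smul, Finsupp.smul_apply,
      smul_eq_mul, mul_assoc]
  simp only [h]
  fun_prop

private theorem PF1_det (u : T) : LinearMap.det (P.cj u) = (PF1_M P u).det :=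
  (LinearMap.det_toMatrix _ _).symm

private theorem PF1_one (u : Tˣ) (h : |P.dt u| = 1) : |(PF1_M P u.1).det| = 1 := by
  have h1 := (dt_cj P u).2
  have h2 : |P.dt u| * |LinearMap.det (P.cj u.1)| = 1 := by rw [← abs_mul, h1, abs_one]
  rw [h, one_mul, PF1_det] at h2
  exact h2

/-- PROOF. `h ↦ cj u h` satisfies `‖cj u‖ ≤ C * sz u` for a constant `C` (use a norm on `P.sym`; each coefficient
of the matrix of `cj u` in a basis of `P.sym` is a quadratic polynomial in `u`, bounded by `C * sz u` since `sz` is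
equivalent to the square of any norm, `CGN.sz_equiv`). So `|det (cj u)| ≤ (C' * sz u) ^ d`, `d = finrank P.sym ≥ 1` (`1`
is a non-zero symmetric element), and by `dt_cj` it is `1` if `|dt u| = 1`. -/
theorem vp_lower [Nontrivial T] : ∃ c : ℝ, 0 < c ∧ ∀ u : Tˣ, |P.dt u| = 1 → c ≤ P.sz u.1 := by
  obtain ⟨c, hc, hlow⟩ := P.sz_lower
  have hd : 0 < Module.finrank ℝ P.sym := by
    rw [Module.finrank_pos_iff_exists_ne_zero]
    refine ⟨⟨1, P.inv_one⟩, fun h => ?_⟩
    exact one_ne_zero (congrArg Subtype.val h : (1 : T) = 0)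
  have hcont : Continuous fun y : Fin (Module.finrank ℝ T) → ℝ => (PF1_M P (PF1_e T y)).det :=
    (PF1_cont P).matrix_det
  have h0 : (PF1_M P (PF1_e T 0)).det = 0 := by
    have h1 : P.cj (PF1_e T 0) = 0 := by
      refine LinearMap.ext fun s => Subtype.ext ?_
      show P.inv (PF1_e T 0) * (s.1 * PF1_e T 0) = 0
      rw [map_zero, mul_zero, mul_zero]
    have : Nonempty (Fin (Module.finrank ℝ P.sym)) := ⟨⟨0, hd⟩⟩
    rw [PF1_M, h1, map_zero, Matrix.det_zero]
  have hat := hcont.continuousAt (x := 0)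
  rw [Metric.continuousAt_iff] at hat
  obtain ⟨δ, hδ, hδ2⟩ := hat 1 one_pos
  refine ⟨c * δ ^ 2, by positivity, fun u hu => ?_⟩
  obtain ⟨y, hy⟩ := (PF1_e T).surjective u.1
  have h1 := PF1_one P u hu
  have h2 : δ ≤ ‖y‖ := by
    by_contra hlt
    push Not at hlt
    have h3 := hδ2 (x := y) (by rwa [dist_zero_right])
    rw [h0, hy, dist_zero_right, Real.norm_eq_abs, h1] at h3
    exact lt_irrefl _ h3
  have h3 := hlow y
  have h4 : P.sz (PF1_e T y) = P.sz u.1 := by rw [hy]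
  have h5 : δ ^ 2 ≤ ‖y‖ ^ 2 := pow_le_pow_left₀ hδ.le h2 2
  calc c * δ ^ 2 ≤ c * ‖y‖ ^ 2 := mul_le_mul_of_nonneg_left h5 hc.le
    _ ≤ P.sz (PF1_e T y) := h3
    _ = P.sz u.1 := h4



/-- PROOF. Let `M` be the matrix of `cj u` in a basis of `P.sym`; its coefficients are bounded in terms of `C` and
`|det M| = 1`, so the coefficients of `M⁻¹ = (det M)⁻¹ adj M`, the matrix of `cj (u⁻¹)`, are bounded. So the
element `cj (u⁻¹) 1 = inv (u⁻¹) * u⁻¹` is bounded, and `tau` of it is `sz (inv (u⁻¹)) = sz (u⁻¹)`. (Another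
way: the set of the `u` in `T` with `sz u ≤ C`, `|det (cj u)| = 1` is compact, consists of units (if `det (cj u) ≠ 0` then
`u` is a unit since left multiplication by `u` is injective: `u x = 0` gives `cj (inv u)`-something; or by the matrix
argument), and the inverse is continuous.) -/
theorem vp_inv (C : ℝ) : ∃ C' : ℝ, ∀ u : Tˣ, |P.dt u| = 1 → P.sz u.1 ≤ C →
    P.sz (u⁻¹ : Tˣ).1 ≤ C' := by
  obtain ⟨c, hc, hlow⟩ := P.sz_lower
  set b := Module.finBasis ℝ P.sym with hb
  set o : P.sym := ⟨1, P.inv_one⟩ with ho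
  set G : (Fin (Module.finrank ℝ T) → ℝ) → ℝ := fun y => ∑ i, ∑ j,
    (PF1_M P (PF1_e T y)).adjugate i j * (b.repr o j * P.tau (b i : P.sym)) with hG
  have hGc : Continuous G := by
    have h1 := (PF1_cont P).matrix_adjugate
    refine continuous_finsetSum _ fun i _ => continuous_finsetSum _ fun j _ => ?_
    exact (continuous_apply_apply i j |>.comp h1).mul continuous_const
  obtain ⟨C', hC'⟩ := ((isCompact_closedBall (0 : Fin (Module.finrank ℝ T) → ℝ)
    (Real.sqrt (C / c))).image hGc.norm).bddAbove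
  refine ⟨C', fun u hu hC => ?_⟩
  obtain ⟨y, hy⟩ := (PF1_e T).surjective u.1
  have h1 := PF1_one P u hu
  have hyb : y ∈ Metric.closedBall (0 : Fin (Module.finrank ℝ T) → ℝ) (Real.sqrt (C / c)) := by
    rw [mem_closedBall_zero_iff]
    apply Real.le_sqrt_of_sq_le
    rw [le_div_iff₀ hc]
    have h2 : c * ‖y‖ ^ 2 ≤ P.sz (PF1_e T y) := hlow y
    rw [hy] at h2
    linarith
  have h2 : ‖G y‖ ≤ C' := hC' ⟨y, hyb, rfl⟩
  have h3 : P.sz (u⁻¹ : Tˣ).1 = P.tau (P.cj (u⁻¹ : Tˣ).1 o : P.sym) := by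
    show P.tau _ = P.tau (P.inv (u⁻¹ : Tˣ).1 * (1 * (u⁻¹ : Tˣ).1))
    rw [one_mul, P.tau_comm]
  have hM : PF1_M P (u⁻¹ : Tˣ).1 * PF1_M P u.1 = 1 := by
    rw [PF1_M, PF1_M, ← LinearMap.toMatrix_mul]
    have h4 : P.cj (u⁻¹ : Tˣ).1 * P.cj u.1 = 1 := by
      refine LinearMap.ext fun s => ?_
      rw [Module.End.mul_apply, P.cj_cj, Units.mul_inv, P.cj_one]
      rfl
    rw [h4, LinearMap.toMatrix_one]
  have hinv : PF1_M P (u⁻¹ : Tˣ).1 = (PF1_M P u.1).det⁻¹ • (PF1_M P u.1).adjugate := by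
    have hne : (PF1_M P u.1).det ≠ 0 := by
      intro h
      rw [h, abs_zero] at h1
      exact zero_ne_one h1
    have h4 : PF1_M P (u⁻¹ : Tˣ).1 * (PF1_M P u.1 * (PF1_M P u.1).adjugate) =
        (PF1_M P u.1).adjugate := by rw [← mul_assoc, hM, one_mul]
    rw [Matrix.mul_adjugate, mul_smul_comm, mul_one] at h4
    rw [← h4, smul_smul, inv_mul_cancel₀ hne, one_smul]
  have h5 : P.tau (P.cj (u⁻¹ : Tˣ).1 o : P.sym) = (PF1_M P u.1).det⁻¹ * G y := by
    have h6 : P.cj (u⁻¹ : Tˣ).1 o = ∑ i, ∑ j, (PF1_M P (u⁻¹ : Tˣ).1 i j * b.repr o j) • b i := by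
      rw [← b.sum_repr (P.cj (u⁻¹ : Tˣ).1 o)]
      refine Finset.sum_congr rfl fun i _ => ?_
      rw [← Finset.sum_smul]
      congr 1
      have h7 := LinearMap.toMatrix_mulVec_repr b b (P.cj (u⁻¹ : Tˣ).1) o
      have h8 := congrFun h7 i
      rw [← h8]
      rfl
    rw [h6, hG]
    have h9 : ∀ s : P.sym, P.tau (s : T) = (P.tau ∘ₗ P.sym.subtype) s := fun s => rfl
    rw [h9, map_sum, Finset.mul_sum]
    refine Finset.sum_congr rfl fun i _ => ?_
    rw [map_sum, Finset.mul_sum]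
    refine Finset.sum_congr rfl fun j _ => ?_
    rw [map_smul, hinv, smul_eq_mul, Matrix.smul_apply, smul_eq_mul, hy]
    show _ * P.tau (b i : P.sym) = _
    ring
  rw [h3, h5]
  refine (le_abs_self _).trans ?_
  rw [abs_mul, abs_inv, h1, inv_one, one_mul]
  exact h2



/-- PROOF. `P.unit_kpos 1`, `PA.kpos_eps`, and `P.q 1 h = tau (el h)`. -/
theorem psd_norm_le : ∃ C : ℝ, 0 ≤ C ∧ ∀ h : P.V, P.PSD h → ‖h‖ ≤ C * P.q 1 h := by
  obtain ⟨ε, hε, hle⟩ := PA.kpos_eps (P.unit_kpos 1)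
  refine ⟨1 / ε, by positivity, fun h hh => ?_⟩
  have h1 : ε * ‖h‖ ≤ P.q 1 h := hle h hh
  rw [one_div, inv_mul_eq_div, le_div_iff₀ hε, mul_comm]
  exact h1

/-- PROOF. `PA.q_le` and `psd_norm_le`. -/
theorem q_le_tau : ∃ C : ℝ, 0 ≤ C ∧ ∀ h : P.V, P.PSD h → ∀ x : T,
    P.q x h ≤ C * (P.q 1 h * P.sz x) := by
  obtain ⟨C, hC, h⟩ := P.q_psd_le
  refine ⟨C, hC, fun m hm x => ?_⟩
  have h1 := h m hm x
  have h2 : C * P.sz x * P.q 1 m = C * (P.q 1 m * P.sz x) := by ring
  rwa [h2] at h1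



private theorem PG2_cs {h : P.V} (hh : P.PSD h) (x y : T) :
    P.tau (P.inv x * ((P.el h : T) * y)) ^ 2 ≤ P.q x h * P.q y h := by
  have hsym : P.tau (P.inv y * ((P.el h : T) * x)) = P.tau (P.inv x * ((P.el h : T) * y)) := by
    rw [← P.tau_inv, P.inv_mul, P.inv_mul, P.inv_inv, P.inv_el, mul_assoc]
  have h1 : ∀ t : ℝ, 0 ≤ P.q y h * (t * t) + (2 * P.tau (P.inv x * ((P.el h : T) * y))) * t +
      P.q x h := by
    intro t
    have h2 := hh (x + t • y)
    have h3 : P.q (x + t • y) h = P.q y h * (t * t) +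
        (2 * P.tau (P.inv x * ((P.el h : T) * y))) * t + P.q x h := by
      rw [P.q_mul, P.q_mul, P.q_mul]
      simp only [map_add, map_smul, mul_add, add_mul, smul_mul_assoc, mul_smul_comm, smul_eq_mul]
      rw [hsym]
      ring
    rwa [h3] at h2
  have h2 := discrim_le_zero h1
  rw [discrim] at h2
  nlinarith

/-- PROOF. Put `z = el h`, `k = el (hI h)`, `c = b * a`. The form `⟨x, y⟩ = tau (inv x * (z * y))` is symmetric and
positive definite; `tau (inv c * (b * a)) = ⟨k * (inv b * c), a⟩` since `inv (k * (inv b * c)) * (z * a) = inv c * b * k * z * a =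
inv c * b * a` (`k` symmetric, `k z = 1`). Cauchy-Schwarz: `sz c ^ 2 = tau (inv c * c) ^ 2 ≤ ⟨k inv b c, k inv b c⟩ * ⟨a, a⟩`
(`tau (inv c * c) = sz (inv c) = sz c` up to `tau_comm`), where `⟨a, a⟩ = q a h` and `⟨k inv b c, k inv b c⟩ =
tau (inv c * (b * k * inv b) * c) = q c m` where `el m = b * k * inv b`, symmetric and semidefinite, and
`q 1 m = tau (b k inv b) = q (inv b) (hI h)`. By `q_le_tau`: `q c m ≤ C * q (inv b) (hI h) * sz c`. So
`sz c ^ 2 ≤ C * q (inv b) (hI h) * sz c * q a h`; divide by `sz c` (if it is not `0`). -/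
theorem sz_mul_le : ∃ C : ℝ, 0 ≤ C ∧ ∀ h : P.V, P.PD h → ∀ a b : T,
    P.sz (b * a) ≤ C * (P.q (P.inv b) (hI P h) * P.q a h) := by
  obtain ⟨C, hC, hq⟩ := q_le_tau P
  refine ⟨C, hC, fun h hh a b => ?_⟩
  set z : T := (P.el h : T) with hz
  set k : T := (P.el (hI P h) : T) with hk
  have hzk : z * k = 1 := mul_hI P hh
  have hkz : k * z = 1 := hI_mul P hh
  have hki : P.inv k = k := P.inv_el _
  have hkpd := hI_pd P hh
  obtain ⟨m, hm⟩ := P.exists_el (b * (k * P.inv b)) (by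
    rw [P.inv_mul, P.inv_mul, P.inv_inv, hki, mul_assoc])
  have hqm : ∀ x, P.q x m = P.q (P.inv b * x) (hI P h) := by
    intro x
    rw [P.q_mul, P.q_mul, hm, P.inv_mul, P.inv_inv, ← hk]
    simp only [mul_assoc]
  have hmp : P.PSD m := by
    intro x
    rw [hqm]
    exact hkpd.psd _
  set c : T := b * a with hc
  have h1 := PG2_cs P hh.psd (k * (P.inv b * c)) a
  have h2 : P.tau (P.inv (k * (P.inv b * c)) * (z * a)) = P.sz c := by
    have h3 : P.inv (k * (P.inv b * c)) * (z * a) = P.inv c * (b * ((k * z) * a)) := by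
      rw [P.inv_mul, P.inv_mul, P.inv_inv, hki]
      simp only [mul_assoc]
    rw [h3, hkz, one_mul, P.tau_comm]
    rfl
  have h3 : P.q (k * (P.inv b * c)) h = P.q c m := by
    rw [P.q_mul, P.q_mul, hm]
    congr 1
    rw [P.inv_mul, P.inv_mul, P.inv_inv, hki, ← hz]
    have h4 : P.inv c * b * k * (z * (k * (P.inv b * c))) =
        P.inv c * (b * (k * ((z * k) * (P.inv b * c)))) := by simp only [mul_assoc]
    rw [h4, hzk, one_mul]
    simp only [mul_assoc]
  rw [h2, h3] at h1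
  have h4 := hq m hmp c
  have h5 : P.q 1 m = P.q (P.inv b) (hI P h) := by rw [hqm, mul_one]
  rw [h5] at h4
  have h6 : 0 ≤ P.q a h := hh.psd a
  have h7 : 0 ≤ P.q (P.inv b) (hI P h) := hkpd.psd _
  rcases (P.sz_nonneg c).eq_or_lt with h8 | h8
  · rw [← h8]
    positivity
  · have h9 : P.sz c * P.sz c ≤ P.sz c * (C * (P.q (P.inv b) (hI P h) * P.q a h)) := by
      calc P.sz c * P.sz c = P.sz c ^ 2 := by ring
        _ ≤ P.q c m * P.q a h := h1
        _ ≤ C * (P.q (P.inv b) (hI P h) * P.sz c) * P.q a h := mul_le_mul_of_nonneg_right h4 h6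
        _ = P.sz c * (C * (P.q (P.inv b) (hI P h) * P.q a h)) := by ring
    exact le_of_mul_le_mul_left h9 h8



/-- PROOF. Let `κ = hA u⁻¹ h`, so `el κ = inv u * (el h * u)` (`P.el_hA`), `q 1 κ = tau (el κ) = q u h ≤ C`
(`P.q_mul`); `κ` is positive definite (`P.hA_q`). The inverse of `el κ` is `u⁻¹ * k * inv (u⁻¹)`, `k = el (hI h)`, so
`q 1 (hI κ) = tau (k * (inv (u⁻¹) * u⁻¹)) = q (inv (u⁻¹)) (hI h) ≤ C`. So `‖κ‖`, `‖hI κ‖ ≤ C₁` (`psd_norm_le`,
`PA.PD.psd`) and `|dq (hI κ)|`, `|dq κ| ≤ C₂` (`dq_cont` on a compact ball), and `dq κ * dq (hI κ) = 1`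
(`dq_hI`), and `dq κ = dt u⁻¹ ^ 2 * dq h` (`dq_hA`), `dt u⁻¹ * dt u = 1` (`P.dt_mul`). So
`|dq h| = dt u ^ 2 * |dq κ|` with `1 / C₂ ≤ |dq κ| ≤ C₂`. -/
theorem dt_le_dq (C : ℝ) : ∃ C' : ℝ, 0 < C' ∧ ∀ h : P.V, P.PD h → ∀ u : Tˣ, P.q u.1 h ≤ C →
    P.q (P.inv (u⁻¹ : Tˣ).1) (hI P h) ≤ C → P.dt u ^ 2 ≤ C' * |dq P h| := by
  obtain ⟨C₀, hC₀, hn⟩ := psd_norm_le P
  obtain ⟨C₂, hC₂⟩ := ((isCompact_closedBall (0 : P.V) (C₀ * C)).image
    (dq_cont P).norm).bddAbove
  refine ⟨max C₂ 1, lt_of_lt_of_le one_pos (le_max_right _ _), fun h hh u h1 h2 => ?_⟩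
  set κ : P.V := P.hA u⁻¹ h with hκ
  have elκ : (P.el κ : T) = P.inv u.1 * ((P.el h : T) * u.1) := by
    rw [hκ, P.el_hA, _root_.inv_inv]
  have hq1 : P.q 1 κ = P.q u.1 h := by
    have h3 := P.hA_q u⁻¹ u.1 h
    rwa [Units.inv_mul] at h3
  have hpd : P.PD κ := by
    intro x hx
    have h3 := P.hA_q u⁻¹ (u.1 * x) h
    rw [← mul_assoc, Units.inv_mul, one_mul] at h3
    rw [hκ, h3]
    refine hh _ fun h4 => hx ?_
    have h5 : (u⁻¹ : Tˣ).1 * (u.1 * x) = 0 := by rw [h4, mul_zero]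
    rwa [← mul_assoc, Units.inv_mul, one_mul] at h5
  have elI : (P.el (hI P κ) : T) = (u⁻¹ : Tˣ).1 * ((P.el (hI P h) : T) * P.inv (u⁻¹ : Tˣ).1) := by
    have h3 := hI_mul P hpd
    have h4 : (P.el κ : T) * ((u⁻¹ : Tˣ).1 * ((P.el (hI P h) : T) * P.inv (u⁻¹ : Tˣ).1)) = 1 := by
      rw [elκ]
      have h5 : P.inv u.1 * ((P.el h : T) * u.1) * ((u⁻¹ : Tˣ).1 * ((P.el (hI P h) : T) *
          P.inv (u⁻¹ : Tˣ).1)) = P.inv u.1 * ((P.el h : T) * ((u.1 * (u⁻¹ : Tˣ).1) *
          ((P.el (hI P h) : T) * P.inv (u⁻¹ : Tˣ).1))) := by simp only [mul_assoc]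
      rw [h5, Units.mul_inv, one_mul, ← mul_assoc (P.el h : T), mul_hI P hh, one_mul, ← P.inv_mul,
        Units.inv_mul, P.inv_one]
    calc (P.el (hI P κ) : T) = (P.el (hI P κ) : T) * ((P.el κ : T) *
          ((u⁻¹ : Tˣ).1 * ((P.el (hI P h) : T) * P.inv (u⁻¹ : Tˣ).1))) := by rw [h4, mul_one]
      _ = _ := by rw [← mul_assoc, h3, one_mul]
  have hq2 : P.q 1 (hI P κ) = P.q (P.inv (u⁻¹ : Tˣ).1) (hI P h) := by
    rw [P.q_apply, P.q_apply, elI, P.inv_one, mul_one, mul_one, P.tau_comm, P.inv_inv, mul_assoc]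
  have hb1 : κ ∈ Metric.closedBall (0 : P.V) (C₀ * C) := by
    rw [mem_closedBall_zero_iff]
    refine (hn κ hpd.psd).trans ?_
    rw [hq1]
    exact mul_le_mul_of_nonneg_left h1 hC₀
  have hb2 : hI P κ ∈ Metric.closedBall (0 : P.V) (C₀ * C) := by
    rw [mem_closedBall_zero_iff]
    refine (hn _ (hI_pd P hpd).psd).trans ?_
    rw [hq2]
    exact mul_le_mul_of_nonneg_left h2 hC₀
  have hd2 : |dq P (hI P κ)| ≤ C₂ := hC₂ ⟨_, hb2, rfl⟩
  have hmul := dq_hI P hpd
  have h3 : |dq P κ| * |dq P (hI P κ)| = 1 := by rw [← abs_mul, hmul, abs_one]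
  have h4 : dq P h = P.dt u ^ 2 * dq P κ := by
    have h5 := dq_hA P u κ
    have h6 : P.hA u κ = h := by
      rw [hκ, ← P.hA_mul, mul_inv_cancel, P.hA_one]
    rwa [h6] at h5
  have h5 : |dq P h| = P.dt u ^ 2 * |dq P κ| := by
    rw [h4, abs_mul, abs_of_nonneg (sq_nonneg _)]
  have h6 : 1 ≤ max C₂ 1 * |dq P κ| := by
    calc (1 : ℝ) = |dq P κ| * |dq P (hI P κ)| := h3.symm
      _ ≤ |dq P κ| * max C₂ 1 := mul_le_mul_of_nonneg_left (hd2.trans (le_max_left _ _))
        (abs_nonneg _)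
      _ = max C₂ 1 * |dq P κ| := mul_comm _ _
  calc P.dt u ^ 2 = P.dt u ^ 2 * 1 := (mul_one _).symm
    _ ≤ P.dt u ^ 2 * (max C₂ 1 * |dq P κ|) := mul_le_mul_of_nonneg_left h6 (sq_nonneg _)
    _ = max C₂ 1 * |dq P h| := by
      rw [h5]
      ring



/-- PROOF. The set `S` of the semidefinite `h` with `q 1 h ≤ t`, `δ ≤ |dq h|` is compact: closed (`PA.psd_closed`,
`dq_cont`) and bounded (`psd_norm_le`), and its elements are positive definite (`dq_zero`). Every `h` in `S` has a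
neighbourhood with a common `ε` (`PA.PD.lower`); take a finite subcover. -/
theorem unif_lower (t δ : ℝ) (hδ : 0 < δ) : ∃ ε : ℝ, 0 < ε ∧ ∀ h : P.V, P.PSD h → P.q 1 h ≤ t →
    δ ≤ |dq P h| → ∀ x : T, ε * P.sz x ≤ P.q x h := by
  obtain ⟨C, hC, hn⟩ := psd_norm_le P
  set S : Set P.V := {h | P.PSD h} ∩ ({h | P.q 1 h ≤ t} ∩ {h | δ ≤ |dq P h|}) with hS
  have hcl : IsClosed S := by
    refine P.psd_closed.inter (IsClosed.inter ?_ ?_)
    · exact isClosed_le (P.q 1).continuous continuous_const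
    · exact isClosed_le continuous_const (dq_cont P).abs
  have hcomp : IsCompact S := by
    refine (isCompact_closedBall (0 : P.V) (C * t)).of_isClosed_subset hcl ?_
    rintro h ⟨h1, h2, -⟩
    rw [mem_closedBall_zero_iff]
    exact (hn h h1).trans (mul_le_mul_of_nonneg_left h2 hC)
  have hmain : ∃ ε : ℝ, 0 < ε ∧ ∀ h ∈ S, ∀ x : T, ε * P.sz x ≤ P.q x h := by
    refine hcomp.induction_on (p := fun S : Set P.V =>
      ∃ ε : ℝ, 0 < ε ∧ ∀ h ∈ S, ∀ x : T, ε * P.sz x ≤ P.q x h) ?_ ?_ ?_ ?_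
    · exact ⟨1, one_pos, fun h hh => absurd hh (Set.notMem_empty h)⟩
    · rintro s t hst ⟨ε, hε, h⟩
      exact ⟨ε, hε, fun x hx => h x (hst hx)⟩
    · rintro s t ⟨ε, hε, h⟩ ⟨ε', hε', h'⟩
      refine ⟨min ε ε', lt_min hε hε', ?_⟩
      rintro m (hm | hm) x
      · exact (mul_le_mul_of_nonneg_right (min_le_left _ _) (P.sz_nonneg x)).trans (h m hm x)
      · exact (mul_le_mul_of_nonneg_right (min_le_right _ _) (P.sz_nonneg x)).trans (h' m hm x)
    · rintro h ⟨h1, -, h3⟩
      have hpd : P.PD h := by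
        by_contra hcon
        have h4 : δ ≤ |dq P h| := h3
        rw [dq_zero P h1 hcon, abs_zero] at h4
        exact absurd h4 (not_le.2 hδ)
      obtain ⟨ε, U, hε, hU, hle⟩ := hpd.lower
      exact ⟨U, mem_nhdsWithin_of_mem_nhds hU, ε, hε, hle⟩
  obtain ⟨ε, hε, h⟩ := hmain
  exact ⟨ε, hε, fun m h1 h2 h3 => h m ⟨h1, h2, h3⟩⟩


end inv

end Pool.Agent.CGU
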