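import Pool.Agent.CGU.KGo
import Pool.Agent.CGU.KLE
import Pool.Agent.CGU.KLI

/-!
# The facets of the Selberg polyhedron
-/

noncomputable section

set_option linter.unusedSectionVars false
set_option linter.unusedVariables false

namespace Pool.Agent.CGU

open NumberField IsDedekindDomain
open Pool.Agent.CG2 (Pl Fv Ov)
open Pool.Agent.CGQ (Sys PA diag)
open Pool.Agent.CGN (SC)

variable {F : Type} [Field F] [NumberField F] {A : UD F} (R : RDat A)

/-- The denominator of the facets. -/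
def M0 : ℕ := (godement' R).choose

theorem M0_pos : 0 < M0 R := (godement' R).choose_spec.1

theorem godement'' : ∃ C : ℝ, 0 < C ∧ ∀ (g : (sysU A).A) (h : (PP R).V), (PP R).PD h →
    |dq (PP R) h| = 1 → ∃ e : (sysU A).G, ((M0 R : ℕ) : BF A) * (uK e).1 ∈ Lat g ∧ qe R e h ≤ C :=
  (godement' R).choose_spec.2

/-- The facets at `g`. -/
def LatE (g : (sysU A).A) : Set (sysU A).G := {e | ((M0 R : ℕ) : BF A) * (uK e).1 ∈ Lat g}

/-- The class of a facet. -/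
def clsE (N : ℕ) (g : (sysU A).A) (e : (sysU A).G) : Cls A N :=
  cls N g (((M0 R : ℕ) : BF A) * (uK e).1)

theorem M0_smul (γ e : (sysU A).G) : ((M0 R : ℕ) : BF A) * (uK (γ * e)).1 =
    (uK γ).1 * (((M0 R : ℕ) : BF A) * (uK e).1) := by
  rw [uK_mul, Units.val_mul, ← mul_assoc, ← mul_assoc, (Nat.cast_commute (M0 R) (uK γ).1).eq]

theorem mem_LatE_diag (γ e : (sysU A).G) (g : (sysU A).A) :
    γ * e ∈ LatE R (diag γ * g) ↔ e ∈ LatE R g := by
  change _ ∈ Lat (diag γ * g) ↔ _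
  rw [M0_smul]
  exact mem_Lat_diag γ g _

theorem clsE_diag (N : ℕ) (γ e : (sysU A).G) (g : (sysU A).A) :
    clsE R N (diag γ * g) (γ * e) = clsE R N g e := by
  rw [clsE, M0_smul]
  exact cls_diag N γ g _

theorem LatE_mul (g : (sysU A).A) {k : (sysU A).A} (hk : ∀ v, IntB A v (gv k v).1) :
    LatE R (g * k) = LatE R g := by
  ext e
  change _ ∈ Lat (g * k) ↔ _
  rw [Lat_mul g hk]
  rfl

theorem clsE_mul (N : ℕ) (hN : N ≠ 0) (g : (sysU A).A) {k : (sysU A).A} (hk : k ∈ KNA A N)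
    {e : (sysU A).G} (he : e ∈ LatE R g) : clsE R N (g * k) e = clsE R N g e :=
  cls_mul N hN g hk he


/-- PROOF. `vp_lower` for `PP R` (`TT R` is not trivial) and `dt_thP` give `c > 0` with `c ≤ sz (thP e)` for all `e`;
take `h = (2 / c) • oneV` (`q_oneV`). -/
theorem exists_large : ∃ h : (PP R).V, (PP R).PD h ∧ ∀ e : (sysU A).G, 2 ≤ qe R e h := by
  obtain ⟨c, hc, hc2⟩ := vp_lower (PP R)
  have h1 : ∀ x : TT R, (PP R).q x ((2 / c) • oneV (PP R)) = 2 / c * (PP R).sz x := by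
    intro x
    rw [map_smul, q_oneV, smul_eq_mul]
  refine ⟨(2 / c) • oneV (PP R), ?_, ?_⟩
  · intro x hx
    rw [h1]
    exact mul_pos (by positivity) ((PP R).sz_pos hx)
  · intro e
    change 2 ≤ (PP R).q (thP R e).1 ((2 / c) • oneV (PP R))
    rw [h1]
    have h2 := hc2 (thP R e) (dt_thP R e)
    calc (2 : ℝ) = 2 / c * c := by field_simp
      _ ≤ _ := mul_le_mul_of_nonneg_left h2 (by positivity)



/-- PROOF. Let `C` be the constant of `godement''`, `D = |dq h| > 0` (`dq_hI`). There is `t > 0` with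
`(t ^ 2) ^ d * D = 1`, `d = finrank (PP R).sym > 0` (`finrank_PP`), so `|dq (t • h)| = 1` (`dq_smul`) and there is a facet
`e` with `t * qe e h ≤ C`, so `t ≤ C`, and `D = (t ^ 2) ^ (-d) ≥ (C ^ 2) ^ (-d)`. -/
theorem dq_lower : ∃ δ : ℝ, 0 < δ ∧ ∀ (g : (sysU A).A) (h : (PP R).V), (PP R).PD h →
    (∀ e ∈ LatE R g, 1 ≤ qe R e h) → δ ≤ |dq (PP R) h| := by
  obtain ⟨C, hC, hC2⟩ := godement'' R
  have hd : Module.finrank ℝ (PP R).sym ≠ 0 := by
    rw [finrank_PP]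
    exact Nat.succ_ne_zero _
  refine ⟨((C ^ 2) ^ Module.finrank ℝ (PP R).sym)⁻¹, by positivity, ?_⟩
  intro g h hh hq
  have hD : 0 < |dq (PP R) h| := by
    rw [abs_pos]
    intro h0
    have h1 := dq_hI (PP R) hh
    rw [h0, zero_mul] at h1
    exact zero_ne_one h1
  obtain ⟨t, ht, ht2⟩ : ∃ t : ℝ, 0 < t ∧
      (t ^ 2) ^ Module.finrank ℝ (PP R).sym * |dq (PP R) h| = 1 := by
    refine ⟨Real.sqrt (|dq (PP R) h|⁻¹ ^ ((Module.finrank ℝ (PP R).sym : ℝ)⁻¹)),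
      Real.sqrt_pos.2 (Real.rpow_pos_of_pos (inv_pos.2 hD) _), ?_⟩
    rw [Real.sq_sqrt (Real.rpow_nonneg (inv_pos.2 hD).le _),
      Real.rpow_inv_natCast_pow (inv_pos.2 hD).le hd, inv_mul_cancel₀ hD.ne']
  have hpd : (PP R).PD (t • h) := by
    intro x hx
    rw [map_smul, smul_eq_mul]
    exact mul_pos ht (hh x hx)
  have hdq : |dq (PP R) (t • h)| = 1 := by
    rw [dq_smul, abs_mul, abs_of_pos (show (0 : ℝ) < (t ^ 2) ^ Module.finrank ℝ (PP R).sym by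
      positivity), ht2]
  obtain ⟨e, he, he2⟩ := hC2 g (t • h) hpd hdq
  have h3 : t * qe R e h ≤ C := by
    rw [map_smul, smul_eq_mul] at he2
    exact he2
  have h4 : t ≤ C := by
    refine le_trans ?_ h3
    calc t = t * 1 := (mul_one t).symm
      _ ≤ _ := mul_le_mul_of_nonneg_left (hq e he) ht.le
  have h5 : (t ^ 2) ^ Module.finrank ℝ (PP R).sym ≤ (C ^ 2) ^ Module.finrank ℝ (PP R).sym :=
    pow_le_pow_left₀ (by positivity) (pow_le_pow_left₀ ht.le h4 2) _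
  have h6 : |dq (PP R) h| = ((t ^ 2) ^ Module.finrank ℝ (PP R).sym)⁻¹ :=
    (eq_inv_of_mul_eq_one_right ht2)
  rw [h6]
  exact inv_anti₀ (by positivity) h5



/-- PROOF. Let `h₀` be as in `exists_large`, `h_t = (1 - t) h₀ + t h`, `t` in `[0, 1]`; `1 ≤ qe e h_t` for all facets. The
set of the `t` in `[0, 1]` such that `h_t` is positive definite is not empty, open (`PA.PD.lower`) and closed: a limit is
semidefinite (`PA.psd_closed`) with `δ ≤ |dq|` (`dq_lower`, `dq_cont`), so positive definite (`dq_zero`). So it is all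
of `[0, 1]`, which is connected. -/
theorem pd_of (g : (sysU A).A) (h : (PP R).V) (hh : ∀ e ∈ LatE R g, 1 ≤ qe R e h) :
    (PP R).PD h := by
  obtain ⟨h₀, hh₀, h2⟩ := exists_large R
  obtain ⟨δ, hδ, hδ'⟩ := dq_lower R
  have hop : IsOpen {h : (PP R).V | (PP R).PD h} := by
    rw [isOpen_iff_mem_nhds]
    intro h₁ hh₁
    obtain ⟨ε, U, hε, hU, hU'⟩ := PA.PD.lower hh₁
    refine Filter.mem_of_superset hU fun h' hh' x hx => ?_
    exact (mul_pos hε ((PP R).sz_pos hx)).trans_le (hU' h' hh' x)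
  let f : Set.Icc (0 : ℝ) 1 → (PP R).V := fun t => (1 - t.1) • h₀ + t.1 • h
  have hf : Continuous f := by
    refine Continuous.add ?_ ?_
    · exact (continuous_const.sub continuous_subtype_val).smul continuous_const
    · exact continuous_subtype_val.smul continuous_const
  have hq : ∀ t : Set.Icc (0 : ℝ) 1, ∀ e ∈ LatE R g, 1 ≤ qe R e (f t) := by
    intro t e he
    have h3 : qe R e (f t) = (1 - t.1) * qe R e h₀ + t.1 * qe R e h := by
      change qe R e ((1 - t.1) • h₀ + t.1 • h) = _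
      rw [map_add, map_smul, map_smul]
      rfl
    rw [h3]
    have h4 := mul_le_mul_of_nonneg_left (h2 e) (sub_nonneg.2 t.2.2)
    have h5 := mul_le_mul_of_nonneg_left (hh e he) t.2.1
    have h6 := t.2.2
    linarith
  have hcl : IsClopen (f ⁻¹' {h : (PP R).V | (PP R).PD h}) := by
    refine ⟨?_, hop.preimage hf⟩
    have h3 : f ⁻¹' {h : (PP R).V | (PP R).PD h} =
        f ⁻¹' ({h : (PP R).V | (PP R).PSD h} ∩ {h : (PP R).V | δ ≤ |dq (PP R) h|}) := by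
      ext t
      constructor
      · intro ht
        exact ⟨PA.PD.psd ht, hδ' g _ ht (hq t)⟩
      · rintro ⟨ht1, ht2⟩
        change (PP R).PD (f t)
        by_contra h4
        have h5 := dq_zero (PP R) ht1 h4
        have h6 : δ ≤ |dq (PP R) (f t)| := ht2
        rw [h5, abs_zero] at h6
        exact absurd hδ (not_lt.2 h6)
    rw [h3]
    exact (IsClosed.inter (PP R).psd_closed
      (isClosed_le continuous_const (dq_cont (PP R)).abs)).preimage hf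
  have hne : (f ⁻¹' {h : (PP R).V | (PP R).PD h}).Nonempty := by
    refine ⟨⟨0, le_rfl, zero_le_one⟩, ?_⟩
    change (PP R).PD ((1 - (0 : ℝ)) • h₀ + (0 : ℝ) • h)
    rw [sub_zero, one_smul, zero_smul, add_zero]
    exact hh₀
  have hall := hcl.eq_univ hne
  have h1 : (⟨1, zero_le_one, le_rfl⟩ : Set.Icc (0 : ℝ) 1) ∈
      f ⁻¹' {h : (PP R).V | (PP R).PD h} := by
    rw [hall]
    trivial
  have h3 : (PP R).PD ((1 - (1 : ℝ)) • h₀ + (1 : ℝ) • h) := h1
  rwa [sub_self, zero_smul, one_smul, zero_add] at h3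



/-- PROOF. Let `k = actU e⁻¹ h`; `qe 1 k = qe e h ≤ 9 / 8`, `qe (e⁻¹ * f) k = qe f h ≤ 9 / 8` (`actU_q`), `k` is positive
definite (`pd_of`, `PA.hA_q` or `PA.hA_psd`), `|dq k| = |dq h| ≥ δ` (`dq_hA`, `dt_thP`, `dq_lower`). `unif_lower`:
`ε * sz (thP (e⁻¹ * f)) ≤ 9 / 8`. -/
theorem unif_sz : ∃ C : ℝ, ∀ (g : (sysU A).A) (h : (PP R).V), (∀ e ∈ LatE R g, 1 ≤ qe R e h) →
    ∀ e f : (sysU A).G, qe R e h ≤ 9 / 8 → qe R f h ≤ 9 / 8 →
      (PP R).sz (thP R (e⁻¹ * f)).1 ≤ C := by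
  obtain ⟨δ, hδ, hδ'⟩ := dq_lower R
  obtain ⟨ε, hε, hε'⟩ := unif_lower (PP R) (9 / 8) δ hδ
  refine ⟨9 / 8 / ε, fun g h hh e f he hf => ?_⟩
  have hpd := pd_of R g h hh
  have h1 := hδ' g h hpd hh
  have h2 : (PP R).PSD (actU R e⁻¹ h) := ((PP R).hA_psd _ _).1 (PA.PD.psd hpd)
  have h3 : (PP R).q 1 (actU R e⁻¹ h) ≤ 9 / 8 := by
    have h4 := actU_q R e⁻¹ e h
    rw [inv_mul_cancel, qe_one] at h4
    rw [h4]
    exact he
  have h4 : δ ≤ |dq (PP R) (actU R e⁻¹ h)| := by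
    rw [actU, dq_hA, abs_mul, abs_pow, dt_thP, one_pow, one_mul]
    exact h1
  have h5 := hε' _ h2 h3 h4 (thP R (e⁻¹ * f)).1
  have h6 : (PP R).q (thP R (e⁻¹ * f)).1 (actU R e⁻¹ h) = qe R f h := actU_q R e⁻¹ f h
  rw [h6] at h5
  rw [le_div_iff₀ hε, mul_comm]
  exact h5.trans hf



/-- PROOF. `sz (a, r) = sz a + r ^ 2` in `TT R`, so `sz (ph γ) ≤ C`; by `vp_inv` (`dt_thP`) also
`sz ((ph γ)⁻¹) ≤ C'`, and `(ph γ)⁻¹ = Θ (star (theta γ))` (`ph_inv`); `star γ * γ = 1` (`uK_star_mul`). So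
`Qd oneV (theta γ) = sz (inv (Θ (star (theta γ)))) + sz (Θ (theta γ)) + tn (π 1)` (`Qd_eq`, `hI oneV = oneV`) is bounded;
`Q1_equiv`. -/
theorem nB_le (C : ℝ) : ∃ C' : ℝ, ∀ γ : (sysU A).G, (PP R).sz (thP R γ).1 ≤ C →
    nB (theta A (uK γ).1) ≤ C' := by
  obtain ⟨C₁, hC₁⟩ := vp_inv (PP R) C
  obtain ⟨c, D, hc, hD, hcD⟩ := Q1_equiv R
  have hI1 : hI R.P (oneV R.P) = oneV R.P := by
    apply R.P.el_inj
    have h1 := hI_mul R.P (oneV_pd R.P)
    rw [el_oneV, mul_one] at h1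
    rw [h1, el_oneV]
  have hszinv : ∀ x : R.T, R.P.sz (R.P.inv x) = R.P.sz x := by
    intro x
    rw [PA.sz, PA.sz, R.P.inv_inv, R.P.tau_comm]
  have hszP : ∀ (a : R.T) (r : ℝ), (PP R).sz (a, r) = R.P.sz a + r * r := fun _ _ => rfl
  refine ⟨Real.sqrt ((C₁ + C + tn R 1) / c), fun γ hγ => ?_⟩
  apply Real.le_sqrt_of_sq_le
  rw [le_div_iff₀ hc, mul_comm]
  refine (hcD _).1.trans ?_
  have h1 : R.P.sz (ph R γ).1 ≤ C := by
    rw [thP_val, hszP] at hγ
    nlinarith [mul_self_nonneg (rr R γ).1]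
  have h2 : R.P.sz ((ph R γ)⁻¹ : (R.T)ˣ).1 ≤ C₁ := by
    have h3 := hC₁ (thP R γ) (dt_thP R γ) hγ
    have h4 : ((thP R γ)⁻¹ : (TT R)ˣ).1 = (((ph R γ)⁻¹ : (R.T)ˣ).1, ((rr R γ)⁻¹ : ℝˣ).1) := rfl
    rw [h4, hszP] at h3
    nlinarith [mul_self_nonneg ((rr R γ)⁻¹ : ℝˣ).1]
  have h3 : R.π (theta A (uK γ).1) = R.π (theta A (uK γ).1) := rfl
  have h4 : star (R.π (theta A (uK γ).1)) * R.π (theta A (uK γ).1) = 1 := by
    rw [← R.π_star, ← map_mul, ← theta_star, ← map_mul, uK_star_mul, map_one, map_one]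
  rw [Qd_eq, hI1, q_oneV, q_oneV, h4, hszinv, ← ph_inv, ← ph_val]
  linarith



/-- PROOF. `lat_disc` for `g = 1` (`mem_OB_iff`): there are only finitely many `w` in `OB A` with `nB ≤ 1`. -/
theorem OB_lower (A : UD F) : ∃ c : ℝ, 0 < c ∧ ∀ w ∈ OB A, w ≠ 0 → c ≤ nB (theta A w) := by
  have hOB : ∀ w ∈ OB A, w ∈ Lat (1 : (sysU A).A) := by
    intro w hw v
    have h1 : iq (1 : (sysU A).A) w v = bloc A v w := by
      rw [iq, gv_one, inv_one, Units.val_one, one_mul]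
    rw [h1]
    exact mem_OB_iff.1 hw v
  have hfin : {w : BF A | (w ∈ Lat (1 : (sysU A).A) ∧ nB (theta A w) ≤ 1) ∧ w ≠ 0}.Finite :=
    (lat_disc (1 : (sysU A).A) 1).subset fun w hw => hw.1
  have hpos : ∀ w : BF A, w ≠ 0 → 0 < nB (theta A w) := by
    intro w hw
    refine lt_of_le_of_ne (nB_nonneg _) fun h => hw ?_
    apply theta_inj
    rw [map_zero]
    exact nB_eq_zero.1 h.symm
  by_cases hne : {w : BF A | (w ∈ Lat (1 : (sysU A).A) ∧ nB (theta A w) ≤ 1) ∧ w ≠ 0}.Nonempty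
  · obtain ⟨w₀, hw₀, hmin⟩ := Set.exists_min_image _ (fun w : BF A => nB (theta A w)) hfin hne
    refine ⟨nB (theta A w₀), hpos w₀ hw₀.2, fun w hw hw0 => ?_⟩
    by_cases h1 : nB (theta A w) ≤ 1
    · exact hmin w ⟨⟨hOB w hw, h1⟩, hw0⟩
    · exact hw₀.1.2.trans (not_le.1 h1).le
  · refine ⟨1, one_pos, fun w hw hw0 => ?_⟩
    by_contra h1
    exact hne ⟨w, ⟨hOB w hw, (not_le.1 h1).le⟩, hw0⟩



/-- PROOF. Let `x, y` be as in the statement, `γ = x⁻¹ * y`, `m = M0 R`, `g' = diag x⁻¹ * g`. By `cls_eq`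
`m (x - y) = N u` with `u` in `Lat g`, so `m (1 - γ) = N u'` with `u' = x⁻¹ u` in `Lat g'` (`mem_Lat_diag`). `m * 1` is in
`Lat g'` (`mem_LatE_diag`), so for all `v` `m g'_v⁻¹` and also (`star`, `gv_star`) `m g'_v` are integral, so
`m u' = (m g'_v) (g'_v⁻¹ u')` is integral at `v`: `w = m u'` is in `OB A` (`mem_OB_iff`), and `m ^ 2 (1 - γ) = N w`. By
`unif_sz` and `nB_le` `nB (theta (1 - γ)) ≤ C`, so `N * nB (theta w) ≤ m ^ 2 * C`. With `c` of `OB_lower` and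
`N₀ * c > m ^ 2 * C` we get `w = 0`, so `γ = 1`. -/
theorem exists_N0 : ∃ N₀ : ℕ, 3 ≤ N₀ ∧ ∀ N : ℕ, N₀ ≤ N → ∀ (g : (sysU A).A) (h : (PP R).V),
    (∀ e ∈ LatE R g, 1 ≤ qe R e h) → ∀ x ∈ LatE R g, ∀ y ∈ LatE R g,
      qe R x h ≤ 9 / 8 → qe R y h ≤ 9 / 8 → clsE R N g x = clsE R N g y → x = y := by
  obtain ⟨C, hC⟩ := unif_sz R
  obtain ⟨C', hC'⟩ := nB_le R C
  obtain ⟨c, hc, hc'⟩ := OB_lower A
  have hm := M0_pos R
  obtain ⟨N₁, hN₁⟩ := exists_nat_gt (((M0 R : ℕ) : ℝ) ^ 2 * (nB (theta A 1) + C') / c)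
  refine ⟨max 3 N₁, le_max_left _ _, fun N hN g h hh x hx y hy hxh hyh hxy => ?_⟩
  have hN0 : N ≠ 0 := by
    have := (le_max_left 3 N₁).trans hN
    omega
  obtain ⟨u, hu, hu'⟩ := cls_eq N hN0 g _ _ hx hy hxy
  set m : ℕ := M0 R with hmdef
  set γ : (sysU A).G := x⁻¹ * y with hγ
  set g' : (sysU A).A := diag x⁻¹ * g with hg'
  have h1 : nB (theta A (uK γ).1) ≤ C' := hC' γ (hC g h hh x y hxh hyh)
  set u' : BF A := (uK x⁻¹).1 * u with hu'def
  have h2 : u' ∈ Lat g' := (mem_Lat_diag x⁻¹ g u).2 hu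
  have hux : (uK x⁻¹).1 * (uK x).1 = 1 := by
    rw [← Units.val_mul, ← uK_mul, inv_mul_cancel, uK_one, Units.val_one]
  have huy : (uK x⁻¹).1 * (uK y).1 = (uK γ).1 := by
    rw [← Units.val_mul, ← uK_mul]
  have h3 : ((m : ℕ) : BF A) * (1 - (uK γ).1) = ((N : ℕ) : BF A) * u' := by
    have h4 : (uK x⁻¹).1 * (((m : ℕ) : BF A) * (uK x).1 - ((m : ℕ) : BF A) * (uK y).1) =
        (uK x⁻¹).1 * (((N : ℕ) : BF A) * u) := by rw [hu']
    have h5 : (uK x⁻¹).1 * (((m : ℕ) : BF A) * (uK x).1 - ((m : ℕ) : BF A) * (uK y).1) =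
        ((m : ℕ) : BF A) * (1 - (uK γ).1) := by
      rw [← mul_sub, ← mul_assoc, ← (Nat.cast_commute m (uK x⁻¹).1).eq, mul_assoc, mul_sub, hux,
        huy]
    have h6 : (uK x⁻¹).1 * (((N : ℕ) : BF A) * u) = ((N : ℕ) : BF A) * u' := by
      rw [← mul_assoc, ← (Nat.cast_commute N (uK x⁻¹).1).eq, mul_assoc]
    rw [← h5, h4, h6]
  have h7 : ∀ v, IntB A v (((m : ℕ) : BV A v) * (gv g' v).1) := by
    intro v
    have h8 : (1 : (sysU A).G) ∈ LatE R g' := by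
      have := (mem_LatE_diag R x⁻¹ x g).2 hx
      rwa [inv_mul_cancel] at this
    have h9 : IntB A v (iq g' (((m : ℕ) : BF A) * (uK (1 : (sysU A).G)).1) v) := h8 v
    have h10 : star (iq g' (((m : ℕ) : BF A) * (uK (1 : (sysU A).G)).1) v) =
        ((m : ℕ) : BV A v) * (gv g' v).1 := by
      rw [iq, uK_one, Units.val_one, mul_one, map_natCast, star_mul, star_natCast, ← gv_star,
        star_star]
    rw [← h10]
    exact h9.star
  have h11 : ((m : ℕ) : BF A) * u' ∈ OB A := by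
    rw [mem_OB_iff]
    intro v
    have h12 : bloc A v (((m : ℕ) : BF A) * u') =
        (((m : ℕ) : BV A v) * (gv g' v).1) * iq g' u' v := by
      rw [iq, map_mul, map_natCast, mul_assoc, ← mul_assoc (gv g' v).1, Units.mul_inv, one_mul]
    rw [h12]
    exact intB_mul (h7 v) (h2 v)
  have hnn : ∀ (k : ℕ) (z : BF A), nB (theta A (((k : ℕ) : BF A) * z)) = k * nB (theta A z) := by
    intro k z
    have h12 : theta A (((k : ℕ) : BF A) * z) = (k : ℝ) • theta A z := by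
      rw [map_mul, map_natCast, Nat.cast_smul_eq_nsmul, nsmul_eq_mul]
    rw [h12, nB_smul, abs_of_nonneg (Nat.cast_nonneg k)]
  have h13 : ((N : ℕ) : BF A) * (((m : ℕ) : BF A) * u') =
      ((m : ℕ) : BF A) * (((m : ℕ) : BF A) * (1 - (uK γ).1)) := by
    rw [h3]
    exact (Nat.cast_commute N ((m : ℕ) : BF A)).left_comm u'
  have h14 : (N : ℝ) * nB (theta A (((m : ℕ) : BF A) * u')) ≤
      (m : ℝ) ^ 2 * (nB (theta A 1) + C') := by
    rw [← hnn, h13, hnn, hnn, ← mul_assoc, ← pow_two]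
    refine mul_le_mul_of_nonneg_left ?_ (sq_nonneg _)
    have h15 : theta A (1 - (uK γ).1) = theta A 1 + (-1 : ℝ) • theta A (uK γ).1 := by
      rw [map_sub, neg_one_smul, sub_eq_add_neg]
    rw [h15]
    refine (nB_add _ _).trans ?_
    rw [nB_smul, abs_neg, abs_one, one_mul]
    linarith
  have h16 : ((m : ℕ) : BF A) * u' = 0 := by
    by_contra h17
    have h18 := hc' _ h11 h17
    have h19 : (m : ℝ) ^ 2 * (nB (theta A 1) + C') < N₁ * c := (div_lt_iff₀ hc).1 hN₁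
    have h20 : (N₁ : ℝ) * c ≤ N * c := by
      refine mul_le_mul_of_nonneg_right ?_ hc.le
      exact_mod_cast (le_max_right 3 N₁).trans hN
    have h21 : (N : ℝ) * c ≤ N * nB (theta A (((m : ℕ) : BF A) * u')) :=
      mul_le_mul_of_nonneg_left h18 (Nat.cast_nonneg N)
    linarith
  have hmz : ∀ z : BF A, ((m : ℕ) : BF A) * z = 0 → z = 0 := by
    intro z hz
    have h17 := hnn m z
    have h18 : nB (theta A (((m : ℕ) : BF A) * z)) = 0 := by rw [hz, map_zero, nB_eq_zero]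
    rw [h18] at h17
    rcases mul_eq_zero.1 h17.symm with h19 | h19
    · exact absurd h19 (Nat.cast_ne_zero.2 hm.ne')
    · apply theta_inj
      rw [map_zero]
      exact nB_eq_zero.1 h19
  have h17 : (1 : BF A) - (uK γ).1 = 0 := by
    apply hmz
    apply hmz
    rw [← h13, h16, mul_zero]
  have h18 : γ = 1 := by
    apply uK_inj
    rw [uK_one, Units.val_one]
    exact (sub_eq_zero.1 h17).symm
  exact inv_mul_eq_one.1 h18



private theorem K_HE_fin (g : (sysU A).A) (M : ℕ) (hM : 0 < M) (C : ℝ) :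
    {e : (sysU A).G | ((M : ℕ) : BF A) * (uK e).1 ∈ Lat g ∧
      (PP R).sz (thP R e).1 ≤ C}.Finite := by
  obtain ⟨C', hC'⟩ := nB_le R C
  have hnn : ∀ z : BF A, nB (theta A (((M : ℕ) : BF A) * z)) = M * nB (theta A z) := by
    intro z
    have h12 : theta A (((M : ℕ) : BF A) * z) = (M : ℝ) • theta A z := by
      rw [map_mul, map_natCast, Nat.cast_smul_eq_nsmul, nsmul_eq_mul]
    rw [h12, nB_smul, abs_of_nonneg (Nat.cast_nonneg M)]
  refine Set.Finite.of_finite_image (f := fun e : (sysU A).G => ((M : ℕ) : BF A) * (uK e).1)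
    ((lat_disc g (M * C')).subset ?_) ?_
  · rintro _ ⟨e, ⟨he1, he2⟩, rfl⟩
    refine ⟨he1, ?_⟩
    rw [hnn]
    exact mul_le_mul_of_nonneg_left (hC' e he2) (Nat.cast_nonneg M)
  · intro e _ f _ h
    have h1 : ((M : ℕ) : BF A) * ((uK e).1 - (uK f).1) = 0 := by
      rw [mul_sub]
      exact sub_eq_zero.2 h
    have h2 := hnn ((uK e).1 - (uK f).1)
    rw [h1, map_zero, nB_eq_zero.2 rfl] at h2
    apply uK_inj
    rcases mul_eq_zero.1 h2.symm with h3 | h3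
    · exact absurd h3 (Nat.cast_ne_zero.2 hM.ne')
    · apply theta_inj
      have h4 := nB_eq_zero.1 h3
      rw [map_sub] at h4
      exact sub_eq_zero.1 h4

/-- PROOF. `qe x h' ≤ 9 / 8` and `ε sz (thP x) ≤ qe x h'` for `h'` near `h` (`pd_of`, `PA.PD.lower`) give
`sz (thP x) ≤ C`, so `nB (theta x) ≤ C'` (`nB_le`), and `M0 x` in `Lat g` (`lat_disc`). -/
theorem LatE_locfin (g : (sysU A).A) (h : (PP R).V) (hh : ∀ e ∈ LatE R g, 1 ≤ qe R e h) :
    ∃ U ∈ nhds h, {e | e ∈ LatE R g ∧ ∃ h' ∈ U, qe R e h' ≤ 9 / 8}.Finite := by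
  obtain ⟨ε, U, hε, hU, hU'⟩ := PA.PD.lower (pd_of R g h hh)
  refine ⟨U, hU, (K_HE_fin R g (M0 R) (M0_pos R) (9 / 8 / ε)).subset ?_⟩
  rintro e ⟨he, h', hh', h1⟩
  refine ⟨he, ?_⟩
  rw [le_div_iff₀ hε, mul_comm]
  exact (hU' h' hh' _).trans h1

/-- PROOF. More generally: for a lattice and a bound there are only finitely many elements `e` of `G` with `M e` in
`Lat g` and `sz (thP e) ≤ C` (`nB_le`, `lat_disc`). -/
theorem sz_fin (g : (sysU A).A) (M : ℕ) (hM : 0 < M) (C : ℝ) :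
    {e : (sysU A).G | ((M : ℕ) : BF A) * (uK e).1 ∈ Lat g ∧ (PP R).sz (thP R e).1 ≤ C}.Finite :=
  K_HE_fin R g M hM C


end Pool.Agent.CGU
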