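import Pool.Agent.CGU.KPa
import Pool.Agent.CGU.KBInf

/-!
# The real data of the unitary group
-/

noncomputable section

set_option linter.unusedSectionVars false
set_option linter.unusedVariables false

namespace Pool.Agent.CGU

open NumberField IsDedekindDomain
open Pool.Agent.CG2 (Pl Fv Ov)
open Pool.Agent.CGQ (Sys PA)
open Pool.Agent.CGN (SC paProd paR)

variable {F : Type} [Field F] [NumberField F]

/-- The real data attached to `B` and its involution: an algebra `T` with a positive involution `P`, whose trace is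
the regular one, a homomorphism `Θ : B ⊗ ℝ → T` (one factor at each split place) and a homomorphism `π` to an
algebra `N` with involution for which the form `tr (star x * x)` is positive definite (the places which do not
split). -/
structure RDat (A : UD F) where
  /-- the algebra of the split places -/
  T : Type
  rT : Ring T
  aT : Algebra ℝ T
  fT : FiniteDimensional ℝ T
  /-- the positive involution of `T` -/
  P : PA T
  reg : ∀ x : T, P.tau x = sgm T x
  /-- the algebra of the places which do not split -/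
  N : Type
  rN : Ring N
  sN : StarRing N
  aN : Algebra ℝ N
  fN : FiniteDimensional ℝ N
  /-- the projection to `T` -/
  Θ : BInf A →ₐ[ℝ] T
  /-- the projection to `N` -/
  π : BInf A →ₐ[ℝ] N
  π_star : ∀ x, π (star x) = star (π x)
  pos : ∀ x : N, x ≠ 0 → 0 < LinearMap.trace ℝ N (LinearMap.mulLeft ℝ (star x * x))
  bij : Function.Bijective fun x : BInf A => (Θ x, Θ (star x), π x)
  ani : ∀ x : BF A, star x * x = 0 → x = 0
  np : 1 ≤ A.n
  sg : ∀ γ : (sysU A).G, 0 < P.dt (Units.map (Θ : BInf A →* T) (thU A γ)) *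
    (((epsU A ((sysU A).sgn γ) : ℤˣ) : ℤ) : ℝ)

attribute [instance] RDat.rT RDat.aT RDat.fT RDat.rN RDat.sN RDat.aN RDat.fN

variable {A : UD F} (R : RDat A)

/-- The algebra `T × ℝ`. -/
abbrev TT : Type := R.T × ℝ

/-- Its positive involution. -/
def PP : PA (TT R) := paProd R.P paR

/-- The element of `T` attached to an element of `G`. -/
def ph : (sysU A).G →* (R.T)ˣ := (Units.map (R.Θ : BInf A →* R.T)).comp (thU A)

theorem ph_val (γ : (sysU A).G) : (ph R γ).1 = R.Θ (theta A (uK γ).1) := rfl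

theorem ph_inv (γ : (sysU A).G) : ((ph R γ)⁻¹ : (R.T)ˣ).1 = R.Θ (star (theta A (uK γ).1)) := by
  rw [← map_inv, ph_val, ← theta_star]
  congr 2
  exact (uK_star γ).symm

/-- The square root of the absolute value of the determinant. -/
def rr : (sysU A).G →* ℝˣ where
  toFun γ := Units.mk0 (Real.sqrt |R.P.dt (ph R γ)|)
    (Real.sqrt_ne_zero'.2 (abs_pos.2 (R.P.dt_ne _)))
  map_one' := by
    apply Units.ext
    change Real.sqrt |R.P.dt (ph R 1)| = 1
    rw [map_one, R.P.dt_of_fix R.P.hA_one, abs_one, Real.sqrt_one]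
  map_mul' a b := by
    apply Units.ext
    change Real.sqrt |R.P.dt (ph R (a * b))| =
      Real.sqrt |R.P.dt (ph R a)| * Real.sqrt |R.P.dt (ph R b)|
    rw [map_mul, R.P.dt_mul, abs_mul, Real.sqrt_mul (abs_nonneg _)]

theorem rr_sq (γ : (sysU A).G) : (rr R γ).1 ^ 2 = |R.P.dt (ph R γ)| :=
  Real.sq_sqrt (abs_nonneg _)

/-- The element of `T × ℝ` attached to an element of `G`. -/
def thP : (sysU A).G →* (TT R)ˣ where
  toFun γ := ⟨((ph R γ).1, (rr R γ).1), (((ph R γ)⁻¹ : (R.T)ˣ).1, ((rr R γ)⁻¹ : ℝˣ).1),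
    Prod.ext (Units.mul_inv _) (Units.mul_inv _), Prod.ext (Units.inv_mul _) (Units.inv_mul _)⟩
  map_one' := by
    apply Units.ext
    change ((ph R 1).1, (rr R 1).1) = (1, 1)
    rw [map_one, map_one]
    rfl
  map_mul' a b := by
    apply Units.ext
    change ((ph R (a * b)).1, (rr R (a * b)).1) = _
    rw [map_mul, map_mul]
    rfl

theorem thP_val (γ : (sysU A).G) : (thP R γ).1 = ((ph R γ).1, (rr R γ).1) := rfl

/-- The functional attached to an element of `G`. -/
def qe (e : (sysU A).G) : (PP R).V →L[ℝ] ℝ := (PP R).q (thP R e).1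

/-- The action of `G`. -/
def actU (γ : (sysU A).G) : (PP R).V ≃ₗ[ℝ] (PP R).V := (PP R).hA (thP R γ)

theorem actU_q (γ e : (sysU A).G) (h : (PP R).V) : qe R (γ * e) (actU R γ h) = qe R e h := by
  have h1 : (thP R (γ * e)).1 = (thP R γ).1 * (thP R e).1 := by
    rw [map_mul]
    rfl
  rw [qe, h1]
  exact (PP R).hA_q _ _ _

theorem actU_mul (γ δ : (sysU A).G) (h : (PP R).V) : actU R (γ * δ) h = actU R γ (actU R δ h) := by
  rw [actU, map_mul]
  exact (PP R).hA_mul _ _ _

theorem qe_one (h : (PP R).V) : qe R 1 h = (PP R).q 1 h := by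
  rw [qe, map_one]
  rfl


private theorem K_QA_dtR (u : ℝˣ) : paR.dt u = ((u⁻¹ : ℝˣ) : ℝ) ^ 2 := by
  have h : (paR.hA u : paR.V →ₗ[ℝ] paR.V) = (((u⁻¹ : ℝˣ) : ℝ) ^ 2) • LinearMap.id := by
    apply LinearMap.ext
    intro h
    apply paR.el_inj
    change (paR.el (paR.hA u h) : ℝ) = (paR.el ((((u⁻¹ : ℝˣ) : ℝ) ^ 2) • h) : ℝ)
    rw [paR.el_hA, map_smul, Submodule.coe_smul, smul_eq_mul]
    change ((u⁻¹ : ℝˣ) : ℝ) * ((paR.el h : ℝ) * ((u⁻¹ : ℝˣ) : ℝ)) = _
    ring
  rw [PA.dt, h, LinearMap.det_smul, LinearMap.det_id, mul_one, Module.finrank_fin_fun,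
    CGN.finrank_sym_R, pow_one]

private theorem K_QA_dt (γ : (sysU A).G) : (PP R).dt (thP R γ) =
    R.P.dt (ph R γ) * (((rr R γ)⁻¹ : ℝˣ) : ℝ) ^ 2 := by
  have h1 : Units.map (RingHom.fst R.T ℝ : R.T × ℝ →* R.T) (thP R γ) = ph R γ := Units.ext rfl
  have h2 : Units.map (RingHom.snd R.T ℝ : R.T × ℝ →* ℝ) (thP R γ) = rr R γ := Units.ext rfl
  change (paProd R.P paR).dt (thP R γ) = _
  rw [CGN.dt_paProd, h1, h2, K_QA_dtR]

/-- PROOF. `CGN.dt_paProd` and the determinant of the action of `r` for `paR` is `(r⁻¹) ^ 2`: `paR.sym` has dimension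
`1` (`CGN.finrank_sym_R`) and `paR.hA r` is the multiplication by `r⁻¹ * r⁻¹` (`PA.el_hA`). So it is
`dt (ph γ) * (rr γ) ^ (-2) = dt (ph γ) / |dt (ph γ)|` (`rr_sq`). -/
theorem dt_thP (γ : (sysU A).G) : |(PP R).dt (thP R γ)| = 1 := by
  rw [K_QA_dt, abs_mul, abs_of_nonneg (sq_nonneg (((rr R γ)⁻¹ : ℝˣ) : ℝ)), ← rr_sq,
    Units.val_inv_eq_inv_val, inv_pow, mul_inv_cancel₀ (pow_ne_zero 2 (rr R γ).ne_zero)]

/-- PROOF. As `dt_thP`, and `R.sg`. -/
theorem dt_sign (γ : (sysU A).G) :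
    0 < (PP R).dt (thP R γ) * (((epsU A ((sysU A).sgn γ) : ℤˣ) : ℤ) : ℝ) := by
  rw [K_QA_dt, mul_right_comm]
  exact mul_pos (R.sg γ) (by
    have h := ((rr R γ)⁻¹ : ℝˣ).ne_zero
    positivity)

/-- PROOF. `CGN.finrank_paProd`, `CGN.finrank_sym_R`. -/
theorem finrank_PP : Module.finrank ℝ (PP R).sym = Module.finrank ℝ R.P.sym + 1 := by
  have h := CGN.finrank_paProd R.P paR
  rw [CGN.finrank_sym_R] at h
  exact h



private def K_QB_e : (PP R).sym ≃ₗ[ℝ] R.P.sym × ℝ where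
  toFun x := (⟨x.1.1, congrArg Prod.fst x.2⟩, x.1.2)
  map_add' _ _ := rfl
  map_smul' _ _ := rfl
  invFun y := ⟨(y.1.1, y.2), Prod.ext y.1.2 rfl⟩
  left_inv _ := rfl
  right_inv _ := rfl

/-- PROOF. `(PP R).sym` is the set of the pairs `(h, s)` with `h` in `R.P.sym` and `s : ℝ` arbitrary
(`paR.inv = id`); compose `(PP R).el`, this identification and `R.P.el.symm`. -/
theorem exists_cV : ∃ c : (PP R).V ≃ₗ[ℝ] R.P.V × ℝ, ∀ h : (PP R).V,
    ((PP R).el h : TT R) = ((R.P.el (c h).1 : R.T), (c h).2) := by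
  refine ⟨((PP R).el.trans (K_QB_e R)).trans (R.P.el.symm.prodCongr (LinearEquiv.refl ℝ ℝ)),
    fun h => ?_⟩
  have h1 : (((PP R).el.trans (K_QB_e R)).trans
      (R.P.el.symm.prodCongr (LinearEquiv.refl ℝ ℝ)) h).1 =
      R.P.el.symm (K_QB_e R ((PP R).el h)).1 := rfl
  rw [h1, LinearEquiv.apply_symm_apply]
  rfl

/-- The components of an element of the space of `PP R`. -/
def cV : (PP R).V ≃ₗ[ℝ] R.P.V × ℝ := (exists_cV R).choose

theorem el_cV (h : (PP R).V) : ((PP R).el h : TT R) = ((R.P.el (cV R h).1 : R.T), (cV R h).2) :=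
  (exists_cV R).choose_spec h

/-- PROOF. `el_cV`, `PA.q_apply` and the definition of `paProd`, `paR`. -/
theorem q_cV (a : R.T) (r : ℝ) (h : (PP R).V) :
    (PP R).q (a, r) h = R.P.q a (cV R h).1 + r ^ 2 * (cV R h).2 := by
  rw [PA.q_apply, PA.q_apply, el_cV]
  change R.P.tau ((R.P.el (cV R h).1 : R.T) * (a * R.P.inv a)) + (cV R h).2 * (r * r) = _
  ring

/-- PROOF. `q_cV` (take `(x, 0)` and `(0, 1)`; conversely if `(x, r) ≠ 0` one of the terms is positive and the
other one is nonnegative). -/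
theorem pd_cV (h : (PP R).V) : (PP R).PD h ↔ R.P.PD (cV R h).1 ∧ 0 < (cV R h).2 := by
  constructor
  · intro hh
    refine ⟨fun x hx => ?_, ?_⟩
    · have h1 := hh (x, 0) (fun h0 => hx (congrArg Prod.fst h0))
      rw [q_cV] at h1
      simpa using h1
    · have h1 := hh (0, 1) (fun h0 => one_ne_zero (congrArg Prod.snd h0))
      rw [q_cV, PA.q_apply] at h1
      simpa using h1
  · rintro ⟨h1, h2⟩ ⟨x, r⟩ hx
    rw [q_cV]
    by_cases hx0 : x = 0
    · have hr : r ≠ 0 := by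
        rintro rfl
        exact hx (Prod.ext hx0 rfl)
      exact add_pos_of_nonneg_of_pos (h1.psd x) (by positivity)
    · exact add_pos_of_pos_of_nonneg (h1 x hx0) (by positivity)

/-- PROOF. The map `y ↦ h y h` of `(PP R).sym = R.P.sym × ℝ` is the product of `y ↦ h₁ y h₁` and `s ↦ h₂ ^ 2 s`;
the determinant of a product map is the product of the determinants (see the proof of `CGN.dt_paProd`). -/
theorem dq_cV (h : (PP R).V) : dq (PP R) h = dq R.P (cV R h).1 * (cV R h).2 ^ 2 := by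
  have h1 : (K_QB_e R : (PP R).sym →ₗ[ℝ] R.P.sym × ℝ) ∘ₗ (PP R).cj ((PP R).el h : TT R) ∘ₗ
      ((K_QB_e R).symm : R.P.sym × ℝ →ₗ[ℝ] (PP R).sym) =
      LinearMap.prodMap (R.P.cj (R.P.el (cV R h).1 : R.T))
        (((cV R h).2 ^ 2) • (LinearMap.id : ℝ →ₗ[ℝ] ℝ)) := by
    rw [el_cV]
    apply LinearMap.ext
    intro x
    refine Prod.ext rfl ?_
    change (cV R h).2 * (x.2 * (cV R h).2) = (cV R h).2 ^ 2 * x.2
    ring
  rw [dq, ← LinearMap.det_conj _ (K_QB_e R), h1, LinearMap.det_prodMap, LinearMap.det_smul,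
    LinearMap.det_id, mul_one, Module.finrank_self, pow_one]
  rfl


end Pool.Agent.CGU
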