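import Pool.Agent.CGU.KWt
import Pool.Agent.CGQ.KFam
import Pool.Agent.CGQ.KFP
import Pool.Agent.CGQ.TDefs

/-!
# The Selberg polyhedron of a unitary group
-/

noncomputable section

set_option linter.unusedSectionVars false
set_option linter.unusedVariables false

namespace Pool.Agent.CGU

open NumberField IsDedekindDomain Pool.Agent.CGQ Pool.Agent.CG3
open Pool.Agent.CG2 (Pl Fv Ov PolySys)

variable {F : Type} [Field F] [NumberField F] {A : UD F} (R : RDat A)

/-- The levels which are used. -/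
def N0 : ℕ := (exists_N0 R).choose

theorem N0_ge : 3 ≤ N0 R := (exists_N0 R).choose_spec.1

theorem N0_inj {N : ℕ} (hN : N0 R ≤ N) (g : (sysU A).A) (h : (PP R).V)
    (hh : ∀ e ∈ LatE R g, 1 ≤ qe R e h) {x y : (sysU A).G} (hx : x ∈ LatE R g)
    (hy : y ∈ LatE R g) (hqx : qe R x h ≤ 9 / 8) (hqy : qe R y h ≤ 9 / 8)
    (hxy : clsE R N g x = clsE R N g y) : x = y :=
  (exists_N0 R).choose_spec.2 N hN g h hh x hx y hy hqx hqy hxy

section fields

variable (N : ℕ) (hN : N0 R ≤ N) (C : Cls A N → ℝ) (hC : GoodC R N C)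
  (g : (sysU A).A)

/-- The constants. -/
def cA (N : ℕ) (C : Cls A N → ℝ) (g : (sysU A).A) (e : (sysU A).G) : ℝ := C (clsE R N g e)

include hC in
theorem cA_lt (e : (sysU A).G) : 1 < cA R N C g e ∧ cA R N C g e < 9 / 8 := hC.1 _

theorem qe_pos (e : (sysU A).G) : qe R e ∈ (PP R).KPos := (PP R).unit_kpos (thP R e)

include hC in
theorem ks_one {h : (PP R).V} (hh : ∀ e ∈ LatE R g, cA R N C g e ≤ qe R e h) :
    ∀ e ∈ LatE R g, 1 ≤ qe R e h := fun e he => (cA_lt R N C hC g e).1.le.trans (hh e he)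

include hN hC in
theorem ks_inj (h : (PP R).V) (hh : ∀ e ∈ LatE R g, cA R N C g e ≤ qe R e h)
    {x y : (sysU A).G} (hx : x ∈ LatE R g) (hy : y ∈ LatE R g) (hqx : qe R x h = cA R N C g x)
    (hqy : qe R y h = cA R N C g y) (hxy : clsE R N g x = clsE R N g y) : x = y := by
  refine N0_inj R hN g h (ks_one R N C hC g hh) hx hy ?_ ?_ hxy
  · rw [hqx]
    exact (cA_lt R N C hC g x).2.le
  · rw [hqy]
    exact (cA_lt R N C hC g y).2.le

theorem ks_ctbl : (LatE R g).Countable := by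
  have h3 := countable_G A
  exact Set.to_countable _

include hC in
theorem ks_ne : {h : (PP R).V | ∀ e ∈ LatE R g, cA R N C g e ≤ qe R e h}.Nonempty := by
  obtain ⟨h, _, h2⟩ := exists_large R
  refine ⟨h, fun e he => ?_⟩
  have h3 := (cA_lt R N C hC g e).2
  have h4 := h2 e
  linarith

include hC in
theorem ks_pd (h : (PP R).V) (hh : ∀ e ∈ LatE R g, cA R N C g e ≤ qe R e h) : (PP R).PD h :=
  pd_of R g h (ks_one R N C hC g hh)

include hC in
theorem ks_comp : ∀ l ∈ (PP R).KPos, ∀ t : ℝ,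
    IsCompact {h : (PP R).V | (∀ e ∈ LatE R g, cA R N C g e ≤ qe R e h) ∧ l h ≤ t} := by
  intro l hl t
  refine Metric.isCompact_of_isClosed_isBounded ?_ ?_
  · have h1 : {h : (PP R).V | (∀ e ∈ LatE R g, cA R N C g e ≤ qe R e h) ∧ l h ≤ t} =
        (⋂ e ∈ LatE R g, {h : (PP R).V | cA R N C g e ≤ qe R e h}) ∩
          {h : (PP R).V | l h ≤ t} := by
      ext h
      simp only [Set.mem_ofPred_eq, Set.mem_inter_iff, Set.mem_iInter]
    rw [h1]
    refine IsClosed.inter (isClosed_biInter fun e _ => ?_) ?_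
    · exact isClosed_le continuous_const (qe R e).continuous
    · exact isClosed_le l.continuous continuous_const
  · refine (PA.kpos_bounded hl t).subset ?_
    rintro h ⟨h1, h2⟩
    exact ⟨(ks_pd R N C hC g h h1).psd, h2⟩

include hC in
theorem ks_locfin : ∀ h : (PP R).V, (∀ e ∈ LatE R g, cA R N C g e ≤ qe R e h) →
    ∃ U ∈ nhds h, {e | e ∈ LatE R g ∧ ∃ h' ∈ U, qe R e h' ≤ cA R N C g e}.Finite := by
  intro h hh
  obtain ⟨U, hU, hfin⟩ := LatE_locfin R g h (ks_one R N C hC g hh)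
  refine ⟨U, hU, hfin.subset ?_⟩
  rintro x ⟨hx, h', hh', hq⟩
  exact ⟨hx, h', hh', hq.trans (cA_lt R N C hC g x).2.le⟩

include hN hC in
theorem ks_indep : ∀ h : (PP R).V, (∀ e ∈ LatE R g, cA R N C g e ≤ qe R e h) →
    LinearIndependent ℝ
      (fun e : {e // e ∈ LatE R g ∧ qe R e h = cA R N C g e} => qe R e.1) := by
  intro h hh
  rw [linearIndependent_iff_finset_linearIndependent]
  intro s
  have hinj : Function.Injective (Subtype.val :
      {e : (sysU A).G // e ∈ LatE R g ∧ qe R e h = cA R N C g e} → (sysU A).G) :=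
    Subtype.val_injective
  have h1 := hC.2 (s.map ⟨Subtype.val, hinj⟩) (fun e => clsE R N g e) (by
    intro x hx y hy hxy
    simp only [Finset.coe_map, Function.Embedding.coeFn_mk, Set.mem_image, Finset.mem_coe] at hx hy
    obtain ⟨x', _, rfl⟩ := hx
    obtain ⟨y', _, rfl⟩ := hy
    exact ks_inj R N hN C hC g h hh x'.2.1 y'.2.1 x'.2.2 y'.2.2 hxy) h (by
    intro x hx
    simp only [Finset.mem_map, Function.Embedding.coeFn_mk] at hx
    obtain ⟨x', _, rfl⟩ := hx
    exact x'.2.2)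
  let f : s → {x : (sysU A).G // x ∈ s.map ⟨Subtype.val, hinj⟩} := fun x =>
    ⟨x.1.1, Finset.mem_map.2 ⟨x.1, x.2, rfl⟩⟩
  have hf : Function.Injective f := by
    intro a b hab
    apply Subtype.ext
    apply Subtype.ext
    have h2 := Subtype.ext_iff.1 hab
    exact h2
  exact h1.comp f hf

include hC in
theorem ks_unb : ¬ Bornology.IsBounded
    {h : (PP R).V | ∀ e ∈ LatE R g, cA R N C g e ≤ qe R e h} := by
  intro hb
  obtain ⟨h, hpd, h2⟩ := exists_large R
  have hne : h ≠ 0 := by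
    rintro rfl
    have h1 := h2 1
    rw [map_zero] at h1
    linarith
  obtain ⟨B, hB⟩ := hb.exists_norm_le
  have hpos : 0 < ‖h‖ := norm_pos_iff.2 hne
  obtain ⟨n, hn⟩ := exists_nat_gt (B / ‖h‖)
  have h3 : ((n : ℝ) + 1) • h ∈ {h : (PP R).V | ∀ e ∈ LatE R g, cA R N C g e ≤ qe R e h} := by
    intro e he
    have h4 := h2 e
    have h5 := (cA_lt R N C hC g e).2
    rw [map_smul, smul_eq_mul]
    have h6 : (0 : ℝ) ≤ n := Nat.cast_nonneg n
    nlinarith
  have h4 := hB _ h3
  rw [norm_smul, Real.norm_eq_abs, abs_of_nonneg (by positivity)] at h4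
  rw [div_lt_iff₀ hpos] at hn
  nlinarith

/-- The Selberg polyhedron at `g`. -/
def koeU : PolySys (sysU A).G (PP R).V where
  A := LatE R g
  q := qe R
  c := cA R N C g
  Pos := (PP R).KPos
  ctbl := ks_ctbl R g
  ne := ks_ne R N C hC g
  pos_ne := ⟨qe R 1, qe_pos R 1⟩
  comp := ks_comp R N C hC g
  locfin := ks_locfin R N C hC g
  indep := ks_indep R N hN C hC g
  pos_open := PA.kpos_open
  pos_add := fun _ hl _ _ _ ha => PA.kpos_add hl _ ha
  pos_smul := fun _ hl _ ha => PA.kpos_smul hl ha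
  unb := ks_unb R N C hC g

theorem koeU_cell_iff (T : Finset (sysU A).G) : (koeU R N hN C hC g).Cell T ↔
    (koeU R N hN C hC g).Face T ∧ T.Nonempty := by
  refine and_congr_right fun _ => ?_
  change (∑ e ∈ T, qe R e) ∈ (PP R).KPos ↔ _
  constructor
  · intro h
    rw [Finset.nonempty_iff_ne_empty]
    rintro rfl
    obtain ⟨h1, hpd, hh1⟩ := exists_large R
    have hne : h1 ≠ 0 := by
      rintro rfl
      have h3 := hh1 1
      rw [map_zero] at h3
      linarith
    have h2 := h h1 hpd.psd hne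
    rw [Finset.sum_empty] at h2
    exact lt_irrefl _ h2
  · rintro ⟨e, he⟩ h hh h0
    rw [_root_.sum_apply]
    exact Finset.sum_pos (fun e _ => qe_pos R e h hh h0) ⟨e, he⟩

end fields

/-- One less than the dimension. -/
def nU : ℕ := Module.finrank ℝ R.P.sym

/-- A basis of `V`. -/
def basU : Module.Basis (Fin (nU R + 1)) ℝ (PP R).V :=
  Module.finBasisOfFinrankEq ℝ (PP R).V (by
    rw [Module.finrank_fin_fun, finrank_PP]
    rfl)

section act

variable (N : ℕ) (hN : N0 R ≤ N) (C : Cls A N → ℝ) (hC : GoodC R N C)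

private theorem kys_face (g : (sysU A).A) (T : Finset (sysU A).G) :
    (koeU R N hN C hC g).Face T ↔ (∀ x ∈ T, x ∈ LatE R g) ∧ ∃ h : (PP R).V,
      (∀ x ∈ LatE R g, cA R N C g x ≤ qe R x h) ∧ ∀ x ∈ T, qe R x h = cA R N C g x := by
  constructor
  · rintro ⟨h1, h, h2, h3⟩
    exact ⟨h1, h, h2, h3⟩
  · rintro ⟨h1, h, h2, h3⟩
    exact ⟨h1, h, h2, h3⟩

private theorem kys_c (N : ℕ) (C : Cls A N → ℝ) (γ : (sysU A).G) (g : (sysU A).A)
    (x : (sysU A).G) : cA R N C (diag γ * g) (γ * x) = cA R N C g x :=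
  congrArg C (clsE_diag R N γ x g)

private theorem kys_le (γ : (sysU A).G) (g : (sysU A).A) (T : Finset (sysU A).G)
    (hT : (koeU R N hN C hC g).Face T) :
    (koeU R N hN C hC (diag γ * g)).Face (Sel.mp (MulAction.toPerm γ) T) := by
  rw [kys_face] at hT ⊢
  obtain ⟨h1, h, h2, h3⟩ := hT
  have hmem : ∀ x ∈ Sel.mp (MulAction.toPerm γ) T, γ⁻¹ * x ∈ T := by
    intro x hx
    rw [Sel.mem_mp] at hx
    exact hx
  refine ⟨fun x hx => ?_, actU R γ h, fun x hx => ?_, fun x hx => ?_⟩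
  · have h5 := (mem_LatE_diag R γ (γ⁻¹ * x) g).2 (h1 _ (hmem x hx))
    rwa [mul_inv_cancel_left] at h5
  · have h5 : γ⁻¹ * x ∈ LatE R g := by
      rw [← mem_LatE_diag R γ, mul_inv_cancel_left]
      exact hx
    have h7 := h2 _ h5
    rwa [← kys_c R N C γ g, ← actU_q R γ, mul_inv_cancel_left] at h7
  · have h7 := h3 _ (hmem x hx)
    rwa [← kys_c R N C γ g, ← actU_q R γ, mul_inv_cancel_left] at h7

theorem koeU_face_smul (γ : (sysU A).G) (g : (sysU A).A) (T : Finset (sysU A).G) :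
    (koeU R N hN C hC (diag γ * g)).Face (Sel.mp (MulAction.toPerm γ) T) ↔
      (koeU R N hN C hC g).Face T := by
  refine ⟨fun h => ?_, kys_le R N hN C hC γ g T⟩
  have h1 := kys_le R N hN C hC γ⁻¹ _ _ h
  have h2 : diag γ⁻¹ * (diag γ * g) = g := by
    rw [← mul_assoc, ← map_mul, inv_mul_cancel, map_one, one_mul]
  have h3 : Sel.mp (MulAction.toPerm γ⁻¹) (Sel.mp (MulAction.toPerm γ) T) = T := by
    ext x
    rw [Sel.mem_mp, Sel.mem_mp]
    change γ⁻¹ • ((γ⁻¹)⁻¹ • x) ∈ T ↔ x ∈ T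
    rw [inv_inv, inv_smul_smul]
  rwa [h2, h3] at h1

theorem koeU_face_mul (g : (sysU A).A) {k : (sysU A).A} (hk : k ∈ KNA A N)
    (T : Finset (sysU A).G) :
    (koeU R N hN C hC (g * k)).Face T ↔ (koeU R N hN C hC g).Face T := by
  have hN0 : N ≠ 0 := by
    have := N0_ge R
    omega
  have hLE : LatE R (g * k) = LatE R g := LatE_mul R g fun v => (hk v).1
  have hc : ∀ x ∈ LatE R g, cA R N C (g * k) x = cA R N C g x := fun x hx =>
    congrArg C (clsE_mul R N hN0 g hk hx)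
  rw [kys_face, kys_face, hLE]
  refine and_congr_right fun h1 => exists_congr fun h => and_congr ?_ ?_
  · refine forall_congr' fun x => ⟨fun H hx => ?_, fun H hx => ?_⟩
    · rw [← hc x hx]
      exact H hx
    · rw [hc x hx]
      exact H hx
  · refine forall_congr' fun x => ⟨fun H hx => ?_, fun H hx => ?_⟩
    · rw [← hc x (h1 x hx)]
      exact H hx
    · rw [hc x (h1 x hx)]
      exact H hx

theorem koeU_free (γ : (sysU A).G) (g k : (sysU A).A) (hk : k ∈ KNA A N)
    (hγ : diag γ * g = g * k) (T : Finset (sysU A).G) (hT : (koeU R N hN C hC g).Cell T)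
    (hf : Sel.mp (MulAction.toPerm γ) T = T) : γ = 1 := by
  have hN0 : N ≠ 0 := by
    have := N0_ge R
    omega
  obtain ⟨hF, x, hx⟩ := (koeU_cell_iff R N hN C hC g T).1 hT
  obtain ⟨hA, h, hh, ht⟩ := (kys_face R N hN C hC g T).1 hF
  have hγx : γ * x ∈ T := by
    have h0 : γ * x ∈ Sel.mp (MulAction.toPerm γ) T := by
      rw [Sel.mem_mp]
      change γ⁻¹ * (γ * x) ∈ T
      rwa [inv_mul_cancel_left]
    rwa [hf] at h0
  have h1 : clsE R N g (γ * x) = clsE R N g x := by
    rw [← clsE_mul R N hN0 g hk (hA _ hγx), ← hγ]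
    exact clsE_diag R N γ x g
  have h2 := ks_inj R N hN C hC g h hh (hA _ hγx) (hA _ hx) (ht _ hγx) (ht _ hx) h1
  exact mul_eq_right.1 h2

/-- The equivariant family of polyhedra. -/
def famU : PFam (sysU A) (KNA A N) (sysU A).G (PP R).V where
  P g := koeU R N hN C hC g
  q := qe R
  hq _ := rfl
  Pos := (PP R).KPos
  hPos _ := rfl
  n0 := nU R
  bas := basU R
  act := actU R
  act_q := actU_q R
  sg := epsU A
  act_det := dt_sign R
  cell_iff g T := koeU_cell_iff R N hN C hC g T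
  face_smul := koeU_face_smul R N hN C hC
  face_mul := fun g _ hk T => koeU_face_mul R N hN C hC g hk T
  free := fun γ g k hk h T hT hf => koeU_free R N hN C hC γ g k hk h T hT hf

end act

end Pool.Agent.CGU
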