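import Pool.Agent.CGU.KRd
import Pool.Agent.CGU.KLL

/-!
# The trace form on `B ⊗ ℝ` and the majorants
-/

noncomputable section

set_option linter.unusedSectionVars false
set_option linter.unusedVariables false

namespace Pool.Agent.CGU

open NumberField IsDedekindDomain
open Pool.Agent.CG2 (Pl Fv Ov)
open Pool.Agent.CGQ (Sys PA)
open Pool.Agent.CGN (SC)

variable {F : Type} [Field F] [NumberField F] {A : UD F}

/-- The involution of `B ⊗ ℝ` as a linear map. -/
def starL (A : UD F) : BInf A →ₗ[ℝ] BInf A where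
  toFun := star
  map_add' := star_add
  map_smul' := BInf.star_smul

/-- The trace of the left multiplication by `z`, symmetrised. -/
def tf (A : UD F) : BInf A →ₗ[ℝ] ℝ :=
  LinearMap.trace ℝ (BInf A) ∘ₗ LinearMap.mul ℝ (BInf A) +
    LinearMap.trace ℝ (BInf A) ∘ₗ LinearMap.mul ℝ (BInf A) ∘ₗ starL A

theorem tf_apply (z : BInf A) : tf A z =
    LinearMap.trace ℝ (BInf A) (LinearMap.mulLeft ℝ z) +
      LinearMap.trace ℝ (BInf A) (LinearMap.mulLeft ℝ (star z)) := rfl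

theorem tf_star (z : BInf A) : tf A (star z) = tf A z := by
  rw [tf_apply, tf_apply, star_star, add_comm]

variable (R : RDat A)

/-- The trace of the left multiplication by `z` on `N`, symmetrised. -/
def tn (z : R.N) : ℝ := LinearMap.trace ℝ R.N (LinearMap.mulLeft ℝ z) +
  LinearMap.trace ℝ R.N (LinearMap.mulLeft ℝ (star z))

theorem tn_star (z : R.N) : tn R (star z) = tn R z := by
  rw [tn, tn, star_star, add_comm]

theorem tn_pos (x : R.N) (hx : x ≠ 0) : 0 < tn R (star x * x) := by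
  have h := R.pos x hx
  rw [tn, star_mul, star_star]
  linarith


/-- PROOF. Every element of `N` is `π y` (`R.bij`); `π` is `ℝ`-linear, `π_star`, `BInf.star_smul`. -/
theorem star_smul_N (r : ℝ) (x : R.N) : star (r • x) = r • star x := by
  obtain ⟨y, hy⟩ := R.bij.2 (0, 0, x)
  have hπ : R.π y = x := congrArg (fun z : R.T × R.T × R.N => z.2.2) hy
  rw [← hπ, ← map_smul, ← R.π_star, ← R.π_star, BInf.star_smul, map_smul]

theorem tn_add (x y : R.N) : tn R (x + y) = tn R x + tn R y := by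
  have h1 : tn R (x + y) = LinearMap.trace ℝ R.N (LinearMap.mul ℝ R.N (x + y)) +
    LinearMap.trace ℝ R.N (LinearMap.mul ℝ R.N (star (x + y))) := rfl
  have h2 : tn R x = LinearMap.trace ℝ R.N (LinearMap.mul ℝ R.N x) +
    LinearMap.trace ℝ R.N (LinearMap.mul ℝ R.N (star x)) := rfl
  have h3 : tn R y = LinearMap.trace ℝ R.N (LinearMap.mul ℝ R.N y) +
    LinearMap.trace ℝ R.N (LinearMap.mul ℝ R.N (star y)) := rfl
  rw [h1, h2, h3, star_add, map_add, map_add, map_add, map_add]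
  ring

theorem tn_smul (r : ℝ) (x : R.N) : tn R (r • x) = r * tn R x := by
  have h1 : tn R (r • x) = LinearMap.trace ℝ R.N (LinearMap.mul ℝ R.N (r • x)) +
    LinearMap.trace ℝ R.N (LinearMap.mul ℝ R.N (star (r • x))) := rfl
  have h2 : tn R x = LinearMap.trace ℝ R.N (LinearMap.mul ℝ R.N x) +
    LinearMap.trace ℝ R.N (LinearMap.mul ℝ R.N (star x)) := rfl
  rw [h1, h2, star_smul_N, map_smul, map_smul, map_smul, map_smul, smul_eq_mul, smul_eq_mul]
  ring



/-- The bijection as a linear equivalence. -/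
private def K_TA2_e : BInf A ≃ₗ[ℝ] R.T × R.T × R.N :=
  LinearEquiv.ofBijective
    { toFun := fun x => (R.Θ x, R.Θ (star x), R.π x)
      map_add' := fun x y => by rw [star_add, map_add, map_add, map_add]; rfl
      map_smul' := fun r x => by rw [BInf.star_smul, map_smul, map_smul, map_smul]; rfl } R.bij

private theorem K_TA2_e_apply (x : BInf A) : K_TA2_e R x = (R.Θ x, R.Θ (star x), R.π x) := rfl

private theorem K_TA2_tr (z : BInf A) : LinearMap.trace ℝ (BInf A) (LinearMap.mulLeft ℝ z) =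
    LinearMap.trace ℝ R.T (LinearMap.mulLeft ℝ (R.Θ z)) +
      (LinearMap.trace ℝ R.T (LinearMap.mulRight ℝ (R.Θ (star z))) +
        LinearMap.trace ℝ R.N (LinearMap.mulLeft ℝ (R.π z))) := by
  rw [← LinearMap.trace_prodMap', ← LinearMap.trace_prodMap',
    ← LinearMap.trace_conj' (LinearMap.mulLeft ℝ z) (K_TA2_e R)]
  congr 1
  apply LinearMap.ext
  intro w
  obtain ⟨y, rfl⟩ := (K_TA2_e R).surjective w
  rw [LinearEquiv.conj_apply_apply, LinearEquiv.symm_apply_apply, LinearMap.mulLeft_apply,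
    K_TA2_e_apply, K_TA2_e_apply, star_mul, map_mul, map_mul, map_mul]
  rfl

/-- PROOF. The bijection `Ψ = R.bij` is linear, `Ψ (z y) = (Θ z * Θ y, Θ (star y) * Θ (star z), π z * π y)`. So the left
multiplication by `z` is conjugate to the product of the left multiplication by `Θ z` on `T`, of the RIGHT
multiplication by `Θ (star z)` on `T`, and of the left multiplication by `π z` on `N`
(`LinearMap.trace_conj'`, `LinearMap.trace_prodMap'`). Add the same for `star z` and use `R.reg`, `sgm_apply`. -/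
theorem tf_eq (z : BInf A) :
    tf A z = R.P.tau (R.Θ z) + R.P.tau (R.Θ (star z)) + tn R (R.π z) := by
  rw [tf_apply, K_TA2_tr, K_TA2_tr, star_star, R.reg, R.reg, sgm_apply, sgm_apply, tn, R.π_star]
  ring


/-- The majorant of the trace form attached to `h` as a bilinear form. -/
def Qf (h : R.P.V) (x y : BInf A) : ℝ :=
  R.P.tau (R.Θ (star x) * ((R.P.el (hI R.P h) : R.T) * R.P.inv (R.Θ (star y)))) +
    R.P.tau (R.P.inv (R.Θ y) * ((R.P.el h : R.T) * R.Θ x)) + tn R (R.π (star x * y))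

/-- The majorant as a quadratic form. -/
def Qd (h : R.P.V) (x : BInf A) : ℝ := Qf R h x x


private theorem K_TB1_nn (p : R.N) : 0 ≤ tn R (star p * p) := by
  by_cases hp : p = 0
  · rw [hp, mul_zero]
    have h1 := tn_smul R 0 (0 : R.N)
    rw [zero_smul, zero_mul] at h1
    exact h1.ge
  · exact (tn_pos R p hp).le

/-- PROOF. `R.P.tau_inv`, `R.P.inv_mul`, `R.P.inv_el`, `tn_star`. -/
theorem Qf_comm (h : R.P.V) (x y : BInf A) : Qf R h x y = Qf R h y x := by
  have h1 : R.P.tau (R.Θ (star x) * ((R.P.el (hI R.P h) : R.T) * R.P.inv (R.Θ (star y)))) =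
      R.P.tau (R.Θ (star y) * ((R.P.el (hI R.P h) : R.T) * R.P.inv (R.Θ (star x)))) := by
    rw [← R.P.tau_inv, R.P.inv_mul, R.P.inv_mul, R.P.inv_inv, R.P.inv_el, mul_assoc]
  have h2 : R.P.tau (R.P.inv (R.Θ y) * ((R.P.el h : R.T) * R.Θ x)) =
      R.P.tau (R.P.inv (R.Θ x) * ((R.P.el h : R.T) * R.Θ y)) := by
    rw [← R.P.tau_inv, R.P.inv_mul, R.P.inv_mul, R.P.inv_inv, R.P.inv_el, mul_assoc]
  have h3 : tn R (R.π (star x * y)) = tn R (R.π (star y * x)) := by
    rw [← tn_star, ← R.π_star, star_mul, star_star]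
  rw [Qf, Qf, h1, h2, h3]

theorem Qf_add (h : R.P.V) (x y z : BInf A) : Qf R h x (y + z) = Qf R h x y + Qf R h x z := by
  rw [Qf, Qf, Qf, star_add, map_add, map_add, map_add, map_add, mul_add, mul_add, add_mul,
    map_add, map_add, mul_add, map_add, tn_add]
  ring

theorem Qf_smul (h : R.P.V) (r : ℝ) (x y : BInf A) : Qf R h x (r • y) = r * Qf R h x y := by
  rw [Qf, Qf, BInf.star_smul, map_smul, map_smul, map_smul, map_smul, mul_smul_comm, mul_smul_comm,
    smul_mul_assoc, map_smul, map_smul, mul_smul_comm, map_smul, tn_smul, smul_eq_mul, smul_eq_mul]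
  ring

/-- PROOF. `PA.q_mul`. -/
theorem Qd_eq (h : R.P.V) (x : BInf A) : Qd R h x =
    R.P.q (R.P.inv (R.Θ (star x))) (hI R.P h) + R.P.q (R.Θ x) h +
      tn R (star (R.π x) * R.π x) := by
  rw [Qd, Qf, R.P.q_mul, R.P.q_mul, R.P.inv_inv, map_mul R.π, R.π_star]

/-- PROOF. `Qd_eq`, `hI_pd`; `x ≠ 0` so one of `Θ x`, `Θ (star x)`, `π x` is not `0` (`R.bij`). -/
theorem Qd_pos {h : R.P.V} (hh : R.P.PD h) {x : BInf A} (hx : x ≠ 0) : 0 < Qd R h x := by
  rw [Qd_eq]
  have h1 := (hI_pd R.P hh).psd (R.P.inv (R.Θ (star x)))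
  have h2 := hh.psd (R.Θ x)
  have h3 := K_TB1_nn R (R.π x)
  by_cases e1 : R.Θ x = 0
  · by_cases e2 : R.Θ (star x) = 0
    · have e3 : R.π x ≠ 0 := by
        intro e3
        apply hx
        apply R.bij.1
        show (R.Θ x, R.Θ (star x), R.π x) = (R.Θ 0, R.Θ (star 0), R.π 0)
        rw [e1, e2, e3, star_zero, map_zero, map_zero]
      have h4 := tn_pos R _ e3
      linarith
    · have e4 : R.P.inv (R.Θ (star x)) ≠ 0 := by
        intro e4
        apply e2
        rw [← R.P.inv_inv (R.Θ (star x)), e4, map_zero]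
      have h4 := hI_pd R.P hh _ e4
      linarith
  · have h4 := hh _ e1
    linarith



/-- PROOF. `J y` is the element with `Θ (J y) = k * inv (Θ (star y))`, `Θ (star (J y)) = inv (Θ y) * el h`,
`π (J y) = π y`, where `k = el (hI h)` is the inverse of `el h` (`R.bij`; `J` is linear). Then `J (J y) = y` and
`tf (star x * J y) = tau (Θ (star x) * Θ (J y)) + tau (Θ (star (J y)) * Θ x) + tn (star (π x) * π y)` (`tf_eq`). -/
theorem exists_J {h : R.P.V} (hh : R.P.PD h) : ∃ J : BInf A →ₗ[ℝ] BInf A,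
    J ∘ₗ J = LinearMap.id ∧ ∀ x y, tf A (star x * J y) = Qf R h x y := by
  let L : BInf A →ₗ[ℝ] R.T × R.T × R.N :=
    LinearMap.prod
      (LinearMap.mulLeft ℝ (R.P.el (hI R.P h) : R.T) ∘ₗ R.P.inv ∘ₗ R.Θ.toLinearMap ∘ₗ starL A)
      (LinearMap.prod (LinearMap.mulRight ℝ (R.P.el h : R.T) ∘ₗ R.P.inv ∘ₗ R.Θ.toLinearMap)
        R.π.toLinearMap)
  have hL : ∀ y, L y = ((R.P.el (hI R.P h) : R.T) * R.P.inv (R.Θ (star y)),
      R.P.inv (R.Θ y) * (R.P.el h : R.T), R.π y) := fun _ => rfl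
  let J : BInf A →ₗ[ℝ] BInf A := (K_TA2_e R).symm.toLinearMap ∘ₗ L
  have hJ : ∀ y, K_TA2_e R (J y) = L y := fun y => (K_TA2_e R).apply_symm_apply _
  have h1 : ∀ y, R.Θ (J y) = (R.P.el (hI R.P h) : R.T) * R.P.inv (R.Θ (star y)) := fun y =>
    congrArg (fun z : R.T × R.T × R.N => z.1) (hJ y)
  have h2 : ∀ y, R.Θ (star (J y)) = R.P.inv (R.Θ y) * (R.P.el h : R.T) := fun y =>
    congrArg (fun z : R.T × R.T × R.N => z.2.1) (hJ y)
  have h3 : ∀ y, R.π (J y) = R.π y := fun y =>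
    congrArg (fun z : R.T × R.T × R.N => z.2.2) (hJ y)
  refine ⟨J, ?_, fun x y => ?_⟩
  · apply LinearMap.ext
    intro y
    apply (K_TA2_e R).injective
    show K_TA2_e R (J (J y)) = K_TA2_e R y
    have e1 : R.Θ (J (J y)) = R.Θ y := by
      rw [h1, h2, R.P.inv_mul, R.P.inv_inv, R.P.inv_el, ← mul_assoc, hI_mul R.P hh, one_mul]
    have e2 : R.Θ (star (J (J y))) = R.Θ (star y) := by
      rw [h2, h1, R.P.inv_mul, R.P.inv_inv, R.P.inv_el, mul_assoc, hI_mul R.P hh, mul_one]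
    rw [K_TA2_e_apply, K_TA2_e_apply, e1, e2, h3, h3]
  · rw [tf_eq, star_mul, star_star, map_mul R.Θ, map_mul R.Θ, h1, h2, map_mul R.π, h3, Qf,
      map_mul R.π, mul_assoc]



private theorem K_TC1_bil {V W : Type} [NormedAddCommGroup V] [NormedSpace ℝ V]
    [FiniteDimensional ℝ V] [NormedAddCommGroup W] [NormedSpace ℝ W] (B : V →ₗ[ℝ] V →ₗ[ℝ] W) :
    ∃ B' : V →L[ℝ] V →L[ℝ] W, ∀ x y, B' x y = B x y := by
  refine ⟨LinearMap.toContinuousLinearMap
    ((LinearMap.toContinuousLinearMap (𝕜 := ℝ) (E := V) (F' := W)).toLinearMap ∘ₗ B), ?_⟩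
  intro x y
  rfl

private theorem K_TC1_gen {V : Type} [NormedAddCommGroup V] [NormedSpace ℝ V]
    [FiniteDimensional ℝ V] (B : V → V → ℝ) (hc : ∀ x y, B x y = B y x)
    (ha : ∀ x y z, B x (y + z) = B x y + B x z) (hs : ∀ (r : ℝ) x y, B x (r • y) = r * B x y)
    (hp : ∀ x, x ≠ 0 → 0 < B x x) :
    ∃ c C : ℝ, 0 < c ∧ 0 < C ∧ ∀ x, c * ‖x‖ ^ 2 ≤ B x x ∧ B x x ≤ C * ‖x‖ ^ 2 := by
  obtain ⟨B', hB'⟩ := K_TC1_bil (LinearMap.mk₂ ℝ B
    (fun x y z => by rw [hc, ha, hc z x, hc z y]) (fun r x y => by rw [hc, hs, hc y x]; rfl)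
    (fun x y z => ha x y z) (fun r x y => hs r x y))
  have hB : ∀ x y, B' x y = B x y := fun x y => hB' x y
  have hupper : ∀ x, B x x ≤ (‖B'‖ + 1) * ‖x‖ ^ 2 := by
    intro x
    have h1 := ContinuousLinearMap.le_opNorm₂ B' x x
    rw [hB, Real.norm_eq_abs] at h1
    have h2 := le_abs_self (B x x)
    have h3 : 0 ≤ ‖x‖ ^ 2 := by positivity
    nlinarith
  have hpos : 0 < ‖B'‖ + 1 := by positivity
  by_cases hn : ∃ v : V, v ≠ 0
  · obtain ⟨v, hv⟩ := hn
    have hcont : Continuous fun x : V => B x x := by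
      have h1 : (fun x : V => B x x) = fun x => B' x x := funext fun x => (hB x x).symm
      rw [h1]
      exact (B'.continuous.clm_apply continuous_id)
    have hfin : FiniteDimensional ℝ V := inferInstance
    have : ProperSpace V := FiniteDimensional.proper ℝ V
    have hne : (Metric.sphere (0 : V) 1).Nonempty := by
      refine ⟨‖v‖⁻¹ • v, ?_⟩
      rw [mem_sphere_zero_iff_norm, norm_smul, norm_inv, norm_norm,
        inv_mul_cancel₀ (norm_ne_zero_iff.2 hv)]
    obtain ⟨u, hu, hmin⟩ := (isCompact_sphere (0 : V) 1).exists_isMinOn hne hcont.continuousOn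
    have hu1 : ‖u‖ = 1 := by rwa [mem_sphere_zero_iff_norm] at hu
    have hu0 : u ≠ 0 := by
      rintro rfl
      rw [norm_zero] at hu1
      exact zero_ne_one hu1
    refine ⟨B u u, ‖B'‖ + 1, hp u hu0, hpos, fun x => ⟨?_, hupper x⟩⟩
    by_cases hx : x = 0
    · have h1 := hs 0 x x
      rw [zero_smul, zero_mul] at h1
      rw [hx] at h1 ⊢
      rw [h1, norm_zero]
      norm_num
    · have hnx : ‖x‖ ≠ 0 := norm_ne_zero_iff.2 hx
      have h1 : ‖x‖⁻¹ • x ∈ Metric.sphere (0 : V) 1 := by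
        rw [mem_sphere_zero_iff_norm, norm_smul, norm_inv, norm_norm, inv_mul_cancel₀ hnx]
      have h2 : B u u ≤ B (‖x‖⁻¹ • x) (‖x‖⁻¹ • x) := hmin h1
      rw [hs, hc (‖x‖⁻¹ • x) x, hs] at h2
      have h3 : 0 < ‖x‖ ^ 2 := by positivity
      have h4 : ‖x‖⁻¹ * (‖x‖⁻¹ * B x x) * ‖x‖ ^ 2 = B x x := by
        field_simp
      calc B u u * ‖x‖ ^ 2 ≤ ‖x‖⁻¹ * (‖x‖⁻¹ * B x x) * ‖x‖ ^ 2 :=
            mul_le_mul_of_nonneg_right h2 h3.le
        _ = B x x := h4
  · push Not at hn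
    refine ⟨1, 1, one_pos, one_pos, fun x => ?_⟩
    have h1 := hs 0 x x
    rw [zero_smul, zero_mul, ← hn x] at h1
    rw [h1, hn x, norm_zero]
    norm_num

private theorem K_TC1_abs {V : Type} [AddCommGroup V] [Module ℝ V] [FiniteDimensional ℝ V]
    (N : V → ℝ) (n0 : ∀ x, N x = 0 ↔ x = 0) (nadd : ∀ x y, N (x + y) ≤ N x + N y)
    (nsmul : ∀ (r : ℝ) x, N (r • x) = |r| * N x)
    (B : V → V → ℝ) (hc : ∀ x y, B x y = B y x)
    (ha : ∀ x y z, B x (y + z) = B x y + B x z) (hs : ∀ (r : ℝ) x y, B x (r • y) = r * B x y)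
    (hp : ∀ x, x ≠ 0 → 0 < B x x) :
    ∃ c C : ℝ, 0 < c ∧ 0 < C ∧ ∀ x, c * N x ^ 2 ≤ B x x ∧ B x x ≤ C * N x ^ 2 := by
  let G : AddGroupNorm V :=
    { toFun := N
      map_zero' := (n0 0).2 rfl
      add_le' := nadd
      neg' := fun x => by
        have h := nsmul (-1) x
        rwa [neg_one_smul, abs_neg, abs_one, one_mul] at h
      eq_zero_of_map_eq_zero' := fun x h => (n0 x).1 h }
  let i1 : NormedAddCommGroup V := G.toNormedAddCommGroup
  let i2 : NormedSpace ℝ V := { norm_smul_le := fun r x => (nsmul r x).le }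
  exact K_TC1_gen B hc ha hs hp

/-- PROOF. `Qd_eq` for `oneV` (`hI oneV = oneV`: its `el` is the inverse of `1`; `q_oneV`); `Qd R oneV` is a positive
definite quadratic form on a finite dimensional space, so it is equivalent to the square of the norm `nB`
(compactness of the unit sphere, see the proof of `CGN.sz_equiv`). -/
theorem Q1_equiv : ∃ c C : ℝ, 0 < c ∧ 0 < C ∧ ∀ x : BInf A,
    c * nB x ^ 2 ≤ Qd R (oneV R.P) x ∧ Qd R (oneV R.P) x ≤ C * nB x ^ 2 := by
  have hI1 : hI R.P (oneV R.P) = oneV R.P := by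
    apply R.P.el_inj
    have h1 := hI_mul R.P (oneV_pd R.P)
    rw [el_oneV, mul_one] at h1
    rw [h1, el_oneV]
  obtain ⟨c, C, hc, hC, h⟩ := K_TC1_abs (nB : BInf A → ℝ) (fun x => nB_eq_zero) nB_add nB_smul
    (Qf R (oneV R.P)) (Qf_comm R _) (Qf_add R _) (fun r x y => Qf_smul R _ r x y)
    (fun x hx => Qd_pos R (oneV_pd R.P) hx)
  exact ⟨c, C, hc, hC, h⟩



/-- PROOF. `p ↦ tn (star p * p)` is a positive definite quadratic form on `N` (`tn_pos`, `tn_add`, `tn_smul`), so it is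
equivalent to the square of a norm; `(p, q) ↦ star p * q` is bilinear. -/
theorem tn_mul_le : ∃ C : ℝ, 0 ≤ C ∧ ∀ p q : R.N,
    tn R (star (star p * q) * (star p * q)) ≤ C * (tn R (star p * p) * tn R (star q * q)) := by
  let e : R.N ≃ₗ[ℝ] (Fin (Module.finrank ℝ R.N) → ℝ) := (Module.finBasis ℝ R.N).equivFun
  let S : R.N → R.N → ℝ := fun p q => tn R (star p * q)
  have hS1 : ∀ x y, S x y = S y x := by
    intro x y
    show tn R (star x * y) = tn R (star y * x)
    rw [← tn_star, star_mul, star_star]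
  obtain ⟨c, C, hc, hC, hcC⟩ := K_TC1_gen (fun x y => S (e.symm x) (e.symm y))
    (fun x y => hS1 _ _)
    (fun x y z => by
      show tn R (star (e.symm x) * e.symm (y + z)) = _
      rw [map_add, mul_add, tn_add])
    (fun r x y => by
      show tn R (star (e.symm x) * e.symm (r • y)) = _
      rw [map_smul, mul_smul_comm, tn_smul])
    (fun x hx => tn_pos R _ (by rwa [Ne, LinearEquiv.map_eq_zero_iff]))
  have hcC' : ∀ p : R.N, c * ‖e p‖ ^ 2 ≤ tn R (star p * p) ∧
      tn R (star p * p) ≤ C * ‖e p‖ ^ 2 := by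
    intro p
    have h1 := hcC (e p)
    simp only [LinearEquiv.symm_apply_apply] at h1
    exact h1
  obtain ⟨B', hB'⟩ := K_TC1_bil (LinearMap.mk₂ ℝ
    (fun x y : Fin (Module.finrank ℝ R.N) → ℝ => e (star (e.symm x) * e.symm y))
    (fun x y z => by rw [map_add, star_add, add_mul, map_add])
    (fun r x y => by rw [map_smul, star_smul_N, smul_mul_assoc, map_smul])
    (fun x y z => by rw [map_add, mul_add, map_add])
    (fun r x y => by rw [map_smul, mul_smul_comm, map_smul]))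
  have hB : ∀ p q : R.N, ‖e (star p * q)‖ ≤ ‖B'‖ * ‖e p‖ * ‖e q‖ := by
    intro p q
    have h1 := ContinuousLinearMap.le_opNorm₂ B' (e p) (e q)
    rw [hB'] at h1
    have h2 : e (star (e.symm (e p)) * e.symm (e q)) = e (star p * q) := by
      rw [LinearEquiv.symm_apply_apply, LinearEquiv.symm_apply_apply]
    have h3 : (LinearMap.mk₂ ℝ
      (fun x y : Fin (Module.finrank ℝ R.N) → ℝ => e (star (e.symm x) * e.symm y))
      (fun x y z => by rw [map_add, star_add, add_mul, map_add])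
      (fun r x y => by rw [map_smul, star_smul_N, smul_mul_assoc, map_smul])
      (fun x y z => by rw [map_add, mul_add, map_add])
      (fun r x y => by rw [map_smul, mul_smul_comm, map_smul])) (e p) (e q) =
        e (star (e.symm (e p)) * e.symm (e q)) := rfl
    rw [h3, h2] at h1
    exact h1
  refine ⟨C * ‖B'‖ ^ 2 / c ^ 2, by positivity, fun p q => ?_⟩
  have h1 := (hcC' (star p * q)).2
  have h2 := (hcC' p).1
  have h3 := (hcC' q).1
  have h4 := hB p q
  have h5 : ‖e (star p * q)‖ ^ 2 ≤ ‖B'‖ ^ 2 * (‖e p‖ ^ 2 * ‖e q‖ ^ 2) := by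
    calc ‖e (star p * q)‖ ^ 2 ≤ (‖B'‖ * ‖e p‖ * ‖e q‖) ^ 2 :=
          pow_le_pow_left₀ (norm_nonneg _) h4 2
      _ = _ := by ring
  have h6 : ‖e p‖ ^ 2 ≤ tn R (star p * p) / c := by
    rw [le_div_iff₀ hc]
    linarith
  have h7 : ‖e q‖ ^ 2 ≤ tn R (star q * q) / c := by
    rw [le_div_iff₀ hc]
    linarith
  calc tn R (star (star p * q) * (star p * q)) ≤ C * ‖e (star p * q)‖ ^ 2 := h1
    _ ≤ C * (‖B'‖ ^ 2 * (‖e p‖ ^ 2 * ‖e q‖ ^ 2)) := mul_le_mul_of_nonneg_left h5 hC.le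
    _ ≤ C * (‖B'‖ ^ 2 * (tn R (star p * p) / c * (tn R (star q * q) / c))) := by
        refine mul_le_mul_of_nonneg_left (mul_le_mul_of_nonneg_left ?_ (by positivity)) hC.le
        exact mul_le_mul h6 h7 (by positivity) ((by positivity : (0 : ℝ) ≤ ‖e p‖ ^ 2).trans h6)
    _ = C * ‖B'‖ ^ 2 / c ^ 2 * (tn R (star p * p) * tn R (star q * q)) := by
        field_simp



/-- PROOF. Let `z = star x * y`. `Qd R oneV z = sz (inv (Θ (star z))) + sz (Θ z) + tn (star (π z) * π z)`, where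
`Θ z = Θ (star x) * Θ y`, `Θ (star z) = Θ (star y) * Θ x` and `π z = star (π x) * π y`; `sz (inv a) = sz a`. Use
`sz_mul_le` twice (`sz (Θ (star x) * Θ y) ≤ C * q (inv (Θ (star x))) (hI h) * q (Θ y) h`, where both factors are at
most `Qd R h x`, `Qd R h y` by `Qd_eq`) and `tn_mul_le`. -/
theorem Q1_mul_le : ∃ C : ℝ, 0 ≤ C ∧ ∀ h : R.P.V, R.P.PD h → ∀ x y : BInf A,
    Qd R (oneV R.P) (star x * y) ≤ C * (Qd R h x * Qd R h y) := by
  obtain ⟨C, hC, h1⟩ := sz_mul_le R.P
  obtain ⟨C', hC', h2⟩ := tn_mul_le R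
  have hI1 : hI R.P (oneV R.P) = oneV R.P := by
    apply R.P.el_inj
    have h1 := hI_mul R.P (oneV_pd R.P)
    rw [el_oneV, mul_one] at h1
    rw [h1, el_oneV]
  have hsz : ∀ a : R.T, R.P.sz (R.P.inv a) = R.P.sz a := by
    intro a
    rw [PA.sz, PA.sz, R.P.inv_inv, R.P.tau_comm]
  refine ⟨C + C + C', by positivity, fun h hh x y => ?_⟩
  have e1 : Qd R (oneV R.P) (star x * y) = R.P.sz (R.Θ (star y) * R.Θ x) +
      R.P.sz (R.Θ (star x) * R.Θ y) +
        tn R (star (star (R.π x) * R.π y) * (star (R.π x) * R.π y)) := by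
    rw [Qd_eq, hI1, q_oneV, q_oneV, hsz, star_mul, star_star, map_mul, map_mul, map_mul, R.π_star]
  have n1 : ∀ z : BInf A, 0 ≤ R.P.q (R.P.inv (R.Θ (star z))) (hI R.P h) := fun z =>
    (hI_pd R.P hh).psd _
  have n2 : ∀ z : BInf A, 0 ≤ R.P.q (R.Θ z) h := fun z => hh.psd _
  have n3 : ∀ z : BInf A, 0 ≤ tn R (star (R.π z) * R.π z) := fun z => K_TB1_nn R _
  have a1 := h1 h hh (R.Θ x) (R.Θ (star y))
  have a2 := h1 h hh (R.Θ y) (R.Θ (star x))
  have a3 := h2 (R.π x) (R.π y)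
  rw [e1, Qd_eq R h x, Qd_eq R h y]
  have nx1 := n1 x
  have nx2 := n2 x
  have nx3 := n3 x
  have ny1 := n1 y
  have ny2 := n2 y
  have ny3 := n3 y
  clear n1 n2 n3 e1 h1 h2
  generalize R.P.q (R.P.inv (R.Θ (star x))) (hI R.P h) = u1 at *
  generalize R.P.q (R.P.inv (R.Θ (star y))) (hI R.P h) = u2 at *
  generalize R.P.q (R.Θ x) h = v1 at *
  generalize R.P.q (R.Θ y) h = v2 at *
  generalize tn R (star (R.π x) * R.π x) = w1 at *
  generalize tn R (star (R.π y) * R.π y) = w2 at *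
  have hX : 0 ≤ u1 + v1 + w1 := by linarith
  have p1 : u2 * v1 ≤ (u1 + v1 + w1) * (u2 + v2 + w2) := by
    rw [mul_comm u2 v1]
    exact mul_le_mul (by linarith) (by linarith) ny1 hX
  have p2 : u1 * v2 ≤ (u1 + v1 + w1) * (u2 + v2 + w2) :=
    mul_le_mul (by linarith) (by linarith) ny2 hX
  have p3 : w1 * w2 ≤ (u1 + v1 + w1) * (u2 + v2 + w2) :=
    mul_le_mul (by linarith) (by linarith) ny3 hX
  have q1 := mul_le_mul_of_nonneg_left p1 hC
  have q2 := mul_le_mul_of_nonneg_left p2 hC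
  have q3 := mul_le_mul_of_nonneg_left p3 hC'
  have q4 : (C + C + C') * ((u1 + v1 + w1) * (u2 + v2 + w2)) =
      C * ((u1 + v1 + w1) * (u2 + v2 + w2)) + C * ((u1 + v1 + w1) * (u2 + v2 + w2)) +
        C' * ((u1 + v1 + w1) * (u2 + v2 + w2)) := by ring
  rw [q4]
  linarith


end Pool.Agent.CGU
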