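import Pool.Agent.CGU.KPo

/-!
# Generic weights
-/

noncomputable section

set_option linter.unusedSectionVars false
set_option linter.unusedVariables false

namespace Pool.Agent.CGU

open NumberField IsDedekindDomain
open Pool.Agent.CG2 (Pl Fv Ov)
open Pool.Agent.CGQ (Sys PA diag)

variable {F : Type} [Field F] [NumberField F] {A : UD F} (R : RDat A)

/-- The weights `C` are between `1` and `9/8` and generic. -/
def GoodC (N : ℕ) (C : Cls A N → ℝ) : Prop :=
  (∀ κ, 1 < C κ ∧ C κ < 9 / 8) ∧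
  ∀ (S : Finset (sysU A).G) (f : (sysU A).G → Cls A N), Set.InjOn f S → ∀ h : (PP R).V,
    (∀ x ∈ S, qe R x h = C (f x)) → LinearIndependent ℝ fun x : S => qe R x.1

private theorem KWt_finite (A : UD F) (N : ℕ) (hN : N ≠ 0) : Finite (Cls A N) := by
  have h1 : Ideal.span {((N : ℕ) : 𝓞 F)} ≠ ⊥ := by
    rw [Ne, Ideal.span_singleton_eq_bot]
    exact Nat.cast_ne_zero.2 hN
  have : Finite (𝓞 F ⧸ Ideal.span {((N : ℕ) : 𝓞 F)}) := Ideal.finiteQuotientOfFreeOfNeBot _ h1
  exact inferInstanceAs (Finite (Ix A → (𝓞 F ⧸ Ideal.span {((N : ℕ) : 𝓞 F)})))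

private theorem KWt_rel {V : Type} [AddCommGroup V] [Module ℝ V] {ι : Type} [Fintype ι]
    (q : ι → V) (hS : ¬ LinearIndependent ℝ q) : ∃ a : ι → ℝ, ∑ x : ι, a x • q x = 0 ∧ a ≠ 0 := by
  obtain ⟨a, ha1, i, hai⟩ := Fintype.not_linearIndependent_iff.1 hS
  exact ⟨a, ha1, fun h => hai (congrFun h i)⟩

/-- Generic weights exist. -/
theorem exists_goodC (N : ℕ) (hN : N ≠ 0) : ∃ C : Cls A N → ℝ, GoodC R N C := by
  classical
  have hfin := KWt_finite A N hN
  have : Fintype (Cls A N) := Fintype.ofFinite _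
  have hcount := countable_G A
  -- the functionals to be avoided
  let I : Type := {p : Σ S : Finset (sysU A).G, (S → Cls A N) //
    Function.Injective p.2 ∧ ¬ LinearIndependent ℝ fun x : p.1 => qe R x.1}
  have hrel : ∀ p : I, ∃ a : p.1.1 → ℝ, ∑ x, a x • qe R x.1 = 0 ∧ a ≠ 0 := by
    intro p
    exact KWt_rel (fun x : p.1.1 => qe R x.1) p.2.2
  choose a ha1 ha2 using hrel
  let φ : I → ((Cls A N → ℝ) →L[ℝ] ℝ) := fun p =>
    ∑ x, a p x • (ContinuousLinearMap.proj (R := ℝ) (φ := fun _ : Cls A N => ℝ) (p.1.2 x))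
  have hφ : ∀ p C, φ p C = ∑ x, a p x * C (p.1.2 x) := by
    intro p C
    simp only [φ, _root_.sum_apply, _root_.smul_apply,
      ContinuousLinearMap.proj_apply, smul_eq_mul]
  have hφ0 : ∀ p, φ p ≠ 0 := by
    intro p h0
    apply ha2 p
    funext x
    have h1 := hφ p (Pi.single (p.1.2 x) 1)
    rw [h0, _root_.zero_apply, Finset.sum_eq_single x] at h1
    · rw [Pi.single_eq_same, mul_one] at h1
      exact h1.symm
    · intro y _ hy
      rw [Pi.single_eq_of_ne (fun h => hy (p.2.1 h)), mul_zero]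
    · intro h
      exact absurd (Finset.mem_univ x) h
  have hIc : Countable I := by
    have h1 : ∀ S : Finset (sysU A).G, Countable (S → Cls A N) := fun S => inferInstance
    exact inferInstance
  obtain ⟨C, hC1, hC2⟩ := CG2.exists_avoid (V := Cls A N → ℝ)
    (Set.pi Set.univ fun _ => Set.Ioo (1 : ℝ) (9 / 8))
    (isOpen_set_pi Set.finite_univ fun _ _ => isOpen_Ioo)
    ⟨fun _ => 17 / 16, fun _ _ => ⟨by norm_num, by norm_num⟩⟩ (Set.range φ)
    (Set.countable_range φ) (by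
      rintro ⟨p, hp⟩
      exact hφ0 p hp)
  refine ⟨C, fun κ => hC1 κ (Set.mem_univ κ), fun S f hf h hh => ?_⟩
  by_contra hdep
  let p : I := ⟨⟨S, fun x => f x.1⟩, fun x y hxy => Subtype.ext (hf x.2 y.2 hxy), hdep⟩
  apply hC2 (φ p) ⟨p, rfl⟩
  rw [hφ]
  have h1 := congrArg (fun l : (PP R).V →L[ℝ] ℝ => l h) (ha1 p)
  simp only [_root_.sum_apply, _root_.smul_apply, smul_eq_mul,
    _root_.zero_apply] at h1
  rw [← h1]
  refine Finset.sum_congr rfl fun x _ => ?_
  have h2 : p.1.2 x = f x.1 := rfl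
  rw [h2, ← hh x.1 x.2]

end Pool.Agent.CGU
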