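import Pool.Agent.CGU.IDefs
import Pool.Agent.CGN.CDev
import Pool.Agent.CG2.LevelOC

/-!
# The levels of the main theorem for unitary groups
-/

noncomputable section

namespace Pool.Agent.CGU

open NumberField IsDedekindDomain Matrix
open Pool.Agent.CGQ
open Pool.Agent.CG2 (Pl Fv Ov Pr Above ab exists_above above_unique LevelOC_fin
  LevelOC_finite LevelOC_pr LevelOC_pr_spec)
open Pool.Agent.CG2.GalFinAux (below)
open Pool.Agent.CGN (Chart GZ HypOff UnramOff Cont Split abv mem_abv)

variable {F : Type} [Field F] [NumberField F]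

/-- There are two different places of `K` above the place `v` of `F`. -/
def Two (K : Type) [Field K] [NumberField K] [Algebra F K] (v : Pl F) : Prop :=
  ∃ w w' : Pl K, w ≠ w' ∧
    (∀ a : 𝓞 F, a ∈ v.asIdeal ↔ algebraMap (𝓞 F) (𝓞 K) a ∈ w.asIdeal) ∧
    ∀ a : 𝓞 F, a ∈ v.asIdeal ↔ algebraMap (𝓞 F) (𝓞 K) a ∈ w'.asIdeal

/-- The places above the rational primes in `S` and the places which do not split in `K`. -/
def abU (K : Type) [Field K] [NumberField K] [Algebra F K] (S : Finset Pr) : Set (Pl F) :=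
  {v | v ∈ ab F S ∨ ¬ Two K v}

/-- The group `G(ℚ_ℓ)`, the product of the unitary groups over `F_v` for the places `v` above the
rational prime `ℓ`, with the product topology. -/
abbrev DL (A : UD F) (ℓ : Pr) : Type := ∀ v : {v : Pl F // Above (ℓ : ℕ) v}, UV A v.1

variable {K : Type} [Field K] [NumberField K] [Algebra F K]

open Classical in
/-- The components at the places which split in `K` are replaced by `1`. -/
def cut {A : UD F} {ℓ : Pr} (K : Type) [Field K] [NumberField K] [Algebra F K] (g : DL A ℓ) :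
    DL A ℓ := fun v => if Two K v.1 then 1 else g v

/-- A level. -/
structure LevelU (A : UD F) (K' : Type) [Field K'] [NumberField K'] [Algebra F K'] (p : Pr)
    (S : Finset Pr) where
  /-- the local groups -/
  K : ∀ ℓ : Pr, Subgroup (DL A ℓ)
  isOpen : ∀ ℓ, IsOpen (K ℓ : Set (DL A ℓ))
  isCompact : ∀ ℓ, IsCompact (K ℓ : Set (DL A ℓ))
  fin : {ℓ : Pr | ¬ ∀ g : DL A ℓ, g ∈ K ℓ ↔ ∀ v, g v ∈ UZ A v.1}.Finite
  /-- the isomorphisms -/
  φ : USpl A (abU K' S)
  off : ∀ ℓ, ℓ ∉ S → ∀ g : DL A ℓ, g ∈ K ℓ ↔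
    (∀ (v : {v : Pl F // Above (ℓ : ℕ) v}) (hv : v.1 ∉ abU K' S),
      (chartU φ).e ⟨v.1, hv⟩ (g v) ∈ GZ A.n v.1) ∧ cut K' g ∈ K ℓ
  mem : p ∈ S

variable {A : UD F} {p : Pr} {S : Finset Pr}

/-- The component at the rational prime `ℓ`. -/
def atU (g : (sysU A).A) (ℓ : Pr) : DL A ℓ := fun v => g.1 v.1

/-- The group `K_f`. -/
def LevelU.Kf (L : LevelU A K p S) : Subgroup (sysU A).A where
  carrier := {k | ∀ ℓ, atU k ℓ ∈ L.K ℓ}
  mul_mem' ha hb ℓ := (L.K ℓ).mul_mem (ha ℓ) (hb ℓ)
  one_mem' ℓ := (L.K ℓ).one_mem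
  inv_mem' ha ℓ := (L.K ℓ).inv_mem (ha ℓ)

/-- The group `K_p`. -/
abbrev LevelU.Kp (L : LevelU A K p S) : Type := L.K p

/-- The projection from `K_f` to `K_p`. -/
def LevelU.toKp (L : LevelU A K p S) : L.Kf →* L.Kp where
  toFun k := ⟨atU k.1 p, k.2 p⟩
  map_one' := rfl
  map_mul' _ _ := rfl

variable {O : Type} [CommRing O] {W : Type} [AddCommGroup W] [Module O W]

/-- The `K_f`-module given by a `K_p`-module. -/
def LevelU.rep (L : LevelU A K p S) (σ : Representation O L.Kp W) : Representation O L.Kf W :=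
  σ.comp L.toKp

theorem atU_single_ne {v : Pl F} {ℓ : Pr} (h : ¬ Above (ℓ : ℕ) v) (k : UV A v) :
    atU (A := A) (single (𝒟 := sysU A) v k) ℓ = 1 := by
  funext w
  have h1 : w.1 ≠ v := by
    intro h'
    apply h
    rw [← h']
    exact w.2
  exact single_ne (𝒟 := sysU A) h1 k

theorem LevelU.unram (L : LevelU A K p S) (σ : Representation O L.Kp W) :
    UnramOff L.Kf (L.rep σ) (chartU L.φ) := by
  rintro ⟨v, hv⟩
  have hmem : ∀ k : (sysU A).L v, (chartU L.φ).e ⟨v, hv⟩ k ∈ GZ A.n v → single v k ∈ L.Kf := by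
    intro k hk ℓ
    by_cases h : Above (ℓ : ℕ) v
    · have hℓ : ℓ ∉ S := fun h' => hv (Or.inl ⟨ℓ, h', h⟩)
      rw [L.off ℓ hℓ]
      refine ⟨?_, ?_⟩
      · intro w hw0
        change (chartU L.φ).e ⟨w.1, hw0⟩ ((single v k).1 w.1) ∈ GZ A.n w.1
        by_cases hw : w.1 = v
        · obtain ⟨w, hw'⟩ := w
          simp only at hw
          subst hw
          rw [single_same]
          exact hk
        · rw [single_ne hw, map_one]
          exact (GZ A.n w.1).one_mem
      · have h1 : cut K (atU (A := A) (single (𝒟 := sysU A) v k) ℓ) = 1 := by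
          funext w
          by_cases hw : Two K w.1
          · exact if_pos hw
          · have h2 : w.1 ≠ v := by
              intro h3
              apply hv
              right
              rw [← h3]
              exact hw
            exact (if_neg hw).trans (single_ne (𝒟 := sysU A) h2 k)
        rw [h1]
        exact (L.K ℓ).one_mem
    · have h1 : atU (single v k) ℓ = 1 := atU_single_ne h k
      rw [h1]
      exact (L.K ℓ).one_mem
  refine ⟨⟨?_, hmem⟩, ?_⟩
  · intro k hk
    obtain ⟨ℓ, hℓ⟩ := exists_above v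
    have h1 : ℓ ∉ S := fun h' => hv (Or.inl ⟨ℓ, h', hℓ⟩)
    exact ((L.off ℓ h1 _).1 (hk ℓ)).1 ⟨v, hℓ⟩ hv
  · intro k hk
    have h0 : ¬ Above (p : ℕ) v := fun h => hv (Or.inl ⟨p, L.mem, h⟩)
    have h1 : L.toKp ⟨single v k, hmem k hk⟩ = 1 := Subtype.ext (atU_single_ne h0 k)
    change σ (L.toKp _) = 1
    rw [h1, map_one]

theorem LevelU.hyp (L : LevelU A K p S) : HypOff L.Kf (chartU L.φ) := fun v =>
  (L.unram (O := ℤ) (W := ℤ) 1 v).hyp

/-- The action of `K_p` on `W` is continuous for the `𝔪`-adic topology of `W`. -/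
def IsContinuousRepU [IsLocalRing O] (L : LevelU A K p S) (σ : Representation O L.Kp W) : Prop :=
  ∀ n : ℕ, ∃ U : Set (DL A p), IsOpen U ∧ 1 ∈ U ∧ ∀ k : L.Kp, (k : DL A p) ∈ U →
    ∀ w : W, σ k w - w ∈ (IsLocalRing.maximalIdeal O ^ n • ⊤ : Submodule O W)

open Classical in
/-- The local component of a subgroup. -/
def compU (ℓ : Pr) (H : Subgroup (DL A ℓ)) (v : {v : Pl F // Above (ℓ : ℕ) v}) :
    Subgroup (UV A v.1) :=
  H.comap (MonoidHom.mulSingle (fun w : {v : Pl F // Above (ℓ : ℕ) v} => UV A w.1) v)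

theorem compU_open (ℓ : Pr) (H : Subgroup (DL A ℓ)) (hH : IsOpen (H : Set (DL A ℓ)))
    (v : {v : Pl F // Above (ℓ : ℕ) v}) : IsOpen (compU ℓ H v : Set (UV A v.1)) := by
  classical
  exact hH.preimage (continuous_mulSingle v)

theorem compU_mem (ℓ : Pr) (H : Subgroup (DL A ℓ)) (g : DL A ℓ)
    (hg : ∀ v, g v ∈ compU ℓ H v) : g ∈ H := by
  classical
  exact Subgroup.pi_mem_of_mulSingle_mem g fun v => hg v

theorem LevelU.fin_places (L : LevelU A K p S) :
    {v : Pl F | ¬ ∀ g : DL A (LevelOC_pr v), g ∈ L.K (LevelOC_pr v) ↔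
      ∀ w, g w ∈ UZ A w.1}.Finite := by
  refine (L.fin.biUnion (t := fun ℓ => {v : Pl F | Above (ℓ : ℕ) v}) fun ℓ _ =>
    LevelOC_fin ℓ).subset ?_
  intro v hv
  simp only [Set.mem_iUnion, exists_prop]
  exact ⟨LevelOC_pr v, hv, LevelOC_pr_spec v⟩

/-- The projection of the local group to the component at `v`. -/
def LevelU.cpt (L : LevelU A K p S) (v : Pl F) : Set (UV A v) :=
  (fun g : DL A (LevelOC_pr v) => g ⟨v, LevelOC_pr_spec v⟩) '' (L.K (LevelOC_pr v) : Set _)

theorem LevelU.cpt_compact (L : LevelU A K p S) (v : Pl F) : IsCompact (L.cpt v) :=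
  (L.isCompact _).image (continuous_apply _)

theorem LevelU.oc (L : LevelU A K p S) : OC L.Kf := by
  classical
  refine ⟨⟨fun v => compU (LevelOC_pr v) (L.K _) ⟨v, LevelOC_pr_spec v⟩,
    fun v => compU_open _ _ (L.isOpen _) _, ?_, ?_⟩,
    ⟨fun v => L.cpt v, fun v => L.cpt_compact v, ?_, ?_⟩⟩
  · refine L.fin_places.subset ?_
    intro v hv
    by_contra hall
    simp only [Set.mem_ofPred_eq, not_not] at hall
    apply hv
    intro k hk
    change Pi.mulSingle (M := fun w : {w : Pl F // Above (LevelOC_pr v : ℕ) w} => UV A w.1)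
      ⟨v, LevelOC_pr_spec v⟩ k ∈ L.K (LevelOC_pr v)
    rw [hall]
    intro w
    by_cases hw : w = ⟨v, LevelOC_pr_spec v⟩
    · subst hw
      rw [Pi.mulSingle_eq_same]
      exact hk
    · rw [Pi.mulSingle_eq_of_ne hw]
      exact (UZ A w.1).one_mem
  · intro k hk ℓ
    apply compU_mem
    rintro ⟨v, hv⟩
    have h1 : LevelOC_pr v = ℓ := above_unique (LevelOC_pr_spec v) hv
    subst h1
    exact hk v
  · refine L.fin_places.subset ?_
    intro v hv
    by_contra hall
    simp only [Set.mem_ofPred_eq, not_not] at hall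
    apply hv
    rintro _ ⟨g, hg, rfl⟩
    rw [SetLike.mem_coe, hall] at hg
    exact hg ⟨v, LevelOC_pr_spec v⟩
  · intro k hk v
    exact ⟨atU k (LevelOC_pr v), hk _, rfl⟩

/-- The subgroup acting trivially modulo a submodule. -/
def trivMod (L : LevelU A K p S) (σ : Representation O L.Kp W) (I : Ideal O) :
    Subgroup L.Kp where
  carrier := {k | ∀ w : W, σ k w - w ∈ (I • ⊤ : Submodule O W)}
  one_mem' w := by
    rw [map_one]
    simp
  mul_mem' := by
    intro a b ha hb w
    have h1 : σ (a * b) w - w = σ a (σ b w - w) + (σ a w - w) := by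
      rw [map_mul, Module.End.mul_apply, map_sub]; abel
    rw [h1]
    refine add_mem ?_ (ha w)
    have h2 : (I • ⊤ : Submodule O W) ≤ (I • ⊤ : Submodule O W).comap (σ a) := by
      rw [Submodule.smul_le]
      intro r hr n _
      rw [Submodule.mem_comap, map_smul]
      exact Submodule.smul_mem_smul hr trivial
    exact h2 (hb w)
  inv_mem' := by
    intro a ha w
    have h2 : (I • ⊤ : Submodule O W) ≤ (I • ⊤ : Submodule O W).comap (σ a⁻¹) := by
      rw [Submodule.smul_le]
      intro r hr n _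
      rw [Submodule.mem_comap, map_smul]
      exact Submodule.smul_mem_smul hr trivial
    have h3 := h2 (ha w)
    rw [Submodule.mem_comap, map_sub, ← Module.End.mul_apply, ← map_mul, inv_mul_cancel, map_one,
      Module.End.one_apply] at h3
    rw [← neg_mem_iff, neg_sub]
    exact h3

theorem LevelU.cont [IsLocalRing O] (L : LevelU A K p S) (σ : Representation O L.Kp W)
    (hσ : IsContinuousRepU L σ) : Cont L.Kf (L.rep σ) (chartU L.φ) := by
  classical
  intro n
  obtain ⟨N, hN, hN1, hNσ⟩ := hσ n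
  set I := IsLocalRing.maximalIdeal O ^ n with hI
  let H : Subgroup (DL A p) := (trivMod L σ I).map (L.K p).subtype
  have hH : IsOpen (H : Set (DL A p)) := by
    apply Subgroup.isOpen_of_mem_nhds (g := 1)
    refine Filter.mem_of_superset ((hN.inter (L.isOpen p)).mem_nhds ⟨hN1, (L.K p).one_mem⟩) ?_
    rintro g ⟨hg1, hg2⟩
    exact ⟨⟨g, hg2⟩, hNσ ⟨g, hg2⟩ hg1, rfl⟩
  refine ⟨fun v => if h : Above (p : ℕ) v then compU p H ⟨v, h⟩ else ⊤, ?_, ?_, ?_, ?_⟩
  · intro v
    by_cases h : Above (p : ℕ) v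
    · simp only [dif_pos h]
      exact compU_open _ _ hH _
    · simp only [dif_neg h]
      exact isOpen_univ
  · refine (LevelOC_fin p).subset ?_
    intro v hv
    by_contra h
    apply hv
    have h' : ¬ Above (p : ℕ) v := h
    simp only [dif_neg h']
    exact le_top
  · rintro ⟨v, hv⟩ k -
    have h : ¬ Above (p : ℕ) v := fun h => hv (Or.inl ⟨p, L.mem, h⟩)
    simp only [dif_neg h]
    trivial
  · intro k hk
    have h1 : atU k.1 p ∈ H := by
      apply compU_mem
      rintro ⟨v, hv⟩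
      have := hk v
      simp only [dif_pos hv] at this
      exact this
    obtain ⟨g, hg, hgk⟩ := h1
    intro w
    have h2 : L.toKp k = g := Subtype.ext hgk.symm
    change σ (L.toKp k) w - w ∈ _
    rw [h2]
    exact hg w

/-- Only finitely many places in `abU` split. -/
theorem sfin_abU (K : Type) [Field K] [NumberField K] [Algebra F K] (S : Finset Pr)
    (hdeg : Module.finrank F K = 2) : SFin K (abU (F := F) K S) := by
  classical
  have hSf : (ab F S).Finite := by
    have : ab F S = ⋃ ℓ ∈ S, {v : Pl F | Above (ℓ : ℕ) v} := by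
      ext v; simp [ab]
    rw [this]
    exact Set.Finite.biUnion S.finite_toSet fun ℓ _ => LevelOC_fin ℓ
  refine hSf.subset ?_
  rintro v ⟨h1 | h1, h2⟩
  · exact h1
  · exfalso
    apply h1
    rw [Split, hdeg] at h2
    obtain ⟨w, w', hne, h3⟩ := Finset.card_eq_two.1 h2
    have h4 : below F w = v := mem_abv.1 (by
      rw [h3]
      exact Finset.mem_insert_self _ _)
    have h5 : below F w' = v := mem_abv.1 (by
      rw [h3]
      exact Finset.mem_insert_of_mem (Finset.mem_singleton_self _))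
    refine ⟨w, w', hne, fun a => ?_, fun a => ?_⟩
    · rw [← h4]
      exact Iff.rfl
    · rw [← h5]
      exact Iff.rfl

end Pool.Agent.CGU
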