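import Pool.Agent.CGN.SC

/-!
# Algebras with involution given by structure constants
-/

noncomputable section

namespace Pool.Agent.CGU

open Pool.Agent.CGN (SC)

/-- Structure constants of an algebra over `R` with an `R`-linear involution: `t` is the matrix of
the involution, `star (e i) = ∑ j, t i j • e j`. -/
structure SCI (ι R : Type) [Fintype ι] [DecidableEq ι] [CommRing R] extends SC ι R where
  /-- the matrix of the involution -/
  t : ι → ι → R
  tt : ∀ i k, ∑ j, t i j * t j k = if i = k then 1 else 0
  tm : ∀ i j l, ∑ k, c i j k * t k l = ∑ a, ∑ b, t j a * t i b * c a b l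

variable {ι : Type} [Fintype ι] [DecidableEq ι] {R : Type} [CommRing R]

/-- The image of the structure constants under a homomorphism. -/
def SCI.map (s : SCI ι R) {S : Type} [CommRing S] (f : R →+* S) : SCI ι S where
  toSC := s.toSC.map f
  t i j := f (s.t i j)
  tt i k := by
    have h := congrArg f (s.tt i k)
    rw [map_sum] at h
    simp only [map_mul] at h
    rw [h, apply_ite f, map_one, map_zero]
  tm i j l := by
    have h := congrArg f (s.tm i j l)
    simp only [map_sum, map_mul] at h
    exact h

variable {s : SCI ι R}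

/-- The involution. -/
def SCI.st (s : SCI ι R) (x : s.toSC.Alg) : s.toSC.Alg := fun k => ∑ i, x.co i * s.t i k

instance : Star s.toSC.Alg := ⟨s.st⟩

@[simp] theorem co_star (x : s.toSC.Alg) (k : ι) : (star x).co k = ∑ i, x.co i * s.t i k := rfl

private theorem star_star' (x : s.toSC.Alg) : star (star x) = x := by
  apply SC.Alg.ext
  intro k
  rw [co_star]
  have h : ∀ j, (star x).co j * s.t j k = ∑ i, x.co i * (s.t i j * s.t j k) := by
    intro j
    rw [co_star, Finset.sum_mul]
    exact Finset.sum_congr rfl fun i _ => by ring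
  rw [Finset.sum_congr rfl fun j _ => h j, Finset.sum_comm]
  have h2 : ∀ i, ∑ j, x.co i * (s.t i j * s.t j k) = x.co i * (if i = k then 1 else 0) := by
    intro i
    rw [← Finset.mul_sum, s.tt]
  rw [Finset.sum_congr rfl fun i _ => h2 i]
  simp

private theorem star_mul' (x y : s.toSC.Alg) : star (x * y) = star y * star x := by
  apply SC.Alg.ext
  intro l
  rw [co_star, SC.Alg.co_mul]
  have h1 : ∀ k, (x * y).co k * s.t k l = ∑ i, ∑ j, x.co i * y.co j * (s.c i j k * s.t k l) := by
    intro k
    rw [SC.Alg.co_mul, Finset.sum_mul]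
    refine Finset.sum_congr rfl fun i _ => ?_
    rw [Finset.sum_mul]
    exact Finset.sum_congr rfl fun j _ => by ring
  have h2 : ∀ a b, (star y).co a * (star x).co b * s.c a b l =
      ∑ i, ∑ j, x.co i * y.co j * (s.t j a * s.t i b * s.c a b l) := by
    intro a b
    rw [co_star, co_star, mul_comm (∑ j, y.co j * s.t j a), Finset.sum_mul_sum, Finset.sum_mul]
    refine Finset.sum_congr rfl fun i _ => ?_
    rw [Finset.sum_mul]
    exact Finset.sum_congr rfl fun j _ => by ring
  rw [Finset.sum_congr rfl fun k _ => h1 k,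
    Finset.sum_congr rfl fun a _ => Finset.sum_congr rfl fun b _ => h2 a b]
  have e1 : ∑ k, ∑ i, ∑ j, x.co i * y.co j * (s.c i j k * s.t k l) =
      ∑ i, ∑ j, x.co i * y.co j * ∑ k, s.c i j k * s.t k l := by
    rw [Finset.sum_comm]
    refine Finset.sum_congr rfl fun i _ => ?_
    rw [Finset.sum_comm]
    refine Finset.sum_congr rfl fun j _ => ?_
    rw [Finset.mul_sum]
  have e2 : ∑ a, ∑ b, ∑ i, ∑ j, x.co i * y.co j * (s.t j a * s.t i b * s.c a b l) =
      ∑ i, ∑ j, x.co i * y.co j * ∑ a, ∑ b, s.t j a * s.t i b * s.c a b l := by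
    have h3 : ∀ a, ∑ b, ∑ i, ∑ j, x.co i * y.co j * (s.t j a * s.t i b * s.c a b l) =
        ∑ i, ∑ j, ∑ b, x.co i * y.co j * (s.t j a * s.t i b * s.c a b l) := by
      intro a
      rw [Finset.sum_comm]
      exact Finset.sum_congr rfl fun i _ => Finset.sum_comm
    rw [Finset.sum_congr rfl fun a _ => h3 a, Finset.sum_comm]
    refine Finset.sum_congr rfl fun i _ => ?_
    rw [Finset.sum_comm]
    refine Finset.sum_congr rfl fun j _ => ?_
    rw [Finset.mul_sum]
    exact Finset.sum_congr rfl fun a _ => (Finset.mul_sum _ _ _).symm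
  rw [e1, e2]
  exact Finset.sum_congr rfl fun i _ => Finset.sum_congr rfl fun j _ => by rw [s.tm]

private theorem star_add' (x y : s.toSC.Alg) : star (x + y) = star x + star y := by
  apply SC.Alg.ext
  intro k
  simp only [co_star, SC.Alg.co_add, add_mul, Finset.sum_add_distrib]

instance : StarRing s.toSC.Alg where
  star_involutive := star_star'
  star_mul := star_mul'
  star_add := star_add'

theorem star_smul_alg (r : R) (x : s.toSC.Alg) : star (r • x) = r • star x := by
  apply SC.Alg.ext
  intro k
  simp only [co_star, SC.Alg.co_smul, Finset.mul_sum, mul_assoc]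

/-- The involution as a linear map. -/
def SCI.stLin (s : SCI ι R) : s.toSC.Alg →ₗ[R] s.toSC.Alg where
  toFun := star
  map_add' := star_add
  map_smul' := star_smul_alg

@[simp] theorem SCI.stLin_apply (x : s.toSC.Alg) : s.stLin x = star x := rfl

/-- The homomorphism given by a homomorphism of the rings of scalars. -/
def SCI.hom (s : SCI ι R) {S : Type} [CommRing S] (f : R →+* S) :
    s.toSC.Alg →+* (s.map f).toSC.Alg := s.toSC.hom f

@[simp] theorem SCI.hom_co {S : Type} [CommRing S] (f : R →+* S) (x : s.toSC.Alg) (i : ι) :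
    (s.hom f x).co i = f (x.co i) := rfl

theorem SCI.hom_star {S : Type} [CommRing S] (f : R →+* S) (x : s.toSC.Alg) :
    s.hom f (star x) = star (s.hom f x) := by
  apply SC.Alg.ext
  intro k
  rw [SCI.hom_co, co_star, co_star, map_sum]
  exact Finset.sum_congr rfl fun i _ => map_mul f _ _

/-- The unitary group. -/
def SCI.U (s : SCI ι R) : Subgroup (s.toSC.Alg)ˣ where
  carrier := {x | star x.1 * x.1 = 1}
  one_mem' := by
    change star (1 : s.toSC.Alg) * 1 = 1
    rw [star_one, one_mul]
  mul_mem' := by
    intro x y hx hy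
    change star (x.1 * y.1) * (x.1 * y.1) = 1
    have hx' : star x.1 * x.1 = 1 := hx
    have hy' : star y.1 * y.1 = 1 := hy
    rw [star_mul, mul_assoc, ← mul_assoc (star x.1), hx', one_mul, hy']
  inv_mem' := by
    intro x hx
    have hx' : star x.1 * x.1 = 1 := hx
    have h1 : star x.1 = (x⁻¹ : (s.toSC.Alg)ˣ).1 := by
      rw [← Units.mul_inv_eq_one (u := x⁻¹), inv_inv, hx']
    change star (x⁻¹ : (s.toSC.Alg)ˣ).1 * (x⁻¹ : (s.toSC.Alg)ˣ).1 = 1
    rw [← h1, star_star, h1, Units.mul_inv]

theorem mem_U {x : (s.toSC.Alg)ˣ} : x ∈ s.U ↔ star x.1 * x.1 = 1 := Iff.rfl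

theorem star_eq_inv {x : (s.toSC.Alg)ˣ} (hx : x ∈ s.U) : star x.1 = (x⁻¹ : (s.toSC.Alg)ˣ).1 := by
  have hx' : star x.1 * x.1 = 1 := hx
  rw [← Units.mul_inv_eq_one (u := x⁻¹), inv_inv, hx']

/-- The homomorphism of the unitary groups given by a homomorphism of the rings of scalars. -/
def SCI.homU (s : SCI ι R) {S : Type} [CommRing S] (f : R →+* S) : s.U →* (s.map f).U where
  toFun x := ⟨Units.map (s.hom f : s.toSC.Alg →* (s.map f).toSC.Alg) x.1, by
    change star (s.hom f x.1.1) * s.hom f x.1.1 = 1
    have hx : star x.1.1 * x.1.1 = 1 := x.2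
    rw [← SCI.hom_star, ← map_mul, hx, map_one]⟩
  map_one' := by
    apply Subtype.ext
    apply Units.ext
    exact map_one _
  map_mul' x y := by
    apply Subtype.ext
    apply Units.ext
    exact map_mul (s.hom f) x.1.1 y.1.1

@[simp] theorem SCI.homU_val {S : Type} [CommRing S] (f : R →+* S) (x : s.U) :
    (s.homU f x).1.1 = s.hom f x.1.1 := rfl

section top

variable [TopologicalSpace R] [IsTopologicalRing R]

theorem continuous_star_alg : Continuous (star : s.toSC.Alg → s.toSC.Alg) := by
  refine CGN.continuous_alg fun k => ?_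
  simp only [co_star]
  exact continuous_finset_sum _ fun i _ => (CGN.continuous_co i).mul continuous_const

end top

end Pool.Agent.CGU
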