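import Pool.Agent.CGU.IDefs
import Pool.Agent.CGN.Sm

/-!
# Small groups at given places
-/

noncomputable section

namespace Pool.Agent.CGU

open NumberField IsDedekindDomain Matrix
open Pool.Agent.CG2 (Pl Fv Ov)
open Pool.Agent.CGQ
open Pool.Agent.CGN (evA evA_apply oc_small)

variable {F : Type} [Field F] [NumberField F]

variable {A : UD F} {S : Set (Pl F)}

/-- The matrix has entries of absolute value `< 1`. -/
private def Sm {n : ℕ} (v : Pl F) (M : Matrix (Fin n) (Fin n) (Fv v)) : Prop :=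
  ∀ a b, Valued.v (M a b) < 1

private theorem sm_add {n : ℕ} {v : Pl F} {M N : Matrix (Fin n) (Fin n) (Fv v)} (hM : Sm v M)
    (hN : Sm v N) : Sm v (M + N) := fun a b =>
  lt_of_le_of_lt (Valuation.map_add _ _ _) (max_lt (hM a b) (hN a b))

private theorem sm_mul {n : ℕ} {v : Pl F} {M N : Matrix (Fin n) (Fin n) (Fv v)} (hM : Sm v M)
    (hN : Sm v N) : Sm v (M * N) := by
  intro a b
  rw [Matrix.mul_apply]
  refine Valuation.map_sum_lt _ one_ne_zero fun j _ => ?_
  rw [map_mul]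
  exact mul_lt_one_of_nonneg_of_lt_one_left zero_le (hM a j) (hN j b).le

private theorem sm_one {n : ℕ} {v : Pl F} {M N : Matrix (Fin n) (Fin n) (Fv v)}
    (hM : Sm v (M - 1)) (hN : Sm v (N - 1)) : Sm v (M * N - 1) := by
  have h : M * N - 1 = (M - 1) * (N - 1) + ((M - 1) + (N - 1)) := by noncomm_ring
  rw [h]
  exact sm_add (sm_mul hM hN) (sm_add hM hN)

/-- The principal congruence subgroup at `v`. -/
def smU (θ : USpl A S) (v : {v : Pl F // v ∉ S}) : Subgroup (UV A v.1) where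
  carrier := {g | Sm v.1 (θ.θ v g.1.1 - 1) ∧ Sm v.1 (θ.θ v (g⁻¹ : UV A v.1).1.1 - 1)}
  one_mem' := by
    have h : Sm v.1 (θ.θ v (1 : UV A v.1).1.1 - 1) := by
      intro a b
      rw [Subgroup.coe_one, Units.val_one, map_one, sub_self, Matrix.zero_apply, map_zero]
      exact zero_lt_one
    refine ⟨h, ?_⟩
    rw [inv_one]
    exact h
  mul_mem' := by
    rintro g h ⟨h1, h2⟩ ⟨h3, h4⟩
    refine ⟨?_, ?_⟩
    · rw [Subgroup.coe_mul, Units.val_mul, map_mul]
      exact sm_one h1 h3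
    · rw [_root_.mul_inv_rev, Subgroup.coe_mul, Units.val_mul, map_mul]
      exact sm_one h4 h2
  inv_mem' := by
    rintro g ⟨h1, h2⟩
    refine ⟨h2, ?_⟩
    rw [inv_inv]
    exact h1

theorem continuous_thU (θ : USpl A S) (v : {v : Pl F // v ∉ S}) : Continuous (θ.θ v) := by
  let f : ((Fin 2 × Fin A.n × Fin A.n) → Fv v.1) →ₗ[Fv v.1]
      Matrix (Fin A.n) (Fin A.n) (Fv v.1) := (θ.θ v).toLinearMap
  exact LinearMap.continuous_on_pi f

theorem isOpen_smU (θ : USpl A S) (v : {v : Pl F // v ∉ S}) :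
    IsOpen (smU θ v : Set (UV A v.1)) := by
  have hb : IsOpen {x : Fv v.1 | Valued.v x < 1} := CG2.isOpen_val_lt v.1 1 one_ne_zero
  have h1 : IsOpen {M : Matrix (Fin A.n) (Fin A.n) (Fv v.1) | Sm v.1 (M - 1)} := by
    have h2 : {M : Matrix (Fin A.n) (Fin A.n) (Fv v.1) | Sm v.1 (M - 1)} =
        ⋂ a, ⋂ b, {M | Valued.v ((M - 1) a b) < 1} := by
      ext M
      simp [Sm]
    rw [h2]
    refine isOpen_iInter_of_finite fun a => isOpen_iInter_of_finite fun b => ?_
    exact hb.preimage ((continuous_id.sub continuous_const).matrix_elem a b)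
  have h3 : (smU θ v : Set (UV A v.1)) =
      (fun g : UV A v.1 => θ.θ v g.1.1) ⁻¹' {M | Sm v.1 (M - 1)} ∩
      (fun g : UV A v.1 => θ.θ v (g⁻¹ : UV A v.1).1.1) ⁻¹' {M | Sm v.1 (M - 1)} := rfl
  rw [h3]
  have hc : Continuous fun g : UV A v.1 => θ.θ v g.1.1 :=
    (continuous_thU θ v).comp (Units.continuous_val.comp continuous_subtype_val)
  exact (h1.preimage hc).inter (h1.preimage (hc.comp continuous_inv))

/-- The elements of `Kf` which are in the principal congruence subgroups at the three places. -/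
def smK (θ : USpl A S) (v : Fin 3 → {v : Pl F // v ∉ S}) (Kf : Subgroup (sysU A).A) :
    Subgroup (sysU A).A :=
  ((Kf ⊓ (smU θ (v 0)).comap (evA (𝒟 := sysU A) (v 0).1)) ⊓
    (smU θ (v 1)).comap (evA (𝒟 := sysU A) (v 1).1)) ⊓
      (smU θ (v 2)).comap (evA (𝒟 := sysU A) (v 2).1)

theorem oc_smK (θ : USpl A S) (v : Fin 3 → {v : Pl F // v ∉ S}) {Kf : Subgroup (sysU A).A}
    (hK : OC Kf) : OC (smK θ v Kf) :=
  oc_small (oc_small (oc_small hK _ _ (isOpen_smU θ (v 0))) _ _ (isOpen_smU θ (v 1))) _ _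
    (isOpen_smU θ (v 2))

theorem smK_le (θ : USpl A S) (v : Fin 3 → {v : Pl F // v ∉ S}) (Kf : Subgroup (sysU A).A) :
    smK θ v Kf ≤ Kf := fun _ h => h.1.1.1

theorem smallAt_smK (θ : USpl A S) (v : Fin 3 → {v : Pl F // v ∉ S})
    {Kf K' : Subgroup (sysU A).A} (h : K' ≤ smK θ v Kf) (i : Fin 3) : SmallAtU θ (v i) K' := by
  intro k hk a b
  have h1 := h hk
  fin_cases i
  · exact h1.1.1.2.1 a b
  · exact h1.1.2.1 a b
  · exact h1.2.1 a b

theorem single_mem_smK (θ : USpl A S) (v : Fin 3 → {v : Pl F // v ∉ S})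
    {Kf : Subgroup (sysU A).A} {w : Pl F} (hw : ∀ i, (v i).1 ≠ w) (k : (sysU A).L w)
    (hk : single w k ∈ Kf) : (single w k : (sysU A).A) ∈ smK θ v Kf := by
  have h : ∀ i, (single w k : (sysU A).A) ∈ (smU θ (v i)).comap (evA (𝒟 := sysU A) (v i).1) := by
    intro i
    change evA (𝒟 := sysU A) (v i).1 (single w k) ∈ (smU θ (v i) : Subgroup ((sysU A).L (v i).1))
    rw [evA_apply, single_ne (hw i)]
    exact (smU θ (v i)).one_mem
  exact ⟨⟨⟨hk, h 0⟩, h 1⟩, h 2⟩

end Pool.Agent.CGU
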