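import Pool.Agent.CGU.AGB
import Pool.Agent.CGU.Sm
import Pool.Agent.CGU.GRes
import Pool.Agent.CGN.CED
import Pool.Agent.CGN.Enl
import Pool.Agent.CGN.GalTr
import Pool.Agent.CGQ.CEE

/-!
# The vanishing theorem for unitary groups
-/

noncomputable section

namespace Pool.Agent.CGU

open NumberField IsDedekindDomain Matrix
open Pool.Agent.CG2 (Pl Fv Ov GalF Fbar Zbar Over IsInertia IsFrob Nm)
open Pool.Agent.CG2.GalFinAux (below)
open Pool.Agent.CGQ hiding eig triv HeckeAlg Idx Chart HypOff Std EigFam Dead unram_triv UnramOff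
  Cont InSupport KD dead_all exists_ptfam
open Pool.Agent.CGN (Chart HeckeAlg Idx eig heckePol dualL lk HypOff Std Split incj Dead triv
  unram_triv UnramOff Cont InSupport TD KD dead_all kd_zero kd_one kd_sub kd_top GZ Out Chart.res
  algMap algRes eig_res isMaximal_res inSupport_res finite_nonstd finite_ram)

variable {F : Type} [Field F] [NumberField F] {K : Type} [Field K] [NumberField K] [Algebra F K]

/-- Vanishing above the dimension and finiteness, for all open compact torsion-free subgroups. -/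
theorem van_fin {A : UD F} {κ : K →ₐ[F] BF A} (hU : IsUni A κ) (hn : 3 ≤ A.n) (hr : 1 ≤ A.rk K)
    (p : ℕ) [Fact p.Prime] (Kf : Subgroup (sysU A).A) (hK : OC Kf) (hTF : TorsionFree Kf)
    (O : Type) [CommRing O] :
    (∀ (W : Type) [AddCommGroup W] [Module O W] (τ : Representation O Kf W) (i : ℕ),
      A.dim K < i → Subsingleton (groupCohomology (coeff Kf τ) i)) ∧
    (IsNoetherianRing O → ∀ i, FinH Kf O i) := by
  obtain ⟨K₀, hK₀, -, hT⟩ := exists_ksys_u hU hn hr p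
  obtain ⟨N₀, hN⟩ := crude_bound_u hU hn Kf hK hTF
  have hs : ∀ K' : Subgroup (sysU A).A, OC K' → K' ≤ K₀ → ∀ (O : Type) [CommRing O] (W : Type)
      [AddCommGroup W] [Module O W] (τ : Representation O K' W) (i : ℕ), A.dim K < i →
      Subsingleton (groupCohomology (coeff K' τ) i) := by
    intro K' hK' hle O _ W _ _ τ i hi
    obtain ⟨T, hd, -⟩ := hT K' hle hK'
    exact coeff_van T τ i (by omega)
  have hv := fun (W : Type) [AddCommGroup W] [Module O W] (τ : Representation O Kf W) (i : ℕ)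
    (hi : A.dim K < i) => upper_all hK hK₀ (A.dim K) N₀ hN hs O W τ i hi
  refine ⟨hv, fun _ i => fin_all O hK hK₀ (A.dim K) hv (fun K' hK' hle i => ?_) i⟩
  obtain ⟨T, -, -⟩ := hT K' hle hK'
  exact coeff_fg T i

theorem torsionFree_le {A : UD F} {Kf K' : Subgroup (sysU A).A} (hTF : TorsionFree Kf)
    (h : K' ≤ Kf) : TorsionFree K' := fun g γ n hn hg h1 => hTF g γ n hn (h hg) h1

/-- The theorem when the standard order is maximal and the group `Kf` is maximal outside `S`; the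
place `v₃` and the group `K₀` are given by the part about the generic unit. -/
theorem main_std {A : UD F} {κ : K →ₐ[F] BF A} (hUni : IsUni A κ) (hn : 3 ≤ A.n) {p : ℕ}
    [Fact p.Prime] {S : Set (Pl F)}
    (hS : SFin K S) (θ : USpl A S) (hstd : Std (chartU θ)) (Kf : Subgroup (sysU A).A)
    (hK : OC Kf) (hTF : TorsionFree Kf) (hΦ : HypOff Kf (chartU θ)) {O : Type} [CommRing O]
    [IsDomain O] [IsDiscreteValuationRing O] [CharP (IsLocalRing.ResidueField O) p]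
    (hv : ∀ (W : Type) [AddCommGroup W] [Module O W] (τ : Representation O Kf W) (i : ℕ),
      A.dim K < i → Subsingleton (groupCohomology (coeff Kf τ) i)) (hfin : ∀ i, FinH Kf O i)
    {W : Type} [AddCommGroup W] [Module O W]
    [Module.Finite O W] (τ : Representation O Kf W) (hU : UnramOff Kf τ (chartU θ))
    (hτ : Cont Kf τ (chartU θ)) (m : Ideal (HeckeAlg A.n S O)) [m.IsMaximal] (k : Type) [Field k]
    [Algebra (HeckeAlg A.n S O ⧸ m) k] {j : K →ₐ[F] Fbar F} {ψ : Fbar K ≃+* Fbar F} {ε : ℤˣ}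
    {ρ : GalF F →* LG A.n k} {ω : fixK j →* kˣ} {v₃ : Pl K}
    (R : RepU κ j ψ θ p (fun v t => eig m k (v, t)) ε ρ ω v₃)
    (K₀ : Subgroup (sysU A).A) (hK₀ : OC K₀)
    (h₀ : ∀ (v : {v : Pl F // v ∉ S}) (k : (sysU A).L v.1), (chartU θ).e v k ∈ GZ A.n v.1 →
      single v.1 k ∈ K₀)
    (hT : ∀ K' : Subgroup (sysU A).A, K' ≤ K₀ → OC K' →
      ∃ T : TSys K', T.C.n0 = A.dim K ∧ ∀ γ, (sysU A).sgn γ = 1 → T.ε γ = 1)
    (hG0 : ∀ K' : Subgroup (sysU A).A, K' ≤ K₀ → OC K' → GenZU A κ v₃ K')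
    (hG1 : 2 ≤ A.rk K → ∀ K' : Subgroup (sysU A).A, K' ≤ K₀ → OC K' → GenOU A κ p v₃ K')
    (i : ℕ) (hi : InSupport Kf τ hU i m) :
    min 2 (A.rk K) ≤ i ∧ i + min 2 (A.rk K) ≤ A.dim K := by
  classical
  have hTK : ∀ K' : Subgroup (sysU A).A, K' ≤ Kf → K' ≤ K₀ → OC K' →
      (∃ T : TSys K', T.C.n0 = A.dim K ∧ ∀ γ, (sysU A).sgn γ = 1 → T.ε γ = 1) ∧
        TorsionFree K' := fun K' h h' hOC => ⟨hT K' h' hOC, torsionFree_le hTF h⟩
  have t0 : TD Kf K₀ (chartU θ) 0 m := by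
    intro K' h h' hOC hΦ'
    obtain ⟨⟨T, hd, hε⟩, hTF'⟩ := hTK K' h h' hOC
    exact dead_zero hUni hn hS hstd hOC hΦ' (coeff_fg T 0 _ _) m k R (hG0 K' h' hOC)
  have t1 : 2 ≤ A.rk K → TD Kf K₀ (chartU θ) 1 m := by
    intro hr2 K' h h' hOC hΦ'
    obtain ⟨⟨T, hd, hε⟩, hTF'⟩ := hTK K' h h' hOC
    exact dead_one hUni hn hS hstd hOC hΦ' (coeff_fg T 1 _ _) m k R (hG1 hr2 K' h' hOC)
  have td : TD Kf K₀ (chartU θ) (A.dim K) m := by
    intro K' h h' hOC hΦ'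
    obtain ⟨⟨T, hd, hε⟩, hTF'⟩ := hTK K' h h' hOC
    rw [← hd]
    exact dead_top T hε hUni hn hS hstd hOC hΦ' m k R (hG0 K' h' hOC)
  have hd2 : 2 ≤ A.dim K := by
    obtain ⟨⟨T, hd, hε⟩, hTF'⟩ := hTK (Kf ⊓ K₀) inf_le_left inf_le_right (hK.inter hK₀)
    rw [← hd]
    exact T.two
  obtain ⟨n, hn'⟩ : ∃ n, n + 1 = A.dim K := ⟨A.dim K - 1, by omega⟩
  have ts : 2 ≤ A.rk K → TD Kf K₀ (chartU θ) n m := by
    intro hr2 K' h h' hOC hΦ'
    obtain ⟨⟨T, hd, hε⟩, hTF'⟩ := hTK K' h h' hOC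
    exact dead_sub T hε hUni hn hS hstd hOC hTF' hΦ' n (by rw [hd, hn']) m k R
      (hG1 hr2 K' h' hOC)
  obtain ⟨z, hz⟩ := hi
  have dead : Dead Kf τ hU i m → False := fun hd => by
    obtain ⟨t, ht, h0⟩ := hd z
    exact hz t ht h0
  have all : ∀ i, KD Kf (chartU θ) i m → Dead Kf τ hU i m := fun i hkd =>
    dead_all i (hfin i) τ hU hτ m hkd
  by_contra hcon
  have hcases : i = 0 ∨ (i = 1 ∧ 2 ≤ A.rk K) ∨ (i = n ∧ 2 ≤ A.rk K) ∨ i = A.dim K ∨
      A.dim K < i := by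
    omega
  rcases hcases with rfl | ⟨rfl, hr2⟩ | ⟨rfl, hr2⟩ | rfl | hgt
  · exact dead (all 0 (kd_zero hK hK₀ hΦ h₀ m t0))
  · exact dead (all 1 (kd_one hK hK₀ hΦ h₀ m t0 (t1 hr2)))
  · refine dead (all _ (kd_sub hK hK₀ hΦ h₀ m _ (fun W _ _ τ => hv W τ _ (by omega)) (ts hr2) ?_))
    rw [hn']
    exact td
  · exact dead (all _ (kd_top hK hK₀ hΦ h₀ m _ (fun W _ _ τ => hv W τ _ (by omega)) td))
  · have hsub := hv W τ i hgt
    exact hz 1 (fun h => Ideal.IsPrime.ne_top' ((Ideal.eq_top_iff_one m).2 h))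
      (Subsingleton.elim _ _)

theorem SFin.union {S T : Set (Pl F)} (hS : SFin K S) (hT : T.Finite) : SFin K (S ∪ T) := by
  have h1 : {v : Pl F | v ∈ S ∧ Split K v}.Finite := hS
  have h2 : {v : Pl F | v ∈ S ∪ T ∧ Split K v} ⊆ {v : Pl F | v ∈ S ∧ Split K v} ∪ T := by
    rintro w ⟨hw, hsp⟩
    rcases hw with hw | hw
    · exact Or.inl ⟨hw, hsp⟩
    · exact Or.inr hw
  exact (h1.union hT).subset h2

/-- The restriction of the isomorphisms of the local groups. -/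
def USpl.res {A : UD F} {S S' : Set (Pl F)} (θ : USpl A S) (h : S ⊆ S') : USpl A S' where
  θ v := θ.θ (Out h v)
  bij v := θ.bij (Out h v)

theorem cont_res {𝒟 : Sys F} {n : ℕ} {S S' : Set (Pl F)} {O : Type} [CommRing O] [IsLocalRing O]
    {W : Type} [AddCommGroup W] [Module O W] {Kf : Subgroup 𝒟.A} {τ : Representation O Kf W}
    {φ : Chart n 𝒟 S} (h : S ⊆ S') (hτ : Cont Kf τ φ) : Cont Kf τ (φ.res h) := by
  intro n
  obtain ⟨U, h1, h2, h3, h4⟩ := hτ n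
  exact ⟨U, h1, h2, fun v k hk => h3 (Out h v) k hk, h4⟩

omit [NumberField F] [NumberField K] in
/-- The isomorphism of the algebraic closures which extends `j`. -/
theorem exists_psi (j : K →ₐ[F] Fbar F) :
    ∃ ψ : Fbar K ≃+* Fbar F, ∀ a : K, ψ (algebraMap K (Fbar K) a) = j a := by
  let _ : Algebra K (Fbar F) := j.toRingHom.toAlgebra
  have _ : IsScalarTower F K (Fbar F) := IsScalarTower.of_algebraMap_eq fun x =>
    (j.commutes x).symm
  have halg : Algebra.IsAlgebraic K (Fbar F) := Algebra.IsAlgebraic.tower_top (K := F) K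
  have _ : IsAlgClosure K (Fbar F) := ⟨inferInstance, halg⟩
  exact ⟨(IsAlgClosure.equiv K (Fbar K) (Fbar F) : Fbar K ≃+* Fbar F), fun a =>
    (IsAlgClosure.equiv K (Fbar K) (Fbar F)).commutes a⟩

/-- The properties of an attached representation at almost all places. -/
theorem exists_repU {A : UD F} {κ : K →ₐ[F] BF A} {j : K →ₐ[F] Fbar F} {S : Set (Pl F)}
    {θ : USpl A S} {p : ℕ} (hSp : ∀ v : Pl F, ((p : ℕ) : 𝓞 F) ∈ v.asIdeal → v ∈ S)
    {O : Type} [CommRing O] {m : Ideal (HeckeAlg A.n S O)} {k : Type} [Field k]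
    [Algebra (HeckeAlg A.n S O ⧸ m) k] {ρ : GalF F →* LG A.n k} (hA : AttachedU κ j θ m k ρ)
    (hne : NonEisU ρ) :
    ∃ (ψ : Fbar K ≃+* Fbar F) (ε : ℤˣ) (ω : fixK j →* kˣ) (T : Set (Pl F)), T.Finite ∧
      ∀ w : Pl K, below F w ∉ S → below F w ∉ T →
        RepU κ j ψ θ p (fun v t => eig m k (v, t)) ε ρ ω w := by
  obtain ⟨hopen, hr, ε, ω, hω, hfr⟩ := hA
  obtain ⟨ψ, hψ⟩ := exists_psi j
  have hram := finite_ram (ω.comp (toGF j ψ hψ)) (by
    rw [← MonoidHom.comap_ker]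
    exact toGF_open j ψ hψ _ hω)
  refine ⟨ψ, ε, ω, _, hram.image (below F), fun w hw hwT => ?_⟩
  refine ⟨hψ, hopen, hr, hω, fun v Q hQ σ hσ => (hfr v Q hQ).2 σ hσ, hne, ?_, ?_⟩
  · intro hp
    apply hw
    apply hSp
    change ((p : ℕ) : 𝓞 F) ∈ w.asIdeal.comap (algebraMap (𝓞 F) (𝓞 K))
    rw [Ideal.mem_comap, map_natCast]
    exact hp
  · intro Q hQ g hg
    obtain ⟨t1, t2, t3, -⟩ := transport j ψ hψ hQ
    constructor
    · have h1 := (hfr ⟨below F w, hw⟩ (trQ ψ Q) t1).1 _ (t3 g hg)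
      change (ρ ((toGF j ψ hψ g : fixK j) : GalF F)).left = 1
      rw [h1]
      rfl
    · by_contra hcon
      exact hwT ⟨w, ⟨Q, hQ, g, hg, hcon⟩, rfl⟩

/-- **MAIN.** -/
theorem main_all {A : UD F} {κ : K →ₐ[F] BF A} (hUni : IsUni A κ) (hn : 3 ≤ A.n)
    (hr : 1 ≤ A.rk K) {p : ℕ} [Fact p.Prime] {S : Set (Pl F)} (hS : SFin K S)
    (hSp : ∀ v : Pl F, ((p : ℕ) : 𝓞 F) ∈ v.asIdeal → v ∈ S) (θ : USpl A S)
    (Kf : Subgroup (sysU A).A) (hK : OC Kf) (hTF : TorsionFree Kf)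
    (hΦ : HypOff Kf (chartU θ)) {O : Type} [CommRing O] [IsDomain O] [IsDiscreteValuationRing O]
    [CharP (IsLocalRing.ResidueField O) p] {W : Type} [AddCommGroup W] [Module O W]
    [Module.Finite O W] (τ : Representation O Kf W) (hU : UnramOff Kf τ (chartU θ))
    (hτ : Cont Kf τ (chartU θ)) (m : Ideal (HeckeAlg A.n S O)) [m.IsMaximal] (k : Type) [Field k]
    [Algebra (HeckeAlg A.n S O ⧸ m) k] (j : K →ₐ[F] Fbar F) (ρ : GalF F →* LG A.n k)
    (hA : AttachedU κ j θ m k ρ) (hne : NonEisU ρ) (i : ℕ) (hi : InSupport Kf τ hU i m) :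
    min 2 (A.rk K) ≤ i ∧ i + min 2 (A.rk K) ≤ A.dim K := by
  classical
  obtain ⟨hv, hf⟩ := van_fin hUni hn hr p Kf hK hTF O
  have hfin : ∀ i, FinH Kf O i := hf inferInstance
  obtain ⟨ks, hks, hksv, hT⟩ := exists_ksys_u hUni hn hr p
  set N : Set (Pl F) := {v : Pl F | ∃ h : v ∉ S, ¬ ∀ k, (chartU θ).e ⟨v, h⟩ k ∈ GZ A.n v ↔
    k ∈ (sysU A).B v} with hN
  have hNf : N.Finite := finite_nonstd hK hΦ
  obtain ⟨ψ, ε, ω, T, hTf, hR⟩ := exists_repU hSp hA hne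
  -- the three places
  obtain ⟨v, v₃, hv0, hv3, hgen⟩ := exists_gen_u hUni hn hr p hS θ (T ∪ N) (hTf.union hNf)
  have hb : below F v₃ = (v 2).1 := by
    obtain ⟨c, hc, -, -⟩ := exists_conj hUni
    obtain ⟨w, w', hw, hwb, -⟩ := exists_w hUni (by omega) c hc θ (v 2)
    rw [isW_unique hv3 hw, hwb]
  have R := hR v₃ (by rw [hb]; exact (v 2).2) (by rw [hb]; exact fun hh => hv0 2 (Or.inl hh))
  set S' : Set (Pl F) := S ∪ (N ∪ Set.range fun i => (v i).1) with hS'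
  have h : S ⊆ S' := Set.subset_union_left
  have hU₁ : UnramOff Kf τ ((chartU θ).res h) := fun v => (hU (Out h v)).res h
  have hU' : UnramOff Kf τ (chartU (θ.res h)) := hU₁
  have hi' : InSupport Kf τ hU' i (m.comap (algMap A.n h O)) := inSupport_res h hU₁ hi
  have hΦ' : HypOff Kf (chartU (θ.res h)) := fun v => (hΦ (Out h v)).res h
  have hτ₁ : Cont Kf τ ((chartU θ).res h) := cont_res h hτ
  have hτ' : Cont Kf τ (chartU (θ.res h)) := hτ₁
  have hmax := isMaximal_res h (hfin i W τ) hi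
  have hSF : SFin K S' := hS.union (hNf.union (Set.finite_range fun i => (v i).1))
  have hstd : Std (chartU (θ.res h)) := by
    intro w k
    by_contra hne
    exact w.2 (Or.inr (Or.inl ⟨(Out h w).2, fun hall => hne (hall k)⟩))
  have hlam : (fun (w : {v : Pl F // v ∉ S'}) (t : Option (Fin A.n)) =>
      @eig F _ _ A.n S' O _ (m.comap (algMap A.n h O)) k _ (algRes h m k) (w, t)) =
      fun w t => eig m k (Out h w, t) := by
    funext w t
    exact eig_res h m k (w, t)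
  have R' : RepU κ j ψ (θ.res h) p (fun (w : {v : Pl F // v ∉ S'}) (t : Option (Fin A.n)) =>
      @eig F _ _ A.n S' O _ (m.comap (algMap A.n h O)) k _ (algRes h m k) (w, t)) ε ρ ω v₃ := by
    rw [hlam]
    exact ⟨R.ψj, R.ρo, R.hr, R.ωo, fun w Q hQ σ hσ => R.fr (Out h w) Q hQ σ hσ, R.ne, R.v3, R.ram⟩
  refine @main_std F _ _ K _ _ _ A κ hUni hn p _ S' hSF
    (θ.res h) hstd Kf hK hTF hΦ' O _ _ _ _ hv hfin
    W _ _ _ τ hU' hτ' (m.comap (algMap A.n h O)) hmax k _ (algRes h m k) j ψ ε ρ ω v₃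
    R' (smK θ v ks) (oc_smK θ v hks) ?_ ?_ ?_ ?_ i hi'
  · intro w k hk
    refine single_mem_smK θ v (fun i hi => w.2 (Or.inr (Or.inr ⟨i, hi⟩))) k ?_
    exact hksv w.1 (fun hp => w.2 (Or.inl (hSp w.1 hp))) k ((hstd w k).1 hk)
  · intro K' hle hOC
    exact hT K' (hle.trans (smK_le θ v ks)) hOC
  · intro K' hle hOC y
    exact (hgen K' hOC (fun i => smallAt_smK θ v hle i) y).1
  · intro hr2 K' hle hOC y k _ _ f hf c₀ hc₀ hne0
    exact (hgen K' hOC (fun i => smallAt_smK θ v hle i) y).2 hr2 k f hf c₀ hc₀ hne0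

end Pool.Agent.CGU
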