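import Pool.Agent.CGU.IDefs
import Pool.Agent.CGN.USpl

/-!
# The two places of `K` above a split place of `F`, and towers of places
-/

noncomputable section

namespace Pool.Agent.CGU

open NumberField IsDedekindDomain Matrix
open Pool.Agent.CG2 (Pl Fv Ov)
open Pool.Agent.CG2.GalFinAux (below)
open Pool.Agent.CGN (Split abv mem_abv PPow)

variable {F : Type} [Field F] [NumberField F] {K : Type} [Field K] [NumberField K] [Algebra F K]
  {M : Type} [Field M] [NumberField M] [Algebra F M] [Algebra K M]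

/-- The place of `F` below the place of `K` below `W`. -/
theorem below_below (hT : IsScalarTower F K M) (W : Pl M) : below F (below K W) = below F W := by
  apply HeightOneSpectrum.ext
  ext a
  change algebraMap (𝓞 K) (𝓞 M) (algebraMap (𝓞 F) (𝓞 K) a) ∈ W.asIdeal ↔
    algebraMap (𝓞 F) (𝓞 M) a ∈ W.asIdeal
  have h : algebraMap (𝓞 K) (𝓞 M) (algebraMap (𝓞 F) (𝓞 K) a) = algebraMap (𝓞 F) (𝓞 M) a := by
    apply RingOfIntegers.ext
    exact (IsScalarTower.algebraMap_apply F K M (a : F)).symm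
  rw [h]

/-- The conjugate `W'` of a place `W` above `w` is above another place of `K`. -/
theorem below_conj_ne (c : K ≃ₐ[F] K) (τ : M ≃ₐ[F] M)
    (hτ : ∀ a : K, τ (algebraMap K M a) = algebraMap K M (c a)) {W W' : Pl M} {w : Pl K}
    (hW : below K W = w)
    (hww : ∃ w' : Pl K, w ≠ w' ∧
      ∀ a a' : 𝓞 K, (a' : K) = c (a : K) → (a ∈ w'.asIdeal ↔ a' ∈ w.asIdeal))
    (hWW : ∀ x x' : 𝓞 M, (x' : M) = τ (x : M) → (x ∈ W'.asIdeal ↔ x' ∈ W.asIdeal)) :
    below K W' ≠ w := by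
  obtain ⟨w', hne, hw'⟩ := hww
  have h : below K W' = w' := by
    apply HeightOneSpectrum.ext
    ext a
    have hint : IsIntegral ℤ (c (a : K)) := map_isIntegral_int c a.2
    set a' : 𝓞 K := ⟨c (a : K), hint⟩ with ha'
    rw [hw' a a' rfl, ← hW]
    exact hWW (algebraMap (𝓞 K) (𝓞 M) a) (algebraMap (𝓞 K) (𝓞 M) a') (hτ (a : K)).symm
  rw [h]
  exact hne.symm

/- MODULE U_CB -/

private theorem U_CB_tower (hT : IsScalarTower F K M) (a : 𝓞 F) :
    algebraMap (𝓞 K) (𝓞 M) (algebraMap (𝓞 F) (𝓞 K) a) = algebraMap (𝓞 F) (𝓞 M) a := by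
  apply RingOfIntegers.ext
  exact (IsScalarTower.algebraMap_apply F K M (a : F)).symm

/-- **U_CB (1).** Valuations and residues above a split place of `F` and a completely split place
of `K`.
PROOF. `split_val`, `split_res` for `K/F` at `w` (with `P = abv K v`) and for `M/K` at `W` (with
`P = abv M w`); `algebraMap F M = (algebraMap K M).comp (algebraMap F K)`. -/
theorem tower_split (hT : IsScalarTower F K M) {v : Pl F} (hv : Split K v) {w : Pl K}
    (hw : below F w = v) (hw' : Split M w) {W : Pl M} (hW : W ∈ abv M w) :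
    below F W = v ∧ (∀ x : F, W.valuation M (algebraMap F M x) = v.valuation F x) ∧
      ∀ z : 𝓞 M, ∃ a : 𝓞 F, z - algebraMap (𝓞 F) (𝓞 M) a ∈ W.asIdeal := by
  have hWw : below K W = w := mem_abv.1 hW
  have hwv : w ∈ abv K v := mem_abv.2 hw
  refine ⟨?_, ?_, ?_⟩
  · rw [← below_below hT W, hWw, hw]
  · intro x
    rw [IsScalarTower.algebraMap_apply F K M x,
      CGN.split_val (fun _ => mem_abv) hw' hW (algebraMap F K x),
      CGN.split_val (P := abv K v) (fun _ => mem_abv) hv hwv x]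
  · intro z
    obtain ⟨a, ha⟩ := CGN.split_res (fun _ => mem_abv) hw' hW z
    obtain ⟨b, hb⟩ := CGN.split_res (P := abv K v) (fun _ => mem_abv) hv hwv a
    refine ⟨b, ?_⟩
    have h1 : algebraMap (𝓞 K) (𝓞 M) (a - algebraMap (𝓞 F) (𝓞 K) b) ∈ W.asIdeal := by
      rw [← hWw] at hb
      exact hb
    have h2 := W.asIdeal.add_mem ha h1
    rw [map_sub, U_CB_tower hT, sub_add_sub_cancel] at h2
    exact h2

/-- **U_CB (2).** The power residue relation over `K` and over `F`.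
PROOF. (`←`) Take the same elements. (`→`) For `a`, `b`, `x` in `𝓞 K` there are `a'`, `b'`, `x'` in
`𝓞 F` congruent to them modulo `w` (`split_res`), so modulo `W` and `W'`, and
`a' - x' ^ m b'` is in `w ∩ 𝓞 F = v`. -/
theorem ppow_base (hT : IsScalarTower F K M) {v : Pl F} (hv : Split K v) {w : Pl K}
    (hw : below F w = v) {W W' : Pl M} (hW : W ∈ abv M w) (hW' : W' ∈ abv M w) (m : ℕ) (u : 𝓞 M) :
    PPow w m W W' u ↔ PPow v m W W' u := by
  have hWw : below K W = w := mem_abv.1 hW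
  have hWw' : below K W' = w := mem_abv.1 hW'
  have hwv : w ∈ abv K v := mem_abv.2 hw
  have hres : ∀ z : 𝓞 K, ∃ a : 𝓞 F, z - algebraMap (𝓞 F) (𝓞 K) a ∈ w.asIdeal :=
    fun z => CGN.split_res (P := abv K v) (fun _ => mem_abv) hv hwv z
  have hup : ∀ V : Pl M, below K V = w → ∀ (z : 𝓞 K) (a : 𝓞 F),
      z - algebraMap (𝓞 F) (𝓞 K) a ∈ w.asIdeal → algebraMap (𝓞 K) (𝓞 M) z - u ∈ V.asIdeal →
      algebraMap (𝓞 F) (𝓞 M) a - u ∈ V.asIdeal := by
    intro V hV z a hz hu
    have h1 : algebraMap (𝓞 K) (𝓞 M) (z - algebraMap (𝓞 F) (𝓞 K) a) ∈ V.asIdeal := by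
      rw [← hV] at hz
      exact hz
    have h2 := V.asIdeal.sub_mem hu h1
    rw [map_sub, U_CB_tower hT] at h2
    have h3 : algebraMap (𝓞 K) (𝓞 M) z - u - (algebraMap (𝓞 K) (𝓞 M) z -
        algebraMap (𝓞 F) (𝓞 M) a) = algebraMap (𝓞 F) (𝓞 M) a - u := by ring
    rwa [h3] at h2
  constructor
  · rintro ⟨a, b, x, ha, hb, hx⟩
    obtain ⟨a', ha'⟩ := hres a
    obtain ⟨b', hb'⟩ := hres b
    obtain ⟨x', hx'⟩ := hres x
    refine ⟨a', b', x', hup W hWw a a' ha' ha, hup W' hWw' b b' hb' hb, ?_⟩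
    have h1 : algebraMap (𝓞 F) (𝓞 K) (a' - x' ^ m * b') ∈ w.asIdeal := by
      rw [← Ideal.Quotient.eq_zero_iff_mem] at hx ⊢
      rw [← Ideal.Quotient.eq] at ha' hb' hx'
      rw [map_sub, map_mul, map_pow] at hx
      rw [map_sub, map_mul, map_pow, map_sub, map_mul, map_pow, ← ha', ← hb', ← hx']
      exact hx
    rw [← hw]
    exact h1
  · rintro ⟨a, b, x, ha, hb, hx⟩
    refine ⟨algebraMap (𝓞 F) (𝓞 K) a, algebraMap (𝓞 F) (𝓞 K) b, algebraMap (𝓞 F) (𝓞 K) x,
      ?_, ?_, ?_⟩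
    · rw [U_CB_tower hT]
      exact ha
    · rw [U_CB_tower hT]
      exact hb
    · rw [← map_pow, ← map_mul, ← map_sub]
      rw [← hw] at hx
      exact hx

/- END U_CB -/

end Pool.Agent.CGU
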