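import Pool.Agent.CGU.SCI
import Pool.Agent.CGQ.Sys

/-!
# The unitary group of an algebra with involution of the second kind over a number field
-/

noncomputable section

namespace Pool.Agent.CGU

open NumberField IsDedekindDomain
open Pool.Agent.CG2 (Pl Fv Ov)
open Pool.Agent.CGQ (Sys)
open Pool.Agent.CGN (SC continuous_alg continuous_co)

/-- The data of an algebra of dimension `2 n²` over the number field `F` with an `F`-linear
involution: structure constants in the ring of integers. -/
structure UD (F : Type) [Field F] [NumberField F] where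
  /-- the degree -/
  n : ℕ
  /-- the structure constants -/
  s : SCI (Fin 2 × Fin n × Fin n) (𝓞 F)

variable {F : Type} [Field F] [NumberField F]

/-- The structure constants as elements of `F`. -/
def UD.sF (A : UD F) : SCI (Fin 2 × Fin A.n × Fin A.n) F := A.s.map (algebraMap (𝓞 F) F)

/-- The algebra `B` over `F`. -/
abbrev BF (A : UD F) : Type := A.sF.toSC.Alg

/-- The algebra `B ⊗ E` for a homomorphism `φ : F → E`. -/
abbrev BE (A : UD F) {E : Type} [CommRing E] (φ : F →+* E) : Type := (A.sF.map φ).toSC.Alg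

/-- The embedding of `B` in `B ⊗ E`. -/
def bE (A : UD F) {E : Type} [CommRing E] (φ : F →+* E) : BF A →+* BE A φ := A.sF.hom φ

@[simp] theorem bE_co (A : UD F) {E : Type} [CommRing E] (φ : F →+* E) (x : BF A)
    (i : Fin 2 × Fin A.n × Fin A.n) : (bE A φ x).co i = φ (x.co i) := rfl

theorem bE_star (A : UD F) {E : Type} [CommRing E] (φ : F →+* E) (x : BF A) :
    bE A φ (star x) = star (bE A φ x) := A.sF.hom_star φ x

/-- The algebra `B_v = B ⊗ F_v`. -/
abbrev BV (A : UD F) (v : Pl F) : Type := BE A (algebraMap F (Fv v))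

/-- The embedding of `B` in `B_v`. -/
abbrev bloc (A : UD F) (v : Pl F) : BF A →+* BV A v := bE A (algebraMap F (Fv v))

/-- The standard order over `O_v`. -/
abbrev BO (A : UD F) (v : Pl F) : Type := (A.s.map (algebraMap (𝓞 F) (Ov v))).toSC.Alg

/-- The inclusion of the standard order over `O_v` in `B_v`. -/
def bint (A : UD F) (v : Pl F) : BO A v →+* BV A v :=
  (A.s.map (algebraMap (𝓞 F) (Ov v))).hom (algebraMap (Ov v) (Fv v))

@[simp] theorem bint_co (A : UD F) (v : Pl F) (x : BO A v) (i : Fin 2 × Fin A.n × Fin A.n) :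
    (bint A v x).co i = (x.co i : Fv v) := rfl

theorem bint_star (A : UD F) (v : Pl F) (x : BO A v) : bint A v (star x) = star (bint A v x) :=
  (A.s.map (algebraMap (𝓞 F) (Ov v))).hom_star (algebraMap (Ov v) (Fv v)) x

theorem bint_inj (A : UD F) (v : Pl F) : Function.Injective (bint A v) := by
  intro x y h
  apply SC.Alg.ext
  intro i
  exact Subtype.ext (congrArg (fun z => SC.Alg.co z i) h)

/-- The unitary group over `F`. -/
abbrev UF (A : UD F) : Type := A.sF.U

/-- The unitary group over `E`. -/
abbrev UE (A : UD F) {E : Type} [CommRing E] (φ : F →+* E) : Type := (A.sF.map φ).U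

/-- The unitary group over `F_v`. -/
abbrev UV (A : UD F) (v : Pl F) : Type := UE A (algebraMap F (Fv v))

/-- The elements of the unitary group over `F_v` in the standard order. -/
def UZ (A : UD F) (v : Pl F) : Subgroup (UV A v) :=
  (Units.map (bint A v : BO A v →* BV A v)).range.subgroupOf _

/-- The coordinates of `x` are in `O_v`. -/
def IntB (A : UD F) (v : Pl F) (x : BV A v) : Prop := ∀ i, Valued.v (x.co i) ≤ 1

theorem intB_iff (A : UD F) (v : Pl F) (x : BV A v) : IntB A v x ↔ ∃ y, bint A v y = x := by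
  constructor
  · intro h
    exact ⟨SC.Alg.mk fun i => ⟨x.co i, h i⟩, rfl⟩
  · rintro ⟨y, rfl⟩ i
    exact (y.co i).2

theorem IntB.star {A : UD F} {v : Pl F} {x : BV A v} (h : IntB A v x) : IntB A v (star x) := by
  obtain ⟨y, rfl⟩ := (intB_iff A v x).1 h
  rw [← bint_star]
  exact (intB_iff A v _).2 ⟨_, rfl⟩

theorem mem_UZ_iff (A : UD F) (v : Pl F) (g : UV A v) : g ∈ UZ A v ↔ IntB A v g.1.1 := by
  constructor
  · rintro ⟨u, hu⟩
    have h := congrArg Units.val hu
    exact (intB_iff A v _).2 ⟨u.1, h⟩
  · intro h1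
    have h2 : IntB A v (g.1⁻¹ : (BV A v)ˣ).1 := by
      rw [← star_eq_inv g.2]
      exact h1.star
    obtain ⟨x, hx⟩ := (intB_iff A v _).1 h1
    obtain ⟨y, hy⟩ := (intB_iff A v _).1 h2
    refine ⟨⟨x, y, ?_, ?_⟩, ?_⟩
    · apply bint_inj A v
      rw [map_mul, hx, hy, map_one, Units.mul_inv]
    · apply bint_inj A v
      rw [map_mul, hx, hy, map_one, Units.inv_mul]
    · exact Units.ext hx

theorem isOpen_IntB (A : UD F) (v : Pl F) : IsOpen {x : BV A v | IntB A v x} := by
  have hb : IsOpen {x : Fv v | Valued.v x ≤ 1} := CG2.isOpen_val_le v 1 one_ne_zero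
  have h : {x : BV A v | IntB A v x} = ⋂ i, {x | Valued.v (x.co i) ≤ 1} := by
    ext x
    simp [IntB]
  rw [h]
  exact isOpen_iInter_of_finite fun i => hb.preimage (continuous_co i)

theorem isOpen_UZ (A : UD F) (v : Pl F) : IsOpen (UZ A v : Set (UV A v)) := by
  have h : (UZ A v : Set (UV A v)) = (fun g : UV A v => g.1.1) ⁻¹' {x | IntB A v x} := by
    ext g
    exact mem_UZ_iff A v g
  rw [h]
  exact (isOpen_IntB A v).preimage (Units.continuous_val.comp continuous_subtype_val)

theorem isClosed_U (A : UD F) (v : Pl F) :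
    IsClosed ((A.sF.map (algebraMap F (Fv v))).U : Set (BV A v)ˣ) := by
  have h : ((A.sF.map (algebraMap F (Fv v))).U : Set (BV A v)ˣ) =
      (fun x : (BV A v)ˣ => star x.1 * x.1) ⁻¹' {1} := rfl
  rw [h]
  refine IsClosed.preimage ?_ isClosed_singleton
  exact (continuous_star_alg.comp Units.continuous_val).mul Units.continuous_val

theorem isCompact_UZ (A : UD F) (v : Pl F) : IsCompact (UZ A v : Set (UV A v)) := by
  have h0 : CompactSpace (Ov v) := inferInstance
  have h1 : CompactSpace (BO A v) := inferInstance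
  have h2 : CompactSpace (BO A v)ˣ := inferInstance
  have hc : Continuous (bint A v) := continuous_alg fun i =>
    (continuous_subtype_val (p := fun x : Fv v => x ∈ Ov v)).comp (continuous_co i)
  have h3 : IsCompact (Set.range (Units.map (bint A v : BO A v →* BV A v))) :=
    isCompact_range (Continuous.units_map _ hc)
  have h4 : (UZ A v : Set (UV A v)) =
      Subtype.val ⁻¹' (Set.range (Units.map (bint A v : BO A v →* BV A v))) := rfl
  rw [h4]
  exact (isClosed_U A v).isClosedEmbedding_subtypeVal.isCompact_preimage h3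

theorem bloc_fin (A : UD F) (x : BF A) : {v : Pl F | ¬ IntB A v (bloc A v x)}.Finite := by
  have h : {v : Pl F | ¬ IntB A v (bloc A v x)} ⊆
      ⋃ i, {v : Pl F | ¬ Valued.v ((x.co i : F) : Fv v) ≤ 1} := by
    intro v hv
    by_contra hc
    simp only [Set.mem_iUnion, Set.mem_ofPred_eq, not_exists, not_not] at hc
    exact hv fun i => hc i
  exact (Set.finite_iUnion fun i => CG2.finite_val_gt _).subset h

/-- The real places `w` of `F` for which `B ⊗ F_w` has a homomorphism to the algebra of the real
matrices of degree `n`. -/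
def SPl (A : UD F) : Type := {w : InfinitePlace F // ∃ h : w.IsReal,
  Nonempty (BE A (InfinitePlace.embedding_of_isReal h) →ₐ[ℝ] Matrix (Fin A.n) (Fin A.n) ℝ)}

variable {A : UD F}

/-- The embedding given by such a place. -/
def SPl.emb (w : SPl A) : F →+* ℝ := InfinitePlace.embedding_of_isReal w.2.choose

/-- A homomorphism from `B_w` to the matrix algebra. -/
def SPl.hom (w : SPl A) : BE A w.emb →ₐ[ℝ] Matrix (Fin A.n) (Fin A.n) ℝ := w.2.choose_spec.some

instance (A : UD F) : Finite (SPl A) := Subtype.finite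

/-- The determinant at such a place. -/
def SPl.det (w : SPl A) (x : BF A) : ℝ := (w.hom (bE A w.emb x)).det

theorem SPl.det_mul (w : SPl A) (x y : BF A) : w.det (x * y) = w.det x * w.det y := by
  rw [SPl.det, map_mul, map_mul, Matrix.det_mul]
  rfl

theorem SPl.det_one (w : SPl A) : w.det 1 = 1 := by
  rw [SPl.det, map_one, map_one, Matrix.det_one]

theorem SPl.det_ne (w : SPl A) (γ : (BF A)ˣ) : w.det γ.1 ≠ 0 := by
  intro h
  have h1 := w.det_mul γ.1 (γ⁻¹ : (BF A)ˣ).1
  rw [Units.mul_inv, w.det_one, h, zero_mul] at h1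
  exact one_ne_zero h1

/-- The signs of the determinants. -/
def dsgn (A : UD F) : UF A →* (SPl A → ℤˣ) where
  toFun γ w := if 0 < w.det γ.1.1 then 1 else -1
  map_one' := by
    funext w
    simp [SPl.det_one]
  map_mul' x y := by
    funext w
    have hx := w.det_ne x.1
    have hy := w.det_ne y.1
    simp only [Subgroup.coe_mul, Units.val_mul, SPl.det_mul, Pi.mul_apply]
    rcases lt_or_gt_of_ne hx with h1 | h1 <;> rcases lt_or_gt_of_ne hy with h2 | h2
    · rw [if_pos (mul_pos_of_neg_of_neg h1 h2), if_neg (not_lt.2 h1.le), if_neg (not_lt.2 h2.le)]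
      simp
    · rw [if_neg (not_lt.2 (mul_nonpos_of_nonpos_of_nonneg h1.le h2.le)), if_neg (not_lt.2 h1.le),
        if_pos h2]
      simp
    · rw [if_neg (not_lt.2 (mul_nonpos_of_nonneg_of_nonpos h1.le h2.le)), if_pos h1,
        if_neg (not_lt.2 h2.le)]
      simp
    · rw [if_pos (mul_pos h1 h2), if_pos h1, if_pos h2]
      simp

/-- The system of groups attached to the unitary group. -/
def sysU (A : UD F) : Sys F where
  G := UF A
  grpG := inferInstance
  L v := UV A v
  grpL _ := inferInstance
  topL _ := inferInstance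
  tgL _ := inferInstance
  B := UZ A
  isOpen_B := isOpen_UZ A
  isCompact_B := isCompact_UZ A
  loc v := A.sF.homU (algebraMap F (Fv v))
  fin γ := by
    refine (bloc_fin A γ.1.1).subset ?_
    intro v hv
    by_contra hc
    simp only [Set.mem_ofPred_eq, not_not] at hc
    exact hv ((mem_UZ_iff A v _).2 hc)
  Sg := SPl A → ℤˣ
  grpS := inferInstance
  finS := inferInstance
  sgn := dsgn A

end Pool.Agent.CGU
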