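import Pool.Agent.CGN.UEmb

/-!
# Optimal embeddings: some of the places above `v`
-/

noncomputable section

namespace Pool.Agent.CGU

open NumberField IsDedekindDomain Matrix
open Pool.Agent.CG2 (Pl Fv Ov pi expo)
open Pool.Agent.CG2.GalFinAux (below)
open Pool.Agent.CGN

variable {F : Type} [Field F] [NumberField F] {L : Type} [Field L] [NumberField L] [Algebra F L]

/-- The reduction `𝓞 L → 𝓞 L ⧸ w = k_v` at a place `w` of degree one above `v`. -/
theorem exists_red_part {v : Pl F} {w : Pl L} (hw : below F w = v)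
    (hres : ∀ z : 𝓞 L, ∃ a : 𝓞 F, z - algebraMap (𝓞 F) (𝓞 L) a ∈ w.asIdeal) :
    ∃ f : 𝓞 L →+* kv v, (∀ z, f z = 0 ↔ z ∈ w.asIdeal) ∧
      ∀ r : 𝓞 F, f (algebraMap (𝓞 F) (𝓞 L) r) = resv v (algebraMap (𝓞 F) (Ov v) r) := by
  have hvm : v.asIdeal.IsMaximal := v.isMaximal
  have hwv : w.asIdeal.comap (algebraMap (𝓞 F) (𝓞 L)) = v.asIdeal :=
    CG2.GalFinAux.lies_iff.2 hw
  let g : 𝓞 F →+* 𝓞 L ⧸ w.asIdeal := (Ideal.Quotient.mk w.asIdeal).comp (algebraMap (𝓞 F) (𝓞 L))
  have hg : Function.Surjective g := by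
    intro y
    obtain ⟨z, rfl⟩ := Ideal.Quotient.mk_surjective y
    obtain ⟨a, ha⟩ := hres z
    refine ⟨a, ?_⟩
    change Ideal.Quotient.mk w.asIdeal (algebraMap (𝓞 F) (𝓞 L) a) = _
    rw [eq_comm, Ideal.Quotient.eq]
    exact ha
  have hker : ∀ r : 𝓞 F, g r = 0 ↔ r ∈ v.asIdeal := by
    intro r
    change Ideal.Quotient.mk w.asIdeal (algebraMap (𝓞 F) (𝓞 L) r) = 0 ↔ _
    rw [Ideal.Quotient.eq_zero_iff_mem, ← hwv, Ideal.mem_comap]
  let h : 𝓞 F →+* kv v := (resv v).comp (algebraMap (𝓞 F) (Ov v))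
  have hh : ∀ r : 𝓞 F, h r = 0 ↔ r ∈ v.asIdeal := fun r => resv_int
  -- the isomorphism of the quotients
  let e : 𝓞 F ⧸ RingHom.ker g ≃+* 𝓞 L ⧸ w.asIdeal := RingHom.quotientKerEquivOfSurjective hg
  let h' : 𝓞 F ⧸ RingHom.ker g →+* kv v := Ideal.Quotient.lift (RingHom.ker g) h (by
    intro r hr
    rw [hh, ← hker]
    exact hr)
  have hh' : ∀ y, h' y = 0 ↔ y = 0 := by
    intro y
    obtain ⟨r, rfl⟩ := Ideal.Quotient.mk_surjective y
    rw [Ideal.Quotient.eq_zero_iff_mem, RingHom.mem_ker, hker, ← hh]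
    rfl
  refine ⟨(h'.comp e.symm.toRingHom).comp (Ideal.Quotient.mk w.asIdeal), ?_, ?_⟩
  · intro z
    change h' (e.symm (Ideal.Quotient.mk w.asIdeal z)) = 0 ↔ _
    rw [hh', EmbeddingLike.map_eq_zero_iff, Ideal.Quotient.eq_zero_iff_mem]
  · intro r
    change h' (e.symm (Ideal.Quotient.mk w.asIdeal (algebraMap (𝓞 F) (𝓞 L) r))) = _
    have h1 : e (Ideal.Quotient.mk (RingHom.ker g) r) =
        Ideal.Quotient.mk w.asIdeal (algebraMap (𝓞 F) (𝓞 L) r) := rfl
    rw [← h1, RingEquiv.symm_apply_apply]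
    rfl


variable {ι : Type} [Fintype ι] [DecidableEq ι]

omit [Fintype ι] [DecidableEq ι] in
private theorem uemb_inj {v : Pl F} {A B : Matrix ι ι (Ov v)}
    (h : A.map (algebraMap (Ov v) (Fv v)) = B.map (algebraMap (Ov v) (Fv v))) : A = B :=
  Matrix.ext fun i j => Subtype.ext (congrFun (congrFun h i) j)

omit [Fintype ι] in
private theorem uemb_scalar {R S : Type} [CommRing R] [CommRing S] (g : R →+* S) (r : R) :
    (r • (1 : Matrix ι ι R)).map g = g r • (1 : Matrix ι ι S) := by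
  refine Matrix.ext fun i j => ?_
  rw [Matrix.map_apply, Matrix.smul_apply, Matrix.smul_apply, smul_eq_mul, smul_eq_mul, map_mul]
  by_cases hij : i = j
  · subst hij
    rw [Matrix.one_apply_eq, Matrix.one_apply_eq, map_one]
  · rw [Matrix.one_apply_ne hij, Matrix.one_apply_ne hij, map_zero]

omit [Fintype ι] [DecidableEq ι] in
private theorem uemb_smul {R S : Type} [CommRing R] [CommRing S] (g : R →+* S) (r : R)
    (A : Matrix ι ι R) : (r • A).map g = g r • A.map g := by
  refine Matrix.ext fun i j => ?_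
  rw [Matrix.map_apply, Matrix.smul_apply, Matrix.smul_apply, smul_eq_mul, smul_eq_mul, map_mul,
    Matrix.map_apply]

omit [Algebra F L] in
/-- The integral matrix. -/
private theorem uemb_O {v : Pl F} {P : Finset (Pl L)} (ψ : L →+* Matrix ι ι (Fv v))
    (hint : ∀ x : L, (∀ w ∈ P, w.valuation L x ≤ 1) → ∀ i j, Valued.v (ψ x i j) ≤ 1) (x : L)
    (hx : ∀ w ∈ P, w.valuation L x ≤ 1) :
    ∃ X : Matrix ι ι (Ov v), X.map (algebraMap (Ov v) (Fv v)) = ψ x :=
  ⟨Matrix.of fun i j => ⟨ψ x i j, hint x hx i j⟩, Matrix.ext fun _ _ => rfl⟩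

omit [Algebra F L] in
/-- The integral invertible matrix of an element which is a unit above `v`. -/
private theorem uemb_GL {v : Pl F} {P : Finset (Pl L)} (ψ : L →+* Matrix ι ι (Fv v))
    (hint : ∀ x : L, (∀ w ∈ P, w.valuation L x ≤ 1) → ∀ i j, Valued.v (ψ x i j) ≤ 1) (x : Lˣ)
    (hx : ∀ w ∈ P, w.valuation L (x : L) = 1) :
    ∃ g : GL ι (Ov v), (g : Matrix ι ι (Ov v)).map (algebraMap (Ov v) (Fv v)) = ψ (x : L) := by
  obtain ⟨X, hX⟩ := uemb_O ψ hint (x : L) fun w hw => (hx w hw).le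
  obtain ⟨Y, hY⟩ := uemb_O ψ hint ((x⁻¹ : Lˣ) : L) fun w hw => by
    rw [Units.val_inv_eq_inv_val, map_inv₀, hx w hw, inv_one]
  refine ⟨⟨X, Y, ?_, ?_⟩, hX⟩
  · apply uemb_inj
    rw [Matrix.map_mul, hX, hY, ← map_mul, ← Units.val_mul, mul_inv_cancel, Units.val_one, map_one,
      Matrix.map_one _ (map_zero _) (map_one _)]
  · apply uemb_inj
    rw [Matrix.map_mul, hX, hY, ← map_mul, ← Units.val_mul, inv_mul_cancel, Units.val_one, map_one,
      Matrix.map_one _ (map_zero _) (map_one _)]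

/-- **U_FR.** `CGN.exists_frame_loc` for a set `P` of some of the places above `v`, all with
ramification index and residue degree one.
PROOF. `exists_frame` for the reduction `ρ` of `ψ` on `𝓞 L` and the reductions `f_i` (`exists_red`) at
the places above `v`: an element of all places above `v` is `π` times an element which is integral
above `v`, so its matrix is divisible by `π` (`hint`), and conversely (`hint'`). `lift_GL`,
`coset_frame`. -/
theorem exists_frame_part {v : Pl F} {P : Finset (Pl L)}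
    (hP : ∀ w ∈ P, below F w = v)
    (hval : ∀ w ∈ P, ∀ x : F, w.valuation L (algebraMap F L x) = v.valuation F x)
    (hres : ∀ w ∈ P, ∀ z : 𝓞 L, ∃ a : 𝓞 F, z - algebraMap (𝓞 F) (𝓞 L) a ∈ w.asIdeal)
    (e : ι → Pl L)
    (heP : ∀ i, e i ∈ P) (heinj : Function.Injective e) (hesurj : ∀ w ∈ P, ∃ i, e i = w)
    (ψ : L →+* Matrix ι ι (Fv v))
    (hF : ∀ a : F, ψ (algebraMap F L a) = ((a : F) : Fv v) • (1 : Matrix ι ι (Fv v)))
    (hint : ∀ x : L, (∀ w ∈ P, w.valuation L x ≤ 1) → ∀ i j, Valued.v (ψ x i j) ≤ 1)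
    (hint' : ∀ x : L, (∀ i j, Valued.v (ψ x i j) ≤ 1) → ∀ w ∈ P, w.valuation L x ≤ 1) :
    ∃ m : GL ι (Ov v),
      (∀ (z : (𝓞 L)ˣ) (A : GL ι (Fv v)), (A : Matrix ι ι (Fv v)) = ψ ((z : 𝓞 L) : L) →
        ∃ (a : GL ι (Ov v)) (t : ι → (kv v)ˣ), (mapO v m)⁻¹ * A * mapO v m = mapO v a ∧
          (a : Matrix ι ι (Ov v)).map (resv v) = diagonal (fun i => (t i : kv v)) ∧
          ∀ i (r : 𝓞 F), (z : 𝓞 L) - algebraMap (𝓞 F) (𝓞 L) r ∈ (e i).asIdeal →
            (t i : kv v) = resv v (algebraMap (𝓞 F) (Ov v) r)) ∧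
      (∀ (J : Finset ι) (x : Lˣ) (B : GL ι (Fv v)), (B : Matrix ι ι (Fv v)) = ψ (x : L) →
        (∀ i, (e i).valuation L (x : L) = if i ∈ J then WithZero.exp (-1 : ℤ) else 1) →
        (B : GL ι (Fv v) ⧸ GZg (Ov v) ι (Fv v)) = mapO v m •
          ((DJu (algebraMap (Ov v) (Fv v) (piv v)) (piv_ne v) J : GL ι (Fv v)) :
            GL ι (Fv v) ⧸ GZg (Ov v) ι (Fv v))) := by
  classical
  -- the reductions
  choose f hf0 hfr using fun i => exists_red_part (hP _ (heP i)) (hres _ (heP i))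
  -- integral elements
  have hzi : ∀ (z : 𝓞 L), ∀ w ∈ P, w.valuation L (z : L) ≤ 1 := fun z w _ =>
    w.valuation_le_one z
  obtain ⟨ψO, hψO⟩ : ∃ ψO : 𝓞 L →+* Matrix ι ι (Ov v),
      ∀ z, (ψO z).map (algebraMap (Ov v) (Fv v)) = ψ (z : L) :=
    ⟨{  toFun := fun z => Matrix.of fun i j => ⟨ψ (z : L) i j, hint _ (hzi z) i j⟩
        map_one' := by
          apply uemb_inj
          rw [Matrix.map_one _ (map_zero _) (map_one _)]
          exact map_one ψ
        map_mul' := fun z z' => by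
          apply uemb_inj
          rw [Matrix.map_mul]
          exact map_mul ψ (z : L) (z' : L)
        map_zero' := by
          apply uemb_inj
          rw [Matrix.map_zero _ (map_zero _)]
          exact map_zero ψ
        map_add' := fun z z' => by
          apply uemb_inj
          rw [Matrix.map_add _ (map_add _)]
          exact map_add ψ (z : L) (z' : L) }, fun z => rfl⟩
  have hψOc : ∀ (z : 𝓞 L) i j, ((ψO z i j : Ov v) : Fv v) = ψ (z : L) i j := fun z i j =>
    congrFun (congrFun (hψO z) i) j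
  have hpi0 : (pi v : F) ≠ 0 := CG2.pi_ne v
  have hpiL : ∀ w ∈ P, w.valuation L (algebraMap F L (pi v)) = WithZero.exp (-1 : ℤ) := fun w hw => by
    rw [hval w hw, CG2.pi_spec]
  have hpi0L : algebraMap F L (pi v) ≠ 0 := (map_ne_zero _).2 hpi0
  -- divisibility
  have hdiv : ∀ z : 𝓞 L, (∀ i, z ∈ (e i).asIdeal) → ∀ i j, Valued.v (ψ (z : L) i j) < 1 := by
    intro z hz i j
    have h1 : ∀ w ∈ P, w.valuation L ((z : L) / algebraMap F L (pi v)) ≤ 1 := by
      intro w hw
      obtain ⟨i, rfl⟩ := hesurj w hw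
      rw [map_div₀, hpiL _ hw, div_le_one₀ (by exact WithZero.exp_pos)]
      have h2 : (e i).valuation L (z : L) < 1 :=
        (HeightOneSpectrum.valuation_lt_one_iff_mem (e i) z).2 (hz i)
      by_cases h3 : (e i).valuation L (z : L) = 0
      · rw [h3]
        exact zero_le
      · obtain ⟨k, hk⟩ : ∃ k : ℤ, (e i).valuation L (z : L) = WithZero.exp k :=
          ⟨WithZero.log _, (WithZero.exp_log h3).symm⟩
        rw [hk] at h2 ⊢
        rw [← WithZero.exp_zero, WithZero.exp_lt_exp] at h2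
        exact WithZero.exp_le_exp.2 (by omega)
    have h2 := hint _ h1 i j
    have h3 : ψ (z : L) = ((pi v : F) : Fv v) • ψ ((z : L) / algebraMap F L (pi v)) := by
      have h4 : (z : L) = algebraMap F L (pi v) * ((z : L) / algebraMap F L (pi v)) := by
        rw [mul_div_cancel₀ _ hpi0L]
      conv_lhs => rw [h4]
      rw [map_mul, hF, smul_mul_assoc, one_mul]
    rw [h3, Matrix.smul_apply, smul_eq_mul, map_mul]
    calc Valued.v ((pi v : F) : Fv v) * Valued.v (ψ ((z : L) / algebraMap F L (pi v)) i j) ≤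
          Valued.v ((pi v : F) : Fv v) * 1 := mul_le_mul_right h2 _
      _ < 1 := by
          rw [mul_one]
          exact pi_val_lt v
  have hdiv' : ∀ z : 𝓞 L, (∀ i j, Valued.v (ψ (z : L) i j) < 1) → ∀ i, z ∈ (e i).asIdeal := by
    intro z hz i
    have h3 : ψ ((z : L) / algebraMap F L (pi v)) = ((pi v : F) : Fv v)⁻¹ • ψ (z : L) := by
      have h4 : ((z : L) / algebraMap F L (pi v)) = algebraMap F L (pi v)⁻¹ * (z : L) := by
        rw [map_inv₀, div_eq_inv_mul]
      have h5 : (((pi v)⁻¹ : F) : Fv v) = ((pi v : F) : Fv v)⁻¹ := map_inv₀ (algebraMap F (Fv v)) _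
      rw [h4, map_mul, hF, smul_mul_assoc, one_mul, h5]
    have h6 := hint' ((z : L) / algebraMap F L (pi v)) (fun a b => by
      rw [h3, Matrix.smul_apply, smul_eq_mul, ← div_eq_inv_mul]
      exact CG2.heckeReps_div (hz a b)) (e i) (heP i)
    rw [map_div₀, hpiL _ (heP i), div_le_one₀ (by exact WithZero.exp_pos)] at h6
    rw [← HeightOneSpectrum.valuation_lt_one_iff_mem (K := L)]
    refine lt_of_le_of_lt h6 ?_
    rw [← WithZero.exp_zero]
    exact WithZero.exp_lt_exp.2 (by norm_num)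
  -- the idempotents
  choose z hz hz' using fun i => exists_idem P (e i)
  obtain ⟨ρ, hρ⟩ : ∃ ρ : 𝓞 L →+* Matrix ι ι (kv v), ∀ x, ρ x = (ψO x).map (resv v) :=
    ⟨(RingHom.mapMatrix (resv v)).comp ψO, fun x => rfl⟩
  have hρ0 : ∀ x, ρ x = 0 ↔ ∀ i j, Valued.v (ψ (x : L) i j) < 1 := by
    intro x
    constructor
    · intro h i j
      have h1 : resv v (ψO x i j) = 0 := by
        have h2 := congrFun (congrFun h i) j
        rwa [hρ, Matrix.map_apply] at h2
      rw [← hψOc]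
      exact resv_eq_zero.1 h1
    · intro h
      refine Matrix.ext fun i j => ?_
      rw [hρ, Matrix.map_apply, Matrix.zero_apply, resv_eq_zero, hψOc]
      exact h i j
  obtain ⟨Q, hQ⟩ := exists_frame ρ (algebraMap (𝓞 F) (𝓞 L))
    ((resv v).comp (algebraMap (𝓞 F) (Ov v))) (fun x => resv_int_surj v x) (fun r => by
      rw [hρ]
      have h1 : ψO (algebraMap (𝓞 F) (𝓞 L) r) =
          algebraMap (𝓞 F) (Ov v) r • (1 : Matrix ι ι (Ov v)) := by
        apply uemb_inj
        have h2 : ((algebraMap (𝓞 F) (𝓞 L) r : 𝓞 L) : L) = algebraMap F L (r : F) := rfl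
        rw [hψO, h2, hF, uemb_scalar]
        rfl
      rw [h1, uemb_scalar]
      rfl) f hfr
    (fun x hx => (hρ0 x).2 (hdiv x fun i => (hf0 i x).1 (hx i)))
    (fun x hx i => (hf0 i x).2 (hdiv' x ((hρ0 x).1 hx) i)) z
    (fun i => by
      have h1 := (hf0 i _).2 (hz i)
      rwa [map_sub, map_one, sub_eq_zero] at h1)
    (fun i j hij => (hf0 j _).2 (hz' i (e j) (heP j) fun h => hij (heinj h).symm))
  have hunit : ∀ x, resv v x ≠ 0 → IsUnit x := by
    intro x hx
    rw [ov_isUnit]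
    refine le_antisymm x.2 ?_
    by_contra h
    push Not at h
    exact hx (resv_eq_zero.2 h)
  obtain ⟨m, hm⟩ := lift_GL (resv v) (resv_surj v) hunit Q
  have hmQ : GeneralLinearGroup.map (resv v) m = Q := Units.ext hm
  -- the frame diagonalises
  have hdiag : ∀ x : 𝓞 L, (((m⁻¹ : GL ι (Ov v)) : Matrix ι ι (Ov v)) * ψO x *
      (m : Matrix ι ι (Ov v))).map (resv v) = diagonal fun i => f i x := by
    intro x
    rw [Matrix.map_mul, Matrix.map_mul, hm, ← hρ, mul_assoc, hQ, ← mul_assoc]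
    have h1 : ((m⁻¹ : GL ι (Ov v)) : Matrix ι ι (Ov v)).map (resv v) =
        ((Q⁻¹ : GL ι (kv v)) : Matrix ι ι (kv v)) := by
      rw [← hmQ, ← map_inv]
      rfl
    rw [h1, ← Units.val_mul, inv_mul_cancel, Units.val_one, one_mul]
  refine ⟨m, ?_, ?_⟩
  · intro u A hA
    let a₀ : GL ι (Ov v) := Units.map (ψO : 𝓞 L →* Matrix ι ι (Ov v)) u
    have hA0 : A = mapO v a₀ := by
      apply Units.ext
      rw [hA]
      exact (hψO (u : 𝓞 L)).symm
    refine ⟨m⁻¹ * a₀ * m, fun i => Units.map (f i : 𝓞 L →* kv v) u, ?_, ?_, ?_⟩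
    · rw [hA0, map_mul, map_mul, map_inv]
    · exact hdiag (u : 𝓞 L)
    · intro i r hr
      have h1 := (hf0 i _).2 hr
      rw [map_sub, hfr, sub_eq_zero] at h1
      exact h1
  · intro J x B hB hx
    -- representatives in `𝓞 L`
    have hval : ∀ (J : Finset ι), ∃ y : 𝓞 L, (y : L) ≠ 0 ∧
        ∀ i, (e i).valuation L (y : L) = if i ∈ J then WithZero.exp (-1 : ℤ) else 1 := by
      intro J
      obtain ⟨y, hy0, hy⟩ := exists_elt_int (L := L) v (∏ w' ∈ J.image e, w'.asIdeal)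
      refine ⟨y, hy0, fun i => ?_⟩
      rw [hy (e i) (hP _ (heP i)), expo_prod]
      by_cases hi : i ∈ J
      · rw [if_pos (Finset.mem_image_of_mem e hi), if_pos hi]
        rfl
      · rw [if_neg (fun h => hi (by
          obtain ⟨j, hj, hj'⟩ := Finset.mem_image.1 h
          rwa [← heinj hj'])), if_neg hi]
        rfl
    obtain ⟨y, hy0, hy⟩ := hval J
    obtain ⟨y', hy0', hy'⟩ := hval Jᶜ
    -- the unit `y y' / π`
    let W₀ : Lˣ := Units.mk0 ((y : L) * (y' : L) / algebraMap F L (pi v))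
      (div_ne_zero (mul_ne_zero hy0 hy0') hpi0L)
    have hW₀ : ∀ w ∈ P, w.valuation L (W₀ : L) = 1 := by
      intro w hw
      obtain ⟨i, rfl⟩ := hesurj w hw
      change (e i).valuation L ((y : L) * (y' : L) / algebraMap F L (pi v)) = 1
      rw [map_div₀, map_mul, hy, hy', hpiL _ hw]
      by_cases hi : i ∈ J
      · rw [if_pos hi, if_neg (by simpa using hi), mul_one, div_self WithZero.exp_ne_zero]
      · rw [if_neg hi, if_pos (by simpa using hi), one_mul, div_self WithZero.exp_ne_zero]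
    obtain ⟨W, hW⟩ := uemb_GL ψ hint W₀ hW₀
    have hprod : ψ ((y : L) * (y' : L)) = ((pi v : F) : Fv v) • ψ (W₀ : L) := by
      have h4 : (y : L) * (y' : L) = algebraMap F L (pi v) * (W₀ : L) := by
        change _ = algebraMap F L (pi v) * ((y : L) * (y' : L) / algebraMap F L (pi v))
        rw [mul_div_cancel₀ _ hpi0L]
      rw [h4, map_mul, hF, smul_mul_assoc, one_mul]
    have hpW : (piv v • (W : Matrix ι ι (Ov v))).map (algebraMap (Ov v) (Fv v)) =
        ((pi v : F) : Fv v) • ψ (W₀ : L) := by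
      rw [← hW, uemb_smul]
      rfl
    -- the element `y` in `GL_n(F_v)`
    let B₀ : GL ι (Fv v) := Units.map (ψ : L →* Matrix ι ι (Fv v)) (Units.mk0 (y : L) hy0)
    have h1 := coset_frame (resv v) (ov_inj v) (piv_ne v) (resv_ker v) m W B₀ (ψO y) (ψO y')
      (hψO y).symm
      (by
        apply uemb_inj
        rw [Matrix.map_mul, hψO, hψO, hpW, ← map_mul, hprod])
      (by
        apply uemb_inj
        rw [Matrix.map_mul, hψO, hψO, hpW, ← map_mul, mul_comm, hprod])
      _ _ (hdiag y) (hdiag y') J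
      (fun i hi => by
        rw [hf0, ← HeightOneSpectrum.valuation_lt_one_iff_mem (K := L)]
        have h2 := hy i
        rw [if_pos hi] at h2
        refine lt_of_le_of_lt h2.le ?_
        rw [← WithZero.exp_zero]
        exact WithZero.exp_lt_exp.2 (by norm_num))
      (fun i hi => by
        rw [hf0, ← HeightOneSpectrum.valuation_lt_one_iff_mem (K := L)]
        have h2 := hy' i
        rw [if_pos (by simpa using hi)] at h2
        refine lt_of_le_of_lt h2.le ?_
        rw [← WithZero.exp_zero]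
        exact WithZero.exp_lt_exp.2 (by norm_num))
    rw [← h1]
    -- the quotient of `x` and `y`
    have hu : ∀ w ∈ P, w.valuation L (((Units.mk0 (y : L) hy0)⁻¹ * x : Lˣ) : L) = 1 := by
      intro w hw
      obtain ⟨i, rfl⟩ := hesurj w hw
      rw [Units.val_mul, map_mul, Units.val_inv_eq_inv_val, map_inv₀, Units.val_mk0, hy, hx]
      by_cases hi : i ∈ J
      · rw [if_pos hi, inv_mul_cancel₀ WithZero.exp_ne_zero]
      · rw [if_neg hi, inv_one, mul_one]
    obtain ⟨g, hg⟩ := uemb_GL ψ hint _ hu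
    have hBg : B = B₀ * mapO v g := by
      apply Units.ext
      rw [hB, Units.val_mul]
      change _ = ψ (y : L) * ((g : Matrix ι ι (Ov v)).map (algebraMap (Ov v) (Fv v)))
      rw [hg, ← map_mul, Units.val_mul, Units.val_inv_eq_inv_val, Units.val_mk0,
        mul_inv_cancel_left₀ hy0]
    rw [hBg, eq_comm, QuotientGroup.eq, inv_mul_cancel_left]
    exact ⟨g, rfl⟩

end Pool.Agent.CGU
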