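import Pool.Agent.CGU.UTo
import Pool.Agent.CGU.UCj

/-!
# The unit trick for unitary groups: the matrices of the elements of `M`
-/

noncomputable section

namespace Pool.Agent.CGU

open NumberField IsDedekindDomain Matrix
open Pool.Agent.CG2 (Pl Fv Ov IsRay InRay expo TotPos)
open Pool.Agent.CG2.GalFinAux (below)
open Pool.Agent.CGQ (Sys OC diag single act rt lt mkK mkK_eq mkK_rt Stab mem_Stab' lt_rt)
open Pool.Agent.CGN (Std SC Split HypOff exists_denom abv mem_abv)

variable {F : Type} [Field F] [NumberField F] {K : Type} [Field K] [NumberField K] [Algebra F K]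
  {A : UD F} {κ : K →ₐ[F] BF A} {S : Set (Pl F)} {θ : USpl A S}
  {Kf : Subgroup (sysU A).A} {M : Type} [Field M] [NumberField M] [Algebra F M] [Algebra K M]

/-- The homomorphism `x ↦ θ_v (g⁻¹ x g)` from `B` to the matrices. -/
def psiU (θ : USpl A S) (v : {v : Pl F // v ∉ S}) (g : UV A v.1) :
    BF A →+* Matrix (Fin A.n) (Fin A.n) (Fv v.1) where
  toFun x := θ.θ v ((g.1⁻¹ : (BV A v.1)ˣ).1 * bloc A v.1 x * g.1.1)
  map_one' := by rw [map_one, mul_one, Units.inv_mul, map_one]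
  map_zero' := by rw [map_zero, mul_zero, zero_mul, map_zero]
  map_add' x y := by rw [map_add, mul_add, add_mul, map_add]
  map_mul' x y := by
    have h : g.1.1 * (g.1⁻¹ : (BV A v.1)ˣ).1 = 1 := Units.mul_inv g.1
    have h2 : (g.1⁻¹ : (BV A v.1)ˣ).1 * bloc A v.1 (x * y) * g.1.1 =
        ((g.1⁻¹ : (BV A v.1)ˣ).1 * bloc A v.1 x * g.1.1) *
          ((g.1⁻¹ : (BV A v.1)ˣ).1 * bloc A v.1 y * g.1.1) := by
      rw [map_mul]
      simp only [mul_assoc]
      rw [← mul_assoc g.1.1 (g.1⁻¹ : (BV A v.1)ˣ).1, h, one_mul]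
    rw [h2, map_mul]

theorem psiU_scalar (θ : USpl A S) (v : {v : Pl F // v ∉ S}) (g : UV A v.1) (a : F) :
    psiU θ v g (algebraMap F (BF A) a) =
      ((a : F) : Fv v.1) • (1 : Matrix (Fin A.n) (Fin A.n) (Fv v.1)) := by
  change θ.θ v ((g.1⁻¹ : (BV A v.1)ˣ).1 * bloc A v.1 (algebraMap F (BF A) a) * g.1.1) = _
  rw [bE_alg, ← Algebra.commutes, mul_assoc, Units.inv_mul, mul_one, AlgHom.commutes,
    Algebra.algebraMap_eq_smul_one]
  rfl

/-- The matrices of the elements of `M` commute. -/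
theorem psiU_comm (ι : M →ₐ[F] BF A) (v : {v : Pl F // v ∉ S}) (g : UV A v.1) (x y : M) :
    psiU θ v g (ι x) * psiU θ v g (ι y) = psiU θ v g (ι y) * psiU θ v g (ι x) := by
  rw [← map_mul (psiU θ v g), ← map_mul (psiU θ v g), ← map_mul ι, ← map_mul ι, mul_comm]

/-- The matrices of the elements of `K`. -/
theorem psiU_kap {v : {v : Pl F // v ∉ S}} {i : K →+* Fv v.1} (g : UV A v.1)
    (hi : ∀ a, θ.θ v (bloc A v.1 (κ a)) = i a • (1 : Matrix (Fin A.n) (Fin A.n) (Fv v.1))) (a : K) :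
    psiU θ v g (κ a) = i a • (1 : Matrix (Fin A.n) (Fin A.n) (Fv v.1)) := by
  change θ.θ v ((g.1⁻¹ : (BV A v.1)ˣ).1 * bloc A v.1 (κ a) * g.1.1) = _
  rw [map_mul, map_mul, hi, mul_smul_comm, mul_one, smul_mul_assoc, ← map_mul, Units.inv_mul,
    map_one]

/- MODULE U_PA -/

private theorem U_PA_mul {v : Pl F} {x y : BV A v} (hx : IntB A v x) (hy : IntB A v y) :
    IntB A v (x * y) := by
  obtain ⟨a, rfl⟩ := (intB_iff A v x).1 hx
  obtain ⟨b, rfl⟩ := (intB_iff A v y).1 hy
  exact (intB_iff A v _).2 ⟨a * b, map_mul _ _ _⟩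

private theorem U_PA_conj (hn : 2 ≤ A.n) (hstd : Std (chartU θ)) {v : {v : Pl F // v ∉ S}}
    {g : UV A v.1} (hg : g ∈ UZ A v.1) {x : BF A} (hx : IntB A v.1 (bloc A v.1 x))
    (i j : Fin A.n) : Valued.v (psiU θ v g x i j) ≤ 1 := by
  have hg1 : IntB A v.1 g.1.1 := (mem_UZ_iff A v.1 _).1 hg
  have hg2 : IntB A v.1 (g.1⁻¹ : (BV A v.1)ˣ).1 :=
    (mem_UZ_iff A v.1 g⁻¹).1 ((UZ A v.1).inv_mem hg)
  have h1 : IntB A v.1 ((g.1⁻¹ : (BV A v.1)ˣ).1 * bloc A v.1 x * g.1.1) :=
    U_PA_mul (U_PA_mul hg2 hx) hg1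
  exact th_int hn hstd v h1 i j

/-- **U_PA (1).** Elements of `M` which are integral above `w` have integral matrices.
PROOF. `CGN.exists_denom` for `M` over `K` and `w`: `s x = z`, `s ∈ 𝓞 K`, `s ∉ w`, `z ∈ 𝓞 M`
(`ι (algebraMap K M s) = κ s`). The element `g⁻¹ bloc (ι z) g` has integral coordinates (`X.int`,
`X.y_good`, `mem_UZ_iff`; products of elements with integral coordinates: `intB_iff`), so its matrix is
integral by `th_int`. `psiU_kap`: the matrix of `s` is `i s • 1` and `|i s| = 1` (`th_kap`,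
`isW_val`). -/
theorem TorU.psi_int (X : TorU A κ θ Kf M) (hU : IsUni A κ) (v : {v : Pl F // v ∉ S})
    (hv : v.1 ∉ X.T) {w : Pl K} (hw : IsW κ θ v w) (x : M)
    (hx : ∀ W : Pl M, below K W = w → W.valuation M x ≤ 1) (i j : Fin A.n) :
    Valued.v (psiU θ v (X.y.2.1 v.1) (X.ι x) i j) ≤ 1 := by
  obtain ⟨i₀, hi, hF⟩ := th_kap hU X.hn θ v
  obtain ⟨hv1, hv2, -, -⟩ := isW_val X.hn hw hi hF
  obtain ⟨s, z, hs, hz⟩ := exists_denom (F := K) (L := M) hx
  have hs1 : Valued.v (i₀ (s : K)) = 1 :=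
    le_antisymm (hv1 s) (not_lt.1 fun h => hs ((hv2 s).2 h))
  have h2 : Valued.v (psiU θ v (X.y.2.1 v.1) (X.ι (z : M)) i j) ≤ 1 :=
    U_PA_conj X.hn X.std (X.y_good v.1 hv) (X.int v.1 hv z) i j
  rw [← hz, map_mul, map_mul, X.dat.ικ, psiU_kap _ hi, smul_mul_assoc, one_mul,
    Matrix.smul_apply, smul_eq_mul, map_mul, hs1, one_mul] at h2
  exact h2

/- END U_PA -/

/- MODULE U_PB -/

/-- **U_PB (1).** If the matrix of `x` is integral then `x` is integral above `w`.
PROOF. As `CGN.val_le_of_int` (UInt.lean of CGN) with the base field `K`, the place `w` and the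
homomorphism `i` in place of the embedding of `F` in `F_v`: the minimal polynomial `Q` of `x` over
`K`, `Qv = Q.map i` divides the characteristic polynomial of `ψ x`, so its coefficients are integral,
and `hi` gives that the coefficients of `Q` are integral at `w`. -/
theorem val_le_of_int_u {v : Pl F} {w : Pl K} {W : Pl M} (hW : below K W = w) (i : K →+* Fv v)
    (hi : ∀ a : K, Valued.v (i a) ≤ 1 ↔ w.valuation K a ≤ 1) {n : ℕ}
    (ψ : M →+* Matrix (Fin n) (Fin n) (Fv v))
    (hK : ∀ a : K, ψ (algebraMap K M a) = i a • (1 : Matrix (Fin n) (Fin n) (Fv v))) (x : M)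
    (hLI : ∀ d : ℕ, LinearIndependent K (fun j : Fin d => x ^ (j : ℕ)) →
      LinearIndependent (Fv v) (fun j : Fin d => ψ x ^ (j : ℕ)))
    (hx : ∀ i j, Valued.v (ψ x i j) ≤ 1) : W.valuation M x ≤ 1 := by
  classical
  have hfd : FiniteDimensional K M := Module.Finite.of_restrictScalars_finite ℚ K M
  have hxi : IsIntegral K x := Algebra.IsIntegral.isIntegral x
  set Q : Polynomial K := minpoly K x with hQdef
  have hQm : Q.Monic := minpoly.monic hxi
  set Qv : Polynomial (Fv v) := Q.map i with hQv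
  have hQvm : Qv.Monic := hQm.map _
  have hdeg : Qv.natDegree = Q.natDegree := Polynomial.natDegree_map _
  have hQψ : Polynomial.aeval (ψ x) Qv = 0 := by
    have h1 : Polynomial.aeval (ψ x) Qv = ψ (Polynomial.aeval x Q) := by
      rw [Polynomial.aeval_def, Polynomial.aeval_def, hQv, Polynomial.eval₂_map,
        Polynomial.hom_eval₂]
      congr 1
      apply RingHom.ext
      intro a
      change algebraMap (Fv v) (Matrix (Fin n) (Fin n) (Fv v)) (i a) = ψ (algebraMap K M a)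
      rw [hK, Algebra.algebraMap_eq_smul_one]
    rw [h1, minpoly.aeval, map_zero]
  have hdvd : Qv ∣ (ψ x).charpoly := by
    have h1 := Polynomial.modByMonic_add_div (ψ x).charpoly Qv
    have h2 : Polynomial.aeval (ψ x) ((ψ x).charpoly %ₘ Qv) = 0 := by
      have h3 := congrArg (Polynomial.aeval (ψ x)) h1
      rw [map_add, map_mul, hQψ, zero_mul, add_zero, Matrix.aeval_self_charpoly] at h3
      exact h3
    have h3 : (ψ x).charpoly %ₘ Qv = 0 := by
      have h4 := hLI Q.natDegree (linearIndependent_pow x)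
      have hlt : ((ψ x).charpoly %ₘ Qv).natDegree < Q.natDegree ∨ (ψ x).charpoly %ₘ Qv = 0 := by
        by_cases h0 : (ψ x).charpoly %ₘ Qv = 0
        · exact Or.inr h0
        · left
          rw [← hdeg]
          exact Polynomial.natDegree_lt_natDegree h0 (Polynomial.degree_modByMonic_lt _ hQvm)
      rcases hlt with hlt | h0
      · rw [Polynomial.aeval_eq_sum_range' hlt] at h2
        have h5 := Fintype.linearIndependent_iff.1 h4
          (fun i => ((ψ x).charpoly %ₘ Qv).coeff (i : ℕ)) (by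
            rw [← h2, Finset.sum_range])
        refine Polynomial.ext fun j => ?_
        rw [Polynomial.coeff_zero]
        by_cases hj : j < Q.natDegree
        · exact h5 ⟨j, hj⟩
        · exact Polynomial.coeff_eq_zero_of_natDegree_lt (by omega)
      · exact h0
    rw [h3, zero_add] at h1
    exact ⟨_, h1.symm⟩
  let X : Matrix (Fin n) (Fin n) (Ov v) := Matrix.of fun i j => ⟨ψ x i j, hx i j⟩
  have hchar : (ψ x).charpoly = X.charpoly.map (algebraMap (Ov v) (Fv v)) := by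
    rw [← Matrix.charpoly_map]
    rfl
  have hcoef : ∀ j, w.valuation K (Q.coeff j) ≤ 1 := by
    intro j
    rw [hchar] at hdvd
    obtain ⟨g', hg'⟩ := IsIntegrallyClosed.eq_map_mul_C_of_dvd (Fv v) (Matrix.charpoly_monic X) hdvd
    rw [hQvm.leadingCoeff, map_one, mul_one] at hg'
    have h1 := congrArg (fun q : Polynomial (Fv v) => q.coeff j) hg'
    simp only [Polynomial.coeff_map, hQv] at h1
    rw [← hi, ← h1]
    exact (g'.coeff j).2
  have hlo : W.asIdeal.LiesOver w.asIdeal :=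
    CG2.GalFinAux.liesOver_of_lies (CG2.GalFinAux.lies_iff.2 hW)
  refine CGN.val_le_of_root (W.valuation M) (Q.map (algebraMap K M)) (hQm.map _) (fun j => ?_) ?_
  · rw [Polynomial.coeff_map, ← HeightOneSpectrum.valuation_liesOver M w W]
    exact pow_le_one₀ zero_le (hcoef j)
  · rw [Polynomial.eval_map, ← Polynomial.aeval_def]
    exact minpoly.aeval K x

/-- **U_PB (2).** Conversely, elements of `M` with integral matrices are integral above `w`.
PROOF. `val_le_of_int_u` with `ψ = psiU ∘ ι`; `hLI` by `th_li` for `f j = ι (x ^ j)` and conjugation by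
`g` (`θ_v (g⁻¹ b g) = θ_v (g⁻¹) θ_v b θ_v g`, an injective linear map of the matrices), as in
`CGN.TorL.int_psi`. -/
theorem TorU.int_psi (X : TorU A κ θ Kf M) (hU : IsUni A κ) (v : {v : Pl F // v ∉ S})
    {w : Pl K} (hw : IsW κ θ v w) (x : M)
    (hx : ∀ i j, Valued.v (psiU θ v (X.y.2.1 v.1) (X.ι x) i j) ≤ 1) (W : Pl M)
    (hW : below K W = w) : W.valuation M x ≤ 1 := by
  obtain ⟨i₀, hi, hF⟩ := th_kap hU X.hn θ v
  obtain ⟨-, -, -, hv4⟩ := isW_val X.hn hw hi hF
  refine val_le_of_int_u hW i₀ hv4 ((psiU θ v (X.y.2.1 v.1)).comp (X.ι : M →+* BF A))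
    (fun a => ?_) x ?_ hx
  · change psiU θ v (X.y.2.1 v.1) (X.ι (algebraMap K M a)) = _
    rw [X.dat.ικ, psiU_kap _ hi]
  · intro d hd
    have hf : ∀ c : Fin d → K, ∑ j, κ (c j) * X.ι (x ^ (j : ℕ)) = 0 → c = 0 := by
      intro c hc
      have h1 : X.ι (∑ j, c j • x ^ (j : ℕ)) = X.ι 0 := by
        rw [map_zero, map_sum, ← hc]
        refine Finset.sum_congr rfl fun j _ => ?_
        rw [Algebra.smul_def, map_mul, X.dat.ικ]
      funext j
      exact Fintype.linearIndependent_iff.1 hd c (X.ι_inj h1) j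
    have h4 := th_li hU X.hn θ v hi (fun j : Fin d => X.ι (x ^ (j : ℕ))) hf
    let g : (Matrix (Fin A.n) (Fin A.n) (Fv v.1))ˣ :=
      Units.map (θ.θ v : BV A v.1 →* Matrix (Fin A.n) (Fin A.n) (Fv v.1))
        (show UV A v.1 from X.y.2.1 v.1).1
    let Λ : Matrix (Fin A.n) (Fin A.n) (Fv v.1) →ₗ[Fv v.1] Matrix (Fin A.n) (Fin A.n) (Fv v.1) :=
      { toFun := fun z => (g⁻¹).1 * z * g.1
        map_add' := fun a b => by rw [mul_add, add_mul]
        map_smul' := fun c a => by rw [mul_smul_comm, smul_mul_assoc, RingHom.id_apply] }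
    have hΛ : Function.Injective Λ := by
      intro a b hab
      have h6 := (Units.mul_left_inj g).1 hab
      exact (Units.mul_right_inj g⁻¹).1 h6
    have h5 := h4.map' Λ (LinearMap.ker_eq_bot.2 hΛ)
    have h6 : (fun i : Fin d => ((psiU θ v (X.y.2.1 v.1)).comp (X.ι : M →+* BF A)) x ^ (i : ℕ)) =
        Λ ∘ fun j : Fin d => θ.θ v (bloc A v.1 (X.ι (x ^ (j : ℕ)))) := by
      funext j
      rw [← map_pow]
      change θ.θ v (((show UV A v.1 from X.y.2.1 v.1).1⁻¹ : (BV A v.1)ˣ).1 *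
        bloc A v.1 (X.ι (x ^ (j : ℕ))) * (show UV A v.1 from X.y.2.1 v.1).1.1) = _
      rw [map_mul, map_mul]
      rfl
    rw [h6]
    exact h5

/- END U_PB -/

end Pool.Agent.CGU
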