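import Pool.Agent.CGU.UTo

/-!
# The unit trick for unitary groups: representatives of ideals
-/

noncomputable section

namespace Pool.Agent.CGU

open NumberField IsDedekindDomain Matrix
open Pool.Agent.CG2 (Pl Fv Ov IsRay InRay expo TotPos)
open Pool.Agent.CG2.GalFinAux (below)
open Pool.Agent.CGQ (Sys OC diag single act rt lt mkK mkK_eq mkK_rt Stab mem_Stab' lt_rt)
open Pool.Agent.CGN (Std SC Split HypOff exists_eltL)

variable {F : Type} [Field F] [NumberField F] {K : Type} [Field K] [NumberField K] [Algebra F K]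
  {A : UD F} {κ : K →ₐ[F] BF A} {S : Set (Pl F)} {θ : USpl A S}
  {Kf : Subgroup (sysU A).A} {M : Type} [Field M] [NumberField M] [Algebra F M] [Algebra K M]

/-- Elements of the torus which are units above the good place `v` are in the group `Kf`, seen
from `y`. -/
theorem TorU.unit_mem (X : TorU A κ θ Kf M) (v : Pl F) (hv : v ∉ X.T) (x : Tor X.τ)
    (hx : ∀ W : Pl M, below F W = v → W.valuation M ((x.1 : Mˣ) : M) = 1) :
    (X.y.2.1 v)⁻¹ * (sysU A).loc v (X.u x) * X.y.2.1 v ∈ X.U v := by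
  refine X.U_good v hv ?_
  refine (UZ A v).mul_mem ((UZ A v).mul_mem ((UZ A v).inv_mem (X.y_good v hv)) ?_) (X.y_good v hv)
  exact (mem_UZ_iff A v _).2 (X.loc_int v hv _ fun W hW => (hx W hW).le)

/-- Representatives exist. -/
theorem TorU.exists_rep (X : TorU A κ θ Kf M) {I : Ideal (𝓞 M)} (hI : I ≠ ⊥) :
    ∃ t, X.IsRep I t := by
  classical
  choose x hx using fun v : Pl F => exists_eltL (L := M) v I
  let P : Pl F → Prop := fun v => v ∈ X.T ∨ ∀ w : Pl M, below F w = v → expo w I = 0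
  let g : ∀ v, (sysU A).L v := fun v => if P v then 1 else (sysU A).loc v (X.u (X.q (x v)))
  have hg1 : ∀ v, P v → g v = 1 := fun v h => if_pos h
  have hg2 : ∀ v, ¬ P v → g v = (sysU A).loc v (X.u (X.q (x v))) := fun v h => if_neg h
  have hfin : {v | g v ∉ (sysU A).B v}.Finite := by
    refine ((Ideal.finite_factors hI).image (below F)).subset ?_
    intro v hv
    by_contra hc
    apply hv
    have hP : P v := Or.inr fun w hw => by
      by_contra h
      exact hc ⟨w, (Pool.Agent.CG2.GalL_expo_ne_zero w hI).1 h, hw⟩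
    rw [hg1 v hP]
    exact ((sysU A).B v).one_mem
  refine ⟨⟨g, hfin⟩, fun v hv => hg1 v (Or.inl hv), fun v hv => ?_⟩
  by_cases h : ∀ w : Pl M, below F w = v → expo w I = 0
  · refine ⟨1, ?_, ?_⟩
    · rw [map_one, map_one, map_one]
      exact hg1 v (Or.inr h)
    · intro w hw
      rw [h w hw]
      simp
  · exact ⟨x v, hg2 v (by rintro (h1 | h1); exacts [hv h1, h h1]), hx v⟩

/-- Two representatives of ideals which have the same image in the torus give the same point. -/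
theorem TorU.rep_congr (X : TorU A κ θ Kf M) {I I' : Ideal (𝓞 M)} {t t' : (sysU A).A}
    (ht : X.IsRep I t) (ht' : X.IsRep I' t')
    (hI : ∀ W W' : Pl M, below F W ∉ X.T → (∀ x : M, W'.valuation M x = W.valuation M (X.τ x)) →
      (expo W I : ℤ) - expo W' I = expo W I' - expo W' I') :
    mkK Kf (lt t X.y) = mkK Kf (lt t' X.y) := by
  refine mkK_eq.2 ⟨X.y.2⁻¹ * t⁻¹ * t' * X.y.2, ?_, ?_⟩
  · apply X.U_le
    intro v
    change (X.y.2.1 v)⁻¹ * (t.1 v)⁻¹ * t'.1 v * X.y.2.1 v ∈ X.U v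
    by_cases hv : v ∈ X.T
    · rw [ht.1 v hv, ht'.1 v hv, inv_one, mul_one, mul_one, inv_mul_cancel]
      exact (X.U v).one_mem
    · obtain ⟨x, hx1, hx2⟩ := ht.2 v hv
      obtain ⟨x', hx1', hx2'⟩ := ht'.2 v hv
      have h1 := X.unit_mem v hv (X.q (x⁻¹ * x')) (fun W hW => by
        obtain ⟨W', hW1, hW2, -⟩ := exists_conj_pl X.τ W
        have hb : below F W' = v := hW1.trans hW
        rw [X.q_val, Units.val_mul, Units.val_inv_eq_inv_val, map_div₀, ← hW2, map_mul, map_mul,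
          map_inv₀, map_inv₀, hx2 W hW, hx2' W hW, hx2 W' hb, hx2' W' hb, ← WithZero.exp_neg,
          ← WithZero.exp_neg, ← WithZero.exp_add, ← WithZero.exp_add, ← WithZero.exp_sub]
        have h2 := hI W W' (by rw [hW]; exact hv) hW2
        have h3 : -(-(expo W I : ℤ)) + -(expo W I' : ℤ) - (-(-(expo W' I : ℤ)) + -(expo W' I' : ℤ)) =
            0 := by linarith
        rw [h3, WithZero.exp_zero])
      have h2 : (sysU A).loc v (X.u (X.q (x⁻¹ * x'))) = (t.1 v)⁻¹ * t'.1 v := by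
        rw [map_mul, map_mul, map_mul, hx1, hx1', map_inv, map_inv, map_inv]
      rw [h2] at h1
      simpa only [mul_assoc] using h1
  · refine Prod.ext rfl ?_
    change t' * X.y.2 = t * X.y.2 * (X.y.2⁻¹ * t⁻¹ * t' * X.y.2)
    group

theorem TorU.rep_unique (X : TorU A κ θ Kf M) {I : Ideal (𝓞 M)} {t t' : (sysU A).A}
    (ht : X.IsRep I t) (ht' : X.IsRep I t') : mkK Kf (lt t X.y) = mkK Kf (lt t' X.y) :=
  X.rep_congr ht ht' fun _ _ _ _ => rfl

/-- Products of representatives. -/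
theorem TorU.rep_mul (X : TorU A κ θ Kf M) {I J : Ideal (𝓞 M)} (hI : I ≠ ⊥) (hJ : J ≠ ⊥)
    {t t' : (sysU A).A} (ht : X.IsRep I t) (ht' : X.IsRep J t') : X.IsRep (I * J) (t * t') := by
  refine ⟨?_, ?_⟩
  · intro v hv
    change t.1 v * t'.1 v = 1
    rw [ht.1 v hv, ht'.1 v hv, mul_one]
  · intro v hv
    obtain ⟨x, hx, hx'⟩ := ht.2 v hv
    obtain ⟨x', hy, hy'⟩ := ht'.2 v hv
    refine ⟨x * x', ?_, ?_⟩
    · change t.1 v * t'.1 v = _
      rw [hx, hy, map_mul, map_mul, map_mul]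
    · intro w hw
      rw [Units.val_mul, map_mul, hx' w hw, hy' w hw, ← WithZero.exp_add,
        CG2.GalL_expo_mul w hI hJ]
      congr 1
      push_cast
      ring

theorem TorU.rep_top (X : TorU A κ θ Kf M) : X.IsRep ⊤ 1 := by
  refine ⟨fun v _ => rfl, ?_⟩
  intro v _
  refine ⟨1, ?_, ?_⟩
  · rw [map_one, map_one, map_one]
    rfl
  · intro w _
    rw [Units.val_one, map_one, CG2.GalL_expo_top]
    rfl

/- MODULE U_RC -/

/-- **U_RC.** The product of a place and of its conjugate acts trivially.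
PROOF. `rep_congr`: let `V`, `V'` be places with `V'.valuation x = V.valuation (τ x)`; then
`V' = conj V` is determined by `V`, `conj (conj V) = V` (`X.tt`), and `W' = conj W` or `W = conj W'`
(by `hWW`), so `expo V (W W') = expo V' (W W')` (`CG2.GalL_expo_mul`, `CG2.GalL_expo_self`,
`CG2.GalL_expo_other`: it is `1` if `V` is `W` or `W'` and `0` otherwise, and `V` is one of them iff
`V'` is). -/
theorem TorU.rep_conj (X : TorU A κ θ Kf M) {W W' : Pl M} (hne : W ≠ W')
    (hWW : ∀ x x' : 𝓞 M, (x' : M) = X.τ (x : M) → (x ∈ W.asIdeal ↔ x' ∈ W'.asIdeal))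
    {I : Ideal (𝓞 M)} (hI : I ≠ ⊥) {t t' : (sysU A).A} (ht : X.IsRep I t)
    (ht' : X.IsRep (I * (W.asIdeal * W'.asIdeal)) t') :
    mkK Kf (lt t' X.y) = mkK Kf (lt t X.y) := by
  classical
  have hWb : W.asIdeal ≠ ⊥ := W.ne_bot
  have hWb' : W'.asIdeal ≠ ⊥ := W'.ne_bot
  have hself : ∀ V V₁ : Pl M, expo V V₁.asIdeal = if V = V₁ then 1 else 0 := by
    intro V V₁
    split_ifs with h
    · rw [h]
      exact CG2.GalL_expo_self V₁
    · exact CG2.GalL_expo_other h
  have hex : ∀ x : 𝓞 M, ∃ x' : 𝓞 M, (x' : M) = X.τ (x : M) := fun x =>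
    ⟨RingOfIntegers.mapRingEquiv (X.τ : M ≃+* M) x, rfl⟩
  have hsym : ∀ x x' : 𝓞 M, (x' : M) = X.τ (x : M) → (x : M) = X.τ (x' : M) := by
    intro x x' h
    rw [h, X.tt]
  refine X.rep_congr ht' ht fun V V' _ hV => ?_
  have hVV : ∀ x x' : 𝓞 M, (x' : M) = X.τ (x : M) → (x ∈ V'.asIdeal ↔ x' ∈ V.asIdeal) := by
    intro x x' h
    have h1 := hV (x : M)
    rw [← h] at h1
    rw [← V'.valuation_lt_one_iff_mem (K := M), ← V.valuation_lt_one_iff_mem (K := M)]
    change V'.valuation M (x : M) < 1 ↔ V.valuation M (x' : M) < 1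
    rw [h1]
  have e1 : V = W ↔ V' = W' := by
    constructor
    · intro h
      refine HeightOneSpectrum.ext (Ideal.ext fun x => ?_)
      obtain ⟨x', hx'⟩ := hex x
      rw [hVV x x' hx', h, hWW x' x (hsym x x' hx')]
    · intro h
      refine HeightOneSpectrum.ext (Ideal.ext fun x => ?_)
      obtain ⟨x', hx'⟩ := hex x
      rw [← hVV x' x (hsym x x' hx'), h, ← hWW x x' hx']
  have e2 : V = W' ↔ V' = W := by
    constructor
    · intro h
      refine HeightOneSpectrum.ext (Ideal.ext fun x => ?_)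
      obtain ⟨x', hx'⟩ := hex x
      rw [hVV x x' hx', h, ← hWW x x' hx']
    · intro h
      refine HeightOneSpectrum.ext (Ideal.ext fun x => ?_)
      obtain ⟨x', hx'⟩ := hex x
      rw [← hVV x' x (hsym x x' hx'), h, hWW x' x (hsym x x' hx')]
  rw [CG2.GalL_expo_mul V hI (mul_ne_zero hWb hWb'), CG2.GalL_expo_mul V' hI (mul_ne_zero hWb hWb'),
    CG2.GalL_expo_mul V hWb hWb', CG2.GalL_expo_mul V' hWb hWb', hself, hself, hself, hself]
  simp only [e1, e2]
  push_cast
  ring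

/- END U_RC -/

/- MODULE U_PR -/

private theorem U_PR_exp_lt (γ : WithZero (Multiplicative ℤ)) (hγ : γ ≠ 0) :
    ∃ n : ℕ, WithZero.exp (-(n : ℤ)) < γ := by
  obtain ⟨m, rfl⟩ : ∃ m : ℤ, γ = WithZero.exp m := ⟨WithZero.log γ, (WithZero.exp_log hγ).symm⟩
  refine ⟨(1 - m).toNat, WithZero.exp_lt_exp.2 ?_⟩
  have := Int.self_le_toNat (1 - m)
  omega

/-- The basis of the neighbourhoods of a point of `F_v`. -/
private theorem U_PR_nhds (v : Pl F) (x : Fv v) {V : Set (Fv v)} (hV : V ∈ nhds x) :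
    ∃ n : ℕ, ∀ y : Fv v, Valued.v (y - x) ≤ WithZero.exp (-(n : ℤ)) → y ∈ V := by
  obtain ⟨γ, hγ⟩ := Valued.mem_nhds.1 hV
  have h0 : MonoidWithZeroHom.ValueGroup₀.embedding γ.1 ≠ 0 := by
    rw [map_ne_zero_iff _ (MonoidWithZeroHom.ValueGroup₀.embedding_strictMono.injective)]
    exact γ.ne_zero
  obtain ⟨n, hn⟩ := U_PR_exp_lt _ h0
  refine ⟨n, fun y hy => hγ ?_⟩
  change Valued.v.restrict (y - x) < γ.1
  rw [Valuation.restrict_lt_iff_lt_embedding]
  exact lt_of_le_of_lt hy hn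

private theorem U_PR_exp_mono {m n : ℕ} (h : m ≤ n) {x : WithZero (Multiplicative ℤ)}
    (hx : x ≤ WithZero.exp (-(n : ℤ))) : x ≤ WithZero.exp (-(m : ℤ)) :=
  hx.trans (WithZero.exp_le_exp.2 (by omega))

/-- The basis of the neighbourhoods of a vector. -/
private theorem U_PR_pi {κ : Type} [Fintype κ] {v : Pl F} (x : κ → Fv v) {W : Set (κ → Fv v)}
    (hW : W ∈ nhds x) :
    ∃ n : ℕ, ∀ y : κ → Fv v, (∀ i, Valued.v (y i - x i) ≤ WithZero.exp (-(n : ℤ))) → y ∈ W := by
  classical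
  rw [nhds_pi, Filter.mem_pi] at hW
  obtain ⟨I, hI, t, ht, htW⟩ := hW
  choose N hN using fun i => U_PR_nhds v _ (ht i)
  refine ⟨Finset.univ.sup N, fun y hy => htW fun i _ => hN i _ ?_⟩
  exact U_PR_exp_mono (Finset.le_sup (Finset.mem_univ i)) (hy i)

/-- The coordinates of `x` are small. -/
private def U_PR_sm {v : Pl F} (n : ℕ) (x : BV A v) : Prop :=
  ∀ i, Valued.v (x.co i) ≤ WithZero.exp (-(n : ℤ))

private theorem U_PR_sm_add {v : Pl F} {n : ℕ} {x y : BV A v} (hx : U_PR_sm n x)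
    (hy : U_PR_sm n y) : U_PR_sm n (x + y) := fun i => by
  rw [SC.Alg.co_add]
  exact (Valuation.map_add _ _ _).trans (max_le (hx i) (hy i))

private theorem U_PR_sm_smul {v : Pl F} {n : ℕ} {x : BV A v} (hx : U_PR_sm n x)
    {c : Fv v} (hc : Valued.v c ≤ 1) : U_PR_sm n (c • x) := fun i => by
  rw [SC.Alg.co_smul, map_mul]
  calc Valued.v c * Valued.v (x.co i) ≤ 1 * Valued.v (x.co i) := mul_le_mul_left hc _
    _ ≤ _ := by rw [one_mul]; exact hx i

private theorem U_PR_sm_zero {v : Pl F} (n : ℕ) : U_PR_sm n (0 : BV A v) := fun i => by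
  rw [SC.Alg.co_zero, map_zero]
  exact zero_le

/-- Every element becomes small after multiplication by a high power of a uniformiser. -/
private theorem U_PR_sm_ex {v : Pl F} (n : ℕ) (x : BV A v) : ∃ N : ℕ, ∀ c : Fv v,
    Valued.v c ≤ WithZero.exp (-(N : ℤ)) → U_PR_sm n (c • x) := by
  have key : ∀ y : Fv v, ∃ N : ℕ, ∀ c : Fv v, Valued.v c ≤ WithZero.exp (-(N : ℤ)) →
      Valued.v (c * y) ≤ WithZero.exp (-(n : ℤ)) := by
    intro y
    by_cases hy : Valued.v y = 0
    · refine ⟨0, fun c _ => ?_⟩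
      rw [map_mul, hy, mul_zero]
      exact zero_le
    · obtain ⟨m, hm⟩ : ∃ m : ℤ, Valued.v y = WithZero.exp m := ⟨WithZero.log (Valued.v y),
        (WithZero.exp_log hy).symm⟩
      refine ⟨(n + m).toNat, fun c hc => ?_⟩
      rw [map_mul, hm]
      calc Valued.v c * WithZero.exp m ≤
            WithZero.exp (-(((n + m).toNat : ℕ) : ℤ)) * WithZero.exp m := mul_le_mul_left hc _
        _ = WithZero.exp (-(((n + m).toNat : ℕ) : ℤ) + m) := (WithZero.exp_add _ _).symm
        _ ≤ _ := WithZero.exp_le_exp.2 (by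
            have := Int.self_le_toNat ((n : ℤ) + m)
            omega)
  choose N hN using fun i => key (x.co i)
  refine ⟨Finset.univ.sup N, fun c hc i => ?_⟩
  rw [SC.Alg.co_smul]
  exact hN i c (U_PR_exp_mono (Finset.le_sup (Finset.mem_univ i)) hc)

private theorem U_PR_sm_mono {v : Pl F} {m n : ℕ} (h : m ≤ n) {x : BV A v}
    (hx : U_PR_sm n x) : U_PR_sm m x := fun i => U_PR_exp_mono h (hx i)

private theorem U_PR_sm_mul {v : Pl F} {n : ℕ} {x y : BV A v} (hx : U_PR_sm n x)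
    (hy : U_PR_sm n y) : U_PR_sm n (x * y) := by
  intro i
  rw [SC.Alg.co_mul]
  refine Valuation.map_sum_le _ fun a _ => Valuation.map_sum_le _ fun b _ => ?_
  rw [map_mul, map_mul]
  have hc : Valued.v ((A.sF.map (algebraMap F (Fv v))).c a b i) ≤ 1 :=
    CG2.HR_int_le v (A.s.c a b i)
  have h1 : WithZero.exp (-(n : ℤ)) ≤ (1 : WithZero (Multiplicative ℤ)) := by
    rw [← WithZero.exp_zero]
    exact WithZero.exp_le_exp.2 (by omega)
  calc Valued.v (x.co a) * Valued.v (y.co b) *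
        Valued.v ((A.sF.map (algebraMap F (Fv v))).c a b i) ≤
        Valued.v (x.co a) * Valued.v (y.co b) * 1 := mul_le_mul_right hc _
    _ = Valued.v (x.co a) * Valued.v (y.co b) := mul_one _
    _ ≤ WithZero.exp (-(n : ℤ)) * Valued.v (y.co b) := mul_le_mul_left (hx a) _
    _ ≤ WithZero.exp (-(n : ℤ)) * 1 := mul_le_mul_right ((hy b).trans h1) _
    _ = _ := mul_one _

/-- The inverse of an element close to one is close to one. -/
private theorem U_PR_inv {v : Pl F} {n : ℕ} (hn : 1 ≤ n) (y : (BV A v)ˣ)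
    (hy : U_PR_sm n (y.1 - 1)) : U_PR_sm n ((y⁻¹ : (BV A v)ˣ).1 - 1) := by
  classical
  set z : BV A v := (y⁻¹ : (BV A v)ˣ).1 - 1 with hz
  have hrel : z = -((y.1 - 1) * z + (y.1 - 1)) := by
    have h1 : y.1 * (y⁻¹ : (BV A v)ˣ).1 = 1 := Units.mul_inv y
    have h2 : (y⁻¹ : (BV A v)ˣ).1 = z + 1 := by rw [hz, sub_add_cancel]
    rw [h2, mul_add, mul_one] at h1
    have h3 : (y.1 - 1) * z = 1 - y.1 - z := by
      rw [sub_mul, one_mul, eq_sub_of_add_eq h1]
    rw [h3]
    abel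
  -- products
  have hmul : ∀ i, Valued.v (((y.1 - 1) * z).co i) ≤
      WithZero.exp (-(n : ℤ)) * Finset.univ.sup (fun j => Valued.v (z.co j)) := by
    intro i
    rw [SC.Alg.co_mul]
    refine Valuation.map_sum_le _ fun a _ => Valuation.map_sum_le _ fun b _ => ?_
    rw [map_mul, map_mul]
    have hc : Valued.v ((A.sF.map (algebraMap F (Fv v))).c a b i) ≤ 1 :=
      CG2.HR_int_le v (A.s.c a b i)
    calc Valued.v ((y.1 - 1).co a) * Valued.v (z.co b) *
          Valued.v ((A.sF.map (algebraMap F (Fv v))).c a b i) ≤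
          Valued.v ((y.1 - 1).co a) * Valued.v (z.co b) * 1 := mul_le_mul_right hc _
      _ = Valued.v ((y.1 - 1).co a) * Valued.v (z.co b) := mul_one _
      _ ≤ WithZero.exp (-(n : ℤ)) * Valued.v (z.co b) := mul_le_mul_left (hy a) _
      _ ≤ _ := mul_le_mul_right (Finset.le_sup (f := fun j => Valued.v (z.co j))
          (Finset.mem_univ b)) _
  obtain ⟨M, hM⟩ : ∃ M, M = Finset.univ.sup (fun j => Valued.v (z.co j)) := ⟨_, rfl⟩
  have hzi : ∀ i, Valued.v (z.co i) ≤ M := fun i => by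
    rw [hM]
    exact Finset.le_sup (f := fun j => Valued.v (z.co j)) (Finset.mem_univ i)
  have hzb : ∀ i, Valued.v (z.co i) ≤ max (WithZero.exp (-(n : ℤ)) * M)
      (WithZero.exp (-(n : ℤ))) := by
    intro i
    have h1 : z.co i = -(((y.1 - 1) * z).co i + (y.1 - 1).co i) := by
      conv_lhs => rw [hrel]
      rfl
    rw [h1, Valuation.map_neg]
    refine (Valuation.map_add _ _ _).trans (max_le_max ?_ (hy i))
    rw [hM]
    exact hmul i
  have hMb : M ≤ max (WithZero.exp (-(n : ℤ)) * M) (WithZero.exp (-(n : ℤ))) := by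
    rw [hM]
    refine Finset.sup_le fun i _ => ?_
    rw [← hM]
    exact hzb i
  have hlt : WithZero.exp (-(n : ℤ)) < (1 : WithZero (Multiplicative ℤ)) := by
    rw [← WithZero.exp_zero]
    exact WithZero.exp_lt_exp.2 (by omega)
  have hM1 : M ≤ WithZero.exp (-(n : ℤ)) := by
    rcases le_max_iff.1 hMb with h | h
    · have h0 : M = 0 := by
        by_contra h0
        have h1 : WithZero.exp (-(n : ℤ)) * M < 1 * M :=
          mul_lt_mul_of_pos_right hlt (zero_lt_iff.2 h0)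
        rw [one_mul] at h1
        exact absurd h (not_le.2 h1)
      rw [h0]
      exact zero_le
    · exact h
  exact fun i => (hzi i).trans hM1

/-- The basis of the neighbourhoods of the unit element of the group of units. -/
private theorem U_PR_unit_nhds (A : UD F) (v : Pl F) {V : Set (BV A v)ˣ}
    (hV : V ∈ nhds (1 : (BV A v)ˣ)) :
    ∃ n : ℕ, ∀ y : (BV A v)ˣ, U_PR_sm n (y.1 - 1) → y ∈ V := by
  classical
  rw [Units.isInducing_embedProduct.nhds_eq_comap] at hV
  obtain ⟨T, hT, hTV⟩ := hV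
  -- neighbourhoods of a point of `DV`
  have hpi : ∀ {W : Set (BV A v)}, W ∈ nhds (1 : BV A v) →
      ∃ n : ℕ, ∀ y : BV A v, U_PR_sm n (y - 1) → y ∈ W := by
    intro W hW
    obtain ⟨n, hn⟩ := U_PR_pi (κ := Fin 2 × Fin A.n × Fin A.n) (W := W) (1 : BV A v) hW
    exact ⟨n, fun y hy => hn y fun i => hy i⟩
  have h1 : Units.embedProduct (BV A v) 1 = ((1 : BV A v), MulOpposite.op (1 : BV A v)) := by
    rw [Units.embedProduct_apply, inv_one]
    rfl
  rw [h1] at hT
  obtain ⟨W1, hW1, W2, hW2, hs⟩ := mem_nhds_prod_iff.1 hT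
  obtain ⟨n1, hn1⟩ := hpi hW1
  have hW2' : MulOpposite.op ⁻¹' W2 ∈ nhds (1 : BV A v) :=
    MulOpposite.continuous_op.continuousAt.preimage_mem_nhds hW2
  obtain ⟨n2, hn2⟩ := hpi hW2'
  refine ⟨max 1 (max n1 n2), fun y hy => hTV ?_⟩
  change Units.embedProduct (BV A v) y ∈ T
  rw [Units.embedProduct_apply]
  apply hs
  refine ⟨hn1 _ fun i => U_PR_exp_mono (by omega) (hy i), ?_⟩
  exact hn2 _ fun i => U_PR_exp_mono (n := max 1 (max n1 n2)) (by omega)
    (U_PR_inv (by omega) y hy i)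

/-- The quotient of two elements close to one is close to one. -/
private theorem U_PR_div {v : Pl F} {n : ℕ} (hn : 1 ≤ n) (a b : (BV A v)ˣ)
    (ha : U_PR_sm n (a.1 - 1)) (hb : U_PR_sm n (b.1 - 1)) : U_PR_sm n ((a * b⁻¹).1 - 1) := by
  have h1 : (a * b⁻¹).1 - 1 = (a.1 - 1) * ((b⁻¹ : (BV A v)ˣ).1 - 1) +
      ((a.1 - 1) + ((b⁻¹ : (BV A v)ˣ).1 - 1)) := by
    rw [Units.val_mul]
    noncomm_ring
  have h2 := U_PR_inv hn b hb
  rw [h1]
  exact U_PR_sm_add (U_PR_sm_mul ha h2) (U_PR_sm_add ha h2)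

/-- The bad places. -/
private theorem U_PR_bad (X : TorU A κ θ Kf M) (v : Pl F) : ∃ I : Ideal (𝓞 M), I ≠ ⊥ ∧
    ∀ (e : 𝓞 M) (he : (e : M) ≠ 0), e - 1 ∈ I →
      (X.y.2.1 v)⁻¹ * (sysU A).loc v (X.u (X.q (Units.mk0 (e : M) he))) * X.y.2.1 v ∈ X.U v := by
  classical
  let g : UV A v := X.y.2.1 v
  have h1 : IsOpen {y : UV A v | g⁻¹ * y * g ∈ X.U v} :=
    (X.U_open v).preimage ((continuous_const.mul continuous_id).mul continuous_const)
  obtain ⟨O, hO, hO'⟩ := isOpen_induced_iff.1 h1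
  have hO1 : (1 : (BV A v)ˣ) ∈ O := by
    have h2 : (1 : UV A v) ∈ {y : UV A v | g⁻¹ * y * g ∈ X.U v} := by
      change g⁻¹ * 1 * g ∈ X.U v
      rw [mul_one, inv_mul_cancel]
      exact (X.U v).one_mem
    rw [← hO'] at h2
    exact h2
  have hOm : ∀ y : UV A v, y.1 ∈ O → g⁻¹ * y * g ∈ X.U v := by
    intro y hy
    have h2 : y ∈ {y : UV A v | g⁻¹ * y * g ∈ X.U v} := by
      rw [← hO']
      exact hy
    exact h2
  obtain ⟨n₀, hn₀⟩ := U_PR_unit_nhds A v (hO.mem_nhds hO1)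
  obtain ⟨n, hn1, hn⟩ : ∃ n : ℕ, 1 ≤ n ∧ ∀ y : (BV A v)ˣ, U_PR_sm n (y.1 - 1) → y ∈ O :=
    ⟨max 1 n₀, le_max_left _ _, fun y hy => hn₀ y (U_PR_sm_mono (le_max_right _ _) hy)⟩
  obtain ⟨s, hs⟩ := (Module.Finite.fg_top : (⊤ : Submodule (𝓞 F) (𝓞 M)).FG)
  let D : 𝓞 M → BV A v := fun x => bloc A v (X.ι (x : M))
  have hDadd : ∀ x y, D (x + y) = D x + D y := by
    intro x y
    change bloc A v (X.ι ((x + y : 𝓞 M) : M)) = _
    rw [show ((x + y : 𝓞 M) : M) = (x : M) + (y : M) from rfl, map_add, map_add]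
  have hDsmul : ∀ (r : 𝓞 F) (x : 𝓞 M), D (r • x) = ((r : F) : Fv v) • D x := by
    intro r x
    change bloc A v (X.ι ((r • x : 𝓞 M) : M)) = _
    have h1 : ((r • x : 𝓞 M) : M) = (r : F) • (x : M) := by
      rw [Algebra.smul_def, Algebra.smul_def]
      rfl
    rw [h1, map_smul]
    apply SC.Alg.ext
    intro i
    rw [bE_co, SC.Alg.co_smul, SC.Alg.co_smul, bE_co]
    exact map_mul (algebraMap F (Fv v)) _ _
  have hval : ∀ r : 𝓞 F, Valued.v ((r : F) : Fv v) = v.intValuation r := by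
    intro r
    rw [HeightOneSpectrum.adicCompletion.valued_coe]
    exact HeightOneSpectrum.valuation_of_algebraMap v r
  choose N hN using fun b : 𝓞 M => U_PR_sm_ex n (D b)
  obtain ⟨ϖ, hϖ⟩ := v.intValuation_exists_uniformizer
  let m : ℕ := s.sup N
  have hϖM : Valued.v (((ϖ ^ m : 𝓞 F) : F) : Fv v) = WithZero.exp (-(m : ℤ)) := by
    rw [hval, map_pow, hϖ, ← WithZero.exp_nsmul]
    congr 1
    simp
  have hϖ0 : ϖ ≠ 0 := by
    rintro rfl
    rw [map_zero] at hϖ
    exact WithZero.exp_ne_zero hϖ.symm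
  refine ⟨Ideal.span {algebraMap (𝓞 F) (𝓞 M) (ϖ ^ m)}, ?_, fun e he hI => ?_⟩
  · rw [Ne, Ideal.span_singleton_eq_bot, map_eq_zero_iff _ (FaithfulSMul.algebraMap_injective _ _)]
    exact pow_ne_zero _ hϖ0
  · obtain ⟨y, hy⟩ := Ideal.mem_span_singleton'.1 hI
    have hsm : ∀ y : 𝓞 M, U_PR_sm n (D ((ϖ ^ m : 𝓞 F) • y)) := by
      intro y
      have hy : y ∈ Submodule.span (𝓞 F) (s : Set (𝓞 M)) := by
        rw [hs]
        trivial
      induction hy using Submodule.span_induction with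
      | mem b hb =>
        rw [hDsmul]
        refine hN b _ ?_
        rw [hϖM]
        exact WithZero.exp_le_exp.2 (by
          have : N b ≤ m := Finset.le_sup (f := N) hb
          omega)
      | zero =>
        rw [smul_zero]
        have h1 : D 0 = 0 := by
          change bloc A v (X.ι ((0 : 𝓞 M) : M)) = 0
          rw [show ((0 : 𝓞 M) : M) = 0 from rfl, map_zero, map_zero]
        rw [h1]
        exact U_PR_sm_zero n
      | add x y _ _ hx hy =>
        rw [smul_add, hDadd]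
        exact U_PR_sm_add hx hy
      | smul r x _ hx =>
        rw [smul_comm, hDsmul]
        refine U_PR_sm_smul hx ?_
        rw [hval]
        exact v.intValuation_le_one r
    have h2 : (ϖ ^ m : 𝓞 F) • y = e - 1 := by
      rw [Algebra.smul_def, mul_comm]
      exact hy
    have h2' : ((ϖ ^ m : 𝓞 F) : F) • (y : M) = (e : M) - 1 := by
      rw [show (e : M) - 1 = ((e - 1 : 𝓞 M) : M) from rfl, ← h2, Algebra.smul_def, Algebra.smul_def]
      rfl
    obtain ⟨y', hy'⟩ : ∃ y' : 𝓞 M, (y' : M) = X.τ (y : M) :=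
      ⟨RingOfIntegers.mapRingEquiv (X.τ : M ≃+* M) y, rfl⟩
    have ha : U_PR_sm n (bloc A v (X.ι (e : M)) - 1) := by
      have h3 : bloc A v (X.ι (e : M)) - 1 = D ((ϖ ^ m : 𝓞 F) • y) := by
        rw [h2]
        change _ = bloc A v (X.ι ((e - 1 : 𝓞 M) : M))
        rw [show ((e - 1 : 𝓞 M) : M) = (e : M) - 1 from rfl, map_sub, map_sub, map_one, map_one]
      rw [h3]
      exact hsm y
    have hb : U_PR_sm n (bloc A v (X.ι (X.τ (e : M))) - 1) := by
      have h3 : bloc A v (X.ι (X.τ (e : M))) - 1 = D ((ϖ ^ m : 𝓞 F) • y') := by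
        change _ = bloc A v (X.ι (((ϖ ^ m : 𝓞 F) • y' : 𝓞 M) : M))
        have h4 : (((ϖ ^ m : 𝓞 F) • y' : 𝓞 M) : M) = X.τ (e : M) - 1 := by
          have h5 : (((ϖ ^ m : 𝓞 F) • y' : 𝓞 M) : M) = ((ϖ ^ m : 𝓞 F) : F) • (y' : M) := by
            rw [Algebra.smul_def, Algebra.smul_def]
            rfl
          have h6 : X.τ (((ϖ ^ m : 𝓞 F) : F) • (y : M)) =
              ((ϖ ^ m : 𝓞 F) : F) • X.τ (y : M) := map_smul X.τ.toLinearMap _ _
          rw [h5, hy', ← h6, h2', map_sub, map_one]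
        rw [h4, map_sub, map_sub, map_one, map_one]
      rw [h3]
      exact hsm y'
    have hτe : X.τ (e : M) ≠ 0 := (map_ne_zero X.τ).2 he
    obtain ⟨a, hae⟩ : ∃ a : (BV A v)ˣ, a.1 = bloc A v (X.ι (e : M)) :=
      ⟨Units.map (bloc A v : BF A →* BV A v) (Units.map (X.ι : M →* BF A) (Units.mk0 (e : M) he)),
        rfl⟩
    obtain ⟨b, hbe⟩ : ∃ b : (BV A v)ˣ, b.1 = bloc A v (X.ι (X.τ (e : M))) :=
      ⟨Units.map (bloc A v : BF A →* BV A v) (Units.map (X.ι : M →* BF A)
        (Units.mk0 (X.τ (e : M)) hτe)), rfl⟩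
    refine hOm _ (hn _ ?_)
    have h3 : (show UV A v from (sysU A).loc v (X.u (X.q (Units.mk0 (e : M) he)))).1 =
        a * b⁻¹ := by
      rw [eq_mul_inv_iff_mul_eq]
      apply Units.ext
      rw [Units.val_mul, hae, hbe]
      change bloc A v (X.ι (((X.q (Units.mk0 (e : M) he)).1 : Mˣ) : M)) * _ = _
      rw [← map_mul, ← map_mul, X.q_val, Units.val_mk0, div_mul_cancel₀ _ hτe]
    change U_PR_sm n ((show UV A v from
      (sysU A).loc v (X.u (X.q (Units.mk0 (e : M) he)))).1.1 - 1)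
    rw [h3]
    exact U_PR_div hn1 a b (by rw [hae]; exact ha) (by rw [hbe]; exact hb)

omit [NumberField F] in
private theorem U_PR_pos (τ : M ≃ₐ[F] M) {e e' : 𝓞 M} (he : (e' : M) = τ (e : M))
    (h : TotPos e) : TotPos e' := by
  rintro ⟨w, hw⟩
  have h1 : (w.comap (τ : M →+* M)).IsReal := hw.comap _
  have h2 := h ⟨_, h1⟩
  have h3 : InfinitePlace.embedding_of_isReal hw (e' : M) =
      InfinitePlace.embedding_of_isReal h1 (e : M) := by
    apply Complex.ofReal_injective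
    rw [InfinitePlace.embedding_of_isReal_apply, InfinitePlace.embedding_of_isReal_apply,
      InfinitePlace.comap_embedding_of_isReal _ h1, he]
    rfl
  change 0 < InfinitePlace.embedding_of_isReal hw (e' : M)
  rw [h3]
  exact h2

/-- **U_PR.** Principal ideals.
PROOF. As `CGN.TorL.principal` (UPri.lean of CGN). At a bad place `v`: `X.U v` is the intersection of
the unitary group with an open set `O` of `(B_v)ˣ`; choose a neighbourhood `V` of `1` in `(B_v)ˣ` such
that `g⁻¹ a b⁻¹ g ∈ O` for `a`, `b` in `V` (`g = X.y.2.1 v`; continuity at `(1, 1)`), and an ideal `J v`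
such that `bloc (ι e)` is in `V` for `e ≡ 1` modulo `J v` (the argument of `UPri_bad` with the
structure constants of `A.sF`, index set `Fin 2 × Fin n × Fin n`); take `J v` generated by an element
of `𝓞 F`: then `τ e ≡ 1` modulo `J v` too, and `loc (u (q e)) = loc (ι e) loc (ι (τ e))⁻¹`. At a good
place: `X.unit_mem` for `q (z⁻¹ e)`. The signs: `X.ι (e / τ e)` has positive determinants, because
those of `ι e` and `ι (τ e)` are positive (`hdet`; `τ e` is totally positive) and the determinant is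
multiplicative (`SPl.det_mul`). -/
theorem TorU.principal (X : TorU A κ θ Kf M)
    (hdet : ∀ (x : 𝓞 M), x ≠ 0 → TotPos x → ∀ w : SPl A, 0 < w.det (X.ι (x : M))) :
    ∃ m₁ : Ideal (𝓞 M), m₁ ≠ ⊥ ∧
    ∀ (e : 𝓞 M) (he : (e : M) ≠ 0), e - 1 ∈ m₁ → TotPos e → ∀ t, X.IsRep (Ideal.span {e}) t →
      mkK Kf (lt t X.y) = mkK Kf (act (X.u (X.q (Units.mk0 (e : M) he))) X.y) := by
  classical
  choose J hJ0 hJ using U_PR_bad X
  refine ⟨∏ v ∈ X.T_fin.toFinset, J v, ?_, fun e he h1 hpos t ht => ?_⟩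
  · rw [← Ideal.zero_eq_bot]
    exact Finset.prod_ne_zero_iff.2 fun v _ => hJ0 v
  · set x : Mˣ := Units.mk0 (e : M) he with hx
    have he0 : e ≠ 0 := fun h => he (by rw [h]; rfl)
    rw [mkK_eq]
    refine ⟨X.y.2⁻¹ * t⁻¹ * diag (X.u (X.q x)) * X.y.2, X.U_le _ fun v => ?_, ?_⟩
    · by_cases hv : v ∈ X.T
      · have h2 : (X.y.2⁻¹ * t⁻¹ * diag (X.u (X.q x)) * X.y.2).1 v =
            (X.y.2.1 v)⁻¹ * (sysU A).loc v (X.u (X.q x)) * X.y.2.1 v := by
          change (X.y.2.1 v)⁻¹ * (t.1 v)⁻¹ * (sysU A).loc v (X.u (X.q x)) * X.y.2.1 v = _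
          rw [ht.1 v hv, inv_one, mul_one]
        rw [h2]
        refine hJ v e he ?_
        exact Ideal.le_of_dvd (Finset.dvd_prod_of_mem J ((Set.Finite.mem_toFinset _).2 hv)) h1
      · obtain ⟨z, hz1, hz2⟩ := ht.2 v hv
        have h2 : (X.y.2⁻¹ * t⁻¹ * diag (X.u (X.q x)) * X.y.2).1 v =
            (X.y.2.1 v)⁻¹ * (sysU A).loc v (X.u (X.q (z⁻¹ * x))) * X.y.2.1 v := by
          change (X.y.2.1 v)⁻¹ * (t.1 v)⁻¹ * (sysU A).loc v (X.u (X.q x)) * X.y.2.1 v = _
          rw [hz1, map_mul, map_mul, map_mul, map_inv, map_inv, map_inv]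
          simp only [mul_assoc]
        have h3 : ∀ W : Pl M, below F W = v →
            W.valuation M ((z⁻¹ * x : Mˣ) : M) = 1 := by
          intro W hW
          rw [Units.val_mul, Units.val_inv_eq_inv_val, map_mul, map_inv₀, hz2 W hW]
          have h4 : W.valuation M (x : M) = WithZero.exp (-(expo W (Ideal.span {e}) : ℤ)) := by
            have h5 : W.valuation M (algebraMap (𝓞 M) M e) = W.intValuation e :=
              W.valuation_of_algebraMap e
            rw [W.intValuation_if_neg he0] at h5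
            exact h5
          rw [h4, inv_mul_cancel₀ WithZero.exp_ne_zero]
        rw [h2]
        refine X.unit_mem v hv _ fun W hW => ?_
        obtain ⟨W', hW1, hW2, -⟩ := exists_conj_pl X.τ W
        rw [X.q_val, map_div₀, ← hW2, h3 W hW, h3 W' (hW1.trans hW), div_one]
    · refine Prod.ext ?_ ?_
      · change (sysU A).sgn (X.u (X.q x)) * X.y.1 = X.y.1
        have h2 : (sysU A).sgn (X.u (X.q x)) = 1 := by
          funext w
          change (if 0 < w.det (X.ι (((X.q x).1 : Mˣ) : M)) then (1 : ℤˣ) else -1) = 1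
          obtain ⟨e', he'⟩ : ∃ e' : 𝓞 M, (e' : M) = X.τ (e : M) :=
            ⟨RingOfIntegers.mapRingEquiv (X.τ : M ≃+* M) e, rfl⟩
          have hτe : X.τ (e : M) ≠ 0 := (map_ne_zero X.τ).2 he
          have he0' : e' ≠ 0 := by
            rintro rfl
            exact hτe he'.symm
          have h3 := hdet e he0 hpos w
          have h4 := hdet e' he0' (U_PR_pos X.τ he' hpos) w
          rw [he'] at h4
          have h5 : w.det (X.ι (((X.q x).1 : Mˣ) : M)) * w.det (X.ι (X.τ (e : M))) =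
              w.det (X.ι (e : M)) := by
            rw [← w.det_mul, ← map_mul, X.q_val, hx, Units.val_mk0, div_mul_cancel₀ _ hτe]
          refine if_pos ?_
          by_contra h6
          have h7 := mul_nonpos_of_nonpos_of_nonneg (not_lt.1 h6) h4.le
          rw [h5] at h7
          exact absurd h3 (not_lt.2 h7)
        rw [h2, one_mul]
      · change diag (X.u (X.q x)) * X.y.2 =
          t * X.y.2 * (X.y.2⁻¹ * t⁻¹ * diag (X.u (X.q x)) * X.y.2)
        group

/- END U_PR -/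

end Pool.Agent.CGU
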