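import Pool.Agent.CGU.URe
import Pool.Agent.CGU.UPs
import Pool.Agent.CGU.UFr
import Pool.Agent.CGN.ULHec
import Pool.Agent.CGN.URel

/-!
# The unit trick for unitary groups: the relation at a selected place
-/

noncomputable section

namespace Pool.Agent.CGU

open NumberField IsDedekindDomain Matrix
open Pool.Agent.CG2 (Pl Fv Ov IsRay InRay expo TotPos)
open Pool.Agent.CG2.GalFinAux (below)
open Pool.Agent.CGQ (Sys OC diag single single_same single_ne act rt lt mkK mkK_eq mkK_rt Stab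
  mem_Stab' lt_rt rt_mul Reps exists_Reps)
open Pool.Agent.CGN (Std SC Split HypOff abv mem_abv Sel PPow GQ GZ nb locZ sg sg_apply EigFam
  prod_ne_bot expo_prod exists_eltL kv resv resv_int resv_int_surj mapO dcs locZ_mem act_nb
  smul_mem_cosets cosets_finite hecke_local split_res)

variable {F : Type} [Field F] [NumberField F] {K : Type} [Field K] [NumberField K] [Algebra F K]
  {A : UD F} {κ : K →ₐ[F] BF A} {S : Set (Pl F)} {θ : USpl A S}
  {Kf : Subgroup (sysU A).A} {M : Type} [Field M] [NumberField M] [Algebra F M] [Algebra K M]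

/-- The neighbour given by an element of `M` with valuations `0` or `1` above `v`. -/
theorem TorU.nb_eq (X : TorU A κ θ Kf M) (v : {v : Pl F // v ∉ S}) (hv : v.1 ∉ X.T)
    (J : Finset (Pl M)) [∀ W, Decidable (W ∈ J)] (hJ : ∀ W ∈ J, below F W = v.1) (x : Mˣ)
    (hx : ∀ W : Pl M, below F W = v.1 →
      W.valuation M (x : M) = if W ∈ J then WithZero.exp (-1 : ℤ) else 1)
    (B : GQ A.n v.1)
    (hB : (B : Matrix (Fin A.n) (Fin A.n) (Fv v.1)) =
      psiU θ v (X.y.2.1 v.1) (X.ι (((X.q x).1 : Mˣ) : M)))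
    {I : Ideal (𝓞 M)} (hI : I ≠ ⊥) {t t' : (sysU A).A} (ht : X.IsRep I t)
    (ht' : X.IsRep (I * ∏ W ∈ J, W.asIdeal) t') :
    mkK Kf (nb (chartU θ) v (lt t X.y) ((B : GQ A.n v.1) : GQ A.n v.1 ⧸ GZ A.n v.1)) =
      mkK Kf (lt t' X.y) := by
  classical
  -- the representative of the product of the places
  have hs : X.IsRep (∏ W ∈ J, W.asIdeal) (single v.1 ((sysU A).loc v.1 (X.u (X.q x)))) := by
    refine ⟨fun v' hv' => single_ne (by rintro rfl; exact hv hv') _, fun v' hv' => ?_⟩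
    by_cases h : v' = v.1
    · subst h
      refine ⟨x, single_same _ _, ?_⟩
      intro w' hw'
      rw [hx w' hw', expo_prod]
      by_cases hwJ : w' ∈ J
      · rw [if_pos hwJ, if_pos hwJ]
        rfl
      · rw [if_neg hwJ, if_neg hwJ]
        simp
    · refine ⟨1, ?_, ?_⟩
      · rw [map_one, map_one, map_one]
        exact single_ne h _
      · intro w' hw'
        have hne : w' ∉ J := by
          intro hw'J
          exact h (hw'.symm.trans (hJ w' hw'J))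
        rw [expo_prod, if_neg hne]
        simp
  have hrep := X.rep_mul hI (prod_ne_bot J) ht hs
  rw [← X.rep_unique hrep ht']
  -- the coset
  obtain ⟨k, hk⟩ := QuotientGroup.mk_out_eq_mul (GZ A.n v.1) B
  have h1 : mkK Kf (nb (chartU θ) v (lt t X.y) ((B : GQ A.n v.1) : GQ A.n v.1 ⧸ GZ A.n v.1)) =
      mkK Kf (rt (lt t X.y) (sg (chartU θ) v B)) := by
    rw [nb, hk, map_mul, rt_mul]
    exact mkK_rt _ ((X.hyp v).sg_mem k.2)
  rw [h1]
  congr 1
  let g' : (sysU A).L v.1 := X.y.2.1 v.1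
  have h2 : (chartU θ).e v (g'⁻¹ * (sysU A).loc v.1 (X.u (X.q x)) * g') = B := by
    apply Units.ext
    rw [hB]
    rfl
  have h3 : sg (chartU θ) v B = single v.1 (g'⁻¹ * (sysU A).loc v.1 (X.u (X.q x)) * g') := by
    rw [sg_apply, ← h2, MulEquiv.symm_apply_apply]
  rw [h3]
  refine Prod.ext rfl ?_
  change t * X.y.2 * single v.1 (g'⁻¹ * (sysU A).loc v.1 (X.u (X.q x)) * g') =
    t * single v.1 ((sysU A).loc v.1 (X.u (X.q x))) * X.y.2
  rw [mul_assoc t X.y.2 _, mul_assoc t _ X.y.2]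
  congr 1
  apply Subtype.ext
  funext v'
  by_cases h : v' = v.1
  · subst h
    change X.y.2.1 v.1 * (single v.1 (g'⁻¹ * (sysU A).loc v.1 (X.u (X.q x)) * g')).1 v.1 =
      (single v.1 ((sysU A).loc v.1 (X.u (X.q x)))).1 v.1 * X.y.2.1 v.1
    rw [single_same, single_same]
    change g' * (g'⁻¹ * (sysU A).loc v.1 (X.u (X.q x)) * g') =
      (sysU A).loc v.1 (X.u (X.q x)) * g'
    group
  · change X.y.2.1 v' * (single v.1 (g'⁻¹ * (sysU A).loc v.1 (X.u (X.q x)) * g')).1 v' =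
      (single v.1 ((sysU A).loc v.1 (X.u (X.q x)))).1 v' * X.y.2.1 v'
    rw [single_ne h, single_ne h, mul_one, one_mul]

/-- The matrix of an element of the torus. -/
theorem TorU.loc_eq (X : TorU A κ θ Kf M) (v : {v : Pl F // v ∉ S}) (hv : v.1 ∉ X.T)
    (z : Tor X.τ) {I : Ideal (𝓞 M)} {t : (sysU A).A} (ht : X.IsRep I t) :
    ((locZ (chartU θ) v (lt t X.y) (X.u z) : GQ A.n v.1) :
      Matrix (Fin A.n) (Fin A.n) (Fv v.1)) =
      psiU θ v (X.y.2.1 v.1) (X.ι ((z.1 : Mˣ) : M)) := by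
  obtain ⟨x₀, hx₀, -⟩ := ht.2 v.1 hv
  have h2 : (lt t X.y).2.1 v.1 = (sysU A).loc v.1 (X.u (X.q x₀)) * X.y.2.1 v.1 := by
    change t.1 v.1 * X.y.2.1 v.1 = _
    rw [hx₀]
  have h3 : (sysU A).loc v.1 (X.u z) * (sysU A).loc v.1 (X.u (X.q x₀)) =
      (sysU A).loc v.1 (X.u (X.q x₀)) * (sysU A).loc v.1 (X.u z) := by
    rw [← map_mul ((sysU A).loc v.1), ← map_mul ((sysU A).loc v.1)]
    congr 1
    exact X.u_comm _ _
  have h1 : ((lt t X.y).2.1 v.1)⁻¹ * (sysU A).loc v.1 (X.u z) * (lt t X.y).2.1 v.1 =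
      (X.y.2.1 v.1)⁻¹ * (sysU A).loc v.1 (X.u z) * X.y.2.1 v.1 := by
    rw [h2, _root_.mul_inv_rev]
    calc (X.y.2.1 v.1)⁻¹ * ((sysU A).loc v.1 (X.u (X.q x₀)))⁻¹ * (sysU A).loc v.1 (X.u z) *
          ((sysU A).loc v.1 (X.u (X.q x₀)) * X.y.2.1 v.1) =
        (X.y.2.1 v.1)⁻¹ * (((sysU A).loc v.1 (X.u (X.q x₀)))⁻¹ * ((sysU A).loc v.1 (X.u z) *
          (sysU A).loc v.1 (X.u (X.q x₀)))) * X.y.2.1 v.1 := by simp only [mul_assoc]
      _ = _ := by rw [h3, inv_mul_cancel_left]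
  unfold locZ
  rw [h1]
  rfl

/-- Powers in the residue field. -/
private theorem URl_pow {v : Pl F} {m : ℕ} (hm : m ≠ 0) {w w' : Pl M} {u : 𝓞 M} {t t' : (kv v)ˣ}
    (ht : ∀ r : 𝓞 F, u - algebraMap (𝓞 F) (𝓞 M) r ∈ w.asIdeal →
      (t : kv v) = resv v (algebraMap (𝓞 F) (Ov v) r))
    (ht' : ∀ r : 𝓞 F, u - algebraMap (𝓞 F) (𝓞 M) r ∈ w'.asIdeal →
      (t' : kv v) = resv v (algebraMap (𝓞 F) (Ov v) r))
    (hex : ∃ r : 𝓞 F, u - algebraMap (𝓞 F) (𝓞 M) r ∈ w.asIdeal)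
    (hex' : ∃ r : 𝓞 F, u - algebraMap (𝓞 F) (𝓞 M) r ∈ w'.asIdeal) :
    PPow v m w w' u ↔ ∃ z : (kv v)ˣ, z ^ m = t / t' := by
  have hneg : ∀ (w : Pl M) (r : 𝓞 F), algebraMap (𝓞 F) (𝓞 M) r - u ∈ w.asIdeal ↔
      u - algebraMap (𝓞 F) (𝓞 M) r ∈ w.asIdeal := fun w r => by
    rw [← neg_sub, neg_mem_iff]
  have hsub : ∀ a b : 𝓞 F, a - b ∈ v.asIdeal ↔
      resv v (algebraMap (𝓞 F) (Ov v) a) = resv v (algebraMap (𝓞 F) (Ov v) b) := fun a b => by
    rw [← resv_int, map_sub, map_sub, sub_eq_zero]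
  constructor
  · rintro ⟨a, b, x, ha, hb, hx⟩
    have h1 := ht a ((hneg w a).1 ha)
    have h2 := ht' b ((hneg w' b).1 hb)
    rw [hsub, map_mul, map_mul, map_pow, map_pow, ← h1, ← h2] at hx
    have h3 : IsUnit (resv v (algebraMap (𝓞 F) (Ov v) x)) := by
      rw [← isUnit_pow_iff hm]
      exact isUnit_of_mul_isUnit_left (hx ▸ t.isUnit)
    obtain ⟨z, hz⟩ := h3
    refine ⟨z, ?_⟩
    rw [eq_div_iff_mul_eq']
    apply Units.ext
    rw [Units.val_mul, Units.val_pow_eq_pow_val, hz, ← hx]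
  · rintro ⟨z, hz⟩
    obtain ⟨a, ha⟩ := hex
    obtain ⟨b, hb⟩ := hex'
    obtain ⟨x, hx⟩ := resv_int_surj v (z : kv v)
    refine ⟨a, b, x, (hneg w a).2 ha, (hneg w' b).2 hb, ?_⟩
    rw [hsub, map_mul, map_mul, map_pow, map_pow, ← ht a ha, ← ht' b hb, hx]
    rw [eq_div_iff_mul_eq'] at hz
    rw [← hz, Units.val_mul, Units.val_pow_eq_pow_val]

/-- The valuation of `x / τ x` above `w` if `x` is a unit above the other place of `K`. -/
private theorem URl_val (X : TorU A κ θ Kf M) {c : K ≃ₐ[F] K}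
    (hcs : ∀ a, star (κ a) = κ (c a)) {v : Pl F} {w : Pl K} (hw : below F w = v)
    (hww : ∃ w' : Pl K, w ≠ w' ∧
      ∀ a a' : 𝓞 K, (a' : K) = c (a : K) → (a ∈ w'.asIdeal ↔ a' ∈ w.asIdeal)) (x : Mˣ)
    (hx : ∀ W : Pl M, below F W = v → below K W ≠ w → W.valuation M (x : M) = 1) {W : Pl M}
    (hW : below K W = w) :
    W.valuation M (((X.q x).1 : Mˣ) : M) = W.valuation M (x : M) := by
  have hT := X.dat.tower
  have hτ : ∀ a : K, X.τ (algebraMap K M a) = algebraMap K M (c a) := by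
    intro a
    apply X.ι_inj
    rw [← X.dat.st, X.dat.ικ, X.dat.ικ, hcs]
  obtain ⟨W', hW1, hW2, hW3⟩ := exists_conj_pl X.τ W
  have hWv : below F W = v := by
    rw [← below_below hT, hW, hw]
  have h1 : below K W' ≠ w := below_conj_ne c X.τ hτ hW hww hW3
  rw [X.q_val, map_div₀, ← hW2, hx W' (hW1.trans hWv) h1, div_one]

/-- **U_SUM.** The relation between the values at a selected place. -/
theorem TorU.sum_terms (X : TorU A κ θ Kf M) (hU : IsUni A κ) {c : K ≃ₐ[F] K}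
    (hcs : ∀ a, star (κ a) = κ (c a)) (v : {v : Pl F // v ∉ S}) (hv : v.1 ∉ X.T) (hspl : Split K v.1) {w : Pl K} (hw : IsW κ θ v w)
    (hww : ∃ w' : Pl K, w ≠ w' ∧
      ∀ a a' : 𝓞 K, (a' : K) = c (a : K) → (a ∈ w'.asIdeal ↔ a' ∈ w.asIdeal)) {k' : Type} [Field k']
    {p : ℕ} [hp : Fact p.Prime] [CharP k' p] {η : (sysU A).G →* ℤˣ}
    {lam : {v : Pl F // v ∉ S} → Option (Fin A.n) → k'} (u e : (𝓞 M)ˣ) (uT eT : Tor X.τ)
    (huT : ((uT.1 : Mˣ) : M) = ((u : 𝓞 M) : M)) (heT : ((eT.1 : Mˣ) : M) = ((e : 𝓞 M) : M))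
    (E : EigFam Kf (chartU θ) k' η (X.u uT) lam)
    (hu : X.u uT ∈ Stab Kf X.y) (he : X.u eT ∈ Stab Kf X.y)
    (hηu : η (X.u uT) = 1) (hηe : η (X.u eT) = 1) (N : ℕ) (hsel : Sel M u e (p ^ N) w)
    (j : Fin A.n) {I : Ideal (𝓞 M)} (hI : I ≠ ⊥) {t : (sysU A).A} (ht : X.IsRep I t)
    (tJ : Finset (Pl M) → (sysU A).A)
    (htJ : ∀ J ∈ (abv M w).powersetCard ((j : ℕ) + 1), X.IsRep (I * ∏ W ∈ J, W.asIdeal) (tJ J)) :
    ∑ J ∈ (abv M w).powersetCard ((j : ℕ) + 1), E.h (lt (tJ J) X.y) 1 =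
      lam v (some j) * E.h (lt t X.y) 1 := by
  classical
  have hT := X.dat.tower
  obtain ⟨i, hi, hiF⟩ := th_kap hU X.hn θ v
  have hwv : below F w = v.1 := (isW_val X.hn hw hi hiF).2.2.1
  have hP : ∀ W, W ∈ abv M w ↔ below K W = w := fun W => mem_abv
  have hcard : (abv M w).card = Module.finrank K M := hsel.split
  have htow := fun (W : Pl M) (hW : W ∈ abv M w) => tower_split hT hspl hwv hsel.split hW
  -- the enumeration of the places
  obtain ⟨e₀⟩ : Nonempty (Fin A.n ≃ {W // W ∈ abv M w}) := by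
    rw [← Fintype.card_eq, Fintype.card_fin, Fintype.card_coe, hcard, X.dat.deg]
  let ee : Fin A.n → Pl M := fun i => (e₀ i).1
  have hee : ∀ i, ee i ∈ abv M w := fun i => (e₀ i).2
  have heinj : Function.Injective ee := fun i i' h => e₀.injective (Subtype.ext h)
  have hesurj : ∀ W ∈ abv M w, ∃ i, ee i = W := fun W hW =>
    ⟨e₀.symm ⟨W, hW⟩, by
      change (e₀ (e₀.symm ⟨W, hW⟩)).1 = W
      rw [Equiv.apply_symm_apply]⟩
  -- the frame
  obtain ⟨m, hm1, hm2⟩ := exists_frame_part (fun W hW => (htow W hW).1)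
    (fun W hW => (htow W hW).2.1) (fun W hW => (htow W hW).2.2) ee hee heinj hesurj
    ((psiU θ v (X.y.2.1 v.1)).comp (X.ι : M →+* BF A))
    (fun a => by
      change psiU θ v (X.y.2.1 v.1) (X.ι (algebraMap F M a)) = _
      rw [AlgHom.commutes, psiU_scalar])
    (fun x hx => X.psi_int hU v hv hw x fun W hW => hx W ((hP W).2 hW))
    (fun x hx W hW => X.int_psi hU v hw x hx W ((hP W).1 hW))
  -- the matrices of the units
  set γA : GQ A.n v.1 := locZ (chartU θ) v (lt t X.y) (X.u uT) with hγA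
  set γB : GQ A.n v.1 := locZ (chartU θ) v (lt t X.y) (X.u eT) with hγB
  obtain ⟨a, ta, ha1, ha2, ha3⟩ := hm1 u γA (by
    rw [hγA, X.loc_eq v hv uT ht, huT]
    rfl)
  obtain ⟨b, tb, hb1, hb2, hb3⟩ := hm1 e γB (by
    rw [hγB, X.loc_eq v hv eT ht, heT]
    rfl)
  have hAB : γA * γB = γB * γA := by
    apply Units.ext
    rw [Units.val_mul, Units.val_mul, hγA, hγB, X.loc_eq v hv uT ht, X.loc_eq v hv eT ht,
      psiU_comm]
  have hstabu : X.u uT ∈ Stab Kf (lt t X.y) := X.stab_rep ht _ hu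
  have hstabe : X.u eT ∈ Stab Kf (lt t X.y) := X.stab_rep ht _ he
  -- powers
  have hpM : p ^ N ≠ 0 := pow_ne_zero _ hp.out.ne_zero
  have hpow : ∀ x y, x ≠ y → ∃ z : (kv v.1)ˣ, z ^ p ^ N = ta x / ta y := fun x y _ =>
    (URl_pow hpM (ha3 x) (ha3 y) ((htow _ (hee x)).2.2 _)
      ((htow _ (hee y)).2.2 _)).1
      ((ppow_base hT hspl hwv (hee x) (hee y) _ _).1 (hsel.pw _ (hee x) _ (hee y)))
  have hnpow : ∀ x y, x ≠ y → ¬ ∃ z : (kv v.1)ˣ, z ^ p ^ N = tb x / tb y := fun x y hxy h =>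
    hsel.np _ (hee x) _ (hee y) (fun h' => hxy (heinj h'))
      ((ppow_base hT hspl hwv (hee x) (hee y) _ _).2
        ((URl_pow hpM (hb3 x) (hb3 y) ((htow _ (hee x)).2.2 _)
          ((htow _ (hee y)).2.2 _)).2 h))
  -- the function on the cosets
  let H : GQ A.n v.1 ⧸ GZ A.n v.1 → k' := fun c =>
    E.h (nb (chartU θ) v (lt t X.y) c) (Function.minimalPeriod (fun c => γA • c) c)
  have hper : ∀ (g : GQ A.n v.1), γA * g = g * γA → ∀ c : GQ A.n v.1 ⧸ GZ A.n v.1,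
      Function.minimalPeriod (fun c => γA • c) (g • c) =
        Function.minimalPeriod (fun c => γA • c) c := by
    intro g hg c
    apply Function.minimalPeriod_eq_minimalPeriod_iff.2
    intro k
    have hit : ∀ (k : ℕ) (c : GQ A.n v.1 ⧸ GZ A.n v.1), (fun c => γA • c)^[k] (g • c) =
        g • (fun c => γA • c)^[k] c := by
      intro k
      induction k with
      | zero => intro c; rfl
      | succ k ih =>
        intro c
        rw [Function.iterate_succ_apply, Function.iterate_succ_apply, ← ih]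
        congr 1
        rw [smul_smul, smul_smul, hg]
    unfold Function.IsPeriodicPt Function.IsFixedPt
    rw [hit]
    exact ⟨fun h => MulAction.injective g h, fun h => by rw [h]⟩
  have hH : ∀ (δ : Tor X.τ), X.u δ ∈ Stab Kf (lt t X.y) → η (X.u δ) = 1 →
      γA * locZ (chartU θ) v (lt t X.y) (X.u δ) =
        locZ (chartU θ) v (lt t X.y) (X.u δ) * γA →
      ∀ c, H (locZ (chartU θ) v (lt t X.y) (X.u δ) • c) = H c := by
    intro δ hδ hηδ hcomm c
    change E.h _ (Function.minimalPeriod _ (_ • c)) = E.h _ _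
    rw [hper _ hcomm]
    have h3 := act_nb (X.hyp v) hδ c
    rw [← E.congr h3, E.h_act _ (X.u δ) _ (X.u_comm _ _), hηδ, Units.val_one, Int.cast_one,
      one_mul]
  -- representatives
  have hmZ : mapO v.1 m ∈ GZ A.n v.1 := ⟨m, rfl⟩
  have hγAZ : γA ∈ GZ A.n v.1 := locZ_mem (X.hyp v) hstabu
  obtain ⟨R, hR⟩ := exists_Reps (fun c : GQ A.n v.1 ⧸ GZ A.n v.1 => γA • c)
    (MulAction.injective γA) (cosets_finite v.1 (some j)).toFinset (fun c hc => by
      rw [Set.Finite.mem_toFinset] at hc ⊢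
      exact smul_mem_cosets hc hγAZ)
  have hT' := E.h_T v (some j) (lt t X.y) hstabu R hR
  have hloc := hecke_local (p := p) N hmZ hAB a b ha1 hb1 ta tb ha2 hb2 hpow hnpow j H
    (hH uT hstabu hηu rfl) (hH eT hstabe hηe hAB) R hR
  have hsum : ∑ c ∈ R, H c = lam v (some j) * E.h (lt t X.y) 1 := hT'
  rw [← hsum, hloc]
  -- the bijection of the subsets
  symm
  refine Finset.sum_bij (fun J _ => J.image ee) ?_ ?_ ?_ ?_
  · intro J hJ
    rw [Finset.mem_powersetCard] at hJ ⊢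
    refine ⟨fun W hW => ?_, ?_⟩
    · obtain ⟨i, -, rfl⟩ := Finset.mem_image.1 hW
      exact hee i
    · rw [Finset.card_image_of_injective _ heinj, hJ.2]
  · intro J _ J' _ h
    exact Finset.image_injective heinj h
  · intro J hJ
    rw [Finset.mem_powersetCard] at hJ
    refine ⟨Finset.univ.filter fun i => ee i ∈ J, ?_, ?_⟩
    · rw [Finset.mem_powersetCard]
      refine ⟨Finset.subset_univ _, ?_⟩
      rw [← hJ.2, ← Finset.card_image_of_injective _ heinj]
      congr 1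
      ext W
      rw [Finset.mem_image]
      constructor
      · rintro ⟨i, hi, rfl⟩
        exact (Finset.mem_filter.1 hi).2
      · intro hW
        obtain ⟨i, rfl⟩ := hesurj W (hJ.1 hW)
        exact ⟨i, Finset.mem_filter.2 ⟨Finset.mem_univ _, hW⟩, rfl⟩
    · ext W
      rw [Finset.mem_image]
      constructor
      · rintro ⟨i, hi, rfl⟩
        exact (Finset.mem_filter.1 hi).2
      · intro hW
        obtain ⟨i, rfl⟩ := hesurj W (hJ.1 hW)
        exact ⟨i, Finset.mem_filter.2 ⟨Finset.mem_univ _, hW⟩, rfl⟩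
  · intro J hJ
    rw [Finset.mem_powersetCard] at hJ
    have hJsub : J.image ee ⊆ abv M w := by
      intro W hW
      obtain ⟨i, -, rfl⟩ := Finset.mem_image.1 hW
      exact hee i
    -- an element of `M`
    obtain ⟨x, hx⟩ := exists_eltL (L := M) v.1 (∏ W ∈ J.image ee, W.asIdeal)
    have hx' : ∀ W : Pl M, below F W = v.1 → W.valuation M (x : M) =
        if W ∈ J.image ee then WithZero.exp (-1 : ℤ) else 1 := by
      intro W hW
      rw [hx W hW, expo_prod]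
      by_cases hwJ : W ∈ J.image ee
      · rw [if_pos hwJ, if_pos hwJ]
        rfl
      · rw [if_neg hwJ, if_neg hwJ]
        simp
    have hxq : ∀ i, (ee i).valuation M (((X.q x).1 : Mˣ) : M) =
        if i ∈ J then WithZero.exp (-1 : ℤ) else 1 := by
      intro i
      rw [URl_val X hcs hwv hww x (fun W hW hW' => by
        rw [hx' W hW, if_neg (fun h => hW' ((hP W).1 (hJsub h)))]) ((hP _).1 (hee i)),
        hx' (ee i) (htow _ (hee i)).1]
      by_cases hi : i ∈ J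
      · rw [if_pos hi, if_pos (Finset.mem_image_of_mem ee hi)]
      · rw [if_neg hi, if_neg (fun h => hi (by
          obtain ⟨i', hi', h'⟩ := Finset.mem_image.1 h
          rwa [← heinj h']))]
    let B : GQ A.n v.1 := Units.map (((psiU θ v (X.y.2.1 v.1)).comp (X.ι : M →+* BF A) :
      M →+* Matrix (Fin A.n) (Fin A.n) (Fv v.1)) : M →* Matrix (Fin A.n) (Fin A.n) (Fv v.1))
        (X.q x).1
    have hB : (B : Matrix (Fin A.n) (Fin A.n) (Fv v.1)) =
        psiU θ v (X.y.2.1 v.1) (X.ι (((X.q x).1 : Mˣ) : M)) := rfl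
    have hBc : ((B : GQ A.n v.1) : GQ A.n v.1 ⧸ GZ A.n v.1) = mapO v.1 m • dcs A.n v.1 J :=
      hm2 J (X.q x).1 B rfl hxq
    have hfix : γA • ((B : GQ A.n v.1) : GQ A.n v.1 ⧸ GZ A.n v.1) =
        ((B : GQ A.n v.1) : GQ A.n v.1 ⧸ GZ A.n v.1) := by
      change ((γA * B : GQ A.n v.1) : GQ A.n v.1 ⧸ GZ A.n v.1) = _
      have hcomm : γA * B = B * γA := by
        apply Units.ext
        rw [Units.val_mul, Units.val_mul, hγA, X.loc_eq v hv uT ht, hB, psiU_comm]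
      rw [hcomm, eq_comm, QuotientGroup.eq, inv_mul_cancel_left]
      exact hγAZ
    have hper1 : Function.minimalPeriod (fun c : GQ A.n v.1 ⧸ GZ A.n v.1 => γA • c)
        ((B : GQ A.n v.1) : GQ A.n v.1 ⧸ GZ A.n v.1) = 1 :=
      Function.minimalPeriod_eq_one_iff_isFixedPt.2 hfix
    rw [← hBc]
    change E.h (nb (chartU θ) v (lt t X.y) ((B : GQ A.n v.1) : GQ A.n v.1 ⧸ GZ A.n v.1))
      (Function.minimalPeriod (fun c : GQ A.n v.1 ⧸ GZ A.n v.1 => γA • c)
        ((B : GQ A.n v.1) : GQ A.n v.1 ⧸ GZ A.n v.1)) = E.h (lt (tJ (J.image ee)) X.y) 1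
    rw [hper1]
    refine E.congr (X.nb_eq v hv (J.image ee) (fun W hW => (htow W (hJsub hW)).1) x hx' B hB hI ht
      (htJ _ ?_)) 1
    rw [Finset.mem_powersetCard]
    exact ⟨hJsub, by rw [Finset.card_image_of_injective _ heinj, hJ.2]⟩

end Pool.Agent.CGU
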