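import Pool.Agent.CGU.XTh
import Pool.Agent.CGN.UInt

/-!
# The homomorphisms `θ_v`
-/

noncomputable section

namespace Pool.Agent.CGU

open NumberField IsDedekindDomain Matrix
open Pool.Agent.CG2 (Pl Fv Ov)
open Pool.Agent.CG2.GalFinAux (below)
open Pool.Agent.CGN (Std SC Split)

variable {F : Type} [Field F] [NumberField F] {K : Type} [Field K] [NumberField K] [Algebra F K]
  {A : UD F} {S : Set (Pl F)}

theorem bE_alg (A : UD F) {E : Type} [CommRing E] (f : F →+* E) (a : F) :
    bE A f (algebraMap F (BF A) a) = algebraMap E (BE A f) (f a) := by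
  apply SC.Alg.ext
  intro i
  rw [Algebra.algebraMap_eq_smul_one, Algebra.algebraMap_eq_smul_one, bE_co, SC.Alg.co_smul,
    SC.Alg.co_smul, map_mul]
  rfl

theorem th_surj (_ : 2 ≤ A.n) (θ : USpl A S) (v : {v : Pl F // v ∉ S}) :
    Function.Surjective (θ.θ v) := theta_surj θ v

/- MODULE U_TA -/
/-- The elements of the standard basis. -/
private def U_TA_e (A : UD F) (v : Pl F) (k : Fin 2 × Fin A.n × Fin A.n) : BV A v :=
  SC.Alg.mk (Pi.single k 1)

private theorem U_TA_sum (A : UD F) (v : Pl F) (x : BV A v) :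
    x = ∑ k, x.co k • U_TA_e A v k :=
  pi_eq_sum_univ' (show Fin 2 × Fin A.n × Fin A.n → Fv v from x)

private theorem U_TA_bd (θ : USpl A S) (v : {v : Pl F // v ∉ S}) (i j : Fin A.n) :
    ∃ M : WithZero (Multiplicative ℤ), ∀ x : BV A v.1, IntB A v.1 x →
      Valued.v (θ.θ v x i j) ≤ M := by
  refine ⟨Finset.univ.sup fun k => Valued.v (θ.θ v (U_TA_e A v.1 k) i j), fun x hx => ?_⟩
  rw [U_TA_sum A v.1 x, map_sum, Matrix.sum_apply]
  refine Valuation.map_sum_le _ fun k _ => ?_
  rw [map_smul, Matrix.smul_apply, smul_eq_mul, map_mul]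
  refine (mul_le_of_le_one_left' (hx k)).trans ?_
  exact Finset.le_sup (f := fun k => Valued.v (θ.θ v (U_TA_e A v.1 k) i j)) (Finset.mem_univ k)

/-- The images of the elements with integral coordinates. -/
private def U_TA_R (θ : USpl A S) (v : {v : Pl F // v ∉ S}) :
    Subring (Matrix (Fin A.n) (Fin A.n) (Fv v.1)) :=
  ((θ.θ v : BV A v.1 →+* Matrix (Fin A.n) (Fin A.n) (Fv v.1)).comp (bint A v.1)).range

private theorem U_TA_mem {θ : USpl A S} {v : {v : Pl F // v ∉ S}}
    {X : Matrix (Fin A.n) (Fin A.n) (Fv v.1)} :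
    X ∈ U_TA_R θ v ↔ ∃ x : BV A v.1, IntB A v.1 x ∧ θ.θ v x = X := by
  constructor
  · rintro ⟨y, hy⟩
    exact ⟨bint A v.1 y, (intB_iff A v.1 _).2 ⟨y, rfl⟩, hy⟩
  · rintro ⟨x, hx, rfl⟩
    obtain ⟨y, rfl⟩ := (intB_iff A v.1 _).1 hx
    exact ⟨y, rfl⟩

private theorem U_TA_off {θ : USpl A S} (hstd : Std (chartU θ)) (v : {v : Pl F // v ∉ S})
    {i j : Fin A.n} (hij : i ≠ j) : Matrix.single i j 1 ∈ U_TA_R θ v := by
  have hv0 : ∀ a b : Fin A.n, ∀ c : Fv v.1, Valued.v c ≤ 1 →
      Valued.v ((Matrix.transvection i j c) a b) ≤ 1 := by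
    intro a b c hc
    rw [Matrix.transvection, Matrix.add_apply]
    refine (Valuation.map_add _ _ _).trans (max_le ?_ ?_)
    · rw [Matrix.one_apply]
      split_ifs
      · rw [map_one]
      · rw [map_zero]
        exact zero_le
    · rw [Matrix.single_apply]
      split_ifs
      · exact hc
      · rw [map_zero]
        exact zero_le
  let g : GL (Fin A.n) (Fv v.1) := ⟨Matrix.transvection i j 1, Matrix.transvection i j (-1), by
    rw [Matrix.transvection_mul_transvection_same i j hij, add_neg_cancel,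
      Matrix.transvection_zero], by
    rw [Matrix.transvection_mul_transvection_same i j hij, neg_add_cancel,
      Matrix.transvection_zero]⟩
  have hg : g ∈ CGN.GZ A.n v.1 := by
    rw [CGN.mem_GZ_iff]
    refine ⟨fun a b => ?_, fun a b => ?_⟩
    · exact hv0 a b 1 (by rw [map_one])
    · exact hv0 a b (-1) (by rw [Valuation.map_neg, map_one])
  let k : UV A v.1 := ((chartU θ).e v).symm g
  have hk : (chartU θ).e v k = g := ((chartU θ).e v).apply_symm_apply g
  have hk1 : k ∈ UZ A v.1 := by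
    have h1 := hstd v k
    rw [hk] at h1
    exact h1.1 hg
  have hk2 : θ.θ v k.1.1 = Matrix.transvection i j 1 := by
    rw [← chartU_val, hk]
  have h1 : Matrix.transvection i j 1 ∈ U_TA_R θ v :=
    U_TA_mem.2 ⟨k.1.1, (mem_UZ_iff A v.1 k).1 hk1, hk2⟩
  have h2 := (U_TA_R θ v).sub_mem h1 (U_TA_R θ v).one_mem
  rw [Matrix.transvection, add_sub_cancel_left] at h2
  exact h2

private theorem U_TA_all (hn : 2 ≤ A.n) {θ : USpl A S} (hstd : Std (chartU θ))
    (v : {v : Pl F // v ∉ S}) (i j : Fin A.n) : Matrix.single i j 1 ∈ U_TA_R θ v := by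
  by_cases hij : i = j
  · obtain ⟨l, hl⟩ : ∃ l : Fin A.n, i ≠ l := by
      have hnt : Nontrivial (Fin A.n) := Fin.nontrivial_iff_two_le.2 hn
      obtain ⟨l, hl⟩ := exists_ne i
      exact ⟨l, hl.symm⟩
    have h1 := (U_TA_R θ v).mul_mem (U_TA_off hstd v hl) (U_TA_off hstd v hl.symm)
    rw [Matrix.single_mul_single_same, mul_one] at h1
    rw [← hij]
    exact h1
  · exact U_TA_off hstd v hij


/-- **U_TA.** Elements of `B_v` with integral coordinates have integral matrices.
PROOF. Let `R` be the image of the elements with integral coordinates (a subring). `GL_n(O_v)` is in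
`R`: for `g` in `GZ` the element `(chartU θ).e v |>.symm g` is in `UZ A v` by `hstd`, use
`mem_UZ_iff`, `chartU_val`. So `E_ij` is in `R` for `i ≠ j` (`(1 + E_ij) - 1`), and `E_ii = E_ij E_ji`
is. If `X` is in `R` and `X_ij` is not integral then `X_ij E_ii = E_ii X E_ji` and all its powers
`X_ij ^ m E_ii` are in `R`. But `R` is bounded: `θ_v x = ∑ x_k θ_v(e_k)`, so the entries are bounded by
the maximum of the entries of the `θ_v(e_k)`: a contradiction. -/
theorem th_int (hn : 2 ≤ A.n) {θ : USpl A S} (hstd : Std (chartU θ)) (v : {v : Pl F // v ∉ S})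
    {x : BV A v.1} (hx : IntB A v.1 x) (i j : Fin A.n) : Valued.v (θ.θ v x i j) ≤ 1 := by
  by_contra hcon
  push Not at hcon
  obtain ⟨M, hM⟩ := U_TA_bd θ v i i
  obtain ⟨m, hm⟩ := MulArchimedean.arch M hcon
  have h1 : Matrix.single i i (θ.θ v x i j) ∈ U_TA_R θ v := by
    have h2 := (U_TA_R θ v).mul_mem ((U_TA_R θ v).mul_mem (U_TA_all hn hstd v i i)
      (U_TA_mem.2 ⟨x, hx, rfl⟩)) (U_TA_all hn hstd v j i)
    rw [Matrix.single_mul_mul_single, one_mul, mul_one] at h2
    exact h2
  have h2 : ∀ m : ℕ, Matrix.single i i ((θ.θ v x i j) ^ (m + 1)) ∈ U_TA_R θ v := by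
    intro m
    induction m with
    | zero => rw [zero_add, pow_one]; exact h1
    | succ m ih =>
      have h3 := (U_TA_R θ v).mul_mem ih h1
      rw [Matrix.single_mul_single_same, ← pow_succ] at h3
      exact h3
  obtain ⟨y, hy1, hy2⟩ := U_TA_mem.1 (h2 m)
  have h3 := hM y hy1
  rw [hy2, Matrix.single_apply_same, map_pow, pow_succ] at h3
  have h4 : Valued.v (θ.θ v x i j) ^ m * Valued.v (θ.θ v x i j) ≤
      Valued.v (θ.θ v x i j) ^ m * 1 := by
    rw [mul_one]
    exact h3.trans hm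
  have h5 : 0 < Valued.v (θ.θ v x i j) ^ m := pow_pos (zero_lt_one.trans hcon) m
  exact absurd (le_of_mul_le_mul_left h4 h5) (not_le.2 hcon)

/- END U_TA -/

/-- The elements of `K` are scalar under `θ_v`. -/
theorem th_kap {κ : K →ₐ[F] BF A} (hU : IsUni A κ) (hn : 2 ≤ A.n) (θ : USpl A S)
    (v : {v : Pl F // v ∉ S}) : ∃ i : K →+* Fv v.1,
      (∀ a, θ.θ v (bloc A v.1 (κ a)) = i a • (1 : Matrix (Fin A.n) (Fin A.n) (Fv v.1))) ∧
      ∀ a : F, i (algebraMap F K a) = ((a : F) : Fv v.1) := by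
  obtain ⟨i, hi, hi'⟩ := exists_iv hU (by omega) θ v
  refine ⟨i, fun a => ?_, hi⟩
  rw [hi', Matrix.scalar_apply, Matrix.smul_one_eq_diagonal]

/- MODULE U_TB -/

/-- **U_TB.** The place `w` given by `θ_v`.
PROOF. The entries of `θ_v(bloc (κ a))` are `i a` and `0`. (1) An integer of `K` is a root of a
monic polynomial over `𝓞 F`: `CGN.val_le_of_root`. (2) is `hw`. (3) For `a ∈ 𝓞 F`:
`a ∈ w ↔ |a|_v < 1 ↔ a ∈ v`. (4) By `CGN.exists_denom`-like arguments (UTor.lean of CGN; or directly):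
if `w(a) ≤ 1` then `s a = z` with `s, z ∈ 𝓞 K`, `s ∉ w`, so `|i s| = 1`; if `w(a) > 1` then
`w(a⁻¹) < 1` and `s a⁻¹ = z` with `z ∈ w`. -/
theorem isW_val {κ : K →ₐ[F] BF A} (hn : 2 ≤ A.n) {θ : USpl A S} {v : {v : Pl F // v ∉ S}}
    {w : Pl K} (hw : IsW κ θ v w) {i : K →+* Fv v.1}
    (hi : ∀ a, θ.θ v (bloc A v.1 (κ a)) = i a • (1 : Matrix (Fin A.n) (Fin A.n) (Fv v.1)))
    (hF : ∀ a : F, i (algebraMap F K a) = ((a : F) : Fv v.1)) :
    (∀ a : 𝓞 K, Valued.v (i (a : K)) ≤ 1) ∧
    (∀ a : 𝓞 K, a ∈ w.asIdeal ↔ Valued.v (i (a : K)) < 1) ∧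
    below F w = v.1 ∧ ∀ a : K, Valued.v (i a) ≤ 1 ↔ w.valuation K a ≤ 1 := by
  have h1 : ∀ a : 𝓞 K, Valued.v (i (a : K)) ≤ 1 := by
    intro a
    have ha : IsIntegral ℤ (a : K) := a.2
    refine CGN.val_le_of_root Valued.v ((minpoly ℤ (a : K)).map (Int.castRingHom (Fv v.1)))
      ((minpoly.monic ha).map _) (fun j => ?_) ?_
    · rw [Polynomial.coeff_map, eq_intCast]
      exact intCast_mem (Ov v.1) _
    · rw [Polynomial.eval_map]
      have h2 := congrArg i (minpoly.aeval ℤ (a : K))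
      rw [map_zero, Polynomial.aeval_def, Polynomial.hom_eval₂] at h2
      have h3 : i.comp (algebraMap ℤ K) = Int.castRingHom (Fv v.1) := RingHom.ext_int _ _
      rw [h3] at h2
      exact h2
  have h2 : ∀ a : 𝓞 K, a ∈ w.asIdeal ↔ Valued.v (i (a : K)) < 1 := by
    intro a
    rw [hw a, hi]
    constructor
    · intro h
      have h3 := h ⟨0, by omega⟩ ⟨0, by omega⟩
      rw [Matrix.smul_apply, Matrix.one_apply_eq, smul_eq_mul, mul_one] at h3
      exact h3
    · intro h x y
      rw [Matrix.smul_apply, Matrix.one_apply, smul_eq_mul]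
      split_ifs
      · rw [mul_one]
        exact h
      · rw [mul_zero, map_zero]
        exact zero_lt_one
  refine ⟨h1, h2, ?_, ?_⟩
  · apply HeightOneSpectrum.ext
    ext a
    have h3 : a ∈ (below F w).asIdeal ↔ algebraMap (𝓞 F) (𝓞 K) a ∈ w.asIdeal := Iff.rfl
    have h4 : ((algebraMap (𝓞 F) (𝓞 K) a : 𝓞 K) : K) = algebraMap F K (a : F) := rfl
    rw [h3, h2, h4, hF, HeightOneSpectrum.valuedAdicCompletion_eq_valuation']
    exact HeightOneSpectrum.valuation_lt_one_iff_mem v.1 a
  · -- integral elements are quotients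
    have h3 : ∀ a : K, w.valuation K a ≤ 1 → ∃ s z : 𝓞 K, Valued.v (i (s : K)) = 1 ∧
        w.valuation K (s : K) = 1 ∧ a * (s : K) = (z : K) := by
      intro a ha
      obtain ⟨z, s, hs⟩ := HeightOneSpectrum.exists_primeCompl_mul_eq_of_integer w a ha
      have hs1 : (s : 𝓞 K) ∉ w.asIdeal := s.2
      refine ⟨s, z, ?_, (w.valuation_eq_one_iff_notMem (K := K)).2 hs1, hs⟩
      rw [h2, not_lt] at hs1
      exact le_antisymm (h1 _) hs1
    have h4 : ∀ a : K, w.valuation K a ≤ 1 → Valued.v (i a) ≤ 1 := by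
      intro a ha
      obtain ⟨s, z, hs, _, hz⟩ := h3 a ha
      have h5 := h1 z
      rw [← hz, map_mul, map_mul, hs, mul_one] at h5
      exact h5
    have h5 : ∀ a : K, w.valuation K a < 1 → Valued.v (i a) < 1 := by
      intro a ha
      obtain ⟨s, z, hs, hs', hz⟩ := h3 a ha.le
      have h6 : w.valuation K (z : K) < 1 := by
        rw [← hz, map_mul, hs', mul_one]
        exact ha
      have h7 : z ∈ w.asIdeal := (HeightOneSpectrum.valuation_lt_one_iff_mem w z).1 h6
      rw [h2, ← hz, map_mul, map_mul, hs, mul_one] at h7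
      exact h7
    intro a
    refine ⟨fun ha => ?_, h4 a⟩
    by_contra hcon
    push Not at hcon
    have ha0 : a ≠ 0 := by
      rintro rfl
      rw [map_zero] at hcon
      exact absurd hcon (not_lt.2 zero_le)
    have h6 : w.valuation K a⁻¹ < 1 := by
      rw [map_inv₀]
      exact inv_lt_one_of_one_lt₀ hcon
    have h7 := h5 _ h6
    have h8 : Valued.v (i a) * Valued.v (i a⁻¹) = 1 := by
      rw [← map_mul, ← map_mul, mul_inv_cancel₀ ha0, map_one, map_one]
    have h9 : Valued.v (i a) * Valued.v (i a⁻¹) < 1 := (mul_le_of_le_one_left' ha).trans_lt h7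
    rw [h8] at h9
    exact lt_irrefl _ h9

/- END U_TB -/

/- MODULE U_TC -/

/-- **U_TC (1).** Semilinear maps and linear independence.
PROOF. Consider `B` as a vector space over `K` through `κ` (`Module.compHom B κ.toRingHom`, with the
scalar tower `F K B`); its dimension is `N`. Extend `f` to a basis `b` of `B` over `K`. The `Θ (b j)`
span `V` over `E` (by `hΘ`, `hspan`) and there are `N = finrank E V` of them, so they are linearly
independent (`linearIndependent_of_top_le_span_of_card_eq_finrank`). -/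
theorem li_semi {F K B E V : Type} [Field F] [Field K] [Algebra F K] [Ring B] [Algebra F B]
    [Field E] [AddCommGroup V] [Module E V] [FiniteDimensional F K] [FiniteDimensional F B]
    [FiniteDimensional E V] (κ : K →ₐ[F] B) (i : K →+* E) (Θ : B →+ V)
    (hΘ : ∀ (a : K) (b : B), Θ (κ a * b) = i a • Θ b)
    (hspan : Submodule.span E (Set.range Θ) = ⊤) {N : ℕ}
    (hN : Module.finrank F B = Module.finrank F K * N) (hV : Module.finrank E V = N) {d : ℕ}
    (f : Fin d → B) (hf : ∀ c : Fin d → K, ∑ j, κ (c j) * f j = 0 → c = 0) :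
    LinearIndependent E fun j => Θ (f j) := by
  let mB : Module K B := Module.compHom B κ.toRingHom
  have hsm : ∀ (a : K) (b : B), a • b = κ a * b := fun _ _ => rfl
  have hst : IsScalarTower F K B := ⟨fun r a b => by rw [hsm, hsm, map_smul, smul_mul_assoc]⟩
  have hfi : Module.Finite K B := Module.Finite.of_restrictScalars_finite F K B
  have hNK : Module.finrank K B = N := by
    have h1 := Module.finrank_mul_finrank F K B
    rw [hN] at h1
    exact Nat.eq_of_mul_eq_mul_left Module.finrank_pos h1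
  have hli : LinearIndependent K f := by
    rw [Fintype.linearIndependent_iff]
    intro c hc j
    exact congrFun (hf c hc) j
  have hs := hli.linearIndepOn_id
  let b := Module.Basis.extend hs
  let ft : Fintype (hs.extend (Set.subset_univ (Set.range f))) :=
    Module.Basis.fintypeIndexOfRankLtAleph0 b (Module.rank_lt_aleph0 K B)
  have hcard : Fintype.card (hs.extend (Set.subset_univ (Set.range f))) = Module.finrank E V := by
    rw [hV, ← hNK, Module.finrank_eq_card_basis b]
  have htop : ⊤ ≤ Submodule.span E (Set.range fun j => Θ (b j)) := by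
    rw [← hspan, Submodule.span_le]
    rintro _ ⟨x, rfl⟩
    have h1 : x = ∑ j, κ (b.repr x j) * b j := (b.sum_repr x).symm
    rw [h1, map_sum]
    refine Submodule.sum_mem _ fun j _ => ?_
    rw [hΘ]
    exact Submodule.smul_mem _ _ (Submodule.subset_span ⟨j, rfl⟩)
  have hli2 := linearIndependent_of_top_le_span_of_card_eq_finrank htop hcard
  let g : Fin d → hs.extend (Set.subset_univ (Set.range f)) :=
    fun j => ⟨f j, hs.subset_extend _ ⟨j, rfl⟩⟩
  have hg : Function.Injective g := by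
    intro j k hjk
    exact hli.injective (congrArg Subtype.val hjk)
  have h2 := hli2.comp g hg
  have h3 : ((fun j => Θ (b j)) ∘ g) = fun j => Θ (f j) := by
    funext j
    show Θ (b (g j)) = Θ (f j)
    rw [Module.Basis.extend_apply_self hs (g j)]
  rw [h3] at h2
  exact h2

/-- **U_TC (2).** The matrices of linearly independent elements over `K` are linearly independent.
PROOF. `li_semi` with `Θ x = θ_v (bloc x)`, `N = n²`, `finrank F B = 2 n²` (`A.sF.lin`, index set
`Fin 2 × Fin n × Fin n`); the image of `B` spans `B_v` over `F_v`, `th_surj`. -/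
theorem th_li {κ : K →ₐ[F] BF A} (hU : IsUni A κ) (hn : 2 ≤ A.n) (θ : USpl A S)
    (v : {v : Pl F // v ∉ S}) {i : K →+* Fv v.1}
    (hi : ∀ a, θ.θ v (bloc A v.1 (κ a)) = i a • (1 : Matrix (Fin A.n) (Fin A.n) (Fv v.1)))
    {d : ℕ} (f : Fin d → BF A) (hf : ∀ c : Fin d → K, ∑ j, κ (c j) * f j = 0 → c = 0) :
    LinearIndependent (Fv v.1) fun j => θ.θ v (bloc A v.1 (f j)) := by
  have hfd : FiniteDimensional F K := Module.Finite.of_restrictScalars_finite ℚ F K
  have hfd2 : FiniteDimensional F (BF A) :=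
    (inferInstance : Module.Finite F (Fin 2 × Fin A.n × Fin A.n → F))
  let Θ : BF A →+ Matrix (Fin A.n) (Fin A.n) (Fv v.1) :=
    ((θ.θ v : BV A v.1 →+* Matrix (Fin A.n) (Fin A.n) (Fv v.1)).comp (bloc A v.1) :
      BF A →+ Matrix (Fin A.n) (Fin A.n) (Fv v.1))
  have hΘ0 : ∀ x, Θ x = θ.θ v (bloc A v.1 x) := fun _ => rfl
  refine @li_semi F K (BF A) (Fv v.1) (Matrix (Fin A.n) (Fin A.n) (Fv v.1)) _ _ _ _ _ _ _ _ hfd
    hfd2 _ κ i Θ ?_ ?_ (A.n ^ 2) ?_ ?_ d f hf
  · intro a b
    rw [hΘ0, hΘ0, map_mul, map_mul, hi, smul_mul_assoc, one_mul]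
  · rw [eq_top_iff]
    intro X _
    obtain ⟨x, rfl⟩ := th_surj hn θ v X
    rw [U_TA_sum A v.1 x, map_sum]
    refine Submodule.sum_mem _ fun k _ => ?_
    rw [map_smul]
    refine Submodule.smul_mem _ _ (Submodule.subset_span ⟨SC.Alg.mk (Pi.single k 1), ?_⟩)
    rw [hΘ0]
    congr 1
    apply SC.Alg.ext
    intro j
    rw [bE_co, U_TA_e, SC.Alg.co_mk, SC.Alg.co_mk, Pi.single_apply, Pi.single_apply]
    split_ifs
    · rw [map_one]
    · rw [map_zero]
  · rw [hU.deg]
    have h1 : Module.finrank F (Fin 2 × Fin A.n × Fin A.n → F) = 2 * A.n ^ 2 := by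
      rw [Module.finrank_fintype_fun_eq_card]
      simp only [Fintype.card_prod, Fintype.card_fin]
      ring
    exact h1
  · rw [Module.finrank_matrix, Module.finrank_self]
    simp only [Fintype.card_fin]
    ring

/- END U_TC -/

end Pool.Agent.CGU
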