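import Pool.Agent.CGU.UTh
import Pool.Agent.CGN.UTor

/-!
# The unit trick for unitary groups: the data of a field `M` in `B` and of a point
-/

noncomputable section

namespace Pool.Agent.CGU

open NumberField IsDedekindDomain Matrix
open Pool.Agent.CG2 (Pl Fv Ov IsRay InRay expo TotPos)
open Pool.Agent.CG2.GalFinAux (below)
open Pool.Agent.CGQ (Sys OC diag single act rt lt mkK mkK_eq mkK_rt Stab mem_Stab' lt_rt)
open Pool.Agent.CGN (Std SC Split HypOff exists_denom)

variable {F : Type} [Field F] [NumberField F] {K : Type} [Field K] [NumberField K] [Algebra F K]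

/-- The data of a field `M` in `B`, stable under the involution, and of a point, with auxiliary
choices. -/
structure TorU (A : UD F) (κ : K →ₐ[F] BF A) {S : Set (Pl F)} (θ : USpl A S)
    (Kf : Subgroup (sysU A).A) (M : Type) [Field M] [NumberField M] [Algebra F M] [Algebra K M] where
  /-- the embedding -/
  ι : M →ₐ[F] BF A
  /-- the involution -/
  τ : M ≃ₐ[F] M
  dat : MData A κ ι τ
  hn : 2 ≤ A.n
  /-- the point -/
  y : (sysU A).Pt
  /-- a neighbourhood of `1` in `Kf` -/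
  U : ∀ v : Pl F, Subgroup (UV A v)
  U_open : ∀ v, IsOpen (U v : Set (UV A v))
  U_le : ∀ k : (sysU A).A, (∀ v, k.1 v ∈ U v) → k ∈ Kf
  /-- the bad places -/
  T : Set (Pl F)
  T_fin : T.Finite
  S_le : ∀ v ∈ S, Split K v → v ∈ T
  U_good : ∀ v, v ∉ T → UZ A v ≤ U v
  y_good : ∀ v, v ∉ T → y.2.1 v ∈ UZ A v
  hyp : HypOff Kf (chartU θ)
  std : Std (chartU θ)
  int : ∀ v, v ∉ T → ∀ x : 𝓞 M, IntB A v (bloc A v (ι (x : M)))

variable {A : UD F} {κ : K →ₐ[F] BF A} {S : Set (Pl F)} {θ : USpl A S}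
  {Kf : Subgroup (sysU A).A} {M : Type} [Field M] [NumberField M] [Algebra F M] [Algebra K M]

theorem nontrivial_BF (hn : 2 ≤ A.n) : Nontrivial (BF A) := by
  have h : Nonempty (Fin 2 × Fin A.n × Fin A.n) := ⟨(0, ⟨0, by omega⟩, ⟨0, by omega⟩)⟩
  exact (inferInstance : Nontrivial (Fin 2 × Fin A.n × Fin A.n → F))

theorem TorU.ι_inj (X : TorU A κ θ Kf M) : Function.Injective X.ι := by
  have := nontrivial_BF X.hn
  exact X.ι.toRingHom.injective

theorem TorU.tt (X : TorU A κ θ Kf M) (x : M) : X.τ (X.τ x) = x := by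
  apply X.ι_inj
  rw [← X.dat.st, ← X.dat.st, star_star]

/-- The torus of the elements of norm `1`. -/
def Tor (τ : M ≃ₐ[F] M) : Subgroup Mˣ where
  carrier := {x | τ (x : M) * (x : M) = 1}
  one_mem' := by
    change τ ((1 : Mˣ) : M) * ((1 : Mˣ) : M) = 1
    rw [Units.val_one, map_one, mul_one]
  mul_mem' := by
    intro x y hx hy
    change τ ((x * y : Mˣ) : M) * ((x * y : Mˣ) : M) = 1
    have hx' : τ (x : M) * (x : M) = 1 := hx
    have hy' : τ (y : M) * (y : M) = 1 := hy
    rw [Units.val_mul, map_mul]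
    linear_combination (τ (y : M) * (y : M)) * hx' + hy'
  inv_mem' := by
    intro x hx
    change τ ((x⁻¹ : Mˣ) : M) * ((x⁻¹ : Mˣ) : M) = 1
    have hx' : τ (x : M) * (x : M) = 1 := hx
    rw [Units.val_inv_eq_inv_val, map_inv₀, ← mul_inv, hx', inv_one]

theorem mem_Tor {τ : M ≃ₐ[F] M} {x : Mˣ} : x ∈ Tor τ ↔ τ (x : M) * (x : M) = 1 := Iff.rfl

/-- The element of the unitary group given by an element of the torus. -/
def TorU.u (X : TorU A κ θ Kf M) : Tor X.τ →* (sysU A).G where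
  toFun x := (⟨Units.map (X.ι : M →* BF A) x.1, by
    have hx : X.τ ((x.1 : Mˣ) : M) * ((x.1 : Mˣ) : M) = 1 := x.2
    change star (X.ι ((x.1 : Mˣ) : M)) * X.ι ((x.1 : Mˣ) : M) = 1
    rw [X.dat.st, ← map_mul, hx, map_one]⟩ : UF A)
  map_one' := by
    apply Subtype.ext
    apply Units.ext
    exact map_one X.ι
  map_mul' x y := by
    apply Subtype.ext
    apply Units.ext
    exact map_mul X.ι ((x.1 : Mˣ) : M) ((y.1 : Mˣ) : M)

theorem TorU.u_val (X : TorU A κ θ Kf M) (x : Tor X.τ) :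
    (show UF A from X.u x).1.1 = X.ι ((x.1 : Mˣ) : M) := rfl

theorem TorU.u_comm (X : TorU A κ θ Kf M) (x y : Tor X.τ) : X.u x * X.u y = X.u y * X.u x := by
  rw [← map_mul, ← map_mul, mul_comm]

/-- `x ↦ x / τ x`. -/
def TorU.q (X : TorU A κ θ Kf M) : Mˣ →* Tor X.τ where
  toFun x := ⟨x * (Units.map (X.τ : M →* M) x)⁻¹, by
    have h0 : X.τ (x : M) ≠ 0 := (map_ne_zero _).2 x.ne_zero
    have h1 : ((x * (Units.map (X.τ : M →* M) x)⁻¹ : Mˣ) : M) = (x : M) * (X.τ (x : M))⁻¹ := by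
      rw [Units.val_mul, Units.val_inv_eq_inv_val]
      rfl
    rw [mem_Tor, h1, map_mul, map_inv₀, X.tt]
    field_simp⟩
  map_one' := by
    apply Subtype.ext
    change (1 : Mˣ) * (Units.map (X.τ : M →* M) 1)⁻¹ = 1
    rw [map_one, inv_one, mul_one]
  map_mul' x y := by
    apply Subtype.ext
    change x * y * (Units.map (X.τ : M →* M) (x * y))⁻¹ =
      x * (Units.map (X.τ : M →* M) x)⁻¹ * (y * (Units.map (X.τ : M →* M) y)⁻¹)
    rw [map_mul, mul_inv]
    exact mul_mul_mul_comm _ _ _ _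

theorem TorU.q_val (X : TorU A κ θ Kf M) (x : Mˣ) :
    (((X.q x).1 : Mˣ) : M) = (x : M) / X.τ (x : M) := by
  change ((x * (Units.map (X.τ : M →* M) x)⁻¹ : Mˣ) : M) = _
  rw [Units.val_mul, Units.val_inv_eq_inv_val, div_eq_mul_inv]
  rfl

theorem TorU.uU_eq (X : TorU A κ θ Kf M) (x : Tor X.τ) : uU X.ι ((x.1 : Mˣ) : M) = X.u x := by
  have hx : X.τ ((x.1 : Mˣ) : M) * ((x.1 : Mˣ) : M) = 1 := x.2
  have h1 : star (X.ι ((x.1 : Mˣ) : M)) * X.ι ((x.1 : Mˣ) : M) = 1 := by
    rw [X.dat.st, ← map_mul, hx, map_one]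
  have h2 : X.ι ((x.1 : Mˣ) : M) * star (X.ι ((x.1 : Mˣ) : M)) = 1 := by
    rw [X.dat.st, ← map_mul, mul_comm, hx, map_one]
  apply Subtype.ext
  apply Units.ext
  exact mkU_val h1 h2

theorem TorU.uU_eq' (X : TorU A κ θ Kf M) {x : M} (hx : X.τ x * x = 1) (h0 : x ≠ 0) :
    uU X.ι x = X.u ⟨Units.mk0 x h0, hx⟩ := X.uU_eq ⟨Units.mk0 x h0, hx⟩

theorem TorU.qU_eq (X : TorU A κ θ Kf M) (x : Mˣ) : qU X.ι X.τ (x : M) = X.u (X.q x) := by
  rw [qU, ← X.q_val, X.uU_eq]

/-- The element `t` of `A` represents the ideal `I`: its components are `1` at the bad places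
and `x / τ x` at the good places `v`, `x` an element of `M` with the same valuations as `I` at the
places above `v`. -/
def TorU.IsRep (X : TorU A κ θ Kf M) (I : Ideal (𝓞 M)) (t : (sysU A).A) : Prop :=
  (∀ v ∈ X.T, t.1 v = 1) ∧ ∀ v, v ∉ X.T → ∃ x : Mˣ, t.1 v = (sysU A).loc v (X.u (X.q x)) ∧
    ∀ W : Pl M, below F W = v → W.valuation M (x : M) = WithZero.exp (-(expo W I : ℤ))

/-- Representatives commute with the elements of the torus. -/
theorem TorU.rep_comm (X : TorU A κ θ Kf M) {I : Ideal (𝓞 M)} {t : (sysU A).A} (ht : X.IsRep I t)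
    (x : Tor X.τ) : diag (X.u x) * t = t * diag (X.u x) := by
  apply Subtype.ext
  funext v
  by_cases hv : v ∈ X.T
  · change (sysU A).loc v (X.u x) * t.1 v = t.1 v * (sysU A).loc v (X.u x)
    rw [ht.1 v hv, mul_one, one_mul]
  · obtain ⟨z, hz, -⟩ := ht.2 v hv
    change (sysU A).loc v (X.u x) * t.1 v = t.1 v * (sysU A).loc v (X.u x)
    rw [hz, ← map_mul ((sysU A).loc v), ← map_mul ((sysU A).loc v), X.u_comm]

/-- The stabilisers of `y` and of `t y` have the same elements in the torus. -/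
theorem TorU.stab_rep (X : TorU A κ θ Kf M) {I : Ideal (𝓞 M)} {t : (sysU A).A} (ht : X.IsRep I t)
    (x : Tor X.τ) (hx : X.u x ∈ Stab Kf X.y) : X.u x ∈ Stab Kf (lt t X.y) := by
  obtain ⟨k, hk, h⟩ := mem_Stab'.1 hx
  refine mem_Stab'.2 ⟨k, hk, ?_⟩
  rw [← lt_rt, ← h]
  refine Prod.ext rfl ?_
  change diag (X.u x) * (t * X.y.2) = t * (diag (X.u x) * X.y.2)
  rw [← mul_assoc, X.rep_comm ht, mul_assoc]

/- MODULE U_TX -/

/-- **U_TX.** Existence of the auxiliary data.
PROOF. As `CGN.exists_torL` (UTor.lean of CGN). `U` from `hK.op`. `𝓞 M` is generated over `𝓞 F` by a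
finite set `s`; `T` is the union of the set of the places in `S` which split in `K` (`hS`), of the
finite set where not `UZ ≤ U v`, of the finite set of the `v` where `y.2.1 v ∉ UZ`, and of the
finite sets of the `v` where `bloc (ι b)` is not integral, `b ∈ s` (`bloc_fin`). -/
theorem exists_torU (hn : 2 ≤ A.n) (hS : SFin K S) (hK : OC Kf) (hΦ : HypOff Kf (chartU θ))
    (hstd : Std (chartU θ)) {ι : M →ₐ[F] BF A} {τ : M ≃ₐ[F] M} (hM : MData A κ ι τ)
    (y : (sysU A).Pt) : ∃ X : TorU A κ θ Kf M, X.ι = ι ∧ X.τ = τ ∧ X.y = y := by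
  classical
  obtain ⟨U, hU1, hU2, hU3⟩ := hK.op
  obtain ⟨s, hs⟩ := (Module.Finite.fg_top : (⊤ : Submodule (𝓞 F) (𝓞 M)).FG)
  let T : Set (Pl F) := {v : Pl F | v ∈ S ∧ Split K v} ∪ ({v | ¬ (sysU A).B v ≤ U v} ∪
    ({v | y.2.1 v ∉ (sysU A).B v} ∪ ⋃ b ∈ s, {v | ¬ IntB A v (bloc A v (ι ((b : 𝓞 M) : M)))}))
  have hT : T.Finite := hS.union (hU2.union (y.2.2.union
    (Set.Finite.biUnion s.finite_toSet fun b _ => bloc_fin A (ι ((b : 𝓞 M) : M)))))
  refine ⟨{ ι := ι
            τ := τ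
            dat := hM
            hn := hn
            y := y
            U := U
            U_open := hU1
            U_le := hU3
            T := T
            T_fin := hT
            S_le := fun v hv hs' => Or.inl ⟨hv, hs'⟩
            U_good := ?_
            y_good := ?_
            hyp := hΦ
            std := hstd
            int := ?_ }, rfl, rfl, rfl⟩
  · intro v hv
    by_contra h
    exact hv (Or.inr (Or.inl h))
  · intro v hv
    by_contra h
    exact hv (Or.inr (Or.inr (Or.inl h)))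
  · intro v hv x
    have hmem : x ∈ Submodule.span (𝓞 F) (s : Set (𝓞 M)) := by
      rw [hs]
      trivial
    induction hmem using Submodule.span_induction with
    | mem b hb =>
      by_contra h
      refine hv (Or.inr (Or.inr (Or.inr ?_)))
      exact Set.mem_biUnion hb h
    | zero =>
      intro i
      have h0 : ((0 : 𝓞 M) : M) = 0 := rfl
      rw [h0, map_zero, map_zero]
      change Valued.v (0 : Fv v) ≤ 1
      rw [map_zero]
      exact zero_le
    | add a b _ _ ha hb =>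
      intro i
      have h0 : ((a + b : 𝓞 M) : M) = (a : M) + (b : M) := rfl
      rw [h0, map_add, map_add, SC.Alg.co_add]
      exact (Valuation.map_add _ _ _).trans (max_le (ha i) (hb i))
    | smul r a _ ha =>
      intro i
      have h0 : ((r • a : 𝓞 M) : M) = algebraMap F M (r : F) * (a : M) := by
        rw [Algebra.smul_def]
        rfl
      rw [h0, map_mul, AlgHom.commutes, ← Algebra.smul_def]
      change Valued.v (((((r : F) • ι (a : M) : BF A).co i : F) : Fv v)) ≤ 1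
      rw [SC.Alg.co_smul]
      have h1 : ((((r : F) * (ι (a : M)).co i : F) : Fv v)) =
          ((r : F) : Fv v) * (((ι (a : M)).co i : F) : Fv v) := map_mul (algebraMap F (Fv v)) _ _
      rw [h1, map_mul]
      exact mul_le_one' (CG2.HR_int_le v r) (ha i)

/-- **U_TX (2).** Elements of `M` which are integral above the good place `v` have integral
coordinates.
PROOF. `CGN.exists_denom` (UTor.lean of CGN) for `M` over `F`: `s x = z` with `s ∈ 𝓞 F`, `s ∉ v`,
`z ∈ 𝓞 M`; `X.int`, the coordinates of `bloc (ι z)` are `s` times those of `bloc (ι x)`. -/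
theorem TorU.loc_int (X : TorU A κ θ Kf M) (v : Pl F) (hv : v ∉ X.T) (x : M)
    (hx : ∀ W : Pl M, below F W = v → W.valuation M x ≤ 1) :
    IntB A v (bloc A v (X.ι x)) := by
  obtain ⟨s, z, hs, hz⟩ := exists_denom hx
  have h1 : Valued.v ((s : F) : Fv v) = 1 := by
    rw [HeightOneSpectrum.valuedAdicCompletion_eq_valuation']
    exact (v.valuation_eq_one_iff_notMem (K := F)).2 hs
  intro i
  have h2 := X.int v hv z i
  rw [← hz, map_mul, AlgHom.commutes, ← Algebra.smul_def] at h2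
  change Valued.v (((((s : F) • X.ι x : BF A).co i : F) : Fv v)) ≤ 1 at h2
  rw [SC.Alg.co_smul] at h2
  have h3 : ((((s : F) * (X.ι x).co i : F) : Fv v)) =
      ((s : F) : Fv v) * (((X.ι x).co i : F) : Fv v) := map_mul (algebraMap F (Fv v)) _ _
  rw [h3, map_mul, h1, one_mul] at h2
  exact h2

/- END U_TX -/

/- MODULE U_TY -/

/-- **U_TY.** The conjugate place.
PROOF. `W'` is the preimage of `W` under the automorphism of `𝓞 M` given by `τ`
(`RingOfIntegers.mapRingEquiv` or `τ.restrictScalars ...`; for the valuations use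
`intValuation` and the powers of the ideals, or that two valuations with the same `{v x ≤ 1}` and
the value `exp (-1)` of a uniformiser agree). -/
theorem exists_conj_pl (τ : M ≃ₐ[F] M) (W : Pl M) : ∃ W' : Pl M, below F W' = below F W ∧
    (∀ x : M, W'.valuation M x = W.valuation M (τ x)) ∧
    ∀ x x' : 𝓞 M, (x' : M) = τ (x : M) → (x ∈ W'.asIdeal ↔ x' ∈ W.asIdeal) := by
  let e : 𝓞 M ≃+* 𝓞 M := RingOfIntegers.mapRingEquiv (τ : M ≃+* M)
  have he : ∀ x : 𝓞 M, ((e x : 𝓞 M) : M) = τ (x : M) := fun x => rfl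
  let W' : Pl M := HeightOneSpectrum.comap (e : 𝓞 M →+* 𝓞 M) e.surjective W
  have hW' : W'.asIdeal = W.asIdeal.comap (e : 𝓞 M →+* 𝓞 M) := rfl
  have hpow : ∀ (n : ℕ) (r : 𝓞 M), r ∈ W'.asIdeal ^ n ↔ e r ∈ W.asIdeal ^ n := by
    intro n r
    have h1 : W'.asIdeal ^ n = (W.asIdeal ^ n).comap (e : 𝓞 M →+* 𝓞 M) := by
      have h2 : W'.asIdeal = W.asIdeal.map (e.symm : 𝓞 M →+* 𝓞 M) := by
        rw [hW']
        exact (Ideal.map_symm e).symm
      rw [h2, ← Ideal.map_pow]
      exact Ideal.map_symm e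
    rw [h1]
    rfl
  have hint : ∀ r : 𝓞 M, W'.intValuation r = W.intValuation (e r) := by
    intro r
    by_cases hr : r = 0
    · rw [hr, map_zero e, map_zero, map_zero]
    have hr' : e r ≠ 0 := fun h => hr (e.injective (by rw [h, map_zero]))
    apply le_antisymm
    · rw [W.intValuation_if_neg hr', W'.intValuation_le_pow_iff_mem, hpow,
        ← W.intValuation_le_pow_iff_mem, W.intValuation_if_neg hr']
    · rw [W'.intValuation_if_neg hr, W.intValuation_le_pow_iff_mem, ← hpow,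
        ← W'.intValuation_le_pow_iff_mem, W'.intValuation_if_neg hr]
  have hval : ∀ r : 𝓞 M, W'.valuation M (r : M) = W.valuation M ((e r : 𝓞 M) : M) := by
    intro r
    have h1 : W'.valuation M (algebraMap (𝓞 M) M r) = W'.intValuation r :=
      W'.valuation_of_algebraMap r
    have h2 : W.valuation M (algebraMap (𝓞 M) M (e r)) = W.intValuation (e r) :=
      W.valuation_of_algebraMap (e r)
    change W'.valuation M (algebraMap (𝓞 M) M r) = W.valuation M (algebraMap (𝓞 M) M (e r))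
    rw [h1, h2, hint]
  refine ⟨W', ?_, ?_, ?_⟩
  · apply HeightOneSpectrum.ext
    ext a
    change e (algebraMap (𝓞 F) (𝓞 M) a) ∈ W.asIdeal ↔ algebraMap (𝓞 F) (𝓞 M) a ∈ W.asIdeal
    have h : e (algebraMap (𝓞 F) (𝓞 M) a) = algebraMap (𝓞 F) (𝓞 M) a := by
      apply RingOfIntegers.ext
      exact τ.commutes (a : F)
    rw [h]
  · intro x
    obtain ⟨a, b, hb, rfl⟩ := IsFractionRing.div_surjective (A := 𝓞 M) x
    rw [map_div₀, map_div₀ τ, map_div₀]
    exact congrArg₂ _ (hval a) (hval b)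
  · intro x x' hx
    have h : x' = e x := RingOfIntegers.ext (hx.trans (he x).symm)
    rw [h]
    exact Iff.rfl

/- END U_TY -/

end Pool.Agent.CGU
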