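import Pool.Agent.CGU.IDefs
import Pool.Agent.CGN.GalTr

/-!
# The dictionary: the local algebras at the places of the chart
-/

noncomputable section

set_option linter.unusedSectionVars false

namespace Pool.Agent.CGU

open NumberField IsDedekindDomain Matrix
open Pool.Agent.CG2 (Pl Fv Ov GalF Fbar Zbar Over IsInertia IsFrob Nm)
open Pool.Agent.CG2.GalFinAux (below)
open Pool.Agent.CGQ
open Pool.Agent.CGN (Split incj abv)

variable {F : Type} [Field F] [NumberField F] {K : Type} [Field K] [NumberField K] [Algebra F K]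
  {A : UD F} {κ : K →ₐ[F] BF A} {S : Set (Pl F)}

/- MODULE X1 -/
private theorem X1_infinite (v : Pl F) : Infinite (Fv v) :=
  Infinite.of_injective (algebraMap F (Fv v)) (algebraMap F (Fv v)).injective

private theorem X1_shift {n : ℕ} {E : Type} [Field E] [Infinite E]
    (B : Matrix (Fin n) (Fin n) E) : ∃ c : E, IsUnit (B + algebraMap E _ c) := by
  classical
  obtain ⟨c, hc⟩ := Infinite.exists_notMem_finset ((-B).charpoly.roots.toFinset)
  refine ⟨c, ?_⟩
  rw [Matrix.isUnit_iff_isUnit_det, isUnit_iff_ne_zero]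
  intro h
  apply hc
  rw [Multiset.mem_toFinset, Polynomial.mem_roots (Matrix.charpoly_monic _).ne_zero,
    Polynomial.IsRoot.def, Matrix.eval_charpoly]
  rw [← h]
  congr 1
  rw [sub_neg_eq_add, add_comm]
  rfl

/-- **X1** (1). `θ_v` is surjective.

PROOF. The image is a subalgebra of `M_n(F_v)` which contains all invertible matrices (`θ.bij`). Every
matrix `B` is `(B + c) - c` with `B + c` and `c` invertible for a suitable `c : F_v`, `c ≠ 0`, `-c` not a root of the
characteristic polynomial of `B` (`F_v` is infinite). -/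
theorem theta_surj (θ : USpl A S) (v : {v : Pl F // v ∉ S}) : Function.Surjective (θ.θ v) := by
  intro B
  have := X1_infinite v.1
  obtain ⟨c, u, hu⟩ := X1_shift B
  obtain ⟨g, hg⟩ := (θ.bij v).2 u
  have h1 : θ.θ v g.1.1 = B + algebraMap _ _ c := by
    rw [← hu, ← hg]
    rfl
  refine ⟨g.1.1 - algebraMap _ _ c, ?_⟩
  rw [map_sub, h1, AlgHom.commutes, add_sub_cancel_right]

private theorem X1_span (A : UD F) (v : Pl F) (y : BV A v) :
    y = ∑ i, y.co i • bloc A v (CGN.SC.Alg.mk (Pi.single i 1)) := by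
  classical
  apply CGN.SC.Alg.ext
  intro k
  have h : ∀ (f : (Fin 2 × Fin A.n × Fin A.n) → BV A v),
      (∑ i, f i).co k = ∑ i, (f i).co k := by
    intro f
    exact map_sum (AddMonoidHom.mk' (fun x : BV A v => x.co k) fun _ _ => rfl) f Finset.univ
  rw [h]
  simp only [CGN.SC.Alg.co_smul, bE_co, CGN.SC.Alg.co_mk]
  rw [Finset.sum_eq_single k]
  · rw [Pi.single_eq_same, map_one, mul_one]
  · intro b _ hb
    rw [Pi.single_eq_of_ne (Ne.symm hb), map_zero, mul_zero]
  · intro h
    exact absurd (Finset.mem_univ k) h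

private theorem X1_com (hU : IsUni A κ) (v : Pl F) (a : K) (y : BV A v) :
    bloc A v (κ a) * y = y * bloc A v (κ a) := by
  rw [X1_span A v y, Finset.mul_sum, Finset.sum_mul]
  refine Finset.sum_congr rfl fun i _ => ?_
  rw [mul_smul_comm, smul_mul_assoc, ← map_mul, hU.com, map_mul]

private theorem X1_bloc_alg (A : UD F) (v : Pl F) (a : F) :
    bloc A v (algebraMap F (BF A) a) = algebraMap (Fv v) (BV A v) (algebraMap F (Fv v) a) := by
  rw [Algebra.algebraMap_eq_smul_one, Algebra.algebraMap_eq_smul_one]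
  apply CGN.SC.Alg.ext
  intro k
  rw [bE_co, CGN.SC.Alg.co_smul, CGN.SC.Alg.co_smul, map_mul]
  rfl

/-- **X1** (2). The embedding of `K` in `F_v`.

PROOF. For `a : K` the element `θ_v (bloc A v (κ a))` commutes with all matrices (`hU.com`, `theta_surj`, and the
elements of `BV A v` are `F_v`-combinations of elements of the image of `bloc`: the coordinates), so it is scalar
(`Matrix.mem_range_scalar_iff_commute_...`). `a ↦` the scalar is a homomorphism. On `F`: `κ` is `F`-linear and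
`bE A φ (r • 1) = φ r • 1`. -/
theorem exists_iv (hU : IsUni A κ) (hn : 0 < A.n) (θ : USpl A S) (v : {v : Pl F // v ∉ S}) :
    ∃ i : K →+* Fv v.1, (∀ a : F, i (algebraMap F K a) = algebraMap F (Fv v.1) a) ∧
      ∀ a : K, θ.θ v (bloc A v.1 (κ a)) = Matrix.scalar (Fin A.n) (i a) := by
  classical
  have h1 : ∀ a : K, θ.θ v (bloc A v.1 (κ a)) ∈ Set.range (Matrix.scalar (Fin A.n)) := by
    intro a
    apply Matrix.mem_range_scalar_of_commute_single
    intro x y _
    obtain ⟨z, hz⟩ := theta_surj θ v (Matrix.single x y 1)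
    rw [← hz]
    change θ.θ v z * θ.θ v _ = θ.θ v _ * θ.θ v z
    rw [← map_mul, ← map_mul, X1_com hU]
  have h2 : ∀ a : K, θ.θ v (bloc A v.1 (κ a)) =
      Matrix.scalar (Fin A.n) (θ.θ v (bloc A v.1 (κ a)) ⟨0, hn⟩ ⟨0, hn⟩) := by
    intro a
    obtain ⟨r, hr⟩ := h1 a
    rw [← hr]
    exact congrArg (Matrix.scalar (Fin A.n))
      (by rw [Matrix.scalar_apply, Matrix.diagonal_apply_eq])
  have hinj : Function.Injective (Matrix.scalar (Fin A.n) : Fv v.1 →+* _) := by
    intro r r' h
    have := congrFun (congrFun h ⟨0, hn⟩) ⟨0, hn⟩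
    rw [Matrix.scalar_apply, Matrix.scalar_apply, Matrix.diagonal_apply_eq,
      Matrix.diagonal_apply_eq] at this
    exact this
  refine ⟨⟨⟨⟨fun a => θ.θ v (bloc A v.1 (κ a)) ⟨0, hn⟩ ⟨0, hn⟩, ?_⟩, ?_⟩, ?_, ?_⟩, ?_, h2⟩
  · apply hinj
    rw [← h2, map_one, map_one, map_one, map_one]
  · intro a b
    apply hinj
    change Matrix.scalar (Fin A.n) (θ.θ v (bloc A v.1 (κ (a * b))) ⟨0, hn⟩ ⟨0, hn⟩) =
      Matrix.scalar (Fin A.n) (θ.θ v (bloc A v.1 (κ a)) ⟨0, hn⟩ ⟨0, hn⟩ *
        θ.θ v (bloc A v.1 (κ b)) ⟨0, hn⟩ ⟨0, hn⟩)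
    rw [map_mul (Matrix.scalar (Fin A.n)), ← h2, ← h2, ← h2, map_mul, map_mul, map_mul]
  · apply hinj
    change Matrix.scalar (Fin A.n) (θ.θ v (bloc A v.1 (κ 0)) ⟨0, hn⟩ ⟨0, hn⟩) =
      Matrix.scalar (Fin A.n) 0
    rw [← h2, map_zero, map_zero, map_zero, map_zero]
  · intro a b
    apply hinj
    change Matrix.scalar (Fin A.n) (θ.θ v (bloc A v.1 (κ (a + b))) ⟨0, hn⟩ ⟨0, hn⟩) =
      Matrix.scalar (Fin A.n) (θ.θ v (bloc A v.1 (κ a)) ⟨0, hn⟩ ⟨0, hn⟩ +
        θ.θ v (bloc A v.1 (κ b)) ⟨0, hn⟩ ⟨0, hn⟩)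
    rw [map_add (Matrix.scalar (Fin A.n)), ← h2, ← h2, ← h2, map_add, map_add, map_add]
  · intro a
    apply hinj
    change Matrix.scalar (Fin A.n) (θ.θ v (bloc A v.1 (κ (algebraMap F K a))) ⟨0, hn⟩ ⟨0, hn⟩) =
      Matrix.scalar (Fin A.n) (algebraMap F (Fv v.1) a)
    rw [← h2, κ.commutes, X1_bloc_alg, AlgHom.commutes]
    rfl
/- END X1 -/

/- MODULE X2 -/
private theorem X2_inj (hU : IsUni A κ) : Function.Injective κ := by
  have := hU.sim
  have : Nontrivial (BF A) := inferInstance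
  exact κ.toRingHom.injective

private theorem X2_ex (hU : IsUni A κ) (a : K) : ∃ b : K, κ b = star (κ a) := by
  apply hU.cen
  intro y
  have h := congrArg star (hU.com a (star y))
  rw [star_mul, star_mul, star_star] at h
  exact h.symm

/-- **X2**. The conjugation of `K`.

PROOF. `star (κ a)` is in the centre (`star` is an anti-automorphism, `hU.com`), so `= κ (c a)` (`hU.cen`), `c a` unique
(`κ` is injective). `c` is a ring homomorphism (the centre is commutative), `F`-linear (`star_smul_alg`),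
`c (c a) = a`. -/
theorem exists_conj (hU : IsUni A κ) :
    ∃ c : K ≃ₐ[F] K, (∀ a, star (κ a) = κ (c a)) ∧ (∀ a, c (c a) = a) ∧ (∃ a, c a ≠ a) := by
  have hinj := X2_inj hU
  choose f hf using X2_ex hU
  have hff : ∀ a, f (f a) = a := by
    intro a
    apply hinj
    rw [hf, hf, star_star]
  let g : K →ₐ[F] K :=
    { toFun := f
      map_one' := by
        apply hinj
        rw [hf, map_one, star_one]
      map_mul' := by
        intro a b
        apply hinj
        rw [hf, map_mul, map_mul, star_mul, ← hf, ← hf, hU.com]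
      map_zero' := by
        apply hinj
        rw [hf, map_zero, star_zero]
      map_add' := by
        intro a b
        apply hinj
        rw [hf, map_add, map_add, star_add, hf, hf]
      commutes' := by
        intro r
        apply hinj
        rw [hf, κ.commutes, Algebra.algebraMap_eq_smul_one, star_smul_alg, star_one] }
  have hg : ∀ a, g a = f a := fun _ => rfl
  refine ⟨AlgEquiv.ofAlgHom g g ?_ ?_, ?_, ?_, ?_⟩
  · apply AlgHom.ext
    intro a
    exact hff a
  · apply AlgHom.ext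
    intro a
    exact hff a
  · intro a
    exact (hf a).symm
  · intro a
    exact hff a
  · obtain ⟨a, ha⟩ := hU.kind
    refine ⟨a, fun h => ha ?_⟩
    rw [← hf]
    exact congrArg κ h
/- END X2 -/

/- MODULE X3 -/
private theorem X3_eps (hU : IsUni A κ) (hn : 0 < A.n) (θ : USpl A S)
    (v : {v : Pl F // v ∉ S}) :
    ∃ ε : BV A v.1, (∀ y, ε * y = y * ε) ∧ θ.θ v ε = 1 ∧ θ.θ v (star ε) = 0 := by
  obtain ⟨i, hi, hs⟩ := exists_iv hU hn θ v
  obtain ⟨c, hc, hcc, a, ha⟩ := exists_conj hU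
  have hne : i a - i (c a) ≠ 0 := sub_ne_zero.2 fun h => ha (i.injective h.symm)
  have h0 : ∀ r : Fv v.1, Matrix.scalar (Fin A.n) r = algebraMap _ _ r := fun r => rfl
  have hst : ∀ r : Fv v.1, star (algebraMap (Fv v.1) (BV A v.1) r) = algebraMap _ _ r := by
    intro r
    rw [Algebra.algebraMap_eq_smul_one, star_smul_alg, star_one]
  refine ⟨(i a - i (c a))⁻¹ • (bloc A v.1 (κ a) - algebraMap _ _ (i (c a))), ?_, ?_, ?_⟩
  · intro y
    rw [smul_mul_assoc, mul_smul_comm, sub_mul, mul_sub, X1_com hU, Algebra.commutes]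
  · have e : algebraMap (Fv v.1) (Matrix (Fin A.n) (Fin A.n) (Fv v.1)) (i a) -
        algebraMap (Fv v.1) (Matrix (Fin A.n) (Fin A.n) (Fv v.1)) (i (c a)) =
        (i a - i (c a)) • 1 := by
      rw [← (algebraMap (Fv v.1) (Matrix (Fin A.n) (Fin A.n) (Fv v.1))).map_sub,
        Algebra.algebraMap_eq_smul_one]
    rw [map_smul, map_sub, hs, AlgHom.commutes, h0, e, smul_smul, inv_mul_cancel₀ hne, one_smul]
  · rw [star_smul_alg, star_sub, ← bE_star, hc, hst, map_smul, map_sub, hs, AlgHom.commutes, h0,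
      sub_self, smul_zero]

/-- **X3** (1). The pair `(θ_v b, θ_v b*)` determines `b`, and all pairs occur.

PROOF. Choose `a : K` with `c a ≠ a` and let `i` be from `exists_iv`; `i a ≠ i (c a)`. The element
`ε = (i a - i (c a))⁻¹ • (bloc (κ a) - i (c a) • 1)` of `BV A v` satisfies `θ ε = 1`, `θ (star ε) = 0` (`bE_star`,
`star_smul_alg`). For matrices `X, Y` choose `b, b'` with `θ b = X`, `θ b' = Y` (`theta_surj`). The element
`b * ε + star b' * (1 - ε)` has `θ = X` and (`ε` is central) `θ (star ..) = θ (star ε * star b + star (1 - ε) * b') = Y`.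
So the `F_v`-linear map `b ↦ (θ b, θ (star b))` to `M_n × M_n` is surjective; both sides have dimension `2 n²`
(`Module.finrank` of `BV A v` is the card of the index type), so it is bijective
(`LinearMap.injective_iff_surjective_of_finrank_eq_finrank`). -/
theorem pair_bij (hU : IsUni A κ) (hn : 0 < A.n) (θ : USpl A S) (v : {v : Pl F // v ∉ S}) :
    Function.Bijective fun b : BV A v.1 => (θ.θ v b, θ.θ v (star b)) := by
  obtain ⟨ε, hε, h1, h2⟩ := X3_eps hU hn θ v
  have hsurj : Function.Surjective fun b : BV A v.1 => (θ.θ v b, θ.θ v (star b)) := by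
    rintro ⟨X, Y⟩
    obtain ⟨b, hb⟩ := theta_surj θ v X
    obtain ⟨b', hb'⟩ := theta_surj θ v Y
    refine ⟨b * ε + star b' * (1 - ε), ?_⟩
    apply Prod.ext
    · change θ.θ v (b * ε + star b' * (1 - ε)) = X
      rw [map_add, map_mul, map_mul, map_sub, h1, map_one, sub_self, mul_zero, add_zero, mul_one,
        hb]
    · change θ.θ v (star (b * ε + star b' * (1 - ε))) = Y
      rw [star_add, star_mul, star_mul, star_star, star_sub, star_one, map_add, map_mul, map_mul,
        map_sub, h2, map_one, zero_mul, zero_add, sub_zero, one_mul, hb']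
  refine ⟨?_, hsurj⟩
  let L : BV A v.1 →ₗ[Fv v.1] Matrix (Fin A.n) (Fin A.n) (Fv v.1) ×
      Matrix (Fin A.n) (Fin A.n) (Fv v.1) :=
    (θ.θ v).toLinearMap.prod ((θ.θ v).toLinearMap.comp
      (SCI.stLin (A.sF.map (algebraMap F (Fv v.1)))))
  have hL : ∀ b, L b = (θ.θ v b, θ.θ v (star b)) := fun _ => rfl
  have hd : Module.finrank (Fv v.1) (BV A v.1) =
      Module.finrank (Fv v.1) (Matrix (Fin A.n) (Fin A.n) (Fv v.1) ×
        Matrix (Fin A.n) (Fin A.n) (Fv v.1)) := by
    rw [LinearEquiv.finrank_eq (CGN.SC.lin (A.sF.map (algebraMap F (Fv v.1))).toSC),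
      Module.finrank_fintype_fun_eq_card, Module.finrank_prod, Module.finrank_matrix]
    simp only [Fintype.card_prod, Fintype.card_fin, Module.finrank_self, mul_one]
    ring
  have h3 : Function.Surjective L := hsurj
  exact (LinearMap.injective_iff_surjective_of_finrank_eq_finrank hd).2 h3

/-- **X3** (2). The symmetric elements.

PROOF. From `pair_bij`: `b` with `θ b = X`, `θ (star b) = X`; `star b` has the same pair as `b`. -/
theorem sym_bij (hU : IsUni A κ) (hn : 0 < A.n) (θ : USpl A S) (v : {v : Pl F // v ∉ S})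
    (X : Matrix (Fin A.n) (Fin A.n) (Fv v.1)) :
    ∃! b : BV A v.1, star b = b ∧ θ.θ v b = X := by
  obtain ⟨hi, hs⟩ := pair_bij hU hn θ v
  obtain ⟨b, hb⟩ := hs (X, X)
  have h1 : θ.θ v b = X := congrArg Prod.fst hb
  have h2 : θ.θ v (star b) = X := congrArg Prod.snd hb
  refine ⟨b, ⟨?_, h1⟩, ?_⟩
  · apply hi
    change (θ.θ v (star b), θ.θ v (star (star b))) = (θ.θ v b, θ.θ v (star b))
    rw [star_star, h1, h2]
  · rintro b' ⟨hb1, hb2⟩
    apply hi
    change (θ.θ v b', θ.θ v (star b')) = (θ.θ v b, θ.θ v (star b))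
    rw [hb1, hb2, h1, h2]
/- END X3 -/

/- MODULE X4 -/
private theorem X4_mul_lt {x y : WithZero (Multiplicative ℤ)} (hx : x ≤ 1) (hy : y < 1) :
    x * y < 1 :=
  lt_of_le_of_lt ((mul_le_mul' hx le_rfl).trans_eq (one_mul y)) hy

private theorem X4_int (v : Pl F) (i : K →+* Fv v) (a : 𝓞 K) : Valued.v (i (a : K)) ≤ 1 := by
  obtain ⟨p, hp, hp0⟩ := RingOfIntegers.isIntegral_coe a
  have h2 : IsIntegral (v.adicCompletionIntegers F) (i (a : K)) := by
    refine ⟨p.map (Int.castRingHom _), hp.map _, ?_⟩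
    rw [Polynomial.eval₂_map]
    have h3 := congrArg i hp0
    rw [Polynomial.hom_eval₂, map_zero] at h3
    rw [← h3]
    exact congrArg (fun f => Polynomial.eval₂ f (i (a : K)) p) (Subsingleton.elim _ _)
  exact (HeightOneSpectrum.adicCompletionIntegers.integers F v).mem_of_integral h2

private theorem X4_below (v : Pl F) (i : K →+* Fv v)
    (hi : ∀ a : F, i (algebraMap F K a) = algebraMap F (Fv v) a) (x : 𝓞 F) :
    Valued.v (i ((algebraMap (𝓞 F) (𝓞 K) x : 𝓞 K) : K)) < 1 ↔ x ∈ v.asIdeal := by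
  have h1 : ((algebraMap (𝓞 F) (𝓞 K) x : 𝓞 K) : K) = algebraMap F K (x : F) := rfl
  rw [h1, hi]
  have h2 : Valued.v (algebraMap F (Fv v) (x : F)) = v.valuation F (x : F) :=
    HeightOneSpectrum.valuedAdicCompletion_eq_valuation' v (x : F)
  rw [h2]
  exact HeightOneSpectrum.valuation_lt_one_iff_mem v x

/-- **X4** (1). Integrality at the place given by an embedding.

PROOF. Let `i : K →+* F_v` extend `F → F_v`. `w = {a : 𝓞 K | |i a| < 1}` is a prime ideal (integers have
`|i a| ≤ 1`: a root of a monic polynomial over `𝓞 F`, compare `CGN.val_le_of_int` or `Valuation` facts), `≠ ⊥` (it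
contains the image of `v`), and `w ∩ 𝓞 F = v` (`below F w = v`). -/
theorem exists_pl (v : Pl F) (i : K →+* Fv v)
    (hi : ∀ a : F, i (algebraMap F K a) = algebraMap F (Fv v) a) :
    ∃ w : Pl K, below F w = v ∧ ∀ a : 𝓞 K, a ∈ w.asIdeal ↔ Valued.v (i (a : K)) < 1 := by
  let I : Ideal (𝓞 K) :=
    { carrier := {a | Valued.v (i (a : K)) < 1}
      add_mem' := by
        intro a b ha hb
        change Valued.v (i ((a : K) + (b : K))) < 1
        rw [map_add]
        exact lt_of_le_of_lt (Valuation.map_add _ _ _) (max_lt ha hb)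
      zero_mem' := by
        change Valued.v (i (0 : K)) < 1
        rw [map_zero, map_zero]
        exact zero_lt_one
      smul_mem' := by
        intro a b hb
        change Valued.v (i ((a : K) * (b : K))) < 1
        rw [map_mul, map_mul]
        exact X4_mul_lt (X4_int v i a) hb }
  have hI : ∀ a : 𝓞 K, a ∈ I ↔ Valued.v (i (a : K)) < 1 := fun a => Iff.rfl
  have hp : I.IsPrime := by
    refine ⟨?_, ?_⟩
    · rw [Ideal.ne_top_iff_one, hI]
      change ¬ Valued.v (i (1 : K)) < 1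
      rw [map_one, map_one]
      exact lt_irrefl _
    · intro a b hab
      rw [hI] at hab
      rw [hI, hI]
      by_contra h
      push Not at h
      have h1 : Valued.v (i (a : K)) = 1 := le_antisymm (X4_int v i a) h.1
      have h2 : Valued.v (i (b : K)) = 1 := le_antisymm (X4_int v i b) h.2
      have h3 : i (((a * b : 𝓞 K)) : K) = i (a : K) * i (b : K) := map_mul i (a : K) (b : K)
      rw [h3, map_mul, h1, h2, one_mul] at hab
      exact lt_irrefl _ hab
  have hb : I ≠ ⊥ := by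
    obtain ⟨x, hx, hx0⟩ := Submodule.exists_mem_ne_zero_of_ne_bot v.ne_bot
    intro h
    have h1 : algebraMap (𝓞 F) (𝓞 K) x ∈ I := (hI _).2 ((X4_below v i hi x).2 hx)
    rw [h, Ideal.mem_bot] at h1
    exact hx0 ((FaithfulSMul.algebraMap_injective (𝓞 F) (𝓞 K)) (by rw [h1, map_zero]))
  refine ⟨⟨I, hp, hb⟩, ?_, hI⟩
  apply HeightOneSpectrum.ext
  ext x
  exact X4_below v i hi x

private theorem X4_close (v : Pl F) (x y : Fv v) (hy : y ≠ 0) :
    ∃ f : F, Valued.v (x - algebraMap F (Fv v) f) < Valued.v y := by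
  have h0 : Valued.v y ≠ 0 := (Valuation.ne_zero_iff _).2 hy
  have h1 : IsOpen ((fun z : Fv v => x - z) ⁻¹' {z : Fv v | Valued.v z < Valued.v y}) :=
    (CG2.isOpen_val_lt v (Valued.v y) h0).preimage (continuous_const.sub continuous_id)
  have h2 : ((fun z : Fv v => x - z) ⁻¹' {z : Fv v | Valued.v z < Valued.v y}).Nonempty := by
    refine ⟨x, ?_⟩
    change Valued.v (x - x) < Valued.v y
    rw [sub_self, map_zero]
    exact zero_lt_iff.2 h0
  obtain ⟨f, hf⟩ := (HeightOneSpectrum.denseRange_algebraMap F v).exists_mem_open h1 h2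
  exact ⟨f, hf⟩

/-- **X4** (2). Different embeddings give different places.

PROOF. Let `a : K` with `i a ≠ i' a`. Choose `f : F` with `|i a - f| < |i a - i' a|` (`F` is dense in `F_v`) and
`g : F` with `|g| = |i a - i' a|` (the value group); `y = (a - f) / g` satisfies `|i y| < 1`, `|i' y| = 1` (ultrametric:
`i' (a - f) = (i' a - i a) + (i a - f)`). Suppose `w = w'`. The element `y` is in the valuation ring of `w`: otherwise
(valuation ring, `HeightOneSpectrum.valuation`, or `IsLocalization.AtPrime`) `y⁻¹ = a₁ / b₁` with `a₁ ∈ w`,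
`b₁ ∈ 𝓞 K`, `b₁ ∉ w`, and `|i y⁻¹| = |i a₁| / |i b₁| < 1` (`|i b₁| = 1`), contradiction. So `y = a₂ / b₂`, `b₂ ∉ w`,
`|i a₂| = |i y| < 1`, so `a₂ ∈ w = w'`, `|i' a₂| < 1`, `|i' b₂| = 1`, `|i' y| < 1`, contradiction.
(`IsDedekindDomain.HeightOneSpectrum.exists_...`: for `x : K` with `w.valuation K x ≤ 1` there are `a, b : 𝓞 K`,
`b ∉ w`, `x = a / b`: compare `CGN.exists_denom`, UTor.lean.) -/
theorem pl_ne (v : Pl F) (i i' : K →+* Fv v)
    (hi : ∀ a : F, i (algebraMap F K a) = algebraMap F (Fv v) a)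
    (hi' : ∀ a : F, i' (algebraMap F K a) = algebraMap F (Fv v) a) (hne : i ≠ i')
    {w w' : Pl K} (hw : ∀ a : 𝓞 K, a ∈ w.asIdeal ↔ Valued.v (i (a : K)) < 1)
    (hw' : ∀ a : 𝓞 K, a ∈ w'.asIdeal ↔ Valued.v (i' (a : K)) < 1) : w ≠ w' := by
  rintro rfl
  obtain ⟨a, ha⟩ : ∃ a, i a ≠ i' a := by
    by_contra h
    push Not at h
    exact hne (RingHom.ext h)
  have hd : i a - i' a ≠ 0 := sub_ne_zero.2 ha
  have hd0 : Valued.v (i a - i' a) ≠ 0 := (Valuation.ne_zero_iff _).2 hd
  obtain ⟨f, hf⟩ := X4_close v (i a) (i a - i' a) hd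
  obtain ⟨g, hg⟩ := X4_close v (i a - i' a) (i a - i' a) hd
  have hg1 : Valued.v (algebraMap F (Fv v) g) = Valued.v (i a - i' a) :=
    Valuation.map_eq_of_sub_lt _ (by rw [Valuation.map_sub_swap]; exact hg)
  have hgv0 : Valued.v (algebraMap F (Fv v) g) ≠ 0 := by rw [hg1]; exact hd0
  have hyi : Valued.v (i ((a - algebraMap F K f) / algebraMap F K g)) < 1 := by
    rw [map_div₀, map_sub, hi, hi, map_div₀, hg1]
    exact (div_lt_one₀ (zero_lt_iff.2 hd0)).2 hf
  have hyi' : Valued.v (i' ((a - algebraMap F K f) / algebraMap F K g)) = 1 := by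
    rw [map_div₀, map_sub, hi', hi', map_div₀, hg1]
    have h1 : Valued.v (i' a - algebraMap F (Fv v) f) = Valued.v (i' a - i a) := by
      apply Valuation.map_eq_of_sub_lt
      have h2 : i' a - algebraMap F (Fv v) f - (i' a - i a) = i a - algebraMap F (Fv v) f := by
        ring
      rw [h2, Valuation.map_sub_swap _ (i' a) (i a)]
      exact hf
    rw [h1, Valuation.map_sub_swap _ (i' a) (i a), div_self hd0]
  generalize (a - algebraMap F K f) / algebraMap F K g = y at hyi hyi'
  obtain ⟨m, d, h⟩ := HeightOneSpectrum.exists_primeCompl_mul_eq_or_mul_eq w y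
  have hdn : (d : 𝓞 K) ∉ w.asIdeal := d.2
  have hd1 : Valued.v (i ((d : 𝓞 K) : K)) = 1 :=
    le_antisymm (X4_int v i _) (not_lt.1 fun h => hdn ((hw _).2 h))
  have hd2 : Valued.v (i' ((d : 𝓞 K) : K)) = 1 :=
    le_antisymm (X4_int v i' _) (not_lt.1 fun h => hdn ((hw' _).2 h))
  rcases h with h | h
  · have e1 : Valued.v (i (m : K)) < 1 := by
      have h1 : i (m : K) = i y * i ((d : 𝓞 K) : K) := by
        rw [← map_mul]
        exact congrArg i h.symm
      rw [h1, map_mul, hd1, mul_one]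
      exact hyi
    have e2 : Valued.v (i' (m : K)) < 1 := (hw' m).1 ((hw m).2 e1)
    have h1 : i' (m : K) = i' y * i' ((d : 𝓞 K) : K) := by
      rw [← map_mul]
      exact congrArg i' h.symm
    rw [h1, map_mul, hd2, mul_one, hyi'] at e2
    exact lt_irrefl _ e2
  · have h1 : i y * i (m : K) = i ((d : 𝓞 K) : K) := by
      rw [← map_mul]
      exact congrArg i h
    have h2 := congrArg Valued.v h1
    rw [map_mul, hd1] at h2
    have h3 : Valued.v (i y) * Valued.v (i (m : K)) < 1 := by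
      rw [mul_comm]
      exact X4_mul_lt (X4_int v i m) hyi
    rw [h2] at h3
    exact lt_irrefl _ h3
/- END X4 -/

/- MODULE X5 -/
/-- **X5**. The places of `K` above `v ∉ S`.

PROOF. `exists_iv` gives `i`, `exists_pl` for `i` and for `i ∘ c` gives `w` and `w'`, both above `v`, and `IsW κ θ v w`
(`θ_v (κ a)` is the scalar matrix `i a`; `0 < A.n`; off the diagonal the entries are `0`). `w' = {a | c a ∈ w}`.
`pl_ne`: `w ≠ w'` (`i ≠ i ∘ c` because `c a ≠ a` for some `a`). `abv K v` has at most `2` elements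
(`CGN.abv_card_le`, `hU.deg`), so `abv K v = {w, w'}` and `Split K v`. -/
theorem exists_w (hU : IsUni A κ) (hn : 0 < A.n) (c : K ≃ₐ[F] K)
    (hc : ∀ a, star (κ a) = κ (c a)) (θ : USpl A S) (v : {v : Pl F // v ∉ S}) :
    ∃ w w' : Pl K, IsW κ θ v w ∧ below F w = v.1 ∧ below F w' = v.1 ∧ w ≠ w' ∧
      (∀ a a' : 𝓞 K, (a' : K) = c (a : K) → (a ∈ w'.asIdeal ↔ a' ∈ w.asIdeal)) ∧
      Split K v.1 ∧ ∀ w₁ : Pl K, below F w₁ = v.1 → w₁ = w ∨ w₁ = w' := by
  classical
  obtain ⟨i, hi, hs⟩ := exists_iv hU hn θ v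
  obtain ⟨w, hwb, hw⟩ := exists_pl v.1 i hi
  let i' : K →+* Fv v.1 := i.comp (c : K →+* K)
  have hi'a : ∀ a, i' a = i (c a) := fun _ => rfl
  have hi' : ∀ a : F, i' (algebraMap F K a) = algebraMap F (Fv v.1) a := by
    intro a
    rw [hi'a, c.commutes, hi]
  obtain ⟨w', hwb', hw'⟩ := exists_pl v.1 i' hi'
  have hne : i ≠ i' := by
    intro h
    obtain ⟨a, ha⟩ := hU.kind
    apply ha
    rw [hc]
    have h1 : i a = i (c a) := by
      rw [← hi'a, ← h]
    rw [← i.injective h1]
  have hww : w ≠ w' := pl_ne v.1 i i' hi hi' hne hw hw'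
  have hsub : ({w, w'} : Finset (Pl K)) ⊆ abv K v.1 := by
    intro x hx
    rw [Finset.mem_insert, Finset.mem_singleton] at hx
    rw [CGN.mem_abv]
    rcases hx with rfl | rfl
    · exact hwb
    · exact hwb'
  have hcard2 : ({w, w'} : Finset (Pl K)).card = 2 := Finset.card_pair hww
  have hle : (abv K v.1).card ≤ 2 := by
    rw [← hU.deg]
    exact CGN.abv_card_le v.1
  have heq : ({w, w'} : Finset (Pl K)) = abv K v.1 :=
    Finset.eq_of_subset_of_card_le hsub (by rw [hcard2]; exact hle)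
  refine ⟨w, w', ?_, hwb, hwb', hww, ?_, ?_, ?_⟩
  · intro a
    rw [hw a]
    constructor
    · intro h x y
      rw [hs, Matrix.scalar_apply, Matrix.diagonal_apply]
      split_ifs with hxy
      · exact h
      · rw [map_zero]
        exact zero_lt_one
    · intro h
      have h1 := h ⟨0, hn⟩ ⟨0, hn⟩
      rw [hs, Matrix.scalar_apply, Matrix.diagonal_apply_eq] at h1
      exact h1
  · intro a a' haa
    rw [hw', hw, hi'a, ← haa]
  · change (abv K v.1).card = Module.finrank F K
    rw [hU.deg, ← heq, hcard2]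
  · intro w₁ h₁
    have h2 : w₁ ∈ abv K v.1 := CGN.mem_abv.2 h₁
    rw [← heq, Finset.mem_insert, Finset.mem_singleton] at h2
    exact h2

/-- The place given by `θ_v` is unique, and the side of `Q`.

PROOF. Unfold. -/
theorem isW_unique {θ : USpl A S} {v : {v : Pl F // v ∉ S}} {w w' : Pl K} (h : IsW κ θ v w)
    (h' : IsW κ θ v w') : w = w' := by
  apply HeightOneSpectrum.ext
  ext a
  rw [h a, h' a]

theorem side_iff {θ : USpl A S} {v : {v : Pl F // v ∉ S}} {w w₁ : Pl K} (h : IsW κ θ v w)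
    (j : K →ₐ[F] Fbar F) {Q : Ideal (Zbar F)} (hQ : Q.comap (incj j) = w₁.asIdeal) :
    Side κ j θ v Q ↔ w₁ = w := by
  constructor
  · intro hs
    apply HeightOneSpectrum.ext
    ext a
    rw [h a, ← hs a, ← hQ, Ideal.mem_comap]
  · rintro rfl a
    rw [← h a, ← hQ, Ideal.mem_comap]
/- END X5 -/

end Pool.Agent.CGU
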